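import Pool.Agent.H51.CUB.Def
import Pool.Agent.H63.MA.GHeis

/-!
[H51 CUB RHI]  Kummer characters and `Rho` on inertia groups (60-90 lines). PROOF.

`kk_inr`: `kc p ζ Ω a` is a homomorphism of finite type to `Multiplicative (ZMod p)` (`kc_is`), exponent `p`; `H38.BG.tm_z` gives
`kk a τ = (kk (pi v) τ).val • kk a (L.t v)` and `kk a (L.t v) = ord v a` by `ld_kk_t` (see `kk_pi` in `H63/MA/GTw`).
`rho_inr`: put `φ = gheis_hom ζ (fun _ : Unit => d) (fun _ => c) Y _ : Γ → GHeisG p Unit` (`H63/MA/GHeis`; `∑ j : Unit` is one term), of finite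
type (`gheis_hom_ft`). For `τ ∈ inr L v`: `x(φ τ) * y(φ τ) = kk d τ * kk c τ = 0` by `kk_inr` (one of the two orders is `0`), so `φ τ ^ p = 1` (`gheis_exp`), hence
`φ τ = φ (L.t v) ^ n` (`tm_z`), and by `gheis_pow` the third coordinate is `n * Y (L.t v) + (n choose 2) * (x * y) = 0`.
-/

set_option autoImplicit false

open scoped NumberField
open IsDedekindDomain
open scoped Classical

noncomputable section

namespace H51.CUB

open H63.MA H38.BB H38.BG H57.PC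

variable {K : Type} [Field K] [NumberField K] {p : ℕ} {ζ : K} {Ω : Type} [Field Ω] [Algebra K Ω]
  [IsAlgClosure K Ω]

theorem kk_inr (hp : p.Prime) (hζ : IsPrimitiveRoot ζ p) {D : RD0 K p ζ} (L : LDs D Ω) (v : Pl K)
    (hv : v ∉ D.S0) (a : Kˣ) (τ : Gal(Ω/K)) (hτ : τ ∈ inr L v) :
    kk p ζ a τ = ((ord v a : ℤ) : ZMod p) * kk p ζ (D.pi v) τ := by
  have h1 : inr L v = (L.ld v hv).P.inertia Gal(Ω/K) := by
    unfold inr
    rw [dif_pos hv]
  rw [h1] at hτ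
  exact ld_kk hp hζ (fun h => hv (D.above v h)) (D.pi_self v hv) (L.ld v hv) τ hτ a

theorem rho_inr (hp : p.Prime) (hζ : IsPrimitiveRoot ζ p) {D : RD0 K p ζ} (L : LDs D Ω) {d c : Kˣ}
    {Y : Gal(Ω/K) → ZMod p} (hY : Rho L d c Y) (v : Pl K) (hv : v ∉ D.S0)
    (h : ((ord v d : ℤ) : ZMod p) = 0 ∨ ((ord v c : ℤ) : ZMod p) = 0) (τ : Gal(Ω/K))
    (hτ : τ ∈ inr L v) : Y τ = 0 := by
  haveI : NeZero p := ⟨hp.ne_zero⟩
  haveI : Finite (GHeisG p Unit) := gheis_finite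
  have hl : ∀ σ τ, Y (σ * τ) = Y σ + Y τ +
      ∑ j : Unit, cu p ζ ((fun _ : Unit => d) j) ((fun _ : Unit => c) j) σ τ := by
    intro σ τ
    rw [hY.add]
    simp [cu]
  have h0 : ∀ τ ∈ inr L v, kk p ζ d τ * kk p ζ c τ = 0 := by
    intro τ hτ
    rw [kk_inr hp hζ L v hv d τ hτ, kk_inr hp hζ L v hv c τ hτ]
    rcases h with h | h
    · rw [h]
      ring
    · rw [h]
      ring
  have hs : ∀ τ ∈ inr L v,
      ∑ j, (gheis_hom ζ (fun _ : Unit => d) (fun _ => c) Y hl τ).x j *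
        (gheis_hom ζ (fun _ : Unit => d) (fun _ => c) Y hl τ).y j = 0 := by
    intro τ hτ
    rw [Fintype.sum_unique]
    exact h0 τ hτ
  have he : ∀ τ ∈ inr L v, gheis_hom ζ (fun _ : Unit => d) (fun _ => c) Y hl τ ^ p = 1 :=
    fun τ hτ => gheis_exp _ (hs τ hτ)
  have ht : L.t v ∈ inr L v := by
    have h1 : inr L v = (L.ld v hv).P.inertia Gal(Ω/K) := by
      unfold inr
      rw [dif_pos hv]
    have h2 : L.t v = (L.ld v hv).t := by
      unfold LDs.t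
      rw [dif_pos hv]
    rw [h1, h2]
    exact (L.ld v hv).ht
  have hz := H38.BG.tm_z hp hζ L (gheis_hom ζ (fun _ : Unit => d) (fun _ => c) Y hl)
    (gheis_hom_ft hp hζ _ _ Y hl hY.lev) v hv he τ hτ
  rw [gheis_pow, hs _ ht] at hz
  have h3 := congrArg GHeisG.z hz
  have h4 : (gheis_hom ζ (fun _ : Unit => d) (fun _ => c) Y hl τ).z = Y τ := rfl
  have h5 : (gheis_hom ζ (fun _ : Unit => d) (fun _ => c) Y hl (L.t v)).z = Y (L.t v) := rfl
  rw [h4] at h3
  rw [h3]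
  show _ * (gheis_hom ζ (fun _ : Unit => d) (fun _ => c) Y hl (L.t v)).z + _ = _
  rw [h5, hY.tz v hv, mul_zero, mul_zero, add_zero]

end H51.CUB
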