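import Pool.Agent.H51.CUB.DIA
import Pool.Agent.H38.ML.Disc
import Pool.Agent.H36.QA.ADefs
import Pool.Agent.H51.CUB.RHI
import Pool.Agent.H63.MA.GDisU
import Pool.Agent.H38.BG.DUp

/-!
[H51 CUB DSC]  The discriminant and the signature of `M = K(c^{1/p})` (120-160 lines). PROOF.

`dsc_tc`: `K` is totally complex because it contains a primitive `p`-th root of unity and `-1` is a `p`-th power (`MOne`; for `p = 2`: `i ∈ K`; for odd `p`: a real place would contain `ζ`; see how `TC` is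
proved elsewhere: grep `IsTotallyComplex` in `Pool/Agent/H36/QA`, `H38`, `H77`), hence so is every extension `M` of `K`, and `[M : ℚ] = p [K : ℚ]` (`Module.finrank_mul_finrank`).
`dsc`: (1) `dd M = dd K ^ p * N(different(M/K))`, or the inequality `≤`: see `H38/ML` (`relDisc`, `Tower`), `H36/QA` (grep `differentIdeal`, `dd`), Mathlib `NumberField.discr` and `differentIdeal`
transitivity (grep in `Pool/Agent` for the tower formula, it has been proved: e.g. `H38/ML/Disc`, `H36/QA/F*`). (2) `disc_bound Ω p S hS hSn` (`H38/ML/Disc`) with `S` = the primes above `S0` or dividing `p!`;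
it bounds `absNorm (differentIdeal)` by `C * (∏ v ∈ T, absNorm v) ^ w` with `w = p` (the condition for `v ∈ T`: `p ≤ p + _` is trivial; any prime `𝔓` of `𝓞 Ω` over `v` works) provided every
`v ∉ S, T` satisfies `p ≤ embOrb M (𝔓.inertia Gal(Ω/K))`, i.e. the inertia group at `v` acts trivially on the embeddings of `M`: take `𝔓 = (L.ld v hv).P`; `τ ∈ inr L v` has `kk c τ = ord v c * _ = 0` (`kk_inr`), also its
conjugates, so it is in `M.fixingSubgroup`, which is normal, so every inertia orbit on the `p` embeddings is a singleton (see the end of the proof of `H63/MA/GDisU`, `H38/ML/Up*` for the same argument with `embOrb`).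
-/

set_option autoImplicit false

open scoped NumberField
open IsDedekindDomain
open scoped Classical

noncomputable section

namespace H51.CUB

open H63.MA H38.BB H38.BG H57.PC H36.QA

variable {K : Type} [Field K] [NumberField K] {p : ℕ} {ζ : K} {Ω : Type} [Field Ω] [Algebra K Ω]
  [IsAlgClosure K Ω]

theorem dsc_tc (hp : p.Prime) (hp2 : MOne p K) (hζ : IsPrimitiveRoot ζ p)
    (M : IntermediateField K Ω) [FiniteDimensional K M] [NumberField M] {c : Kˣ}
    (hM : KF p ζ c M) : TC M (p * Module.finrank ℚ K) := by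
  refine ⟨?_, ?_⟩
  · have h0 : ∃ (k : ℕ) (x : K), 2 < k ∧ IsPrimitiveRoot x k := by
      rcases hp.two_le.eq_or_lt with h2 | h2
      · obtain ⟨i, hi⟩ := hp2
        refine ⟨4, i, by norm_num, ?_⟩
        have hne : (-1 : K) ≠ 1 := by
          intro h
          have h3 : (2 : K) = 0 := by linear_combination -h
          exact two_ne_zero h3
        rw [← h2] at hi
        have h4 : orderOf i = 2 ^ (1 + 1) := by
          refine orderOf_eq_prime_pow (p := 2) (n := 1) ?_ ?_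
          · rw [pow_one, hi]
            exact hne
          · calc i ^ 2 ^ (1 + 1) = (i ^ 2) ^ 2 := by ring
              _ = 1 := by rw [hi]; ring
        have h5 := IsPrimitiveRoot.orderOf i
        rw [h4] at h5
        exact h5
      · exact ⟨p, ζ, h2, hζ⟩
    obtain ⟨k, x, hk, hx⟩ := h0
    have h1 : IsPrimitiveRoot (algebraMap K M x) k := hx.map_of_injective (algebraMap K M).injective
    exact NumberField.nrRealPlaces_eq_zero_iff.mp
      (NumberField.InfinitePlace.IsPrimitiveRoot.nrRealPlaces_eq_zero_of_two_lt hk h1)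
  · rw [← Module.finrank_mul_finrank ℚ K M, hM.deg, mul_comm]

/-- an inertia group in the kernel acts trivially on the embeddings -/
theorem dsc_orb {c : Kˣ} (M : IntermediateField K Ω) [FiniteDimensional K M] (hM : KF p ζ c M)
    (J : Subgroup Gal(Ω/K)) (hJ : ∀ τ ∈ J, kk p ζ c τ = 0) : H38.ML.embOrb M J = p := by
  have hcl : IsAlgClosed Ω := IsAlgClosure.isAlgClosed K
  have hnorm : Normal K Ω := IsAlgClosure.normal K Ω
  have halg : Algebra.IsAlgebraic K Ω := IsAlgClosure.isAlgebraic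
  have key : ∀ τ ∈ J, ∀ φ : M →ₐ[K] Ω, ((τ : Gal(Ω/K)) : Ω →ₐ[K] Ω).comp φ = φ := by
    intro τ hτ φ
    let g : Gal(Ω/K) := AlgEquiv.ofBijective (φ.liftNormal Ω)
      (Algebra.IsAlgebraic.algHom_bijective _)
    have hg : ∀ x : M, g (x : Ω) = φ x := fun x => AlgHom.liftNormal_commutes φ Ω x
    have h1 : g⁻¹ * τ * g ∈ M.fixingSubgroup := by
      rw [hM.fix, kk_mul, kk_mul, hJ τ hτ, add_zero, ← kk_mul, inv_mul_cancel, kk_one]
    ext x
    have h2 := (IntermediateField.mem_fixingSubgroup_iff M _).1 h1 x.1 x.2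
    have h3 : g ((g⁻¹ * τ * g) (x : Ω)) = g (x : Ω) := congrArg g h2
    have h4 : g ((g⁻¹ * τ * g) (x : Ω)) = τ (g (x : Ω)) := by
      rw [← AlgEquiv.mul_apply, ← mul_assoc, ← mul_assoc, mul_inv_cancel, one_mul,
        AlgEquiv.mul_apply]
    rw [h4, hg] at h3
    exact h3
  unfold H38.ML.embOrb
  rw [← hM.deg, ← AlgHom.card K M Ω, ← Nat.card_eq_fintype_card]
  refine Nat.card_congr ?_
  refine ⟨Quot.lift id ?_, Quot.mk _, ?_, ?_⟩
  · rintro φ ψ ⟨τ, hτ, rfl⟩
    exact (key τ hτ φ).symm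
  · intro x
    induction x using Quot.ind with
    | mk φ => rfl
  · intro φ
    rfl

theorem dsc (hp : p.Prime) (hζ : IsPrimitiveRoot ζ p) (D : RD0 K p ζ) (L : LDs D Ω) :
    ∃ C : ℝ, 1 ≤ C ∧ ∀ (c : Kˣ) (T : Finset (Pl K)), (∀ v ∈ T, v ∉ D.S0) →
      (∀ v, v ∉ D.S0 → v ∉ T → ((ord v c : ℤ) : ZMod p) = 0) →
      ∀ (M : IntermediateField K Ω) [FiniteDimensional K M] [NumberField M], KF p ζ c M →
        dd M ≤ C * (nr T) ^ p := by
  classical
  set S : Set (Ideal (𝓞 K)) := ((D.S0.image fun v : Pl K => v.asIdeal : Finset (Ideal (𝓞 K))) :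
    Set (Ideal (𝓞 K))) ∪
    {v : Ideal (𝓞 K) | v.IsPrime ∧ v ≠ ⊥ ∧ ((p.factorial : ℕ) : 𝓞 K) ∈ v} with hS
  have hSf : S.Finite := (Finset.finite_toSet _).union (gdisu_fin p)
  obtain ⟨C, hC, hb⟩ := H38.ML.disc_bound Ω p S hSf (fun v hv hv0 hvS hmem =>
    hvS (Or.inr ⟨hv, hv0, hmem⟩))
  have hK1 : 1 ≤ (NumberField.discr K).natAbs :=
    Nat.one_le_iff_ne_zero.mpr (Int.natAbs_ne_zero.mpr (NumberField.discr_ne_zero K))
  refine ⟨((C * (NumberField.discr K).natAbs ^ p : ℕ) : ℝ), ?_, ?_⟩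
  · exact_mod_cast Nat.mul_pos hC (Nat.pow_pos hK1)
  intro c T hT hc M hfd hnf hM
  set T₀ : Finset (Pl K) := T.filter fun v => v.asIdeal ∉ S with hT₀
  have hS0 : ∀ v : Pl K, v.asIdeal ∉ S → v ∉ D.S0 := by
    intro v hv h
    exact hv (Or.inl (Finset.mem_coe.2 (Finset.mem_image_of_mem _ h)))
  have hmain := hb M hfd hnf hM.deg (T₀.image fun v => v.asIdeal) p
    (by
      intro v hv
      obtain ⟨w, -, rfl⟩ := Finset.mem_image.1 hv
      exact ⟨w.isPrime, w.ne_bot⟩)
    (by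
      intro v hv
      obtain ⟨w, hw, rfl⟩ := Finset.mem_image.1 hv
      have hw0 := hS0 w (Finset.mem_filter.1 hw).2
      exact ⟨(L.ld w hw0).P, (L.ld w hw0).prime, (L.ld w hw0).under, Nat.le_add_right _ _⟩)
    (by
      intro v hv hv0 hvS hvT
      have hw0 : (⟨v, hv, hv0⟩ : Pl K) ∉ D.S0 := hS0 ⟨v, hv, hv0⟩ hvS
      have hwT : (⟨v, hv, hv0⟩ : Pl K) ∉ T := by
        intro h
        exact hvT (Finset.mem_image.2 ⟨⟨v, hv, hv0⟩, Finset.mem_filter.2 ⟨h, hvS⟩, rfl⟩)
      refine ⟨(L.ld _ hw0).P, (L.ld _ hw0).prime, (L.ld _ hw0).under, ?_⟩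
      rw [dsc_orb M hM]
      intro τ hτ
      have hτ' : τ ∈ inr L ⟨v, hv, hv0⟩ := by rw [dup_inr L _ hw0]; exact hτ
      rw [kk_inr hp hζ L _ hw0 c τ hτ', hc _ hw0 hwT, zero_mul])
  have hprod : ∏ v ∈ T₀.image (fun v : Pl K => v.asIdeal), Ideal.absNorm v ≤ ∏ v ∈ T, nm v := by
    rw [Finset.prod_image (fun a _ b _ h => HeightOneSpectrum.ext h)]
    refine Finset.prod_le_prod_of_subset_of_one_le' (Finset.filter_subset _ _) fun v _ _ => ?_
    exact Nat.one_le_iff_ne_zero.2 fun h => v.ne_bot (Ideal.absNorm_eq_zero_iff.1 h)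
  have h1 : Ideal.absNorm (differentIdeal (𝓞 K) (𝓞 M)) ≤ C * (∏ v ∈ T, nm v) ^ p :=
    le_trans hmain (Nat.mul_le_mul_left _ (Nat.pow_le_pow_left hprod _))
  have h2 := NumberField.natAbs_discr_eq_absNorm_differentIdeal_mul_natAbs_discr_pow
    K (𝓞 K) M (𝓞 M)
  have h4 : dd M = (((NumberField.discr M).natAbs : ℕ) : ℝ) := by
    unfold dd
    rw [Nat.cast_natAbs, Int.cast_abs]
  rw [h4, h2, hM.deg]
  have h5 : Ideal.absNorm (differentIdeal (𝓞 K) (𝓞 M)) * (NumberField.discr K).natAbs ^ p ≤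
      (C * (∏ v ∈ T, nm v) ^ p) * (NumberField.discr K).natAbs ^ p :=
    Nat.mul_le_mul_right _ h1
  calc ((Ideal.absNorm (differentIdeal (𝓞 K) (𝓞 M)) * (NumberField.discr K).natAbs ^ p : ℕ) : ℝ)
      ≤ (((C * (∏ v ∈ T, nm v) ^ p) * (NumberField.discr K).natAbs ^ p : ℕ) : ℝ) := by
        exact_mod_cast h5
    _ = _ := by
        unfold nr
        push_cast
        ring

end H51.CUB
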