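import Pool.Agent.H51.CUB.DUA

/-!
[H51 CUB DUB]  The index of the locally trivial elements (100-140 lines). PROOF.

`dub_tame`: `v` not above `p`, `π` with `ord v π = 1`, `u` with `ord v u = 0`, `lg v u = 1` (`exists_unif`, `exists_lg`): `R = {π ^ i u ^ j : i, j < p}`. For `x ∈ Kˣ` put `i = ord v x mod p`, `j = lg v (x π ^ (-ord v x))`; then
`z = x * (π ^ i u ^ j)⁻¹` has `p ∣ ord v z` and `B v z y = 0` for all `y` (`b_eq` in `H63/MA/GHeis`: `B v z y = lgv v π z * ord v y - ord v z * lgv v π y`).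
`dub`: for every `v ∈ S0` a finite set `R v`. For every tuple `(y_v) ∈ ∏ R v` (`Fintype.piFinset` over `↥S0`, or `Finset.pi`) choose, if possible, one `x ∈ Kˣ` such that `x * y_v⁻¹` is locally trivial at `v` for all `v ∈ S0`
(`LocP` above `p`, `Spl` otherwise); `R` = the set of the chosen elements, `#R ≤ ∏ #R v`. For `x ∈ Kˣ` choose `y_v`; the chosen `x'` for this tuple has `x * x'⁻¹ = (x y_v⁻¹) (x' y_v⁻¹)⁻¹` locally trivial everywhere (`LocP`, `Spl` are multiplicative: see `RMkA_mul`,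
`RMkA_inv`, `prim_mul`; local versions of `LocP` in `SymC`). COUNT: `∏_(v ∈ S0) #R v ≤ p ^ (2 #S0) * ∏_(v above p) (nm v) ^ e_v = p ^ (2 #S0) * N(p 𝓞 K) = p ^ (2 #S0 + n)`: the ideal `(p)` is
`∏_(v above p) v ^ e_v` (`Ideal.finprod_heightOneSpectrum_factorization` or normalizedFactors) and `absNorm (span {p}) = p ^ n` (`Ideal.absNorm_span_singleton`, `Algebra.norm_algebraMap`, `n = [K : ℚ]`).
-/

set_option autoImplicit false

open scoped NumberField
open IsDedekindDomain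
open scoped Classical

noncomputable section

namespace H51.CUB

open H63.MA

variable {K : Type} [Field K] [NumberField K] {p : ℕ} {ζ : K}

theorem dub_tame (hp : p.Prime) (hζ : IsPrimitiveRoot ζ p) (v : Pl K) (hv : ¬ Above p v) :
    ∃ R : Finset Kˣ, R.card ≤ p ^ 2 ∧ ∀ x : Kˣ, ∃ y ∈ R, Spl p ζ v (x * y⁻¹) := by
  have : Fact p.Prime := ⟨hp⟩
  obtain ⟨π, hπ⟩ := exists_unif v
  obtain ⟨u, hu, hu1⟩ := exists_lg hp hζ hv 1
  refine ⟨((Finset.range p) ×ˢ (Finset.range p)).image (fun ij => π ^ ij.1 * u ^ ij.2), ?_, ?_⟩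
  · refine Finset.card_image_le.trans ?_
    rw [Finset.card_product, Finset.card_range, sq]
  · intro x
    have hp0 : (0 : ℤ) < p := by exact_mod_cast hp.pos
    obtain ⟨i, hi⟩ : ∃ i : ℕ, (i : ℤ) = ord v x % p := ⟨(ord v x % p).toNat,
      Int.toNat_of_nonneg (Int.emod_nonneg _ hp0.ne')⟩
    have hip : i < p := by
      have := Int.emod_lt_of_pos (ord v x) hp0
      omega
    set z : Kˣ := x * (π ^ i)⁻¹ with hz
    have hoz : ord v z = ord v x - i := by
      rw [hz, ord_mul, ord_inv, ← zpow_natCast, ord_zpow, hπ]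
      ring
    have hdz : (p : ℤ) ∣ ord v z := by
      rw [hoz, hi]
      exact Int.dvd_self_sub_emod
    refine ⟨π ^ i * u ^ (B p ζ v z π).val, Finset.mem_image.2
      ⟨(i, (B p ζ v z π).val), ?_, rfl⟩, ?_⟩
    · rw [Finset.mem_product, Finset.mem_range, Finset.mem_range]
      exact ⟨hip, ZMod.val_lt _⟩
    · intro y
      have he : x * (π ^ i * u ^ (B p ζ v z π).val)⁻¹ = z * (u ^ (((B p ζ v z π).val : ℕ) : ℤ))⁻¹ := by
        rw [hz, mul_inv, zpow_natCast, mul_assoc]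
      rw [he]
      have hoc : ord v (z * (u ^ (((B p ζ v z π).val : ℕ) : ℤ))⁻¹) = ord v z := by
        rw [ord_mul, ord_inv, ord_zpow, hu]
        ring
      rw [B_unram hp hζ hv (by rw [hoc]; exact hdz) hπ y, B_mul_left hp hζ hv,
        B_inv_left hp hζ hv, B_zpow_left hp hζ hv, B_unit hp hζ hv hu, hπ, hu1]
      simp

/-- the norms of the primes above `p` -/
theorem dub_norm (hp : p.Prime) (S0 : Finset (Pl K)) (hS : ∀ v, Above p v → v ∈ S0) :
    ∃ e : Pl K → ℕ, (∀ v, v.valuation K (p : K) = WithZero.exp (-(e v : ℤ))) ∧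
      ∏ v ∈ S0, nm v ^ e v = p ^ Module.finrank ℚ K := by
  have hp0 : (p : 𝓞 K) ≠ 0 := by exact_mod_cast hp.ne_zero
  have hI : Ideal.span {(p : 𝓞 K)} ≠ 0 := by
    simpa using hp0
  refine ⟨fun v => (Associates.mk v.asIdeal).count
    (Associates.mk (Ideal.span {(p : 𝓞 K)})).factors, fun v => ?_, ?_⟩
  · have h1 : (p : K) = algebraMap (𝓞 K) K (p : 𝓞 K) := by simp
    rw [h1, HeightOneSpectrum.valuation_of_algebraMap, HeightOneSpectrum.intValuation_if_neg _ hp0]
  · have h2 := Ideal.finprod_heightOneSpectrum_factorization hI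
    have h3 : ∏ᶠ v : Pl K, v.maxPowDividing (Ideal.span {(p : 𝓞 K)}) =
        ∏ v ∈ S0, v.maxPowDividing (Ideal.span {(p : 𝓞 K)}) := by
      refine finprod_eq_prod_of_mulSupport_subset _ ?_
      intro v hv
      rw [Function.mem_mulSupport] at hv
      refine Finset.mem_coe.2 (hS v ?_)
      by_contra hna
      apply hv
      have h4 : (Associates.mk v.asIdeal).count
          (Associates.mk (Ideal.span {(p : 𝓞 K)})).factors = 0 := by
        by_contra h5
        apply hna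
        have h6 : v.asIdeal ∣ Ideal.span {(p : 𝓞 K)} := by
          have := (Associates.count_ne_zero_iff_dvd hI v.irreducible).1 h5
          exact this
        exact Ideal.dvd_span_singleton.1 h6
      unfold HeightOneSpectrum.maxPowDividing
      rw [h4, pow_zero]
    rw [h3] at h2
    have h7 := congrArg Ideal.absNorm h2
    rw [map_prod, Ideal.absNorm_span_singleton] at h7
    have h8 : (Algebra.norm ℤ (p : 𝓞 K)).natAbs = p ^ Module.finrank ℚ K := by
      have h9 : (p : 𝓞 K) = algebraMap ℤ (𝓞 K) (p : ℤ) := by simp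
      rw [h9, Algebra.norm_algebraMap, NumberField.RingOfIntegers.rank, Int.natAbs_pow, Int.natAbs_natCast]
    rw [h8] at h7
    rw [← h7]
    refine Finset.prod_congr rfl fun v _ => ?_
    unfold HeightOneSpectrum.maxPowDividing nm
    rw [map_pow]

theorem dub (hp : p.Prime) (hp2 : MOne p K) (hζ : IsPrimitiveRoot ζ p) (S0 : Finset (Pl K))
    (hS : ∀ v, Above p v → v ∈ S0) :
    ∃ R : Finset Kˣ, R.card ≤ p ^ (2 * S0.card + Module.finrank ℚ K) ∧
      ∀ x : Kˣ, ∃ y ∈ R, PS p ζ S0 (x * y⁻¹) := by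
  obtain ⟨e, he, hprod⟩ := dub_norm (K := K) hp S0 hS
  have hloc : ∀ v : Pl K, ∃ R : Finset Kˣ, R.card ≤ p ^ 2 * nm v ^ e v ∧
      ∀ x : Kˣ, ∃ y ∈ R, (Above p v → LocP p v (x * y⁻¹)) ∧
        (¬ Above p v → Spl p ζ v (x * y⁻¹)) := by
    intro v
    by_cases hv : Above p v
    · obtain ⟨R, hR, h⟩ := dua_loc hp hζ v hv (e v) (he v)
      refine ⟨R, hR, fun x => ?_⟩
      obtain ⟨y, hy, h1⟩ := h x
      exact ⟨y, hy, fun _ => h1, fun h2 => absurd hv h2⟩
    · obtain ⟨R, hR, h⟩ := dub_tame hp hζ v hv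
      have hnm : 0 < nm v := Nat.pos_of_ne_zero fun h0 => v.ne_bot (Ideal.absNorm_eq_zero_iff.1 h0)
      refine ⟨R, hR.trans (Nat.le_mul_of_pos_right _ (pow_pos hnm _)), fun x => ?_⟩
      obtain ⟨y, hy, h1⟩ := h x
      exact ⟨y, hy, fun h2 => absurd h2 hv, fun _ => h1⟩
  choose Rv hcard hRv using hloc
  let Good : Kˣ → ({v // v ∈ S0} → Kˣ) → Prop := fun x t => ∀ v : {v // v ∈ S0},
    (Above p v.1 → LocP p v.1 (x * (t v)⁻¹)) ∧ (¬ Above p v.1 → Spl p ζ v.1 (x * (t v)⁻¹))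
  let f : ({v // v ∈ S0} → Kˣ) → Kˣ := fun t => if h : ∃ x, Good x t then h.choose else 1
  refine ⟨(Fintype.piFinset fun v : {v // v ∈ S0} => Rv v.1).image f, ?_, ?_⟩
  · refine Finset.card_image_le.trans ?_
    rw [Fintype.card_piFinset]
    calc ∏ v : {v // v ∈ S0}, (Rv v.1).card ≤ ∏ v : {v // v ∈ S0}, (p ^ 2 * nm v.1 ^ e v.1) :=
          Finset.prod_le_prod' fun v _ => hcard v.1
      _ = ∏ v ∈ S0, (p ^ 2 * nm v ^ e v) :=
          Finset.prod_coe_sort S0 (fun v => p ^ 2 * nm v ^ e v)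
      _ = p ^ (2 * S0.card + Module.finrank ℚ K) := by
          rw [Finset.prod_mul_distrib, hprod, Finset.prod_const, ← pow_mul, pow_add]
  · intro x
    choose y hy hx using fun v : Pl K => hRv v x
    let t : {v // v ∈ S0} → Kˣ := fun v => y v.1
    have ht : ∃ x, Good x t := ⟨x, fun v => hx v.1⟩
    have hft : Good (f t) t := by
      show Good (if h : ∃ x, Good x t then h.choose else 1) t
      rw [dif_pos ht]
      exact ht.choose_spec
    refine ⟨f t, Finset.mem_image.2 ⟨t, ?_, rfl⟩, ?_⟩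
    · rw [Fintype.mem_piFinset]
      exact fun v => hy v.1
    · have key : ∀ v : Pl K, x * (f t)⁻¹ = (x * (y v)⁻¹) * (f t * (y v)⁻¹)⁻¹ := by
        intro v
        rw [mul_inv, inv_inv]
        have : (y v)⁻¹ * ((f t)⁻¹ * y v) = (f t)⁻¹ := by
          rw [mul_comm (f t)⁻¹, inv_mul_cancel_left]
        rw [mul_assoc, this]
      refine ⟨fun v hv => ?_, fun v hvS hv => ?_⟩
      · rw [key v]
        exact lin_loc_mul ((hx v).1 hv) (lin_loc_inv ((hft ⟨v, hS v hv⟩).1 hv))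
      · rw [key v]
        intro w
        rw [B_mul_left hp hζ hv, B_inv_left hp hζ hv, (hx v).2 hv w, (hft ⟨v, hvS⟩).2 hv w]
        simp

end H51.CUB
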