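import Pool.Agent.H63.MA.SUnit
import Pool.Agent.H63.MA.Base
import Pool.Agent.H63.MA.GBase

/-!
[H51 CUB DUC]  Independent `S0`-units (80-120 lines). PROOF.

`K` is totally complex because of `MOne p K` and `ζ` (for `p = 2` the element `i`, for odd `p` the root of unity; grep `IsTotallyComplex`), so `n = [K : ℚ] = 2 r₂` and `NumberField.Units.rank K = r₂ - 1` (Mathlib: `NumberField.Units.rank`, `InfinitePlace.card`,
`nrRealPlaces = 0`). `M = Additive (UT S0)` is a finitely generated `ℤ`-module (`ut_finite`) of rank `r₂ - 1 + #S0` (`ut_rank`). Let `k = #S0 + r₂`. `M / torsion` is free of rank `k - 1` (Mathlib: `Module.Free` for torsion free f.g. modules over `ℤ`,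
`Submodule.torsion`); lift a basis to `u_1, .., u_(k-1)`, and let `u_0` generate the `p`-part: the torsion subgroup of `M` consists of roots of unity of `K` (`x` with `x ^ m = 1`, `m > 0`), it is finite cyclic (`rootsOfUnity`, finite subgroup of `Kˣ`), its order is divisible by
`p` (it contains `ζ`); let `u_0` be a generator. INDEPENDENCE: suppose `∏ u_i ^ (a_i) = y ^ p` with `y ∈ Kˣ`. Then `y ∈ UT S0` (`p * ord v y = 0` for `v ∉ S0`). Modulo torsion: `a_i ≡ 0` mod `p` for `i ≥ 1` (coordinates in the basis), `a_i = p b_i`, so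
`u_0 ^ (a_0) = (y ∏ u_i ^ (-b_i)) ^ p = z ^ p` with `z` torsion, so `z = u_0 ^ c` and `u_0 ^ (a_0 - p c) = 1`, hence the order of `u_0`, a multiple of `p`, divides `a_0 - p c`: `p ∣ a_0`.
-/

set_option autoImplicit false

open scoped NumberField
open IsDedekindDomain
open scoped Classical

noncomputable section

namespace H51.CUB

open H63.MA

variable {K : Type} [Field K] [NumberField K] {p : ℕ} {ζ : K}

private theorem duc_tc (hp : p.Prime) (hp2 : MOne p K) (hζ : IsPrimitiveRoot ζ p) :
    NumberField.IsTotallyComplex K := by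
  refine ⟨fun w => ?_⟩
  rw [← NumberField.InfinitePlace.not_isReal_iff_isComplex]
  intro hw
  set σ : K →+* ℝ := NumberField.InfinitePlace.embedding_of_isReal hw with hσ
  rcases hp.eq_two_or_odd' with h2 | hodd
  · obtain ⟨i, hi⟩ := hp2
    have h1 : σ i ^ 2 = -1 := by
      rw [← map_pow, ← h2, hi, map_neg, map_one]
    nlinarith [sq_nonneg (σ i)]
  · have h1 : σ ζ ^ p = 1 := by
      rw [← map_pow, hζ.pow_eq_one, map_one]
    have h2 : σ ζ = 1 := by
      have h3 : σ ζ ^ p = (1 : ℝ) ^ p := by rw [h1, one_pow]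
      exact hodd.strictMono_pow.injective h3
    have h3 : ζ = 1 := by
      apply σ.injective
      rw [h2, map_one]
    exact hζ.ne_one hp.one_lt h3

private theorem duc_gen (K : Type) [Field K] [NumberField K] : ∃ u0 : Kˣ, IsOfFinOrder u0 ∧
    (∀ v : Pl K, ord v u0 = 0) ∧
    ∀ z : Kˣ, IsOfFinOrder z → ∃ c : ℤ, u0 ^ c = z := by
  obtain ⟨⟨g, hg⟩, hgen⟩ := IsCyclic.exists_generator (α := NumberField.Units.torsion K)
  have hinj : Function.Injective (sunit_co K) := by
    intro a b hab
    apply Units.ext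
    apply FaithfulSMul.algebraMap_injective (𝓞 K) K
    exact congrArg (fun u : Kˣ => (u : K)) hab
  refine ⟨sunit_co K g, ?_, fun v => sunit_co_ord v g, ?_⟩
  · have h1 : IsOfFinOrder g := (CommGroup.mem_torsion g).1 hg
    exact (sunit_co K).isOfFinOrder h1
  · intro z hz
    obtain ⟨m, hm, hzm⟩ := isOfFinOrder_iff_pow_eq_one.1 hz
    have h1 : ∀ v : Pl K, ord v z = 0 := by
      intro v
      have h2 : (m : ℤ) * ord v z = 0 := by
        rw [← ord_pow, hzm, ord_one]
      rcases mul_eq_zero.1 h2 with h | h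
      · exfalso
        have : m = 0 := by exact_mod_cast h
        omega
      · exact h
    obtain ⟨u, hu⟩ := sunit_exists z h1
    have h2 : u ∈ NumberField.Units.torsion K := by
      refine (CommGroup.mem_torsion u).2 (isOfFinOrder_iff_pow_eq_one.2 ⟨m, hm, ?_⟩)
      apply hinj
      rw [map_pow, hu, hzm, map_one]
    obtain ⟨c, hc⟩ := Subgroup.mem_zpowers_iff.1 (hgen ⟨u, h2⟩)
    refine ⟨c, ?_⟩
    have h3 : g ^ c = u := by
      have h4 := congrArg (fun x : NumberField.Units.torsion K => (x : (𝓞 K)ˣ)) hc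
      simpa using h4
    rw [← map_zpow, h3, hu]

theorem duc (hp : p.Prime) (hp2 : MOne p K) (hζ : IsPrimitiveRoot ζ p) (S0 : Finset (Pl K)) :
    ∃ (k : ℕ) (u : Fin k → Kˣ), 2 * k = 2 * S0.card + Module.finrank ℚ K ∧ (∀ i, u i ∈ UT S0) ∧
      ∀ a : Fin k → ℕ, IsPow p (∏ i, u i ^ a i) → ∀ i, p ∣ a i := by
  have htc : NumberField.IsTotallyComplex K := duc_tc hp hp2 hζ
  obtain ⟨u0, hu0f, hu0o, hu0g⟩ := duc_gen K
  have hfin := ut_finite S0
  set M := Additive (UT S0) with hM
  set T : Submodule ℤ M := Submodule.torsion ℤ M with hT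
  -- the rank
  have hr : Module.finrank ℤ (M ⧸ T) = NumberField.Units.rank K + S0.card := by
    rw [← ut_rank S0]
    have h1 := Submodule.finrank_quotient_add_finrank T
    have h2 : Module.finrank ℤ T = 0 := by
      rw [Module.finrank_eq_zero_iff]
      rintro ⟨x, hx⟩
      obtain ⟨a, ha⟩ := (Submodule.mem_torsion_iff x).1 hx
      refine ⟨(a : ℤ), nonZeroDivisors.coe_ne_zero a, ?_⟩
      apply Subtype.ext
      exact ha
    rw [h2, add_zero] at h1
    exact h1
  set n := Module.finrank ℤ (M ⧸ T) with hn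
  let b := Module.finBasis ℤ (M ⧸ T)
  choose m hm using fun i => Submodule.mkQ_surjective T (b i)
  set w : Fin n → Kˣ := fun i => ((Additive.toMul (m i) : UT S0) : Kˣ) with hw
  have hk : 2 * (n + 1) = 2 * S0.card + Module.finrank ℚ K := by
    rw [NumberField.IsTotallyComplex.finrank, hr, NumberField.Units.rank,
      NumberField.InfinitePlace.card_eq_nrRealPlaces_add_nrComplexPlaces,
      NumberField.IsTotallyComplex.nrRealPlaces_eq_zero, zero_add]
    have h1 : 0 < NumberField.InfinitePlace.nrComplexPlaces K := by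
      have h2 := NumberField.IsTotallyComplex.finrank (K := K)
      have h3 : 0 < Module.finrank ℚ K := Module.finrank_pos
      omega
    omega
  refine ⟨n + 1, Fin.cons u0 w, hk, ?_, ?_⟩
  · intro i
    refine Fin.cases ?_ (fun j => ?_) i
    · rw [Fin.cons_zero]
      exact fun v _ => hu0o v
    · rw [Fin.cons_succ]
      exact (Additive.toMul (m j) : UT S0).2
  · intro a ha
    obtain ⟨y, hy⟩ := ha
    rw [Fin.prod_univ_succ, Fin.cons_zero] at hy
    simp only [Fin.cons_succ] at hy
    have hyU : y ∈ UT S0 := by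
      intro v hv
      have h1 : (p : ℤ) * ord v y = 0 := by
        rw [← ord_pow, hy, ord_mul, ord_pow, hu0o v, mul_zero, zero_add, ord_prod]
        refine Finset.sum_eq_zero fun i _ => ?_
        rw [ord_pow]
        have h2 : ord v (w i) = 0 := (Additive.toMul (m i) : UT S0).2 v hv
        rw [h2, mul_zero]
      rcases mul_eq_zero.1 h1 with h | h
      · exfalso
        exact hp.ne_zero (by exact_mod_cast h)
      · exact h
    -- coordinates
    have hu0U : u0 ∈ UT S0 := fun v _ => hu0o v
    set Y : M := Additive.ofMul (⟨y, hyU⟩ : UT S0) with hY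
    set U : M := Additive.ofMul (⟨u0, hu0U⟩ : UT S0) with hU
    have h1 : p • Y = a 0 • U + ∑ i, a (Fin.succ i) • m i := by
      have h2 : (⟨y, hyU⟩ : UT S0) ^ p =
          (⟨u0, hu0U⟩ : UT S0) ^ a 0 * ∏ i, (Additive.toMul (m i) : UT S0) ^ a (Fin.succ i) := by
        apply Subtype.ext
        rw [Subgroup.coe_pow, Subgroup.coe_mul, Subgroup.coe_pow, Subgroup.val_finsetProd]
        exact hy
      have h3 := congrArg Additive.ofMul h2
      rw [ofMul_pow, ofMul_mul, ofMul_pow, ofMul_prod] at h3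
      exact h3
    have hUT : T.mkQ U = 0 := by
      rw [Submodule.mkQ_apply, Submodule.Quotient.mk_eq_zero]
      obtain ⟨N, hN, hN1⟩ := isOfFinOrder_iff_pow_eq_one.1 hu0f
      refine (Submodule.mem_torsion_iff U).2 ⟨⟨(N : ℤ), mem_nonZeroDivisors_of_ne_zero
        (by exact_mod_cast hN.ne')⟩, ?_⟩
      have h2 : (⟨u0, hu0U⟩ : UT S0) ^ N = 1 := by
        apply Subtype.ext
        rw [Subgroup.coe_pow]
        exact hN1
      have h3 := congrArg Additive.ofMul h2
      rw [ofMul_pow, ofMul_one] at h3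
      have h4 : (N : ℤ) • U = 0 := by
        rw [natCast_zsmul]
        exact h3
      exact h4
    have h2 : p • T.mkQ Y = ∑ i, a (Fin.succ i) • b i := by
      rw [← map_nsmul, h1, map_add, map_nsmul, hUT, smul_zero, zero_add, map_sum]
      refine Finset.sum_congr rfl fun i _ => ?_
      rw [map_nsmul, hm]
    have h3 : ∀ i, (p : ℤ) * b.repr (T.mkQ Y) i = a (Fin.succ i) := by
      intro i
      have h4 := congrArg (fun z => b.repr z i) h2
      simp only [map_nsmul, Finsupp.smul_apply, map_sum, Finsupp.coe_finsetSum,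
        Finset.sum_apply, Module.Basis.repr_self, Finsupp.single_apply] at h4
      rw [nsmul_eq_mul] at h4
      rw [h4, Finset.sum_eq_single i]
      · simp
      · intro j _ hj
        simp [hj]
      · intro h
        exact absurd (Finset.mem_univ i) h
    have h4 : ∀ i, p ∣ a (Fin.succ i) := by
      intro i
      have h5 : (p : ℤ) ∣ (a (Fin.succ i) : ℤ) := ⟨_, (h3 i).symm⟩
      exact_mod_cast h5
    intro i
    refine Fin.cases ?_ (fun j => h4 j) i
    choose c hc using h4
    -- the torsion part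
    set z : Kˣ := y * (∏ i, w i ^ c i)⁻¹ with hz
    have h5 : z ^ p = u0 ^ a 0 := by
      rw [hz, mul_pow, hy, inv_pow, ← Finset.prod_pow]
      have h6 : ∀ i, (w i ^ c i) ^ p = w i ^ a (Fin.succ i) := by
        intro i
        rw [hc i, ← pow_mul, mul_comm]
      simp only [h6]
      rw [mul_inv_cancel_right]
    have h6 : IsOfFinOrder z := by
      have h7 : IsOfFinOrder (z ^ p) := by
        rw [h5]
        exact hu0f.pow
      exact h7.of_pow hp.ne_zero
    obtain ⟨e, he⟩ := hu0g z h6
    have h7 : u0 ^ ((a 0 : ℤ) - e * p) = 1 := by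
      rw [zpow_sub, zpow_mul, he, zpow_natCast, zpow_natCast, h5, mul_inv_cancel]
    have h8 : (orderOf u0 : ℤ) ∣ (a 0 : ℤ) - e * p := orderOf_dvd_iff_zpow_eq_one.2 h7
    have h9 : p ∣ orderOf u0 := by
      have hζ0 : ζ ≠ 0 := hζ.ne_zero hp.ne_zero
      set Z : Kˣ := Units.mk0 ζ hζ0 with hZ
      have hZp : IsPrimitiveRoot Z p := by
        rw [← IsPrimitiveRoot.coe_units_iff]
        exact hζ
      have hZo : orderOf Z = p := hZp.eq_orderOf.symm
      have hZf : IsOfFinOrder Z := by
        refine isOfFinOrder_iff_pow_eq_one.2 ⟨p, hp.pos, hZp.pow_eq_one⟩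
      obtain ⟨d, hd⟩ := hu0g Z hZf
      rw [← hZo, ← hd]
      rw [orderOf_dvd_iff_pow_eq_one, ← zpow_natCast, ← zpow_mul, mul_comm, zpow_mul, zpow_natCast,
        pow_orderOf_eq_one, one_zpow]
    have h10 : (p : ℤ) ∣ (a 0 : ℤ) - e * p := dvd_trans (by exact_mod_cast h9) h8
    have h11 : (p : ℤ) ∣ (a 0 : ℤ) := by
      have := dvd_add h10 (Dvd.intro_left e rfl : (p : ℤ) ∣ e * p)
      rwa [sub_add_cancel] at this
    exact_mod_cast h11

end H51.CUB
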