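import Pool.Agent.H51.CUB.DUB
import Pool.Agent.H51.CUB.DUC
import Pool.Agent.H63.MA.RMkB
import Pool.Agent.H63.MA.NormZ

/-!
[H51 CUB DUD]  Duality at `S0` (120-160 lines). PROOF.

`D : RD K p ζ`, `lam` from `exists_rec_one` (`IsRec p ζ lam`, `lam v = 1` at good `v`). `k, u` from `duc` for `D.S0`; `R` from `dub`: `#R ≤ p ^ (2 #S0 + n) = p ^ (2 k)`. Put `φ : Kˣ → (Fin k → ZMod p)`, `φ y i = ∑ᶠ v, if v ∈ S0 then 0 else lam v * B v (u i) y` (finite support). It is
multiplicative in `y`. (a) `φ y = 0` if `PS y`: `∑ᶠ v, lam v * B v y (u i) = 0` (`IsRec.sum`, `y` is `Prim`), `B v y (u i) = - B v (u i) y` for `v ∤ p` (`b_eq`), for `v ∈ S0` not above `p` it is `0` (`Spl`), above `p` `lam v = 0`. (b) `φ y = 0` for `y ∈ UT S0`: all orders outside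
`S0` are `0` (`b_eq`). (c) `φ` is surjective: its image is a subgroup (subspace) of `(ZMod p)^k`; if it were proper there would be `a ≠ 0` with `∑ a_i φ y i = 0` for all `y`; for `z = ∏ u_i ^ (a_i).val` and a good prime `v`, `y = D.pi v`: `∑ a_i B v (u_i) (pi v) = LL v z = 0` (`lam v = 1`, other
primes give `0`). By `D.non` (with `F = ∅`) `z` is a `p`-th power, so `a = 0` by `duc`. (d) COUNT: let `H = PS` (subgroup `RMkA_G`), `UT H / H` has at least `p ^ k` elements (`∏ u_i ^ a_i`, `0 ≤ a_i < p`, are different modulo `PS`: a quotient which is `PS` and an `S0`-unit is a `p`-th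
power by `D.unit`, then `duc`), `Kˣ / H` has at most `p ^ (2k)` elements (`dub`), so `Kˣ / (UT H)` has at most `p ^ k` elements; `φ` factors through it and is onto `(ZMod p)^k`, so it is injective on it: `φ y = 0` implies `y ∈ UT S0 * PS`.
`dud`: apply it to `y = ∏ v ∈ n, pi v ^ (c v).val`: `φ y i = ± ∑ v ∈ n, c v * LL v (u i) = 0` by hypothesis (good primes: `lam v = 1`).
-/

set_option autoImplicit false

open scoped NumberField
open IsDedekindDomain
open scoped Classical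

noncomputable section

namespace H51.CUB

open H63.MA

variable {K : Type} [Field K] [NumberField K] {p : ℕ} {ζ : K}

private theorem dud_grp {G : Type} [CommGroup G] (H U : Subgroup G) {p k : ℕ} (hp : p.Prime)
    (φ : G →* Multiplicative (Fin k → ZMod p)) (hs : Function.Surjective φ) (hH : H ≤ φ.ker)
    (hU : U ≤ φ.ker) (R : Finset G) (hRc : R.card ≤ p ^ (2 * k))
    (hR : ∀ x, ∃ y ∈ R, x * y⁻¹ ∈ H) (u : Fin k → G) (hu : ∀ i, u i ∈ U)
    (hind : ∀ a b : Fin k → Fin p,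
      (∏ i, u i ^ (a i : ℕ))⁻¹ * ∏ i, u i ^ (b i : ℕ) ∈ H → a = b) : φ.ker ≤ H ⊔ U := by
  have hF : Fact p.Prime := ⟨hp⟩
  have hp0 : 0 < p := hp.pos
  -- the index of `H`
  have hsur : Function.Surjective (fun y : R => (QuotientGroup.mk (y : G) : G ⧸ H)) := by
    intro q
    obtain ⟨x, rfl⟩ := QuotientGroup.mk_surjective q
    obtain ⟨y, hy, hxy⟩ := hR x
    refine ⟨⟨y, hy⟩, ?_⟩
    show (QuotientGroup.mk y : G ⧸ H) = QuotientGroup.mk x
    rw [QuotientGroup.eq, mul_comm]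
    exact hxy
  have hfin : Finite (G ⧸ H) := Finite.of_surjective _ hsur
  have hidx : H.index ≤ p ^ (2 * k) := by
    have h1 : Nat.card (G ⧸ H) ≤ Nat.card R := Nat.card_le_card_of_surjective _ hsur
    rw [Subgroup.index_eq_card]
    refine h1.trans (le_trans (le_of_eq ?_) hRc)
    simp
  have hidx0 : H.index ≠ 0 := Subgroup.index_ne_zero_of_finite
  have hFI : H.FiniteIndex := ⟨hidx0⟩
  -- the index of `H` in `U`
  have hrel : p ^ k ≤ H.relIndex U := by
    have hfin2 : Finite (U ⧸ H.subgroupOf U) := Subgroup.finite_quotient_of_finiteIndex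
    have hmem : ∀ a : Fin k → Fin p, ∏ i, u i ^ (a i : ℕ) ∈ U := fun a =>
      Subgroup.prod_mem _ fun i _ => U.pow_mem (hu i) _
    have hinj : Function.Injective (fun a : Fin k → Fin p =>
        (QuotientGroup.mk (⟨∏ i, u i ^ (a i : ℕ), hmem a⟩ : U) : U ⧸ H.subgroupOf U)) := by
      intro a b hab
      have h1 := QuotientGroup.eq.1 hab
      rw [Subgroup.mem_subgroupOf] at h1
      exact hind a b h1
    have h1 := Nat.card_le_card_of_injective _ hinj
    rw [Nat.card_fun, Nat.card_fin, Nat.card_fin] at h1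
    exact h1
  have hker : φ.ker.index = p ^ k := by
    rw [Subgroup.index_ker, MonoidHom.range_eq_top.mpr hs, Subgroup.card_top]
    have h1 : Nat.card (Multiplicative (Fin k → ZMod p)) = Nat.card (Fin k → ZMod p) := rfl
    rw [h1, Nat.card_fun, Nat.card_fin, Nat.card_zmod]
  have hle : H ⊔ U ≤ φ.ker := sup_le hH hU
  have h1 : H.relIndex (H ⊔ U) * (H ⊔ U).index = H.index :=
    Subgroup.relIndex_mul_index le_sup_left
  rw [Subgroup.relIndex_sup_left] at h1
  have h2 : (H ⊔ U).relIndex φ.ker * φ.ker.index = (H ⊔ U).index :=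
    Subgroup.relIndex_mul_index hle
  rw [hker] at h2
  have hpk : 0 < p ^ k := pow_pos hp0 k
  have h3 : p ^ k * (H ⊔ U).index ≤ p ^ k * p ^ k := by
    calc p ^ k * (H ⊔ U).index ≤ H.relIndex U * (H ⊔ U).index := Nat.mul_le_mul_right _ hrel
      _ = H.index := h1
      _ ≤ p ^ (2 * k) := hidx
      _ = p ^ k * p ^ k := by rw [two_mul, pow_add]
  have h4 : (H ⊔ U).index ≤ p ^ k := Nat.le_of_mul_le_mul_left h3 hpk
  rw [← h2] at h4
  have h5 : (H ⊔ U).relIndex φ.ker ≤ 1 := by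
    by_contra hcon
    have h6 : 2 * p ^ k ≤ (H ⊔ U).relIndex φ.ker * p ^ k :=
      Nat.mul_le_mul_right _ (by omega)
    omega
  have h6 : (H ⊔ U).relIndex φ.ker ≠ 0 := by
    intro h0
    rw [h0, zero_mul] at h2
    have h7 : (H ⊔ U).index ≠ 0 := by
      intro h8
      rw [h8, mul_zero] at h1
      exact hidx0 h1.symm
    exact h7 h2.symm
  exact Subgroup.relIndex_eq_one.mp (by omega)

private theorem dud_fin (y : Kˣ) (S : Finset (Pl K)) (f : Pl K → ZMod p) :
    (Function.support fun v => if v ∈ S then 0 else ((ord v y : ℤ) : ZMod p) * f v).Finite := by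
  refine (finite_ord y).subset fun v hv => ?_
  intro h0
  apply hv
  show (if v ∈ S then 0 else ((ord v y : ℤ) : ZMod p) * f v) = 0
  have h1 : ord v y = 0 := h0
  rw [h1, Int.cast_zero, zero_mul, ite_self]

/-- the pairing of `y` with the unit `u` -/
private def dudF (D : RD K p ζ) (lam : Pl K → ZMod p) (u y : Kˣ) : ZMod p :=
  ∑ᶠ v, if v ∈ D.S0 then 0 else ((ord v y : ℤ) : ZMod p) * (lam v * D.LL v u)

private theorem dudF_mul (D : RD K p ζ) (lam : Pl K → ZMod p) (u y y' : Kˣ) :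
    dudF D lam u (y * y') = dudF D lam u y + dudF D lam u y' := by
  unfold dudF
  rw [← finsum_add_distrib (dud_fin y D.S0 _) (dud_fin y' D.S0 _)]
  congr 1
  funext v
  rw [ord_mul]
  split_ifs
  · rw [add_zero]
  · push_cast
    ring

/-- the pairing with the units as a homomorphism -/
private def dudP (D : RD K p ζ) (lam : Pl K → ZMod p) {k : ℕ} (u : Fin k → Kˣ) :
    Kˣ →* Multiplicative (Fin k → ZMod p) :=
  MonoidHom.mk' (fun y => Multiplicative.ofAdd fun i => dudF D lam (u i) y) (by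
    intro y y'
    show Multiplicative.ofAdd _ = Multiplicative.ofAdd _ * Multiplicative.ofAdd _
    rw [← ofAdd_add]
    congr 1
    funext i
    exact dudF_mul D lam (u i) y y')

private theorem dudP_apply (D : RD K p ζ) (lam : Pl K → ZMod p) {k : ℕ} (u : Fin k → Kˣ)
    (y : Kˣ) (i : Fin k) : Multiplicative.toAdd (dudP D lam u y) i = dudF D lam (u i) y := rfl

private theorem dudF_pi (D : RD K p ζ) {lam : Pl K → ZMod p} {w : Pl K} (hw : w ∉ D.S0)
    (hl : lam w = 1) (u : Kˣ) : dudF D lam u (D.pi w) = D.LL w u := by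
  unfold dudF
  rw [finsum_eq_single _ w]
  · rw [if_neg hw, D.pi_self w hw, hl]
    push_cast
    ring
  · intro v hv
    split_ifs with hvS
    · rfl
    · rw [D.pi_ne w v hw hvS hv, Int.cast_zero, zero_mul]

private theorem dudF_unit (D : RD K p ζ) (lam : Pl K → ZMod p) (u : Kˣ) {y : Kˣ}
    (hy : TUnit D.S0 y) : dudF D lam u y = 0 := by
  unfold dudF
  have h1 : (fun v => if v ∈ D.S0 then (0 : ZMod p) else ((ord v y : ℤ) : ZMod p) *
      (lam v * D.LL v u)) = fun _ => 0 := by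
    funext v
    split_ifs with hv
    · rfl
    · rw [hy v hv, Int.cast_zero, zero_mul]
  rw [h1, finsum_zero]

private theorem dudF_ps (hp : p.Prime) (hζ : IsPrimitiveRoot ζ p) (D : RD K p ζ)
    {lam : Pl K → ZMod p} (hlam : IsRec p ζ lam) {u : Kˣ} (hu : TUnit D.S0 u) {y : Kˣ}
    (hy : PS p ζ D.S0 y) : dudF D lam u y = 0 := by
  have h1 := hlam.sum y hy.1 u
  have h2 : (fun v => lam v * B p ζ v y u) = fun v => -(if v ∈ D.S0 then (0 : ZMod p) else
      ((ord v y : ℤ) : ZMod p) * (lam v * D.LL v u)) := by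
    funext v
    split_ifs with hv
    · rw [neg_zero]
      by_cases ha : Above p v
      · rw [hlam.above v ha, zero_mul]
      · rw [hy.2 v hv ha u, mul_zero]
    · rw [B_eq hp hζ D.toRD0 hv, hu v hv]
      push_cast
      ring
  rw [h2, finsum_neg_distrib, neg_eq_zero] at h1
  exact h1

private theorem dud_LL_prod (hp : p.Prime) (hζ : IsPrimitiveRoot ζ p) (D : RD0 K p ζ) {v : Pl K}
    (hv : v ∉ D.S0) {ι : Type} (s : Finset ι) (u : ι → Kˣ) (a : ι → ℕ) :
    D.LL v (∏ i ∈ s, u i ^ a i) = ∑ i ∈ s, (a i : ZMod p) * D.LL v (u i) := by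
  induction s using Finset.induction_on with
  | empty => rw [Finset.prod_empty, Finset.sum_empty, LL_one hp hζ D hv]
  | insert i s hi ih =>
    rw [Finset.prod_insert hi, Finset.sum_insert hi, LL_mul hp hζ D hv, ih]
    congr 1
    have h1 := LL_zpow hp hζ D hv (u i) (a i : ℤ)
    rw [zpow_natCast] at h1
    rw [h1, Int.cast_natCast]

private theorem dud_surj (hp : p.Prime) (hζ : IsPrimitiveRoot ζ p) (D : RD K p ζ)
    {lam : Pl K → ZMod p} (hone : ∀ v : Pl K, ¬ Above p v → (nm v).Prime → lam v = 1)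
    {k : ℕ} (u : Fin k → Kˣ)
    (hind : ∀ a : Fin k → ℕ, IsPow p (∏ i, u i ^ a i) → ∀ i, p ∣ a i) :
    Function.Surjective (dudP D lam u) := by
  have hF : Fact p.Prime := ⟨hp⟩
  set W : Submodule (ZMod p) (Fin k → ZMod p) :=
    Submodule.span (ZMod p) (Set.range fun y => Multiplicative.toAdd (dudP D lam u y)) with hW
  have hWtop : W = ⊤ := by
    by_contra hne
    obtain ⟨f, hf0, hf⟩ := Submodule.exists_le_ker_of_lt_top W (lt_top_iff_ne_top.mpr hne)
    apply hf0
    set a : Fin k → ZMod p := fun i => f (fun j => if i = j then 1 else 0) with ha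
    have hfa : ∀ w, f w = ∑ i, w i * a i := by
      intro w
      rw [LinearMap.pi_apply_eq_sum_univ f w]
      rfl
    set z : Kˣ := ∏ i, u i ^ (a i).val with hz
    have hgood : ∀ v, D.Gd v → D.LL v z = 0 := by
      intro v hv
      have hl : lam v = 1 := hone v (fun h => hv.1 (D.above v h)) hv.2
      rw [hz, dud_LL_prod hp hζ D.toRD0 hv.1]
      have h1 : f (Multiplicative.toAdd (dudP D lam u (D.pi v))) = 0 := by
        have h2 : Multiplicative.toAdd (dudP D lam u (D.pi v)) ∈ W :=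
          Submodule.subset_span ⟨_, rfl⟩
        exact hf h2
      rw [hfa] at h1
      rw [← h1]
      refine Finset.sum_congr rfl fun i _ => ?_
      rw [dudP_apply, dudF_pi D hv.1 hl, ZMod.natCast_zmod_val]
      ring
    have hpow : IsPow p z := by
      by_contra hcon
      obtain ⟨v, hv, _, _, h2⟩ := D.non z hcon ∅
      exact h2 (hgood v hv)
    have ha0 : ∀ i, a i = 0 := by
      intro i
      have h1 := hind (fun i => (a i).val) hpow i
      have h2 : (a i).val < p := ZMod.val_lt _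
      have h3 : (a i).val = 0 := Nat.eq_zero_of_dvd_of_lt h1 h2
      exact (ZMod.val_eq_zero _).mp h3
    apply LinearMap.ext
    intro w
    rw [hfa, LinearMap.zero_apply]
    exact Finset.sum_eq_zero fun i _ => by rw [ha0 i, mul_zero]
  intro w
  have hw : Multiplicative.toAdd w ∈ W := by
    rw [hWtop]
    exact Submodule.mem_top
  have key : ∀ x ∈ W, ∃ y, Multiplicative.toAdd (dudP D lam u y) = x := by
    intro x hx
    induction hx using Submodule.span_induction with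
    | mem x hx => exact hx
    | zero => exact ⟨1, by rw [map_one, toAdd_one]⟩
    | add x x' _ _ h1 h2 =>
      obtain ⟨y, rfl⟩ := h1
      obtain ⟨y', rfl⟩ := h2
      exact ⟨y * y', by rw [map_mul, toAdd_mul]⟩
    | smul c x _ h1 =>
      obtain ⟨y, rfl⟩ := h1
      refine ⟨y ^ c.val, ?_⟩
      rw [map_pow, toAdd_pow]
      funext i
      rw [Pi.smul_apply, Pi.smul_apply, smul_eq_mul, nsmul_eq_mul, ZMod.natCast_zmod_val]
  obtain ⟨y, hy⟩ := key _ hw
  exact ⟨y, hy⟩

private theorem dud_ind (D : RD K p ζ) {k : ℕ} (u : Fin k → Kˣ) (hu : ∀ i, u i ∈ UT D.S0)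
    (hp : p.Prime)
    (hind : ∀ a : Fin k → ℕ, IsPow p (∏ i, u i ^ a i) → ∀ i, p ∣ a i) (a b : Fin k → Fin p)
    (h : PS p ζ D.S0 ((∏ i, u i ^ (a i : ℕ))⁻¹ * ∏ i, u i ^ (b i : ℕ))) : a = b := by
  have hmem : ∀ a : Fin k → Fin p, ∏ i, u i ^ (a i : ℕ) ∈ UT D.S0 := fun a =>
    Subgroup.prod_mem _ fun i _ => (UT D.S0).pow_mem (hu i) _
  have h1 : (∏ i, u i ^ (a i : ℕ))⁻¹ * ∏ i, u i ^ (b i : ℕ) ∈ UT D.S0 :=
    (UT D.S0).mul_mem ((UT D.S0).inv_mem (hmem a)) (hmem b)
  obtain ⟨t, ht⟩ := D.unit _ h1 h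
  have h2 : IsPow p (∏ i, u i ^ ((b i : ℕ) + (p - 1) * (a i : ℕ))) := by
    refine ⟨t * ∏ i, u i ^ (a i : ℕ), ?_⟩
    have h3 : ∏ i, u i ^ ((b i : ℕ) + (p - 1) * (a i : ℕ)) =
        (∏ i, u i ^ (b i : ℕ)) * (∏ i, u i ^ (a i : ℕ)) ^ (p - 1) := by
      rw [← Finset.prod_pow, ← Finset.prod_mul_distrib]
      refine Finset.prod_congr rfl fun i _ => ?_
      rw [pow_add, ← pow_mul, mul_comm (p - 1)]
    rw [h3, mul_pow, ht]
    have h4 : (∏ i, u i ^ (a i : ℕ)) ^ p =
        (∏ i, u i ^ (a i : ℕ)) * (∏ i, u i ^ (a i : ℕ)) ^ (p - 1) := by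
      rw [← pow_succ']
      congr 1
      have := hp.pos
      omega
    rw [h4, mul_mul_mul_comm, inv_mul_cancel, one_mul]
  funext i
  have h3 := hind _ h2 i
  apply Fin.ext
  have ha := (a i).isLt
  have hb := (b i).isLt
  have h4 : (p : ℤ) ∣ ((b i : ℕ) : ℤ) - ((a i : ℕ) : ℤ) := by
    have h5 : (p : ℤ) ∣ (((b i : ℕ) + (p - 1) * (a i : ℕ) : ℕ) : ℤ) := by exact_mod_cast h3
    have h6 : (((b i : ℕ) + (p - 1) * (a i : ℕ) : ℕ) : ℤ) =
        ((b i : ℕ) : ℤ) - ((a i : ℕ) : ℤ) + (p : ℤ) * ((a i : ℕ) : ℤ) := by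
      have h7 : ((p - 1 : ℕ) : ℤ) = (p : ℤ) - 1 := by
        have := hp.one_le
        push_cast [Nat.cast_sub this]
        ring
      rw [Nat.cast_add, Nat.cast_mul, h7]
      ring
    rw [h6] at h5
    exact (Int.dvd_add_left (Dvd.intro _ rfl)).mp h5
  have h5 := Int.eq_zero_of_abs_lt_dvd h4 (by
    rw [abs_lt]
    constructor <;> omega)
  omega

theorem dud (hp : p.Prime) (hp2 : MOne p K) (hζ : IsPrimitiveRoot ζ p) (D : RD K p ζ)
    (n : Finset (Pl K)) (hn : ∀ v ∈ n, D.Gd v) (c : Pl K → ZMod p)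
    (h : ∀ u : Kˣ, TUnit D.S0 u → ∑ v ∈ n, c v * D.LL v u = 0) :
    ∃ u : Kˣ, TUnit D.S0 u ∧ PS p ζ D.S0 (u * ∏ v ∈ n, D.pi v ^ (c v).val) := by
  have hF : Fact p.Prime := ⟨hp⟩
  obtain ⟨lam, hlam, hone⟩ := exists_rec_one K hp hp2 hζ
  obtain ⟨k, u, hk, hu, hind⟩ := duc hp hp2 hζ D.S0
  obtain ⟨R, hRc, hR⟩ := dub hp hp2 hζ D.S0 D.above
  rw [← hk] at hRc
  have hle := dud_grp (RMkA_G hp hp2 hζ D.S0) (UT D.S0) hp (dudP D lam u)
    (dud_surj hp hζ D hone u hind)
    (fun y hy => by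
      rw [MonoidHom.mem_ker]
      apply Multiplicative.toAdd.injective
      funext i
      exact dudF_ps hp hζ D hlam (hu i) hy)
    (fun y hy => by
      rw [MonoidHom.mem_ker]
      apply Multiplicative.toAdd.injective
      funext i
      exact dudF_unit D lam (u i) hy)
    R hRc hR u hu (fun a b hab => dud_ind D u hu hp hind a b hab)
  have hy : ∏ v ∈ n, D.pi v ^ (c v).val ∈ (dudP D lam u).ker := by
    rw [MonoidHom.mem_ker]
    apply Multiplicative.toAdd.injective
    funext i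
    rw [map_prod, toAdd_prod]
    show (∑ v ∈ n, Multiplicative.toAdd (dudP D lam u (D.pi v ^ (c v).val))) i = 0
    rw [Finset.sum_apply, ← h (u i) (hu i)]
    refine Finset.sum_congr rfl fun v hv => ?_
    have hl : lam v = 1 := hone v (fun h => (hn v hv).1 (D.above v h)) (hn v hv).2
    rw [map_pow, toAdd_pow, Pi.smul_apply, dudP_apply, dudF_pi D (hn v hv).1 hl, nsmul_eq_mul,
      ZMod.natCast_zmod_val]
  obtain ⟨x, hx, w, hw, hxw⟩ := Subgroup.mem_sup.1 (hle hy)
  refine ⟨w⁻¹, (UT D.S0).inv_mem hw, ?_⟩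
  rw [← hxw]
  have h1 : w⁻¹ * (x * w) = x := by
    rw [mul_comm x w, inv_mul_cancel_left]
  rw [h1]
  exact hx

end H51.CUB
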