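import Pool.Agent.H63.MA.NormZ
import Pool.Agent.H63.MA.RayC
import Pool.Agent.H63.MA.GHeis
import Pool.Agent.H57.TLS.Def

/-!
[H51 CUB CHI]  The ray class character of an element `δ` of a number field `M` (150-200 lines). PROOF.

`M` a number field with a primitive `p`-th root of unity `ζ`, `lam` the constants of the reciprocity law (`IsRec p ζ lam`: `∑ᶠ v, lam v * B v x y = 0` for `x` `Prim`, all `y`).
`CH δ 𝔤 lam χ`: `χ` is a ray class character of modulus `𝔤` with `χ(w) = ep (lam w * B w δ π)` for `w ∤ 𝔤` and any uniformiser `π` at `w`.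
`chi_ex`: put `f w = lam w * B w δ π_w` (`π_w` from `exists_unif w`) for `w ∤ 𝔤`, `0` for `w ∣ 𝔤`. For `w ∤ 𝔤` (so `w ∤ p`, `(ord w δ : ZMod p) = 0`): `B w δ x = ord w x * B w δ π_w` for all `x`
(`B_mul_right`, and `B w δ u = - ord w δ * lg w u = 0` for `ord w u = 0`, see `b_eq` in `H63/MA/GHeis`), in particular `B w δ π` does not depend on `π`. `IsRay p 𝔤 f`: let `x = a ∈ 𝓞 M`, `a - 1 ∈ 𝔤`.
Then `a ≡ 1` modulo `p ^ 3`, so `x` is `Prim` (`LocP` with `y = 1`: for `w` above `p`, `v_w (a - 1) ≤ v_w (p ^ 3) < v_w (p ^ 2)`), and the reciprocity law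
`∑ᶠ lam w * B w x δ = 0`, `B w x δ = - B w δ x` (antisymmetry from `b_eq`; for `w` above `p` we have `lam w = 0`). For `w ∣ 𝔤`, `w ∤ p`: `ord w x = 0`, `lg w x = 0` (`a ≡ 1` mod `w`), so
`B w x δ = 0`. So `∑ᶠ w, f w * ord w x = 0` (finite supports: `B w x δ = 0` unless `w` divides `x`, `δ`; copy `H63/MA/RayC`, `Scal`, `Ray*` for the handling of `finsum`). `ray_rc hp h𝔤 hf`
gives `χ : RC M 𝔤`. Multiplicativity over a principal ideal prime to `𝔤` (`CH.prin`): `χ (span {a}) = ep (∑ over w ∤ 𝔤 of f w * ord w a)` (write the ideal as the product of its prime factors, or use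
the definition of `χ` in the proof of `ray_rc`: `rcs f I`; there are lemmas for `rcs` of a principal ideal in `RayC`), and if `a ≡ 1` modulo `p ^ 3` and modulo all `w ∣ 𝔤` not above `p` except
`w₀`, the reciprocity law gives `χ (span {a}) = ep (- lam w₀ * B w₀ δ a) = ep (lam w₀ * ord w₀ δ * lg w₀ a)` (`ord w₀ a = 0`).
`chi_pn`: choose `g ∈ 𝓞 M` with `ord w₀ g = 0`, `lg w₀ g = 1` (`exists_lg`; make it integral) and by the Chinese remainder theorem `a ≡ g` modulo `w₀`, `a ≡ 1` modulo `p ^ 3` and modulo all other primes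
dividing `𝔤 𝔤'` (not above `p`); `a ≠ 0`, `span {a}` is coprime to `𝔤 * 𝔤'` and `(prc χ χ').χ (span {a}) = ep (lam w₀ * (ord w₀ δ - ord w₀ δ')) ≠ 1`.
-/

set_option autoImplicit false

open scoped NumberField
open IsDedekindDomain
open scoped Classical

noncomputable section

namespace H51.CUB

open H63.MA H57.TLS

variable {M : Type} [Field M] [NumberField M] {p : ℕ} {ζ : M}

/-- `χ` is the ray class character of `δ` -/
structure CH (p : ℕ) (ζ : M) (δ : Mˣ) (𝔤 : Ideal (𝓞 M)) (lam : Pl M → ZMod p) (χ : RC M 𝔤) : Prop where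
  val : ∀ w : Pl M, ¬ w.asIdeal ∣ 𝔤 → ∀ π : Mˣ, ord w π = 1 →
    χ.χ w.asIdeal = ep p (lam w * B p ζ w δ π)
  prin : ∀ a : 𝓞 M, ∀ ha : (a : M) ≠ 0, IsCoprime (Ideal.span {a}) 𝔤 → a - 1 ∈ Ideal.span {(p : 𝓞 M) ^ 3} →
    ∀ w₀ : Pl M, ¬ Above p w₀ → a ∉ w₀.asIdeal →
    (∀ w : Pl M, w.asIdeal ∣ 𝔤 → ¬ Above p w → w ≠ w₀ → a - 1 ∈ w.asIdeal) →
    χ.χ (Ideal.span {a}) = ep p (lam w₀ * (((ord w₀ δ : ℤ) : ZMod p) * lg p ζ w₀ (Units.mk0 (a : M) ha)))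

theorem chi_above {w : Pl M} {𝔤 : Ideal (𝓞 M)} (h3 : Ideal.span {(p : 𝓞 M) ^ 3} ∣ 𝔤)
    (hw : Above p w) : w.asIdeal ∣ 𝔤 := by
  refine dvd_trans ?_ h3
  rw [Ideal.dvd_span_singleton]
  exact Ideal.pow_mem_of_mem _ hw 3 (by norm_num)

theorem chi_prim (hp : p.Prime) {x : Mˣ} {a : 𝓞 M} (hx : (x : M) = algebraMap (𝓞 M) M a)
    (ha : a - 1 ∈ Ideal.span {(p : 𝓞 M) ^ 3}) : Prim p x := by
  intro v hv
  refine ⟨1, ?_⟩
  rw [one_pow, inv_one, mul_one]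
  obtain ⟨b, hb⟩ := Ideal.mem_span_singleton'.1 ha
  have h1 : (x : M) - 1 = algebraMap (𝓞 M) M b * (p : M) ^ 3 := by
    have h2 : algebraMap (𝓞 M) M (b * (p : 𝓞 M) ^ 3) = algebraMap (𝓞 M) M (a - 1) := by rw [hb]
    rw [map_mul, map_pow, map_natCast, map_sub, map_one, ← hx] at h2
    exact h2.symm
  have h3 := (above_iff p v).1 hv
  have h4 : v.valuation M (p : M) ≠ 0 := by
    rw [Valuation.ne_zero_iff]
    exact_mod_cast hp.ne_zero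
  rw [h1, map_mul, map_pow, map_pow]
  calc v.valuation M (algebraMap (𝓞 M) M b) * v.valuation M (p : M) ^ 3
      ≤ 1 * v.valuation M (p : M) ^ 3 := by
        gcongr
        exact v.valuation_le_one b
    _ = v.valuation M (p : M) ^ 2 * v.valuation M (p : M) := by rw [one_mul, pow_succ]
    _ < v.valuation M (p : M) ^ 2 * 1 := by
        have h5 : 0 < v.valuation M (p : M) ^ 2 := zero_lt_iff.2 (pow_ne_zero 2 h4)
        exact (mul_lt_mul_iff_right₀ h5).2 h3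
    _ = v.valuation M (p : M) ^ 2 := mul_one _

theorem chi_one1 {v : Pl M} {x : Mˣ} {a : 𝓞 M}
    (hx : (x : M) = algebraMap (𝓞 M) M a) (ha : a - 1 ∈ v.asIdeal) : One1 v x := by
  unfold One1
  have h1 : (x : M) - 1 = algebraMap (𝓞 M) M (a - 1) := by
    rw [map_sub, map_one, hx]
  rw [h1]
  exact (v.valuation_lt_one_iff_mem (a - 1)).2 ha

theorem chi_supp (hp : p.Prime) (hζ : IsPrimitiveRoot ζ p) {lam : Pl M → ZMod p}
    (hl : IsRec p ζ lam) (δ x : Mˣ) :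
    (Function.support fun w => lam w * B p ζ w δ x).Finite := by
  refine ((finite_ord δ).union (finite_ord x)).subset fun v hv => ?_
  by_contra h
  rw [Set.mem_union, not_or] at h
  have h1 : ord v δ = 0 := by_contra fun h' => h.1 h'
  have h2 : ord v x = 0 := by_contra fun h' => h.2 h'
  apply hv
  change lam v * B p ζ v δ x = 0
  by_cases ha : Above p v
  · rw [hl.above v ha, zero_mul]
  · rw [B_unit hp hζ ha h1, h2, Int.cast_zero, zero_mul, mul_zero]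

theorem chi_sum0 (hp : p.Prime) (hζ : IsPrimitiveRoot ζ p) {lam : Pl M → ZMod p}
    (hl : IsRec p ζ lam) (δ : Mˣ) {x : Mˣ} (hx : Prim p x) :
    ∑ᶠ w, lam w * B p ζ w δ x = 0 := by
  have h := hl.sum x hx δ
  have h1 : ∀ w, lam w * B p ζ w δ x = -(lam w * B p ζ w x δ) := by
    intro w
    by_cases ha : Above p w
    · rw [hl.above w ha, zero_mul, zero_mul, neg_zero]
    · rw [B_symm hp hζ ha δ x, mul_neg]
  rw [finsum_congr h1, finsum_neg_distrib, h, neg_zero]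

/-- the function on the primes -/
def chf (p : ℕ) (ζ : M) (δ : Mˣ) (𝔤 : Ideal (𝓞 M)) (lam : Pl M → ZMod p) (w : Pl M) : ZMod p :=
  if w.asIdeal ∣ 𝔤 then 0 else lam w * B p ζ w δ (exists_unif w).choose

theorem chf_dvd {δ : Mˣ} {𝔤 : Ideal (𝓞 M)} {lam : Pl M → ZMod p} {w : Pl M}
    (h : w.asIdeal ∣ 𝔤) : chf p ζ δ 𝔤 lam w = 0 := if_pos h

theorem chf_unif (hp : p.Prime) (hζ : IsPrimitiveRoot ζ p) {δ : Mˣ} {𝔤 : Ideal (𝓞 M)}
    (h3 : Ideal.span {(p : 𝓞 M) ^ 3} ∣ 𝔤)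
    (hb : ∀ w : Pl M, ¬ Above p w → ((ord w δ : ℤ) : ZMod p) ≠ 0 → w.asIdeal ∣ 𝔤)
    {w : Pl M} (h : ¬ w.asIdeal ∣ 𝔤) (x : Mˣ) :
    B p ζ w δ x = ord w x * B p ζ w δ (exists_unif w).choose := by
  have ha : ¬ Above p w := fun h' => h (chi_above h3 h')
  have hd : (p : ℤ) ∣ ord w δ := by
    rw [← ZMod.intCast_zmod_eq_zero_iff_dvd]
    by_contra h'
    exact h (hb w ha h')
  exact B_unram hp hζ ha hd (exists_unif w).choose_spec x

theorem chf_not (hp : p.Prime) (hζ : IsPrimitiveRoot ζ p) {δ : Mˣ} {𝔤 : Ideal (𝓞 M)}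
    {lam : Pl M → ZMod p} (h3 : Ideal.span {(p : 𝓞 M) ^ 3} ∣ 𝔤)
    (hb : ∀ w : Pl M, ¬ Above p w → ((ord w δ : ℤ) : ZMod p) ≠ 0 → w.asIdeal ∣ 𝔤)
    {w : Pl M} (h : ¬ w.asIdeal ∣ 𝔤) (x : Mˣ) :
    chf p ζ δ 𝔤 lam w * (ord w x : ZMod p) = lam w * B p ζ w δ x := by
  rw [chf, if_neg h, chf_unif hp hζ h3 hb h x]
  ring

theorem chi_ray (hp : p.Prime) (hζ : IsPrimitiveRoot ζ p) {lam : Pl M → ZMod p}
    (hl : IsRec p ζ lam) {δ : Mˣ} {𝔤 : Ideal (𝓞 M)} (h3 : Ideal.span {(p : 𝓞 M) ^ 3} ∣ 𝔤)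
    (hb : ∀ w : Pl M, ¬ Above p w → ((ord w δ : ℤ) : ZMod p) ≠ 0 → w.asIdeal ∣ 𝔤) :
    IsRay p 𝔤 (chf p ζ δ 𝔤 lam) := by
  refine ⟨fun v hv => chf_dvd hv, fun x a hx ha => ?_⟩
  rw [← chi_sum0 hp hζ hl δ (chi_prim hp hx (Ideal.le_of_dvd h3 ha))]
  refine finsum_congr fun w => ?_
  by_cases hw : w.asIdeal ∣ 𝔤
  · rw [chf_dvd hw, zero_mul]
    by_cases hpw : Above p w
    · rw [hl.above w hpw, zero_mul]
    · rw [B_of_one1 hp hζ hpw δ (chi_one1 hx (Ideal.le_of_dvd hw ha)), mul_zero]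
  · exact chf_not hp hζ h3 hb hw x

theorem chi_key (hp : p.Prime) (hζ : IsPrimitiveRoot ζ p) {lam : Pl M → ZMod p}
    (hl : IsRec p ζ lam) {δ : Mˣ} {𝔤 : Ideal (𝓞 M)} (h3 : Ideal.span {(p : 𝓞 M) ^ 3} ∣ 𝔤)
    (hb : ∀ w : Pl M, ¬ Above p w → ((ord w δ : ℤ) : ZMod p) ≠ 0 → w.asIdeal ∣ 𝔤)
    {x : Mˣ} (hx : Prim p x) {w₀ : Pl M} (hw₀ : ¬ Above p w₀) (h0 : ord w₀ x = 0)
    (h1 : ∀ w : Pl M, w.asIdeal ∣ 𝔤 → ¬ Above p w → w ≠ w₀ → B p ζ w δ x = 0) :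
    ∑ᶠ w, chf p ζ δ 𝔤 lam w * (ord w x : ZMod p) =
      lam w₀ * (((ord w₀ δ : ℤ) : ZMod p) * lg p ζ w₀ x) := by
  have h2 : ∀ w, chf p ζ δ 𝔤 lam w * (ord w x : ZMod p) =
      lam w * B p ζ w δ x - (if w = w₀ then lam w₀ * B p ζ w₀ δ x else 0) := by
    intro w
    by_cases hw : w = w₀
    · subst hw
      rw [if_pos rfl, h0, Int.cast_zero, mul_zero, sub_self]
    · rw [if_neg hw, sub_zero]
      by_cases hd : w.asIdeal ∣ 𝔤
      · rw [chf_dvd hd, zero_mul]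
        by_cases hpw : Above p w
        · rw [hl.above w hpw, zero_mul]
        · rw [h1 w hd hpw hw, mul_zero]
      · exact chf_not hp hζ h3 hb hd x
  have h4 : (Function.support fun w => if w = w₀ then lam w₀ * B p ζ w₀ δ x else 0).Finite := by
    refine (Set.finite_singleton w₀).subset fun w hw => ?_
    by_contra h'
    apply hw
    exact if_neg h'
  rw [finsum_congr h2, finsum_sub_distrib (chi_supp hp hζ hl δ x) h4, chi_sum0 hp hζ hl δ hx,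
    finsum_eq_single _ w₀ (fun w hw => if_neg hw), if_pos rfl, B_symm hp hζ hw₀ δ x,
    B_unit hp hζ hw₀ h0]
  ring

theorem chi_ideal (hp : p.Prime) {𝔤 : Ideal (𝓞 M)} {f : Pl M → ZMod p} {χ : RC M 𝔤}
    (hχ : ∀ v : Pl M, ¬ v.asIdeal ∣ 𝔤 → χ.χ v.asIdeal = ep p (f v)) (I : Ideal (𝓞 M)) :
    I ≠ ⊥ → IsCoprime I 𝔤 → χ.χ I = ep p (rcs f I) := by
  induction I using UniqueFactorizationMonoid.induction_on_prime with
  | h₁ => exact fun h => absurd rfl h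
  | h₂ I hI =>
    intro _ _
    rw [Ideal.isUnit_iff] at hI
    rw [hI, ← Ideal.one_eq_top, map_one, rcs_one, ep_zero]
  | h₃ I q hI hq ih =>
    intro _ hc
    have hc1 : IsCoprime q 𝔤 := hc.of_mul_left_left
    have hc2 : IsCoprime I 𝔤 := hc.of_mul_left_right
    have hq1 : q ≠ ⊥ := hq.ne_zero
    let v : Pl M := ⟨q, Ideal.isPrime_of_prime hq, hq1⟩
    have hv : ¬ v.asIdeal ∣ 𝔤 := by
      intro hd
      have h1 : q ∣ 𝔤 := hd
      have h2 : IsCoprime q q := hc1.of_isCoprime_of_dvd_right h1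
      rw [isCoprime_self] at h2
      exact hq.not_isUnit h2
    have h1 := hχ v hv
    have h2 : χ.χ q = ep p (f v) := h1
    have h3 : rcs f q = f v := rcs_prime f v
    rw [map_mul, h2, ih hI hc2, rcs_mul f hq1 hI, ep_add hp, h3]

theorem chi_coprime {a : 𝓞 M} {𝔤 : Ideal (𝓞 M)} (h0 : 𝔤 ≠ ⊥)
    (h : ∀ w : Pl M, w.asIdeal ∣ 𝔤 → a ∉ w.asIdeal) : IsCoprime (Ideal.span {a}) 𝔤 := by
  rw [Ideal.isCoprime_iff_sup_eq]
  by_contra hne
  obtain ⟨m, hm, hle⟩ := Ideal.exists_le_maximal _ hne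
  have h1 : 𝔤 ≤ m := le_sup_right.trans hle
  have hm0 : m ≠ ⊥ := by
    rintro rfl
    exact h0 (le_bot_iff.1 h1)
  refine h ⟨m, hm.isPrime, hm0⟩ (Ideal.dvd_iff_le.2 h1) ?_
  exact hle (Ideal.mem_sup_left (Ideal.mem_span_singleton_self a))

theorem chi_ex (hp : p.Prime) (hζ : IsPrimitiveRoot ζ p) {lam : Pl M → ZMod p} (hl : IsRec p ζ lam)
    (δ : Mˣ) (𝔤 : Ideal (𝓞 M)) (h0 : 𝔤 ≠ ⊥) (h3 : Ideal.span {(p : 𝓞 M) ^ 3} ∣ 𝔤)
    (hb : ∀ w : Pl M, ¬ Above p w → ((ord w δ : ℤ) : ZMod p) ≠ 0 → w.asIdeal ∣ 𝔤) :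
    ∃ χ : RC M 𝔤, CH p ζ δ 𝔤 lam χ := by
  obtain ⟨χ, hχ, -⟩ := ray_rc hp h0 (chi_ray hp hζ hl h3 hb)
  refine ⟨χ, fun w hw π hπ => ?_, fun a ha hc h1 w₀ hw₀ haw h2 => ?_⟩
  · rw [hχ w hw, chf, if_neg hw, chf_unif hp hζ h3 hb hw π, hπ, Int.cast_one, one_mul]
  · have ha0 : a ≠ 0 := by
      rintro rfl
      exact haw (w₀.asIdeal.zero_mem)
    have hs : Ideal.span {a} ≠ (⊥ : Ideal (𝓞 M)) := by
      rw [Ne, Ideal.span_singleton_eq_bot]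
      exact ha0
    have hx : ((Units.mk0 (a : M) ha : Mˣ) : M) = algebraMap (𝓞 M) M a := rfl
    have hord : ord w₀ (Units.mk0 (a : M) ha) = 0 := by
      rw [ord_eq_zero_iff, hx]
      exact (w₀.valuation_eq_one_iff_notMem (K := M)).2 haw
    rw [chi_ideal hp hχ _ hs hc, rcs_span _ ha0 hx,
      chi_key hp hζ hl h3 hb (chi_prim hp hx h1) hw₀ hord]
    intro w hw hpw hne
    exact B_of_one1 hp hζ hpw δ (chi_one1 hx (h2 w hw hpw hne))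

theorem chi_crt (w0 : Pl M) (J : Ideal (𝓞 M)) (hJ : ¬ w0.asIdeal ∣ J) (g0 : 𝓞 M) :
    ∃ a : 𝓞 M, a - 1 ∈ J ∧ a - g0 ∈ w0.asIdeal := by
  have h1 : IsCoprime J w0.asIdeal := (rayc_coprime w0 hJ).symm
  obtain ⟨j, hj, i, hi, hji⟩ := Ideal.isCoprime_iff_exists.1 h1
  refine ⟨1 + j * (g0 - 1), ?_, ?_⟩
  · have : 1 + j * (g0 - 1) - 1 = j * (g0 - 1) := by ring
    rw [this]
    exact Ideal.mul_mem_right _ _ hj
  · have : 1 + j * (g0 - 1) - g0 = i * (1 - g0) := by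
      have h2 : j = 1 - i := by rw [← hji]; ring
      rw [h2]
      ring
    rw [this]
    exact Ideal.mul_mem_right _ _ hi

theorem chi_lg (hp : p.Prime) (hζ : IsPrimitiveRoot ζ p) {w₀ : Pl M} (hw : ¬ Above p w₀)
    {z : Mˣ} (hz0 : ord w₀ z = 0) {a : 𝓞 M} (haM : (a : M) ≠ 0)
    (haz : w₀.valuation M (algebraMap (𝓞 M) M a - z) < 1) :
    lg p ζ w₀ (Units.mk0 (a : M) haM) = lg p ζ w₀ z := by
  have hzv := (ord_eq_zero_iff w₀ z).1 hz0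
  have hx : ((Units.mk0 (a : M) haM : Mˣ) : M) = algebraMap (𝓞 M) M a := rfl
  have h1 : Units.mk0 (a : M) haM = (Units.mk0 (a : M) haM * z⁻¹) * z := by
    rw [inv_mul_cancel_right]
  have h2 : One1 w₀ (Units.mk0 (a : M) haM * z⁻¹) := by
    unfold One1
    have h3 : ((Units.mk0 (a : M) haM * z⁻¹ : Mˣ) : M) - 1 =
        (algebraMap (𝓞 M) M a - z) * (z : M)⁻¹ := by
      rw [Units.val_mul, hx, Units.val_inv_eq_inv_val, sub_mul, mul_inv_cancel₀ z.ne_zero]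
    rw [h3, map_mul, map_inv₀, hzv, inv_one, mul_one]
    exact haz
  rw [h1, lg_mul hp hζ hw (ord_of_one1 h2) hz0, lg_of_one1 hp hζ hw h2, zero_add]

theorem chi_set (w₀ : Pl M) {𝔥 : Ideal (𝓞 M)} (h0 : 𝔥 ≠ 0) :
    ∃ E : Finset (Pl M), ∀ w, w ∈ E ↔ w ≠ w₀ ∧ w.asIdeal ∣ 𝔥 :=
  ⟨(Ideal.finite_factors h0).toFinset.erase w₀, fun w => by
    rw [Finset.mem_erase, Set.Finite.mem_toFinset]
    exact Iff.rfl⟩

theorem chi_ndvd {w₀ : Pl M} (hw : ¬ Above p w₀) {E : Finset (Pl M)} (hE : w₀ ∉ E) :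
    ¬ w₀.asIdeal ∣ Ideal.span {(p : 𝓞 M) ^ 3} * ∏ w ∈ E, w.asIdeal := by
  intro hd
  rcases (HeightOneSpectrum.prime w₀).dvd_or_dvd hd with h1 | h1
  · have h2 : (p : 𝓞 M) ^ 3 ∈ w₀.asIdeal := Ideal.dvd_span_singleton.1 h1
    have h3 : (p : 𝓞 M) ∈ w₀.asIdeal := w₀.isPrime.mem_of_pow_mem 3 h2
    exact hw h3
  · obtain ⟨w, hwE, h2⟩ := (HeightOneSpectrum.prime w₀).exists_mem_finset_dvd h1
    have h3 : w.asIdeal ≤ w₀.asIdeal := Ideal.le_of_dvd h2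
    have h4 : w = w₀ := HeightOneSpectrum.ext (w.isMaximal.eq_of_le w₀.isPrime.ne_top h3)
    exact hE (h4 ▸ hwE)

theorem chi_near {w₀ : Pl M} {a g0 : 𝓞 M} {z : M} (hag : a - g0 ∈ w₀.asIdeal)
    (hg1 : w₀.valuation M (algebraMap (𝓞 M) M g0 - z) < 1) :
    w₀.valuation M (algebraMap (𝓞 M) M a - z) < 1 := by
  have h1 : algebraMap (𝓞 M) M a - z =
      algebraMap (𝓞 M) M (a - g0) + (algebraMap (𝓞 M) M g0 - z) := by
    rw [map_sub]
    ring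
  rw [h1]
  exact lt_of_le_of_lt (Valuation.map_add _ _ _)
    (max_lt ((w₀.valuation_lt_one_iff_mem (a - g0)).2 hag) hg1)

theorem chi_notmem {w₀ : Pl M} {a : 𝓞 M} {z : M} (hz : w₀.valuation M z = 1)
    (haz : w₀.valuation M (algebraMap (𝓞 M) M a - z) < 1) : a ∉ w₀.asIdeal := by
  intro h1
  have h2 := (w₀.valuation_lt_one_iff_mem (K := M) a).2 h1
  have h3 : z = algebraMap (𝓞 M) M a - (algebraMap (𝓞 M) M a - z) := by ring
  have h4 : w₀.valuation M z < 1 := by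
    rw [h3]
    exact lt_of_le_of_lt (Valuation.map_sub _ _ _) (max_lt h2 haz)
  rw [hz] at h4
  exact lt_irrefl _ h4

theorem chi_elt (hp : p.Prime) (hζ : IsPrimitiveRoot ζ p) {w₀ : Pl M} (hw : ¬ Above p w₀)
    {𝔥 : Ideal (𝓞 M)} (h0 : 𝔥 ≠ 0) :
    ∃ (a : 𝓞 M) (haM : (a : M) ≠ 0), a - 1 ∈ Ideal.span {(p : 𝓞 M) ^ 3} ∧ a ∉ w₀.asIdeal ∧
      (∀ w : Pl M, w.asIdeal ∣ 𝔥 → w ≠ w₀ → a - 1 ∈ w.asIdeal) ∧
      lg p ζ w₀ (Units.mk0 (a : M) haM) = 1 := by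
  obtain ⟨z, hz0, hz1⟩ := exists_lg hp hζ hw 1
  have hzv : w₀.valuation M (z : M) = 1 := (ord_eq_zero_iff w₀ z).1 hz0
  obtain ⟨g0, hg1⟩ := symb_exists w₀ (z : M) hzv.le
  obtain ⟨E, hE⟩ := chi_set w₀ h0
  have hJ := chi_ndvd hw (E := E) (fun h => ((hE w₀).1 h).1 rfl)
  obtain ⟨a, haJ, hag⟩ := chi_crt w₀ _ hJ g0
  have haz := chi_near hag hg1
  have haw := chi_notmem hzv haz
  have haM : (a : M) ≠ 0 := by
    intro h1
    have ha0 : a = 0 := NumberField.RingOfIntegers.ext h1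
    rw [ha0] at haw
    exact haw (w₀.asIdeal.zero_mem)
  have hJ3 : a - 1 ∈ Ideal.span {(p : 𝓞 M) ^ 3} := Ideal.le_of_dvd (dvd_mul_right _ _) haJ
  refine ⟨a, haM, hJ3, haw, fun w hd hne => ?_, ?_⟩
  · have hwE : w ∈ E := (hE w).2 ⟨hne, hd⟩
    have h1 : w.asIdeal ∣ Ideal.span {(p : 𝓞 M) ^ 3} * ∏ w ∈ E, w.asIdeal :=
      dvd_mul_of_dvd_right (Finset.dvd_prod_of_mem _ hwE) _
    exact Ideal.le_of_dvd h1 haJ
  · exact (chi_lg hp hζ hw hz0 haM haz).trans hz1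

theorem chi_ep_ne (hp : p.Prime) {a b : ZMod p} (hab : a ≠ b) :
    ep p a * (starRingEnd ℂ) (ep p b) ≠ 1 := by
  intro h1
  apply hab
  have h3 : (starRingEnd ℂ) (ep p b) * ep p b = 1 := by
    rw [← Complex.normSq_eq_conj_mul_self, Complex.normSq_eq_norm_sq, ep_norm]
    norm_num
  have h2 : ep p a = ep p b := by
    calc ep p a = ep p a * ((starRingEnd ℂ) (ep p b) * ep p b) := by rw [h3, mul_one]
      _ = (ep p a * (starRingEnd ℂ) (ep p b)) * ep p b := by rw [mul_assoc]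
      _ = ep p b := by rw [h1, one_mul]
  have h4 : ep p (a - b) = 1 := by
    have h5 := ep_add hp (a - b) b
    rw [sub_add_cancel, h2] at h5
    have h6 : ep p b ≠ 0 := by
      intro h7
      have h8 := ep_norm p b
      rw [h7, norm_zero] at h8
      exact zero_ne_one h8
    exact (mul_eq_right₀ h6).1 h5.symm
  exact sub_eq_zero.1 ((ep_eq_one hp _).1 h4)

theorem chi_pn (hp : p.Prime) (hζ : IsPrimitiveRoot ζ p) {lam : Pl M → ZMod p}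
    {δ δ' : Mˣ} {𝔤 𝔤' : Ideal (𝓞 M)} (h0 : 𝔤 ≠ ⊥) (h0' : 𝔤' ≠ ⊥)
    (h3 : Ideal.span {(p : 𝓞 M) ^ 3} ∣ 𝔤) (h3' : Ideal.span {(p : 𝓞 M) ^ 3} ∣ 𝔤')
    {χ : RC M 𝔤} {χ' : RC M 𝔤'} (h : CH p ζ δ 𝔤 lam χ) (h' : CH p ζ δ' 𝔤' lam χ') (w₀ : Pl M)
    (hw : ¬ Above p w₀) (hl : lam w₀ = 1)
    (hne : ((ord w₀ δ : ℤ) : ZMod p) ≠ ((ord w₀ δ' : ℤ) : ZMod p)) : PN (prc χ χ') := by
  have hgg : 𝔤 * 𝔤' ≠ 0 := mul_ne_zero h0 h0'
  obtain ⟨a, haM, hp3, haw, hgen, hlg⟩ := chi_elt hp hζ hw hgg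
  have ha0 : a ≠ 0 := by
    intro h1
    rw [h1] at haw
    exact haw (w₀.asIdeal.zero_mem)
  have hnm : ∀ w : Pl M, w.asIdeal ∣ 𝔤 * 𝔤' → a ∉ w.asIdeal := by
    intro w hd haw'
    by_cases hww : w = w₀
    · rw [hww] at haw'
      exact haw haw'
    · have h1 := hgen w hd hww
      apply w.isPrime.ne_top
      rw [Ideal.eq_top_iff_one]
      have h2 := w.asIdeal.sub_mem haw' h1
      rwa [sub_sub_cancel] at h2
  have c1 : IsCoprime (Ideal.span {a}) 𝔤 :=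
    chi_coprime h0 fun w hd => hnm w (dvd_mul_of_dvd_left hd _)
  have c2 : IsCoprime (Ideal.span {a}) 𝔤' :=
    chi_coprime h0' fun w hd => hnm w (dvd_mul_of_dvd_right hd _)
  have e1 := h.prin a haM c1 hp3 w₀ hw haw
    (fun w hd _ hne => hgen w (dvd_mul_of_dvd_left hd _) hne)
  have e2 := h'.prin a haM c2 hp3 w₀ hw haw
    (fun w hd _ hne => hgen w (dvd_mul_of_dvd_right hd _) hne)
  refine ⟨a, ha0, c1.mul_right c2, ?_⟩
  rw [prc_apply, e1, e2, hl, hlg, one_mul, one_mul, mul_one, mul_one]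
  exact chi_ep_ne hp hne

end H51.CUB
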