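import Pool.Agent.H51.CUB.RLin
import Pool.Agent.H63.MA.GHeis
import Pool.Agent.H63.MA.GLg
import Pool.Agent.H63.MA.GTw

/-!
[H51 CUB RHX]  Existence of `Rho` (80-120 lines). PROOF.

`glg_triv Ω hp hp2 hζ d c hd.1 _ : Tv (cu d c)`: for `v ∉ S0` the hypothesis `h`; for `v ∈ S0`, `v` not above `p`: `hd.2 v` is `Spl p ζ v d`, i.e. `B v d x = 0`
for all `x`; primes above `p` are in `S0` (`D.above`). So there is `l` of finite level with `l (g h) = l g + l h + kk d g * kk c h`. Let `T` be the finite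
set of `v ∉ S0` with `l (L.t v) ≠ 0`: it is finite by `ram_finite` (`H63/MA/GTw`) for the homomorphism
`φ = gheis_hom ζ (fun _ : Unit => d) (fun _ => c) l _` (`l (t v) ≠ 0` implies `φ (t v) ≠ 1`). Put
`u = ∏ v ∈ T, D.pi v ^ (- l (L.t v)).val` and `Y = l + kk u`. Then `Y` has the same coboundary (`kk` is additive), finite level (`gtriv_lev`, `gtriv_kk`), and
`kk u (L.t v) = - l (L.t v)` for `v ∉ S0` by `kk_pi` (`H63/MA/GTw`; `kk` of a product and a power: see the lemmas used there).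
-/

set_option autoImplicit false

open scoped NumberField
open IsDedekindDomain
open scoped Classical

noncomputable section

namespace H51.CUB

open H63.MA H38.BB H38.BG H57.PC

variable {K : Type} [Field K] [NumberField K] {p : ℕ} {ζ : K} {Ω : Type} [Field Ω] [Algebra K Ω]
  [IsAlgClosure K Ω]

theorem rho_ex (hp : p.Prime) (hp2 : MOne p K) (hζ : IsPrimitiveRoot ζ p) {D : RD0 K p ζ}
    (L : LDs D Ω) (d c : Kˣ) (hd : PS p ζ D.S0 d) (h : ∀ v, v ∉ D.S0 → B p ζ v d c = 0) :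
    ∃ Y : Gal(Ω/K) → ZMod p, Rho L d c Y := by
  have hne : NeZero p := ⟨hp.ne_zero⟩
  have hloc : ∀ v : Pl K, ¬ Above p v → B p ζ v d c = 0 := by
    intro v hv
    by_cases hv0 : v ∈ D.S0
    · exact hd.2 v hv0 hv c
    · exact h v hv0
  obtain ⟨l, hl, hadd⟩ := glg_triv Ω hp hp2 hζ d c hd.1 hloc
  have hadd' : ∀ σ τ, l (σ * τ) = l σ + l τ +
      ∑ j : Unit, cu p ζ ((fun _ : Unit => d) j) ((fun _ : Unit => c) j) σ τ := by
    intro σ τ
    rw [hadd, Fintype.sum_unique]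
  have hft := gheis_hom_ft hp hζ (fun _ : Unit => d) (fun _ : Unit => c) l hadd' hl
  have hfin := ram_finite hp D L (gheis_hom ζ (fun _ : Unit => d) (fun _ : Unit => c) l hadd') hft
  have hfin2 : {v | v ∉ D.S0 ∧ l (L.t v) ≠ 0}.Finite := hfin.subset (by
    rintro v ⟨hv, hl0⟩
    refine ⟨hv, fun h1 => hl0 ?_⟩
    have h2 := congrArg (fun g => g.z) h1
    exact h2)
  obtain ⟨T, hT⟩ : ∃ T : Finset (Pl K), ∀ v, v ∈ T ↔ v ∉ D.S0 ∧ l (L.t v) ≠ 0 :=
    ⟨hfin2.toFinset, fun v => by rw [Set.Finite.mem_toFinset]; exact Iff.rfl⟩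
  refine ⟨fun g => l g + kk p ζ (∏ v ∈ T, D.pi v ^ (-(l (L.t v))).val) g,
    gtriv_lev hl (gtriv_kk hp hζ _) (fun x y => x + y), fun g h => ?_, fun v hv => ?_⟩
  · rw [hadd, kk_mul]
    unfold cu
    ring
  · rw [kk_prod_arg hp hζ]
    have h1 : ∀ w ∈ T, kk p ζ (D.pi w ^ (-(l (L.t w))).val) (L.t v) =
        if w = v then -(l (L.t v)) else 0 := by
      intro w hw
      rw [← zpow_natCast, kk_zpow_arg hp hζ, gkum_val hp]
      split_ifs with hwv
      · rw [(kk_pi hp hζ D L w v ((hT w).1 hw).1 hv).1 hwv, mul_one, hwv]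
      · rw [(kk_pi hp hζ D L w v ((hT w).1 hw).1 hv).2 hwv, mul_zero]
    rw [Finset.sum_congr rfl h1, Finset.sum_ite_eq']
    by_cases hvT : v ∈ T
    · rw [if_pos hvT, add_neg_cancel]
    · rw [if_neg hvT, add_zero]
      by_contra hne0
      exact hvT ((hT v).2 ⟨hv, hne0⟩)

/-- the local symbol in terms of `LL` -/
theorem b_LL (hp : p.Prime) (hζ : IsPrimitiveRoot ζ p) (D : RD0 K p ζ) (v : Pl K) (hv : v ∉ D.S0)
    (c x : Kˣ) : B p ζ v c x = D.LL v c * ord v x - ord v c * D.LL v x := by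
  exact b_eq hp hζ (fun h => hv (D.above v h)) (D.pi_self v hv) c x

end H51.CUB
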