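import Pool.Agent.H51.CUB.Def
import Pool.Agent.H51.CUB.RHX
import Pool.Agent.H63.MA.AFin
import Pool.Agent.H63.MA.RMkB

/-!
[H51 CUB BXA]  Preliminaries for the boxes (60-90 lines). PROOF.

`gd_card`: a good prime `v` has norm a rational prime `ℓ ≤ x`, and at most `[K : ℚ]` primes lie over `ℓ` (library: grep `primesOver`, `card_primesOver`, or `AF`, `H63/MA/AFin`, `H57/TLS/Har`; any bound linear in `x` is fine: the
number of ideals of norm `≤ x`, e.g. `H36/QA`).
`box_ps`: `D.prim_of` with `m = single a 1 - single a' 1` (total class `q a - q a' = 0`; `Finsupp.prod` of it is `pi a * (pi a')⁻¹`; `a = a'` gives `1`).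
`ll_div`: `LL v` is additive (library lemma for `RD0.LL`, grep `theorem LL_mul`, `ll_mul`), so `LL v (x / y) = LL v x - LL v y`.
`ord_div`: `ord v (pi a / pi a')` is `1` at `a`, `-1` at `a'`, `0` at the other `v ∉ S0`.
`box_rho`: `rho_ex` with `d = pi b / pi b'`, `c = pi a / pi a'`: by `b_LL` the symbol `B v d c` is `LL v d * ord v c - ord v d * LL v c`; `ord v c ≠ 0` only for `v = a, a'` where
`LL v d = LL v (pi b) - LL v (pi b') = 0`: by `D.rec2`, `LL a (pi b) - LL b (pi a)` depends only on `q b`, `q a`. `ord v d ≠ 0` only at `b, b'` where `LL v c = 0` by hypothesis.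
`box_rho2`: the same with a general element `A` in place of `c`.
-/

set_option autoImplicit false

open scoped NumberField ComplexConjugate
open IsDedekindDomain
open scoped Classical

noncomputable section

namespace H51.CUB

open H63.MA H38.BB H38.BG H57.PC H57.TLS

variable {K : Type} [Field K] [NumberField K] {p : ℕ} {ζ : K} {Ω : Type} [Field Ω] [Algebra K Ω]
  [IsAlgClosure K Ω]

theorem gd_card (D : RD0 K p ζ) : ∃ c : ℝ, 1 ≤ c ∧ ∀ (Q : Finset (Pl K)) (x : ℝ), 1 ≤ x →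
    (∀ v ∈ Q, D.Gd v ∧ (nm v : ℝ) ≤ x) → (Q.card : ℝ) ≤ c * x := by
  obtain ⟨C, hC, h⟩ := af_card K
  refine ⟨max C 1, le_max_right _ _, fun Q x hx hQ => ?_⟩
  have h1 : Q.card ≤ (AF K x).card := by
    refine Finset.card_le_card_of_injOn (fun v => ({v} : Finset (Pl K))) ?_ ?_
    · intro v hv
      rw [Finset.mem_coe] at hv
      rw [Finset.mem_coe, mem_AF]
      unfold nr
      rw [Finset.prod_singleton]
      exact (hQ v hv).2
    · intro v _ w _ hvw
      exact Finset.singleton_injective hvw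
  have h2 : (Q.card : ℝ) ≤ ((AF K x).card : ℝ) := by exact_mod_cast h1
  have h3 : C * x ≤ max C 1 * x := mul_le_mul_of_nonneg_right (le_max_left _ _) (by linarith)
  linarith [h x hx]

theorem box_ps (hp : p.Prime) (D : RD0 K p ζ) {a a' : Pl K} (ha : a ∉ D.S0) (ha' : a' ∉ D.S0)
    (hq : D.q a = D.q a') : PS p ζ D.S0 (D.pi a / D.pi a') := by
  have h := D.prim_of (Finsupp.single a 1 + Finsupp.single a' (-1)) ?_ ?_
  · rw [Finsupp.prod_add_index' (fun v => zpow_zero _) (fun v m n => zpow_add _ m n),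
      Finsupp.prod_single_index (zpow_zero _), Finsupp.prod_single_index (zpow_zero _),
      zpow_one, zpow_neg_one, ← div_eq_mul_inv] at h
    exact h
  · intro v hv
    have h1 : a ≠ v := fun h => ha (h ▸ hv)
    have h2 : a' ≠ v := fun h => ha' (h ▸ hv)
    rw [Finsupp.add_apply, Finsupp.single_eq_of_ne' h1, Finsupp.single_eq_of_ne' h2, add_zero]
  · rw [Finsupp.sum_add_index' (fun v => by rw [Int.cast_zero, zero_smul])
      (fun v m n => by rw [Int.cast_add, add_smul]),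
      Finsupp.sum_single_index (by rw [Int.cast_zero, zero_smul]),
      Finsupp.sum_single_index (by rw [Int.cast_zero, zero_smul]), hq, Int.cast_one, Int.cast_neg,
      Int.cast_one, one_smul, neg_smul, one_smul, add_neg_cancel]

theorem ll_mul (hp : p.Prime) (hζ : IsPrimitiveRoot ζ p) (D : RD0 K p ζ) {v : Pl K} (hv : v ∉ D.S0)
    (x y : Kˣ) : D.LL v (x * y) = D.LL v x + D.LL v y := by
  exact LL_mul hp hζ D hv x y

theorem ll_div (hp : p.Prime) (hζ : IsPrimitiveRoot ζ p) (D : RD0 K p ζ) {v : Pl K} (hv : v ∉ D.S0)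
    (x y : Kˣ) : D.LL v (x / y) = D.LL v x - D.LL v y := by
  rw [div_eq_mul_inv, LL_mul hp hζ D hv, ← zpow_neg_one, LL_zpow hp hζ D hv]
  push_cast
  ring

theorem ll_pow (hp : p.Prime) (hζ : IsPrimitiveRoot ζ p) (D : RD0 K p ζ) {v : Pl K} (hv : v ∉ D.S0)
    (x : Kˣ) (n : ℕ) : D.LL v (x ^ n) = n * D.LL v x := by
  have h := LL_zpow hp hζ D hv x (n : ℤ)
  rw [zpow_natCast] at h
  rw [h]
  push_cast
  rfl

theorem ll_self (hp : p.Prime) (hζ : IsPrimitiveRoot ζ p) (D : RD0 K p ζ) {v : Pl K}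
    (hv : v ∉ D.S0) : D.LL v (D.pi v) = 0 := by
  exact LL_pi hp hζ D hv

theorem ord_div (D : RD0 K p ζ) {a a' : Pl K} (ha : a ∉ D.S0) (ha' : a' ∉ D.S0) (v : Pl K)
    (hv : v ∉ D.S0) :
    ord v (D.pi a / D.pi a') = (if v = a then 1 else 0) - (if v = a' then 1 else 0) := by
  have h1 : ∀ b : Pl K, b ∉ D.S0 → ord v (D.pi b) = if v = b then 1 else 0 := by
    intro b hb
    by_cases h : v = b
    · rw [if_pos h, h]; exact D.pi_self b hb
    · rw [if_neg h]; exact D.pi_ne b v hb hv h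
  rw [div_eq_mul_inv, ord_mul, ord_inv, h1 a ha, h1 a' ha', sub_eq_add_neg]

theorem box_rho (hp : p.Prime) (hp2 : MOne p K) (hζ : IsPrimitiveRoot ζ p) (D : RD K p ζ)
    (L : LDs D.toRD0 Ω) {a a' b b' : Pl K} (ha : D.Gd a) (ha' : D.Gd a') (hb : D.Gd b)
    (hb' : D.Gd b') (hqa : D.q a = D.q a') (hqb : D.q b = D.q b')
    (hne : a ≠ b ∧ a ≠ b' ∧ a' ≠ b ∧ a' ≠ b')
    (h1 : D.LL b (D.pi a') = D.LL b (D.pi a)) (h2 : D.LL b' (D.pi a) = D.LL b (D.pi a))
    (h3 : D.LL b' (D.pi a') = D.LL b (D.pi a)) :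
    ∃ Y : Gal(Ω/K) → ZMod p, Rho L (D.pi b / D.pi b') (D.pi a / D.pi a') Y := by
  refine rho_ex hp hp2 hζ L _ _ (box_ps hp D.toRD0 hb.1 hb'.1 hqb) ?_
  intro v hv
  rw [b_LL hp hζ D.toRD0 v hv, ord_div D.toRD0 ha.1 ha'.1 v hv, ord_div D.toRD0 hb.1 hb'.1 v hv,
    ll_div hp hζ D.toRD0 hv, ll_div hp hζ D.toRD0 hv]
  have ea : D.LL a (D.pi b) = D.LL a (D.pi b') := by
    have e1 := D.rec2 a b ha hb hne.1
    have e2 := D.rec2 a b' ha hb' hne.2.1
    rw [hqb] at e1
    have e3 := e1.trans e2.symm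
    rw [h2] at e3
    exact sub_left_injective e3
  have ea' : D.LL a' (D.pi b) = D.LL a' (D.pi b') := by
    have e1 := D.rec2 a' b ha' hb hne.2.2.1
    have e2 := D.rec2 a' b' ha' hb' hne.2.2.2
    rw [hqb] at e1
    have e3 := e1.trans e2.symm
    rw [h1, h3] at e3
    exact sub_left_injective e3
  have c1 : (D.LL v (D.pi b) - D.LL v (D.pi b')) *
      (((if v = a then 1 else 0) - (if v = a' then 1 else 0) : ℤ) : ZMod p) = 0 := by
    by_cases hva : v = a
    · rw [hva, ea, sub_self, zero_mul]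
    · by_cases hva' : v = a'
      · rw [hva', ea', sub_self, zero_mul]
      · rw [if_neg hva, if_neg hva', sub_self, Int.cast_zero, mul_zero]
  have c2 : (((if v = b then 1 else 0) - (if v = b' then 1 else 0) : ℤ) : ZMod p) *
      (D.LL v (D.pi a) - D.LL v (D.pi a')) = 0 := by
    by_cases hvb : v = b
    · rw [hvb, h1, sub_self, mul_zero]
    · by_cases hvb' : v = b'
      · rw [hvb', h2, h3, sub_self, mul_zero]
      · rw [if_neg hvb, if_neg hvb', sub_self, Int.cast_zero, zero_mul]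
  rw [c1, c2, sub_zero]

theorem box_rho2 (hp : p.Prime) (hp2 : MOne p K) (hζ : IsPrimitiveRoot ζ p) (D : RD0 K p ζ)
    (L : LDs D Ω) {a a' : Pl K} (ha : a ∉ D.S0) (ha' : a' ∉ D.S0) (hq : D.q a = D.q a') (A : Kˣ)
    (h1 : D.LL a A = 0) (h2 : D.LL a' A = 0)
    (h3 : ∀ v, v ∉ D.S0 → ((ord v A : ℤ) : ZMod p) ≠ 0 → D.LL v (D.pi a) = D.LL v (D.pi a')) :
    ∃ Y : Gal(Ω/K) → ZMod p, Rho L (D.pi a / D.pi a') A Y := by
  refine rho_ex hp hp2 hζ L _ _ (box_ps hp D ha ha' hq) ?_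
  intro v hv
  rw [b_LL hp hζ D v hv, ord_div D ha ha' v hv, ll_div hp hζ D hv]
  have c1 : (D.LL v (D.pi a) - D.LL v (D.pi a')) * ((ord v A : ℤ) : ZMod p) = 0 := by
    by_cases h : ((ord v A : ℤ) : ZMod p) = 0
    · rw [h, mul_zero]
    · rw [h3 v hv h, sub_self, zero_mul]
  have c2 : (((if v = a then 1 else 0) - (if v = a' then 1 else 0) : ℤ) : ZMod p) * D.LL v A = 0 := by
    by_cases hva : v = a
    · rw [hva, h1, mul_zero]
    · by_cases hva' : v = a'
      · rw [hva', h2, mul_zero]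
      · rw [if_neg hva, if_neg hva', sub_self, Int.cast_zero, zero_mul]
  rw [c1, c2, sub_zero]

end H51.CUB
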