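import Pool.Agent.H51.CUB.VCa
import Pool.Agent.H51.CUB.BXA

/-!
[H51 CUB ACC]  Products of the Kummer generators (120-160 lines). PROOF.

`Ac D b n s c = ∏ k, ak D b n s k ^ (c k).val`.
* `kk_pw`, `ac_kk`, `ac_LL`, `ac_ord`: `kk_mul_arg`, `kk_zpow_arg`, `ll_mul`, `ll_pow`, `ord_mul`, `ord_pow`, induction over `Finset.univ` / `n`; `ZMod.natCast_zmod_val`.
* `ak_ord`: `v ∉ S0`, `v ∉ E`: `ord v (b k) = 0` (`BS2`), `ord v (pi w) = [v = w]` (`D.pi_self`, `D.pi_ne`, the `w ∈ n` are outside `S0`): `ord v (ak ..) = (s v k).val` if `v ∈ n`, else `0`.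
* `ak_vn`: `vn n q = n ∪ image q` disjoint, `q` injective; `vs_q`, `vs_out` (`VCa`).
* `pu_F`: the Kummer condition of `XS` at `g = F v` and `Fr.kf`. `pu_Fq`: `pu_F`, `ak_vn`, `ll_mul`, `ll_pow`, `ll_self`.
* `com_q`: `xs_com` at `v = q i` (`vs_q`), `kV_comm`, `kV_swap`.
-/

set_option autoImplicit false

open scoped NumberField
open IsDedekindDomain
open scoped Classical

noncomputable section

namespace H51.CUB

open H63.MA H38.BB H38.BG H57.PC H77.PC3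

variable {K : Type} [Field K] [NumberField K] {p : ℕ} {ζ : K} {Ω : Type} [Field Ω] [Algebra K Ω]
  {m l w N : ℕ} {P R : Type} [Group P] [Group R]

/-- products of the Kummer generators -/
def Ac (D : RD0 K p ζ) (b : Fin m → Kˣ) (n : Finset (Pl K)) (s : Pl K → Fin m → ZMod p)
    (c : Fin m → ZMod p) : Kˣ := ∏ k, ak D b n s k ^ (c k).val

private theorem acc_ll_prod (hp : p.Prime) (hζ : IsPrimitiveRoot ζ p) (D : RD0 K p ζ) {v : Pl K}
    (hv : v ∉ D.S0) {ι : Type} (s : Finset ι) (x : ι → Kˣ) (e : ι → ℕ) :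
    D.LL v (∏ j ∈ s, x j ^ e j) = ∑ j ∈ s, (e j : ZMod p) * D.LL v (x j) := by
  induction s using Finset.induction_on with
  | empty => rw [Finset.prod_empty, Finset.sum_empty, LL_one hp hζ D hv]
  | insert a s ha ih =>
    rw [Finset.prod_insert ha, Finset.sum_insert ha, LL_mul hp hζ D hv, ll_pow hp hζ D hv, ih]

theorem ac_kk [NeZero p] [IsAlgClosure K Ω] (hp : p.Prime) (hζ : IsPrimitiveRoot ζ p)
    (D : RD0 K p ζ) (b : Fin m → Kˣ) (n : Finset (Pl K)) (s : Pl K → Fin m → ZMod p)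
    (c : Fin m → ZMod p) (g : Gal(Ω/K)) :
    kk p ζ (Ac D b n s c) g = ∑ k, c k * kk p ζ (ak D b n s k) g := by
  unfold Ac
  rw [kk_prod_arg hp hζ]
  refine Finset.sum_congr rfl fun k _ => ?_
  have h1 := kk_zpow_arg hp hζ (ak D b n s k) ((c k).val : ℤ) g
  rw [zpow_natCast, Int.cast_natCast, ZMod.natCast_zmod_val] at h1
  exact h1

theorem ac_LL [NeZero p] (hp : p.Prime) (hζ : IsPrimitiveRoot ζ p) (D : RD0 K p ζ) (b : Fin m → Kˣ)
    (n : Finset (Pl K)) (s : Pl K → Fin m → ZMod p) (c : Fin m → ZMod p) {v : Pl K}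
    (hv : v ∉ D.S0) : D.LL v (Ac D b n s c) = ∑ k, c k * D.LL v (ak D b n s k) := by
  unfold Ac
  rw [acc_ll_prod hp hζ D hv]
  refine Finset.sum_congr rfl fun k _ => ?_
  rw [ZMod.natCast_zmod_val]

theorem ac_ord [NeZero p] (D : RD0 K p ζ) (b : Fin m → Kˣ)
    (n : Finset (Pl K)) (s : Pl K → Fin m → ZMod p) (c : Fin m → ZMod p) (v : Pl K) :
    ((ord v (Ac D b n s c) : ℤ) : ZMod p) = ∑ k, c k * ((ord v (ak D b n s k) : ℤ) : ZMod p) := by
  unfold Ac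
  rw [ord_prod, Int.cast_sum]
  refine Finset.sum_congr rfl fun k _ => ?_
  rw [ord_pow, Int.cast_mul, Int.cast_natCast, ZMod.natCast_zmod_val]

theorem ak_ord [NeZero p] (D : RD0 K p ζ) {b : Fin m → Kˣ} {E n : Finset (Pl K)}
    (hB : Bse D b E n) (s : Pl K → Fin m → ZMod p) (k : Fin m) (v : Pl K) (hv : v ∉ D.S0)
    (hE : v ∉ E) : ((ord v (ak D b n s k) : ℤ) : ZMod p) = if v ∈ n then s v k else 0 := by
  unfold ak
  rw [ord_mul, hB.bs.2 k v hv hE, zero_add, ord_prod, Int.cast_sum]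
  have h1 : ∀ u ∈ n, ((ord v (D.pi u ^ (s u k).val) : ℤ) : ZMod p) = if u = v then s v k else 0 := by
    intro u hu
    rw [ord_pow, Int.cast_mul, Int.cast_natCast, ZMod.natCast_zmod_val]
    by_cases huv : u = v
    · rw [if_pos huv, huv, D.pi_self v hv, Int.cast_one, mul_one]
    · rw [if_neg huv, D.pi_ne u v (hB.gn u hu).1.1 hv fun h => huv h.symm, Int.cast_zero, mul_zero]
  rw [Finset.sum_congr rfl h1, Finset.sum_ite_eq']

theorem ak_vn [NeZero p] (D : RD0 K p ζ) (Dg : GP p m l w N P R) (b : Fin m → Kˣ)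
    (n : Finset (Pl K)) (σ : Pl K → R) {r : ℕ} (τ : Fin r → R) (q : Fin r → Pl K)
    (hq : Function.Injective q) (hn : ∀ i, q i ∉ n) (k : Fin m) :
    ak D b (vn n q) (sg Dg (vs σ q τ)) k =
      ak D b n (sg Dg σ) k * ∏ i, D.pi (q i) ^ (pu Dg (τ i) k).val := by
  have hdis : Disjoint n (Finset.univ.image q) := by
    rw [Finset.disjoint_right]
    intro v hv
    obtain ⟨j, -, rfl⟩ := Finset.mem_image.1 hv
    exact hn j
  unfold ak vn
  rw [Finset.prod_union hdis, Finset.prod_image fun a _ b _ h => hq h, ← mul_assoc]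
  congr 1
  · congr 1
    refine Finset.prod_congr rfl fun v hv => ?_
    unfold sg
    rw [vs_out σ τ fun j h3 => hn j (by rw [h3]; exact hv)]
  · refine Finset.prod_congr rfl fun i _ => ?_
    unfold sg
    rw [vs_q σ hq τ i]
    rfl

theorem pu_F {D : RD0 K p ζ} {L : LDs D Ω} (Fr : FR L) (Dg : GP p m l w N P R) (b : Fin m → Kˣ)
    (E : Finset (Pl K)) (ε : Pl K → Gal(Ω/K) → R) (n : Finset (Pl K)) (σ : Pl K → R)
    {ρ : Gal(Ω/K) →* R} (hρ : ρ ∈ XS L Dg b E ε n σ) (v : Pl K) (hv : v ∉ D.S0) (k : Fin m) :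
    pu Dg (ρ (Fr.F v)) k = D.LL v (ak D b n (sg Dg σ) k) := by
  have h1 := hρ.2.1 (Fr.F v) k
  rw [Fr.kf v hv] at h1
  exact h1.symm

theorem pu_Fq [NeZero p] (hp : p.Prime) (hζ : IsPrimitiveRoot ζ p) {D : RD0 K p ζ} {L : LDs D Ω}
    (Fr : FR L) (Dg : GP p m l w N P R) (b : Fin m → Kˣ) (E : Finset (Pl K))
    (ε : Pl K → Gal(Ω/K) → R) (n : Finset (Pl K)) (σ : Pl K → R) {r : ℕ} (τ : Fin r → R)
    (q : Fin r → Pl K) (hq : Function.Injective q) (hn : ∀ i, q i ∉ n) {ρ : Gal(Ω/K) →* R}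
    (hρ : ρ ∈ XS L Dg b E ε (vn n q) (vs σ q τ)) (v : Pl K) (hv : v ∉ D.S0) :
    pu Dg (ρ (Fr.F v)) = (fun k => D.LL v (ak D b n (sg Dg σ) k)) +
      ∑ j, D.LL v (D.pi (q j)) • pu Dg (τ j) := by
  funext k
  rw [pu_F Fr Dg b E ε (vn n q) (vs σ q τ) hρ v hv k, ak_vn D Dg b n σ τ q hq hn k,
    LL_mul hp hζ D hv, acc_ll_prod hp hζ D hv, Pi.add_apply, Finset.sum_apply]
  congr 1
  refine Finset.sum_congr rfl fun j _ => ?_
  rw [ZMod.natCast_zmod_val, Pi.smul_apply, smul_eq_mul, mul_comm]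

theorem com_q [IsAlgClosure K Ω] [Finite R] {D : RD0 K p ζ} {L : LDs D Ω}
    (Fr : FR L) (Dg : GP p m l w N P R) (b : Fin m → Kˣ) (E : Finset (Pl K))
    (ε : Pl K → Gal(Ω/K) → R) (n : Finset (Pl K)) (σ : Pl K → R) {r : ℕ} (τ : Fin r → R)
    (q : Fin r → Pl K) (hq : Function.Injective q) {ρ : Gal(Ω/K) →* R}
    (hρ : ρ ∈ XS L Dg b E ε (vn n q) (vs σ q τ)) (i : Fin r) (hi : q i ∉ D.S0) :
    Dg.kV (pu Dg (τ i)) (pu Dg (ρ (Fr.F (q i)))) = 0 := by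
  have hmem : q i ∈ vn n q := by
    unfold vn
    exact Finset.mem_union_right _ (Finset.mem_image_of_mem _ (Finset.mem_univ i))
  have h1 := xs_com Fr Dg b E ε (vn n q) (vs σ q τ) hρ (q i) hmem hi
  rw [vs_q σ hq τ i] at h1
  exact kV_comm Dg (τ i) (ρ (Fr.F (q i))) h1.symm

end H51.CUB
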