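import Pool.Agent.H51.CUB.Def
import Pool.Agent.H77.PC3.CTw

/-!
[H51 CUB AL1]  Commutator calculus in `P` and `R` (120-160 lines, pure group theory). PROOF.

Write `[x, y] = x y x⁻¹ y⁻¹`, `pu r ∈ (ZMod p)^m` for the image of `r` in `U`. Facts on `GP` are in `Pool/Agent/H77/PC3/CTw` (`cv_*`, `cw_*`, `v_ext`, `w_ext`, `com_lift`, `cm_eq`, `vof`, `vof_add`, ..).
* `com_r`: `r r' = vof (kV (pu r) (pu r')) r' r`: `[r, r'] ∈ V` (`π` is a homomorphism to a commutative group) has coordinates `kV` (`Dg.hk`); `v_ext`, `vof_cv`.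
* `kV_self`: `hk` with `r = r'`, `π` surjective; `kV_swap`: expand `kV (x + y) (x + y) = 0`.
* `cm_v`: let `π v = 1`, `r σ = σ r`. Choose lifts `x, y, z` of `v, r, σ`. `[x y, z] = x [y, z] x⁻¹ [x, z]`, `[y, z] ∈ ker q` (`r, σ` commute) is central, so `[x y, z] = [y, z] [x, z]` and `[x, z] ∈ ker q` because `v` is central in `R`. `cw` is additive; `hβ`; `cm_eq`.
* `cm_b`: `[y, z x] = [y, z] z [y, x] z⁻¹ = [y, z] [y, x]`, `[y, x] = [x, y]⁻¹`, `cw_inv`, `hβ`.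
* `jac`: the Hall-Witt identity `[[x, y⁻¹], z]^y [[y, z⁻¹], x]^z [[z, x⁻¹], y]^x = 1` (`a^b = b⁻¹ a b`; `group` proves the correct form for the convention `[x, y] = x y x⁻¹ y⁻¹`: `y [[x⁻¹... ]` -- find it by `group`, e.g.
`[[x, y], y z y⁻¹] ...`; any version works because all triple commutators are central in `P`: `[x, y]` has `π (q [x, y]) = 1`, so `[[x, y], z] ∈ ker q` by `vcen`). Take coordinates `cw`: `hβ` with `x := [x, y]`, and `cv (q [x, y]) = kV (pu x) (pu y)`; bilinearity of `kV`, `β`.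
* `pu_conj`: `π` of conjugate elements is equal.
-/

set_option autoImplicit false

open scoped NumberField
open IsDedekindDomain
open scoped Classical

noncomputable section

namespace H51.CUB

open H63.MA H38.BB H38.BG H57.PC H77.PC3

variable {p m l w N : ℕ} {P R : Type} [Group P] [Group R]

/-- the image in `U` -/
def pu (Dg : GP p m l w N P R) (r : R) : Fin m → ZMod p := Multiplicative.toAdd (Dg.π r)

theorem pu_mul (Dg : GP p m l w N P R) (r r' : R) : pu Dg (r * r') = pu Dg r + pu Dg r' := by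
  unfold pu
  rw [map_mul, toAdd_mul]

theorem pu_pow (Dg : GP p m l w N P R) (r : R) (n : ℕ) : pu Dg (r ^ n) = n • pu Dg r := by
  unfold pu
  rw [map_pow, toAdd_pow]

theorem pu_inv (Dg : GP p m l w N P R) (r : R) : pu Dg r⁻¹ = - pu Dg r := by
  unfold pu
  rw [map_inv, toAdd_inv]

theorem pu_eq_zero (Dg : GP p m l w N P R) (r : R) : pu Dg r = 0 ↔ Dg.π r = 1 := Iff.rfl

private theorem al1_comm (Dg : GP p m l w N P R) (r r' : R) : Dg.π (r * r' * r⁻¹ * r'⁻¹) = 1 := by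
  rw [map_mul, map_mul, map_mul, map_inv, map_inv, mul_comm (Dg.π r) (Dg.π r'),
    mul_inv_cancel_right, mul_inv_cancel]

theorem com_r (Dg : GP p m l w N P R) (r r' : R) :
    r * r' = vof Dg (Dg.kV (pu Dg r) (pu Dg r')) * r' * r := by
  have h : vof Dg (Dg.kV (pu Dg r) (pu Dg r')) = r * r' * r⁻¹ * r'⁻¹ := by
    refine v_ext Dg _ _ (vof_pi Dg _) (al1_comm Dg r r') fun k => ?_
    rw [vof_cv, Dg.hk]
    rfl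
  rw [h]
  group

theorem kV_self (Dg : GP p m l w N P R) (x : Fin m → ZMod p) : Dg.kV x x = 0 := by
  obtain ⟨r, hr⟩ := Dg.πs (Multiplicative.ofAdd x)
  funext k
  have h := Dg.hk r r k
  rw [hr, toAdd_ofAdd] at h
  rw [← h, show r * r * r⁻¹ * r⁻¹ = 1 by group, cv_one]
  rfl

theorem kV_swap (Dg : GP p m l w N P R) (x y : Fin m → ZMod p) : Dg.kV x y = - Dg.kV y x := by
  have h := kV_self Dg (x + y)
  simp only [map_add, LinearMap.add_apply, kV_self, zero_add, add_zero] at h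
  first
    | exact eq_neg_of_add_eq_zero_left h
    | exact eq_neg_of_add_eq_zero_right h

theorem kV_comm (Dg : GP p m l w N P R) (r r' : R) (h : r * r' = r' * r) :
    Dg.kV (pu Dg r) (pu Dg r') = 0 := by
  funext k
  have h1 := Dg.hk r r' k
  rw [h, show r' * r * r⁻¹ * r'⁻¹ = 1 by group, cv_one] at h1
  exact h1.symm

theorem cm_v (Dg : GP p m l w N P R) (v r σ : R) (hv : Dg.π v = 1) (h : r * σ = σ * r) (k : Fin w) :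
    Dg.cm (v * r) σ k = Dg.cm r σ k + Dg.β (fun j => Dg.cv j v) (pu Dg σ) k := by
  obtain ⟨X, rfl⟩ := Dg.qs v
  obtain ⟨Y, rfl⟩ := Dg.qs r
  obtain ⟨Z, rfl⟩ := Dg.qs σ
  have h1 : Dg.q (Y * Z * Y⁻¹ * Z⁻¹) = 1 := by
    rw [map_mul, map_mul, map_mul, map_inv, map_inv, h, mul_inv_cancel_right, mul_inv_cancel]
  have h2 : Dg.q (X * Z * X⁻¹ * Z⁻¹) = 1 := by
    rw [map_mul, map_mul, map_mul, map_inv, map_inv, Dg.vcen _ hv (Dg.q Z), mul_inv_cancel_right,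
      mul_inv_cancel]
  have h3 : X * Y * Z * (X * Y)⁻¹ * Z⁻¹ = Y * Z * Y⁻¹ * Z⁻¹ * (X * Z * X⁻¹ * Z⁻¹) := by
    calc X * Y * Z * (X * Y)⁻¹ * Z⁻¹ = X * ((Y * Z * Y⁻¹ * Z⁻¹) * (Z * X⁻¹ * Z⁻¹)) := by group
      _ = X * ((Z * X⁻¹ * Z⁻¹) * (Y * Z * Y⁻¹ * Z⁻¹)) := by rw [Dg.wcen _ h1 (Z * X⁻¹ * Z⁻¹)]
      _ = (X * Z * X⁻¹ * Z⁻¹) * (Y * Z * Y⁻¹ * Z⁻¹) := by group
      _ = _ := (Dg.wcen _ h1 _).symm
  rw [← map_mul, cm_eq, cm_eq, h3, Dg.wadd k _ _ h1 h2, Dg.hβ X Z k hv]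
  rfl

theorem cm_b (Dg : GP p m l w N P R) (v r σ : R) (hv : Dg.π v = 1) (h : r * σ = σ * r) (k : Fin w) :
    Dg.cm r (σ * v) k = Dg.cm r σ k - Dg.β (fun j => Dg.cv j v) (pu Dg r) k := by
  obtain ⟨X, rfl⟩ := Dg.qs v
  obtain ⟨Y, rfl⟩ := Dg.qs r
  obtain ⟨Z, rfl⟩ := Dg.qs σ
  have h1 : Dg.q (Y * Z * Y⁻¹ * Z⁻¹) = 1 := by
    rw [map_mul, map_mul, map_mul, map_inv, map_inv, h, mul_inv_cancel_right, mul_inv_cancel]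
  have h2 : Dg.q (X * Y * X⁻¹ * Y⁻¹) = 1 := by
    rw [map_mul, map_mul, map_mul, map_inv, map_inv, Dg.vcen _ hv (Dg.q Y), mul_inv_cancel_right,
      mul_inv_cancel]
  have h2' : Dg.q (X * Y * X⁻¹ * Y⁻¹)⁻¹ = 1 := by rw [map_inv, h2, inv_one]
  have h3 : Y * (Z * X) * Y⁻¹ * (Z * X)⁻¹ =
      Y * Z * Y⁻¹ * Z⁻¹ * (X * Y * X⁻¹ * Y⁻¹)⁻¹ := by
    calc Y * (Z * X) * Y⁻¹ * (Z * X)⁻¹
        = Y * Z * Y⁻¹ * Z⁻¹ * (Z * ((X * Y * X⁻¹ * Y⁻¹)⁻¹ * Z⁻¹)) := by group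
      _ = Y * Z * Y⁻¹ * Z⁻¹ * (Z * (Z⁻¹ * (X * Y * X⁻¹ * Y⁻¹)⁻¹)) := by
          rw [Dg.wcen _ h2' Z⁻¹]
      _ = _ := by rw [mul_inv_cancel_left]
  rw [← map_mul, cm_eq, cm_eq, h3, Dg.wadd k _ _ h1 h2', cw_inv Dg k _ h2, Dg.hβ X Y k hv,
    sub_eq_add_neg]
  rfl

/-- a triple commutator -/
private theorem al1_tri (Dg : GP p m l w N P R) (a b c : P) :
    Dg.q ((a⁻¹ * b * a⁻¹⁻¹ * b⁻¹)⁻¹ * c⁻¹ * (a⁻¹ * b * a⁻¹⁻¹ * b⁻¹)⁻¹⁻¹ * c⁻¹⁻¹) = 1 ∧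
    ∀ k, Dg.cw k ((a⁻¹ * b * a⁻¹⁻¹ * b⁻¹)⁻¹ * c⁻¹ * (a⁻¹ * b * a⁻¹⁻¹ * b⁻¹)⁻¹⁻¹ * c⁻¹⁻¹) =
      - Dg.β (Dg.kV (pu Dg (Dg.q a)) (pu Dg (Dg.q b))) (pu Dg (Dg.q c)) k := by
  have h1 : Dg.q (a⁻¹ * b * a⁻¹⁻¹ * b⁻¹) = (Dg.q a)⁻¹ * Dg.q b * (Dg.q a)⁻¹⁻¹ * (Dg.q b)⁻¹ := by
    simp only [map_mul, map_inv]
  have h2 : Dg.π (Dg.q (a⁻¹ * b * a⁻¹⁻¹ * b⁻¹)) = 1 := by
    rw [h1]
    exact al1_comm Dg _ _
  have h3 : Dg.π (Dg.q (a⁻¹ * b * a⁻¹⁻¹ * b⁻¹)⁻¹) = 1 := by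
    rw [map_inv, map_inv, h2, inv_one]
  constructor
  · rw [map_mul, map_mul, map_mul, map_inv Dg.q (a⁻¹ * b * a⁻¹⁻¹ * b⁻¹)⁻¹,
      map_inv Dg.q c⁻¹, Dg.vcen _ h3 (Dg.q c⁻¹), mul_inv_cancel_right, mul_inv_cancel]
  · intro k
    rw [Dg.hβ _ _ k h3]
    have h4 : (fun j => Dg.cv j (Dg.q (a⁻¹ * b * a⁻¹⁻¹ * b⁻¹)⁻¹)) =
        Dg.kV (pu Dg (Dg.q a)) (pu Dg (Dg.q b)) := by
      funext j
      rw [map_inv, cv_inv Dg j _ h2, h1, Dg.hk, map_inv, toAdd_inv, map_neg, LinearMap.neg_apply,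
        Pi.neg_apply, neg_neg]
      rfl
    rw [h4, map_inv, map_inv, toAdd_inv, map_neg, Pi.neg_apply]
    rfl

theorem jac (Dg : GP p m l w N P R) (x y z : Fin m → ZMod p) :
    Dg.β (Dg.kV x y) z + Dg.β (Dg.kV y z) x + Dg.β (Dg.kV z x) y = 0 := by
  have hs : ∀ u : Fin m → ZMod p, ∃ a : P, pu Dg (Dg.q a) = u := by
    intro u
    obtain ⟨r, hr⟩ := Dg.πs (Multiplicative.ofAdd u)
    obtain ⟨a, rfl⟩ := Dg.qs r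
    exact ⟨a, by unfold pu; rw [hr, toAdd_ofAdd]⟩
  obtain ⟨a, rfl⟩ := hs x
  obtain ⟨b, rfl⟩ := hs y
  obtain ⟨c, rfl⟩ := hs z
  obtain ⟨h1, h1'⟩ := al1_tri Dg a b c
  obtain ⟨h2, h2'⟩ := al1_tri Dg b c a
  obtain ⟨h3, h3'⟩ := al1_tri Dg c a b
  obtain ⟨A, hA⟩ : ∃ A, A = (a⁻¹ * b * a⁻¹⁻¹ * b⁻¹)⁻¹ * c⁻¹ * (a⁻¹ * b * a⁻¹⁻¹ * b⁻¹)⁻¹⁻¹ *
    c⁻¹⁻¹ := ⟨_, rfl⟩
  obtain ⟨B, hB⟩ : ∃ B, B = (b⁻¹ * c * b⁻¹⁻¹ * c⁻¹)⁻¹ * a⁻¹ * (b⁻¹ * c * b⁻¹⁻¹ * c⁻¹)⁻¹⁻¹ *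
    a⁻¹⁻¹ := ⟨_, rfl⟩
  obtain ⟨C, hC⟩ : ∃ C, C = (c⁻¹ * a * c⁻¹⁻¹ * a⁻¹)⁻¹ * b⁻¹ * (c⁻¹ * a * c⁻¹⁻¹ * a⁻¹)⁻¹⁻¹ *
    b⁻¹⁻¹ := ⟨_, rfl⟩
  have hHW : (b⁻¹ * A * b) * (c⁻¹ * B * c) * (a⁻¹ * C * a) = 1 := by
    rw [hA, hB, hC]
    group
  rw [← hA] at h1 h1'
  rw [← hB] at h2 h2'
  rw [← hC] at h3 h3'
  have e1 : b⁻¹ * A * b = A := by rw [mul_assoc, Dg.wcen A h1 b, inv_mul_cancel_left]
  have e2 : c⁻¹ * B * c = B := by rw [mul_assoc, Dg.wcen B h2 c, inv_mul_cancel_left]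
  have e3 : a⁻¹ * C * a = C := by rw [mul_assoc, Dg.wcen C h3 a, inv_mul_cancel_left]
  rw [e1, e2, e3] at hHW
  funext k
  have h4 := congrArg (Dg.cw k) hHW
  rw [Dg.wadd k _ _ (by rw [map_mul, h1, h2, one_mul]) h3, Dg.wadd k _ _ h1 h2, cw_one, h1', h2',
    h3'] at h4
  simp only [Pi.add_apply, Pi.zero_apply]
  linear_combination -h4

theorem pu_conj (Dg : GP p m l w N P R) {r r' : R} (h : IsConj r r') : pu Dg r = pu Dg r' := by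
  obtain ⟨c, rfl⟩ := isConj_iff.1 h
  rw [pu_mul, pu_mul, pu_inv]
  abel

end H51.CUB
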