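import Pool.Agent.H51.CUB.RLin
import Pool.Agent.H63.MA.GTw

/-!
[H51 CUB UNR]  Unramified characters (60-100 lines). PROOF.

`unr_kum`: `Y` is additive (`kk 1 = 0`) of finite level, so it is a homomorphism `Γ → Multiplicative (ZMod p)` of finite type, and by Kummer theory it is
`kk a` for some `a : Kˣ` (library: grep for the surjectivity of the Kummer map, e.g. `exists_kc`, `kum_surj`, `H63/MA/GKum*`, `H38/ML/KumSurj`,
`H63/BU/UKum`; if there is no direct statement: Hilbert 90 as in `tv_of_pre`, `H63/MA/GTriv`: the function `g ↦ ζ ^ (Y g).val` is a cocycle, so there is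
`B ∈ Ω`, `B ≠ 0`, with `g B = ζ ^ (Y g) B`, and `a = B ^ p ∈ K`). For `v ∉ S0`: `(ord v a : ZMod p) = kk a (L.t v) = Y (L.t v) = 0` (`ld_kk_t`, see `kk_inr`).
`unr_q`: `D.rec1 a` gives `κ` with, for good `v`, `LL v a = ∑ κ_i q v i + ∑ᶠ w, (if w ∈ S0 then 0 else lam w * (ord w a : ZMod p) * LL w (pi v))`, and the last sum is `0`;
`Y (F v) = kk a (F v) = LL v a` by `Fr.kf`.
-/

set_option autoImplicit false

open scoped NumberField
open IsDedekindDomain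
open scoped Classical

noncomputable section

namespace H51.CUB

open H63.MA H38.BB H38.BG H57.PC

variable {K : Type} [Field K] [NumberField K] {p : ℕ} {ζ : K} {Ω : Type} [Field Ω] [Algebra K Ω]
  [IsAlgClosure K Ω]

/-- additive functions of finite level are Kummer characters -/
theorem kum_all (hp : p.Prime) (hζ : IsPrimitiveRoot ζ p) {Y : Gal(Ω/K) → ZMod p} (hl : Lev Y)
    (ha : ∀ g h, Y (g * h) = Y g + Y h) : ∃ a : Kˣ, ∀ g, Y g = kk p ζ a g := by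
  have h1 : Y 1 = 0 := by
    have h := ha 1 1
    rw [mul_one] at h
    exact left_eq_add.1 h
  obtain ⟨χ, hχ⟩ : ∃ χ : Gal(Ω/K) →* Multiplicative (ZMod p),
      ∀ g, χ g = Multiplicative.ofAdd (Y g) :=
    ⟨{ toFun := fun g => Multiplicative.ofAdd (Y g)
       map_one' := by rw [h1]; rfl
       map_mul' := fun g h => by rw [ha]; rfl }, fun g => rfl⟩
  obtain ⟨E, hE, hl'⟩ := hl
  have hft : H38.ML.FT χ := by
    refine ⟨E, hE, fun u hu => ?_⟩
    rw [MonoidHom.mem_ker, hχ]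
    have h2 := hl' 1 u hu
    rw [one_mul, h1] at h2
    rw [h2]
    rfl
  obtain ⟨a, ha'⟩ := kc_all hp hζ χ hft
  refine ⟨a, fun g => ?_⟩
  unfold kk
  rw [← ha', hχ]
  rfl

theorem unr_kum (hp : p.Prime) (hζ : IsPrimitiveRoot ζ p) {D : RD0 K p ζ} (L : LDs D Ω)
    {Y : Gal(Ω/K) → ZMod p} (hY : Rho L 1 1 Y) :
    ∃ a : Kˣ, (∀ v, v ∉ D.S0 → ((ord v a : ℤ) : ZMod p) = 0) ∧ ∀ g, Y g = kk p ζ a g := by
  obtain ⟨a, ha⟩ := kum_all hp hζ hY.lev (fun g h => by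
    rw [hY.add, gkum_one_arg hp hζ, zero_mul, add_zero])
  refine ⟨a, fun v hv => ?_, ha⟩
  have h1 := hY.tz v hv
  rw [ha, gtw_t L v hv] at h1
  rw [← ld_kk_t hp hζ (fun h => hv (D.above v h)) (D.pi_self v hv) (L.ld v hv) a]
  exact h1

theorem unr_q (hp : p.Prime) (hζ : IsPrimitiveRoot ζ p) (D : RD K p ζ) (L : LDs D.toRD0 Ω)
    (Fr : FR L) {Y : Gal(Ω/K) → ZMod p} (hY : Rho L 1 1 Y) :
    ∃ κ : Fin D.r → ZMod p, ∀ v, D.Gd v → Y (Fr.F v) = ∑ i, κ i * D.q v i := by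
  obtain ⟨a, ha0, ha⟩ := unr_kum hp hζ L hY
  obtain ⟨κ, hκ⟩ := D.rec1 a
  refine ⟨κ, fun v hv => ?_⟩
  rw [ha, Fr.kf v hv.1 a, hκ v hv]
  have h1 : ∀ w : Pl K, (if w ∈ D.S0 then 0 else
      D.lam w * (ord w a : ZMod p) * D.toRD0.LL w (D.pi v)) = 0 := by
    intro w
    split_ifs with hw
    · rfl
    · rw [ha0 w hw, mul_zero, zero_mul]
  rw [finsum_congr h1, finsum_zero, add_zero]

/-- two solutions of the same equation have the same differences inside a class -/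
theorem rho_diff (hp : p.Prime) (hζ : IsPrimitiveRoot ζ p) (D : RD K p ζ) (L : LDs D.toRD0 Ω)
    (Fr : FR L) {d c : Kˣ} {Y Y' : Gal(Ω/K) → ZMod p} (h : Rho L d c Y) (h' : Rho L d c Y')
    {v v' : Pl K} (hv : D.Gd v) (hv' : D.Gd v') (hq : D.q v = D.q v') :
    Y (Fr.F v) - Y (Fr.F v') = Y' (Fr.F v) - Y' (Fr.F v') := by
  obtain ⟨κ, hκ⟩ := unr_q hp hζ D L Fr (rho_sub hp hζ h h')
  have h1 : Y (Fr.F v) - Y' (Fr.F v) = ∑ i, κ i * D.q v i := hκ v hv
  have h2 : Y (Fr.F v') - Y' (Fr.F v') = ∑ i, κ i * D.q v' i := hκ v' hv'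
  rw [hq, ← h2] at h1
  linear_combination h1

end H51.CUB
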