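import Pool.Agent.H51.CUB.AL1
import Pool.Agent.H51.CUB.UNR
import Pool.Agent.H63.MA.GUpA

/-!
[H51 CUB AL2]  The group `H1` and the torsor `XS` (150-200 lines). PROOF.

`tw Dg χ ρ hχ` (`H77/PC3/CTw`) is `σ ↦ χ σ * ρ σ`.
* `h1_rho`: for `h ∈ H1` every coordinate `g ↦ cv k (h g)` is additive (`vadd`), of finite level and `0` at `L.t v ∈ inr L v` (`uinr_t`, `H63/BU/UInr`): `rho_of_add`.
* `h1_q`: `unr_q` for all coordinates and `v_ext`.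
* `h1_of_unit`: `kch ζ Ω Dg (fun k => u ^ (y k).val)` (`H77/PC3/CTw`): finite type (`kch_ft`), `cv k = kk (u ^ (y k).val) = y k * kk u`; for `τ ∈ inr L v`, `v ∉ S0`: `kk u τ = ord v u * _ = 0` (`kk_inr`).
* `h1_finite`: a homomorphism in `H1` is determined by its coordinates, which are `kk a` with `(ord v a : ZMod p) = 0` outside `S0` (`unr_kum`), so `a` is an `S0`-unit times a `p`-th power (`D`: `ClOne`? no: use instead `unr_q` and `D.non`: `kk a` is determined by the vector `κ` of `unr_q`: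
if `κ = 0` then `LL v a = 0` for all good `v`, so `a` is a `p`-th power by `D.non` and `kk a = 0`; there are finitely many `κ`).
* `xs_tw`, `xs_diff`: as `rh_tw`, `rh_diff`, `rh_same` in `CTw` (`inr`: both equal `σ v ^ (kk (pi v) τ).val` by `tm_z` at `v ∈ n`).
* `xs_com`: `Fr.com v _ R ρ` with `ρ τ ^ p = 1` on `inr L v` (`v ∈ n`).
* `cq_tw`: `cm_v` with `v := h (F v)`; `sg σ v = pu (σ v)`, `ρ (L.t v) = σ v`, `h (L.t v) = 1`.
* `ee_tw`: sum over `n`. `xs_finite`: `XS` is empty or the image of the finite set `H1` under `h ↦ tw h ρ₀`.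
* `ff_val`: all elements of `XS` have the same `EE` if `HI` holds (`xs_diff`, `ee_tw`).
* `ff_sum`: if `XS = ∅` both sides are `0`. Otherwise fix `ρ₀`; the sum is `ep (EE ρ₀) * ∑_{h ∈ H1} ep (λ h)`, `λ h = ∑ v ∈ n, ψ v · β (cv (h (F v))) (s v)` is additive on `H1` (closed under products and inverses, `tw h ρ₀` injective in `h`): `#H1` if `λ = 0`, and `0` otherwise (choose `h₁` with
`λ h₁ ≠ 0` and translate by it: `S = ep (λ h₁) S`).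
-/

set_option autoImplicit false

open scoped NumberField
open IsDedekindDomain
open scoped Classical

noncomputable section

namespace H51.CUB

open H63.MA H38.BB H38.BG H57.PC H77.PC3

variable {K : Type} [Field K] [NumberField K] {p : ℕ} {ζ : K} {Ω : Type} [Field Ω] [Algebra K Ω]
  [IsAlgClosure K Ω] {m l w N : ℕ} {P R : Type} [Group P] [Group R]

private theorem al2_dt (θ x y : Fin w → ZMod p) : dt θ (x + y) = dt θ x + dt θ y := by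
  simp only [dt, Pi.add_apply, mul_add, Finset.sum_add_distrib]

/-- the change of the phase under a twist -/
private def al2_lam {D : RD0 K p ζ} {L : LDs D Ω} (Dg : GP p m l w N P R) (Fr : FR L)
    (n : Finset (Pl K)) (σ : Pl K → R) (ψ : Pl K → Fin w → ZMod p) (h : Gal(Ω/K) →* R) : ZMod p :=
  ∑ v ∈ n, dt (ψ v) (Dg.β (fun j => Dg.cv j (h (Fr.F v))) (sg Dg σ v))

private theorem al2_lam_tw {D : RD0 K p ζ} {L : LDs D Ω} (Dg : GP p m l w N P R) (Fr : FR L)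
    (n : Finset (Pl K)) (σ : Pl K → R) (ψ : Pl K → Fin w → ZMod p) (h h' : Gal(Ω/K) →* R)
    (hh : ∀ g, Dg.π (h g) = 1) (hh' : ∀ g, Dg.π (h' g) = 1) :
    al2_lam Dg Fr n σ ψ (tw Dg h h' hh) = al2_lam Dg Fr n σ ψ h + al2_lam Dg Fr n σ ψ h' := by
  unfold al2_lam
  rw [← Finset.sum_add_distrib]
  refine Finset.sum_congr rfl fun v _ => ?_
  have h1 : (fun j => Dg.cv j (tw Dg h h' hh (Fr.F v))) =
      (fun j => Dg.cv j (h (Fr.F v))) + fun j => Dg.cv j (h' (Fr.F v)) := by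
    funext j
    rw [tw_apply, Dg.vadd j _ _ (hh _) (hh' _), Pi.add_apply]
  rw [h1, map_add, LinearMap.add_apply, al2_dt]

theorem h1_rho (hp : p.Prime) (hζ : IsPrimitiveRoot ζ p) {D : RD0 K p ζ} {L : LDs D Ω}
    (Dg : GP p m l w N P R) {h : Gal(Ω/K) →* R} (hh : h ∈ H1 L Dg) (k : Fin l) :
    Rho L 1 1 fun g => Dg.cv k (h g) := by
  obtain ⟨h0, h1, h2⟩ := hh
  refine rho_of_add hp hζ ?_ ?_ ?_
  · obtain ⟨E, hE, hl⟩ := ft_lev h h0
    refine ⟨E, hE, fun σ u hu => ?_⟩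
    change Dg.cv k (h (σ * u)) = Dg.cv k (h σ)
    rw [hl σ u hu]
  · intro g g'
    change Dg.cv k (h (g * g')) = _
    rw [map_mul, Dg.vadd k _ _ (h1 g) (h1 g')]
  · intro v hv
    change Dg.cv k (h (L.t v)) = 0
    rw [h2 v hv _ (H63.BU.uinr_t L v), cv_one]

theorem h1_q (hp : p.Prime) (hζ : IsPrimitiveRoot ζ p) (D : RD K p ζ) {L : LDs D.toRD0 Ω}
    (Fr : FR L) (Dg : GP p m l w N P R) {h : Gal(Ω/K) →* R} (hh : h ∈ H1 L Dg) {v v' : Pl K}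
    (hv : D.Gd v) (hv' : D.Gd v') (hq : D.q v = D.q v') : h (Fr.F v) = h (Fr.F v') := by
  refine v_ext Dg _ _ (hh.2.1 _) (hh.2.1 _) fun k => ?_
  obtain ⟨κ, hκ⟩ := unr_q hp hζ D L Fr (h1_rho hp hζ Dg hh k)
  have e1 : Dg.cv k (h (Fr.F v)) = ∑ i, κ i * D.q v i := hκ v hv
  have e2 : Dg.cv k (h (Fr.F v')) = ∑ i, κ i * D.q v' i := hκ v' hv'
  rw [e1, e2, hq]

theorem h1_of_unit (hp : p.Prime) (hζ : IsPrimitiveRoot ζ p) {D : RD0 K p ζ} (L : LDs D Ω)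
    (Dg : GP p m l w N P R) (u : Kˣ) (hu : TUnit D.S0 u) (y : Fin l → ZMod p) :
    ∃ h ∈ H1 L Dg, ∀ g k, Dg.cv k (h g) = y k * kk p ζ u g := by
  have hp0 : NeZero p := ⟨hp.ne_zero⟩
  refine ⟨kch ζ Ω Dg fun k => u ^ (y k).val, ⟨kch_ft hp hζ Dg _, kch_pi Dg _, ?_⟩, fun g k => ?_⟩
  · intro v hv τ hτ
    rw [kch_apply, show (fun k => kk p ζ (u ^ (y k).val) τ) = 0 from ?_, vof_zero]
    funext k
    rw [kk_inr hp hζ L v hv _ τ hτ, ord_pow, hu v hv, mul_zero, Int.cast_zero, zero_mul,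
      Pi.zero_apply]
  · rw [kch_cv]
    have h1 := kk_zpow_arg hp hζ u ((y k).val : ℤ) g
    rw [zpow_natCast, Int.cast_natCast, ZMod.natCast_zmod_val] at h1
    exact h1

/-- homomorphisms to `V` given by their coordinates -/
theorem h1_of_coord (hp : p.Prime) (hζ : IsPrimitiveRoot ζ p) {D : RD0 K p ζ} (L : LDs D Ω)
    [Finite R] (Dg : GP p m l w N P R) (y : Gal(Ω/K) → Fin l → ZMod p)
    (hy : ∀ k, Rho L 1 1 fun g => y g k) : ∃ h ∈ H1 L Dg, ∀ g, h g = vof Dg (y g) := by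
  have h1 : ∀ k, ∃ a : Kˣ, (∀ v, v ∉ D.S0 → ((ord v a : ℤ) : ZMod p) = 0) ∧
      ∀ g, y g k = kk p ζ a g := fun k => unr_kum hp hζ L (hy k)
  choose a ha0 ha using h1
  refine ⟨kch ζ Ω Dg a, ⟨kch_ft hp hζ Dg _, kch_pi Dg _, fun v hv τ hτ => ?_⟩, fun g => ?_⟩
  · exact kch_inr hp hζ L Dg a v hv (fun k => ha0 k v hv) τ hτ
  · rw [kch_apply]
    congr 1
    funext k
    exact (ha k g).symm

theorem h1_finite [NeZero p] (hp : p.Prime) (hζ : IsPrimitiveRoot ζ p) (D : RD K p ζ)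
    (L : LDs D.toRD0 Ω) (Fr : FR L) (Dg : GP p m l w N P R) : (H1 L Dg).Finite := by
  have key : ∀ h : Gal(Ω/K) →* R, ∃ κ : Fin l → Fin D.r → ZMod p, h ∈ H1 L Dg →
      ∀ k v, D.Gd v → Dg.cv k (h (Fr.F v)) = ∑ i, κ k i * D.q v i := by
    intro h
    by_cases hh : h ∈ H1 L Dg
    · have h1 : ∀ k, ∃ κ : Fin D.r → ZMod p, ∀ v, D.Gd v →
          Dg.cv k (h (Fr.F v)) = ∑ i, κ i * D.q v i := fun k =>
        unr_q hp hζ D L Fr (h1_rho hp hζ Dg hh k)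
      choose κ hκ using h1
      exact ⟨κ, fun _ => hκ⟩
    · exact ⟨0, fun h => absurd h hh⟩
  choose f hf using key
  have hfin : (Set.univ : Set (Fin l → Fin D.r → ZMod p)).Finite := Set.toFinite _
  refine Set.Finite.of_injOn (f := f) (fun _ _ => Set.mem_univ _) ?_ hfin
  intro h hh h' hh' hff
  apply MonoidHom.ext
  intro g
  refine v_ext Dg _ _ (hh.2.1 g) (hh'.2.1 g) fun k => ?_
  have hs := rho_sub hp hζ (h1_rho hp hζ Dg hh k) (h1_rho hp hζ Dg hh' k)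
  obtain ⟨a, ha0, ha⟩ := unr_kum hp hζ L hs
  have hpow : IsPow p a := by
    by_contra hnp
    obtain ⟨v, hv, -, -, hne⟩ := D.non a hnp ∅
    apply hne
    rw [← Fr.kf v hv.1 a, ← ha (Fr.F v)]
    change Dg.cv k (h (Fr.F v)) - Dg.cv k (h' (Fr.F v)) = 0
    rw [hf h hh k v hv, hf h' hh' k v hv, hff, sub_self]
  have h3 := ha g
  rw [(kk_eq_zero_iff (Ω := Ω) hp hζ a).2 hpow g] at h3
  exact sub_eq_zero.1 h3

theorem xs_tw {D : RD0 K p ζ} (L : LDs D Ω) (Dg : GP p m l w N P R) (b : Fin m → Kˣ)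
    (E : Finset (Pl K)) (ε : Pl K → Gal(Ω/K) → R) (n : Finset (Pl K)) (σ : Pl K → R)
    (hE : ∀ v ∈ E, v ∉ D.S0) (hn : ∀ v ∈ n, v ∉ D.S0)
    {ρ : Gal(Ω/K) →* R} (hρ : ρ ∈ XS L Dg b E ε n σ) {h : Gal(Ω/K) →* R} (hh : h ∈ H1 L Dg) :
    tw Dg h ρ hh.2.1 ∈ XS L Dg b E ε n σ := by
  obtain ⟨r0, r1, r2, r3, r4⟩ := hρ
  refine ⟨tw_ft Dg h ρ hh.2.1 hh.1 r0, fun g k => ?_, fun v hv => ⟨?_, fun τ hτ => ?_⟩,
    fun v hv τ hτ => ?_, fun v hv hvE hvn τ hτ => ?_⟩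
  · rw [tw_apply, map_mul, hh.2.1, one_mul]
    exact r1 g k
  · rw [tw_apply, hh.2.2 v (hn v hv) _ (H63.BU.uinr_t L v), one_mul]
    exact (r2 v hv).1
  · rw [tw_apply, hh.2.2 v (hn v hv) _ hτ, one_mul]
    exact (r2 v hv).2 τ hτ
  · rw [tw_apply, hh.2.2 v (hE v hv) _ hτ, one_mul]
    exact r3 v hv τ hτ
  · rw [tw_apply, hh.2.2 v hv _ hτ, one_mul]
    exact r4 v hv hvE hvn τ hτ

theorem xs_diff [Finite R] (hp : p.Prime) (hζ : IsPrimitiveRoot ζ p) {D : RD0 K p ζ} (L : LDs D Ω)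
    (Dg : GP p m l w N P R) (b : Fin m → Kˣ) (E : Finset (Pl K)) (ε : Pl K → Gal(Ω/K) → R)
    (n : Finset (Pl K)) (σ : Pl K → R) (hn : ∀ v ∈ n, v ∉ D.S0)
    {ρ ρ' : Gal(Ω/K) →* R} (hρ : ρ ∈ XS L Dg b E ε n σ)
    (hρ' : ρ' ∈ XS L Dg b E ε n σ) : ∃ (h : Gal(Ω/K) →* R) (hh : h ∈ H1 L Dg), ρ' = tw Dg h ρ hh.2.1 := by
  obtain ⟨r0, r1, r2, r3, r4⟩ := hρ
  obtain ⟨s0, s1, s2, s3, s4⟩ := hρ'
  have hπ : ∀ g, Dg.π (ρ' g * (ρ g)⁻¹) = 1 := by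
    intro g
    have h : Dg.π (ρ' g) = Dg.π (ρ g) := by
      apply Multiplicative.toAdd.injective
      funext k
      rw [← r1 g k, ← s1 g k]
    rw [map_mul, map_inv, h, mul_inv_cancel]
  let χ : Gal(Ω/K) →* R :=
    { toFun := fun g => ρ' g * (ρ g)⁻¹
      map_one' := by rw [map_one, map_one, inv_one, mul_one]
      map_mul' := by
        intro g g'
        rw [map_mul, map_mul, mul_inv_rev]
        have h1 : ρ' g * ρ' g' * ((ρ g')⁻¹ * (ρ g)⁻¹) = ρ' g * ((ρ' g' * (ρ g')⁻¹) * (ρ g)⁻¹) := by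
          group
        rw [h1, Dg.vcen _ (hπ g'), ← mul_assoc] }
  have hχ : ∀ g, χ g = ρ' g * (ρ g)⁻¹ := fun _ => rfl
  have hFT : H38.ML.FT χ := by
    obtain ⟨E, hE, hle⟩ := r0
    obtain ⟨E', hE', hle'⟩ := s0
    refine ⟨E ⊔ E', inferInstance, fun g hg => ?_⟩
    have h1 : g ∈ E.fixingSubgroup := IntermediateField.fixingSubgroup_antitone le_sup_left hg
    have h2 : g ∈ E'.fixingSubgroup := IntermediateField.fixingSubgroup_antitone le_sup_right hg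
    have h3 := hle h1
    have h4 := hle' h2
    rw [MonoidHom.mem_ker] at h3 h4 ⊢
    rw [hχ, h3, h4, inv_one, mul_one]
  have hun : ∀ v, v ∉ D.S0 → ∀ τ ∈ inr L v, χ τ = 1 := by
    intro v hv τ hτ
    rw [hχ]
    by_cases hvE : v ∈ E
    · rw [r3 v hvE τ hτ, s3 v hvE τ hτ, mul_inv_cancel]
    by_cases hvn : v ∈ n
    · rw [tm_z hp hζ L ρ r0 v hv (r2 v hvn).2 τ hτ, tm_z hp hζ L ρ' s0 v hv (s2 v hvn).2 τ hτ,
        (r2 v hvn).1, (s2 v hvn).1, mul_inv_cancel]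
    · rw [r4 v hv hvE hvn τ hτ, s4 v hv hvE hvn τ hτ, inv_one, mul_one]
  refine ⟨χ, ⟨hFT, hπ, hun⟩, MonoidHom.ext fun g => ?_⟩
  rw [tw_apply, hχ, inv_mul_cancel_right]

theorem xs_com [Finite R] {D : RD0 K p ζ} {L : LDs D Ω} (Fr : FR L) (Dg : GP p m l w N P R)
    (b : Fin m → Kˣ) (E : Finset (Pl K)) (ε : Pl K → Gal(Ω/K) → R) (n : Finset (Pl K))
    (σ : Pl K → R) {ρ : Gal(Ω/K) →* R} (hρ : ρ ∈ XS L Dg b E ε n σ) (v : Pl K) (hv : v ∈ n)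
    (hv0 : v ∉ D.S0) : ρ (Fr.F v) * σ v = σ v * ρ (Fr.F v) := by
  obtain ⟨r0, r1, r2, r3, r4⟩ := hρ
  have h1 := Fr.com v hv0 R ρ r0 (r2 v hv).2
  rwa [(r2 v hv).1] at h1

theorem ee_tw [Finite R] {D : RD0 K p ζ} {L : LDs D Ω} (Fr : FR L) (Dg : GP p m l w N P R)
    (b : Fin m → Kˣ) (E : Finset (Pl K)) (ε : Pl K → Gal(Ω/K) → R) (n : Finset (Pl K))
    (σ : Pl K → R) (ψ : Pl K → Fin w → ZMod p) (hn : ∀ v ∈ n, v ∉ D.S0) {ρ : Gal(Ω/K) →* R}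
    (hρ : ρ ∈ XS L Dg b E ε n σ) {h : Gal(Ω/K) →* R} (hh : h ∈ H1 L Dg) :
    EE Dg Fr n ψ (tw Dg h ρ hh.2.1) = EE Dg Fr n ψ ρ +
      ∑ v ∈ n, dt (ψ v) (Dg.β (fun j => Dg.cv j (h (Fr.F v))) (sg Dg σ v)) := by
  unfold EE
  rw [← Finset.sum_add_distrib]
  refine Finset.sum_congr rfl fun v hv => ?_
  rw [← al2_dt]
  congr 1
  funext k
  rw [Pi.add_apply]
  unfold cq
  have h1 : h (L.t v) = 1 := hh.2.2 v (hn v hv) _ (H63.BU.uinr_t L v)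
  have h2 : ρ (L.t v) = σ v := (hρ.2.2.1 v hv).1
  rw [tw_apply, tw_apply, h1, h2, one_mul]
  exact cm_v Dg (h (Fr.F v)) (ρ (Fr.F v)) (σ v) (hh.2.1 _)
    (xs_com Fr Dg b E ε n σ hρ v hv (hn v hv)) k

theorem xs_finite [NeZero p] [Finite R] (hp : p.Prime) (hζ : IsPrimitiveRoot ζ p) (D : RD K p ζ)
    (L : LDs D.toRD0 Ω) (Fr : FR L) (Dg : GP p m l w N P R) (b : Fin m → Kˣ) (E : Finset (Pl K))
    (ε : Pl K → Gal(Ω/K) → R) (n : Finset (Pl K)) (σ : Pl K → R) (hn : ∀ v ∈ n, v ∉ D.S0) :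
    (XS L Dg b E ε n σ).Finite := by
  by_cases hex : ∃ ρ₀, ρ₀ ∈ XS L Dg b E ε n σ
  · obtain ⟨ρ₀, hρ₀⟩ := hex
    have key : ∀ ρ' : Gal(Ω/K) →* R, ∃ h : Gal(Ω/K) →* R, ρ' ∈ XS L Dg b E ε n σ →
        (h ∈ H1 L Dg ∧ ∀ g, ρ' g = h g * ρ₀ g) := by
      intro ρ'
      by_cases hρ' : ρ' ∈ XS L Dg b E ε n σ
      · obtain ⟨h, hh, he⟩ := xs_diff hp hζ L Dg b E ε n σ hn hρ₀ hρ'
        exact ⟨h, fun _ => ⟨hh, fun g => by rw [he, tw_apply]⟩⟩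
      · exact ⟨1, fun h => absurd h hρ'⟩
    choose f hf using key
    refine Set.Finite.of_injOn (f := f) (t := H1 L Dg) (fun ρ' h => (hf ρ' h).1) ?_
      (h1_finite hp hζ D L Fr Dg)
    intro ρ' h ρ'' h' hff
    apply MonoidHom.ext
    intro g
    rw [(hf ρ' h).2 g, (hf ρ'' h').2 g, hff]
  · have h1 : XS L Dg b E ε n σ = ∅ := by
      rw [Set.eq_empty_iff_forall_notMem]
      exact fun ρ hρ => hex ⟨ρ, hρ⟩
    rw [h1]
    exact Set.finite_empty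

theorem ff_val [Finite R] (hp : p.Prime) (hζ : IsPrimitiveRoot ζ p) {D : RD0 K p ζ} {L : LDs D Ω}
    (Fr : FR L) (Dg : GP p m l w N P R) (b : Fin m → Kˣ) (E : Finset (Pl K))
    (ε : Pl K → Gal(Ω/K) → R) (n : Finset (Pl K)) (σ : Pl K → R) (ψ : Pl K → Fin w → ZMod p)
    (hn : ∀ v ∈ n, v ∉ D.S0) (hH : HI Dg Fr n σ ψ) {ρ : Gal(Ω/K) →* R}
    (hρ : ρ ∈ XS L Dg b E ε n σ) : FF Dg Fr b E ε n σ ψ = ep p (EE Dg Fr n ψ ρ) := by
  have hc : HI Dg Fr n σ ψ ∧ ∃ ρ, ρ ∈ XS L Dg b E ε n σ := ⟨hH, ρ, hρ⟩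
  unfold FF
  rw [dif_pos hc]
  have hch := hc.2.choose_spec
  obtain ⟨h, hh, he⟩ := xs_diff hp hζ L Dg b E ε n σ hn hch hρ
  congr 1
  rw [he, ee_tw Fr Dg b E ε n σ ψ hn hch hh, hH h hh, add_zero]

theorem ff_ne {D : RD0 K p ζ} {L : LDs D Ω} (Fr : FR L) (Dg : GP p m l w N P R) (b : Fin m → Kˣ)
    (E : Finset (Pl K)) (ε : Pl K → Gal(Ω/K) → R) (n : Finset (Pl K)) (σ : Pl K → R)
    (ψ : Pl K → Fin w → ZMod p) (h : FF Dg Fr b E ε n σ ψ ≠ 0) :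
    HI Dg Fr n σ ψ ∧ ∃ ρ, ρ ∈ XS L Dg b E ε n σ := by
  by_contra hc
  exact h (dif_neg hc)

theorem ff_norm {D : RD0 K p ζ} {L : LDs D Ω} (Fr : FR L) (Dg : GP p m l w N P R) (b : Fin m → Kˣ)
    (E : Finset (Pl K)) (ε : Pl K → Gal(Ω/K) → R) (n : Finset (Pl K)) (σ : Pl K → R)
    (ψ : Pl K → Fin w → ZMod p) : FF Dg Fr b E ε n σ ψ = 0 ∨ ‖FF Dg Fr b E ε n σ ψ‖ = 1 := by
  unfold FF
  split_ifs
  · exact Or.inr (ep_norm _ _)
  · exact Or.inl rfl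

theorem ff_sum [NeZero p] [Finite R] (hp : p.Prime) (hζ : IsPrimitiveRoot ζ p) (D : RD K p ζ)
    {L : LDs D.toRD0 Ω} (Fr : FR L) (Dg : GP p m l w N P R) (b : Fin m → Kˣ) (E : Finset (Pl K))
    (ε : Pl K → Gal(Ω/K) → R) (n : Finset (Pl K)) (σ : Pl K → R) (ψ : Pl K → Fin w → ZMod p)
    (hE : ∀ v ∈ E, v ∉ D.S0) (hn : ∀ v ∈ n, v ∉ D.S0) :
    ∑ ρ ∈ (xs_finite hp hζ D L Fr Dg b E ε n σ hn).toFinset, ep p (EE Dg Fr n ψ ρ) =
      (Nat.card (H1 L Dg) : ℂ) * FF Dg Fr b E ε n σ ψ := by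
  have hfin := xs_finite hp hζ D L Fr Dg b E ε n σ hn
  have hF1 := h1_finite hp hζ D L Fr Dg
  by_cases hex : ∃ ρ₀, ρ₀ ∈ XS L Dg b E ε n σ
  swap
  · have h1 : (xs_finite hp hζ D L Fr Dg b E ε n σ hn).toFinset = ∅ := by
      rw [Finset.eq_empty_iff_forall_notMem]
      intro ρ hρ
      rw [Set.Finite.mem_toFinset] at hρ
      exact hex ⟨ρ, hρ⟩
    rw [h1, Finset.sum_empty]
    unfold FF
    rw [dif_neg fun h => hex h.2, mul_zero]
  obtain ⟨ρ₀, hρ₀⟩ := hex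
  have hcard : (Nat.card (H1 L Dg) : ℂ) = hF1.toFinset.card := by
    rw [Nat.card_coe_set_eq, Set.ncard_eq_toFinset_card _ hF1]
  -- the sum over the twists
  have hsum : ∑ ρ ∈ (xs_finite hp hζ D L Fr Dg b E ε n σ hn).toFinset, ep p (EE Dg Fr n ψ ρ) =
      ∑ h ∈ hF1.toFinset, ep p (EE Dg Fr n ψ ρ₀) * ep p (al2_lam Dg Fr n σ ψ h) := by
    symm
    refine Finset.sum_bij (fun h hh => tw Dg h ρ₀ (hF1.mem_toFinset.1 hh).2.1) ?_ ?_ ?_ ?_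
    · intro h hh
      rw [Set.Finite.mem_toFinset]
      exact xs_tw L Dg b E ε n σ hE hn hρ₀ (hF1.mem_toFinset.1 hh)
    · intro h hh h' hh' heq
      apply MonoidHom.ext
      intro g
      have h1 := congrArg (fun φ : Gal(Ω/K) →* R => φ g) heq
      simp only [tw_apply] at h1
      exact mul_right_cancel h1
    · intro ρ hρ
      rw [Set.Finite.mem_toFinset] at hρ
      obtain ⟨h, hh, he⟩ := xs_diff hp hζ L Dg b E ε n σ hn hρ₀ hρ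
      exact ⟨h, hF1.mem_toFinset.2 hh, he.symm⟩
    · intro h hh
      rw [ee_tw Fr Dg b E ε n σ ψ hn hρ₀ (hF1.mem_toFinset.1 hh), ep_add hp]
      rfl
  rw [hsum, ← Finset.mul_sum]
  by_cases hH : HI Dg Fr n σ ψ
  · have h1 : ∀ h ∈ hF1.toFinset, ep p (al2_lam Dg Fr n σ ψ h) = 1 := by
      intro h hh
      rw [show al2_lam Dg Fr n σ ψ h = 0 from hH h (hF1.mem_toFinset.1 hh), ep_zero]
    rw [Finset.sum_congr rfl h1, Finset.sum_const, nsmul_eq_mul, mul_one, hcard,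
      ff_val hp hζ Fr Dg b E ε n σ ψ hn hH hρ₀]
    ring
  · have h1 : ∃ h₁ ∈ H1 L Dg, al2_lam Dg Fr n σ ψ h₁ ≠ 0 := by
      by_contra hcon
      apply hH
      intro h hh
      by_contra hne
      exact hcon ⟨h, hh, hne⟩
    obtain ⟨h₁, hh₁, hne⟩ := h1
    obtain ⟨S, hS⟩ : ∃ S, S = ∑ h ∈ hF1.toFinset, ep p (al2_lam Dg Fr n σ ψ h) := ⟨_, rfl⟩
    have hinj : Function.Injective fun h : Gal(Ω/K) →* R => tw Dg h₁ h hh₁.2.1 := by
      intro h h' heq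
      apply MonoidHom.ext
      intro g
      have h2 := congrArg (fun φ : Gal(Ω/K) →* R => φ g) heq
      simp only [tw_apply] at h2
      exact mul_left_cancel h2
    have hmem : ∀ h ∈ hF1.toFinset, tw Dg h₁ h hh₁.2.1 ∈ hF1.toFinset := by
      intro h hh
      rw [Set.Finite.mem_toFinset] at hh ⊢
      refine ⟨tw_ft Dg h₁ h hh₁.2.1 hh₁.1 hh.1, fun g => ?_, fun v hv τ hτ => ?_⟩
      · rw [tw_apply, map_mul, hh₁.2.1, hh.2.1, one_mul]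
      · rw [tw_apply, hh₁.2.2 v hv τ hτ, hh.2.2 v hv τ hτ, one_mul]
    have himg : hF1.toFinset.image (fun h => tw Dg h₁ h hh₁.2.1) = hF1.toFinset := by
      apply Finset.eq_of_subset_of_card_le
      · intro x hx
        obtain ⟨h, hh, rfl⟩ := Finset.mem_image.1 hx
        exact hmem h hh
      · rw [Finset.card_image_of_injective _ hinj]
    have hS2 : S = ep p (al2_lam Dg Fr n σ ψ h₁) * S := by
      have e1 : S = ∑ h ∈ hF1.toFinset.image (fun h => tw Dg h₁ h hh₁.2.1),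
          ep p (al2_lam Dg Fr n σ ψ h) := by
        rw [himg, hS]
      rw [Finset.sum_image fun x _ y _ hxy => hinj hxy] at e1
      refine e1.trans ?_
      rw [hS, Finset.mul_sum]
      refine Finset.sum_congr rfl fun h hh => ?_
      have hh' := hF1.mem_toFinset.1 hh
      rw [al2_lam_tw Dg Fr n σ ψ h₁ h hh₁.2.1 hh'.2.1, ep_add hp]
    have hS0 : S = 0 := by
      have e2 : (1 - ep p (al2_lam Dg Fr n σ ψ h₁)) * S = 0 := by
        rw [sub_mul, one_mul, ← hS2, sub_self]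
      rcases mul_eq_zero.1 e2 with e3 | e3
      · exfalso
        exact hne ((ep_eq_one hp _).1 (sub_eq_zero.1 e3).symm)
      · exact e3
    rw [← hS, hS0, mul_zero]
    unfold FF
    rw [dif_neg fun h => hH h.1, mul_zero]

end H51.CUB
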