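import Pool.Agent.H51.CUB.AL2

/-!
[H51 CUB AL3]  Differences of homomorphisms (150-200 lines). PROOF.

`ρ₀, ρ₁ : Γ →* R`, additive functions `d i : Γ → ZMod p` and `τ i ∈ R`, `τ i ^ p = 1`, `i ∈ Fin 3`, with `pu (ρ₁ g) = pu (ρ₀ g) + ∑ d i g • pu (τ i)`. `Wd3 d τ g = τ 0 ^ (d 0 g).val * τ 1 ^ (d 1 g).val * τ 2 ^ (d 2 g).val`,
`yd g k = cv k (ρ₁ g * (ρ₀ g * Wd3 d τ g)⁻¹)`: so `ρ₁ g = vof (yd g) * ρ₀ g * Wd3 d τ g` (`vof_of`; the element has `π = 1`).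
`yd_add`: `ρ₁ (g h) = ρ₁ g ρ₁ h = vof (yd g) vof (yd h) ρ₀ g W g ρ₀ h W h` (values of `vof` are central, `vcen`). `W g * ρ₀ h = vof (kV (pu (W g)) (pu (ρ₀ h))) ρ₀ h W g` (`com_r`), `pu (W g) = ∑ d i g • pu (τ i)`, and
`W g * W h = vof (∑_{i<j} d j g * d i h • kV (pu (τ j)) (pu (τ i))) * W (g h)`: move the factors with `com_r`; `τ ^ (a.val) * τ ^ (b.val) = τ ^ ((a + b).val)` because `τ ^ p = 1` (`ZMod.val_add`, `pow_eq_pow_mod`, see `gtw_one` in `H63/MA/GTw`). Compare the `V`-parts: `vof` is injective (`vof_cv`).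
`yd_lev`: `ρ₀, ρ₁` are of finite type and `d i` of finite level, so `yd` has finite level (`gtriv_lev`-like: intersect the levels; `ρ (g u) = ρ g` for `u` in the kernel).
`yd_inr`: at an inertia element `τ'` (any `g : Γ`) with `ρ₁ τ' = ρ₀ τ' * Wd3 d τ τ'` the value `yd τ'` is `0`.
-/

set_option autoImplicit false

open scoped NumberField
open IsDedekindDomain
open scoped Classical

noncomputable section

namespace H51.CUB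

open H63.MA H38.BB H38.BG H57.PC H77.PC3

variable {K : Type} [Field K] [NumberField K] {p : ℕ} {ζ : K} {Ω : Type} [Field Ω] [Algebra K Ω]
  [IsAlgClosure K Ω] {m l w N : ℕ} {P R : Type} [Group P] [Group R]

/-- the product of the powers of the labels -/
def Wd3 (d : Fin 3 → Gal(Ω/K) → ZMod p) (τ : Fin 3 → R) (g : Gal(Ω/K)) : R :=
  τ 0 ^ (d 0 g).val * τ 1 ^ (d 1 g).val * τ 2 ^ (d 2 g).val

/-- the difference of two homomorphisms -/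
def yd (Dg : GP p m l w N P R) (ρ₀ ρ₁ : Gal(Ω/K) →* R) (d : Fin 3 → Gal(Ω/K) → ZMod p)
    (τ : Fin 3 → R) (g : Gal(Ω/K)) (k : Fin l) : ZMod p :=
  Dg.cv k (ρ₁ g * (ρ₀ g * Wd3 d τ g)⁻¹)

/-- the hypotheses -/
structure YH (Dg : GP p m l w N P R) (ρ₀ ρ₁ : Gal(Ω/K) →* R) (d : Fin 3 → Gal(Ω/K) → ZMod p)
    (τ : Fin 3 → R) : Prop where
  add : ∀ i g h, d i (g * h) = d i g + d i h
  pow : ∀ i, τ i ^ p = 1
  pr : ∀ g, pu Dg (ρ₁ g) = pu Dg (ρ₀ g) + ∑ i, d i g • pu Dg (τ i)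

private theorem al3_perm {R : Type} [Group R] (a0 a1 a2 b0 b1 b2 v10 v20 v21 : R)
    (h10 : ∀ r, v10 * r = r * v10) (h20 : ∀ r, v20 * r = r * v20) (h21 : ∀ r, v21 * r = r * v21)
    (e10 : a1 * b0 = v10 * b0 * a1) (e20 : a2 * b0 = v20 * b0 * a2)
    (e21 : a2 * b1 = v21 * b1 * a2) :
    a0 * a1 * a2 * (b0 * b1 * b2) =
      v10 * v20 * v21 * (a0 * b0 * (a1 * b1) * (a2 * b2)) := by
  calc a0 * a1 * a2 * (b0 * b1 * b2) = a0 * a1 * (a2 * b0) * b1 * b2 := by group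
    _ = (a0 * a1) * v20 * b0 * (a2 * b1) * b2 := by rw [e20]; group
    _ = v20 * (a0 * a1) * b0 * (v21 * b1 * a2) * b2 := by rw [← h20 (a0 * a1), e21]
    _ = (v20 * a0 * (a1 * b0)) * v21 * b1 * a2 * b2 := by group
    _ = v21 * (v20 * a0 * (v10 * b0 * a1)) * b1 * a2 * b2 := by rw [← h21, e10]
    _ = v21 * ((v20 * a0) * v10) * b0 * a1 * b1 * a2 * b2 := by group
    _ = v21 * (v10 * (v20 * a0)) * b0 * a1 * b1 * a2 * b2 := by rw [← h10 (v20 * a0)]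
    _ = v21 * (v10 * v20) * (a0 * b0 * (a1 * b1) * (a2 * b2)) := by group
    _ = _ := by rw [h21 (v10 * v20)]

private theorem al3_prod {R : Type} [Group R] (y y' c1 c2 r r' u u' u'' : R)
    (hc2 : ∀ x, c2 * x = x * c2) (hy' : ∀ x, y' * x = x * y') (hc1 : ∀ x, c1 * x = x * c1)
    (h1 : u * r' = c1 * r' * u) (h2 : u * u' = c2 * u'') :
    y * r * u * (y' * r' * u') = y * y' * c1 * c2 * (r * r') * u'' := by
  calc y * r * u * (y' * r' * u') = y * ((r * u) * y') * r' * u' := by group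
    _ = y * (y' * (r * u)) * r' * u' := by rw [← hy' (r * u)]
    _ = y * y' * r * (u * r') * u' := by group
    _ = y * y' * (r * c1) * r' * (u * u') := by rw [h1]; group
    _ = y * y' * (c1 * r) * r' * (c2 * u'') := by rw [← hc1 r, h2]
    _ = y * y' * c1 * ((r * r') * c2) * u'' := by group
    _ = y * y' * c1 * (c2 * (r * r')) * u'' := by rw [← hc2 (r * r')]
    _ = _ := by group

omit [NumberField K] [IsAlgClosure K Ω] in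
private theorem al3_pup [NeZero p] (Dg : GP p m l w N P R) (r : R) (a : ZMod p) :
    pu Dg (r ^ a.val) = a • pu Dg r := by
  rw [pu_pow]
  funext k
  rw [Pi.smul_apply, Pi.smul_apply, nsmul_eq_mul, ZMod.natCast_zmod_val, smul_eq_mul]

omit [NumberField K] [IsAlgClosure K Ω] in
private theorem al3_puW [NeZero p] (Dg : GP p m l w N P R) (d : Fin 3 → Gal(Ω/K) → ZMod p)
    (τ : Fin 3 → R) (g : Gal(Ω/K)) : pu Dg (Wd3 d τ g) = ∑ i, d i g • pu Dg (τ i) := by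
  unfold Wd3
  rw [pu_mul, pu_mul, al3_pup, al3_pup, al3_pup, Fin.sum_univ_three]

theorem yd_eq [NeZero p] (Dg : GP p m l w N P R) {ρ₀ ρ₁ : Gal(Ω/K) →* R}
    {d : Fin 3 → Gal(Ω/K) → ZMod p} {τ : Fin 3 → R} (H : YH Dg ρ₀ ρ₁ d τ) (g : Gal(Ω/K)) :
    ρ₁ g = vof Dg (yd Dg ρ₀ ρ₁ d τ g) * ρ₀ g * Wd3 d τ g := by
  have h1 : Dg.π (ρ₁ g * (ρ₀ g * Wd3 d τ g)⁻¹) = 1 := by
    rw [← pu_eq_zero, pu_mul, pu_inv, pu_mul, al3_puW, H.pr]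
    abel
  have h2 := vof_of Dg _ h1
  have h3 : vof Dg (yd Dg ρ₀ ρ₁ d τ g) = ρ₁ g * (ρ₀ g * Wd3 d τ g)⁻¹ := h2
  rw [h3]
  group

theorem yd_add [NeZero p] (Dg : GP p m l w N P R) {ρ₀ ρ₁ : Gal(Ω/K) →* R}
    {d : Fin 3 → Gal(Ω/K) → ZMod p} {τ : Fin 3 → R} (H : YH Dg ρ₀ ρ₁ d τ) (g h : Gal(Ω/K)) :
    yd Dg ρ₀ ρ₁ d τ (g * h) = yd Dg ρ₀ ρ₁ d τ g + yd Dg ρ₀ ρ₁ d τ h +
      ∑ i, d i g • Dg.kV (pu Dg (τ i)) (pu Dg (ρ₀ h)) +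
      (d 1 g * d 0 h) • Dg.kV (pu Dg (τ 1)) (pu Dg (τ 0)) +
      (d 2 g * d 0 h) • Dg.kV (pu Dg (τ 2)) (pu Dg (τ 0)) +
      (d 2 g * d 1 h) • Dg.kV (pu Dg (τ 2)) (pu Dg (τ 1)) := by
  have hp0 : p ≠ 0 := NeZero.ne p
  have hc : ∀ (y : Fin l → ZMod p) (r : R), vof Dg y * r = r * vof Dg y := fun y =>
    Dg.vcen _ (vof_pi Dg y)
  -- the product of the words
  have hW : Wd3 d τ g * Wd3 d τ h =
      vof Dg ((d 1 g * d 0 h) • Dg.kV (pu Dg (τ 1)) (pu Dg (τ 0)) +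
      (d 2 g * d 0 h) • Dg.kV (pu Dg (τ 2)) (pu Dg (τ 0)) +
      (d 2 g * d 1 h) • Dg.kV (pu Dg (τ 2)) (pu Dg (τ 1))) * Wd3 d τ (g * h) := by
    have hcom : ∀ i j : Fin 3, τ i ^ (d i g).val * τ j ^ (d j h).val =
        vof Dg ((d i g * d j h) • Dg.kV (pu Dg (τ i)) (pu Dg (τ j))) * τ j ^ (d j h).val *
          τ i ^ (d i g).val := by
      intro i j
      have h1 := com_r Dg (τ i ^ (d i g).val) (τ j ^ (d j h).val)
      rw [al3_pup, al3_pup, map_smul, LinearMap.map_smul, LinearMap.smul_apply, smul_smul,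
        mul_comm (d j h)] at h1
      exact h1
    have hpw : ∀ i : Fin 3, τ i ^ (d i (g * h)).val = τ i ^ (d i g).val * τ i ^ (d i h).val := by
      intro i
      rw [H.add, ZMod.val_add, ← pow_add]
      exact (pow_eq_pow_mod ((d i g).val + (d i h).val) (H.pow i)).symm
    unfold Wd3
    rw [hpw, hpw, hpw, vof_add, vof_add]
    exact al3_perm _ _ _ _ _ _ _ _ _ (hc _) (hc _) (hc _) (hcom 1 0) (hcom 2 0) (hcom 2 1)
  have hR : Wd3 d τ g * ρ₀ h =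
      vof Dg (∑ i, d i g • Dg.kV (pu Dg (τ i)) (pu Dg (ρ₀ h))) * ρ₀ h * Wd3 d τ g := by
    have h1 := com_r Dg (Wd3 d τ g) (ρ₀ h)
    rw [al3_puW, map_sum, LinearMap.sum_apply] at h1
    rw [Finset.sum_congr rfl fun i _ => by
      rw [← LinearMap.smul_apply, ← map_smul]]
    exact h1
  have e1 := yd_eq Dg H (g * h)
  have e2 := yd_eq Dg H g
  have e3 := yd_eq Dg H h
  rw [map_mul, e2, e3, map_mul] at e1
  obtain ⟨c1, hc1⟩ : ∃ c1, c1 = ∑ i, d i g • Dg.kV (pu Dg (τ i)) (pu Dg (ρ₀ h)) := ⟨_, rfl⟩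
  obtain ⟨c2, hc2⟩ : ∃ c2, c2 = (d 1 g * d 0 h) • Dg.kV (pu Dg (τ 1)) (pu Dg (τ 0)) +
      (d 2 g * d 0 h) • Dg.kV (pu Dg (τ 2)) (pu Dg (τ 0)) +
      (d 2 g * d 1 h) • Dg.kV (pu Dg (τ 2)) (pu Dg (τ 1)) := ⟨_, rfl⟩
  rw [← hc1] at hR
  rw [← hc2] at hW
  have e4 : vof Dg (yd Dg ρ₀ ρ₁ d τ (g * h)) =
      vof Dg (yd Dg ρ₀ ρ₁ d τ g + yd Dg ρ₀ ρ₁ d τ h + c1 + c2) := by
    rw [vof_add, vof_add, vof_add]
    have e5 := al3_prod (vof Dg (yd Dg ρ₀ ρ₁ d τ g)) (vof Dg (yd Dg ρ₀ ρ₁ d τ h)) (vof Dg c1)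
      (vof Dg c2) (ρ₀ g) (ρ₀ h) (Wd3 d τ g) (Wd3 d τ h) (Wd3 d τ (g * h)) (hc _) (hc _) (hc _)
      hR hW
    rw [e5] at e1
    exact (mul_right_cancel (mul_right_cancel e1)).symm
  have e6 : yd Dg ρ₀ ρ₁ d τ (g * h) = yd Dg ρ₀ ρ₁ d τ g + yd Dg ρ₀ ρ₁ d τ h + c1 + c2 := by
    funext k
    rw [← vof_cv Dg (yd Dg ρ₀ ρ₁ d τ (g * h)) k, e4, vof_cv]
  rw [e6, hc1, hc2]
  abel

theorem yd_lev (Dg : GP p m l w N P R) {ρ₀ ρ₁ : Gal(Ω/K) →* R}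
    {d : Fin 3 → Gal(Ω/K) → ZMod p} {τ : Fin 3 → R} (h0 : H38.ML.FT ρ₀) (h1 : H38.ML.FT ρ₁)
    (hd : ∀ i, Lev (d i)) (k : Fin l) : Lev fun g => yd Dg ρ₀ ρ₁ d τ g k := by
  have h2 : Lev fun (σ : Gal(Ω/K)) (i : Fin 3) => d i σ := glift_lev_pi (fun i σ => d i σ) hd
  have h3 := glift_lev_comp2 (fun σ => ρ₀ σ) (fun (σ : Gal(Ω/K)) (i : Fin 3) => d i σ)
    (fun x => x) (ft_lev ρ₀ h0) h2
  exact glift_lev_comp2 (fun σ => ρ₁ σ) (fun σ => (ρ₀ σ, fun i : Fin 3 => d i σ))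
    (fun x => Dg.cv k (x.1 * (x.2.1 * (τ 0 ^ (x.2.2 0).val * τ 1 ^ (x.2.2 1).val *
      τ 2 ^ (x.2.2 2).val))⁻¹)) (ft_lev ρ₁ h1) h3

theorem yd_zero (Dg : GP p m l w N P R) {ρ₀ ρ₁ : Gal(Ω/K) →* R}
    {d : Fin 3 → Gal(Ω/K) → ZMod p} {τ : Fin 3 → R} (g : Gal(Ω/K))
    (h : ρ₁ g = ρ₀ g * Wd3 d τ g) : yd Dg ρ₀ ρ₁ d τ g = 0 := by
  funext k
  unfold yd
  rw [h, mul_inv_cancel, cv_one, Pi.zero_apply]

end H51.CUB
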