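import Pool.Agent.H51.CUB.AL3
import Pool.Agent.H51.CUB.RHX
import Pool.Agent.H51.CUB.BXA

/-!
[H51 CUB AL4]  Changing one prime: existence (180-240 lines). PROOF.

`xs_edge`: let `s = pu τ`, `e = pi q' / pi q`, `a k = ak D b (insert q n) (sg (update σ q τ)) k` (so `kk (a k) g = pu (ρ g) k`). For every coordinate `k' : Fin l` let `A k' = ∏ j, a j ^ (kV s (Pi.single j 1) k').val`: `kk (A k') g = kV s (pu (ρ g)) k'` (bilinearity, `kk` additive). CLAIM: `B v e (A k') = 0` for all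
`v ∉ S0`; then `rho_ex` (`PS e` by `box_ps`) gives `y k'` with `Rho L e (A k') (y k')`. Proof of the claim with `b_LL`: `B v e x = LL v e * ord v x - ord v e * LL v x`.
 `v = q`: `ord q e = -1`; `(ord q (A k') : ZMod p) = kV s s k' = 0` (`ord q (a j) = (s j).val` as `b` is supported on `E` (`BS2`), `q ∉ E`, `q ∉ n`); `LL q (A k') = kV s (pu (ρ (F q))) k' = 0` because `ρ (F q)` commutes with `τ` (`xs_com`, `kV_comm`, `Fr.kf`).
 `v = q'`: `ord q' e = 1`, `ord q' (A k') = 0`; `LL q' (a j) = LL q' (ak D b n .. j) + s j * LL q' (pi q)`, so `LL q' (A k') = kV s (u + c s) k' = kV s u k'` with `u j = LL q' (ak D b n .. j) = LL q (ak D b n .. j)` (`h2`), and `pu (ρ (F q)) = u + 0` (`LL q (pi q) = 0`); so it is `0` again.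
 `v ∈ n` or `v ∈ E`: `ord v e = 0`, `LL v e = LL v (pi q') - LL v (pi q) = 0` (`h1`). other `v ∉ S0`: `ord v e = 0` and `ord v (A k') = 0`.
Define `ρ' g = vof (y g) * ρ g * τ ^ (kk e g).val`. It is a homomorphism: `y (g h) = y g + y h + kk e g • kV s (pu (ρ h))` and `τ ^ (kk e g).val * ρ h = vof (kk e g • kV s (pu (ρ h))) * ρ h * τ ^ (kk e g).val` (`com_r`, `pu_pow`), `τ ^ p = 1`. Finite type: `y`, `kk e`, `ρ` have finite level. Kummer data:
`pu (ρ' g) = pu (ρ g) + kk e g • s`, and `ak D b (insert q' n) (..) k = ak D b (insert q n) (..) k * e ^ (s k).val` (`q, q' ∉ n`; only the labels on `n` and at `q`, `q'` matter). INERTIA at `v ∉ S0`: `y = 0` on `inr L v` by `rho_inr` (`ord v e = 0` or `ord v (A k') = 0`). `v = q'`: `ρ = 1`, `kk e τ' = kk (pi q') τ'`, so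
`ρ' (t q') = τ`, `ρ' τ'` is a power of `τ`. `v = q`: `ρ τ' = τ ^ (kk (pi q) τ').val` (`tm_z`), `kk e τ' = - kk (pi q) τ'`: `ρ' τ' = 1`. Other `v`: `kk e = 0` on `inr L v`, `ρ' = ρ`.
`hi_edge`: `h (F q) = h (F q')` for `h ∈ H1` (`h1_q`); the sums over `insert q n` and `insert q' n` agree. `ff_edge`: `ff_ne`, `ff_val`.
-/

set_option autoImplicit false

open scoped NumberField
open IsDedekindDomain
open scoped Classical

noncomputable section

namespace H51.CUB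

open H63.MA H38.BB H38.BG H57.PC H77.PC3

variable {K : Type} [Field K] [NumberField K] {p : ℕ} {ζ : K} {Ω : Type} [Field Ω] [Algebra K Ω]
  [IsAlgClosure K Ω] {m l w N : ℕ} {P R : Type} [Group P] [Group R]

/-- the data of a change of one prime -/
structure Edge (D : RD K p ζ) {L : LDs D.toRD0 Ω} (Dg : GP p m l w N P R) (b : Fin m → Kˣ)
    (E n : Finset (Pl K)) (σ : Pl K → R) (q q' : Pl K) : Prop where
  gn : ∀ v ∈ n, D.Gd v ∧ v ∉ E
  gq : D.Gd q ∧ q ∉ E ∧ q ∉ n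
  gq' : D.Gd q' ∧ q' ∉ E ∧ q' ∉ n
  bs : BS2 D.toRD0 b E
  cls : D.q q = D.q q'
  ln : ∀ v ∈ n, D.LL v (D.pi q) = D.LL v (D.pi q')
  lE : ∀ v ∈ E, D.LL v (D.pi q) = D.LL v (D.pi q')
  la : ∀ k, D.LL q (ak D.toRD0 b n (sg Dg σ) k) = D.LL q' (ak D.toRD0 b n (sg Dg σ) k)

private theorem e_sum (Dg : GP p m l w N P R) (s x : Fin m → ZMod p) (k : Fin l) :
    ∑ j, Dg.kV s (Pi.single j 1) k * x j = Dg.kV s x k := by
  conv_rhs => rw [← Finset.univ_sum_single x]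
  rw [map_sum, Finset.sum_apply]
  refine Finset.sum_congr rfl fun j _ => ?_
  have h : (Pi.single j (x j) : Fin m → ZMod p) = x j • Pi.single j (1 : ZMod p) := by
    rw [← Pi.single_smul, smul_eq_mul, mul_one]
  rw [h, map_smul, Pi.smul_apply, smul_eq_mul, mul_comm]

private theorem e_cast [NeZero p] (x : ZMod p) : ((x.val : ℕ) : ZMod p) = x :=
  ZMod.natCast_zmod_val x

private theorem e_kk_pow (hp : p.Prime) (hζ : IsPrimitiveRoot ζ p) (a : Kˣ) (x : ZMod p)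
    (g : Gal(Ω/K)) : kk p ζ (a ^ x.val) g = x * kk p ζ a g := by
  rw [← zpow_natCast, kk_zpow_arg hp hζ, gkum_val hp]

private theorem e_ord_pow [NeZero p] (v : Pl K) (a : Kˣ) (x : ZMod p) :
    ((ord v (a ^ x.val) : ℤ) : ZMod p) = x * ((ord v a : ℤ) : ZMod p) := by
  rw [ord_pow, Int.cast_mul, Int.cast_natCast, e_cast]

private theorem e_ll_pow (hp : p.Prime) (hζ : IsPrimitiveRoot ζ p) (D : RD0 K p ζ) {v : Pl K}
    (hv : v ∉ D.S0) (a : Kˣ) (x : ZMod p) : D.LL v (a ^ x.val) = x * D.LL v a := by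
  have h : NeZero p := ⟨hp.ne_zero⟩
  rw [ll_pow hp hζ D hv, e_cast]

private theorem e_ll_prod (hp : p.Prime) (hζ : IsPrimitiveRoot ζ p) (D : RD0 K p ζ) {v : Pl K}
    (hv : v ∉ D.S0) {ι : Type} (s : Finset ι) (f : ι → Kˣ) :
    D.LL v (∏ i ∈ s, f i) = ∑ i ∈ s, D.LL v (f i) := by
  induction s using Finset.induction_on with
  | empty =>
    rw [Finset.prod_empty, Finset.sum_empty]
    have h := ll_mul hp hζ D hv 1 1
    rw [mul_one] at h
    exact left_eq_add.1 h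
  | insert a s ha ih => rw [Finset.prod_insert ha, Finset.sum_insert ha, ll_mul hp hζ D hv, ih]

private theorem e_ak (D : RD0 K p ζ) (Dg : GP p m l w N P R) (b : Fin m → Kˣ)
    (n : Finset (Pl K)) (σ : Pl K → R) (q : Pl K) (hq : q ∉ n) (τ : R) (k : Fin m) :
    ak D b (insert q n) (sg Dg (Function.update σ q τ)) k =
      D.pi q ^ (pu Dg τ k).val * ak D b n (sg Dg σ) k := by
  unfold ak
  rw [Finset.prod_insert hq]
  have h1 : sg Dg (Function.update σ q τ) q = pu Dg τ := by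
    unfold sg pu
    rw [Function.update_self]
  have h2 : ∀ v ∈ n, D.pi v ^ (sg Dg (Function.update σ q τ) v k).val =
      D.pi v ^ (sg Dg σ v k).val := by
    intro v hv
    have h3 : v ≠ q := fun h => hq (h ▸ hv)
    unfold sg
    rw [Function.update_of_ne h3]
  rw [h1, Finset.prod_congr rfl h2]
  exact mul_left_comm _ _ _

private theorem e_ord_ak (D : RD0 K p ζ) (b : Fin m → Kˣ) (E n : Finset (Pl K))
    (hb : BS2 D b E) (hn : ∀ v ∈ n, v ∉ D.S0) (s : Pl K → Fin m → ZMod p) (v : Pl K)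
    (hv : v ∉ D.S0) (hE : v ∉ E) (hvn : v ∉ n) (k : Fin m) : ord v (ak D b n s k) = 0 := by
  unfold ak
  rw [ord_mul, hb.2 k v hv hE, zero_add, ord_prod]
  refine Finset.sum_eq_zero fun u hu => ?_
  rw [ord_pow, D.pi_ne u v (hn u hu) hv (fun h => hvn (h ▸ hu)), mul_zero]

private theorem e_pow_add [NeZero p] (τ : R) (hτ : τ ^ p = 1) (a b : ZMod p) :
    τ ^ (a + b).val = τ ^ a.val * τ ^ b.val := by
  rw [ZMod.val_add, ← pow_add]
  exact (pow_eq_pow_mod (a.val + b.val) hτ).symm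

theorem xs_edge [NeZero p] [Finite R] (hp : p.Prime) (hp2 : MOne p K) (hζ : IsPrimitiveRoot ζ p)
    (D : RD K p ζ) {L : LDs D.toRD0 Ω} (Fr : FR L) (Dg : GP p m l w N P R) (b : Fin m → Kˣ)
    (E : Finset (Pl K)) (ε : Pl K → Gal(Ω/K) → R) (n : Finset (Pl K)) (σ : Pl K → R) (q q' : Pl K)
    (hE : Edge D (L := L) Dg b E n σ q q') (τ : R) (hτ : τ ^ p = 1)
    (hρ : ∃ ρ, ρ ∈ XS L Dg b E ε (insert q n) (Function.update σ q τ)) :
    ∃ ρ', ρ' ∈ XS L Dg b E ε (insert q' n) (Function.update σ q' τ) := by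
  obtain ⟨ρ, hρ⟩ := hρ
  by_cases hqq : q = q'
  · subst hqq
    exact ⟨ρ, hρ⟩
  have hcom := xs_com Fr Dg b E ε (insert q n) (Function.update σ q τ) hρ q
    (Finset.mem_insert_self q n) hE.gq.1.1
  rw [Function.update_self] at hcom
  obtain ⟨hft, hkum, hin, hinE, hino⟩ := hρ
  have hq0 : q ∉ D.S0 := hE.gq.1.1
  have hq0' : q' ∉ D.S0 := hE.gq'.1.1
  have hqE := hE.gq.2.1
  have hqE' := hE.gq'.2.1
  have hqn := hE.gq.2.2
  have hqn' := hE.gq'.2.2
  have hn0 : ∀ v ∈ n, v ∉ D.S0 := fun v hv => (hE.gn v hv).1.1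
  have hE0 : ∀ v ∈ E, v ∉ D.S0 := hE.bs.1
  obtain ⟨s, hs⟩ : ∃ s, s = pu Dg τ := ⟨_, rfl⟩
  obtain ⟨e, he⟩ : ∃ e, e = D.pi q' / D.pi q := ⟨_, rfl⟩
  obtain ⟨a0, ha0⟩ : ∃ a0, a0 = ak D.toRD0 b n (sg Dg σ) := ⟨_, rfl⟩
  -- Kummer data
  have hak : ∀ k, ak D.toRD0 b (insert q n) (sg Dg (Function.update σ q τ)) k =
      D.pi q ^ (s k).val * a0 k := fun k => by
    rw [e_ak D.toRD0 Dg b n σ q hqn τ k, hs, ha0]
  have hak' : ∀ k, ak D.toRD0 b (insert q' n) (sg Dg (Function.update σ q' τ)) k =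
      D.pi q' ^ (s k).val * a0 k := fun k => by
    rw [e_ak D.toRD0 Dg b n σ q' hqn' τ k, hs, ha0]
  have hpu : ∀ g k, pu Dg (ρ g) k = kk p ζ (D.pi q ^ (s k).val * a0 k) g := by
    intro g k
    rw [← hak, hkum g k]
    rfl
  obtain ⟨a, ha⟩ : ∃ a : Fin m → Kˣ, ∀ j, a j = D.pi q ^ (s j).val * a0 j := ⟨_, fun _ => rfl⟩
  obtain ⟨A, hA⟩ : ∃ A : Fin l → Kˣ, ∀ k, A k = ∏ j, a j ^ (Dg.kV s (Pi.single j 1) k).val :=
    ⟨_, fun _ => rfl⟩
  have hpa : ∀ g k, pu Dg (ρ g) k = kk p ζ (a k) g := fun g k => by rw [hpu, ha]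
  have hkA : ∀ g k, kk p ζ (A k) g = Dg.kV s (pu Dg (ρ g)) k := by
    intro g k
    rw [hA, kk_prod_arg hp hζ, ← e_sum Dg s (pu Dg (ρ g)) k]
    refine Finset.sum_congr rfl fun j _ => ?_
    rw [e_kk_pow hp hζ, hpa]
  have hoA : ∀ v k, ((ord v (A k) : ℤ) : ZMod p) =
      Dg.kV s (fun j => ((ord v (a j) : ℤ) : ZMod p)) k := by
    intro v k
    rw [hA, ord_prod, Int.cast_sum, ← e_sum Dg s _ k]
    refine Finset.sum_congr rfl fun j _ => ?_
    rw [e_ord_pow]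
  have hlA : ∀ v, v ∉ D.S0 → ∀ k, D.LL v (A k) = Dg.kV s (fun j => D.LL v (a j)) k := by
    intro v hv k
    rw [hA, e_ll_prod hp hζ D.toRD0 hv, ← e_sum Dg s _ k]
    refine Finset.sum_congr rfl fun j _ => ?_
    rw [e_ll_pow hp hζ D.toRD0 hv]
  have hoa : ∀ v j, ((ord v (a j) : ℤ) : ZMod p) =
      s j * ((ord v (D.pi q) : ℤ) : ZMod p) + ((ord v (a0 j) : ℤ) : ZMod p) := by
    intro v j
    rw [ha, ord_mul, Int.cast_add, e_ord_pow]
  have hla : ∀ v, v ∉ D.S0 → ∀ j, D.LL v (a j) = s j * D.LL v (D.pi q) + D.LL v (a0 j) := by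
    intro v hv j
    rw [ha, ll_mul hp hζ D.toRD0 hv, e_ll_pow hp hζ D.toRD0 hv]
  have ho0 : ∀ v, v ∉ D.S0 → v ∉ E → v ∉ n → ∀ j, ord v (a0 j) = 0 := by
    intro v hv hvE hvn j
    rw [ha0]
    exact e_ord_ak D.toRD0 b E n hE.bs hn0 _ v hv hvE hvn j
  have hoe : ∀ v, v ∉ D.S0 → ord v e = (if v = q' then 1 else 0) - (if v = q then 1 else 0) := by
    intro v hv
    rw [he]
    exact ord_div D.toRD0 hq0' hq0 v hv
  have hoeq : ord q e = -1 := by
    rw [hoe q hq0, if_neg hqq, if_pos rfl, zero_sub]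
  have hoeq' : ord q' e = 1 := by
    rw [hoe q' hq0', if_pos rfl, if_neg (Ne.symm hqq), sub_zero]
  have hoev : ∀ v, v ∉ D.S0 → v ≠ q → v ≠ q' → ord v e = 0 := by
    intro v hv h1 h2
    rw [hoe v hv, if_neg h2, if_neg h1, sub_zero]
  have hle : ∀ v, v ∉ D.S0 → D.LL v e = D.LL v (D.pi q') - D.LL v (D.pi q) := by
    intro v hv
    rw [he]
    exact ll_div hp hζ D.toRD0 hv _ _
  have hss : ∀ k, Dg.kV s s k = 0 := fun k => by rw [kV_self Dg s]; rfl
  -- the orders of `A` at `q`, `q'`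
  have hAq : ∀ k, ((ord q (A k) : ℤ) : ZMod p) = 0 := by
    intro k
    rw [hoA, show (fun j => ((ord q (a j) : ℤ) : ZMod p)) = s from ?_, hss]
    funext j
    rw [hoa, D.pi_self q hq0, ho0 q hq0 hqE hqn, Int.cast_one, mul_one, Int.cast_zero, add_zero]
  have hAo : ∀ v, v ∉ D.S0 → v ∉ E → v ∉ n → v ≠ q → ∀ k, ((ord v (A k) : ℤ) : ZMod p) = 0 := by
    intro v hv hvE hvn hvq k
    rw [hoA, show (fun j => ((ord v (a j) : ℤ) : ZMod p)) = 0 from ?_, map_zero]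
    · rfl
    funext j
    rw [hoa, D.pi_ne q v hq0 hv hvq, ho0 v hv hvE hvn, Int.cast_zero, mul_zero, add_zero]
    rfl
  have huq : pu Dg (ρ (Fr.F q)) = fun j => D.LL q (a0 j) := by
    funext j
    rw [hpa, Fr.kf q hq0, hla q hq0, ll_self hp hζ D.toRD0 hq0, mul_zero, zero_add]
  have hku : ∀ k, Dg.kV s (fun j => D.LL q (a0 j)) k = 0 := by
    intro k
    rw [← huq, hs, kV_swap, kV_comm Dg _ _ hcom, neg_zero]
    rfl
  have hclaim : ∀ k v, v ∉ D.S0 → B p ζ v e (A k) = 0 := by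
    intro k v hv
    rw [b_LL hp hζ D.toRD0 v hv]
    by_cases h1 : v = q
    · subst h1
      rw [hAq, mul_zero, zero_sub, hlA v hv, show (fun j => D.LL v (a j)) = fun j => D.LL v (a0 j) from ?_,
        hku, mul_zero, neg_zero]
      funext j
      rw [hla v hv, ll_self hp hζ D.toRD0 hv, mul_zero, zero_add]
    by_cases h2 : v = q'
    · subst h2
      have h3 : D.LL v (A k) = 0 := by
        rw [hlA v hv]
        have h4 : (fun j => D.LL v (a j)) = D.LL v (D.pi q) • s + fun j => D.LL q (a0 j) := by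
          funext j
          rw [hla v hv, Pi.add_apply, Pi.smul_apply, smul_eq_mul, mul_comm]
          congr 1
          rw [ha0]
          exact (hE.la j).symm
        rw [h4, map_add, map_smul, Pi.add_apply, Pi.smul_apply, hss, hku, smul_zero, add_zero]
      rw [hAo v hv hqE' hqn' (Ne.symm hqq), h3, mul_zero, mul_zero, sub_zero]
    rw [hoev v hv h1 h2, Int.cast_zero, zero_mul, sub_zero]
    by_cases h5 : v ∈ n
    · rw [hle v hv, hE.ln v h5, sub_self, zero_mul]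
    by_cases h6 : v ∈ E
    · rw [hle v hv, hE.lE v h6, sub_self, zero_mul]
    rw [hAo v hv h6 h5 h1, mul_zero]
  have hps : PS p ζ D.S0 e := by
    rw [he]
    exact box_ps hp D.toRD0 hq0' hq0 hE.cls.symm
  have hYex : ∀ k, ∃ Y : Gal(Ω/K) → ZMod p, Rho L e (A k) Y :=
    fun k => rho_ex hp hp2 hζ L e (A k) hps (fun v hv => hclaim k v hv)
  choose Y hY using hYex
  -- the new homomorphism
  have hyadd : ∀ g h, (fun k => Y k (g * h)) = (fun k => Y k g) + (fun k => Y k h) +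
      kk p ζ e g • Dg.kV s (pu Dg (ρ h)) := by
    intro g h
    funext k
    rw [(hY k).add, hkA]
    rfl
  have hpadd := e_pow_add (p := p) τ hτ
  let ρ' : Gal(Ω/K) →* R := MonoidHom.mk'
    (fun g => vof Dg (fun k => Y k g) * ρ g * τ ^ (kk p ζ e g).val) (by
      intro g h
      show vof Dg (fun k => Y k (g * h)) * ρ (g * h) * τ ^ (kk p ζ e (g * h)).val =
        vof Dg (fun k => Y k g) * ρ g * τ ^ (kk p ζ e g).val *
          (vof Dg (fun k => Y k h) * ρ h * τ ^ (kk p ζ e h).val)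
      have h1 : τ ^ (kk p ζ e g).val * ρ h = vof Dg (kk p ζ e g • Dg.kV s (pu Dg (ρ h))) * ρ h *
          τ ^ (kk p ζ e g).val := by
        have h2 := com_r Dg (τ ^ (kk p ζ e g).val) (ρ h)
        have h3 : pu Dg (τ ^ (kk p ζ e g).val) = kk p ζ e g • s := by
          rw [pu_pow, hs]
          funext j
          rw [Pi.smul_apply, Pi.smul_apply, nsmul_eq_mul, e_cast, smul_eq_mul]
        rw [h3, map_smul, LinearMap.smul_apply] at h2
        exact h2
      rw [hyadd, vof_add, vof_add, kk_mul, hpadd, map_mul]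
      obtain ⟨y1, hy1⟩ : ∃ y1, y1 = vof Dg (fun k => Y k g) := ⟨_, rfl⟩
      obtain ⟨y2, hy2⟩ : ∃ y2, y2 = vof Dg (fun k => Y k h) := ⟨_, rfl⟩
      obtain ⟨y3, hy3⟩ : ∃ y3, y3 = vof Dg (kk p ζ e g • Dg.kV s (pu Dg (ρ h))) := ⟨_, rfl⟩
      have c2 : ∀ r, y2 * r = r * y2 := fun r => by rw [hy2]; exact Dg.vcen _ (vof_pi Dg _) r
      have c3 : ∀ r, y3 * r = r * y3 := fun r => by rw [hy3]; exact Dg.vcen _ (vof_pi Dg _) r
      rw [← hy3] at h1
      rw [← hy1, ← hy2, ← hy3]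
      have e1 : y1 * ρ g * τ ^ (kk p ζ e g).val * (y2 * ρ h * τ ^ (kk p ζ e h).val) =
          y1 * (ρ g * (τ ^ (kk p ζ e g).val * y2)) * (ρ h * τ ^ (kk p ζ e h).val) := by group
      have e2 : y1 * (ρ g * (y2 * τ ^ (kk p ζ e g).val)) * (ρ h * τ ^ (kk p ζ e h).val) =
          y1 * ((ρ g * y2) * (τ ^ (kk p ζ e g).val * ρ h)) * τ ^ (kk p ζ e h).val := by group
      have e3 : y1 * ((y2 * ρ g) * (y3 * ρ h * τ ^ (kk p ζ e g).val)) * τ ^ (kk p ζ e h).val =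
          y1 * y2 * (ρ g * y3) * ρ h * (τ ^ (kk p ζ e g).val * τ ^ (kk p ζ e h).val) := by group
      rw [e1, ← c2 (τ ^ (kk p ζ e g).val), e2, h1, ← c2 (ρ g), e3, ← c3 (ρ g)]
      group)
  have hρ' : ∀ g, ρ' g = vof Dg (fun k => Y k g) * ρ g * τ ^ (kk p ζ e g).val := fun _ => rfl
  have hft' : H38.ML.FT ρ' := by
    have h1 : Lev (fun (g : Gal(Ω/K)) k => Y k g) :=
      glift_lev_pi (fun k g => Y k g) fun k => (hY k).lev
    have h2 := gtriv_lev h1 (ft_lev ρ hft) (fun y r => vof Dg y * r)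
    have h3 := gtriv_lev h2 (gtriv_kk (Ω := Ω) hp hζ e) (fun r x => r * τ ^ x.val)
    obtain ⟨F, hF, h4⟩ := h3
    refine ⟨F, hF, fun u hu => ?_⟩
    have h5 := h4 1 u hu
    rw [one_mul] at h5
    rw [MonoidHom.mem_ker]
    have h6 : ρ' u = ρ' 1 := h5
    rw [h6, map_one]
  have hkk0 : ∀ v, v ∉ D.S0 → v ≠ q → v ≠ q' → ∀ τ' ∈ inr L v, kk p ζ e τ' = 0 := by
    intro v hv h1 h2 τ' hτ'
    rw [kk_inr hp hζ L v hv e τ' hτ', hoev v hv h1 h2, Int.cast_zero, zero_mul]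
  have hY0 : ∀ v, v ∉ D.S0 → ∀ k τ', τ' ∈ inr L v → Y k τ' = 0 := by
    intro v hv k τ' hτ'
    refine rho_inr hp hζ L (hY k) v hv ?_ τ' hτ'
    by_cases h1 : v = q
    · subst h1
      exact Or.inr (hAq k)
    by_cases h2 : v = q'
    · subst h2
      exact Or.inr (hAo v hv hqE' hqn' (Ne.symm hqq) k)
    exact Or.inl (by rw [hoev v hv h1 h2, Int.cast_zero])
  have hv0 : ∀ v, v ∉ D.S0 → ∀ τ' ∈ inr L v, ρ' τ' = ρ τ' * τ ^ (kk p ζ e τ').val := by
    intro v hv τ' hτ'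
    rw [hρ', show (fun k => Y k τ') = 0 from funext fun k => hY0 v hv k τ' hτ', vof_zero, one_mul]
  have hsame : ∀ v, v ∉ D.S0 → v ≠ q → v ≠ q' → ∀ τ' ∈ inr L v, ρ' τ' = ρ τ' := by
    intro v hv h1 h2 τ' hτ'
    rw [hv0 v hv τ' hτ', hkk0 v hv h1 h2 τ' hτ', ZMod.val_zero, pow_zero, mul_one]
  have htin : ∀ v, v ∉ D.S0 → L.t v ∈ inr L v := by
    intro v hv
    have h1 : inr L v = (L.ld v hv).P.inertia Gal(Ω/K) := by
      unfold inr
      rw [dif_pos hv]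
    rw [h1, gtw_t L v hv]
    exact (L.ld v hv).ht
  refine ⟨ρ', hft', ?_, ?_, ?_, ?_⟩
  · intro g k
    have h1 : pu Dg (ρ' g) k = pu Dg (ρ g) k + kk p ζ e g * s k := by
      rw [hρ', pu_mul, pu_mul, pu_pow, (pu_eq_zero Dg _).2 (vof_pi Dg _), zero_add, Pi.add_apply,
        Pi.smul_apply, nsmul_eq_mul, e_cast, hs]
    have h2 : kk p ζ e g + kk p ζ (D.pi q) g = kk p ζ (D.pi q') g := by
      rw [← kk_mul_arg hp hζ, he, div_mul_cancel]
    have h3 := hpu g k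
    rw [kk_mul_arg hp hζ, e_kk_pow hp hζ] at h3
    rw [hak', kk_mul_arg hp hζ, e_kk_pow hp hζ]
    have h4 : Multiplicative.toAdd (Dg.π (ρ' g)) k = pu Dg (ρ' g) k := rfl
    rw [h4, h1, h3, ← h2]
    ring
  · intro v hv
    rw [Finset.mem_insert] at hv
    by_cases hvq : v = q'
    · subst hvq
      have h1 : ∀ τ' ∈ inr L v, ρ τ' = 1 := by
        refine hino v hq0' hqE' ?_
        rw [Finset.mem_insert, not_or]
        exact ⟨Ne.symm hqq, hqn'⟩
      refine ⟨?_, fun τ' hτ' => ?_⟩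
      · have h2 : kk p ζ e (L.t v) = 1 := by
          rw [gtw_t L v hq0', ld_kk_t hp hζ (fun h => hq0' (D.above v h)) (D.pi_self v hq0')
            (L.ld v hq0') e, hoeq', Int.cast_one]
        have h3 : Fact (1 < p) := ⟨hp.one_lt⟩
        rw [hv0 v hq0' _ (htin v hq0'), h1 _ (htin v hq0'), one_mul, h2, ZMod.val_one, pow_one,
          Function.update_self]
      · rw [hv0 v hq0' τ' hτ', h1 τ' hτ', one_mul, ← pow_mul, mul_comm, pow_mul, hτ, one_pow]
    · have hvn : v ∈ n := hv.resolve_left hvq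
      have hv1 : v ≠ q := fun h => hqn (h ▸ hvn)
      have h2 := hin v (Finset.mem_insert_of_mem hvn)
      rw [Function.update_of_ne hv1] at h2
      refine ⟨?_, fun τ' hτ' => ?_⟩
      · rw [hsame v (hn0 v hvn) hv1 hvq _ (htin v (hn0 v hvn)), Function.update_of_ne hvq]
        exact h2.1
      · rw [hsame v (hn0 v hvn) hv1 hvq τ' hτ']
        exact h2.2 τ' hτ'
  · intro v hv τ' hτ'
    rw [hsame v (hE0 v hv) (fun h => hqE (h ▸ hv)) (fun h => hqE' (h ▸ hv)) τ' hτ']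
    exact hinE v hv τ' hτ'
  · intro v hv hvE hvn τ' hτ'
    rw [Finset.mem_insert, not_or] at hvn
    by_cases hvq : v = q
    · subst hvq
      have h2 := hin v (Finset.mem_insert_self v n)
      rw [Function.update_self] at h2
      have h3 := H38.BG.tm_z hp hζ L ρ hft v hv h2.2 τ' hτ'
      rw [h2.1] at h3
      rw [hv0 v hv τ' hτ', h3, kk_inr hp hζ L v hv e τ' hτ', hoeq, ← hpadd,
        show kk p ζ (D.pi v) τ' + ((-1 : ℤ) : ZMod p) * kk p ζ (D.pi v) τ' = 0 by push_cast; ring,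
        ZMod.val_zero, pow_zero]
    · rw [hsame v hv hvq hvn.1 τ' hτ']
      refine hino v hv hvE ?_ τ' hτ'
      rw [Finset.mem_insert, not_or]
      exact ⟨hvq, hvn.2⟩

theorem hi_edge (hp : p.Prime) (hζ : IsPrimitiveRoot ζ p)
    (D : RD K p ζ) {L : LDs D.toRD0 Ω} (Fr : FR L) (Dg : GP p m l w N P R) (b : Fin m → Kˣ)
    (E : Finset (Pl K)) (n : Finset (Pl K)) (σ : Pl K → R) (ψ : Pl K → Fin w → ZMod p)
    (q q' : Pl K) (hE : Edge D (L := L) Dg b E n σ q q') (τ : R) (φ : Fin w → ZMod p)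
    (h : HI Dg Fr (insert q n) (Function.update σ q τ) (Function.update ψ q φ)) :
    HI Dg Fr (insert q' n) (Function.update σ q' τ) (Function.update ψ q' φ) := by
  have key : ∀ (x : Pl K) (h' : Gal(Ω/K) →* R), x ∉ n →
      ∑ v ∈ insert x n, dt (Function.update ψ x φ v) (Dg.β (fun j => Dg.cv j (h' (Fr.F v)))
        (sg Dg (Function.update σ x τ) v)) = dt φ (Dg.β (fun j => Dg.cv j (h' (Fr.F x)))
        (pu Dg τ)) + ∑ v ∈ n, dt (ψ v) (Dg.β (fun j => Dg.cv j (h' (Fr.F v))) (sg Dg σ v)) := by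
    intro x h' hx
    rw [Finset.sum_insert hx]
    congr 1
    · rw [Function.update_self]
      have h1 : sg Dg (Function.update σ x τ) x = pu Dg τ := by
        unfold sg pu
        rw [Function.update_self]
      rw [h1]
    · refine Finset.sum_congr rfl fun v hv => ?_
      have h3 : v ≠ x := fun h => hx (h ▸ hv)
      rw [Function.update_of_ne h3]
      have h1 : sg Dg (Function.update σ x τ) v = sg Dg σ v := by
        unfold sg
        rw [Function.update_of_ne h3]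
      rw [h1]
  intro h' hh'
  have h1 := h h' hh'
  rw [key q h' hE.gq.2.2] at h1
  rw [key q' h' hE.gq'.2.2, ← h1_q hp hζ D Fr Dg hh' hE.gq.1 hE.gq'.1 hE.cls]
  exact h1

theorem ff_edge [NeZero p] [Finite R] (hp : p.Prime) (hp2 : MOne p K) (hζ : IsPrimitiveRoot ζ p)
    (D : RD K p ζ) {L : LDs D.toRD0 Ω} (Fr : FR L) (Dg : GP p m l w N P R) (b : Fin m → Kˣ)
    (E : Finset (Pl K)) (ε : Pl K → Gal(Ω/K) → R) (n : Finset (Pl K)) (σ : Pl K → R)
    (ψ : Pl K → Fin w → ZMod p) (q q' : Pl K) (hE : Edge D (L := L) Dg b E n σ q q') (τ : R)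
    (hτ : τ ^ p = 1) (φ : Fin w → ZMod p)
    (h : FF Dg Fr b E ε (insert q n) (Function.update σ q τ) (Function.update ψ q φ) ≠ 0) :
    FF Dg Fr b E ε (insert q' n) (Function.update σ q' τ) (Function.update ψ q' φ) ≠ 0 := by
  obtain ⟨h1, h2⟩ := ff_ne Fr Dg b E ε _ _ _ h
  have h3 := hi_edge hp hζ D Fr Dg b E n σ ψ q q' hE τ φ h1
  obtain ⟨ρ', hρ'⟩ := xs_edge hp hp2 hζ D Fr Dg b E ε n σ q q' hE τ hτ h2
  have hn : ∀ v ∈ insert q' n, v ∉ D.S0 := by
    intro v hv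
    rcases Finset.mem_insert.1 hv with h4 | h4
    · rw [h4]; exact hE.gq'.1.1
    · exact (hE.gn v h4).1.1
  rw [ff_val hp hζ Fr Dg b E ε _ _ _ hn h3 hρ', ← norm_ne_zero_iff, ep_norm]
  exact one_ne_zero

end H51.CUB
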