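import Pool.Agent.H51.CUB.RHX
import Pool.Agent.H57.BRA.BR
import Pool.Agent.H63.MA.GLift

/-!
[H51 CUB BRT]  The product formula for triple products (200-260 lines). PROOF.

`GX p m`: pairs `(x, y)`, `x : Fin 3 → ZMod p`, `y : Fin 3 → Fin 3 → ZMod p` with `(x, y) (x', y') = (x + x', y + y' + m x x')` (a group; `m` arbitrary coefficients). `te A B C` is a function on pairs, trilinear of weight 3.
* `te_coc`: `co` is `e b c + e a (b c) - e (a b) c - e a b = ∑ (A i j k * m j k - B i j k * m i j - C i j k) x_i(a) x_j(b) x_k(c) - C i j k x_i(b) x_j(a) x_k(c)`; exchange the names `i, j` in the last sum (`Finset.sum_comm`).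
* `br_tri`: `ρ g = (kk (a i) g, Y i j g)` is a homomorphism `Γ → GX p m` (`kk_mul`, `H.add`), of finite type (intersect the levels of `kk (a i)`, `Y i j`; see `gtriv_lev`, `glift_lev_pi`, and `Lev` at `1`: the values at `u` in the level equal the values at `1`, which are `0` (`Y 1 = 0` by `H.add 1 1`, `kk_one`)). Apply `br2` (`H57/BRA/BR`)
with `e = te A B C`: `hk`: the function `l = 0` (`Lev` of a constant) and `hk`. TAME: for `τ ∈ inr L v`: `kk (a i) τ = ord v (a i) * kk (pi v) τ` (`kk_inr`), so `m i j * x_i * x_j = 0` (`H.dis`), so by induction `ρ (τ) ^ k = (k x, k y)` (second coordinate: `m i j * (k x_i) * x_j = 0`) and `ρ τ ^ p = 1` (`CharP.cast_eq_zero`).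
`hur`: `ρ (L.t v) = ((ord v (a i)), 0)`: `kk (a i) (L.t v) = ord v (a i)` (`gtw_t`, `ld_kk_t`, see `rho_flip` in `RLin.lean`), `H.tz`. `iv e (ρ F) (ρ t) = IV v`: `Fr.kf`: `kk (a i) (F v) = LL v (a i)`; unfold `iv`, `te`; `y = 0` for `t`. So the sum of `IV v` is `0`.
-/

set_option autoImplicit false

open scoped NumberField
open IsDedekindDomain
open scoped Classical

noncomputable section

namespace H51.CUB

open H63.MA H38.BB H38.BG H57.PC H57.BRA

/-- three additive coordinates and their products -/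
@[ext] structure GX (p : ℕ) (m : Fin 3 → Fin 3 → ZMod p) where
  x : Fin 3 → ZMod p
  y : Fin 3 → Fin 3 → ZMod p

instance (p : ℕ) (m : Fin 3 → Fin 3 → ZMod p) : Group (GX p m) where
  mul a b := ⟨a.x + b.x, fun i j => a.y i j + b.y i j + m i j * a.x i * b.x j⟩
  one := ⟨0, 0⟩
  inv a := ⟨-a.x, fun i j => -a.y i j + m i j * a.x i * a.x j⟩
  mul_assoc a b c := by
    change (⟨a.x + b.x + c.x, fun i j => a.y i j + b.y i j + m i j * a.x i * b.x j + c.y i j +
      m i j * (a.x i + b.x i) * c.x j⟩ : GX p m) =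
      ⟨a.x + (b.x + c.x), fun i j => a.y i j + (b.y i j + c.y i j + m i j * b.x i * c.x j) +
        m i j * a.x i * (b.x j + c.x j)⟩
    rw [add_assoc]
    congr 1
    funext i j
    ring
  one_mul a := by
    change (⟨0 + a.x, fun i j => 0 + a.y i j + m i j * 0 * a.x j⟩ : GX p m) = a
    simp
  mul_one a := by
    change (⟨a.x + 0, fun i j => a.y i j + 0 + m i j * a.x i * 0⟩ : GX p m) = a
    simp
  inv_mul_cancel a := by
    change (⟨-a.x + a.x, fun i j => -a.y i j + m i j * a.x i * a.x j + a.y i j +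
      m i j * (-a.x i) * a.x j⟩ : GX p m) = ⟨0, fun _ _ => 0⟩
    rw [neg_add_cancel]
    congr 1
    funext i j
    ring

/-- functions of weight 3 -/
def te {p : ℕ} {m : Fin 3 → Fin 3 → ZMod p} (A B C : Fin 3 → Fin 3 → Fin 3 → ZMod p)
    (r s : GX p m) : ZMod p :=
  ∑ i, ∑ j, ∑ k, (A i j k * r.x i * s.y j k + B i j k * r.y i j * s.x k +
    C i j k * r.x i * r.x j * s.x k)

private theorem gx_mul {p : ℕ} {m : Fin 3 → Fin 3 → ZMod p} (a b : GX p m) :
    a * b = ⟨a.x + b.x, fun i j => a.y i j + b.y i j + m i j * a.x i * b.x j⟩ := rfl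

private theorem gx_one {p : ℕ} {m : Fin 3 → Fin 3 → ZMod p} : (1 : GX p m) = ⟨0, 0⟩ := rfl

private theorem gx_pow {p : ℕ} {m : Fin 3 → Fin 3 → ZMod p} (a : GX p m)
    (h : ∀ i j, m i j * a.x i * a.x j = 0) (k : ℕ) :
    a ^ k = ⟨fun i => (k : ZMod p) * a.x i, fun i j => (k : ZMod p) * a.y i j⟩ := by
  induction k with
  | zero =>
    rw [pow_zero, gx_one]
    congr 1
    · funext i
      rw [Nat.cast_zero, zero_mul]
      rfl
    · funext i j
      rw [Nat.cast_zero, zero_mul]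
      rfl
  | succ k ih =>
    rw [pow_succ, ih, gx_mul]
    congr 1
    · funext i
      rw [Pi.add_apply, Nat.cast_succ]
      ring
    · funext i j
      show (k : ZMod p) * a.y i j + a.y i j + m i j * ((k : ZMod p) * a.x i) * a.x j = _
      rw [Nat.cast_succ]
      linear_combination (k : ZMod p) * h i j

private theorem gx_finite {p : ℕ} [NeZero p] {m : Fin 3 → Fin 3 → ZMod p} : Finite (GX p m) := by
  have h : Function.Injective (fun a : GX p m => (a.x, a.y)) := by
    intro a b hab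
    exact GX.ext (congrArg Prod.fst hab) (congrArg Prod.snd hab)
  exact Finite.of_injective _ h

theorem te_coc {p : ℕ} {m : Fin 3 → Fin 3 → ZMod p} {A B C : Fin 3 → Fin 3 → Fin 3 → ZMod p}
    (h : ∀ i j k, A i j k * m j k = B i j k * m i j + C i j k + C j i k) :
    Coc p (te (m := m) A B C) := by
  refine ⟨fun a => ?_, fun a => ?_, fun a b c => ?_⟩
  · unfold te
    refine Finset.sum_eq_zero fun i _ => Finset.sum_eq_zero fun j _ =>
      Finset.sum_eq_zero fun k _ => ?_
    have h1 : (1 : GX p m).x = 0 := rfl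
    have h2 : (1 : GX p m).y = 0 := rfl
    rw [h1, h2]
    simp only [Pi.zero_apply, mul_zero, zero_mul, add_zero]
  · unfold te
    refine Finset.sum_eq_zero fun i _ => Finset.sum_eq_zero fun j _ =>
      Finset.sum_eq_zero fun k _ => ?_
    have h1 : (1 : GX p m).x = 0 := rfl
    have h2 : (1 : GX p m).y = 0 := rfl
    rw [h1, h2]
    simp only [Pi.zero_apply, mul_zero, add_zero]
  · have hx : ∀ r s : GX p m, (r * s).x = r.x + s.x := fun _ _ => rfl
    have hy : ∀ (r s : GX p m) i j, (r * s).y i j = r.y i j + s.y i j + m i j * r.x i * s.x j :=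
      fun _ _ _ _ => rfl
    have h1 : te A B C b c + te A B C a (b * c) - te A B C (a * b) c - te A B C a b =
        ∑ i, ∑ j, ∑ k, ((A i j k * m j k - B i j k * m i j - C i j k) * a.x i * b.x j * c.x k -
          C i j k * b.x i * a.x j * c.x k) := by
      unfold te
      simp only [← Finset.sum_add_distrib, ← Finset.sum_sub_distrib]
      refine Finset.sum_congr rfl fun i _ => Finset.sum_congr rfl fun j _ =>
        Finset.sum_congr rfl fun k _ => ?_
      rw [hx, hx, hy, hy]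
      simp only [Pi.add_apply]
      ring
    have h2 : ∑ i, ∑ j, ∑ k, C i j k * b.x i * a.x j * c.x k =
        ∑ i, ∑ j, ∑ k, C j i k * b.x j * a.x i * c.x k := Finset.sum_comm
    have h3 : ∑ i, ∑ j, ∑ k, ((A i j k * m j k - B i j k * m i j - C i j k) * a.x i * b.x j *
        c.x k - C i j k * b.x i * a.x j * c.x k) = 0 := by
      simp only [Finset.sum_sub_distrib]
      rw [h2]
      simp only [← Finset.sum_sub_distrib]
      refine Finset.sum_eq_zero fun i _ => Finset.sum_eq_zero fun j _ =>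
        Finset.sum_eq_zero fun k _ => ?_
      linear_combination (a.x i * b.x j * c.x k) * h i j k
    rw [h3] at h1
    linear_combination h1

variable {K : Type} [Field K] [NumberField K] {p : ℕ} {ζ : K} {Ω : Type} [Field Ω] [Algebra K Ω]

/-- three Kummer characters and functions with coboundaries their products -/
structure TriH {D : RD0 K p ζ} (L : LDs D Ω) (a : Fin 3 → Kˣ) (m : Fin 3 → Fin 3 → ZMod p)
    (Y : Fin 3 → Fin 3 → Gal(Ω/K) → ZMod p) : Prop where
  lev : ∀ i j, Lev (Y i j)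
  add : ∀ i j g h, Y i j (g * h) = Y i j g + Y i j h + m i j * kk p ζ (a i) g * kk p ζ (a j) h
  tz : ∀ i j v, v ∉ D.S0 → Y i j (L.t v) = 0
  dis : ∀ i j v, v ∉ D.S0 → m i j * ((ord v (a i) : ℤ) : ZMod p) * ((ord v (a j) : ℤ) : ZMod p) = 0

/-- the local invariant -/
def IV {D : RD0 K p ζ} {L : LDs D Ω} (Fr : FR L) (a : Fin 3 → Kˣ)
    (A B C : Fin 3 → Fin 3 → Fin 3 → ZMod p) (Y : Fin 3 → Fin 3 → Gal(Ω/K) → ZMod p) (v : Pl K) :
    ZMod p :=
  ∑ i, ∑ j, ∑ k, (B i j k * Y i j (Fr.F v) * ((ord v (a k) : ℤ) : ZMod p) +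
    C i j k * D.LL v (a i) * D.LL v (a j) * ((ord v (a k) : ℤ) : ZMod p) -
    A i j k * ((ord v (a i) : ℤ) : ZMod p) * Y j k (Fr.F v) -
    C i j k * ((ord v (a i) : ℤ) : ZMod p) * ((ord v (a j) : ℤ) : ZMod p) * D.LL v (a k))

theorem br_tri [IsAlgClosure K Ω] (hp : p.Prime) (hp2 : MOne p K) (hζ : IsPrimitiveRoot ζ p)
    (hz : Z2 p K) {D : RD0 K p ζ} {L : LDs D Ω} (Fr : FR L) (a : Fin 3 → Kˣ)
    (m : Fin 3 → Fin 3 → ZMod p) (A B C : Fin 3 → Fin 3 → Fin 3 → ZMod p)
    (hABC : ∀ i j k, A i j k * m j k = B i j k * m i j + C i j k + C j i k)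
    (Y : Fin 3 → Fin 3 → Gal(Ω/K) → ZMod p) (H : TriH L a m Y) {n : ℕ} (c : Fin n → Kˣ)
    (hc : ∀ i, PS p ζ D.S0 (c i))
    (hk : ∀ g h, (∀ i, kk p ζ (c i) g = 0) → (∀ i, kk p ζ (c i) h = 0) →
      ∑ i, ∑ j, ∑ k, (A i j k * kk p ζ (a i) g * Y j k h + B i j k * Y i j g * kk p ζ (a k) h +
        C i j k * kk p ζ (a i) g * kk p ζ (a j) g * kk p ζ (a k) h) = 0)
    (T : Finset (Pl K)) (hT : ∀ v ∈ T, v ∉ D.S0)
    (hur : ∀ v, v ∉ D.S0 → v ∉ T → ∀ i, ((ord v (a i) : ℤ) : ZMod p) = 0)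
    (hnp : ∀ v ∈ T, ¬ (nm v).Prime → IV Fr a A B C Y v = 0) :
    ∑ v ∈ T, IV Fr a A B C Y v = 0 := by
  have hne : NeZero p := ⟨hp.ne_zero⟩
  have hfin : Finite (GX p m) := gx_finite
  have hkt : ∀ (x : Kˣ) (v : Pl K), v ∉ D.S0 → kk p ζ x (L.t v) = ((ord v x : ℤ) : ZMod p) := by
    intro x v hv
    rw [gtw_t L v hv]
    exact ld_kk_t hp hζ (fun h => hv (D.above v h)) (D.pi_self v hv) (L.ld v hv) x
  let ρ : Gal(Ω/K) →* GX p m := MonoidHom.mk'
    (fun g => ⟨fun i => kk p ζ (a i) g, fun i j => Y i j g⟩) (by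
      intro g h
      rw [gx_mul]
      congr 1
      · funext i
        exact kk_mul _ _ _
      · funext i j
        exact H.add i j g h)
  have hρx : ∀ g i, (ρ g).x i = kk p ζ (a i) g := fun _ _ => rfl
  have hρy : ∀ g i j, (ρ g).y i j = Y i j g := fun _ _ _ => rfl
  have hft : H38.ML.FT ρ := by
    have h1 : Lev (fun (g : Gal(Ω/K)) i => kk p ζ (a i) g) :=
      glift_lev_pi (fun i g => kk p ζ (a i) g) fun i => gtriv_kk hp hζ (a i)
    have h2 : Lev (fun (g : Gal(Ω/K)) i j => Y i j g) :=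
      glift_lev_pi (fun i g j => Y i j g) fun i => glift_lev_pi (fun j g => Y i j g)
        fun j => H.lev i j
    obtain ⟨F, hF, h3⟩ := gtriv_lev h1 h2 (fun x y => (⟨x, y⟩ : GX p m))
    refine ⟨F, hF, fun u hu => ?_⟩
    have h4 := h3 1 u hu
    rw [one_mul] at h4
    rw [MonoidHom.mem_ker]
    have h5 : ρ u = ρ 1 := h4
    rw [h5, map_one]
  have htm : ∀ v, v ∉ D.S0 → ∀ τ ∈ inr L v, ρ τ ^ p = 1 := by
    intro v hv τ hτ
    rw [gx_pow, gx_one]
    · congr 1
      · funext i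
        rw [ZMod.natCast_self, zero_mul]
        rfl
      · funext i j
        rw [ZMod.natCast_self, zero_mul]
        rfl
    · intro i j
      rw [hρx, hρx, kk_inr hp hζ L v hv (a i) τ hτ, kk_inr hp hζ L v hv (a j) τ hτ]
      linear_combination (kk p ζ (D.pi v) τ) ^ 2 * H.dis i j v hv
  have hiv : ∀ v, v ∉ D.S0 → iv (te (m := m) A B C) (ρ (Fr.F v)) (ρ (L.t v)) =
      IV Fr a A B C Y v := by
    intro v hv
    unfold iv te IV
    simp only [← Finset.sum_sub_distrib]
    refine Finset.sum_congr rfl fun i _ => Finset.sum_congr rfl fun j _ =>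
      Finset.sum_congr rfl fun k _ => ?_
    simp only [hρx, hρy, Fr.kf v hv, hkt _ v hv, H.tz _ _ v hv]
    ring
  have hmain := br2 hp hp2 hζ hz Fr (te_coc (m := m) hABC) hft c hc ?_ htm T hT ?_ ?_
  · rw [← hmain]
    exact Finset.sum_congr rfl fun v hv => (hiv v (hT v hv)).symm
  · refine ⟨fun _ => 0, gtriv_const 0, fun g hg h hh => ?_⟩
    have h1 := hk g h hg hh
    show (0 : ZMod p) = 0 + 0 + te (m := m) A B C (ρ g) (ρ h)
    unfold te
    simp only [hρx, hρy]
    rw [h1, add_zero, add_zero]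
  · intro v hv hvT
    have h1 : ∀ i, kk p ζ (a i) (L.t v) = 0 := fun i => by rw [hkt _ v hv, hur v hv hvT i]
    rw [gx_one]
    refine GX.ext ?_ ?_
    · funext i
      rw [hρx, h1]
      rfl
    · funext i j
      rw [hρy, H.tz i j v hv]
      rfl
  · intro v hv hnpv
    rw [hiv v (hT v hv)]
    exact hnp v hv hnpv

end H51.CUB
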