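import Pool.Agent.H51.CUB.DIF
import Pool.Agent.H51.CUB.CHI
import Pool.Agent.H51.CUB.DSC
import Pool.Agent.H51.CUB.UNR

/-!
[H51 CUB CHR]  The characters of the primes of `M = K(c^{1/p})` attached to `Rho L (pi b / pi b') c Y` (150-200 lines). PROOF.

Fix `c`, `T`. `kf_ex`, `dsc_tc`, `dsc`, `dif` give `M`, `TC`, `dd M ≤ C (nr T)^p` and `P`. `P` is injective outside `S0` since `Over (P v) v` (`below_unique`). `lam` from `exists_rec_one M hp (mone_map hp2 M)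
(zM_prim hζ M)`: `IsRec` and `lam w = 1` if `nm w` is prime and `w` does not lie above `p`.
Let `b' , Q, Y, κ`. For `b ∈ Q`: `γ b : Mˣ` by `kf_kum`, and for `j : ZMod p`: `δ j b = γ b ^ κ.val * inc (pi b) ^ j.val`. Modulus (not depending on `j`):
`𝔤 b = span {p ^ 3} * (∏ v ∈ S0, v 𝓞 M) * (b 𝓞 M) * (b' 𝓞 M)` (`Ideal.map (algebraMap (𝓞 K) (𝓞 M))`): nonzero, `N 𝔤 b = C (nm b * nm b') ^ p` with `C` depending on `K, p, S0` only
(`Ideal.absNorm_map`-like, or `absNorm (I.map) = absNorm I ^ [M:K]`; only `≤` is needed). Orders (`dio_ord` with `d = pi b / pi b'`): for `w` over `v ∉ S0`, `v ≠ b, b'`: `(ord w (γ b) : ZMod p) = 0`, and `ord w (inc (pi b)) = e * ord v (pi b) = 0`; so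
the hypothesis of `chi_ex` holds (a prime `w` with `(ord w δ) ≠ 0`, not above `p`, divides `𝔤 b`), `χ j b` from `chi_ex`.
(zero) `P b` divides `𝔤 b`, so `χ (P b) = 0` (`RC.zero_of`). (value) for good `v ∉ T`, `LL v c = 0`, `v ≠ b, b'` (`v ∉ S0` as `v` is good; `(ord v c : ZMod p) = 0` as `v ∉ T`): `P v` does not divide `𝔤 b` (it lies over `v`, not over `S0, b, b'`),
`inc (pi v)` is a uniformiser at `P v`, `lam (P v) = 1` (`nm (P v) = nm v` is prime), so `χ j b (P v) = ep (B (P v) δ (inc (pi v)))`, and `B` is additive in `δ`: `B (P v) (γ b) (inc (pi v)) = kk (γ b) F' = Y b (F v)`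
(`dif`, `(ord (P v) (γ b)) = 0` by `dio_ord`), `B (P v) (inc (pi b)) (inc (pi v)) = kk (inc (pi b)) F' = kk (pi b) (F v) = LL v (pi b)` (`kf_inc`, `Fr.kf`); `κ.val`, `j.val` cast to `κ`, `j`.
(PN) let `b ≠ b₁` in `Q`. One of them is not `b'`; say `b ≠ b'` (the other case is symmetric with `κ r + j = 1` for `b₁`). `d = pi b / pi b'` has `ord b d = 1`, so by `dio_ord` there is `w` over `b` with `nm w = nm b` (prime), `ord w (γ b) = r` where
`κ r + j = 1` (`κ ≠ 0`), `ord w (inc (pi b)) = ord b (pi b) = 1`: `ord w (δ j b) = κ r + j = 1`; and `ord w (δ j b₁) = κ * 0 + j * ord b (pi b₁) = 0` (`b ≠ b₁, b'`). `chi_pn` with `w₀ = w`, `lam w = 1`.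
-/

set_option autoImplicit false

open scoped NumberField
open IsDedekindDomain
open scoped Classical

noncomputable section

namespace H51.CUB

open H63.MA H38.BB H38.BG H57.PC H57.TLS H36.QA

variable {K : Type} [Field K] [NumberField K] {p : ℕ} {ζ : K} {Ω : Type} [Field Ω] [Algebra K Ω]
  [IsAlgClosure K Ω]

section aux

variable {M : Type} [Field M] [NumberField M] [Algebra K M]

/-- the modulus, below -/
private def chrJ (D : RD0 K p ζ) (b b' : Pl K) : Ideal (𝓞 K) :=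
  Ideal.span {(p : 𝓞 K) ^ 3} * D.M0 * b.asIdeal * b'.asIdeal

private theorem chrJ_ne (hp : p.Prime) (D : RD0 K p ζ) (b b' : Pl K) : chrJ D b b' ≠ ⊥ := by
  have h1 : Ideal.span {(p : 𝓞 K) ^ 3} ≠ ⊥ := by
    rw [Ne, Ideal.span_singleton_eq_bot]
    exact pow_ne_zero 3 (Nat.cast_ne_zero.mpr hp.ne_zero)
  exact mul_ne_zero (mul_ne_zero (mul_ne_zero h1 D.M0_ne) b.ne_bot) b'.ne_bot

private theorem chr_eq {v b : Pl K} (h : v.asIdeal ∣ b.asIdeal) : v = b := by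
  rw [Ideal.dvd_iff_le] at h
  apply HeightOneSpectrum.ext
  exact (b.isMaximal.eq_of_le v.isPrime.ne_top h).symm

private theorem chrJ_dvd (D : RD0 K p ζ) (b b' v : Pl K) :
    v.asIdeal ∣ chrJ D b b' ↔ v ∈ D.S0 ∨ v = b ∨ v = b' := by
  constructor
  · intro h
    rcases v.prime.dvd_or_dvd h with h | h
    · rcases v.prime.dvd_or_dvd h with h | h
      · rcases v.prime.dvd_or_dvd h with h | h
        · left
          apply D.above
          rw [Ideal.dvd_iff_le, Ideal.span_singleton_le_iff_mem] at h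
          exact v.isPrime.mem_of_pow_mem 3 h
        · exact Or.inl ((D.M0_dvd v).mp h)
      · exact Or.inr (Or.inl (chr_eq h))
    · exact Or.inr (Or.inr (chr_eq h))
  · rintro (h | h | h)
    · exact (((D.M0_dvd v).mpr h).mul_left _).mul_right _ |>.mul_right _
    · rw [h]
      exact (dvd_mul_left _ _).mul_right _
    · rw [h]
      exact dvd_mul_left _ _

/-- the modulus -/
private def chrG (M : Type) [Field M] [NumberField M] [Algebra K M] (D : RD0 K p ζ)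
    (b b' : Pl K) : Ideal (𝓞 M) := (chrJ D b b').map (algebraMap (𝓞 K) (𝓞 M))

private theorem chrG_ne (hp : p.Prime) (D : RD0 K p ζ) (b b' : Pl K) : chrG M D b b' ≠ ⊥ := by
  intro h
  apply chrJ_ne hp D b b'
  unfold chrG at h
  rwa [Ideal.map_eq_bot_iff_of_injective (FaithfulSMul.algebraMap_injective (𝓞 K) (𝓞 M))] at h

private theorem chrG_dvd (D : RD0 K p ζ) (b b' v : Pl K) {w : Pl M} (hw : Over w v) :
    w.asIdeal ∣ chrG M D b b' ↔ v ∈ D.S0 ∨ v = b ∨ v = b' := by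
  rw [← chrJ_dvd D b b' v, Ideal.dvd_iff_le, Ideal.dvd_iff_le]
  unfold chrG
  rw [Ideal.map_le_iff_le_comap]
  have h1 : w.asIdeal.comap (algebraMap (𝓞 K) (𝓞 M)) = v.asIdeal := hw
  rw [h1]

private theorem chrG_p (D : RD0 K p ζ) (b b' : Pl K) :
    Ideal.span {(p : 𝓞 M) ^ 3} ∣ chrG M D b b' := by
  have h1 : Ideal.span {(p : 𝓞 M) ^ 3} =
      (Ideal.span {(p : 𝓞 K) ^ 3}).map (algebraMap (𝓞 K) (𝓞 M)) := by
    rw [Ideal.map_span, Set.image_singleton, map_pow, map_natCast]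
  rw [h1]
  unfold chrG chrJ
  rw [Ideal.map_mul, Ideal.map_mul, Ideal.map_mul]
  exact ((dvd_mul_right _ _).mul_right _).mul_right _

private theorem chrG_norm (D : RD0 K p ζ) (b b' : Pl K) (hd : Module.finrank K M = p) :
    (Ideal.absNorm (chrG M D b b') : ℝ) =
      ((Ideal.absNorm (Ideal.span {(p : 𝓞 K) ^ 3} * D.M0) : ℕ) : ℝ) ^ p *
        ((nm b : ℝ) * nm b') ^ p := by
  unfold chrG
  rw [Ideal.absNorm_algebraMap, ← IsFractionRing.finrank_eq (𝓞 K) K (𝓞 M) M, hd]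
  unfold chrJ nm
  rw [map_mul, map_mul, ← mul_pow]
  push_cast
  ring

end aux

theorem chr (hp : p.Prime) (hp2 : MOne p K) (hζ : IsPrimitiveRoot ζ p) (D : RD K p ζ)
    (L : LDs D.toRD0 Ω) (Fr : FR L) :
    ∃ C₀ : ℝ, 1 ≤ C₀ ∧ ∀ (c : Kˣ) (T : Finset (Pl K)), ¬ IsPow p c → (∀ v ∈ T, v ∉ D.S0) →
      (∀ v, v ∉ D.S0 → v ∉ T → ((ord v c : ℤ) : ZMod p) = 0) →
    ∃ (M : Type) (_ : Field M) (_ : NumberField M) (P : Pl K → Pl M),
      TC M (p * Module.finrank ℚ K) ∧ dd M ≤ C₀ * (nr T) ^ p ∧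
      (∀ v v', v ∉ D.S0 → v' ∉ D.S0 → P v = P v' → v = v') ∧
      (∀ v, D.Gd v → v ∉ T → D.LL v c = 0 → nm (P v) = nm v) ∧
      ∀ (κ : ZMod p), κ ≠ 0 → ∀ (b' : Pl K) (Q : Set (Pl K)),
        (D.Gd b' ∧ b' ∉ T ∧ D.LL b' c = 0) →
        (∀ b ∈ Q, D.Gd b ∧ b ∉ T ∧ D.LL b c = 0 ∧ D.q b = D.q b') →
        ∀ Y : Pl K → Gal(Ω/K) → ZMod p, (∀ b ∈ Q, Rho L (D.pi b / D.pi b') c (Y b)) →
        ∃ (𝔣 : Pl K → Ideal (𝓞 M)) (χ : ZMod p → ∀ b, RC M (𝔣 b)),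
          (∀ b ∈ Q, 𝔣 b ≠ ⊥ ∧ (Ideal.absNorm (𝔣 b) : ℝ) ≤ C₀ * ((nm b : ℝ) * nm b') ^ p) ∧
          (∀ j, ∀ b ∈ Q, (χ j b).χ (P b).asIdeal = 0 ∧ (χ j b).χ (P b').asIdeal = 0) ∧
          (∀ j, ∀ b ∈ Q, ∀ v, D.Gd v → v ∉ T → D.LL v c = 0 → v ≠ b → v ≠ b' →
            (χ j b).χ (P v).asIdeal = ep p (κ * Y b (Fr.F v) + j * D.LL v (D.pi b))) ∧
          (∀ j, ∀ b ∈ Q, ∀ b₁ ∈ Q, b ≠ b₁ → PN (prc (χ j b) (χ j b₁))) := by
  haveI : Fact p.Prime := ⟨hp⟩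
  haveI : NeZero p := ⟨hp.ne_zero⟩
  obtain ⟨C1, hC1, hdsc⟩ := dsc hp hζ D.toRD0 L
  obtain ⟨C2, hC2⟩ : ∃ C2 : ℝ,
      C2 = ((Ideal.absNorm (Ideal.span {(p : 𝓞 K) ^ 3} * D.M0) : ℕ) : ℝ) ^ p := ⟨_, rfl⟩
  refine ⟨max C1 C2, hC1.trans (le_max_left _ _), fun c T hc hT hcT => ?_⟩
  obtain ⟨M, hfd, hnf, hnorm, hM, ⟨hK⟩⟩ := kf_ex Ω hp hζ c hc
  obtain ⟨P, hP1, hP2⟩ := dif hp hζ L Fr hM hK
  have hnr : 0 ≤ nr T := Finset.prod_nonneg fun v _ => Nat.cast_nonneg _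
  refine ⟨M, inferInstance, hnf, P, dsc_tc hp hp2 hζ M hM, ?_, ?_, ?_, ?_⟩
  · exact (hdsc c T hT hcT M hM).trans
      (mul_le_mul_of_nonneg_right (le_max_left _ _) (pow_nonneg hnr p))
  · intro v v' hv hv' h
    have h1 := hP1 v hv
    rw [h] at h1
    exact below_unique h1 (hP1 v' hv')
  · intro v hG hvT hL
    exact (hP2 v hG.1 (hcT v hG.1 hvT) hL).1
  intro κ hκ b' Q hb' hQ Y hY
  have hzM := zM_prim hζ M
  obtain ⟨lam, hlam, hlam1⟩ := exists_rec_one M hp (mone_map hp2 M) hzM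
  have hγex : ∀ b : Pl K, ∃ γ : (M)ˣ, b ∈ Q → ∀ τ : Gal(Ω/M),
      kk p (zM ζ M) γ τ = Y b (τ.restrictScalars K) := by
    intro b
    by_cases hb : b ∈ Q
    · obtain ⟨γ, hγ⟩ := kf_kum hp hζ hM (hY b hb)
      exact ⟨γ, fun _ => hγ⟩
    · exact ⟨1, fun h => absurd h hb⟩
  choose γ hγ using hγex
  obtain ⟨δ, hδ⟩ : ∃ δ : ZMod p → Pl K → (M)ˣ, ∀ j b,
      δ j b = if b ∈ Q then γ b ^ κ.val * inc K M (D.pi b) ^ j.val else 1 := ⟨_, fun _ _ => rfl⟩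
  have hδQ : ∀ j, ∀ b ∈ Q, δ j b = γ b ^ κ.val * inc K M (D.pi b) ^ j.val := by
    intro j b hb
    rw [hδ, if_pos hb]
  have hord : ∀ j, ∀ b ∈ Q, ∀ w : Pl M, ((ord w (δ j b) : ℤ) : ZMod p) =
      κ * ((ord w (γ b) : ℤ) : ZMod p) + j * ((ord w (inc K M (D.pi b)) : ℤ) : ZMod p) := by
    intro j b hb w
    rw [hδQ j b hb, ord_mul, ord_pow, ord_pow]
    push_cast
    rw [ZMod.natCast_zmod_val, ZMod.natCast_zmod_val]
  have hdio := fun b (hb : b ∈ Q) => dio_ord hp hζ L hM hK (hY b hb) (γ b) (hγ b hb)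
  have hd0 : ∀ b ∈ Q, ∀ v, v ∉ D.S0 → v ≠ b → v ≠ b' → ord v (D.pi b / D.pi b') = 0 := by
    intro b hb v hv h1 h2
    rw [div_eq_mul_inv, ord_mul, ord_inv, D.pi_ne b v (hQ b hb).1.1 hv h1,
      D.pi_ne b' v hb'.1.1 hv h2, neg_zero, add_zero]
  have hg0 : ∀ b ∈ Q, ∀ v, v ∉ D.S0 → ord v (D.pi b / D.pi b') = 0 → ∀ w : Pl M, Over w v →
      ((ord w (γ b) : ℤ) : ZMod p) = 0 := by
    intro b hb v hv h1 w hw
    exact (hdio b hb).1 v hv (by rw [h1]; exact Int.cast_zero) w hw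
  have hi0 : ∀ b ∈ Q, ∀ v, v ∉ D.S0 → v ≠ b → ∀ w : Pl M, Over w v →
      ord w (inc K M (D.pi b)) = 0 := by
    intro b hb v hv h1 w hw
    obtain ⟨e, _, he⟩ := ord_inc hw
    rw [he, D.pi_ne b v (hQ b hb).1.1 hv h1, mul_zero]
  have hchi : ∀ j b, ∃ χ : RC M (chrG M D.toRD0 b b'),
      CH p (zM ζ M) (δ j b) (chrG M D.toRD0 b b') lam χ := by
    intro j b
    refine chi_ex hp hzM hlam (δ j b) _ (chrG_ne hp D.toRD0 b b') (chrG_p D.toRD0 b b') ?_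
    intro w hw hne
    obtain ⟨v, hv⟩ := exists_below (K := K) w
    rw [chrG_dvd D.toRD0 b b' v hv]
    by_contra hcon
    rw [not_or, not_or] at hcon
    apply hne
    by_cases hb : b ∈ Q
    · rw [hord j b hb w, hg0 b hb v hcon.1 (hd0 b hb v hcon.1 hcon.2.1 hcon.2.2) w hv,
        hi0 b hb v hcon.1 hcon.2.1 w hv, Int.cast_zero, mul_zero, mul_zero, add_zero]
    · rw [hδ, if_neg hb, ord_one, Int.cast_zero]
  choose χ hχ using hchi
  have hab : ∀ v, v ∉ D.S0 → ∀ w : Pl M, Over w v → ¬ Above p w := by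
    intro v hv w hw h
    exact hv (D.above v ((above_over hw p).mp h))
  refine ⟨fun b => chrG M D.toRD0 b b', χ, ?_, ?_, ?_, ?_⟩
  · intro b _
    refine ⟨chrG_ne hp D.toRD0 b b', ?_⟩
    rw [chrG_norm D.toRD0 b b' hM.deg, ← hC2]
    exact mul_le_mul_of_nonneg_right (le_max_right _ _) (by positivity)
  · intro j b hb
    have key : ∀ v, v ∉ D.S0 → (v = b ∨ v = b') → (χ j b).χ (P v).asIdeal = 0 := by
      intro v hv h1
      apply (χ j b).zero_of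
      intro hcop
      have h2 : (P v).asIdeal ∣ chrG M D.toRD0 b b' :=
        (chrG_dvd D.toRD0 b b' v (hP1 v hv)).mpr (Or.inr h1)
      have h3 := hcop.of_isCoprime_of_dvd_right h2
      rw [Ideal.isCoprime_iff_add, Ideal.add_eq_sup, sup_idem, Ideal.one_eq_top] at h3
      exact (P v).isPrime.ne_top h3
    exact ⟨key b (hQ b hb).1.1 (Or.inl rfl), key b' hb'.1.1 (Or.inr rfl)⟩
  · intro j b hb v hG hvT hL hvb hvb'
    have hvS := hG.1
    obtain ⟨h1, h2, F', hF', h3⟩ := hP2 v hvS (hcT v hvS hvT) hL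
    have h4 : ¬ (P v).asIdeal ∣ chrG M D.toRD0 b b' := by
      rw [chrG_dvd D.toRD0 b b' v (hP1 v hvS)]
      rintro (h | h | h)
      · exact hvS h
      · exact hvb h
      · exact hvb' h
    have h5 := (hχ j b).val (P v) h4 (inc K M (D.pi v)) (by rw [h2, D.pi_self v hvS])
    have h6 : lam (P v) = 1 := hlam1 _ (hab v hvS _ (hP1 v hvS)) (by rw [h1]; exact hG.2)
    have h7 : B p (zM ζ M) (P v) (δ j b) (inc K M (D.pi v)) =
        κ * Y b (Fr.F v) + j * D.LL v (D.pi b) := by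
      have hA := hab v hvS _ (hP1 v hvS)
      have e1 : ∀ (x y : (M)ˣ) (n : ℕ), B p (zM ζ M) (P v) (x ^ n) y =
          n * B p (zM ζ M) (P v) x y := by
        intro x y n
        have h := B_zpow_left hp hzM hA x y (n : ℤ)
        rw [zpow_natCast] at h
        rw [h]
        push_cast
        rfl
      rw [hδQ j b hb, B_mul_left hp hzM hA, e1, e1,
        ← h3 (γ b) (hg0 b hb v hvS (hd0 b hb v hvS hvb hvb') _ (hP1 v hvS)), hγ b hb, hF',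
        ← h3 (inc K M (D.pi b)) (by rw [hi0 b hb v hvS hvb _ (hP1 v hvS), Int.cast_zero]),
        kf_inc hp hζ M, hF', Fr.kf v hvS]
      rw [ZMod.natCast_zmod_val, ZMod.natCast_zmod_val]
    rw [h5, h6, one_mul, h7]
  · intro j b hb b₁ hb₁ hne
    have key : ∀ a ∈ Q, ∀ a₁ ∈ Q, a ≠ a₁ → a ≠ b' → ∃ w : Pl M, ¬ Above p w ∧ lam w = 1 ∧
        ((ord w (δ j a) : ℤ) : ZMod p) = 1 ∧ ((ord w (δ j a₁) : ℤ) : ZMod p) = 0 := by
      intro a ha a₁ ha₁ h1 h2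
      obtain ⟨hG, haT, haL, _⟩ := hQ a ha
      have hd1 : ord a (D.pi a / D.pi b') = 1 := by
        rw [div_eq_mul_inv, ord_mul, ord_inv, D.pi_self a hG.1, D.pi_ne b' a hb'.1.1 hG.1 h2]
        norm_num
      obtain ⟨w, hw1, hw2, hw3, hw4⟩ := (hdio a ha).2 a hG.1 (hcT a hG.1 haT) haL
        (by rw [hd1, Int.cast_one]; exact one_ne_zero) ((1 - j) / κ)
      have hA := hab a hG.1 w hw1
      refine ⟨w, hA, hlam1 w hA (by rw [hw2]; exact hG.2), ?_, ?_⟩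
      · rw [hord j a ha w, hw4, hw3, D.pi_self a hG.1, Int.cast_one]
        field_simp
        ring
      · rw [hord j a₁ ha₁ w, hg0 a₁ ha₁ a hG.1 (hd0 a₁ ha₁ a hG.1 h1 h2) w hw1,
          hi0 a₁ ha₁ a hG.1 h1 w hw1, Int.cast_zero, mul_zero, mul_zero, add_zero]
    by_cases hbb : b = b'
    · obtain ⟨w, hw1, hw2, hw3, hw4⟩ := key b₁ hb₁ b hb hne.symm
        (fun h => hne (hbb.trans h.symm))
      exact chi_pn hp hzM (chrG_ne hp D.toRD0 b b') (chrG_ne hp D.toRD0 b₁ b')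
        (chrG_p D.toRD0 b b') (chrG_p D.toRD0 b₁ b') (hχ j b) (hχ j b₁) w hw1 hw2
        (by rw [hw3, hw4]; exact zero_ne_one)
    · obtain ⟨w, hw1, hw2, hw3, hw4⟩ := key b hb b₁ hb₁ hne hbb
      exact chi_pn hp hzM (chrG_ne hp D.toRD0 b b') (chrG_ne hp D.toRD0 b₁ b')
        (chrG_p D.toRD0 b b') (chrG_p D.toRD0 b₁ b') (hχ j b) (hχ j b₁) w hw1 hw2
        (by rw [hw3, hw4]; exact one_ne_zero)

end H51.CUB
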