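import Pool.Agent.H57.TLS.Amp
import Pool.Agent.H51.CUB.CHR
import Pool.Agent.H51.CUB.BXA

/-!
[H51 CUB BX2]  The square property gives a saving (180-240 lines). PROOF.

Constants: `C₀` (`chr`), `c₁` (`gd_card`), `n = p [K : ℚ]`, `B` large (`C₀ Z ^ p ≤ Z ^ B`, `C₀ (4 Z²)^p ≤ Z ^ B`, `2 c₁ Z ≤ Z ^ B` for `Z ≥ 2`), `b = 2 c₁`; `amp n _ B b` (`H57/TLS/Amp`) gives `k, C`.
Split `G = ∑_r G_r` over `r ∈ ZMod p`, `G_r a b = G a b` if `LL b (pi a) = r`, else `0`. For fixed `r` let `S = ∑_{a ∈ Q₁} ∑_{b ∈ Q₂} G_r a b`. Cauchy: `‖S‖² ≤ #Q₂ ∑_b ‖∑_a G_r a b‖² = #Q₂ ∑_{a', a} ∑_b G_r a b * conj (G_r a' b)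
≤ #Q₂ ∑_{a'} ∑_a ‖∑_b G_r a b * conj (G_r a' b)‖` (`H57/TLS/Gcs` has these steps). FIX `a'`. `chr` with `c = A`, `T = S` (`¬ IsPow p A`): `M, P`, `dd M ≤ C₀ (nr S)^p ≤ C₀ Z₂^p`. Apply the last part of `chr` with base `b' := a'`, `Q := Q₁` (`a, a' ∉ S`, `LL a A = 0`, classes
equal), `Y a` from `box_rho2` (for `a = a'` take `Y a = 0`). Let `okb` = the `b ∈ Q₂` with `b ≠ a'`, `LL b (pi a') = r`. For `a ∈ Q₁`: either all products `G_r a b * conj (G_r a' b)` vanish, or choose `b₀` with `G_r a b₀ * conj (G_r a' b₀) ≠ 0`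
and put `u a = G a b₀ * conj (G a' b₀) * ep (- κ Y a (F b₀))` (`‖u a‖ = 1`). CLAIM: for all `b ∈ Q₂`: `G_r a b * conj (G_r a' b) = 1_(okb) b * u a * (1/p) ∑_j ep (- j r) χ j a (P b)`. If `b ∉ okb` the left side is `0`. If `b = a`: left side `0` (`C2.d`), `χ (P a) = 0`.
Else `χ j a (P b) = ep (κ Y a (F b) + j LL b (pi a))` (`LL b A = 0`, `b ∉ S`), and the sum over `j` gives the indicator of `LL b (pi a) = r` (`ep_sum`); if it holds then `G a b ≠ 0`, `G a' b ≠ 0` by `C2.n2` (from `b₀`), and for `a ≠ a'`, `b ≠ b₀` `C2.square` gives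
`G a b conj (G a' b) = G a b₀ conj (G a' b₀) ep (κ (Y (F b) - Y (F b₀)))` (multiply by the unimodular factor); `b = b₀` is clear; for `a = a'` both sides are `1`.
So `∑_a ‖∑_b ..‖ ≤ (1/p) ∑_j ∑_a ‖∑_{b ∈ okb} χ j a (P b)‖ ≤ C (#Q₁)^(1 - 1/(2k)) Z₂ (log Z₂)^n` by `amp` with `J = ↥Q₁`, `Q = P '' okb` (`P` injective, `nm (P b) = nm b`). Hence
`‖S‖² ≤ (2 c₁ Z₂) (2 c₁ Z₁) C (2 c₁ Z₁)^(1 - 1/(2k)) Z₂ (log Z₂)^n`, `‖S‖ ≤ C' Z₁ Z₂ Z₁^(-1/(4k)) (1 + log Z₂)^n`, `c = 1/(4k)`, `Z₁ ≥ T`.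
-/

set_option autoImplicit false

open scoped NumberField ComplexConjugate
open IsDedekindDomain
open scoped Classical

noncomputable section

namespace H51.CUB

open H63.MA H38.BB H38.BG H57.PC H57.TLS H36.QA

variable {K : Type} [Field K] [NumberField K] {p : ℕ} {ζ : K} {Ω : Type} [Field Ω] [Algebra K Ω]
  [IsAlgClosure K Ω]

/-- Cauchy: one variable is doubled -/
private theorem bx2_cs {α β : Type} (s : Finset α) (t : Finset β) (g : α → β → ℂ) :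
    ‖∑ a ∈ s, ∑ b ∈ t, g a b‖ ^ 2 ≤
      (t.card : ℝ) * ∑ a' ∈ s, ∑ a ∈ s, ‖∑ b ∈ t, g a b * conj (g a' b)‖ := by
  have h1 : ‖∑ a ∈ s, ∑ b ∈ t, g a b‖ ^ 2 ≤ (t.card : ℝ) * ∑ b ∈ t, ‖∑ a ∈ s, g a b‖ ^ 2 := by
    rw [Finset.sum_comm]
    have h2 : ‖∑ b ∈ t, ∑ a ∈ s, g a b‖ ≤ ∑ b ∈ t, ‖∑ a ∈ s, g a b‖ := norm_sum_le _ _
    have h3 := sq_sum_le_card_mul_sum_sq (s := t) (f := fun b => ‖∑ a ∈ s, g a b‖)
    exact (pow_le_pow_left₀ (norm_nonneg _) h2 2).trans h3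
  refine h1.trans (mul_le_mul_of_nonneg_left ?_ (Nat.cast_nonneg _))
  have h4 : ∀ b, ((‖∑ a ∈ s, g a b‖ ^ 2 : ℝ) : ℂ) = ∑ a' ∈ s, ∑ a ∈ s, g a b * conj (g a' b) := by
    intro b
    have h5 : ((‖∑ a ∈ s, g a b‖ ^ 2 : ℝ) : ℂ) = (∑ a ∈ s, g a b) * conj (∑ a ∈ s, g a b) := by
      rw [Complex.mul_conj, Complex.normSq_eq_norm_sq]
    rw [h5, map_sum, Finset.sum_mul_sum, Finset.sum_comm]
  have h6 : ((∑ b ∈ t, ‖∑ a ∈ s, g a b‖ ^ 2 : ℝ) : ℂ) =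
      ∑ a' ∈ s, ∑ a ∈ s, ∑ b ∈ t, g a b * conj (g a' b) := by
    rw [Complex.ofReal_sum]
    rw [Finset.sum_congr rfl fun b _ => h4 b]
    rw [Finset.sum_comm]
    refine Finset.sum_congr rfl fun a' _ => ?_
    rw [Finset.sum_comm]
  have h7 : 0 ≤ ∑ b ∈ t, ‖∑ a ∈ s, g a b‖ ^ 2 := Finset.sum_nonneg fun _ _ => by positivity
  have h8 : ∑ b ∈ t, ‖∑ a ∈ s, g a b‖ ^ 2 =
      ‖∑ a' ∈ s, ∑ a ∈ s, ∑ b ∈ t, g a b * conj (g a' b)‖ := by
    rw [← h6, Complex.norm_real, Real.norm_eq_abs, abs_of_nonneg h7]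
  rw [h8]
  refine (norm_sum_le _ _).trans (Finset.sum_le_sum fun a' _ => ?_)
  exact norm_sum_le _ _

/-- the function restricted to one value of the symbol -/
private def bgr (D : RD0 K p ζ) (G : Pl K → Pl K → ℂ) (r : ZMod p) (a b : Pl K) : ℂ :=
  if D.LL b (D.pi a) = r then G a b else 0

private theorem bx2_one (z : ℂ) (h : ‖z‖ = 1) : z * conj z = 1 := by
  rw [Complex.mul_conj, Complex.normSq_eq_norm_sq, h]
  simp

private theorem bx2_ep (hp : p.Prime) (x : ZMod p) : ep p (-x) * ep p x = 1 := by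
  rw [← ep_add hp, neg_add_cancel, ep_zero]

private theorem bx2_jsum (hp : p.Prime) [NeZero p] (r s t : ZMod p) :
    (1 / (p : ℂ)) * ∑ j : ZMod p, ep p (-(j * r)) * ep p (t + j * s) =
      if s = r then ep p t else 0 := by
  have h1 : ∀ j : ZMod p, ep p (-(j * r)) * ep p (t + j * s) = ep p t * ep p (j * (s - r)) := by
    intro j
    rw [← ep_add hp, ← ep_add hp]
    congr 1
    ring
  have hp0 : (p : ℂ) ≠ 0 := by exact_mod_cast hp.ne_zero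
  rw [Finset.sum_congr rfl fun j _ => h1 j, ← Finset.mul_sum, ep_sum hp]
  by_cases h : s = r
  · rw [if_pos h, if_pos (sub_eq_zero.2 h)]
    field_simp
  · rw [if_neg h, if_neg (sub_ne_zero.2 h)]
    ring

/-- the products over one pair are given by characters -/
private theorem bx2_u (hp : p.Prime) [NeZero p] (D : RD0 K p ζ) {L : LDs D Ω} (Fr : FR L)
    (κ : ZMod p) (A : Kˣ) (Q₁ Q₂ : Finset (Pl K)) (G : Pl K → Pl K → ℂ)
    (hC : C2 D Fr κ A Q₁ Q₂ G) (r : ZMod p) (a a' : Pl K) (ha : a ∈ Q₁) (ha' : a' ∈ Q₁)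
    (Y : Gal(Ω/K) → ZMod p) (hY : Rho L (D.pi a / D.pi a') A Y)
    (hY0 : a = a' → ∀ g, Y g = 0) (X : ZMod p → Pl K → ℂ) (hX0 : ∀ j, X j a = 0)
    (hXv : ∀ j, ∀ b ∈ Q₂, b ≠ a → b ≠ a' →
      X j b = ep p (κ * Y (Fr.F b) + j * D.LL b (D.pi a))) :
    ∃ u : ℂ, ‖u‖ ≤ 1 ∧ ∀ b ∈ Q₂, bgr D G r a b * conj (bgr D G r a' b) =
      if b ≠ a' ∧ D.LL b (D.pi a') = r then
        u * ((1 / (p : ℂ)) * ∑ j : ZMod p, ep p (-(j * r)) * X j b) else 0 := by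
  -- the value of the sum over `j`
  have hsum : ∀ b ∈ Q₂, b ≠ a → b ≠ a' → (1 / (p : ℂ)) * ∑ j : ZMod p, ep p (-(j * r)) * X j b =
      if D.LL b (D.pi a) = r then ep p (κ * Y (Fr.F b)) else 0 := by
    intro b hb h1 h2
    rw [← bx2_jsum hp r (D.LL b (D.pi a)) (κ * Y (Fr.F b))]
    rw [Finset.sum_congr rfl fun j _ => by rw [hXv j b hb h1 h2]]
  have hsum0 : (1 / (p : ℂ)) * ∑ j : ZMod p, ep p (-(j * r)) * X j a = 0 := by
    rw [Finset.sum_congr rfl fun j _ => by rw [hX0 j, mul_zero], Finset.sum_const_zero, mul_zero]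
  -- the trivial cases
  have htriv : ∀ b ∈ Q₂, ¬ (b ≠ a' ∧ D.LL b (D.pi a') = r) →
      bgr D G r a b * conj (bgr D G r a' b) = 0 := by
    intro b hb h
    have h0 : bgr D G r a' b = 0 := by
      unfold bgr
      by_cases h1 : D.LL b (D.pi a') = r
      · have h2 : b = a' := by
          by_contra h3
          exact h ⟨h3, h1⟩
        rw [if_pos h1]
        exact hC.d a' ha' b hb h2.symm
      · rw [if_neg h1]
    rw [h0, map_zero, mul_zero]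
  by_cases hex : ∃ b₀ ∈ Q₂, bgr D G r a b₀ * conj (bgr D G r a' b₀) ≠ 0
  · obtain ⟨b₀, hb₀, hne⟩ := hex
    have hn1 : bgr D G r a b₀ ≠ 0 := left_ne_zero_of_mul hne
    have hn2 : bgr D G r a' b₀ ≠ 0 := by
      intro h
      rw [h, map_zero, mul_zero] at hne
      exact hne rfl
    have hl1 : D.LL b₀ (D.pi a) = r := by
      by_contra h
      exact hn1 (if_neg h)
    have hl2 : D.LL b₀ (D.pi a') = r := by
      by_contra h
      exact hn2 (if_neg h)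
    have hG1 : G a b₀ ≠ 0 := by
      intro h
      apply hn1
      unfold bgr
      rw [if_pos hl1, h]
    have hG2 : G a' b₀ ≠ 0 := by
      intro h
      apply hn2
      unfold bgr
      rw [if_pos hl2, h]
    have hb1 : a ≠ b₀ := fun h => hG1 (hC.d a ha b₀ hb₀ h)
    have hb2 : a' ≠ b₀ := fun h => hG2 (hC.d a' ha' b₀ hb₀ h)
    have hN1 := hC.un a ha b₀ hb₀ hG1
    have hN2 := hC.un a' ha' b₀ hb₀ hG2
    refine ⟨G a b₀ * conj (G a' b₀) * ep p (-(κ * Y (Fr.F b₀))), ?_, ?_⟩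
    · rw [norm_mul, norm_mul, RCLike.norm_conj, hN1, hN2, ep_norm]
      norm_num
    · intro b hb
      by_cases hok : b ≠ a' ∧ D.LL b (D.pi a') = r
      · rw [if_pos hok]
        by_cases hba : b = a
        · subst hba
          rw [hsum0, mul_zero]
          have h0 : bgr D G r b b = 0 := by
            unfold bgr
            split_ifs
            · exact hC.d b ha b hb rfl
            · rfl
          rw [h0, zero_mul]
        · rw [hsum b hb hba hok.1]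
          by_cases hl : D.LL b (D.pi a) = r
          · rw [if_pos hl]
            have e1 : bgr D G r a b = G a b := if_pos hl
            have e2 : bgr D G r a' b = G a' b := if_pos hok.2
            rw [e1, e2]
            have hG3 : G a b ≠ 0 :=
              hC.n2 a ha b₀ hb₀ b hb hba (by rw [hl, hl1]) hG1
            have hG4 : G a' b ≠ 0 :=
              hC.n2 a' ha' b₀ hb₀ b hb hok.1 (by rw [hok.2, hl2]) hG2
            by_cases hbb : b = b₀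
            · subst hbb
              have e3 := bx2_ep hp (κ * Y (Fr.F b))
              linear_combination (-(G a b * conj (G a' b))) * e3
            · by_cases haa : a = a'
              · subst haa
                rw [hY0 rfl, hY0 rfl, mul_zero, neg_zero, ep_zero,
                  bx2_one _ (hC.un a ha b hb hG3), bx2_one _ hN1]
                norm_num
              · have hsq := hC.square a ha a' ha' b hb b₀ hb₀ haa hbb (by
                  intro x hx y hy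
                  rw [Finset.mem_insert, Finset.mem_singleton] at hx hy
                  rcases hx with rfl | rfl
                  · rcases hy with rfl | rfl
                    · exact ⟨fun h => hba h.symm, rfl⟩
                    · exact ⟨hb1, by rw [hl1, hl]⟩
                  · rcases hy with rfl | rfl
                    · exact ⟨fun h => hok.1 h.symm, by rw [hok.2, hl]⟩
                    · exact ⟨hb2, by rw [hl2, hl]⟩) hG3 Y hY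
                have e4 : G a b₀ * conj (G a' b₀) * conj (G a b₀ * conj (G a' b₀)) = 1 := by
                  apply bx2_one
                  rw [norm_mul, RCLike.norm_conj, hN1, hN2, mul_one]
                have e5 : ep p (κ * (Y (Fr.F b) - Y (Fr.F b₀))) =
                    ep p (-(κ * Y (Fr.F b₀))) * ep p (κ * Y (Fr.F b)) := by
                  rw [← ep_add hp]
                  congr 1
                  ring
                rw [e5] at hsq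
                linear_combination (G a b₀ * conj (G a' b₀)) * hsq -
                  (G a b * conj (G a' b)) * e4
          · rw [if_neg hl]
            have e1 : bgr D G r a b = 0 := if_neg hl
            rw [e1, zero_mul, mul_zero]
      · rw [if_neg hok]
        exact htriv b hb hok
  · refine ⟨0, by simp, fun b hb => ?_⟩
    have h0 : bgr D G r a b * conj (bgr D G r a' b) = 0 := by
      by_contra h
      exact hex ⟨b, hb, h⟩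
    rw [h0, zero_mul]
    split_ifs <;> rfl

/-- the zero function -/
private theorem bx2_rho0 (hp : p.Prime) (hζ : IsPrimitiveRoot ζ p) {D : RD0 K p ζ} (L : LDs D Ω)
    (A x : Kˣ) : Rho L (x / x) A fun _ => (0 : ZMod p) := by
  refine ⟨⟨⊥, inferInstance, fun σ u _ => rfl⟩, fun g h => ?_, fun v _ => rfl⟩
  rw [div_self', gkum_one_arg hp hζ g]
  ring

/-- the sum over `a` for a fixed `a'` -/
private theorem bx2_amp {n B k : ℕ} {b C₁ : ℝ}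
    (hamp : ∀ (F : Type) [Field F] [NumberField F], TC F n → ∀ Z : ℝ, 2 ≤ Z → dd F ≤ Z ^ B →
      ∀ (J : Type) [Fintype J] (𝔣 : J → Ideal (𝓞 F)) (χ : ∀ j, RC F (𝔣 j)),
      (Fintype.card J : ℝ) ≤ Z ^ B → (∀ j, 𝔣 j ≠ ⊥) →
      (∀ j, (Ideal.absNorm (𝔣 j) : ℝ) ≤ Z ^ B) → (∀ j j', j ≠ j' → PN (prc (χ j) (χ j'))) →
      ∀ (Q : Finset (Pl F)), (∀ v ∈ Q, Z < nm v ∧ (nm v : ℝ) ≤ 2 * Z) → (Q.card : ℝ) ≤ b * Z →
      ∀ y : Pl F → ℂ, (∀ v, ‖y v‖ ≤ 1) →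
        ∑ j, ‖∑ v ∈ Q, y v * (χ j).χ v.asIdeal‖ ≤
          C₁ * ((Fintype.card J : ℝ) ^ (1 - 1 / (2 * k : ℝ)) * (Z * Real.log Z ^ n)))
    (M : Type) [Field M] [NumberField M] (hTC : TC M n) {Z : ℝ} (hZ : 2 ≤ Z)
    (hdd : dd M ≤ Z ^ B) (P : Pl K → Pl M) (Q₁ okb : Finset (Pl K))
    (hinj : ∀ v ∈ okb, ∀ v' ∈ okb, P v = P v' → v = v')
    (hnm : ∀ v ∈ okb, nm (P v) = nm v) (hokb : ∀ v ∈ okb, Z < nm v ∧ (nm v : ℝ) ≤ 2 * Z)
    (hcard : (okb.card : ℝ) ≤ b * Z) (hcard1 : (Q₁.card : ℝ) ≤ Z ^ B)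
    (𝔣 : Pl K → Ideal (𝓞 M)) (χ : ∀ b, RC M (𝔣 b)) (h0 : ∀ b ∈ Q₁, 𝔣 b ≠ ⊥)
    (hN : ∀ b ∈ Q₁, (Ideal.absNorm (𝔣 b) : ℝ) ≤ Z ^ B)
    (hpn : ∀ b ∈ Q₁, ∀ b₁ ∈ Q₁, b ≠ b₁ → PN (prc (χ b) (χ b₁))) :
    ∑ a ∈ Q₁, ‖∑ v ∈ okb, (χ a).χ (P v).asIdeal‖ ≤
      C₁ * ((Q₁.card : ℝ) ^ (1 - 1 / (2 * k : ℝ)) * (Z * Real.log Z ^ n)) := by
  have hcJ : Fintype.card {x // x ∈ Q₁} = Q₁.card := Fintype.card_coe Q₁
  have h1 := hamp M hTC Z hZ hdd {x // x ∈ Q₁} (fun j => 𝔣 j.1) (fun j => χ j.1)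
    (by rw [hcJ]; exact hcard1) (fun j => h0 j.1 j.2) (fun j => hN j.1 j.2)
    (fun j j' hjj => hpn j.1 j.2 j'.1 j'.2 fun h => hjj (Subtype.ext h))
    (okb.image P) (by
      intro v hv
      obtain ⟨w, hw, rfl⟩ := Finset.mem_image.1 hv
      rw [hnm w hw]
      exact hokb w hw)
    ((by exact_mod_cast Finset.card_image_le : ((okb.image P).card : ℝ) ≤ okb.card).trans hcard)
    (fun _ => 1) (fun _ => by simp)
  rw [hcJ] at h1
  refine le_trans (le_of_eq ?_) h1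
  rw [← Finset.sum_coe_sort Q₁ (fun a => ‖∑ v ∈ okb, (χ a).χ (P v).asIdeal‖)]
  refine Finset.sum_congr rfl fun j _ => ?_
  rw [Finset.sum_image (fun v hv v' hv' h => hinj v hv v' hv' h)]
  simp

/-- the final inequality -/
private theorem bx2_fin (S c₁ C₁ Z₁ Z₂ T l q₁ q₂ : ℝ) (k n : ℕ) (hk : 1 ≤ k) (hc₁ : 1 ≤ c₁)
    (hC₁ : 1 ≤ C₁) (hT : 2 ≤ T) (h1 : T ≤ Z₁) (h2 : Z₁ ≤ Z₂) (hl : 0 ≤ l) (hS : 0 ≤ S)
    (hq₁ : 0 ≤ q₁) (hq₂ : 0 ≤ q₂)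
    (hq₁' : q₁ ≤ 2 * c₁ * Z₁) (hq₂' : q₂ ≤ 2 * c₁ * Z₂)
    (h : S ^ 2 ≤ q₂ * (q₁ * (C₁ * (q₁ ^ (1 - 1 / (2 * k : ℝ)) * (Z₂ * l ^ n))))) :
    S ≤ (2 * c₁) ^ 3 * C₁ * (Z₁ * Z₂) * T ^ (-(1 / (4 * k : ℝ))) * (1 + l) ^ n := by
  have hk' : (1 : ℝ) ≤ k := by exact_mod_cast hk
  have hZ₁ : 0 < Z₁ := by linarith
  have hZ₂ : 0 < Z₂ := by linarith
  have hT0 : 0 < T := by linarith
  have hd : (1 : ℝ) ≤ 2 * c₁ := by linarith
  have hd0 : (0 : ℝ) < 2 * c₁ := by linarith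
  have hexp : 0 ≤ 1 - 1 / (2 * k : ℝ) := by
    rw [sub_nonneg, div_le_one (by positivity)]; linarith
  have hexp1 : 1 - 1 / (2 * k : ℝ) ≤ 1 := by
    have : 0 ≤ 1 / (2 * k : ℝ) := by positivity
    linarith
  obtain ⟨E, hE⟩ : ∃ E : ℝ, E = T ^ (-(1 / (4 * k : ℝ))) := ⟨_, rfl⟩
  have hE0 : 0 < E := by rw [hE]; positivity
  have hE2 : Z₁ ^ (-(1 / (2 * k : ℝ))) ≤ E ^ 2 := by
    have e1 : E ^ 2 = T ^ (-(1 / (2 * k : ℝ))) := by
      rw [hE, ← Real.rpow_natCast, ← Real.rpow_mul hT0.le]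
      congr 1
      have : (k : ℝ) ≠ 0 := by positivity
      push_cast
      field_simp
      ring
    rw [e1]
    exact Real.rpow_le_rpow_of_nonpos hT0 h1 (by
      have : 0 ≤ 1 / (2 * k : ℝ) := by positivity
      linarith)
  have e2 : q₁ ^ (1 - 1 / (2 * k : ℝ)) ≤ 2 * c₁ * (Z₁ * E ^ 2) := by
    have e3 : q₁ ^ (1 - 1 / (2 * k : ℝ)) ≤ (2 * c₁ * Z₁) ^ (1 - 1 / (2 * k : ℝ)) :=
      Real.rpow_le_rpow hq₁ hq₁' hexp
    refine e3.trans ?_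
    rw [Real.mul_rpow hd0.le hZ₁.le]
    have e4 : (2 * c₁) ^ (1 - 1 / (2 * k : ℝ)) ≤ 2 * c₁ := by
      calc (2 * c₁) ^ (1 - 1 / (2 * k : ℝ)) ≤ (2 * c₁) ^ (1 : ℝ) :=
            Real.rpow_le_rpow_of_exponent_le hd hexp1
        _ = 2 * c₁ := Real.rpow_one _
    have e5 : Z₁ ^ (1 - 1 / (2 * k : ℝ)) ≤ Z₁ * E ^ 2 := by
      have e6 : Z₁ ^ (1 - 1 / (2 * k : ℝ)) = Z₁ * Z₁ ^ (-(1 / (2 * k : ℝ))) := by
        rw [sub_eq_add_neg, Real.rpow_add hZ₁, Real.rpow_one]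
      rw [e6]
      exact mul_le_mul_of_nonneg_left hE2 hZ₁.le
    exact mul_le_mul e4 e5 (by positivity) hd0.le
  have hln : 0 ≤ l ^ n := by positivity
  have e7 : S ^ 2 ≤ (2 * c₁ * Z₂) * ((2 * c₁ * Z₁) *
      (C₁ * ((2 * c₁ * (Z₁ * E ^ 2)) * (Z₂ * l ^ n)))) := by
    refine h.trans ?_
    have f1 : q₁ ^ (1 - 1 / (2 * k : ℝ)) * (Z₂ * l ^ n) ≤ (2 * c₁ * (Z₁ * E ^ 2)) * (Z₂ * l ^ n) :=
      mul_le_mul_of_nonneg_right e2 (by positivity)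
    have f2 : C₁ * (q₁ ^ (1 - 1 / (2 * k : ℝ)) * (Z₂ * l ^ n)) ≤
        C₁ * ((2 * c₁ * (Z₁ * E ^ 2)) * (Z₂ * l ^ n)) :=
      mul_le_mul_of_nonneg_left f1 (by linarith)
    have f0 : 0 ≤ q₁ ^ (1 - 1 / (2 * k : ℝ)) := Real.rpow_nonneg hq₁ _
    have f3 : q₁ * (C₁ * (q₁ ^ (1 - 1 / (2 * k : ℝ)) * (Z₂ * l ^ n))) ≤ (2 * c₁ * Z₁) *
        (C₁ * ((2 * c₁ * (Z₁ * E ^ 2)) * (Z₂ * l ^ n))) :=
      mul_le_mul hq₁' f2 (by positivity) (by positivity)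
    exact mul_le_mul hq₂' f3 (by positivity) (by positivity)
  obtain ⟨W, hW⟩ : ∃ W : ℝ, W = (2 * c₁) ^ 3 * C₁ := ⟨_, rfl⟩
  have hW1 : 1 ≤ W := by
    rw [hW]
    exact one_le_mul_of_one_le_of_one_le (one_le_pow₀ hd) hC₁
  have e8 : S ^ 2 ≤ W * ((Z₁ * Z₂ * E) ^ 2 * l ^ n) := by
    refine e7.trans (le_of_eq ?_)
    rw [hW]
    ring
  have e9 : l ^ n ≤ ((1 + l) ^ n) ^ 2 := by
    have g1 : l ^ n ≤ (1 + l) ^ n := pow_le_pow_left₀ hl (by linarith) n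
    have g2 : (1 : ℝ) ≤ (1 + l) ^ n := one_le_pow₀ (by linarith)
    nlinarith
  have e10 : S ^ 2 ≤ (W * (Z₁ * Z₂) * E * (1 + l) ^ n) ^ 2 := by
    have g1 : W * ((Z₁ * Z₂ * E) ^ 2 * l ^ n) ≤ W ^ 2 * ((Z₁ * Z₂ * E) ^ 2 * ((1 + l) ^ n) ^ 2) := by
      have g2 : W ≤ W ^ 2 := by nlinarith
      have g3 : (Z₁ * Z₂ * E) ^ 2 * l ^ n ≤ (Z₁ * Z₂ * E) ^ 2 * ((1 + l) ^ n) ^ 2 :=
        mul_le_mul_of_nonneg_left e9 (sq_nonneg _)
      exact mul_le_mul g2 g3 (by positivity) (by positivity)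
    refine (e8.trans g1).trans (le_of_eq ?_)
    ring
  rw [← hE, ← hW]
  exact (pow_le_pow_iff_left₀ hS (by positivity) (by norm_num)).1 e10

theorem box2 (hp : p.Prime) (hp2 : MOne p K) (hζ : IsPrimitiveRoot ζ p) (D : RD K p ζ)
    (L : LDs D.toRD0 Ω) (Fr : FR L) :
    ∃ (c C : ℝ) (n : ℕ), 0 < c ∧ 1 ≤ C ∧ ∀ (T Z₁ Z₂ : ℝ), 2 ≤ T → T ≤ Z₁ → Z₁ ≤ Z₂ →
      ∀ (A : Kˣ) (S : Finset (Pl K)), ¬ IsPow p A → (∀ v ∈ S, v ∉ D.S0) →
      (∀ v, v ∉ D.S0 → v ∉ S → ((ord v A : ℤ) : ZMod p) = 0) → nr S ≤ Z₂ →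
      ∀ Q₁ Q₂ : Finset (Pl K),
      (∀ v ∈ Q₁, D.Gd v ∧ v ∉ S ∧ D.LL v A = 0 ∧ Z₁ < nm v ∧ (nm v : ℝ) ≤ 2 * Z₁) →
      (∀ v ∈ Q₂, D.Gd v ∧ v ∉ S ∧ D.LL v A = 0 ∧ Z₂ < nm v ∧ (nm v : ℝ) ≤ 2 * Z₂) →
      (∀ v ∈ Q₁, ∀ v' ∈ Q₁, D.q v = D.q v' ∧ ∀ u ∈ S, D.LL u (D.pi v) = D.LL u (D.pi v')) →
      (∀ v ∈ Q₂, ∀ v' ∈ Q₂, D.q v = D.q v' ∧ ∀ u ∈ S, D.LL u (D.pi v) = D.LL u (D.pi v')) →
      ∀ κ : ZMod p, κ ≠ 0 → ∀ G : Pl K → Pl K → ℂ, (∀ a b, ‖G a b‖ ≤ 1) →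
        C2 D.toRD0 Fr κ A Q₁ Q₂ G →
        ‖∑ a ∈ Q₁, ∑ b ∈ Q₂, G a b‖ ≤ C * (Z₁ * Z₂) * T ^ (-c) * (1 + Real.log Z₂) ^ n := by
  have hn0 : NeZero p := ⟨hp.ne_zero⟩
  obtain ⟨C₀, hC₀, hchr⟩ := chr hp hp2 hζ D L Fr
  obtain ⟨c₁, hc₁, hcard⟩ := gd_card D.toRD0
  obtain ⟨n, hn⟩ : ∃ n, n = p * Module.finrank ℚ K := ⟨_, rfl⟩
  have hn0' : 0 < n := by
    rw [hn]
    exact Nat.mul_pos hp.pos Module.finrank_pos
  obtain ⟨e, he⟩ := pow_unbounded_of_one_lt C₀ (one_lt_two : (1 : ℝ) < 2)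
  obtain ⟨f, hf⟩ := pow_unbounded_of_one_lt (2 * c₁) (one_lt_two : (1 : ℝ) < 2)
  obtain ⟨B, hB⟩ : ∃ B, B = e + f + 4 * p + 1 := ⟨_, rfl⟩
  obtain ⟨k, hk, C₁, hC₁, hamp⟩ := amp n hn0' B (2 * c₁)
  have hk' : (1 : ℝ) ≤ k := by exact_mod_cast hk
  have hp1 : (1 : ℝ) ≤ p := by exact_mod_cast hp.one_lt.le
  have hW1 : 1 ≤ (2 * c₁) ^ 3 * C₁ :=
    one_le_mul_of_one_le_of_one_le (one_le_pow₀ (by linarith)) hC₁
  refine ⟨1 / (4 * k : ℝ), p * ((2 * c₁) ^ 3 * C₁), n, by positivity,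
    one_le_mul_of_one_le_of_one_le hp1 hW1, ?_⟩
  intro T Z₁ Z₂ hT h1 h2 A S hA hS hord hnr Q₁ Q₂ hQ₁ hQ₂ hcl₁ hcl₂ κ hκ G hG hC
  have hZ₂ : 2 ≤ Z₂ := by linarith
  have hZ₁ : 2 ≤ Z₁ := by linarith
  have hZ0 : (0 : ℝ) < Z₂ := by linarith
  have hZone : (1 : ℝ) ≤ Z₂ := by linarith
  have hc0 : ∀ m : ℕ, (2 : ℝ) ^ m ≤ Z₂ ^ m := fun m => pow_le_pow_left₀ (by norm_num) hZ₂ m
  have hq₁ : (Q₁.card : ℝ) ≤ 2 * c₁ * Z₁ := by
    have := hcard Q₁ (2 * Z₁) (by linarith) fun v hv => ⟨(hQ₁ v hv).1, (hQ₁ v hv).2.2.2.2⟩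
    linarith
  have hq₂ : (Q₂.card : ℝ) ≤ 2 * c₁ * Z₂ := by
    have := hcard Q₂ (2 * Z₂) (by linarith) fun v hv => ⟨(hQ₂ v hv).1, (hQ₂ v hv).2.2.2.2⟩
    linarith
  -- sizes
  have hnr0 : 0 ≤ nr S := by
    unfold nr
    exact Finset.prod_nonneg fun _ _ => Nat.cast_nonneg _
  have hB1 : C₀ * (4 * Z₂ ^ 2) ^ p ≤ Z₂ ^ B := by
    have g0 : 4 ≤ Z₂ ^ 2 := by nlinarith
    have g1 : 4 * Z₂ ^ 2 ≤ Z₂ ^ 4 := by
      have g9 := mul_le_mul_of_nonneg_right g0 (sq_nonneg Z₂)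
      have g8 : Z₂ ^ 4 = Z₂ ^ 2 * Z₂ ^ 2 := by ring
      rw [g8]
      exact g9
    have g2 : (4 * Z₂ ^ 2) ^ p ≤ (Z₂ ^ 4) ^ p := pow_le_pow_left₀ (by positivity) g1 p
    have g3 : C₀ ≤ Z₂ ^ e := he.le.trans (hc0 e)
    calc C₀ * (4 * Z₂ ^ 2) ^ p ≤ Z₂ ^ e * (Z₂ ^ 4) ^ p :=
          mul_le_mul g3 g2 (by positivity) (by positivity)
      _ = Z₂ ^ (e + 4 * p) := by rw [← pow_mul, ← pow_add]
      _ ≤ Z₂ ^ B := pow_le_pow_right₀ hZone (by omega)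
  have hB2 : (Q₁.card : ℝ) ≤ Z₂ ^ B := by
    have g1 : 2 * c₁ * Z₁ ≤ Z₂ ^ f * Z₂ :=
      mul_le_mul (hf.le.trans (hc0 f)) h2 (by linarith) (by positivity)
    refine hq₁.trans (g1.trans ?_)
    rw [← pow_succ]
    exact pow_le_pow_right₀ hZone (by omega)
  -- the field
  obtain ⟨M, fM, nM, P, hTC, hdd, hPinj, hPnm, hchi⟩ := hchr A S hA hS hord
  rw [← hn] at hTC
  have hdd' : dd M ≤ Z₂ ^ B := by
    refine hdd.trans (le_trans ?_ hB1)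
    have g1 : nr S ≤ 4 * Z₂ ^ 2 := by nlinarith
    exact mul_le_mul_of_nonneg_left (pow_le_pow_left₀ hnr0 g1 p) (by linarith)
  -- one value of the symbol
  have hr : ∀ r : ZMod p, ‖∑ a ∈ Q₁, ∑ b ∈ Q₂, bgr D.toRD0 G r a b‖ ≤
      (2 * c₁) ^ 3 * C₁ * (Z₁ * Z₂) * T ^ (-(1 / (4 * k : ℝ))) * (1 + Real.log Z₂) ^ n := by
    intro r
    have hcs := bx2_cs Q₁ Q₂ (bgr D.toRD0 G r)
    have hin : ∀ a' ∈ Q₁, ∑ a ∈ Q₁, ‖∑ b ∈ Q₂, bgr D.toRD0 G r a b * conj (bgr D.toRD0 G r a' b)‖ ≤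
        C₁ * ((Q₁.card : ℝ) ^ (1 - 1 / (2 * k : ℝ)) * (Z₂ * Real.log Z₂ ^ n)) := by
      intro a' ha'
      have ha1 := hQ₁ a' ha'
      have hYex : ∀ a, ∃ Y : Gal(Ω/K) → ZMod p, a ∈ Q₁ →
          (Rho L (D.pi a / D.pi a') A Y ∧ (a = a' → ∀ g, Y g = 0)) := by
        intro a
        by_cases haQ : a ∈ Q₁
        · by_cases haa : a = a'
          · subst haa
            exact ⟨fun _ => 0, fun _ => ⟨bx2_rho0 hp hζ L A (D.pi a), fun _ _ => rfl⟩⟩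
          · have ha2 := hQ₁ a haQ
            obtain ⟨Y, hY⟩ := box_rho2 hp hp2 hζ D.toRD0 L ha2.1.1 ha1.1.1
              (hcl₁ a haQ a' ha').1 A ha2.2.2.1 ha1.2.2.1 (by
                intro v hv hvA
                have hvS : v ∈ S := by
                  by_contra h
                  exact hvA (hord v hv h)
                exact (hcl₁ a haQ a' ha').2 v hvS)
            exact ⟨Y, fun _ => ⟨hY, fun h => absurd h haa⟩⟩
        · exact ⟨fun _ => 0, fun h => absurd h haQ⟩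
      choose Y hY using hYex
      obtain ⟨𝔣, χ, hf0, hχ0, hχv, hχp⟩ := hchi κ hκ a' (Q₁ : Set (Pl K))
        ⟨ha1.1, ha1.2.1, ha1.2.2.1⟩ (fun b hb => by
          have hb' := Finset.mem_coe.1 hb
          have h3 := hQ₁ b hb'
          exact ⟨h3.1, h3.2.1, h3.2.2.1, (hcl₁ b hb' a' ha').1⟩) Y
        (fun b hb => (hY b (Finset.mem_coe.1 hb)).1)
      obtain ⟨okb, hokb⟩ : ∃ okb : Finset (Pl K),
          okb = Q₂.filter fun b => b ≠ a' ∧ D.LL b (D.pi a') = r := ⟨_, rfl⟩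
      have hsub : ∀ v ∈ okb, v ∈ Q₂ := by
        intro v hv
        rw [hokb] at hv
        exact (Finset.mem_filter.1 hv).1
      -- one `a`
      have hone : ∀ a ∈ Q₁, ‖∑ b ∈ Q₂, bgr D.toRD0 G r a b * conj (bgr D.toRD0 G r a' b)‖ ≤
          (1 / (p : ℝ)) * ∑ j : ZMod p, ‖∑ v ∈ okb, (χ j a).χ (P v).asIdeal‖ := by
        intro a ha
        obtain ⟨u, hu, hub⟩ := bx2_u hp D.toRD0 Fr κ A Q₁ Q₂ G hC r a a' ha ha' (Y a)
          (hY a ha).1 (hY a ha).2 (fun j b => (χ j a).χ (P b).asIdeal)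
          (fun j => (hχ0 j a (Finset.mem_coe.2 ha)).1) (fun j b hb hba hba' => by
            have h3 := hQ₂ b hb
            exact hχv j a (Finset.mem_coe.2 ha) b h3.1 h3.2.1 h3.2.2.1 hba hba')
        rw [Finset.sum_congr rfl fun b hb => hub b hb, ← Finset.sum_filter, ← hokb,
          ← Finset.mul_sum, ← Finset.mul_sum, Finset.sum_comm]
        rw [norm_mul, norm_mul]
        have g1 : ‖(1 / (p : ℂ))‖ = 1 / (p : ℝ) := by
          rw [norm_div, norm_one, Complex.norm_natCast]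
        rw [g1]
        have g2 : ‖∑ j : ZMod p, ∑ b ∈ okb, ep p (-(j * r)) * (χ j a).χ (P b).asIdeal‖ ≤
            ∑ j : ZMod p, ‖∑ v ∈ okb, (χ j a).χ (P v).asIdeal‖ := by
          refine (norm_sum_le _ _).trans (Finset.sum_le_sum fun j _ => ?_)
          rw [← Finset.mul_sum, norm_mul, ep_norm, one_mul]
        have g3 : (0 : ℝ) ≤ 1 / (p : ℝ) := by positivity
        have g4 : 0 ≤ 1 / (p : ℝ) * ‖∑ j : ZMod p, ∑ b ∈ okb, ep p (-(j * r)) *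
            (χ j a).χ (P b).asIdeal‖ := mul_nonneg g3 (norm_nonneg _)
        calc ‖u‖ * (1 / (p : ℝ) * ‖∑ j : ZMod p, ∑ b ∈ okb, ep p (-(j * r)) *
              (χ j a).χ (P b).asIdeal‖)
            ≤ 1 * (1 / (p : ℝ) * ‖∑ j : ZMod p, ∑ b ∈ okb, ep p (-(j * r)) *
              (χ j a).χ (P b).asIdeal‖) := mul_le_mul_of_nonneg_right hu g4
          _ ≤ _ := by
              rw [one_mul]
              exact mul_le_mul_of_nonneg_left g2 g3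
      refine (Finset.sum_le_sum hone).trans ?_
      rw [← Finset.mul_sum, Finset.sum_comm]
      have hj : ∀ j : ZMod p, ∑ a ∈ Q₁, ‖∑ v ∈ okb, (χ j a).χ (P v).asIdeal‖ ≤
          C₁ * ((Q₁.card : ℝ) ^ (1 - 1 / (2 * k : ℝ)) * (Z₂ * Real.log Z₂ ^ n)) := by
        intro j
        refine bx2_amp hamp M hTC hZ₂ hdd' P Q₁ okb (fun v hv v' hv' hvv => ?_) (fun v hv => ?_)
          (fun v hv => ?_) ?_ hB2 𝔣 (χ j) (fun b hb => (hf0 b (Finset.mem_coe.2 hb)).1)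
          (fun b hb => ?_) (fun b hb b₁ hb₁ hbb => hχp j b (Finset.mem_coe.2 hb) b₁
            (Finset.mem_coe.2 hb₁) hbb)
        · exact hPinj v v' (hQ₂ v (hsub v hv)).1.1 (hQ₂ v' (hsub v' hv')).1.1 hvv
        · have h3 := hQ₂ v (hsub v hv)
          exact hPnm v h3.1 h3.2.1 h3.2.2.1
        · exact (hQ₂ v (hsub v hv)).2.2.2
        · have g1 : (okb.card : ℝ) ≤ Q₂.card := by
            exact_mod_cast Finset.card_le_card (fun v hv => hsub v hv)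
          exact g1.trans hq₂
        · refine ((hf0 b (Finset.mem_coe.2 hb)).2.trans (le_trans ?_ hB1))
          have g1 : (nm b : ℝ) * nm a' ≤ 4 * Z₂ ^ 2 := by
            have g2 := (hQ₁ b hb).2.2.2.2
            have g3 := ha1.2.2.2.2
            have g4 : (nm b : ℝ) * nm a' ≤ (2 * Z₁) * (2 * Z₁) :=
              mul_le_mul g2 g3 (Nat.cast_nonneg _) (by linarith)
            nlinarith
          exact mul_le_mul_of_nonneg_left (pow_le_pow_left₀ (by positivity) g1 p) (by linarith)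
      have hjs := Finset.sum_le_sum (s := (Finset.univ : Finset (ZMod p))) fun j _ => hj j
      rw [Finset.sum_const, Finset.card_univ, ZMod.card, nsmul_eq_mul] at hjs
      have g5 : (0 : ℝ) ≤ 1 / (p : ℝ) := by positivity
      refine (mul_le_mul_of_nonneg_left hjs g5).trans (le_of_eq ?_)
      have hp0 : (p : ℝ) ≠ 0 := by positivity
      field_simp
    have hin2 := Finset.sum_le_sum hin
    rw [Finset.sum_const, nsmul_eq_mul] at hin2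
    have hfin := hcs.trans (mul_le_mul_of_nonneg_left hin2 (Nat.cast_nonneg _))
    exact bx2_fin _ c₁ C₁ Z₁ Z₂ T (Real.log Z₂) Q₁.card Q₂.card k n hk hc₁ hC₁ hT h1 h2
      (Real.log_nonneg hZone) (norm_nonneg _) (Nat.cast_nonneg _) (Nat.cast_nonneg _) hq₁ hq₂ hfin
  -- the sum over the values
  have hsp : ∑ a ∈ Q₁, ∑ b ∈ Q₂, G a b = ∑ r : ZMod p, ∑ a ∈ Q₁, ∑ b ∈ Q₂, bgr D.toRD0 G r a b := by
    rw [Finset.sum_comm]
    rw [Finset.sum_comm (s := (Finset.univ : Finset (ZMod p)))]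
    have hsp1 : ∀ a b, ∑ r : ZMod p, bgr D.toRD0 G r a b = G a b := by
      intro a b
      unfold bgr
      rw [Finset.sum_ite_eq]
      exact if_pos (Finset.mem_univ _)
    rw [Finset.sum_comm]
    refine Finset.sum_congr rfl fun a _ => ?_
    rw [Finset.sum_comm]
    exact Finset.sum_congr rfl fun b _ => (hsp1 a b).symm
  rw [hsp]
  refine (norm_sum_le _ _).trans ((Finset.sum_le_sum fun r _ => hr r).trans (le_of_eq ?_))
  rw [Finset.sum_const, Finset.card_univ, ZMod.card, nsmul_eq_mul]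
  ring

end H51.CUB
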