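import Pool.Agent.H51.CUB.CHR
import Pool.Agent.H51.CUB.BXA

/-!
[H51 CUB BX3]  The cube property gives a saving (200-280 lines). PROOF.

Constants: `C₀` from `chr`, `c₁` from `gd_card`, `n = p * [K : ℚ]`, `B` large (`C₀ * (4 Z²) ^ p ≤ Z ^ B` for all `Z ≥ 2` and `2 c₁ Z ≤ Z ^ B`), `b = 2 c₁`; `tls n _ B b` gives `c, C`.
Split `G = ∑_r G_r` over `r = (r₁, r₂, r₃) ∈ (ZMod p)^3`, `G_r a b c = G a b c` if `LL b (pi a) = r₁`, `LL c (pi a) = r₂`, `LL c (pi b) = r₃`, else `0`. Fix `r` and apply `tls` to the types `↥Q₁, ↥Q₂, ↥Q₃` and `f = G_r`,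
with `Z₁' = 2 c₁ Z₁`, `Z₂' = 2 c₁ Z₂` (`card Q_i ≤ c₁ * 2 Z_i` by `gd_card`), `Z = Z₃`.
THE DATA `TL` for `a ≠ a'` and `b'`: `e = pi a / pi a'`, `T = {a, a'}`: `ord a e = 1`, so `e` is not a `p`-th power; `chr` for `e`, `T` gives `M, P` with `dd M ≤ C₀ (nm a nm a')^p ≤ Z ^ B`.
If `b' ∈ {a, a'}` or `LL b' (pi a) ≠ r₁` or `LL b' (pi a') ≠ r₁` then `q4 G_r a a' b b' c = 0` for all `b, c` (by `C3.d` or the definition of `G_r`): `okb = ∅`, everything trivial (`𝔣 = ⊤`, `m = 0`).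
Otherwise `okc` = the `c ∈ Q₃` with `c ≠ a, a', b'`, `LL c (pi a) = r₂ = LL c (pi a')`, `LL c (pi b') = r₃`; `okb` = the `b ∈ Q₂` with `b ≠ a, a'`, `LL b (pi a) = r₁ = LL b (pi a')` such that there is `c₀ ∈ okc` with `q4 G_r a a' b b' c₀ ≠ 0`
(choose one, `c₀(b)`). `zero`: `q4 ≠ 0` means that the four values of `G_r` are nonzero, so `c ∈ okc`, `b ∈ okb`. Let `Q` = the `b ∈ Q₂` with `b ≠ a, a'`, `LL b (pi a) = r₁ = LL b (pi a')` (it contains `b'` and `okb`): `LL b e = 0` (`ll_div`). `Y b` for `b ∈ Q`: `box_rho`, but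
`Y b = 0` for `b = b'` (`pi b / pi b' = 1`, `Rho L 1 e 0` holds). `chr` gives `𝔣, χ`. `m = p`, `w = 1/p`, index `i : Fin p` cast to `j : ZMod p`; for `b ∈ okb`: `u i b = ep (-(j * r₃)) * q4 G a a' b b' c₀ * ep (-(κ * Y b (F c₀)))`, `v = 1`, `χ i b = χ j b`,
`N 𝔣 ≤ C₀ (4 Z₂²)^p ≤ Z ^ B`. `P` is injective, `nm (P c) = nm c` for `c ∈ okc` (good, not in `T`, `LL c e = 0`). `pn` from `chr`.
`eq`: `b ∈ okb`, `c ∈ okc`. If `c = b`: the left side is `0` (`C3.d`) and `χ (P b) = 0`. If `c ≠ b`: `χ j b (P c) = ep (κ Y b (F c) + j LL c (pi b))` and `∑_j (1/p) ep (j (LL c (pi b) - r₃))` is `1` if `LL c (pi b) = r₃`, else `0` (`ep_sum`); in the second case the left side is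
`0` too. In the first case we need `q4 G a a' b b' c = q4 G a a' b b' c₀ * ep (κ (Y b (F c) - Y b (F c₀)))`: for `c = c₀` clear; `G a b c ≠ 0` by `C3.n3` from `G a b c₀ ≠ 0` (same symbols), the same for the other three; for `b ≠ b'` this is `C3.cube` times
`q4 (c₀)` (`|q4 (c₀)| = 1` by `C3.un`: `conj z * z = 1`); for `b = b'` both `q4` are `|G a b c|^2 |G a' b c|^2 = 1` and `Y b = 0`.
END: sum over the `p^3` values `r`: `C p^3 Z₁' Z₂' Z₃ (Z₁'^(-c) + Z₂'^(-c) (log Z₃)^n) ≤ C' Z₁ Z₂ Z₃ T^(-c) (1 + log Z₃)^n` (`Z_i' ≥ T`).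
-/

set_option autoImplicit false

open scoped NumberField ComplexConjugate
open IsDedekindDomain
open scoped Classical

noncomputable section

namespace H51.CUB

open H63.MA H38.BB H38.BG H57.PC H57.TLS H36.QA

variable {K : Type} [Field K] [NumberField K] {p : ℕ} {ζ : K} {Ω : Type} [Field Ω] [Algebra K Ω]
  [IsAlgClosure K Ω]

/-- the part of `G` with prescribed symbols -/
def gr (D : RD0 K p ζ) (G : Pl K → Pl K → Pl K → ℂ) (r₁ r₂ r₃ : ZMod p) (a b c : Pl K) : ℂ :=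
  if D.LL b (D.pi a) = r₁ ∧ D.LL c (D.pi a) = r₂ ∧ D.LL c (D.pi b) = r₃ then G a b c else 0

theorem gr_ne {D : RD0 K p ζ} {G : Pl K → Pl K → Pl K → ℂ} {r₁ r₂ r₃ : ZMod p} {a b c : Pl K}
    (h : gr D G r₁ r₂ r₃ a b c ≠ 0) :
    D.LL b (D.pi a) = r₁ ∧ D.LL c (D.pi a) = r₂ ∧ D.LL c (D.pi b) = r₃ ∧ G a b c ≠ 0 := by
  unfold gr at h
  split_ifs at h with h1
  · exact ⟨h1.1, h1.2.1, h1.2.2, h⟩
  · exact absurd rfl h

theorem gr_eq {D : RD0 K p ζ} {G : Pl K → Pl K → Pl K → ℂ} {r₁ r₂ r₃ : ZMod p} {a b c : Pl K}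
    (h1 : D.LL b (D.pi a) = r₁) (h2 : D.LL c (D.pi a) = r₂) (h3 : D.LL c (D.pi b) = r₃) :
    gr D G r₁ r₂ r₃ a b c = G a b c := if_pos ⟨h1, h2, h3⟩

theorem gr_norm {D : RD0 K p ζ} {G : Pl K → Pl K → Pl K → ℂ} (hG : ∀ a b c, ‖G a b c‖ ≤ 1)
    (r₁ r₂ r₃ : ZMod p) (a b c : Pl K) : ‖gr D G r₁ r₂ r₃ a b c‖ ≤ 1 := by
  unfold gr
  split_ifs
  · exact hG a b c
  · rw [norm_zero]
    exact zero_le_one

theorem gr_sum [NeZero p] (D : RD0 K p ζ) (G : Pl K → Pl K → Pl K → ℂ) (a b c : Pl K) :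
    ∑ r : ZMod p × ZMod p × ZMod p, gr D G r.1 r.2.1 r.2.2 a b c = G a b c := by
  rw [Finset.sum_eq_single (D.LL b (D.pi a), D.LL c (D.pi a), D.LL c (D.pi b))]
  · exact gr_eq rfl rfl rfl
  · rintro ⟨r₁, r₂, r₃⟩ - hr
    by_contra h
    obtain ⟨h1, h2, h3, -⟩ := gr_ne h
    apply hr
    rw [h1, h2, h3]
  · intro h
    exact absurd (Finset.mem_univ _) h

theorem q4_ne {f : Pl K → Pl K → Pl K → ℂ} {a a' b b' c : Pl K}
    (h : q4 f a a' b b' c ≠ 0) :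
    f a b c ≠ 0 ∧ f a' b c ≠ 0 ∧ f a b' c ≠ 0 ∧ f a' b' c ≠ 0 := by
  unfold q4 at h
  refine ⟨?_, ?_, ?_, ?_⟩
  · intro h0; apply h; rw [h0, zero_mul, zero_mul]
  · intro h0; apply h; rw [h0, map_zero, mul_zero, zero_mul]
  · intro h0; apply h; rw [h0, map_zero, zero_mul, mul_zero]
  · intro h0; apply h; rw [h0, mul_zero, mul_zero]

theorem q4_le {f : Pl K → Pl K → Pl K → ℂ} (hf : ∀ a b c, ‖f a b c‖ ≤ 1) (a a' b b' c : Pl K) :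
    ‖q4 f a a' b b' c‖ ≤ 1 := by
  unfold q4
  rw [norm_mul, norm_mul, norm_mul, RCLike.norm_conj, RCLike.norm_conj]
  exact mul_le_one₀ (mul_le_one₀ (hf a b c) (norm_nonneg _) (hf a' b c))
    (mul_nonneg (norm_nonneg _) (norm_nonneg _))
    (mul_le_one₀ (hf a b' c) (norm_nonneg _) (hf a' b' c))

theorem cj_one {z : ℂ} (h : ‖z‖ = 1) : conj z * z = 1 := by
  rw [← Complex.normSq_eq_conj_mul_self, Complex.normSq_eq_norm_sq, h]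
  norm_num

theorem b3_val {D : RD0 K p ζ} {L : LDs D Ω} {Fr : FR L} {κ : ZMod p} {Q₁ Q₂ Q₃ : Finset (Pl K)}
    {G : Pl K → Pl K → Pl K → ℂ} (hG : C3 D Fr κ Q₁ Q₂ Q₃ G) {r₁ r₂ r₃ : ZMod p}
    {a a' b b' c c₀ : Pl K} (ha : a ∈ Q₁) (ha' : a' ∈ Q₁) (hb : b ∈ Q₂) (hb' : b' ∈ Q₂)
    (hc : c ∈ Q₃) (hc₀ : c₀ ∈ Q₃) (haa : a ≠ a')
    (hca : c ≠ a) (hca' : c ≠ a') (hcb : c ≠ b) (hcb' : c ≠ b')
    (h1 : D.LL c (D.pi a) = r₂) (h2 : D.LL c (D.pi a') = r₂) (h3 : D.LL c (D.pi b) = r₃)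
    (h4 : D.LL c (D.pi b') = r₃) (hne : q4 (gr D G r₁ r₂ r₃) a a' b b' c₀ ≠ 0)
    {Y : Gal(Ω/K) → ZMod p} (hY0 : b = b' → ∀ g, Y g = 0)
    (hY : b ≠ b' → Rho L (D.pi b / D.pi b') (D.pi a / D.pi a') Y) :
    q4 (gr D G r₁ r₂ r₃) a a' b b' c =
      q4 (gr D G r₁ r₂ r₃) a a' b b' c₀ * ep p (κ * (Y (Fr.F c) - Y (Fr.F c₀))) := by
  obtain ⟨g1, g2, g3, g4⟩ := q4_ne hne
  obtain ⟨a1, a2, a3, a4⟩ := gr_ne g1
  obtain ⟨b1, b2, b3, b4⟩ := gr_ne g2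
  obtain ⟨c1, c2, c3, c4⟩ := gr_ne g3
  obtain ⟨d1, d2, d3, d4⟩ := gr_ne g4
  have nab : a ≠ b := fun h => a4 (hG.d a ha b hb c₀ hc₀ (Or.inl h))
  have nac : a ≠ c₀ := fun h => a4 (hG.d a ha b hb c₀ hc₀ (Or.inr (Or.inl h)))
  have nbc : b ≠ c₀ := fun h => a4 (hG.d a ha b hb c₀ hc₀ (Or.inr (Or.inr h)))
  have na'b : a' ≠ b := fun h => b4 (hG.d a' ha' b hb c₀ hc₀ (Or.inl h))
  have na'c : a' ≠ c₀ := fun h => b4 (hG.d a' ha' b hb c₀ hc₀ (Or.inr (Or.inl h)))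
  have nab' : a ≠ b' := fun h => c4 (hG.d a ha b' hb' c₀ hc₀ (Or.inl h))
  have nb'c : b' ≠ c₀ := fun h => c4 (hG.d a ha b' hb' c₀ hc₀ (Or.inr (Or.inr h)))
  have na'b' : a' ≠ b' := fun h => d4 (hG.d a' ha' b' hb' c₀ hc₀ (Or.inl h))
  have m1 : G a b c ≠ 0 := hG.n3 a ha b hb c₀ hc₀ c hc hca hcb (h1.trans a2.symm)
    (h3.trans a3.symm) a4
  have m2 : G a' b c ≠ 0 := hG.n3 a' ha' b hb c₀ hc₀ c hc hca' hcb (h2.trans b2.symm)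
    (h3.trans b3.symm) b4
  have m3 : G a b' c ≠ 0 := hG.n3 a ha b' hb' c₀ hc₀ c hc hca hcb' (h1.trans c2.symm)
    (h4.trans c3.symm) c4
  have m4 : G a' b' c ≠ 0 := hG.n3 a' ha' b' hb' c₀ hc₀ c hc hca' hcb' (h2.trans d2.symm)
    (h4.trans d3.symm) d4
  have e1 : q4 (gr D G r₁ r₂ r₃) a a' b b' c = q4 G a a' b b' c := by
    unfold q4
    rw [gr_eq a1 h1 h3, gr_eq b1 h2 h3, gr_eq c1 h1 h4, gr_eq d1 h2 h4]
  have e2 : q4 (gr D G r₁ r₂ r₃) a a' b b' c₀ = q4 G a a' b b' c₀ := by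
    unfold q4
    rw [gr_eq a1 a2 a3, gr_eq b1 b2 b3, gr_eq c1 c2 c3, gr_eq d1 d2 d3]
  rw [e1, e2]
  by_cases hbb : b = b'
  · subst hbb
    rw [hY0 rfl, hY0 rfl, sub_zero, mul_zero, ep_zero, mul_one]
    have f1 : ∀ z, z ∈ Q₃ → G a b z ≠ 0 → G a' b z ≠ 0 → q4 G a a' b b z = 1 := by
      intro z hz z1 z2
      unfold q4
      have u1 := cj_one (hG.un a ha b hb z hz z1)
      have u2 := cj_one (hG.un a' ha' b hb z hz z2)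
      calc G a b z * conj (G a' b z) * (conj (G a b z) * G a' b z)
          = (conj (G a b z) * G a b z) * (conj (G a' b z) * G a' b z) := by ring
        _ = 1 := by rw [u1, u2, one_mul]
    rw [f1 c hc m1 m2, f1 c₀ hc₀ a4 b4]
  · by_cases hcc : c = c₀
    · rw [hcc, sub_self, mul_zero, ep_zero, mul_one]
    · have hcube := hG.cube a ha a' ha' b hb b' hb' c hc c₀ hc₀ haa hbb hcc
        (by
          intro x hx y hy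
          rw [Finset.mem_insert, Finset.mem_singleton] at hx hy
          rcases hx with rfl | rfl <;> rcases hy with rfl | rfl
          · exact ⟨nab, rfl⟩
          · exact ⟨nab', c1.trans a1.symm⟩
          · exact ⟨na'b, b1.trans a1.symm⟩
          · exact ⟨na'b', d1.trans a1.symm⟩)
        (by
          intro x hx z hz
          rw [Finset.mem_insert, Finset.mem_singleton] at hx hz
          rcases hx with rfl | rfl <;> rcases hz with rfl | rfl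
          · exact ⟨hca.symm, rfl⟩
          · exact ⟨nac, a2.trans h1.symm⟩
          · exact ⟨hca'.symm, h2.trans h1.symm⟩
          · exact ⟨na'c, b2.trans h1.symm⟩)
        (by
          intro y hy z hz
          rw [Finset.mem_insert, Finset.mem_singleton] at hy hz
          rcases hy with rfl | rfl <;> rcases hz with rfl | rfl
          · exact ⟨hcb.symm, rfl⟩
          · exact ⟨nbc, a3.trans h3.symm⟩
          · exact ⟨hcb'.symm, h4.trans h3.symm⟩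
          · exact ⟨nb'c, c3.trans h3.symm⟩)
        m1 Y (hY hbb)
      have hn : ‖q4 G a a' b b' c₀‖ = 1 := by
        unfold q4
        rw [norm_mul, norm_mul, norm_mul, RCLike.norm_conj, RCLike.norm_conj,
          hG.un a ha b hb c₀ hc₀ a4, hG.un a' ha' b hb c₀ hc₀ b4, hG.un a ha b' hb' c₀ hc₀ c4,
          hG.un a' ha' b' hb' c₀ hc₀ d4]
        norm_num
      calc q4 G a a' b b' c
          = q4 G a a' b b' c * (conj (q4 G a a' b b' c₀) * q4 G a a' b b' c₀) := by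
            rw [cj_one hn, mul_one]
        _ = (q4 G a a' b b' c * conj (q4 G a a' b b' c₀)) * q4 G a a' b b' c₀ := by ring
        _ = q4 G a a' b b' c₀ * ep p (κ * (Y (Fr.F c) - Y (Fr.F c₀))) := by
            rw [hcube, mul_comm]

theorem rho_zero (hp : p.Prime) (hζ : IsPrimitiveRoot ζ p) {D : RD0 K p ζ} (L : LDs D Ω)
    (c : Kˣ) : Rho L 1 c (fun _ => 0) := by
  refine ⟨⟨⊥, inferInstance, fun _ _ _ => rfl⟩, fun g h => ?_, fun _ _ => rfl⟩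
  rw [gkum_one_arg hp hζ g, zero_mul, add_zero, add_zero]

theorem not_pow_div (hp : p.Prime) (D : RD0 K p ζ) {a a' : Pl K} (ha : a ∉ D.S0)
    (ha' : a' ∉ D.S0) (hne : a ≠ a') : ¬ IsPow p (D.pi a / D.pi a') := by
  rintro ⟨y, hy⟩
  have h1 := ord_div D ha ha' a ha
  rw [← hy, ord_pow, if_pos rfl, if_neg hne, sub_zero] at h1
  have h2 : (p : ℤ) ∣ 1 := ⟨ord a y, h1.symm⟩
  have h3 : p ∣ 1 := by exact_mod_cast h2
  exact hp.one_lt.ne' (Nat.dvd_one.1 h3)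

theorem b3_avg (hp : p.Prime) [NeZero p] (x : ZMod p) (z w : ℂ) (r y : ZMod p) :
    ∑ i : Fin p, (((1 : ℝ) / p : ℝ) : ℂ) *
      (ep p (-(((i : ℕ) : ZMod p) * r)) * z * w * 1 * ep p (y + ((i : ℕ) : ZMod p) * x)) =
      if x = r then z * w * ep p y else 0 := by
  have hp0 : (p : ℂ) ≠ 0 := by exact_mod_cast hp.ne_zero
  have h1 : ∀ i : Fin p, (((1 : ℝ) / p : ℝ) : ℂ) *
      (ep p (-(((i : ℕ) : ZMod p) * r)) * z * w * 1 * ep p (y + ((i : ℕ) : ZMod p) * x)) =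
      (1 / (p : ℂ)) * (z * w * ep p y) * ep p (((i : ℕ) : ZMod p) * (x - r)) := by
    intro i
    have h2 : ep p (((i : ℕ) : ZMod p) * (x - r)) =
        ep p (-(((i : ℕ) : ZMod p) * r)) * ep p (((i : ℕ) : ZMod p) * x) := by
      rw [← ep_add hp]
      congr 1
      ring
    rw [h2, ep_add hp]
    push_cast
    ring
  rw [Finset.sum_congr rfl fun i _ => h1 i, ← Finset.mul_sum]
  have h3 : ∑ i : Fin p, ep p (((i : ℕ) : ZMod p) * (x - r)) =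
      ∑ a : ZMod p, ep p (a * (x - r)) := by
    have hbij : Function.Bijective (fun i : Fin p => ((i : ℕ) : ZMod p)) := by
      rw [Fintype.bijective_iff_injective_and_card]
      refine ⟨fun i j h => ?_, by rw [Fintype.card_fin, ZMod.card]⟩
      have h1 : (((i : ℕ) : ZMod p)).val = (((j : ℕ) : ZMod p)).val := congrArg ZMod.val h
      rw [ZMod.val_natCast_of_lt i.2, ZMod.val_natCast_of_lt j.2] at h1
      exact Fin.ext h1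
    exact Fintype.sum_bijective _ hbij _ _ fun _ => rfl
  rw [h3, ep_sum hp]
  by_cases hx : x = r
  · rw [if_pos hx, if_pos (sub_eq_zero.2 hx)]
    field_simp
  · rw [if_neg hx, if_neg (fun h => hx (sub_eq_zero.1 h)), mul_zero]

theorem b3_tl (hp : p.Prime) (hp2 : MOne p K) (hζ : IsPrimitiveRoot ζ p) (D : RD K p ζ)
    (L : LDs D.toRD0 Ω) (Fr : FR L) :
    ∃ C₀ : ℝ, 1 ≤ C₀ ∧ ∀ (B : ℕ) (Z : ℝ), 2 ≤ Z → C₀ * (4 * Z ^ 2) ^ p ≤ Z ^ B →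
      ∀ Q₁ Q₂ Q₃ : Finset (Pl K),
      (∀ v ∈ Q₁, D.Gd v ∧ (nm v : ℝ) ≤ 2 * Z) →
      (∀ v ∈ Q₂, D.Gd v ∧ (nm v : ℝ) ≤ 2 * Z) →
      (∀ v ∈ Q₃, D.Gd v ∧ Z < nm v ∧ (nm v : ℝ) ≤ 2 * Z) →
      (∀ v ∈ Q₁, ∀ v' ∈ Q₁, D.q v = D.q v') → (∀ v ∈ Q₂, ∀ v' ∈ Q₂, D.q v = D.q v') →
      ∀ κ : ZMod p, κ ≠ 0 → ∀ G : Pl K → Pl K → Pl K → ℂ, (∀ a b c, ‖G a b c‖ ≤ 1) →
        C3 D.toRD0 Fr κ Q₁ Q₂ Q₃ G → ∀ (r₁ r₂ r₃ : ZMod p) (a a' : ↥Q₁) (b' : ↥Q₂), a ≠ a' →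
        Nonempty (TL (p * Module.finrank ℚ K) B Z
          (fun (x : ↥Q₁) (y : ↥Q₂) (z : ↥Q₃) => gr D.toRD0 G r₁ r₂ r₃ x y z) a a' b') := by
  have : NeZero p := ⟨hp.ne_zero⟩
  obtain ⟨C₀, hC₀, hchr⟩ := chr hp hp2 hζ D L Fr
  refine ⟨C₀, hC₀, ?_⟩
  intro B Z hZ hB Q₁ Q₂ Q₃ hQ₁ hQ₂ hQ₃ hq₁ hq₂ κ hκ G hG1 hG r₁ r₂ r₃ a a' b' haa
  obtain ⟨a, ha⟩ := a
  obtain ⟨a', ha'⟩ := a'
  obtain ⟨b', hb'⟩ := b'
  have haa' : a ≠ a' := fun h => haa (Subtype.ext h)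
  have gda := (hQ₁ a ha).1
  have gda' := (hQ₁ a' ha').1
  have gdb' := (hQ₂ b' hb').1
  have hT : ∀ v, v ∉ ({a, a'} : Finset (Pl K)) ↔ v ≠ a ∧ v ≠ a' := by
    intro v
    rw [Finset.mem_insert, Finset.mem_singleton, not_or]
  obtain ⟨M, _, _, P, htc, hdd, hinj, hnm, hrest⟩ := hchr (D.pi a / D.pi a') {a, a'}
    (not_pow_div hp D.toRD0 gda.1 gda'.1 haa')
    (by
      intro v hv
      rw [Finset.mem_insert, Finset.mem_singleton] at hv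
      rcases hv with rfl | rfl
      · exact gda.1
      · exact gda'.1)
    (by
      intro v hv hvT
      obtain ⟨h1, h2⟩ := (hT v).1 hvT
      rw [ord_div D.toRD0 gda.1 gda'.1 v hv, if_neg h1, if_neg h2, sub_zero, Int.cast_zero])
  have hle2 : ∀ x y : ℝ, 0 ≤ x → 0 ≤ y → x ≤ 2 * Z → y ≤ 2 * Z → C₀ * (x * y) ^ p ≤ Z ^ B := by
    intro x y hx hy hxZ hyZ
    refine le_trans ?_ hB
    have h1 : x * y ≤ 4 * Z ^ 2 := by
      calc x * y ≤ (2 * Z) * (2 * Z) := mul_le_mul hxZ hyZ hy (by linarith)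
        _ = 4 * Z ^ 2 := by ring
    have h2 : (x * y) ^ p ≤ (4 * Z ^ 2) ^ p := pow_le_pow_left₀ (mul_nonneg hx hy) h1 p
    exact mul_le_mul_of_nonneg_left h2 (by linarith)
  have hdd' : dd M ≤ Z ^ B := by
    refine hdd.trans ?_
    have h1 : nr ({a, a'} : Finset (Pl K)) = (nm a : ℝ) * nm a' := by
      unfold nr
      rw [Finset.prod_pair haa']
    rw [h1]
    exact hle2 _ _ (Nat.cast_nonneg _) (Nat.cast_nonneg _) (hQ₁ a ha).2 (hQ₁ a' ha').2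
  have hll : ∀ v, v ∉ D.S0 → D.LL v (D.pi a) = D.LL v (D.pi a') →
      D.LL v (D.pi a / D.pi a') = 0 := by
    intro v hv h
    rw [ll_div hp hζ D.toRD0 hv, h, sub_self]
  by_cases htriv : b' ≠ a ∧ b' ≠ a' ∧ D.LL b' (D.pi a) = r₁ ∧ D.LL b' (D.pi a') = r₁
  swap
  · refine ⟨{
      L := M
      tc := htc
      disc := hdd'
      okb := ∅
      okc := ∅
      zero := ?_
      P := fun c => P c
      inj := fun c hc => absurd hc (Set.notMem_empty c)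
      nlo := fun c hc => absurd hc (Set.notMem_empty c)
      nhi := fun c hc => absurd hc (Set.notMem_empty c)
      m := 0
      w := fun _ => 0
      w0 := fun _ => le_refl _
      w1 := by simp
      u := fun _ _ => 0
      v := fun _ _ => 0
      u1 := fun _ _ => by simp
      v1 := fun _ _ => by simp
      𝔣 := fun _ _ => ⊤
      χ := fun i => i.elim0
      f0 := fun i => i.elim0
      fN := fun i => i.elim0
      pn := fun i => i.elim0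
      eq := fun b hb => absurd hb (Set.notMem_empty b) }⟩
    intro b c _
    by_contra h
    have h' : q4 (gr D.toRD0 G r₁ r₂ r₃) a a' b b' c ≠ 0 := h
    obtain ⟨-, -, h3, h4⟩ := q4_ne h'
    obtain ⟨c1, -, -, c4⟩ := gr_ne h3
    obtain ⟨d1, -, -, d4⟩ := gr_ne h4
    refine htriv ⟨?_, ?_, c1, d1⟩
    · intro h5
      exact c4 (hG.d a ha b' hb' c c.2 (Or.inl h5.symm))
    · intro h5
      exact d4 (hG.d a' ha' b' hb' c c.2 (Or.inl h5.symm))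
  obtain ⟨hb'a, hb'a', hr1, hr1'⟩ := htriv
  let Q : Set (Pl K) := {b | b ∈ Q₂ ∧ b ≠ a ∧ b ≠ a' ∧ D.LL b (D.pi a) = r₁ ∧
    D.LL b (D.pi a') = r₁}
  have hYex : ∀ b ∈ Q, ∃ Y : Gal(Ω/K) → ZMod p, (b = b' → ∀ g, Y g = 0) ∧
      Rho L (D.pi b / D.pi b') (D.pi a / D.pi a') Y := by
    intro b hb
    by_cases hbb : b = b'
    · refine ⟨fun _ => 0, fun _ _ => rfl, ?_⟩
      rw [hbb, div_self']
      exact rho_zero hp hζ L _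
    · obtain ⟨h1, h2, h3, h4, h5⟩ := hb
      obtain ⟨Y, hY⟩ := box_rho hp hp2 hζ D L gda gda' (hQ₂ b h1).1 gdb' (hq₁ a ha a' ha')
        (hq₂ b h1 b' hb') ⟨h2.symm, hb'a.symm, h3.symm, hb'a'.symm⟩ (h5.trans h4.symm)
        (hr1.trans h4.symm) (hr1'.trans h4.symm)
      exact ⟨Y, fun h => absurd h hbb, hY⟩
  choose! Y hY0 hY using hYex
  have hTb : ∀ b, D.Gd b → b ≠ a → b ≠ a' → D.LL b (D.pi a) = D.LL b (D.pi a') →
      D.Gd b ∧ b ∉ ({a, a'} : Finset (Pl K)) ∧ D.LL b (D.pi a / D.pi a') = 0 :=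
    fun b hb h1 h2 h3 => ⟨hb, (hT b).2 ⟨h1, h2⟩, hll b hb.1 h3⟩
  obtain ⟨𝔣, χ, hf, hz, hval, hpn⟩ := hrest κ hκ b' Q (hTb b' gdb' hb'a hb'a' (hr1.trans hr1'.symm))
    (by
      intro b hb
      obtain ⟨h1, h2, h3, h4, h5⟩ := hb
      obtain ⟨k1, k2, k3⟩ := hTb b (hQ₂ b h1).1 h2 h3 (h4.trans h5.symm)
      exact ⟨k1, k2, k3, hq₂ b h1 b' hb'⟩) Y hY
  let okc : Set ↥Q₃ := {c | (c : Pl K) ≠ a ∧ (c : Pl K) ≠ a' ∧ (c : Pl K) ≠ b' ∧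
    D.LL (c : Pl K) (D.pi a) = r₂ ∧ D.LL (c : Pl K) (D.pi a') = r₂ ∧
    D.LL (c : Pl K) (D.pi b') = r₃}
  let okb : Set ↥Q₂ := {b | (b : Pl K) ∈ Q ∧ ∃ c₀ : ↥Q₃, c₀ ∈ okc ∧
    q4 (gr D.toRD0 G r₁ r₂ r₃) a a' (b : Pl K) b' (c₀ : Pl K) ≠ 0}
  have hokc : ∀ c ∈ okc, D.Gd (c : Pl K) ∧ (c : Pl K) ∉ ({a, a'} : Finset (Pl K)) ∧
      D.LL (c : Pl K) (D.pi a / D.pi a') = 0 := by
    intro c hc
    obtain ⟨h1, h2, -, h4, h5, -⟩ := hc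
    exact hTb c (hQ₃ c c.2).1 h1 h2 (h4.trans h5.symm)
  have hPn : ∀ c ∈ okc, nm (P (c : Pl K)) = nm (c : Pl K) := by
    intro c hc
    obtain ⟨h1, h2, h3⟩ := hokc c hc
    exact hnm c h1 h2 h3
  have hzero : ∀ (b : ↥Q₂) (c : ↥Q₃),
      q4 (gr D.toRD0 G r₁ r₂ r₃) a a' (b : Pl K) b' (c : Pl K) ≠ 0 → b ∈ okb ∧ c ∈ okc := by
    intro b c h
    obtain ⟨g1, g2, g3, g4⟩ := q4_ne h
    obtain ⟨a1, a2, a3, a4⟩ := gr_ne g1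
    obtain ⟨b1, b2, b3, b4⟩ := gr_ne g2
    obtain ⟨c1, c2, c3, c4⟩ := gr_ne g3
    have hcok : c ∈ okc := by
      refine ⟨?_, ?_, ?_, a2, b2, c3⟩
      · intro h5
        exact a4 (hG.d a ha b b.2 c c.2 (Or.inr (Or.inl h5.symm)))
      · intro h5
        exact b4 (hG.d a' ha' b b.2 c c.2 (Or.inr (Or.inl h5.symm)))
      · intro h5
        exact c4 (hG.d a ha b' hb' c c.2 (Or.inr (Or.inr h5.symm)))
    refine ⟨⟨⟨b.2, ?_, ?_, a1, b1⟩, c, hcok, h⟩, hcok⟩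
    · intro h5
      exact a4 (hG.d a ha b b.2 c c.2 (Or.inl h5.symm))
    · intro h5
      exact b4 (hG.d a' ha' b b.2 c c.2 (Or.inl h5.symm))
  have hc0 : ∀ b : ↥Q₂, ∃ c₀ : Pl K, b ∈ okb → c₀ ∈ Q₃ ∧
      q4 (gr D.toRD0 G r₁ r₂ r₃) a a' (b : Pl K) b' c₀ ≠ 0 := by
    intro b
    by_cases hb : b ∈ okb
    · obtain ⟨-, c₀, -, h2⟩ := hb
      exact ⟨c₀, fun _ => ⟨c₀.2, h2⟩⟩
    · exact ⟨a, fun h => absurd h hb⟩
  choose c₀ hc₀ using hc0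
  have hQok : ∀ b ∈ okb, (b : Pl K) ∈ Q := fun b hb => hb.1
  refine ⟨{
    L := M
    tc := htc
    disc := hdd'
    okb := okb
    okc := okc
    zero := ?_
    P := fun c => P c
    inj := ?_
    nlo := ?_
    nhi := ?_
    m := p
    w := fun _ => 1 / p
    w0 := fun _ => by positivity
    w1 := ?_
    u := fun i b => if b ∈ okb then
      ep p (-(((i : ℕ) : ZMod p) * r₃)) * q4 (gr D.toRD0 G r₁ r₂ r₃) a a' (b : Pl K) b' (c₀ b) *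
        ep p (-(κ * Y b (Fr.F (c₀ b)))) else 0
    v := fun _ _ => 1
    u1 := ?_
    v1 := fun _ _ => by simp
    𝔣 := fun _ b => 𝔣 b
    χ := fun i b => χ ((i : ℕ) : ZMod p) b
    f0 := fun _ b hb => (hf b (hQok b hb)).1
    fN := ?_
    pn := ?_
    eq := ?_ }⟩
  · intro b c h
    by_contra h'
    have h2 := hzero b c h'
    rcases h with h | h
    · exact h h2.1
    · exact h h2.2
  · intro c hc c' hc' h
    exact Subtype.ext (hinj c c' (hokc c hc).1.1 (hokc c' hc').1.1 h)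
  · intro c hc
    rw [hPn c hc]
    exact (hQ₃ c c.2).2.1
  · intro c hc
    rw [hPn c hc]
    exact (hQ₃ c c.2).2.2
  · rw [Finset.sum_const, Finset.card_univ, Fintype.card_fin, nsmul_eq_mul]
    have h1 : (p : ℝ) ≠ 0 := by exact_mod_cast hp.ne_zero
    rw [mul_one_div_cancel h1]
  · intro i b
    split_ifs with hb
    · rw [norm_mul, norm_mul, ep_norm, ep_norm, one_mul, mul_one]
      exact q4_le (gr_norm hG1 r₁ r₂ r₃) a a' b b' (c₀ b)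
    · rw [norm_zero]
      exact zero_le_one
  · intro _ b hb
    refine (hf b (hQok b hb)).2.trans ?_
    exact hle2 _ _ (Nat.cast_nonneg _) (Nat.cast_nonneg _) (hQ₂ b b.2).2 (hQ₂ b' hb').2
  · intro i b hb b₁ hb₁ hne
    exact hpn _ b (hQok b hb) b₁ (hQok b₁ hb₁) fun h => hne (Subtype.ext h)
  · intro b hb c hc
    obtain ⟨hc₀1, hc₀2⟩ := hc₀ b hb
    obtain ⟨k1, k2, k3, k4, k5, k6⟩ := hc
    have hbQ := hQok b hb
    obtain ⟨l1, l2, l3, l4, l5⟩ := hbQ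
    change q4 (gr D.toRD0 G r₁ r₂ r₃) a a' (b : Pl K) b' (c : Pl K) = _
    by_cases hcb : (c : Pl K) = b
    · have hz' : ∀ i : Fin p, (χ ((i : ℕ) : ZMod p) (b : Pl K)).χ (P (c : Pl K)).asIdeal = 0 := by
        intro i
        rw [hcb]
        exact (hz _ b (hQok b hb)).1
      rw [Finset.sum_eq_zero fun i _ => by rw [hz' i, mul_zero, mul_zero]]
      by_contra h
      obtain ⟨g1, -⟩ := q4_ne h
      obtain ⟨-, -, -, a4⟩ := gr_ne g1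
      exact a4 (hG.d a ha b b.2 c c.2 (Or.inr (Or.inr hcb.symm)))
    · obtain ⟨m1, m2, m3⟩ := hokc c ⟨k1, k2, k3, k4, k5, k6⟩
      have hv : ∀ i : Fin p, (χ ((i : ℕ) : ZMod p) (b : Pl K)).χ (P (c : Pl K)).asIdeal =
          ep p (κ * Y b (Fr.F c) + ((i : ℕ) : ZMod p) * D.LL c (D.pi b)) :=
        fun i => hval _ b (hQok b hb) c m1 m2 m3 hcb k3
      have hsum : (∑ i : Fin p, ((1 / (p : ℝ) : ℝ) : ℂ) * ((if b ∈ okb then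
          ep p (-(((i : ℕ) : ZMod p) * r₃)) *
            q4 (gr D.toRD0 G r₁ r₂ r₃) a a' (b : Pl K) b' (c₀ b) *
            ep p (-(κ * Y b (Fr.F (c₀ b)))) else 0) * 1 *
          (χ ((i : ℕ) : ZMod p) (b : Pl K)).χ (P (c : Pl K)).asIdeal)) =
          if D.LL (c : Pl K) (D.pi b) = r₃ then
            q4 (gr D.toRD0 G r₁ r₂ r₃) a a' (b : Pl K) b' (c₀ b) *
              ep p (-(κ * Y b (Fr.F (c₀ b)))) * ep p (κ * Y b (Fr.F c)) else 0 := by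
        rw [← b3_avg hp (D.LL (c : Pl K) (D.pi b))
          (q4 (gr D.toRD0 G r₁ r₂ r₃) a a' (b : Pl K) b' (c₀ b))
          (ep p (-(κ * Y b (Fr.F (c₀ b))))) r₃ (κ * Y b (Fr.F c))]
        refine Finset.sum_congr rfl fun i _ => ?_
        rw [if_pos hb, hv i]
      refine Eq.trans ?_ hsum.symm
      by_cases hr3 : D.LL (c : Pl K) (D.pi b) = r₃
      · rw [if_pos hr3, b3_val hG ha ha' b.2 hb' c.2 hc₀1 haa' k1 k2 hcb k3 k4 k5 hr3 k6 hc₀2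
          (hY0 b (hQok b hb)) (fun _ => hY b (hQok b hb)), mul_assoc, ← ep_add hp]
        congr 2
        ring
      · rw [if_neg hr3]
        by_contra h
        obtain ⟨g1, -⟩ := q4_ne h
        obtain ⟨-, -, a3, -⟩ := gr_ne g1
        exact hr3 a3

theorem b3_pow (C : ℝ) : ∃ k : ℕ, ∀ Z : ℝ, 2 ≤ Z → C ≤ Z ^ k := by
  obtain ⟨k, hk⟩ := pow_unbounded_of_one_lt C (by norm_num : (1 : ℝ) < 2)
  exact ⟨k, fun Z hZ => hk.le.trans (pow_le_pow_left₀ (by norm_num) hZ k)⟩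

theorem box3 (hp : p.Prime) (hp2 : MOne p K) (hζ : IsPrimitiveRoot ζ p) (D : RD K p ζ)
    (L : LDs D.toRD0 Ω) (Fr : FR L) :
    ∃ (c C : ℝ) (n : ℕ), 0 < c ∧ 1 ≤ C ∧ ∀ (T Z₁ Z₂ Z₃ : ℝ), 2 ≤ T → T ≤ Z₁ → T ≤ Z₂ → Z₁ ≤ Z₃ → Z₂ ≤ Z₃ →
      ∀ Q₁ Q₂ Q₃ : Finset (Pl K),
      (∀ v ∈ Q₁, D.Gd v ∧ Z₁ < nm v ∧ (nm v : ℝ) ≤ 2 * Z₁) →
      (∀ v ∈ Q₂, D.Gd v ∧ Z₂ < nm v ∧ (nm v : ℝ) ≤ 2 * Z₂) →
      (∀ v ∈ Q₃, D.Gd v ∧ Z₃ < nm v ∧ (nm v : ℝ) ≤ 2 * Z₃) →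
      (∀ v ∈ Q₁, ∀ v' ∈ Q₁, D.q v = D.q v') → (∀ v ∈ Q₂, ∀ v' ∈ Q₂, D.q v = D.q v') →
      (∀ v ∈ Q₃, ∀ v' ∈ Q₃, D.q v = D.q v') →
      ∀ κ : ZMod p, κ ≠ 0 → ∀ G : Pl K → Pl K → Pl K → ℂ, (∀ a b c, ‖G a b c‖ ≤ 1) →
        C3 D.toRD0 Fr κ Q₁ Q₂ Q₃ G →
        ‖∑ a ∈ Q₁, ∑ b ∈ Q₂, ∑ d ∈ Q₃, G a b d‖ ≤
          C * (Z₁ * Z₂ * Z₃) * T ^ (-c) * (1 + Real.log Z₃) ^ n := by
  have : NeZero p := ⟨hp.ne_zero⟩
  obtain ⟨C₀, hC₀, htl⟩ := b3_tl hp hp2 hζ D L Fr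
  obtain ⟨c₁, hc₁, hcard⟩ := gd_card D.toRD0
  have hn : 0 < p * Module.finrank ℚ K := Nat.mul_pos hp.pos Module.finrank_pos
  obtain ⟨k₀, hk₀⟩ := b3_pow C₀
  obtain ⟨k₁, hk₁⟩ := b3_pow (2 * c₁)
  set n : ℕ := p * Module.finrank ℚ K with hndef
  set B : ℕ := k₀ + 4 * p + (k₁ + 1) with hB
  obtain ⟨c, hc, C, hC, htls⟩ := tls n hn B (2 * c₁)
  refine ⟨c, (p : ℝ) ^ 3 * C * (2 * c₁) ^ 2 * 2, n, hc, ?_, ?_⟩
  · have h1 : (1 : ℝ) ≤ p := by exact_mod_cast hp.one_lt.le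
    have h2 : (1 : ℝ) ≤ (p : ℝ) ^ 3 := one_le_pow₀ h1
    have h3 : (1 : ℝ) ≤ (2 * c₁) ^ 2 := one_le_pow₀ (by linarith)
    have h4 : (1 : ℝ) ≤ (p : ℝ) ^ 3 * C := one_le_mul_of_one_le_of_one_le h2 hC
    have h5 : (1 : ℝ) ≤ (p : ℝ) ^ 3 * C * (2 * c₁) ^ 2 := one_le_mul_of_one_le_of_one_le h4 h3
    linarith
  intro T Z₁ Z₂ Z₃ hT hTZ₁ hTZ₂ hZ13 hZ23 Q₁ Q₂ Q₃ hQ₁ hQ₂ hQ₃ hq₁ hq₂ _ κ hκ G hG1 hG
  have hZ₁ : 2 ≤ Z₁ := hT.trans hTZ₁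
  have hZ₂ : 2 ≤ Z₂ := hT.trans hTZ₂
  have hZ₃ : 2 ≤ Z₃ := hZ₁.trans hZ13
  have hZ₃1 : 1 ≤ Z₃ := by linarith
  have hB1 : C₀ * (4 * Z₃ ^ 2) ^ p ≤ Z₃ ^ B := by
    have h1 : (4 * Z₃ ^ 2) ^ p ≤ (Z₃ ^ 4) ^ p := by
      refine pow_le_pow_left₀ (by positivity) ?_ p
      nlinarith [sq_nonneg (Z₃ ^ 2), mul_self_nonneg (Z₃ ^ 2 - 4), sq_nonneg (Z₃ - 2)]
    calc C₀ * (4 * Z₃ ^ 2) ^ p ≤ Z₃ ^ k₀ * (Z₃ ^ 4) ^ p :=
          mul_le_mul (hk₀ Z₃ hZ₃) h1 (by positivity) (by positivity)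
      _ = Z₃ ^ (k₀ + 4 * p) := by rw [← pow_mul, ← pow_add]
      _ ≤ Z₃ ^ B := pow_le_pow_right₀ hZ₃1 (by omega)
  have hB2 : 2 * c₁ * Z₂ ≤ Z₃ ^ B := by
    calc 2 * c₁ * Z₂ ≤ Z₃ ^ k₁ * Z₃ :=
          mul_le_mul (hk₁ Z₃ hZ₃) hZ23 (by linarith) (by positivity)
      _ = Z₃ ^ (k₁ + 1) := by rw [pow_succ]
      _ ≤ Z₃ ^ B := pow_le_pow_right₀ hZ₃1 (by omega)
  have hcardQ : ∀ (Q : Finset (Pl K)) (Z : ℝ), 2 ≤ Z →
      (∀ v ∈ Q, D.Gd v ∧ Z < nm v ∧ (nm v : ℝ) ≤ 2 * Z) →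
      (Fintype.card ↥Q : ℝ) ≤ 2 * c₁ * Z := by
    intro Q Z hZ hQ
    rw [Fintype.card_coe]
    refine (hcard Q (2 * Z) (by linarith) fun v hv => ⟨(hQ v hv).1, (hQ v hv).2.2⟩).trans ?_
    linarith
  have hmain : ∀ r : ZMod p × ZMod p × ZMod p,
      ‖∑ a ∈ Q₁, ∑ b ∈ Q₂, ∑ d ∈ Q₃, gr D.toRD0 G r.1 r.2.1 r.2.2 a b d‖ ≤
        C * (2 * c₁ * Z₁ * (2 * c₁ * Z₂) * Z₃ * ((2 * c₁ * Z₁) ^ (-c) +
          (2 * c₁ * Z₂) ^ (-c) * Real.log Z₃ ^ n)) := by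
    intro r
    have h1 := htls ↥Q₁ ↥Q₂ ↥Q₃ (2 * c₁ * Z₁) (2 * c₁ * Z₂) Z₃ (by nlinarith) (by nlinarith) hZ₃
      hB2 (hcardQ Q₁ Z₁ hZ₁ hQ₁) (hcardQ Q₂ Z₂ hZ₂ hQ₂) (hcardQ Q₃ Z₃ hZ₃ hQ₃)
      (fun (x : ↥Q₁) (y : ↥Q₂) (z : ↥Q₃) => gr D.toRD0 G r.1 r.2.1 r.2.2 x y z)
      (fun _ _ _ => gr_norm hG1 _ _ _ _ _ _)
      (fun a a' b' haa => htl B Z₃ hZ₃ hB1 Q₁ Q₂ Q₃
        (fun v hv => ⟨(hQ₁ v hv).1, (hQ₁ v hv).2.2.trans (by linarith)⟩)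
        (fun v hv => ⟨(hQ₂ v hv).1, (hQ₂ v hv).2.2.trans (by linarith)⟩)
        hQ₃ hq₁ hq₂ κ hκ G hG1 hG r.1 r.2.1 r.2.2 a a' b' haa)
    have h2 : ∑ a ∈ Q₁, ∑ b ∈ Q₂, ∑ d ∈ Q₃, gr D.toRD0 G r.1 r.2.1 r.2.2 a b d =
        ∑ x : ↥Q₁, ∑ y : ↥Q₂, ∑ z : ↥Q₃,
          gr D.toRD0 G r.1 r.2.1 r.2.2 (x : Pl K) (y : Pl K) (z : Pl K) := by
      rw [← Finset.sum_coe_sort Q₁]
      refine Finset.sum_congr rfl fun x _ => ?_
      rw [← Finset.sum_coe_sort Q₂]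
      refine Finset.sum_congr rfl fun y _ => ?_
      exact (Finset.sum_coe_sort Q₃
        (fun d => gr D.toRD0 G r.1 r.2.1 r.2.2 (x : Pl K) (y : Pl K) d)).symm
    rw [h2]
    exact h1
  have hsplit : ∑ a ∈ Q₁, ∑ b ∈ Q₂, ∑ d ∈ Q₃, G a b d =
      ∑ r : ZMod p × ZMod p × ZMod p,
        ∑ a ∈ Q₁, ∑ b ∈ Q₂, ∑ d ∈ Q₃, gr D.toRD0 G r.1 r.2.1 r.2.2 a b d := by
    symm
    rw [Finset.sum_comm]
    refine Finset.sum_congr rfl fun a _ => ?_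
    rw [Finset.sum_comm]
    refine Finset.sum_congr rfl fun b _ => ?_
    rw [Finset.sum_comm]
    exact Finset.sum_congr rfl fun d _ => gr_sum D.toRD0 G a b d
  rw [hsplit]
  refine (norm_sum_le _ _).trans ((Finset.sum_le_sum fun r _ => hmain r).trans ?_)
  rw [Finset.sum_const, Finset.card_univ, Fintype.card_prod, Fintype.card_prod, ZMod.card,
    nsmul_eq_mul]
  have hlog : 0 ≤ Real.log Z₃ := Real.log_nonneg hZ₃1
  have hT0 : 0 < T := by linarith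
  have hx1 : (2 * c₁ * Z₁) ^ (-c) ≤ T ^ (-c) :=
    Real.rpow_le_rpow_of_nonpos hT0 (by nlinarith) (by linarith)
  have hx2 : (2 * c₁ * Z₂) ^ (-c) ≤ T ^ (-c) :=
    Real.rpow_le_rpow_of_nonpos hT0 (by nlinarith) (by linarith)
  have hTc : 0 < T ^ (-c) := Real.rpow_pos_of_pos hT0 _
  have hl1 : (1 : ℝ) ≤ (1 + Real.log Z₃) ^ n := one_le_pow₀ (by linarith)
  have hl2 : Real.log Z₃ ^ n ≤ (1 + Real.log Z₃) ^ n :=
    pow_le_pow_left₀ hlog (by linarith) n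
  have hin : (2 * c₁ * Z₁) ^ (-c) + (2 * c₁ * Z₂) ^ (-c) * Real.log Z₃ ^ n ≤
      2 * (T ^ (-c) * (1 + Real.log Z₃) ^ n) := by
    have h1 : (2 * c₁ * Z₁) ^ (-c) ≤ T ^ (-c) * (1 + Real.log Z₃) ^ n := by
      calc (2 * c₁ * Z₁) ^ (-c) ≤ T ^ (-c) * 1 := by rw [mul_one]; exact hx1
        _ ≤ T ^ (-c) * (1 + Real.log Z₃) ^ n := mul_le_mul_of_nonneg_left hl1 hTc.le
    have h2 : (2 * c₁ * Z₂) ^ (-c) * Real.log Z₃ ^ n ≤ T ^ (-c) * (1 + Real.log Z₃) ^ n :=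
      mul_le_mul hx2 hl2 (pow_nonneg hlog n) hTc.le
    linarith
  have hcoef : 0 ≤ 2 * c₁ * Z₁ * (2 * c₁ * Z₂) * Z₃ := by positivity
  have hC0 : 0 ≤ C := by linarith
  calc ((p * (p * p) : ℕ) : ℝ) * (C * (2 * c₁ * Z₁ * (2 * c₁ * Z₂) * Z₃ *
        ((2 * c₁ * Z₁) ^ (-c) + (2 * c₁ * Z₂) ^ (-c) * Real.log Z₃ ^ n)))
      ≤ ((p * (p * p) : ℕ) : ℝ) * (C * (2 * c₁ * Z₁ * (2 * c₁ * Z₂) * Z₃ *
        (2 * (T ^ (-c) * (1 + Real.log Z₃) ^ n)))) := by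
        refine mul_le_mul_of_nonneg_left ?_ (Nat.cast_nonneg _)
        refine mul_le_mul_of_nonneg_left ?_ hC0
        exact mul_le_mul_of_nonneg_left hin hcoef
    _ = (p : ℝ) ^ 3 * C * (2 * c₁) ^ 2 * 2 * (Z₁ * Z₂ * Z₃) * T ^ (-c) *
        (1 + Real.log Z₃) ^ n := by
        push_cast
        ring

end H51.CUB
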