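import Pool.Agent.H57.TLS.Amp
import Pool.Agent.H51.CUB.BXA
import Pool.Agent.H63.MA.ABilB

/-!
[H51 CUB BXK]  The bilinear large sieve for the pair symbols (150-200 lines). PROOF.

Look first for an existing result on `∑_a ∑_b α a * β b * ep (κ * LL a (pi b))` in `Pool/Agent/H63/MA`, `H38/BB`, `H77` (double oscillation); any power saving `T^(-c)` is fine. Otherwise: `n = [K : ℚ]`, `K` is totally complex (`TC K n`; grep how this is
proved; `MOne` and `ζ`), `amp n _ B b` gives `k, C`. `‖S‖² ≤ #Q₂ ∑_{b} ‖∑_a ..‖²` is not needed: `‖S‖ ≤ ∑_a ‖∑_b β b χ_a (b)‖` directly, with `χ_a : RC K (M0 * a * p^3..)` the ray class character of `v ↦ κ * LL a (pi v)` (`D.ray_L a`, multiplied by `κ`: `IsRay p` is stable under scalars; `ray_rc`),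
zero at `a` (so the condition `a ≠ b` is automatic): `amp` with `J = ↥Q₁`, `Q = Q₂`: `‖S‖ ≤ C (#Q₁)^(1 - 1/(2k)) Z₂ (log Z₂)^n ≤ C' Z₁ Z₂ Z₁^(-1/(2k)) (log Z₂)^n`. Moduli: `N (M0 * a) ≤ C Z₁`, `dd K ≤ Z₂ ^ B` for `B` large (`Z₂ ≥ 2`).
`PN (prc χ_a χ_a₁)` for `a ≠ a₁`: choose `g ∈ 𝓞 K` with `ord a g = 0`, `lg a g = 1` (`exists_lg`), and `x ∈ 𝓞 K`, `x ≡ g` mod `a`, `x ≡ 1` mod `M0 ^ N` (`N` so large that `x` is a `p`-th power locally at all `v ∈ S0`: `PS p ζ S0 x`; in particular `M0 ^ N` is divisible by `p ^ 3`) and `x ≡ 1` mod `a₁`. Let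
`y = ∏ over v ∉ S0 of pi v ^ (ord v x)`: by `D.ray_q` the class of `(x)` is `0`, so `y` is `PS` (`D.prim_of`), `x / y` is an `S0`-unit and `PS`, so a `p`-th power (`D.unit`). Hence `∑ ord v x * LL a (pi v) = LL a y = LL a x = lg a x = lg a g = 1` and the same sum for `a₁` is `0` (`LL a (pi a) = 0`).
So `χ_a (x) * conj χ_a₁ (x) = ep κ ≠ 1`.
-/

set_option autoImplicit false

open scoped NumberField ComplexConjugate
open IsDedekindDomain
open scoped Classical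

noncomputable section

namespace H51.CUB

open H63.MA H38.BB H38.BG H57.PC H57.TLS H36.QA

variable {K : Type} [Field K] [NumberField K] {p : ℕ} {ζ : K}

private def bxk_e (α : Pl K → ℂ) (n : Finset (Pl K)) : ℂ := if n.card = 1 then ∑ v ∈ n, α v else 0

private theorem bxk_e_single (α : Pl K → ℂ) (v : Pl K) : bxk_e α {v} = α v := by
  unfold bxk_e
  rw [Finset.card_singleton, if_pos rfl, Finset.sum_singleton]

private theorem bxk_e_norm (α : Pl K → ℂ) (hα : ∀ v, ‖α v‖ ≤ 1) (n : Finset (Pl K)) :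
    ‖bxk_e α n‖ ≤ 1 := by
  unfold bxk_e
  split_ifs with h
  · obtain ⟨v, rfl⟩ := Finset.card_eq_one.1 h
    rw [Finset.sum_singleton]
    exact hα v
  · rw [norm_zero]; exact zero_le_one

theorem boxk (hp : p.Prime) (hp2 : MOne p K) (hζ : IsPrimitiveRoot ζ p) (D : RD K p ζ) :
    ∃ (c C : ℝ) (n : ℕ), 0 < c ∧ 1 ≤ C ∧ ∀ (T Z₁ Z₂ : ℝ), 2 ≤ T → T ≤ Z₁ → Z₁ ≤ Z₂ →
      ∀ Q₁ Q₂ : Finset (Pl K),
      (∀ v ∈ Q₁, D.Gd v ∧ Z₁ < nm v ∧ (nm v : ℝ) ≤ 2 * Z₁) →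
      (∀ v ∈ Q₂, D.Gd v ∧ Z₂ < nm v ∧ (nm v : ℝ) ≤ 2 * Z₂) →
      ∀ κ : ZMod p, κ ≠ 0 → ∀ α β : Pl K → ℂ, (∀ v, ‖α v‖ ≤ 1) → (∀ v, ‖β v‖ ≤ 1) →
        ‖∑ a ∈ Q₁, ∑ b ∈ Q₂, if a = b then 0 else α a * β b * ep p (κ * D.LL a (D.pi b))‖ ≤
          C * (Z₁ * Z₂) * T ^ (-c) * (1 + Real.log Z₂) ^ n := by
  obtain ⟨C, A, δ, hC, hA, hδ, hδ1, hb⟩ := bil_block hp hζ D
  obtain ⟨n, hn⟩ : ∃ n : ℕ, n = ⌈A⌉₊ := ⟨_, rfl⟩
  have hAn : A ≤ n := by rw [hn]; exact Nat.le_ceil A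
  refine ⟨δ, max 1 (C * 2 ^ n), n, hδ, le_max_left _ _, ?_⟩
  intro T Z₁ Z₂ hT hTZ hZZ Q₁ Q₂ h1 h2 κ hκ α β hα hβ
  have hZ₁ : 2 ≤ Z₁ := hT.trans hTZ
  have hZ₂ : 2 ≤ Z₂ := hZ₁.trans hZZ
  have hnr : ∀ v : Pl K, nr ({v} : Finset (Pl K)) = nm v := by
    intro v
    unfold nr
    rw [Finset.prod_singleton]
  have hinj : ∀ Q : Finset (Pl K), Set.InjOn (fun v : Pl K => ({v} : Finset (Pl K))) Q :=
    fun Q v _ w _ hvw => Finset.singleton_injective hvw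
  have hE : (∑ a ∈ Q₁, ∑ b ∈ Q₂, if a = b then (0 : ℂ) else
        α a * β b * ep p (κ * D.LL a (D.pi b))) =
      BB D.toRD0 κ (bxk_e α) (bxk_e β) (Q₁.image fun v => ({v} : Finset (Pl K)))
        (Q₂.image fun v => ({v} : Finset (Pl K))) := by
    unfold BB
    rw [Finset.sum_image (hinj Q₁)]
    refine Finset.sum_congr rfl fun a _ => ?_
    rw [Finset.sum_image (hinj Q₂)]
    refine Finset.sum_congr rfl fun b _ => ?_
    rw [bxk_e_single, bxk_e_single]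
    unfold Lf pf
    rw [Finset.sum_singleton, Finset.prod_singleton]
    by_cases hab : a = b
    · rw [if_pos hab, if_neg]
      rw [Finset.disjoint_singleton]
      exact fun h => h hab
    · rw [if_neg hab, if_pos]
      rw [Finset.disjoint_singleton]
      exact hab
  rw [hE]
  have hB := hb κ hκ (bxk_e α) (bxk_e β) (bxk_e_norm α hα) (bxk_e_norm β hβ) Z₁ Z₂ T (by linarith)
    hTZ (hTZ.trans hZZ) (Q₁.image fun v => ({v} : Finset (Pl K)))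
    (Q₂.image fun v => ({v} : Finset (Pl K))) ?_ ?_
  · refine hB.trans ?_
    have hl1 : 0 ≤ Real.log Z₁ := Real.log_nonneg (by linarith)
    have hl2 : 0 ≤ Real.log Z₂ := Real.log_nonneg (by linarith)
    have hl12 : Real.log Z₁ ≤ Real.log Z₂ := Real.log_le_log (by linarith) hZZ
    have hlog : 1 + Real.log (Z₁ * Z₂) ≤ 2 * (1 + Real.log Z₂) := by
      rw [Real.log_mul (by linarith) (by linarith)]
      linarith
    have hlog1 : 1 ≤ 1 + Real.log (Z₁ * Z₂) := by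
      rw [Real.log_mul (by linarith) (by linarith)]
      linarith
    have hT0 : 0 ≤ T ^ (-δ) := Real.rpow_nonneg (by linarith) _
    have hpow : (1 + Real.log (Z₁ * Z₂)) ^ A ≤ 2 ^ n * (1 + Real.log Z₂) ^ n := by
      calc (1 + Real.log (Z₁ * Z₂)) ^ A ≤ (1 + Real.log (Z₁ * Z₂)) ^ (n : ℝ) :=
            Real.rpow_le_rpow_of_exponent_le hlog1 hAn
        _ = (1 + Real.log (Z₁ * Z₂)) ^ n := Real.rpow_natCast _ _
        _ ≤ (2 * (1 + Real.log Z₂)) ^ n := pow_le_pow_left₀ (by linarith) hlog n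
        _ = 2 ^ n * (1 + Real.log Z₂) ^ n := mul_pow _ _ _
    have hlp : 0 ≤ (1 + Real.log Z₂) ^ n := pow_nonneg (by linarith) n
    calc C * Z₁ * Z₂ * T ^ (-δ) * (1 + Real.log (Z₁ * Z₂)) ^ A
        ≤ C * Z₁ * Z₂ * T ^ (-δ) * (2 ^ n * (1 + Real.log Z₂) ^ n) :=
          mul_le_mul_of_nonneg_left hpow (by positivity)
      _ = (C * 2 ^ n) * ((Z₁ * Z₂) * T ^ (-δ) * (1 + Real.log Z₂) ^ n) := by ring
      _ ≤ max 1 (C * 2 ^ n) * ((Z₁ * Z₂) * T ^ (-δ) * (1 + Real.log Z₂) ^ n) :=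
          mul_le_mul_of_nonneg_right (le_max_right _ _) (by positivity)
      _ = _ := by ring
  · intro m hm
    obtain ⟨v, hv, rfl⟩ := Finset.mem_image.1 hm
    refine ⟨fun w hw => ?_, ?_, ?_⟩
    · rw [Finset.mem_singleton] at hw
      rw [hw]
      exact (h1 v hv).1
    · rw [hnr]; exact (h1 v hv).2.1
    · rw [hnr]; exact (h1 v hv).2.2
  · intro m hm
    obtain ⟨v, hv, rfl⟩ := Finset.mem_image.1 hm
    refine ⟨fun w hw => ?_, ?_, ?_⟩
    · rw [Finset.mem_singleton] at hw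
      rw [hw]
      exact (h2 v hv).1
    · rw [hnr]; exact (h2 v hv).2.1
    · rw [hnr]; exact (h2 v hv).2.2

end H51.CUB
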