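import Pool.Agent.H51.CUB.RHI
import Pool.Agent.H63.MA.GTriv

/-!
[H51 CUB RLN]  Linear algebra of `Rho` (80-120 lines). PROOF.

All parts are formal: `kk (a * b) g = kk a g + kk b g`, `kk (a⁻¹) = - kk a`, `kk 1 = 0`, `kk (a ^ n) = n * kk a` (library: `kk_mul_left` or similar in
`H63/MA/GKum*`, grep `theorem kk_`), `kk a (g * h) = kk a g + kk a h` (`kk_mul`), finite level by `gtriv_lev`, `gtriv_kk` (`H63/MA/GTriv`).
`rho_flip`: `Y' = kk d * kk c - Y`; `Y' (t v) = kk d (t v) * kk c (t v) = ord v d * ord v c = 0` (`kk_inr`, `kk (pi v) (t v) = 1`).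
`rho_one`: the additive function. `rho_comm`: `Y (g h) = Y (h g)` as soon as `kk d g * kk c h = kk d h * kk c g`.
-/

set_option autoImplicit false

open scoped NumberField
open IsDedekindDomain
open scoped Classical

noncomputable section

namespace H51.CUB

open H63.MA H38.BB H38.BG H57.PC

variable {K : Type} [Field K] [NumberField K] {p : ℕ} {ζ : K} {Ω : Type} [Field Ω] [Algebra K Ω]
  [IsAlgClosure K Ω]

private theorem rlin_inv (hp : p.Prime) (hζ : IsPrimitiveRoot ζ p) (a : Kˣ) (g : Gal(Ω/K)) :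
    kk p ζ a⁻¹ g = -kk p ζ a g := by
  have h := kk_mul_arg hp hζ a a⁻¹ g
  rw [mul_inv_cancel, gkum_one_arg hp hζ] at h
  exact (neg_eq_of_add_eq_zero_right h.symm).symm

private theorem mul_eq_zero_of {R : Type} [MulZeroClass R] (a b : R) (h : a = 0 ∨ b = 0) :
    a * b = 0 := by
  rcases h with h | h
  · rw [h, zero_mul]
  · rw [h, mul_zero]

theorem rho_add_right (hp : p.Prime) (hζ : IsPrimitiveRoot ζ p) {D : RD0 K p ζ} {L : LDs D Ω}
    {d c c' : Kˣ} {Y Y' : Gal(Ω/K) → ZMod p} (h : Rho L d c Y) (h' : Rho L d c' Y') :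
    Rho L d (c * c') fun g => Y g + Y' g := by
  refine ⟨gtriv_lev h.lev h'.lev fun x y => x + y, fun g k => ?_, fun v hv => ?_⟩
  · show Y (g * k) + Y' (g * k) = _
    rw [h.add, h'.add, kk_mul_arg hp hζ]
    ring
  · show Y (L.t v) + Y' (L.t v) = 0
    rw [h.tz v hv, h'.tz v hv, add_zero]

theorem rho_add_left (hp : p.Prime) (hζ : IsPrimitiveRoot ζ p) {D : RD0 K p ζ} {L : LDs D Ω}
    {d d' c : Kˣ} {Y Y' : Gal(Ω/K) → ZMod p} (h : Rho L d c Y) (h' : Rho L d' c Y') :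
    Rho L (d * d') c fun g => Y g + Y' g := by
  refine ⟨gtriv_lev h.lev h'.lev fun x y => x + y, fun g k => ?_, fun v hv => ?_⟩
  · show Y (g * k) + Y' (g * k) = _
    rw [h.add, h'.add, kk_mul_arg hp hζ]
    ring
  · show Y (L.t v) + Y' (L.t v) = 0
    rw [h.tz v hv, h'.tz v hv, add_zero]

theorem rho_inv_left (hp : p.Prime) (hζ : IsPrimitiveRoot ζ p) {D : RD0 K p ζ} {L : LDs D Ω}
    {d c : Kˣ} {Y : Gal(Ω/K) → ZMod p} (h : Rho L d c Y) : Rho L d⁻¹ c fun g => - Y g := by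
  refine ⟨gtriv_lev h.lev h.lev fun x _ => -x, fun g k => ?_, fun v hv => ?_⟩
  · show -Y (g * k) = -Y g + -Y k + _
    rw [h.add, rlin_inv hp hζ]
    ring
  · show -Y (L.t v) = 0
    rw [h.tz v hv, neg_zero]

theorem rho_inv_right (hp : p.Prime) (hζ : IsPrimitiveRoot ζ p) {D : RD0 K p ζ} {L : LDs D Ω}
    {d c : Kˣ} {Y : Gal(Ω/K) → ZMod p} (h : Rho L d c Y) : Rho L d c⁻¹ fun g => - Y g := by
  refine ⟨gtriv_lev h.lev h.lev fun x _ => -x, fun g k => ?_, fun v hv => ?_⟩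
  · show -Y (g * k) = -Y g + -Y k + _
    rw [h.add, rlin_inv hp hζ]
    ring
  · show -Y (L.t v) = 0
    rw [h.tz v hv, neg_zero]

theorem rho_smul (hp : p.Prime) (hζ : IsPrimitiveRoot ζ p) {D : RD0 K p ζ} {L : LDs D Ω}
    {d c : Kˣ} {Y : Gal(Ω/K) → ZMod p} (h : Rho L d c Y) (n : ℕ) :
    Rho L d (c ^ n) fun g => (n : ZMod p) * Y g := by
  refine ⟨gtriv_lev h.lev h.lev fun x _ => (n : ZMod p) * x, fun g k => ?_, fun v hv => ?_⟩
  · show (n : ZMod p) * Y (g * k) = (n : ZMod p) * Y g + (n : ZMod p) * Y k + _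
    have h1 : kk p ζ (c ^ n) k = (n : ZMod p) * kk p ζ c k := by
      rw [← zpow_natCast, kk_zpow_arg hp hζ, Int.cast_natCast]
    rw [h.add, h1]
    ring
  · show (n : ZMod p) * Y (L.t v) = 0
    rw [h.tz v hv, mul_zero]

/-- the difference of two solutions is an unramified character -/
theorem rho_sub (hp : p.Prime) (hζ : IsPrimitiveRoot ζ p) {D : RD0 K p ζ} {L : LDs D Ω}
    {d c : Kˣ} {Y Y' : Gal(Ω/K) → ZMod p} (h : Rho L d c Y) (h' : Rho L d c Y') :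
    Rho L 1 1 fun g => Y g - Y' g := by
  refine ⟨gtriv_lev h.lev h'.lev fun x y => x - y, fun g k => ?_, fun v hv => ?_⟩
  · show Y (g * k) - Y' (g * k) = Y g - Y' g + (Y k - Y' k) + _
    rw [h.add, h'.add, gkum_one_arg hp hζ, zero_mul]
    ring
  · show Y (L.t v) - Y' (L.t v) = 0
    rw [h.tz v hv, h'.tz v hv, sub_zero]

/-- additive functions are `Rho L 1 1` -/
theorem rho_of_add (hp : p.Prime) (hζ : IsPrimitiveRoot ζ p) {D : RD0 K p ζ} {L : LDs D Ω}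
    {Y : Gal(Ω/K) → ZMod p} (hl : Lev Y) (ha : ∀ g h, Y (g * h) = Y g + Y h)
    (ht : ∀ v, v ∉ D.S0 → Y (L.t v) = 0) : Rho L 1 1 Y := by
  refine ⟨hl, fun g k => ?_, ht⟩
  rw [ha, gkum_one_arg hp hζ, zero_mul, add_zero]

theorem rho_flip (hp : p.Prime) (hζ : IsPrimitiveRoot ζ p) {D : RD0 K p ζ} {L : LDs D Ω}
    {d c : Kˣ} {Y : Gal(Ω/K) → ZMod p} (h : Rho L d c Y)
    (hdc : ∀ v, v ∉ D.S0 → ((ord v d : ℤ) : ZMod p) = 0 ∨ ((ord v c : ℤ) : ZMod p) = 0) :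
    Rho L c d fun g => kk p ζ d g * kk p ζ c g - Y g := by
  have hkt : ∀ (a : Kˣ) (v : Pl K), v ∉ D.S0 → kk p ζ a (L.t v) = ((ord v a : ℤ) : ZMod p) := by
    intro a v hv
    rw [gtw_t L v hv]
    exact ld_kk_t hp hζ (fun h => hv (D.above v h)) (D.pi_self v hv) (L.ld v hv) a
  refine ⟨gtriv_lev (gtriv_lev (gtriv_kk hp hζ d) (gtriv_kk hp hζ c) fun x y => x * y) h.lev
    fun x y => x - y, fun g k => ?_, fun v hv => ?_⟩
  · show kk p ζ d (g * k) * kk p ζ c (g * k) - Y (g * k) =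
      kk p ζ d g * kk p ζ c g - Y g + (kk p ζ d k * kk p ζ c k - Y k) + kk p ζ c g * kk p ζ d k
    rw [h.add, kk_mul, kk_mul]
    ring
  · show kk p ζ d (L.t v) * kk p ζ c (L.t v) - Y (L.t v) = 0
    rw [h.tz v hv, sub_zero, hkt d v hv, hkt c v hv]
    exact mul_eq_zero_of _ _ (hdc v hv)

theorem rho_map_one {D : RD0 K p ζ} {L : LDs D Ω} {d c : Kˣ} {Y : Gal(Ω/K) → ZMod p}
    (h : Rho L d c Y) : Y 1 = 0 := by
  have h1 := h.add 1 1
  rw [mul_one, kk_one, zero_mul, add_zero] at h1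
  exact left_eq_add.1 h1

/-- the value at a conjugate -/
theorem rho_conj {D : RD0 K p ζ} {L : LDs D Ω} {d c : Kˣ} {Y : Gal(Ω/K) → ZMod p}
    (h : Rho L d c Y) (g τ : Gal(Ω/K)) :
    Y (g * τ * g⁻¹) = Y τ - kk p ζ d τ * kk p ζ c g + kk p ζ d g * kk p ζ c τ := by
  have h1 := h.add (g * τ) g⁻¹
  have h2 := h.add g τ
  have h3 := h.add g g⁻¹
  have h4 : ∀ a : Kˣ, kk p ζ a g⁻¹ = -kk p ζ a g := by
    intro a
    have h5 := kk_mul (p := p) (ζ := ζ) a g g⁻¹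
    rw [mul_inv_cancel, kk_one] at h5
    exact (neg_eq_of_add_eq_zero_right h5.symm).symm
  rw [mul_inv_cancel, rho_map_one h, h4] at h3
  rw [h1, h2, kk_mul, h4]
  linear_combination -h3

end H51.CUB
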