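import Pool.Agent.H51.CUB.BRT
import Pool.Agent.H51.CUB.RLin
import Pool.Agent.H51.CUB.BXA

/-!
[H51 CUB RCC]  Reciprocity for triple symbols: `red`, `swp`, `mas` (180-240 lines). PROOF.

`dq D q = pi (q 0) / pi (q 1)` for a pair of primes; `df Fr Y q = Y (F (q 0)) - Y (F (q 1))`. `SqP D q`: good primes `q i e`, all distinct, `q i 0` and `q i 1` of the same class. `ord v (dq D (q i)) = [v = q i 0] - [v = q i 1]` (`ord_div`), `dq` is `PS` (`box_ps`). All three follow from `br_tri` with suitable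
`m, A, B, C : arrays with entries 0, 1` (define them by `if i = 0 ∧ j = 1 then 1 else 0` or with `![..]`; the unused `Y i j` are the zero function; `Fin.sum_univ_three`, `decide`, `simp`).
* `red`: `a = (D1, D2, D3)`, `m 0 1 = m 1 2 = 1`, `Y 0 1 = Y12`, `Y 1 2 = Y23`, `X = d1 ∪ Y23 + Y12 ∪ d3`: `A 0 1 2 = 1`, `B 0 1 2 = 1`, `C = 0`. `c = (D1, D3)`. `T` = the six primes. `IV v = Y12 (F v) * ord v D3 - ord v D1 * Y23 (F v)`; all primes of `T` have prime norm. The sum is `df Y12 (q 2) - df Y23 (q 0) = 0`.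
`dis`: `ord v D1 * ord v D2 = 0` as the primes are distinct.
* `swp`: `a = (D1, D2, A)`, `m 0 2 = m 1 2 = 1`, `Y 0 2 = Y1`, `Y 1 2 = Y2`, `X = d1 ∪ Y2 + d2 ∪ Y1 + (d1 d2) ∪ A`: `A 0 1 2 = 1`, `A 1 0 2 = 1`, `C 0 1 2 = 1`, `B = 0`. `c = (D1, D2)`. `T` = the four primes and `S`. `IV v = LL v D1 * LL v D2 * ord v A - ord v D1 * Y2 (F v) - ord v D2 * Y1 (F v) - ord v D1 * ord v D2 * LL v A`;
the last term is `0`; the first is `0` for all `v ∈ T` (`hA`, `hAq`). At `v ∈ S` different from the four primes `IV v = 0`. The sum is `- df Y2 (q 0) - df Y1 (q 1)`.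
* `mas`: `a = (D1, D2, A)`, `m 0 2 = 1`, `m 1 0 = 1`, `Y 0 2 = Y`, `Y 1 0 = r`, `X = d2 ∪ Y + r ∪ A`: `A 1 0 2 = 1`, `B 1 0 2 = 1`, `C = 0`. `c = (D2, A)`. `T` = the four primes and `S`. `IV v = r (F v) * ord v A - ord v D2 * Y (F v)`.
-/

set_option autoImplicit false

open scoped NumberField
open IsDedekindDomain
open scoped Classical

noncomputable section

namespace H51.CUB

open H63.MA H38.BB H38.BG H57.PC H57.BRA

variable {K : Type} [Field K] [NumberField K] {p : ℕ} {ζ : K} {Ω : Type} [Field Ω] [Algebra K Ω]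

/-- the quotient of the generators of a pair of primes -/
def dq (D : RD0 K p ζ) (q : Fin 2 → Pl K) : Kˣ := D.pi (q 0) / D.pi (q 1)

/-- the difference of the values at the Frobenius elements -/
def df {D : RD0 K p ζ} {L : LDs D Ω} (Fr : FR L) (Y : Gal(Ω/K) → ZMod p) (q : Fin 2 → Pl K) :
    ZMod p := Y (Fr.F (q 0)) - Y (Fr.F (q 1))

/-- pairs of good primes of the same class, all distinct -/
structure SqP (D : RD0 K p ζ) {r : ℕ} (q : Fin r → Fin 2 → Pl K) : Prop where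
  gd : ∀ i e, D.Gd (q i e)
  inj : ∀ i e j e', q i e = q j e' → i = j ∧ e = e'
  cls : ∀ i, D.q (q i 0) = D.q (q i 1)

theorem dq_ps (hp : p.Prime) (D : RD0 K p ζ) {r : ℕ} {q : Fin r → Fin 2 → Pl K} (hq : SqP D q)
    (i : Fin r) : PS p ζ D.S0 (dq D (q i)) :=
  box_ps hp D (hq.gd i 0).1 (hq.gd i 1).1 (hq.cls i)

theorem dq_ord (D : RD0 K p ζ) {r : ℕ} {q : Fin r → Fin 2 → Pl K} (hq : SqP D q)
    (i : Fin r) (v : Pl K) (hv : v ∉ D.S0) :
    ord v (dq D (q i)) = (if v = q i 0 then 1 else 0) - (if v = q i 1 then 1 else 0) :=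
  ord_div D (hq.gd i 0).1 (hq.gd i 1).1 v hv

variable [IsAlgClosure K Ω]

private theorem rcc_lev0 : Lev (0 : Gal(Ω/K) → ZMod p) := by
  exact gtriv_const 0

/-- two nonzero entries -/
private theorem rcc_tri {D : RD0 K p ζ} {L : LDs D Ω} (a : Fin 3 → Kˣ) (i1 j1 i2 j2 : Fin 3)
    {Y1 Y2 : Gal(Ω/K) → ZMod p} (h1 : Rho L (a i1) (a j1) Y1) (h2 : Rho L (a i2) (a j2) Y2)
    (d1 : ∀ v, v ∉ D.S0 → ((ord v (a i1) : ℤ) : ZMod p) * ((ord v (a j1) : ℤ) : ZMod p) = 0)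
    (d2 : ∀ v, v ∉ D.S0 → ((ord v (a i2) : ℤ) : ZMod p) * ((ord v (a j2) : ℤ) : ZMod p) = 0) :
    TriH L a (fun i j => if i = i1 ∧ j = j1 then 1 else if i = i2 ∧ j = j2 then 1 else 0)
      (fun i j => if i = i1 ∧ j = j1 then Y1 else if i = i2 ∧ j = j2 then Y2 else 0) := by
  refine ⟨fun i j => ?_, fun i j g h => ?_, fun i j v hv => ?_, fun i j v hv => ?_⟩
  · show Lev (if i = i1 ∧ j = j1 then Y1 else if i = i2 ∧ j = j2 then Y2 else 0)
    split_ifs
    · exact h1.lev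
    · exact h2.lev
    · exact rcc_lev0
  · show (if i = i1 ∧ j = j1 then Y1 else if i = i2 ∧ j = j2 then Y2 else 0) (g * h) =
      (if i = i1 ∧ j = j1 then Y1 else if i = i2 ∧ j = j2 then Y2 else 0) g +
      (if i = i1 ∧ j = j1 then Y1 else if i = i2 ∧ j = j2 then Y2 else 0) h +
      (if i = i1 ∧ j = j1 then 1 else if i = i2 ∧ j = j2 then 1 else 0) *
        kk p ζ (a i) g * kk p ζ (a j) h
    split_ifs with c1 c2
    · rw [c1.1, c1.2, h1.add, one_mul]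
    · rw [c2.1, c2.2, h2.add, one_mul]
    · rw [Pi.zero_apply, Pi.zero_apply, Pi.zero_apply, zero_mul, zero_mul, add_zero, add_zero]
  · show (if i = i1 ∧ j = j1 then Y1 else if i = i2 ∧ j = j2 then Y2 else 0) (L.t v) = 0
    split_ifs
    · exact h1.tz v hv
    · exact h2.tz v hv
    · rfl
  · show (if i = i1 ∧ j = j1 then 1 else if i = i2 ∧ j = j2 then 1 else 0) *
      ((ord v (a i) : ℤ) : ZMod p) * ((ord v (a j) : ℤ) : ZMod p) = 0
    split_ifs with c1 c2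
    · rw [c1.1, c1.2, one_mul]
      exact d1 v hv
    · rw [c2.1, c2.2, one_mul]
      exact d2 v hv
    · rw [zero_mul, zero_mul]

/-- sums against the orders of `dq` -/
private theorem rcc_sum {D : RD0 K p ζ} {r : ℕ} {q : Fin r → Fin 2 → Pl K} (hq : SqP D q)
    (i : Fin r) (T : Finset (Pl K)) (hT : ∀ v ∈ T, v ∉ D.S0) (h0 : q i 0 ∈ T) (h1 : q i 1 ∈ T)
    (f : Pl K → ZMod p) :
    ∑ v ∈ T, ((ord v (dq D (q i)) : ℤ) : ZMod p) * f v = f (q i 0) - f (q i 1) := by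
  have h : ∀ v ∈ T, ((ord v (dq D (q i)) : ℤ) : ZMod p) * f v =
      (if v = q i 0 then f v else 0) - (if v = q i 1 then f v else 0) := by
    intro v hv
    rw [dq_ord D hq i v (hT v hv), Int.cast_sub, sub_mul]
    congr 1
    · split_ifs
      · rw [Int.cast_one, one_mul]
      · rw [Int.cast_zero, zero_mul]
    · split_ifs
      · rw [Int.cast_one, one_mul]
      · rw [Int.cast_zero, zero_mul]
  rw [Finset.sum_congr rfl h, Finset.sum_sub_distrib, Finset.sum_ite_eq', Finset.sum_ite_eq',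
    if_pos h0, if_pos h1]

private theorem rcc_ord0 {D : RD0 K p ζ} {r : ℕ} {q : Fin r → Fin 2 → Pl K} (hq : SqP D q)
    (i : Fin r) (v : Pl K) (hv : v ∉ D.S0) (hne : ∀ e, v ≠ q i e) :
    ((ord v (dq D (q i)) : ℤ) : ZMod p) = 0 := by
  rw [dq_ord D hq i v hv, if_neg (hne 0), if_neg (hne 1), sub_zero, Int.cast_zero]

/-- disjoint pairs -/
private theorem rcc_dis {D : RD0 K p ζ} {r : ℕ} {q : Fin r → Fin 2 → Pl K} (hq : SqP D q)
    {i j : Fin r} (hij : i ≠ j) (v : Pl K) (hv : v ∉ D.S0) :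
    ((ord v (dq D (q i)) : ℤ) : ZMod p) * ((ord v (dq D (q j)) : ℤ) : ZMod p) = 0 := by
  by_cases h : ∃ e, v = q i e
  · obtain ⟨e, rfl⟩ := h
    rw [rcc_ord0 hq j _ hv fun e' h' => hij (hq.inj i e j e' h').1, mul_zero]
  · push Not at h
    rw [rcc_ord0 hq i v hv h, zero_mul]

private theorem rcc_disA {D : RD0 K p ζ} {r : ℕ} {q : Fin r → Fin 2 → Pl K} (hq : SqP D q)
    (i : Fin r) (A : Kˣ) (hAq : ∀ i e, ((ord (q i e) A : ℤ) : ZMod p) = 0) (v : Pl K)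
    (hv : v ∉ D.S0) :
    ((ord v (dq D (q i)) : ℤ) : ZMod p) * ((ord v A : ℤ) : ZMod p) = 0 := by
  by_cases h : ∃ e, v = q i e
  · obtain ⟨e, rfl⟩ := h
    rw [hAq, mul_zero]
  · push Not at h
    rw [rcc_ord0 hq i v hv h, zero_mul]

theorem red (hp : p.Prime) (hp2 : MOne p K) (hζ : IsPrimitiveRoot ζ p) (hz : Z2 p K)
    {D : RD0 K p ζ} {L : LDs D Ω} (Fr : FR L) (q : Fin 3 → Fin 2 → Pl K) (hq : SqP D q)
    {Y12 Y23 : Gal(Ω/K) → ZMod p} (h12 : Rho L (dq D (q 0)) (dq D (q 1)) Y12)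
    (h23 : Rho L (dq D (q 1)) (dq D (q 2)) Y23) : df Fr Y12 (q 2) = df Fr Y23 (q 0) := by
  obtain ⟨T, hTd⟩ : ∃ T : Finset (Pl K), T = Finset.univ.image fun ie : Fin 3 × Fin 2 =>
    q ie.1 ie.2 := ⟨_, rfl⟩
  have hqT : ∀ i e, q i e ∈ T := by
    intro i e
    rw [hTd]
    exact Finset.mem_image.2 ⟨(i, e), Finset.mem_univ _, rfl⟩
  have hTq : ∀ v ∈ T, ∃ i e, v = q i e := by
    intro v hv
    rw [hTd] at hv
    obtain ⟨⟨i, e⟩, -, rfl⟩ := Finset.mem_image.1 hv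
    exact ⟨i, e, rfl⟩
  have hT : ∀ v ∈ T, v ∉ D.S0 := by
    intro v hv
    obtain ⟨i, e, rfl⟩ := hTq v hv
    exact (hq.gd i e).1
  obtain ⟨a, ha⟩ : ∃ a : Fin 3 → Kˣ, ∀ i, a i = dq D (q i) := ⟨fun i => dq D (q i), fun _ => rfl⟩
  have h12' : Rho L (a 0) (a 1) Y12 := by rw [ha, ha]; exact h12
  have h23' : Rho L (a 1) (a 2) Y23 := by rw [ha, ha]; exact h23
  have H := rcc_tri a 0 1 1 2 h12' h23'
    (fun v hv => by rw [ha, ha]; exact rcc_dis hq (by decide) v hv)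
    (fun v hv => by rw [ha, ha]; exact rcc_dis hq (by decide) v hv)
  have key := br_tri hp hp2 hζ hz Fr a _
    (fun i j k => if i = 0 ∧ j = 1 ∧ k = 2 then 1 else 0)
    (fun i j k => if i = 0 ∧ j = 1 ∧ k = 2 then 1 else 0) (fun _ _ _ => 0)
    (by
      intro i j k
      by_cases h : i = 0 ∧ j = 1 ∧ k = 2
      · obtain ⟨rfl, rfl, rfl⟩ := h
        simp
      · simp only [if_neg h, zero_mul, add_zero])
    _ H ![dq D (q 0), dq D (q 2)]
    (by
      intro i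
      fin_cases i
      · exact dq_ps hp D hq 0
      · exact dq_ps hp D hq 2)
    (by
      intro g h hg hh
      have e1 : kk p ζ (a 0) g = 0 := by rw [ha]; exact hg 0
      have e2 : kk p ζ (a 2) h = 0 := by rw [ha]; exact hh 1
      simp [Fin.sum_univ_three, e1, e2])
    T hT
    (by
      intro v hv hvT i
      rw [ha]
      exact rcc_ord0 hq i v hv fun e h => hvT (h ▸ hqT i e))
    (by
      intro v hv hnp
      obtain ⟨i, e, rfl⟩ := hTq v hv
      exact absurd (hq.gd i e).2 hnp)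
  have hIV : ∀ v ∈ T, IV Fr a (fun i j k => if i = 0 ∧ j = 1 ∧ k = 2 then 1 else 0)
      (fun i j k => if i = 0 ∧ j = 1 ∧ k = 2 then 1 else 0) (fun _ _ _ => 0)
      (fun i j => if i = 0 ∧ j = 1 then Y12 else if i = 1 ∧ j = 2 then Y23 else 0) v =
      ((ord v (dq D (q 2)) : ℤ) : ZMod p) * Y12 (Fr.F v) -
        ((ord v (dq D (q 0)) : ℤ) : ZMod p) * Y23 (Fr.F v) := by
    intro v _
    unfold IV
    rw [← ha, ← ha]
    simp [Fin.sum_univ_three]
    ring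
  rw [Finset.sum_congr rfl hIV, Finset.sum_sub_distrib,
    rcc_sum hq 2 T hT (hqT _ _) (hqT _ _), rcc_sum hq 0 T hT (hqT _ _) (hqT _ _)] at key
  exact sub_eq_zero.1 key

theorem swp (hp : p.Prime) (hp2 : MOne p K) (hζ : IsPrimitiveRoot ζ p) (hz : Z2 p K)
    {D : RD0 K p ζ} {L : LDs D Ω} (Fr : FR L) (q : Fin 2 → Fin 2 → Pl K) (hq : SqP D q) (A : Kˣ)
    (S : Finset (Pl K)) (hS : ∀ v ∈ S, v ∉ D.S0)
    (hAS : ∀ v, v ∉ D.S0 → v ∉ S → ((ord v A : ℤ) : ZMod p) = 0)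
    (hAq : ∀ i e, ((ord (q i e) A : ℤ) : ZMod p) = 0)
    (hA : ∀ v ∈ S, ((ord v A : ℤ) : ZMod p) ≠ 0 → D.LL v (dq D (q 0)) = 0 ∨ D.LL v (dq D (q 1)) = 0)
    {Y1 Y2 : Gal(Ω/K) → ZMod p} (h1 : Rho L (dq D (q 0)) A Y1) (h2 : Rho L (dq D (q 1)) A Y2) :
    df Fr Y2 (q 0) + df Fr Y1 (q 1) = 0 := by
  obtain ⟨T, hTd⟩ : ∃ T : Finset (Pl K), T = (Finset.univ.image fun ie : Fin 2 × Fin 2 =>
    q ie.1 ie.2) ∪ S := ⟨_, rfl⟩
  have hqT : ∀ i e, q i e ∈ T := by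
    intro i e
    rw [hTd]
    exact Finset.mem_union_left _ (Finset.mem_image.2 ⟨(i, e), Finset.mem_univ _, rfl⟩)
  have hTq : ∀ v ∈ T, (∃ i e, v = q i e) ∨ v ∈ S := by
    intro v hv
    rw [hTd, Finset.mem_union] at hv
    rcases hv with hv | hv
    · obtain ⟨⟨i, e⟩, -, rfl⟩ := Finset.mem_image.1 hv
      exact Or.inl ⟨i, e, rfl⟩
    · exact Or.inr hv
  have hT : ∀ v ∈ T, v ∉ D.S0 := by
    intro v hv
    rcases hTq v hv with ⟨i, e, rfl⟩ | h
    · exact (hq.gd i e).1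
    · exact hS v h
  have hvan : ∀ v ∈ T, D.LL v (dq D (q 0)) * D.LL v (dq D (q 1)) *
      ((ord v A : ℤ) : ZMod p) = 0 := by
    intro v hv
    rcases hTq v hv with ⟨i, e, rfl⟩ | h
    · rw [hAq, mul_zero]
    · by_cases h0 : ((ord v A : ℤ) : ZMod p) = 0
      · rw [h0, mul_zero]
      · rcases hA v h h0 with h' | h'
        · rw [h', zero_mul, zero_mul]
        · rw [h', mul_zero, zero_mul]
  obtain ⟨a, ha⟩ : ∃ a : Fin 3 → Kˣ, a = ![dq D (q 0), dq D (q 1), A] := ⟨_, rfl⟩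
  have ha0 : a 0 = dq D (q 0) := by rw [ha]; rfl
  have ha1 : a 1 = dq D (q 1) := by rw [ha]; rfl
  have ha2 : a 2 = A := by rw [ha]; rfl
  have h1' : Rho L (a 0) (a 2) Y1 := by rw [ha0, ha2]; exact h1
  have h2' : Rho L (a 1) (a 2) Y2 := by rw [ha1, ha2]; exact h2
  have H := rcc_tri a 0 2 1 2 h1' h2'
    (fun v hv => by rw [ha0, ha2]; exact rcc_disA hq 0 A hAq v hv)
    (fun v hv => by rw [ha1, ha2]; exact rcc_disA hq 1 A hAq v hv)
  have hIV : ∀ v ∈ T, IV Fr a (fun i j k => if i = 0 ∧ j = 1 ∧ k = 2 then 1 else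
      if i = 1 ∧ j = 0 ∧ k = 2 then 1 else 0) (fun _ _ _ => 0)
      (fun i j k => if i = 0 ∧ j = 1 ∧ k = 2 then 1 else 0)
      (fun i j => if i = 0 ∧ j = 2 then Y1 else if i = 1 ∧ j = 2 then Y2 else 0) v =
      -(((ord v (dq D (q 0)) : ℤ) : ZMod p) * Y2 (Fr.F v)) -
        ((ord v (dq D (q 1)) : ℤ) : ZMod p) * Y1 (Fr.F v) := by
    intro v hv
    have e1 := hvan v hv
    have e2 := rcc_dis hq (i := 0) (j := 1) (by decide) v (hT v hv)
    unfold IV
    simp [Fin.sum_univ_three, ha0, ha1, ha2]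
    linear_combination e1 - D.LL v A * e2
  have key := br_tri hp hp2 hζ hz Fr a _
    (fun i j k => if i = 0 ∧ j = 1 ∧ k = 2 then 1 else
      if i = 1 ∧ j = 0 ∧ k = 2 then 1 else 0) (fun _ _ _ => 0)
    (fun i j k => if i = 0 ∧ j = 1 ∧ k = 2 then 1 else 0)
    (by
      intro i j k
      fin_cases i <;> fin_cases j <;> fin_cases k <;> simp)
    _ H ![dq D (q 0), dq D (q 1)]
    (by
      intro i
      fin_cases i
      · exact dq_ps hp D hq 0
      · exact dq_ps hp D hq 1)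
    (by
      intro g h hg hh
      have e1 : kk p ζ (a 0) g = 0 := by rw [ha0]; exact hg 0
      have e2 : kk p ζ (a 1) g = 0 := by rw [ha1]; exact hg 1
      simp [Fin.sum_univ_three, e1, e2])
    T hT
    (by
      intro v hv hvT i
      have e0 := rcc_ord0 hq 0 v hv fun e h => hvT (h ▸ hqT 0 e)
      have e1 := rcc_ord0 hq 1 v hv fun e h => hvT (h ▸ hqT 1 e)
      have e2 := hAS v hv fun h => hvT (by rw [hTd]; exact Finset.mem_union_right _ h)
      fin_cases i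
      · show ((ord v (a 0) : ℤ) : ZMod p) = 0
        rw [ha0]; exact e0
      · show ((ord v (a 1) : ℤ) : ZMod p) = 0
        rw [ha1]; exact e1
      · show ((ord v (a 2) : ℤ) : ZMod p) = 0
        rw [ha2]; exact e2)
    (by
      intro v hv hnp
      rw [hIV v hv]
      have hne : ∀ i e, v ≠ q i e := by
        rintro i e rfl
        exact hnp (hq.gd i e).2
      rw [rcc_ord0 hq 0 v (hT v hv) (hne 0), rcc_ord0 hq 1 v (hT v hv) (hne 1), zero_mul,
        zero_mul, neg_zero, sub_zero])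
  rw [Finset.sum_congr rfl hIV, Finset.sum_sub_distrib, Finset.sum_neg_distrib,
    rcc_sum hq 0 T hT (hqT _ _) (hqT _ _), rcc_sum hq 1 T hT (hqT _ _) (hqT _ _)] at key
  unfold df
  linear_combination -key

theorem mas (hp : p.Prime) (hp2 : MOne p K) (hζ : IsPrimitiveRoot ζ p) (hz : Z2 p K)
    {D : RD0 K p ζ} {L : LDs D Ω} (Fr : FR L) (q : Fin 2 → Fin 2 → Pl K) (hq : SqP D q) (A : Kˣ)
    (hA : PS p ζ D.S0 A) (S : Finset (Pl K)) (hS : ∀ v ∈ S, D.Gd v)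
    (hAS : ∀ v, v ∉ D.S0 → v ∉ S → ((ord v A : ℤ) : ZMod p) = 0)
    (hAq : ∀ i e, ((ord (q i e) A : ℤ) : ZMod p) = 0)
    {Y r : Gal(Ω/K) → ZMod p} (hY : Rho L (dq D (q 0)) A Y)
    (hr : Rho L (dq D (q 1)) (dq D (q 0)) r) :
    df Fr Y (q 1) = ∑ v ∈ S, ((ord v A : ℤ) : ZMod p) * r (Fr.F v) := by
  obtain ⟨T, hTd⟩ : ∃ T : Finset (Pl K), T = (Finset.univ.image fun ie : Fin 2 × Fin 2 =>
    q ie.1 ie.2) ∪ S := ⟨_, rfl⟩
  have hqT : ∀ i e, q i e ∈ T := by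
    intro i e
    rw [hTd]
    exact Finset.mem_union_left _ (Finset.mem_image.2 ⟨(i, e), Finset.mem_univ _, rfl⟩)
  have hTq : ∀ v ∈ T, (∃ i e, v = q i e) ∨ v ∈ S := by
    intro v hv
    rw [hTd, Finset.mem_union] at hv
    rcases hv with hv | hv
    · obtain ⟨⟨i, e⟩, -, rfl⟩ := Finset.mem_image.1 hv
      exact Or.inl ⟨i, e, rfl⟩
    · exact Or.inr hv
  have hTG : ∀ v ∈ T, D.Gd v := by
    intro v hv
    rcases hTq v hv with ⟨i, e, rfl⟩ | h
    · exact hq.gd i e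
    · exact hS v h
  have hT : ∀ v ∈ T, v ∉ D.S0 := fun v hv => (hTG v hv).1
  obtain ⟨a, ha⟩ : ∃ a : Fin 3 → Kˣ, a = ![dq D (q 0), dq D (q 1), A] := ⟨_, rfl⟩
  have ha0 : a 0 = dq D (q 0) := by rw [ha]; rfl
  have ha1 : a 1 = dq D (q 1) := by rw [ha]; rfl
  have ha2 : a 2 = A := by rw [ha]; rfl
  have h1' : Rho L (a 0) (a 2) Y := by rw [ha0, ha2]; exact hY
  have h2' : Rho L (a 1) (a 0) r := by rw [ha0, ha1]; exact hr
  have H := rcc_tri a 0 2 1 0 h1' h2'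
    (fun v hv => by rw [ha0, ha2]; exact rcc_disA hq 0 A hAq v hv)
    (fun v hv => by rw [ha0, ha1]; exact rcc_dis hq (by decide) v hv)
  have hIV : ∀ v ∈ T, IV Fr a (fun i j k => if i = 1 ∧ j = 0 ∧ k = 2 then 1 else 0)
      (fun i j k => if i = 1 ∧ j = 0 ∧ k = 2 then 1 else 0) (fun _ _ _ => 0)
      (fun i j => if i = 0 ∧ j = 2 then Y else if i = 1 ∧ j = 0 then r else 0) v =
      ((ord v A : ℤ) : ZMod p) * r (Fr.F v) -
        ((ord v (dq D (q 1)) : ℤ) : ZMod p) * Y (Fr.F v) := by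
    intro v hv
    unfold IV
    simp [Fin.sum_univ_three, ha0, ha1, ha2]
    ring
  have key := br_tri hp hp2 hζ hz Fr a _
    (fun i j k => if i = 1 ∧ j = 0 ∧ k = 2 then 1 else 0)
    (fun i j k => if i = 1 ∧ j = 0 ∧ k = 2 then 1 else 0) (fun _ _ _ => 0)
    (by
      intro i j k
      by_cases h : i = 1 ∧ j = 0 ∧ k = 2
      · obtain ⟨rfl, rfl, rfl⟩ := h
        simp
      · simp only [if_neg h, zero_mul, add_zero])
    _ H ![dq D (q 1), A]
    (by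
      intro i
      fin_cases i
      · exact dq_ps hp D hq 1
      · exact hA)
    (by
      intro g h hg hh
      have e1 : kk p ζ (a 1) g = 0 := by rw [ha1]; exact hg 0
      have e2 : kk p ζ (a 2) h = 0 := by rw [ha2]; exact hh 1
      simp [Fin.sum_univ_three, e1, e2])
    T hT
    (by
      intro v hv hvT i
      have e0 := rcc_ord0 hq 0 v hv fun e h => hvT (h ▸ hqT 0 e)
      have e1 := rcc_ord0 hq 1 v hv fun e h => hvT (h ▸ hqT 1 e)
      have e2 := hAS v hv fun h => hvT (by rw [hTd]; exact Finset.mem_union_right _ h)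
      fin_cases i
      · show ((ord v (a 0) : ℤ) : ZMod p) = 0
        rw [ha0]; exact e0
      · show ((ord v (a 1) : ℤ) : ZMod p) = 0
        rw [ha1]; exact e1
      · show ((ord v (a 2) : ℤ) : ZMod p) = 0
        rw [ha2]; exact e2)
    (fun v hv hnp => absurd (hTG v hv).2 hnp)
  have hSum : ∑ v ∈ T, ((ord v A : ℤ) : ZMod p) * r (Fr.F v) =
      ∑ v ∈ S, ((ord v A : ℤ) : ZMod p) * r (Fr.F v) := by
    symm
    refine Finset.sum_subset (by rw [hTd]; exact Finset.subset_union_right) ?_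
    intro v hv hvS
    rcases hTq v hv with ⟨i, e, rfl⟩ | h
    · rw [hAq, zero_mul]
    · exact absurd h hvS
  rw [Finset.sum_congr rfl hIV, Finset.sum_sub_distrib, hSum,
    rcc_sum hq 1 T hT (hqT _ _) (hqT _ _)] at key
  unfold df
  linear_combination -key

end H51.CUB
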