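import Pool.Agent.H51.CUB.CBP
import Pool.Agent.H51.CUB.RCC

/-!
[H51 CUB C3F]  The cube property of `VF` (220-280 lines). PROOF.

`G a b' c = VF .. ![a, b', c]`. `d`: not injective. `un`: `ff_norm`. `n1`: `vf_step` with `i = 0`, `q' = a'` (`Function.update ![a, b', c] 0 a' = ![a', b', c]`). `n2`, `n3`: `vf_step` with `i = 1, 2`; the symbols `LL a (pi b'')` come from `LL b'' (pi a)` by `D.rec2` (`LL v (pi w) - LL w (pi v)` depends only on the classes; cells have constant class).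
`cube`: put `q = ![![a, a'], ![b, b'], ![c, c']]`. All 8 values `VF .. (fun i => q i (e i))` are nonzero (`n1`, `n2`, `n3` starting from `G a b c ≠ 0`; the hypotheses on the symbols for all `x, y, z`). So (unfold `VF`: injective and outside `n`; `ff_ne`, `ff_val`) there are `ρ e ∈ XS` with `VF = ep (EE (ρ e))` and `HI` at every vertex.
`ep_add`, `conj (ep x) = ep (- x)`: the left side is `ep (∑ e, (-1) ^ |e| * EE (ρ e))` and `cube_phase` applies: `CubeH`: `bse := hB`, `inj` from the hypotheses, `gd`, `cls`, `hn` from the cells, `hs i j`: the symbols are constant (for `i < j` the hypothesis: `LL y (pi x)`, `x ∈ q i`, `y ∈ q j`; for `i > j` by `D.rec2`).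
VALUES: `dq D (q i) = pi (q i 0) / pi (q i 1)`. Given `Y : Rho L (dq (q 1)) (dq (q 0))`. `rho_smul_left`: `kV_k * Y : Rho L (dq (q 1) ^ kV_k.val) (dq (q 0))`; by `rho_diff`: `y12 (F (q 2 0)) k - y12 (F (q 2 1)) k = kV (pu τ 1) (pu τ 0) k * df Fr Y (q 2)`.
`box_rho` gives `Y31 : Rho L (dq (q 2)) (dq (q 0))`, `Y32 : Rho L (dq (q 2)) (dq (q 1))`; the same argument: `y13`: `kV (pu τ 2) (pu τ 0) k * df Fr Y31 (q 1)`, `y23`: `kV (pu τ 2) (pu τ 1) k * df Fr Y32 (q 0)`.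
`red` for `![q 2, q 1, q 0]`: `df Y32 (q 0) = df Y (q 2)`. `red` for `![q 2, q 0, q 1]` with `Y31` and `Y12 = kk (dq (q 1)) * kk (dq (q 0)) - Y` (`rho_flip`; the supports are disjoint): `df Y31 (q 1) = df Y12 (q 2) = - df Y (q 2)` (`kk (dq (q 1)) (F v) = LL v (dq (q 1)) = 0` at `v = q 2 e`, `Fr.kf`, `ll_div`).
So the phase is `df Y (q 2) * (φ 2 · β (kV s1 s0) s2 - φ 1 · β (kV s2 s0) s1 + φ 0 · β (kV s2 s1) s0) = - df Y (q 2) * kp3` (`kV_swap`; `dt`, `β` linear).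
-/

set_option autoImplicit false

open scoped NumberField ComplexConjugate
open IsDedekindDomain
open scoped Classical

noncomputable section

namespace H51.CUB

open H63.MA H38.BB H38.BG H57.PC H77.PC3 H57.BRA

variable {K : Type} [Field K] [NumberField K] {p : ℕ} {ζ : K} {Ω : Type} [Field Ω] [Algebra K Ω]
  {m l w N : ℕ} {P R : Type} [Group P] [Group R]

/-- the linking number of three labels -/
def kp3 (Dg : GP p m l w N P R) (φ : Fin 3 → Fin w → ZMod p) (s : Fin 3 → Fin m → ZMod p) : ZMod p :=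
  dt (φ 0) (Dg.β (Dg.kV (s 1) (s 2)) (s 0)) + dt (φ 1) (Dg.β (Dg.kV (s 2) (s 0)) (s 1)) +
    dt (φ 2) (Dg.β (Dg.kV (s 0) (s 1)) (s 2))

variable [IsAlgClosure K Ω]

theorem rho_smul_left (hp : p.Prime) (hζ : IsPrimitiveRoot ζ p) {D : RD0 K p ζ} {L : LDs D Ω}
    {d c : Kˣ} {Y : Gal(Ω/K) → ZMod p} (h : Rho L d c Y) (n : ℕ) :
    Rho L (d ^ n) c fun g => (n : ZMod p) * Y g := by
  refine ⟨gtriv_lev h.lev h.lev fun x _ => (n : ZMod p) * x, fun g k => ?_, fun v hv => ?_⟩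
  · show (n : ZMod p) * Y (g * k) = (n : ZMod p) * Y g + (n : ZMod p) * Y k + _
    have h1 : kk p ζ (d ^ n) g = (n : ZMod p) * kk p ζ d g := by
      rw [← zpow_natCast, kk_zpow_arg hp hζ, Int.cast_natCast]
    rw [h.add, h1]
    ring
  · show (n : ZMod p) * Y (L.t v) = 0
    rw [h.tz v hv, mul_zero]

theorem vf_norm {D : RD0 K p ζ} {L : LDs D Ω} (Fr : FR L) (Dg : GP p m l w N P R) (b : Fin m → Kˣ)
    (E : Finset (Pl K)) (ε : Pl K → Gal(Ω/K) → R) (n : Finset (Pl K)) (σ : Pl K → R)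
    (ψ : Pl K → Fin w → ZMod p) {r : ℕ} (τ : Fin r → R) (φ : Fin r → Fin w → ZMod p)
    (q : Fin r → Pl K) : VF Dg Fr b E ε n σ ψ τ φ q = 0 ∨ ‖VF Dg Fr b E ε n σ ψ τ φ q‖ = 1 := by
  unfold VF
  split_ifs
  · exact ff_norm Fr Dg b E ε _ _ _
  · exact Or.inl rfl

private theorem c3_sum {M : Type} [AddCommMonoid M] (f : (Fin 3 → Fin 2) → M) :
    ∑ e, f e = ∑ x : Fin 2, ∑ y : Fin 2, ∑ z : Fin 2, f ![x, y, z] := by
  let F : (Fin 2 × Fin 2 × Fin 2) ≃ (Fin 3 → Fin 2) :=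
    { toFun := fun x => ![x.1, x.2.1, x.2.2]
      invFun := fun f => (f 0, f 1, f 2)
      left_inv := fun x => rfl
      right_inv := fun f => by
        funext i
        fin_cases i <;> rfl }
  rw [← Fintype.sum_equiv F (fun x => f (F x)) f (fun _ => rfl), Fintype.sum_prod_type]
  refine Finset.sum_congr rfl fun x _ => ?_
  rw [Fintype.sum_prod_type]
  rfl

private theorem c3_alt (W : (Fin 3 → Fin 2) → ZMod p) :
    ∑ e : Fin 3 → Fin 2, (-1) ^ (∑ i, (e i).val) * W e =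
      W ![0, 0, 0] - W ![1, 0, 0] - W ![0, 1, 0] + W ![1, 1, 0] -
        (W ![0, 0, 1] - W ![1, 0, 1] - W ![0, 1, 1] + W ![1, 1, 1]) := by
  have e1 : ∀ x y z : Fin 2, ∑ i, ((![x, y, z] : Fin 3 → Fin 2) i).val =
      x.val + y.val + z.val := fun x y z => by rw [Fin.sum_univ_three]; rfl
  rw [c3_sum]
  simp only [Fin.sum_univ_two, e1]
  have e0 : ((0 : Fin 2)).val = 0 := rfl
  have e2 : ((1 : Fin 2)).val = 1 := rfl
  rw [e0, e2]
  ring

private theorem c3_conj (hp : p.Prime) (x : ZMod p) : (starRingEnd ℂ) (ep p x) = ep p (-x) := by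
  have h1 : ep p x * ep p (-x) = 1 := by rw [← ep_add hp, add_neg_cancel, ep_zero]
  have h2 : ep p x * (starRingEnd ℂ) (ep p x) = 1 := by
    rw [Complex.mul_conj, Complex.normSq_eq_norm_sq, ep_norm]
    norm_num
  have h3 : ep p x ≠ 0 := by
    rw [← norm_ne_zero_iff, ep_norm]
    exact one_ne_zero
  exact mul_left_cancel₀ h3 (h2.trans h1.symm)

private theorem c3_sw (D : RD K p ζ) {v x x' : Pl K} (hv : D.Gd v) (hx : D.Gd x) (hx' : D.Gd x')
    (h1 : v ≠ x) (h2 : v ≠ x') (hq : D.q x = D.q x') (h : D.LL x' (D.pi v) = D.LL x (D.pi v)) :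
    D.LL v (D.pi x') = D.LL v (D.pi x) := by
  have r1 := D.rec2 v x hv hx h1
  have r2 := D.rec2 v x' hv hx' h2
  rw [← hq, ← r1] at r2
  linear_combination r2 + h

private theorem c3_sw' (D : RD K p ζ) {v x x' : Pl K} (hv : D.Gd v) (hx : D.Gd x) (hx' : D.Gd x')
    (h1 : v ≠ x) (h2 : v ≠ x') (hq : D.q x = D.q x') (h : D.LL v (D.pi x') = D.LL v (D.pi x)) :
    D.LL x' (D.pi v) = D.LL x (D.pi v) := by
  have r1 := D.rec2 v x hv hx h1
  have r2 := D.rec2 v x' hv hx' h2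
  rw [← hq, ← r1] at r2
  linear_combination h - r2

private theorem c3_dt (θ x y : Fin w → ZMod p) : dt θ (x + y) = dt θ x + dt θ y := by
  unfold dt
  rw [← Finset.sum_add_distrib]
  exact Finset.sum_congr rfl fun k _ => by rw [Pi.add_apply, mul_add]

private theorem c3_dts (c : ZMod p) (θ x : Fin w → ZMod p) : dt θ (c • x) = c * dt θ x := by
  unfold dt
  rw [Finset.mul_sum]
  exact Finset.sum_congr rfl fun k _ => by rw [Pi.smul_apply, smul_eq_mul]; ring

private theorem c3_vec {X : Type} (f : Fin 3 → X) : f = ![f 0, f 1, f 2] := by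
  funext i
  fin_cases i <;> rfl

private theorem c3_vertex [NeZero p] [Finite R] (hp : p.Prime) (hp2 : MOne p K)
    (hζ : IsPrimitiveRoot ζ p)
    (D : RD K p ζ) {L : LDs D.toRD0 Ω} (Fr : FR L) (Dg : GP p m l w N P R)
    (b : Fin m → Kˣ) (E : Finset (Pl K)) (ε : Pl K → Gal(Ω/K) → R) (n : Finset (Pl K))
    (σ : Pl K → R) (ψ : Pl K → Fin w → ZMod p) (hB : Bse D.toRD0 b E n) {r : ℕ} (τ : Fin r → R)
    (hτ : ∀ i, τ i ^ p = 1) (φ : Fin r → Fin w → ZMod p) (Q : Fin r → Finset (Pl K))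
    (hQ : ∀ i, Cell D.toRD0 Dg b E n σ (Q i)) (q : Fin r → Fin 2 → Pl K)
    (hqQ : ∀ i e, q i e ∈ Q i) (hinj : ∀ i e j e', q i e = q j e' → i = j ∧ e = e')
    (hs : ∀ i j, i ≠ j → ∀ e, D.LL (q j e) (D.pi (q i 0)) = D.LL (q j e) (D.pi (q i 1)))
    (e : Fin r → Fin 2) (i : Fin r) (x : Fin 2)
    (h : VF Dg Fr b E ε n σ ψ τ φ (fun j => q j (e j)) ≠ 0) (he : e i = 0) :
    VF Dg Fr b E ε n σ ψ τ φ (fun j => q j (Function.update e i x j)) ≠ 0 := by
  by_cases hx : x = 0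
  · have h1 : Function.update e i x = e := by rw [hx, ← he, Function.update_eq_self]
    rw [h1]
    exact h
  · have hx1 : x = 1 := Fin.eq_one_of_ne_zero x hx
    have h1 : (fun j => q j (Function.update e i x j)) =
        Function.update (fun j => q j (e j)) i (q i x) := by
      funext j
      exact Function.apply_update (fun j => q j) e i x j
    rw [h1]
    refine vf_step hp hp2 hζ D Fr Dg b E ε n σ ψ hB τ hτ φ Q hQ (fun j => q j (e j))
      (fun j => hqQ j (e j)) i (q i x) (hqQ i x) ?_ ?_ h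
    · intro j hj hh
      exact hj (hinj _ _ _ _ hh).1.symm
    · intro j hj
      show D.LL (q j (e j)) (D.pi (q i x)) = D.LL (q j (e j)) (D.pi (q i (e i)))
      rw [he, hx1]
      exact (hs i j hj.symm (e j)).symm

private theorem c3_data [NeZero p] [Finite R] (hp : p.Prime)
    (hζ : IsPrimitiveRoot ζ p)
    {D : RD0 K p ζ} {L : LDs D Ω} (Fr : FR L) (Dg : GP p m l w N P R)
    (b : Fin m → Kˣ) (E : Finset (Pl K)) (ε : Pl K → Gal(Ω/K) → R) (n : Finset (Pl K))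
    (σ : Pl K → R) (ψ : Pl K → Fin w → ZMod p) (hn : ∀ v ∈ n, v ∉ D.S0) {r : ℕ} (τ : Fin r → R)
    (φ : Fin r → Fin w → ZMod p) (q : Fin r → Pl K) (hq : ∀ i, q i ∉ D.S0)
    (h : VF Dg Fr b E ε n σ ψ τ φ q ≠ 0) :
    ∃ ρ, ρ ∈ XS L Dg b E ε (vn n q) (vs σ q τ) ∧ HI Dg Fr (vn n q) (vs σ q τ) (vs ψ q φ) ∧
      VF Dg Fr b E ε n σ ψ τ φ q = ep p (EE Dg Fr (vn n q) (vs ψ q φ) ρ) := by
  unfold VF at h ⊢
  by_cases hc : Function.Injective q ∧ ∀ i, q i ∉ n
  swap
  · rw [if_neg hc] at h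
    exact absurd rfl h
  rw [if_pos hc] at h ⊢
  obtain ⟨h1, ρ, h2⟩ := ff_ne Fr Dg b E ε _ _ _ h
  refine ⟨ρ, h2, h1, ff_val hp hζ Fr Dg b E ε _ _ _ ?_ h1 h2⟩
  intro v hv
  unfold vn at hv
  rcases Finset.mem_union.1 hv with h3 | h3
  · exact hn v h3
  · obtain ⟨i, -, hi⟩ := Finset.mem_image.1 h3
    rw [← hi]
    exact hq i

private theorem c3_cube [NeZero p] [Finite R] (hp : p.Prime) (hp2 : MOne p K)
    (hζ : IsPrimitiveRoot ζ p)
    (hz : Z2 p K) (D : RD K p ζ) {L : LDs D.toRD0 Ω} (Fr : FR L) (Dg : GP p m l w N P R)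
    (b : Fin m → Kˣ) (E : Finset (Pl K)) (ε : Pl K → Gal(Ω/K) → R) (n : Finset (Pl K))
    (σ : Pl K → R) (ψ : Pl K → Fin w → ZMod p) (hB : Bse D.toRD0 b E n) (τ : Fin 3 → R)
    (hτ : ∀ i, τ i ^ p = 1) (φ : Fin 3 → Fin w → ZMod p) (Q : Fin 3 → Finset (Pl K))
    (hQ : ∀ i, Cell D.toRD0 Dg b E n σ (Q i)) (q : Fin 3 → Fin 2 → Pl K)
    (hqQ : ∀ i e, q i e ∈ Q i) (hinj : ∀ i e j e', q i e = q j e' → i = j ∧ e = e')
    (hs : ∀ i j, i ≠ j → ∀ e, D.LL (q j e) (D.pi (q i 0)) = D.LL (q j e) (D.pi (q i 1)))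
    (h0 : VF Dg Fr b E ε n σ ψ τ φ ![q 0 0, q 1 0, q 2 0] ≠ 0) {Y : Gal(Ω/K) → ZMod p}
    (hY : Rho L (dq D.toRD0 (q 1)) (dq D.toRD0 (q 0)) Y) :
    H57.TLS.q4 (fun x y z => VF Dg Fr b E ε n σ ψ τ φ ![x, y, z]) (q 0 0) (q 0 1) (q 1 0) (q 1 1) (q 2 0) *
      conj (H57.TLS.q4 (fun x y z => VF Dg Fr b E ε n σ ψ τ φ ![x, y, z]) (q 0 0) (q 0 1) (q 1 0) (q 1 1)
        (q 2 1)) = ep p ((- kp3 Dg φ fun i => pu Dg (τ i)) * df Fr Y (q 2)) := by
  have hgd : ∀ i e, D.Gd (q i e) := fun i e => ((hQ i).gd _ (hqQ i e)).1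
  have hcls : ∀ i, D.q (q i 0) = D.q (q i 1) := fun i => (hQ i).cls _ (hqQ i 0) _ (hqQ i 1)
  have hne : ∀ i j e e', i ≠ j → q i e ≠ q j e' := fun i j e e' h h' => h (hinj _ _ _ _ h').1
  -- all vertices
  have hvec : ∀ e : Fin 3 → Fin 2, (fun j => q j (e j)) = ![q 0 (e 0), q 1 (e 1), q 2 (e 2)] :=
    fun e => c3_vec _
  have hV0 : VF Dg Fr b E ε n σ ψ τ φ (fun j => q j ((0 : Fin 3 → Fin 2) j)) ≠ 0 := by
    rw [hvec]
    exact h0
  have step := c3_vertex hp hp2 hζ D Fr Dg b E ε n σ ψ hB τ hτ φ Q hQ q hqQ hinj hs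
  have hV : ∀ e : Fin 3 → Fin 2, VF Dg Fr b E ε n σ ψ τ φ (fun j => q j (e j)) ≠ 0 := by
    intro e
    have s1 := step 0 0 (e 0) hV0 rfl
    have s2 := step _ 1 (e 1) s1 (by rw [Function.update_of_ne (by decide)]; rfl)
    have s3 := step _ 2 (e 2) s2 (by
      rw [Function.update_of_ne (by decide), Function.update_of_ne (by decide)]; rfl)
    have h1 : Function.update (Function.update (Function.update (0 : Fin 3 → Fin 2) 0 (e 0)) 1
        (e 1)) 2 (e 2) = e := by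
      funext i
      have d02 : (0 : Fin 3) ≠ 2 := by decide
      have d01 : (0 : Fin 3) ≠ 1 := by decide
      have d12 : (1 : Fin 3) ≠ 2 := by decide
      rcases (show i = 0 ∨ i = 1 ∨ i = 2 by fin_cases i <;> simp) with h | h | h
      · rw [h, Function.update_of_ne d02, Function.update_of_ne d01, Function.update_self]
      · rw [h, Function.update_of_ne d12, Function.update_self]
      · rw [h, Function.update_self]
    rw [h1] at s3
    exact s3
  have hdat := fun e : Fin 3 → Fin 2 => c3_data hp hζ Fr Dg b E ε n σ ψ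
    (fun v hv => (hB.gn v hv).1.1) τ φ (fun j => q j (e j)) (fun i => (hgd i (e i)).1) (hV e)
  choose ρ hρ hHI hval using hdat
  have hC : CubeH D.toRD0 b E n q := by
    refine ⟨hB, hinj, fun i e => (hQ i).gd _ (hqQ i e), hcls, ?_, hs⟩
    intro v hv i
    exact (hQ i).ln v hv _ (hqQ i 0) _ (hqQ i 1)
  obtain ⟨y12, y13, y23, r12, r13, r23, hsum⟩ := cube_phase hp hζ D.toRD0 Fr Dg b E ε n σ ψ τ hτ φ
    q hC ρ hρ (hHI fun _ => 1)
  rw [c3_alt] at hsum
  -- the product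
  have hG : ∀ x y z : Fin 2, VF Dg Fr b E ε n σ ψ τ φ ![q 0 x, q 1 y, q 2 z] =
      ep p (EE Dg Fr (vn n fun j => q j ((![x, y, z] : Fin 3 → Fin 2) j))
        (vs ψ (fun j => q j ((![x, y, z] : Fin 3 → Fin 2) j)) φ) (ρ ![x, y, z])) := by
    intro x y z
    rw [← hval ![x, y, z], hvec ![x, y, z]]
    rfl
  have hprod : H57.TLS.q4 (fun x y z => VF Dg Fr b E ε n σ ψ τ φ ![x, y, z]) (q 0 0) (q 0 1) (q 1 0)
      (q 1 1) (q 2 0) *
      conj (H57.TLS.q4 (fun x y z => VF Dg Fr b E ε n σ ψ τ φ ![x, y, z]) (q 0 0) (q 0 1) (q 1 0) (q 1 1)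
        (q 2 1)) = ep p (dt (φ 2) (Dg.β (y12 (Fr.F (q 2 0)) - y12 (Fr.F (q 2 1))) (pu Dg (τ 2))) +
        dt (φ 1) (Dg.β (y13 (Fr.F (q 1 0)) - y13 (Fr.F (q 1 1))) (pu Dg (τ 1))) +
        dt (φ 0) (Dg.β (y23 (Fr.F (q 0 0)) - y23 (Fr.F (q 0 1))) (pu Dg (τ 0)))) := by
    rw [← hsum]
    unfold H57.TLS.q4
    simp only [hG, c3_conj hp, ← ep_add hp]
    congr 1
    ring
  rw [hprod]
  -- the values
  have hbox : ∀ i j, i ≠ j → ∃ Y : Gal(Ω/K) → ZMod p,
      Rho L (dq D.toRD0 (q j)) (dq D.toRD0 (q i)) Y := by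
    intro i j hij
    have k1 := hs i j hij 0
    have k2 := c3_sw' D (hgd i 0) (hgd j 0) (hgd j 1) (hne i j 0 0 hij) (hne i j 0 1 hij) (hcls j)
      (hs j i hij.symm 0).symm
    have k3 := c3_sw' D (hgd i 1) (hgd j 0) (hgd j 1) (hne i j 1 0 hij) (hne i j 1 1 hij) (hcls j)
      (hs j i hij.symm 1).symm
    exact box_rho hp hp2 hζ D L (hgd i 0) (hgd i 1) (hgd j 0) (hgd j 1) (hcls i) (hcls j)
      ⟨hne i j 0 0 hij, hne i j 0 1 hij, hne i j 1 0 hij, hne i j 1 1 hij⟩ k1.symm k2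
      (k3.trans k1.symm)
  obtain ⟨Y31, hY31⟩ := hbox 0 2 (by decide)
  obtain ⟨Y32, hY32⟩ := hbox 1 2 (by decide)
  have hdiff : ∀ (i j k' : Fin 3) (t : Fin l → ZMod p) (y : Gal(Ω/K) → Fin l → ZMod p)
      (Z : Gal(Ω/K) → ZMod p)
      (_ : ∀ k, Rho L ((D.pi (q j 0) / D.pi (q j 1)) ^ (t k).val)
        (D.pi (q i 0) / D.pi (q i 1)) fun g => y g k)
      (_ : Rho L (dq D.toRD0 (q j)) (dq D.toRD0 (q i)) Z),
      y (Fr.F (q k' 0)) - y (Fr.F (q k' 1)) = df Fr Z (q k') • t := by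
    intro i j k' t y Z h1 h2
    funext k
    have h3 := rho_diff hp hζ D L Fr (h1 k) (rho_smul_left hp hζ h2 (t k).val) (hgd k' 0)
      (hgd k' 1) (hcls k')
    rw [Pi.sub_apply, h3, Pi.smul_apply, smul_eq_mul, ZMod.natCast_zmod_val]
    unfold df
    ring
  rw [hdiff 0 1 2 _ y12 Y r12 hY, hdiff 0 2 1 _ y13 Y31 r13 hY31, hdiff 1 2 0 _ y23 Y32 r23 hY32]
  have hsq : SqP D.toRD0 q := ⟨hgd, hinj, hcls⟩
  have hperm : ∀ s : Equiv.Perm (Fin 3), SqP D.toRD0 (fun i => q (s i)) := fun s =>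
    ⟨fun i e => hgd _ _, fun i e j e' h => ⟨s.injective (hinj _ _ _ _ h).1, (hinj _ _ _ _ h).2⟩,
      fun i => hcls _⟩
  have e32 : df Fr Y32 (q 0) = df Fr Y (q 2) := by
    have h1 : SqP D.toRD0 ![q 2, q 1, q 0] := by
      have h2 := hperm (Equiv.swap 0 2)
      have h3 : (fun i => q (Equiv.swap (0 : Fin 3) 2 i)) = ![q 2, q 1, q 0] := by
        funext i
        fin_cases i <;> rfl
      rwa [h3] at h2
    exact red hp hp2 hζ hz Fr ![q 2, q 1, q 0] h1 hY32 hY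
  have hdis : ∀ v, v ∉ D.S0 → ((ord v (dq D.toRD0 (q 1)) : ℤ) : ZMod p) = 0 ∨
      ((ord v (dq D.toRD0 (q 0)) : ℤ) : ZMod p) = 0 := by
    intro v hv
    rw [dq_ord D.toRD0 hsq 1 v hv, dq_ord D.toRD0 hsq 0 v hv]
    by_cases h1 : v = q 1 0
    · right
      rw [if_neg (by rw [h1]; exact hne 1 0 0 0 (by decide)),
        if_neg (by rw [h1]; exact hne 1 0 0 1 (by decide)), sub_self, Int.cast_zero]
    by_cases h2 : v = q 1 1
    · right
      rw [if_neg (by rw [h2]; exact hne 1 0 1 0 (by decide)),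
        if_neg (by rw [h2]; exact hne 1 0 1 1 (by decide)), sub_self, Int.cast_zero]
    left
    rw [if_neg h1, if_neg h2, sub_self, Int.cast_zero]
  have e31 : df Fr Y31 (q 1) = - df Fr Y (q 2) := by
    have h1 : SqP D.toRD0 ![q 2, q 0, q 1] := by
      have h2 := hperm ((Equiv.swap 0 1) * (Equiv.swap 0 2))
      have h3 : (fun i => q (((Equiv.swap 0 1) * (Equiv.swap 0 2) : Equiv.Perm (Fin 3)) i)) =
          ![q 2, q 0, q 1] := by
        funext i
        fin_cases i <;> rfl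
      rwa [h3] at h2
    have h4 := red hp hp2 hζ hz Fr ![q 2, q 0, q 1] h1 hY31 (rho_flip hp hζ hY hdis)
    have h5 : df Fr Y31 (q 1) =
      df Fr (fun g => kk p ζ (dq D.toRD0 (q 1)) g * kk p ζ (dq D.toRD0 (q 0)) g - Y g) (q 2) := h4
    rw [h5]
    have h6 : ∀ e, kk p ζ (dq D.toRD0 (q 1)) (Fr.F (q 2 e)) = 0 := by
      intro e
      rw [Fr.kf _ (hgd 2 e).1]
      unfold dq
      rw [ll_div hp hζ D.toRD0 (hgd 2 e).1, hs 1 2 (by decide) e, sub_self]
    unfold df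
    simp only [h6]
    ring
  rw [e31, e32]
  congr 1
  unfold kp3
  have hk12 := kV_swap Dg (pu Dg (τ 2)) (pu Dg (τ 1))
  have hk01 := kV_swap Dg (pu Dg (τ 1)) (pu Dg (τ 0))
  simp only [map_smul, LinearMap.smul_apply, c3_dts]
  rw [hk12, hk01]
  simp only [map_neg, LinearMap.neg_apply]
  have hneg : ∀ (θ x : Fin w → ZMod p), dt θ (-x) = - dt θ x := by
    intro θ x
    have h := c3_dts (-1) θ x
    rw [neg_one_smul, neg_one_mul] at h
    exact h
  rw [hneg, hneg]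
  ring

theorem c3f [NeZero p] [Finite R] (hp : p.Prime) (hp2 : MOne p K) (hζ : IsPrimitiveRoot ζ p)
    (hz : Z2 p K) (D : RD K p ζ) {L : LDs D.toRD0 Ω} (Fr : FR L) (Dg : GP p m l w N P R)
    (b : Fin m → Kˣ) (E : Finset (Pl K)) (ε : Pl K → Gal(Ω/K) → R) (n : Finset (Pl K))
    (σ : Pl K → R) (ψ : Pl K → Fin w → ZMod p) (hB : Bse D.toRD0 b E n) (τ : Fin 3 → R)
    (hτ : ∀ i, τ i ^ p = 1) (φ : Fin 3 → Fin w → ZMod p) (Q : Fin 3 → Finset (Pl K))
    (hQ : ∀ i, Cell D.toRD0 Dg b E n σ (Q i)) :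
    C3 D.toRD0 Fr (- kp3 Dg φ fun i => pu Dg (τ i)) (Q 0) (Q 1) (Q 2)
      (fun x y z => VF Dg Fr b E ε n σ ψ τ φ ![x, y, z]) := by
  have hvinj : ∀ x y z, VF Dg Fr b E ε n σ ψ τ φ ![x, y, z] ≠ 0 →
      Function.Injective (![x, y, z] : Fin 3 → Pl K) := by
    intro x y z h
    by_contra h1
    apply h
    unfold VF
    rw [if_neg fun h2 => h1 h2.1]
  have hvne : ∀ x y z, VF Dg Fr b E ε n σ ψ τ φ ![x, y, z] ≠ 0 → x ≠ y ∧ x ≠ z ∧ y ≠ z := by
    intro x y z h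
    have h1 := hvinj x y z h
    refine ⟨fun h2 => ?_, fun h2 => ?_, fun h2 => ?_⟩
    · exact absurd (h1 (show (![x, y, z] : Fin 3 → Pl K) 0 = ![x, y, z] 1 from h2)) (by decide)
    · exact absurd (h1 (show (![x, y, z] : Fin 3 → Pl K) 0 = ![x, y, z] 2 from h2)) (by decide)
    · exact absurd (h1 (show (![x, y, z] : Fin 3 → Pl K) 1 = ![x, y, z] 2 from h2)) (by decide)
  have hstep := fun (x y z : Pl K) (hx : x ∈ Q 0) (hy : y ∈ Q 1) (hz : z ∈ Q 2) =>
    vf_step hp hp2 hζ D Fr Dg b E ε n σ ψ hB τ hτ φ Q hQ ![x, y, z] (fun i => by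
      fin_cases i
      · exact hx
      · exact hy
      · exact hz)
  have u0 : ∀ x y z x' : Pl K, Function.update ![x, y, z] (0 : Fin 3) x' = ![x', y, z] := by
    intro x y z x'
    funext i
    fin_cases i <;> rfl
  have u1 : ∀ x y z x' : Pl K, Function.update ![x, y, z] (1 : Fin 3) x' = ![x, x', z] := by
    intro x y z x'
    funext i
    fin_cases i <;> rfl
  have u2 : ∀ x y z x' : Pl K, Function.update ![x, y, z] (2 : Fin 3) x' = ![x, y, x'] := by
    intro x y z x'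
    funext i
    fin_cases i <;> rfl
  have hg : ∀ i, ∀ v ∈ Q i, D.Gd v := fun i v hv => ((hQ i).gd v hv).1
  refine ⟨?_, ?_, ?_, ?_, ?_, ?_⟩
  · intro x _ y _ z _ h
    by_contra h1
    obtain ⟨h2, h3, h4⟩ := hvne x y z h1
    rcases h with h | h | h
    · exact h2 h
    · exact h3 h
    · exact h4 h
  · intro x _ y _ z _ h
    exact (vf_norm Fr Dg b E ε n σ ψ τ φ _).resolve_left h
  · intro x hx x' hx' y hy z hz' hxy hxz h1 h2 h3
    have h4 := hstep x y z hx hy hz' 0 x' hx' (by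
      intro j hj
      fin_cases j
      · exact absurd rfl hj
      · exact hxy
      · exact hxz) (by
      intro j hj
      fin_cases j
      · exact absurd rfl hj
      · exact h1
      · exact h2) h3
    rwa [u0] at h4
  · intro x hx y hy y' hy' z hz' hyx hyz h1 h2 h3
    have h5 := hvne x y z h3
    have h6 := c3_sw D (hg 0 x hx) (hg 1 y hy) (hg 1 y' hy') h5.1 hyx.symm
      ((hQ 1).cls _ hy _ hy') h1
    have h4 := hstep x y z hx hy hz' 1 y' hy' (by
      intro j hj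
      fin_cases j
      · exact hyx
      · exact absurd rfl hj
      · exact hyz) (by
      intro j hj
      fin_cases j
      · exact h6
      · exact absurd rfl hj
      · exact h2) h3
    rwa [u1] at h4
  · intro x hx y hy z hz' z' hz'' hzx hzy h1 h2 h3
    have h5 := hvne x y z h3
    have h6 := c3_sw D (hg 0 x hx) (hg 2 z hz') (hg 2 z' hz'') h5.2.1 hzx.symm
      ((hQ 2).cls _ hz' _ hz'') h1
    have h7 := c3_sw D (hg 1 y hy) (hg 2 z hz') (hg 2 z' hz'') h5.2.2 hzy.symm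
      ((hQ 2).cls _ hz' _ hz'') h2
    have h4 := hstep x y z hx hy hz' 2 z' hz'' (by
      intro j hj
      fin_cases j
      · exact hzx
      · exact hzy
      · exact absurd rfl hj) (by
      intro j hj
      fin_cases j
      · exact h6
      · exact h7
      · exact absurd rfl hj) h3
    rwa [u2] at h4
  · intro a ha a' ha' x hx x' hx' c hc c' hc' haa hxx hcc hax hac hxc h0 Y hY
    obtain ⟨q, hq⟩ : ∃ q : Fin 3 → Fin 2 → Pl K, q = ![![a, a'], ![x, x'], ![c, c']] := ⟨_, rfl⟩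
    have q00 : q 0 0 = a := by rw [hq]; rfl
    have q01 : q 0 1 = a' := by rw [hq]; rfl
    have q10 : q 1 0 = x := by rw [hq]; rfl
    have q11 : q 1 1 = x' := by rw [hq]; rfl
    have q20 : q 2 0 = c := by rw [hq]; rfl
    have q21 : q 2 1 = c' := by rw [hq]; rfl
    have hm0 : ∀ e, q 0 e ∈ ({a, a'} : Finset (Pl K)) := by
      intro e
      fin_cases e
      · show q 0 0 ∈ _
        rw [q00]; exact Finset.mem_insert_self _ _
      · show q 0 1 ∈ _
        rw [q01]; exact Finset.mem_insert_of_mem (Finset.mem_singleton_self _)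
    have hm1 : ∀ e, q 1 e ∈ ({x, x'} : Finset (Pl K)) := by
      intro e
      fin_cases e
      · show q 1 0 ∈ _
        rw [q10]; exact Finset.mem_insert_self _ _
      · show q 1 1 ∈ _
        rw [q11]; exact Finset.mem_insert_of_mem (Finset.mem_singleton_self _)
    have hm2 : ∀ e, q 2 e ∈ ({c, c'} : Finset (Pl K)) := by
      intro e
      fin_cases e
      · show q 2 0 ∈ _
        rw [q20]; exact Finset.mem_insert_self _ _
      · show q 2 1 ∈ _
        rw [q21]; exact Finset.mem_insert_of_mem (Finset.mem_singleton_self _)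
    have hqQ : ∀ i e, q i e ∈ Q i := by
      intro i e
      fin_cases i <;> fin_cases e
      · show q 0 0 ∈ Q 0
        rwa [q00]
      · show q 0 1 ∈ Q 0
        rwa [q01]
      · show q 1 0 ∈ Q 1
        rwa [q10]
      · show q 1 1 ∈ Q 1
        rwa [q11]
      · show q 2 0 ∈ Q 2
        rwa [q20]
      · show q 2 1 ∈ Q 2
        rwa [q21]
    have hneq : ∀ i, q i 0 ≠ q i 1 := by
      intro i
      fin_cases i
      · show q 0 0 ≠ q 0 1
        rwa [q00, q01]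
      · show q 1 0 ≠ q 1 1
        rwa [q10, q11]
      · show q 2 0 ≠ q 2 1
        rwa [q20, q21]
    have n01 : ∀ e e', q 0 e ≠ q 1 e' := fun e e' => (hax _ (hm0 e) _ (hm1 e')).1
    have n02 : ∀ e e', q 0 e ≠ q 2 e' := fun e e' => (hac _ (hm0 e) _ (hm2 e')).1
    have n12 : ∀ e e', q 1 e ≠ q 2 e' := fun e e' => (hxc _ (hm1 e) _ (hm2 e')).1
    have l01 : ∀ e e' f f', D.LL (q 1 e') (D.pi (q 0 e)) = D.LL (q 1 f') (D.pi (q 0 f)) :=
      fun e e' f f' => (hax _ (hm0 e) _ (hm1 e')).2.trans (hax _ (hm0 f) _ (hm1 f')).2.symm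
    have l02 : ∀ e e' f f', D.LL (q 2 e') (D.pi (q 0 e)) = D.LL (q 2 f') (D.pi (q 0 f)) :=
      fun e e' f f' => (hac _ (hm0 e) _ (hm2 e')).2.trans (hac _ (hm0 f) _ (hm2 f')).2.symm
    have l12 : ∀ e e' f f', D.LL (q 2 e') (D.pi (q 1 e)) = D.LL (q 2 f') (D.pi (q 1 f)) :=
      fun e e' f f' => (hxc _ (hm1 e) _ (hm2 e')).2.trans (hxc _ (hm1 f) _ (hm2 f')).2.symm
    have hgd : ∀ i e, D.Gd (q i e) := fun i e => hg i _ (hqQ i e)
    have hcls : ∀ i, D.q (q i 0) = D.q (q i 1) := fun i => (hQ i).cls _ (hqQ i 0) _ (hqQ i 1)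
    have hinj : ∀ i e j e', q i e = q j e' → i = j ∧ e = e' := by
      intro i e j e' h
      have hij : i = j := by
        by_contra hij
        fin_cases i <;> fin_cases j
        · exact hij rfl
        · exact n01 e e' h
        · exact n02 e e' h
        · exact n01 e' e h.symm
        · exact hij rfl
        · exact n12 e e' h
        · exact n02 e' e h.symm
        · exact n12 e' e h.symm
        · exact hij rfl
      refine ⟨hij, ?_⟩
      subst hij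
      by_contra he
      fin_cases e <;> fin_cases e'
      · exact he rfl
      · exact hneq i h
      · exact hneq i h.symm
      · exact he rfl
    have hs : ∀ i j, i ≠ j → ∀ e, D.LL (q j e) (D.pi (q i 0)) = D.LL (q j e) (D.pi (q i 1)) := by
      intro i j hij e
      have rev : ∀ i j : Fin 3, (∀ f f', q i f ≠ q j f') →
          (∀ e e' f f', D.LL (q j e') (D.pi (q i e)) = D.LL (q j f') (D.pi (q i f))) →
          D.LL (q i e) (D.pi (q j 0)) = D.LL (q i e) (D.pi (q j 1)) := by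
        intro i j h1 h2
        exact (c3_sw D (hgd i e) (hgd j 0) (hgd j 1) (h1 e 0) (h1 e 1) (hcls j) (h2 _ _ _ _)).symm
      fin_cases i <;> fin_cases j
      · exact absurd rfl hij
      · exact l01 _ _ _ _
      · exact l02 _ _ _ _
      · exact rev 0 1 n01 l01
      · exact absurd rfl hij
      · exact l12 _ _ _ _
      · exact rev 0 2 n02 l02
      · exact rev 1 2 n12 l12
      · exact absurd rfl hij
    have h0' : VF Dg Fr b E ε n σ ψ τ φ ![q 0 0, q 1 0, q 2 0] ≠ 0 := by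
      rw [q00, q10, q20]
      exact h0
    have hY' : Rho L (dq D.toRD0 (q 1)) (dq D.toRD0 (q 0)) Y := by
      unfold dq
      rw [q00, q01, q10, q11]
      exact hY
    have hfin := c3_cube hp hp2 hζ hz D Fr Dg b E ε n σ ψ hB τ hτ φ Q hQ q hqQ hinj hs h0' hY'
    rw [q00, q01, q10, q11, q20, q21] at hfin
    rw [hfin]
    unfold df
    rw [q20, q21]

end H51.CUB
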