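import Pool.Agent.H51.CUB.C2M
import Pool.Agent.H51.CUB.ACC

/-!
[H51 CUB C2S]  The square property of `VF`, second pattern (200-260 lines). PROOF.

`d`, `un`, `n1`, `n2`: as in `C2M.lean` (they do not use `hφ`; copy or extract). `θ₀ k = φ 0 · β (kV s_1 e_k) s_0`, `θ₁ k = φ 1 · β (kV s_0 e_k) s_1`, `s_i = pu τ i` (`tta`, `ttb`): so `∑ k, θ₀ k * u k = φ 0 · β (kV s_1 u) s_0`. `kv = kV s_1 s_0`. From `hφ2`, `kV_self`, `kV_swap`: `θ_i` vanish at `s_0` and `s_1`.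
`A = Ac (θ₁ - θ₀)`. Put `A0 = Ac θ₀`, `A1 = Ac θ₁`; `kk A = kk A1 - kk A0` (`ac_kk`), and `LL`, `ord` (mod p) similarly.
`square`: `q = ![![a, a'], ![b, b']]`, nonzero vertices, `ρ e ∈ XS`, `square_phase` as in `C2M.lean`.
(1) FOUR VANISHINGS: `LL v A0 = 0 = LL v A1` for `v = q i e`. Let `i = 0`: `u = pu (ρ (F v)) = LL v (ak n) + LL v (pi (q 1 e')) • s_1 + 0 • s_0` (`pu_Fq`, `ll_self`), `kV s_0 u = 0` (`com_q`), so `θ₁ · u = 0`, so `θ₁ · LL v (ak n) = 0`; `LL v A = 0` gives `θ₀ · LL v (ak n) = 0`. `i = 1`: `kV s_1 u = 0`, so `θ₀ · u = 0`, and again `LL v A = 0`.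
(2) `Y' : Rho L (dq (q 0)) A0` by `box_rho2` (`h3`: `ord v A0 ≠ 0` mod `p` only for `v ∈ n ∪ E` (`ac_ord`, `ak_ord`): cells).
(3) `Y01 g = - φ 0 · β (y01 g) s_0` satisfies `Rho L (dq (q 1)) A0`: `φ 0 · β (kV s_1 (pu (ρ 0 h))) s_0 = θ₀ · pu (ρ 0 h)`, `pu (ρ 0 h) k = kk (ak (vn ..) k) h` with `ak_vn`: `= kk (ak n k) h + s_0 k * kk (pi (q 0 0)) h + s_1 k * kk (pi (q 1 0)) h`, `θ₀ · s_i = 0`: `= kk A0 h`. In the same way `Y10 g = - φ 1 · β (y10 g) s_1` satisfies `Rho L (dq (q 0)) A1`.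
`Lev` of a linear combination: `Lev` of the coordinates (`glift_lev_pi` or `gtriv_lev`).
(4) `swp` for `A0` (`S = n ∪ E`; `hAq`: `ord (q i e) A0 = 0` as `q i e ∉ n, E`; `hA`: `LL v (dq (q 0)) = 0` for `v ∈ n ∪ E`): `df Y01 (q 0) + df Y' (q 1) = 0`.
(5) with `r` from `box_rho`, `h k = y k - kv k * r` as in `C2M.lean`: the sum of the terms with `y` over the vertex `(1, 1)` is `0`: the `kv`-part by `hφ1`, `hφ2`, the `h`-part by `HI`.
(6) So the phase is `df Y01 (q 0) + df Y10 (q 1) = df (Y10 - Y') (q 1)` and `Y10 - Y'` satisfies `Rho L (dq (q 0)) A` (coboundary `kk (dq (q 0)) g * (kk A1 h - kk A0 h)`); `rho_diff` with `Y`.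
-/

set_option autoImplicit false

open scoped NumberField ComplexConjugate
open IsDedekindDomain
open scoped Classical

noncomputable section

namespace H51.CUB

open H63.MA H38.BB H38.BG H57.PC H77.PC3 H57.BRA

variable {K : Type} [Field K] [NumberField K] {p : ℕ} {ζ : K} {Ω : Type} [Field Ω] [Algebra K Ω]
  [IsAlgClosure K Ω] {m l w N : ℕ} {P R : Type} [Group P] [Group R]

/-- the coordinates of `u ↦ φ · β (kV t u) s` -/
def tta (Dg : GP p m l w N P R) (φ : Fin w → ZMod p) (t s : Fin m → ZMod p) (k : Fin m) : ZMod p :=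
  dt φ (Dg.β (Dg.kV t (Pi.single k 1)) s)

omit [Field Ω] in
theorem tta_apply (Dg : GP p m l w N P R) (φ : Fin w → ZMod p) (t s u : Fin m → ZMod p) :
    ∑ k, tta Dg φ t s k * u k = dt φ (Dg.β (Dg.kV t u) s) := by
  have h1 : u = ∑ k, u k • (Pi.single k 1 : Fin m → ZMod p) := by
    funext j
    rw [Finset.sum_apply]
    simp only [Pi.smul_apply, smul_eq_mul, Pi.single_apply, mul_ite, mul_one, mul_zero]
    rw [Finset.sum_ite_eq Finset.univ j u, if_pos (Finset.mem_univ j)]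
  have h2 : ∀ (S : Finset (Fin m)), dt φ (Dg.β (Dg.kV t
      (∑ k ∈ S, u k • (Pi.single k 1 : Fin m → ZMod p))) s) =
      ∑ k ∈ S, u k * dt φ (Dg.β (Dg.kV t (Pi.single k 1)) s) := by
    intro S
    induction S using Finset.induction_on with
    | empty =>
      rw [Finset.sum_empty, Finset.sum_empty, map_zero, map_zero, LinearMap.zero_apply]
      unfold dt
      exact Finset.sum_eq_zero fun k _ => by rw [Pi.zero_apply, mul_zero]
    | insert a S ha ih =>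
      rw [Finset.sum_insert ha, Finset.sum_insert ha, map_add, map_add, LinearMap.add_apply,
        c2_dt, ih, map_smul, map_smul, LinearMap.smul_apply, c2_dts]
  have h3 := h2 Finset.univ
  rw [← h1] at h3
  rw [h3]
  refine Finset.sum_congr rfl fun k _ => ?_
  unfold tta
  rw [mul_comm]


omit [NumberField K] [IsAlgClosure K Ω] in
private theorem c2s_lev (Dg : GP p m l w N P R) (θ : Fin w → ZMod p) (s : Fin m → ZMod p)
    (y : Gal(Ω/K) → Fin l → ZMod p) (hy : ∀ k, Lev fun g => y g k) :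
    Lev fun g => - dt θ (Dg.β (y g) s) := by
  obtain ⟨E, hE, h⟩ := glift_lev_pi (fun k g => y g k) hy
  refine ⟨E, hE, fun g u hu => ?_⟩
  have h1 : y (g * u) = y g := h g u hu
  show - dt θ (Dg.β (y (g * u)) s) = _
  rw [h1]

private theorem c2s_dtneg (θ x : Fin w → ZMod p) : dt θ (-x) = - dt θ x := by
  have h := c2_dts (-1) θ x
  rw [neg_one_smul, neg_one_mul] at h
  exact h

/-- the twisted sum of a cochain as a symbol -/
private theorem c2s_rho [NeZero p] (hp : p.Prime) (hζ : IsPrimitiveRoot ζ p)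
    {D : RD0 K p ζ} {L : LDs D Ω} (Dg : GP p m l w N P R)
    (b : Fin m → Kˣ) (E : Finset (Pl K)) (ε : Pl K → Gal(Ω/K) → R) (n : Finset (Pl K))
    (σ : Pl K → R) (τ : Fin 2 → R) (q : Fin 2 → Pl K) (hq : Function.Injective q)
    (hn : ∀ i, q i ∉ n) {ρ : Gal(Ω/K) →* R} (hρ : ρ ∈ XS L Dg b E ε (vn n q) (vs σ q τ)) (d : Kˣ)
    (θ : Fin w → ZMod p) (t s : Fin m → ZMod p)
    (h0 : ∀ i, ∑ k, tta Dg θ t s k * pu Dg (τ i) k = 0)
    (y : Gal(Ω/K) → Fin l → ZMod p)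
    (hy : ∀ k, (Lev fun g => y g k) ∧ (∀ v, v ∉ D.S0 → y (L.t v) k = 0) ∧
        ∀ g h, y (g * h) k = y g k + y h k - kk p ζ d g * Dg.kV t (pu Dg (ρ h)) k) :
    Rho L d (Ac D b n (sg Dg σ) (tta Dg θ t s)) fun g => - dt θ (Dg.β (y g) s) := by
  refine ⟨c2s_lev Dg θ s y fun k => (hy k).1, fun g h => ?_, fun v hv => ?_⟩
  · have h1 : y (g * h) = y g + y h + (- kk p ζ d g) • Dg.kV t (pu Dg (ρ h)) := by
      funext k
      rw [(hy k).2.2 g h, Pi.add_apply, Pi.add_apply, Pi.smul_apply, smul_eq_mul]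
      ring
    have h2 : kk p ζ (Ac D b n (sg Dg σ) (tta Dg θ t s)) h =
        dt θ (Dg.β (Dg.kV t (pu Dg (ρ h))) s) := by
      rw [ac_kk hp hζ, ← tta_apply]
      have h3 : ∀ k, pu Dg (ρ h) k = kk p ζ (ak D b n (sg Dg σ) k) h +
          ∑ i, pu Dg (τ i) k * kk p ζ (D.pi (q i)) h := by
        intro k
        have h4 := hρ.2.1 h k
        rw [ak_vn D Dg b n σ τ q hq hn k, kk_mul_arg hp hζ, kk_prod_arg hp hζ] at h4
        have h5 : pu Dg (ρ h) k = Multiplicative.toAdd (Dg.π (ρ h)) k := rfl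
        rw [h5, ← h4]
        congr 1
        refine Finset.sum_congr rfl fun i _ => ?_
        have h6 := kk_zpow_arg hp hζ (D.pi (q i)) ((pu Dg (τ i) k).val : ℤ) h
        rw [zpow_natCast, Int.cast_natCast, ZMod.natCast_zmod_val] at h6
        exact h6
      have h7 : ∑ k, tta Dg θ t s k * ∑ i, pu Dg (τ i) k * kk p ζ (D.pi (q i)) h = 0 := by
        rw [show (∑ k, tta Dg θ t s k * ∑ i, pu Dg (τ i) k * kk p ζ (D.pi (q i)) h) =
          ∑ i, (∑ k, tta Dg θ t s k * pu Dg (τ i) k) * kk p ζ (D.pi (q i)) h from ?_]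
        · exact Finset.sum_eq_zero fun i _ => by rw [h0 i, zero_mul]
        · simp only [Finset.mul_sum, Finset.sum_mul]
          rw [Finset.sum_comm]
          refine Finset.sum_congr rfl fun i _ => Finset.sum_congr rfl fun k _ => ?_
          ring
      rw [← sub_eq_zero, ← Finset.sum_sub_distrib]
      rw [← neg_eq_zero, ← Finset.sum_neg_distrib, ← h7]
      refine Finset.sum_congr rfl fun k _ => ?_
      rw [h3 k]
      ring
    show - dt θ (Dg.β (y (g * h)) s) = - dt θ (Dg.β (y g) s) + - dt θ (Dg.β (y h) s) + _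
    rw [h2, h1, map_add, map_add, LinearMap.add_apply, LinearMap.add_apply, c2_dt, c2_dt, map_smul,
      LinearMap.smul_apply, c2_dts]
    ring
  · show - dt θ (Dg.β (y (L.t v)) s) = 0
    have h1 : y (L.t v) = 0 := funext fun k => (hy k).2.1 v hv
    rw [h1, map_zero, LinearMap.zero_apply]
    unfold dt
    rw [Finset.sum_eq_zero fun k _ => by rw [Pi.zero_apply, mul_zero], neg_zero]

theorem c2s [NeZero p] [Finite R] (hp : p.Prime) (hp2 : MOne p K) (hζ : IsPrimitiveRoot ζ p)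
    (hz : Z2 p K) (D : RD K p ζ) {L : LDs D.toRD0 Ω} (Fr : FR L) (Dg : GP p m l w N P R)
    (b : Fin m → Kˣ) (E : Finset (Pl K)) (ε : Pl K → Gal(Ω/K) → R) (n : Finset (Pl K))
    (σ : Pl K → R) (ψ : Pl K → Fin w → ZMod p) (hB : Bse D.toRD0 b E n) (τ : Fin 2 → R)
    (hτ : ∀ i, τ i ^ p = 1) (φ : Fin 2 → Fin w → ZMod p) (Q : Fin 2 → Finset (Pl K))
    (hQ : ∀ i, Cell D.toRD0 Dg b E n σ (Q i))
    (hφ1 : ∀ v ∈ n, dt (ψ v) (Dg.β (Dg.kV (pu Dg (τ 1)) (pu Dg (τ 0))) (sg Dg σ v)) = 0)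
    (hφ2 : ∀ i, dt (φ i) (Dg.β (Dg.kV (pu Dg (τ 1)) (pu Dg (τ 0))) (pu Dg (τ i))) = 0)
    (c : Fin m → ZMod p) (hc : c = tta Dg (φ 1) (pu Dg (τ 0)) (pu Dg (τ 1)) -
      tta Dg (φ 0) (pu Dg (τ 1)) (pu Dg (τ 0)))
    (hL : ∀ i, ∀ v ∈ Q i, D.LL v (Ac D.toRD0 b n (sg Dg σ) c) = 0) :
    C2 D.toRD0 Fr 1 (Ac D.toRD0 b n (sg Dg σ) c) (Q 0) (Q 1)
      (fun x y => VF Dg Fr b E ε n σ ψ τ φ ![x, y]) := by
  refine c2_of_core hp hp2 hζ D Fr Dg b E ε n σ ψ hB τ hτ φ Q hQ _ ?_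
  intro q hqQ hS h0 Y hY
  obtain ⟨ρ, hρ, hHI, hprod⟩ := c2_core hp hp2 hζ D Fr Dg b E ε n σ ψ hB τ hτ φ Q hQ q hqQ hS h0
  obtain ⟨y, y01, y10, hy, hy01, hy10, hsum⟩ := square_phase hp hζ D.toRD0 Fr Dg b E ε n σ ψ τ hτ φ
    q hS ρ hρ
  obtain ⟨r, hr⟩ := c2_box hp hp2 hζ D L hS
  have hne : ∀ i j e e', i ≠ j → q i e ≠ q j e' :=
    fun i j e e' h h' => h (hS.sq.inj _ _ _ _ h').1
  have hgd := hS.sq.gd
  have hinj : ∀ e : Fin 2 → Fin 2, Function.Injective fun i => q i (e i) :=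
    fun e i j h => (hS.sq.inj _ _ _ _ h).1
  obtain ⟨θ0, hθ0⟩ : ∃ θ, θ = tta Dg (φ 0) (pu Dg (τ 1)) (pu Dg (τ 0)) := ⟨_, rfl⟩
  obtain ⟨θ1, hθ1⟩ : ∃ θ, θ = tta Dg (φ 1) (pu Dg (τ 0)) (pu Dg (τ 1)) := ⟨_, rfl⟩
  have ap0 : ∀ u : Fin m → ZMod p, ∑ k, θ0 k * u k =
      dt (φ 0) (Dg.β (Dg.kV (pu Dg (τ 1)) u) (pu Dg (τ 0))) := fun u => by rw [hθ0, tta_apply]
  have ap1 : ∀ u : Fin m → ZMod p, ∑ k, θ1 k * u k =
      dt (φ 1) (Dg.β (Dg.kV (pu Dg (τ 0)) u) (pu Dg (τ 1))) := fun u => by rw [hθ1, tta_apply]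
  have hdt0 : ∀ θ : Fin w → ZMod p, dt θ 0 = 0 := fun θ => by
    unfold dt
    exact Finset.sum_eq_zero fun k _ => by rw [Pi.zero_apply, mul_zero]
  have z00 : ∑ k, θ0 k * pu Dg (τ 0) k = 0 := by rw [ap0]; exact hφ2 0
  have z01 : ∑ k, θ0 k * pu Dg (τ 1) k = 0 := by
    rw [ap0, kV_self, map_zero, LinearMap.zero_apply, hdt0]
  have z10 : ∑ k, θ1 k * pu Dg (τ 0) k = 0 := by
    rw [ap1, kV_self, map_zero, LinearMap.zero_apply, hdt0]
  have z11 : ∑ k, θ1 k * pu Dg (τ 1) k = 0 := by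
    rw [ap1, kV_swap, map_neg, LinearMap.neg_apply, c2s_dtneg, hφ2 1, neg_zero]
  have hc' : c = θ1 - θ0 := by rw [hc, hθ0, hθ1]
  -- the four vanishings
  have hLA : ∀ i e, ∑ k, θ1 k * D.LL (q i e) (ak D.toRD0 b n (sg Dg σ) k) -
      ∑ k, θ0 k * D.LL (q i e) (ak D.toRD0 b n (sg Dg σ) k) = 0 := by
    intro i e
    have h1 := hL i _ (hqQ i e)
    change D.toRD0.LL _ _ = 0 at h1
    rw [ac_LL hp hζ D.toRD0 b n _ c (hgd i e).1, hc'] at h1
    rw [← Finset.sum_sub_distrib, ← h1]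
    refine Finset.sum_congr rfl fun k _ => ?_
    rw [Pi.sub_apply, sub_mul]
  have hself : ∀ i e, D.LL (q i e) (D.pi (q i e)) = 0 := fun i e =>
    ll_self hp hζ D.toRD0 (hgd i e).1
  have van : ∀ i e, (∑ k, θ1 k * D.LL (q i e) (ak D.toRD0 b n (sg Dg σ) k) = 0) ∧
      ∑ k, θ0 k * D.LL (q i e) (ak D.toRD0 b n (sg Dg σ) k) = 0 := by
    intro i e
    have hpick : ∀ f : Fin 2 → Fin 2, f i = e →
        pu Dg (ρ f (Fr.F (q i e))) = (fun k => D.LL (q i e) (ak D.toRD0 b n (sg Dg σ) k)) +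
          ∑ j, D.LL (q i e) (D.pi (q j (f j))) • pu Dg (τ j) ∧
        Dg.kV (pu Dg (τ i)) (pu Dg (ρ f (Fr.F (q i e)))) = 0 := by
      intro f hf
      have hc1 := com_q Fr Dg b E ε n σ τ (fun j => q j (f j)) (hinj f) (hρ f) i (hgd i (f i)).1
      rw [hf] at hc1
      exact ⟨pu_Fq hp hζ Fr Dg b E ε n σ τ (fun j => q j (f j)) (hinj f)
        (fun j => (hS.out j (f j)).2) (hρ f) (q i e) (hgd i e).1, hc1⟩
    have hi : i = 0 ∨ i = 1 := by fin_cases i <;> simp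
    rcases hi with hi | hi
    · subst hi
      obtain ⟨h1, h2⟩ := hpick ![e, 0] rfl
      have h3 := ap1 (pu Dg (ρ ![e, 0] (Fr.F (q 0 e))))
      rw [h2, map_zero, LinearMap.zero_apply, hdt0, h1] at h3
      have h4 : ∑ k, θ1 k * ((fun k => D.LL (q 0 e) (ak D.toRD0 b n (sg Dg σ) k)) +
          ∑ j, D.LL (q 0 e) (D.pi (q j ((![e, 0] : Fin 2 → Fin 2) j))) • pu Dg (τ j)) k =
          ∑ k, θ1 k * D.LL (q 0 e) (ak D.toRD0 b n (sg Dg σ) k) +
          (D.LL (q 0 e) (D.pi (q 0 e)) * ∑ k, θ1 k * pu Dg (τ 0) k +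
            D.LL (q 0 e) (D.pi (q 1 0)) * ∑ k, θ1 k * pu Dg (τ 1) k) := by
        rw [Finset.mul_sum, Finset.mul_sum, ← Finset.sum_add_distrib, ← Finset.sum_add_distrib]
        refine Finset.sum_congr rfl fun k _ => ?_
        rw [Pi.add_apply, Fin.sum_univ_two, Pi.add_apply, Pi.smul_apply, Pi.smul_apply,
          smul_eq_mul, smul_eq_mul]
        show θ1 k * (D.LL (q 0 e) (ak D.toRD0 b n (sg Dg σ) k) +
          (D.LL (q 0 e) (D.pi (q 0 e)) * pu Dg (τ 0) k +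
            D.LL (q 0 e) (D.pi (q 1 0)) * pu Dg (τ 1) k)) = _
        ring
      rw [h4, z10, z11, mul_zero, mul_zero, add_zero, add_zero] at h3
      have h5 := hLA 0 e
      rw [h3, zero_sub, neg_eq_zero] at h5
      exact ⟨h3, h5⟩
    · subst hi
      obtain ⟨h1, h2⟩ := hpick ![0, e] rfl
      have h3 := ap0 (pu Dg (ρ ![0, e] (Fr.F (q 1 e))))
      rw [h2, map_zero, LinearMap.zero_apply, hdt0, h1] at h3
      have h4 : ∑ k, θ0 k * ((fun k => D.LL (q 1 e) (ak D.toRD0 b n (sg Dg σ) k)) +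
          ∑ j, D.LL (q 1 e) (D.pi (q j ((![0, e] : Fin 2 → Fin 2) j))) • pu Dg (τ j)) k =
          ∑ k, θ0 k * D.LL (q 1 e) (ak D.toRD0 b n (sg Dg σ) k) +
          (D.LL (q 1 e) (D.pi (q 0 0)) * ∑ k, θ0 k * pu Dg (τ 0) k +
            D.LL (q 1 e) (D.pi (q 1 e)) * ∑ k, θ0 k * pu Dg (τ 1) k) := by
        rw [Finset.mul_sum, Finset.mul_sum, ← Finset.sum_add_distrib, ← Finset.sum_add_distrib]
        refine Finset.sum_congr rfl fun k _ => ?_
        rw [Pi.add_apply, Fin.sum_univ_two, Pi.add_apply, Pi.smul_apply, Pi.smul_apply,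
          smul_eq_mul, smul_eq_mul]
        show θ0 k * (D.LL (q 1 e) (ak D.toRD0 b n (sg Dg σ) k) +
          (D.LL (q 1 e) (D.pi (q 0 0)) * pu Dg (τ 0) k +
            D.LL (q 1 e) (D.pi (q 1 e)) * pu Dg (τ 1) k)) = _
        ring
      rw [h4, z00, z01, mul_zero, mul_zero, add_zero, add_zero] at h3
      have h5 := hLA 1 e
      rw [h3, sub_zero] at h5
      exact ⟨h5, h3⟩
  have hA0L : ∀ i e, D.LL (q i e) (Ac D.toRD0 b n (sg Dg σ) θ0) = 0 := by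
    intro i e
    change D.toRD0.LL _ _ = 0
    rw [ac_LL hp hζ D.toRD0 b n _ θ0 (hgd i e).1]
    exact (van i e).2
  have hA0o : ∀ v, v ∉ D.S0 → v ∉ n ∪ E →
      ((ord v (Ac D.toRD0 b n (sg Dg σ) θ0) : ℤ) : ZMod p) = 0 := by
    intro v hv hvn
    rw [Finset.mem_union, not_or] at hvn
    rw [ac_ord]
    refine Finset.sum_eq_zero fun k _ => ?_
    rw [ak_ord D.toRD0 hB _ k v hv hvn.2, if_neg hvn.1, mul_zero]
  have hsame : ∀ i, ∀ v ∈ n ∪ E, D.LL v (D.pi (q i 0)) = D.LL v (D.pi (q i 1)) := by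
    intro i v hv
    rcases Finset.mem_union.1 hv with h | h
    · exact hS.hn v h i
    · exact (hQ i).lE v h _ (hqQ i 0) _ (hqQ i 1)
  -- the symbol `Y'`
  obtain ⟨Y', hY'⟩ := box_rho2 hp hp2 hζ D.toRD0 L (hgd 0 0).1 (hgd 0 1).1 (hS.sq.cls 0)
    (Ac D.toRD0 b n (sg Dg σ) θ0) (hA0L 0 0) (hA0L 0 1) (by
      intro v hv ho
      by_contra hcon
      apply ho
      apply hA0o v hv
      intro hmem
      exact hcon (hsame 0 v hmem))
  -- the symbols `Y01`, `Y10`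
  have hY01 : Rho L (dq D.toRD0 (q 1)) (Ac D.toRD0 b n (sg Dg σ) θ0)
      fun g => - dt (φ 0) (Dg.β (y01 g) (pu Dg (τ 0))) := by
    rw [hθ0]
    refine c2s_rho hp hζ Dg b E ε n σ τ (fun i => q i ((0 : Fin 2 → Fin 2) i)) (hinj 0)
      (fun i => (hS.out i _).2) (hρ 0) _ _ _ _ ?_ y01 hy01
    intro i
    rw [← hθ0]
    have hi : i = 0 ∨ i = 1 := by fin_cases i <;> simp
    rcases hi with hi | hi
    · rw [hi]; exact z00
    · rw [hi]; exact z01
  have hY10 : Rho L (dq D.toRD0 (q 0)) (Ac D.toRD0 b n (sg Dg σ) θ1)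
      fun g => - dt (φ 1) (Dg.β (y10 g) (pu Dg (τ 1))) := by
    rw [hθ1]
    refine c2s_rho hp hζ Dg b E ε n σ τ (fun i => q i ((0 : Fin 2 → Fin 2) i)) (hinj 0)
      (fun i => (hS.out i _).2) (hρ 0) _ _ _ _ ?_ y10 hy10
    intro i
    rw [← hθ1]
    have hi : i = 0 ∨ i = 1 := by fin_cases i <;> simp
    rcases hi with hi | hi
    · rw [hi]; exact z10
    · rw [hi]; exact z11
  -- reciprocity
  have hsw := swp hp hp2 hζ hz Fr q hS.sq (Ac D.toRD0 b n (sg Dg σ) θ0) (n ∪ E) (by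
      intro v hv
      rcases Finset.mem_union.1 hv with h | h
      · exact (hB.gn v h).1.1
      · exact hB.bs.1 v h) hA0o (by
      intro i e
      apply hA0o _ (hgd i e).1
      rw [Finset.mem_union, not_or]
      exact ⟨(hS.out i e).2, (hS.out i e).1⟩) (by
      intro v hv _
      left
      have hv0 : v ∉ D.S0 := by
        rcases Finset.mem_union.1 hv with h | h
        · exact (hB.gn v h).1.1
        · exact hB.bs.1 v h
      unfold dq
      change D.toRD0.LL _ _ = 0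
      rw [ll_div hp hζ D.toRD0 hv0]
      exact sub_eq_zero.2 (hsame 0 v hv)) hY' hY01
  -- the terms with `y`
  have hH : ∀ k, Rho L 1 1 fun g =>
      (fun g => y g - r g • Dg.kV (pu Dg (τ 1)) (pu Dg (τ 0))) g k := by
    intro k
    have h1 := rho_sub hp hζ (hy k)
      (rho_smul_left hp hζ hr (Dg.kV (pu Dg (τ 1)) (pu Dg (τ 0)) k).val)
    rw [ZMod.natCast_zmod_val] at h1
    have h2 : (fun g => (fun g => y g - r g • Dg.kV (pu Dg (τ 1)) (pu Dg (τ 0))) g k) =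
        fun g => y g k - Dg.kV (pu Dg (τ 1)) (pu Dg (τ 0)) k * r g := by
      funext g
      show (y g - r g • Dg.kV (pu Dg (τ 1)) (pu Dg (τ 0))) k = _
      rw [Pi.sub_apply, Pi.smul_apply, smul_eq_mul, mul_comm]
    rw [h2]
    exact h1
  have h3 := hi_vn hp hζ Fr Dg n σ ψ τ φ (fun i => q i 1) (hinj fun _ => 1)
    (fun i => (hS.out i 1).2) (hHI fun _ => 1) _ hH
  have hexp : ∀ (θ : Fin w → ZMod p) (s : Fin m → ZMod p) (g : Gal(Ω/K)),
      dt θ (Dg.β (Dg.kV (pu Dg (τ 1)) (pu Dg (τ 0))) s) = 0 →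
      dt θ (Dg.β ((fun g => y g - r g • Dg.kV (pu Dg (τ 1)) (pu Dg (τ 0))) g) s) =
        dt θ (Dg.β (y g) s) := by
    intro θ s g h
    show dt θ (Dg.β (y g - r g • Dg.kV (pu Dg (τ 1)) (pu Dg (τ 0))) s) = _
    rw [sub_eq_add_neg (y g), ← neg_smul, map_add, LinearMap.add_apply, c2_dt, map_smul,
      LinearMap.smul_apply, c2_dts, h, mul_zero, add_zero]
  rw [Finset.sum_congr rfl fun v hv => hexp (ψ v) (sg Dg σ v) (Fr.F v) (hφ1 v hv),
    Finset.sum_congr rfl fun i _ => hexp (φ i) (pu Dg (τ i)) (Fr.F (q i 1)) (hφ2 i),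
    Fin.sum_univ_two] at h3
  rw [hprod, hsum, h3, zero_add]
  -- the difference of the symbols
  have hY2 : Rho L (dq D.toRD0 (q 0)) (Ac D.toRD0 b n (sg Dg σ) c)
      fun g => - dt (φ 1) (Dg.β (y10 g) (pu Dg (τ 1))) - Y' g := by
    refine ⟨gtriv_lev hY10.lev hY'.lev fun x y => x - y, fun g k => ?_, fun v hv => ?_⟩
    · have e1 := hY10.add g k
      have e2 := hY'.add g k
      have e3 : kk p ζ (Ac D.toRD0 b n (sg Dg σ) c) k =
          kk p ζ (Ac D.toRD0 b n (sg Dg σ) θ1) k - kk p ζ (Ac D.toRD0 b n (sg Dg σ) θ0) k := by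
        rw [ac_kk hp hζ, ac_kk hp hζ, ac_kk hp hζ, ← Finset.sum_sub_distrib]
        refine Finset.sum_congr rfl fun j _ => ?_
        rw [hc', Pi.sub_apply, sub_mul]
      have e4 : kk p ζ (D.pi (q 0 0) / D.pi (q 0 1)) g = kk p ζ (dq D.toRD0 (q 0)) g := rfl
      rw [e4] at e2
      linear_combination e1 - e2 - kk p ζ (dq D.toRD0 (q 0)) g * e3
    · show - dt (φ 1) (Dg.β (y10 (L.t v)) (pu Dg (τ 1))) - Y' (L.t v) = 0
      have e1 := hY10.tz v hv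
      have e2 := hY'.tz v hv
      rw [e2, sub_zero]
      exact e1
  have hfin := rho_diff hp hζ D L Fr hY2 hY (hgd 1 0) (hgd 1 1) (hS.sq.cls 1)
  congr 1
  have e0 : ∀ (θ : Fin w → ZMod p) (x x' : Fin l → ZMod p) (s : Fin m → ZMod p),
      dt θ (Dg.β (x - x') s) = dt θ (Dg.β x s) - dt θ (Dg.β x' s) := by
    intro θ x x' s
    rw [sub_eq_add_neg x, map_add, LinearMap.add_apply, c2_dt, map_neg, LinearMap.neg_apply,
      c2s_dtneg]
    ring
  rw [e0, e0]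
  unfold df at hsw ⊢
  linear_combination hsw + hfin


end H51.CUB
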