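import Pool.Agent.H51.CUB.VCa

/-!
[H51 CUB CBP]  The phase over a cube (200-280 lines). PROOF.

`ρ e ∈ XS (vertex e)`, `e : Fin 3 → Fin 2`. Put `ρ₀ = ρ 0`, `d_i = kk (pi (q i 1) / pi (q i 0))` (additive, finite level), and for `e` the functions `d^e i = d_i` if `e i = 1`, else `0`; `y_e = yd Dg ρ₀ (ρ e) d^e τ` (AL3).
`YH Dg ρ₀ (ρ e) d^e τ`: `pr`: the Kummer data of the vertices differ by `∏ (pi (q i 1) / pi (q i 0)) ^ s_i` over the `i` with `e i = 1` (`ak` over `vn n (q i (e i))`; the primes are distinct and outside `n`).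
INERTIA: `y_e = 0` at `L.t v`, `v ∉ S0`: `v ∈ n` or other `v` (also `v ∈ E`): `d_i (t v) = 0` and both values of `ρ` are equal (`t v ∈ inr L v`, `uinr_t`; at `E` both are `ε v`; elsewhere `1`). `v = q i 0`: `ρ₀ (t v) = τ i`, `d_i (t v) = -1`, `ρ e (t v) = τ i` if `e i = 0`, `1` if `e i = 1`:
`ρ e (t v) = ρ₀ (t v) * Wd3` in both cases (`τ i ^ p = 1`). `v = q i 1`: `ρ₀ (t v) = 1`, `d_i (t v) = 1`: the same. `yd_zero`.
DEFINE `y12 = y_(110) - y_(100) - y_(010)` (indices `0, 1` in `Fin 3`), `y13 = y_(101) - y_(100) - y_(001)`, `y23 = y_(011) - y_(010) - y_(001)`, `h = y_(111) - y_(110) - y_(101) - y_(011) + y_(100) + y_(010) + y_(001)`. By `yd_add` (the terms `kV (pu τ i) (pu (ρ₀ h))` and the quadratic terms cancel): `y12 (g h) = y12 g + y12 h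
+ d_1 g * d_0 h • kV s_1 s_0`, `y13`: `d_2 g * d_0 h • kV s_2 s_0`, `y23`: `d_2 g * d_1 h • kV s_2 s_1`, and `h` is additive: all coordinates of `h` satisfy `Rho L 1 1` (`rho_of_add`), so `vof ∘ h ∈ H1` (`h1_of_coord`). The `Rho` statements for `y12` etc.: `kk (D_j ^ n) g = n * kk D_j g`, and the two signs
(`d_i = - kk (pi (q i 0) / pi (q i 1))`) cancel in the product.
PHASES: (n) for `v ∈ n`: `d_i (F v) = LL v (pi (q i 1)) - LL v (pi (q i 0)) = 0`, so `ρ e (F v) = vof (y_e (F v)) * ρ₀ (F v)` and `cq (ρ e) v = cq ρ₀ v + β (y_e (F v)) (s v)` (`cm_v`; `ρ e (t v) = σ v`, `xs_com`). Alternating sum over `e`: `- β (h (F v)) (s v)` (the alternating sum of `y_e` is `- h`, `y_0 = 0`).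
(q) for the prime `v = q 2 (e 2)`, label `τ 2`: `d_0 (F v) = d_1 (F v) = 0` (hypothesis `hs`), so with `e 2` fixed `ρ e (F v) = vof (y_e (F v)) * (ρ₀ (F v) * τ 2 ^ ..)` with the last factor independent of `e 0, e 1` (and it commutes with `τ 2`, because `ρ e (F v)` does). `cq (ρ e) v = cm (..) (τ 2) + β (y_e (F v)) s_2`; alternating sum over
`e 0, e 1`: `β (y12 (F v)) s_2` for `e 2 = 0` and `β ((y12 + h) (F v)) s_2` for `e 2 = 1`. So the contribution of the third prime is `φ 2 · β (y12 (F (q 2 0)) - y12 (F (q 2 1))) s_2 - φ 2 · β (h (F (q 2 1))) s_2`. The same for the other two with `y13` (middle prime) and `y23` (first prime).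
The terms with `h` add up to `- ∑ over the vertex (1,1,1) of ψ · β (h (F v)) (s v) = 0` by `HI`.
-/

set_option autoImplicit false

open scoped NumberField
open IsDedekindDomain
open scoped Classical

noncomputable section

namespace H51.CUB

open H63.MA H38.BB H38.BG H57.PC H77.PC3

variable {K : Type} [Field K] [NumberField K] {p : ℕ} {ζ : K} {Ω : Type} [Field Ω] [Algebra K Ω]
  [IsAlgClosure K Ω] {m l w N : ℕ} {P R : Type} [Group P] [Group R]

/-- six distinct primes with constant symbols -/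
structure CubeH (D : RD0 K p ζ) (b : Fin m → Kˣ) (E n : Finset (Pl K)) (q : Fin 3 → Fin 2 → Pl K) :
    Prop where
  bse : Bse D b E n
  inj : ∀ i e j e', q i e = q j e' → i = j ∧ e = e'
  gd : ∀ i e, D.Gd (q i e) ∧ q i e ∉ E ∧ q i e ∉ n
  cls : ∀ i, D.q (q i 0) = D.q (q i 1)
  hn : ∀ v ∈ n, ∀ i, D.LL v (D.pi (q i 0)) = D.LL v (D.pi (q i 1))
  hs : ∀ i j, i ≠ j → ∀ e, D.LL (q j e) (D.pi (q i 0)) = D.LL (q j e) (D.pi (q i 1))


section aux

private theorem cbp_two (a : Fin 2) : a = 0 ∨ a = 1 := by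
  revert a
  decide

private theorem cbp_inv (hp : p.Prime) (hζ : IsPrimitiveRoot ζ p) (a : Kˣ) (g : Gal(Ω/K)) :
    kk p ζ a⁻¹ g = -kk p ζ a g := by
  have h := kk_mul_arg hp hζ a a⁻¹ g
  rw [mul_inv_cancel, gkum_one_arg hp hζ] at h
  exact (neg_eq_of_add_eq_zero_right h.symm).symm

private theorem cbp_div (hp : p.Prime) (hζ : IsPrimitiveRoot ζ p) (a b : Kˣ) (g : Gal(Ω/K)) :
    kk p ζ (a / b) g = kk p ζ a g - kk p ζ b g := by
  rw [div_eq_mul_inv, kk_mul_arg hp hζ, cbp_inv hp hζ, sub_eq_add_neg]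

private theorem cbp_pow (hp : p.Prime) (hζ : IsPrimitiveRoot ζ p) (a : Kˣ) (n : ℕ)
    (g : Gal(Ω/K)) : kk p ζ (a ^ n) g = (n : ZMod p) * kk p ζ a g := by
  rw [← zpow_natCast, kk_zpow_arg hp hζ, Int.cast_natCast]

private theorem cbp_prod (hp : p.Prime) (hζ : IsPrimitiveRoot ζ p) {ι : Type} (s : Finset ι)
    (f : ι → Kˣ) (g : Gal(Ω/K)) : kk p ζ (∏ i ∈ s, f i) g = ∑ i ∈ s, kk p ζ (f i) g := by
  induction s using Finset.induction_on with
  | empty => rw [Finset.prod_empty, Finset.sum_empty, gkum_one_arg hp hζ]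
  | insert a s ha ih => rw [Finset.prod_insert ha, Finset.sum_insert ha, kk_mul_arg hp hζ, ih]

private theorem cbp_kkt (hp : p.Prime)
    (hζ : IsPrimitiveRoot ζ p) {D : RD0 K p ζ} (L : LDs D Ω) (a : Kˣ) (v : Pl K) (hv : v ∉ D.S0) :
    kk p ζ a (L.t v) = ((ord v a : ℤ) : ZMod p) := by
  rw [gtw_t L v hv]
  exact ld_kk_t hp hζ (fun h => hv (D.above v h)) (D.pi_self v hv) (L.ld v hv) a

/-- sums over `vn` -/
private theorem cbp_vn {A : Type} [AddCommMonoid A] {n : Finset (Pl K)} {q : Fin 3 → Pl K}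
    (hq : Function.Injective q) (hn : ∀ i, q i ∉ n) (f : Pl K → A) :
    ∑ v ∈ vn n q, f v = ∑ v ∈ n, f v + ∑ i, f (q i) := by
  unfold vn
  rw [Finset.sum_union, Finset.sum_image (fun x _ y _ h => hq h)]
  rw [Finset.disjoint_left]
  intro v hv hv'
  obtain ⟨i, -, rfl⟩ := Finset.mem_image.1 hv'
  exact hn i hv

private theorem cbp_inj {D : RD0 K p ζ} {b : Fin m → Kˣ} {E n : Finset (Pl K)}
    {q : Fin 3 → Fin 2 → Pl K} (hq : CubeH D b E n q) (e : Fin 3 → Fin 2) :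
    Function.Injective fun i => q i (e i) := fun i j h => (hq.inj i _ j _ h).1

private theorem cbp_out {D : RD0 K p ζ} {b : Fin m → Kˣ} {E n : Finset (Pl K)}
    {q : Fin 3 → Fin 2 → Pl K} (hq : CubeH D b E n q) (e : Fin 3 → Fin 2) {v : Pl K} (hv : v ∈ n)
    (i : Fin 3) : q i (e i) ≠ v := by
  rintro rfl
  exact (hq.gd i (e i)).2.2 hv

private theorem cbp_vsn {X : Type} {D : RD0 K p ζ} {b : Fin m → Kˣ} {E n : Finset (Pl K)}
    {q : Fin 3 → Fin 2 → Pl K} (hq : CubeH D b E n q) (e : Fin 3 → Fin 2) {v : Pl K} (hv : v ∈ n)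
    (σ : Pl K → X) (τ : Fin 3 → X) : vs σ (fun i => q i (e i)) τ v = σ v :=
  vs_out σ τ (cbp_out hq e hv)

private theorem cbp_vsq {X : Type} {D : RD0 K p ζ} {b : Fin m → Kˣ} {E n : Finset (Pl K)}
    {q : Fin 3 → Fin 2 → Pl K} (hq : CubeH D b E n q) (e : Fin 3 → Fin 2)
    (σ : Pl K → X) (τ : Fin 3 → X) (j : Fin 3) :
    vs σ (fun i => q i (e i)) τ (q j (e j)) = τ j :=
  vs_q σ (cbp_inj hq e) τ j

/-- the Kummer data -/
private theorem cbp_ak [NeZero p] (hp : p.Prime) (hζ : IsPrimitiveRoot ζ p) {D : RD0 K p ζ}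
    (Dg : GP p m l w N P R) {b : Fin m → Kˣ} {E n : Finset (Pl K)} {q : Fin 3 → Fin 2 → Pl K}
    (hq : CubeH D b E n q) (e : Fin 3 → Fin 2) (σ : Pl K → R) (τ : Fin 3 → R) (k : Fin m)
    (g : Gal(Ω/K)) :
    kk p ζ (ak D b (vn n fun i => q i (e i)) (sg Dg (vs σ (fun i => q i (e i)) τ)) k) g =
      kk p ζ (b k) g + ∑ v ∈ n, sg Dg σ v k * kk p ζ (D.pi v) g +
        ∑ i, pu Dg (τ i) k * kk p ζ (D.pi (q i (e i))) g := by
  unfold ak
  rw [kk_mul_arg hp hζ, cbp_prod hp hζ, cbp_vn (cbp_inj hq e) (fun i => (hq.gd i (e i)).2.2),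
    add_assoc]
  congr 2
  · refine Finset.sum_congr rfl fun v hv => ?_
    rw [cbp_pow hp hζ, ZMod.natCast_zmod_val]
    unfold sg
    rw [cbp_vsn hq e hv]
  · refine Finset.sum_congr rfl fun i _ => ?_
    rw [cbp_pow hp hζ, ZMod.natCast_zmod_val]
    unfold sg
    rw [cbp_vsq hq e]
    rfl

/-- the Kummer functions of the three directions -/
private def cbd (Ω : Type) [Field Ω] [Algebra K Ω] (D : RD0 K p ζ) (q : Fin 3 → Fin 2 → Pl K)
    (e : Fin 3 → Fin 2) (i : Fin 3) (g : Gal(Ω/K)) : ZMod p :=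
  if e i = 1 then kk p ζ (D.pi (q i 1)) g - kk p ζ (D.pi (q i 0)) g else 0

private theorem cbp_yh [NeZero p] (hp : p.Prime) (hζ : IsPrimitiveRoot ζ p) {D : RD0 K p ζ}
    {L : LDs D Ω} (Dg : GP p m l w N P R) {b : Fin m → Kˣ} {E n : Finset (Pl K)}
    {ε : Pl K → Gal(Ω/K) → R} {q : Fin 3 → Fin 2 → Pl K}
    (hq : CubeH D b E n q) {σ : Pl K → R} {τ : Fin 3 → R} (hτ : ∀ i, τ i ^ p = 1)
    {ρ : (Fin 3 → Fin 2) → (Gal(Ω/K) →* R)}
    (hρ : ∀ e, ρ e ∈ XS L Dg b E ε (vn n fun i => q i (e i)) (vs σ (fun i => q i (e i)) τ))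
    (e : Fin 3 → Fin 2) : YH Dg (ρ 0) (ρ e) (cbd Ω D q e) τ where
  add i g h := by
    unfold cbd
    split_ifs
    · rw [kk_mul, kk_mul]
      ring
    · rw [add_zero]
  pow := hτ
  pr g := by
    funext k
    have h1 := (hρ e).2.1 g k
    have h2 := (hρ 0).2.1 g k
    rw [cbp_ak hp hζ Dg hq e σ τ k g] at h1
    rw [cbp_ak hp hζ Dg hq 0 σ τ k g] at h2
    rw [Pi.add_apply, Finset.sum_apply]
    unfold pu at *
    rw [← h1, ← h2, add_assoc, add_assoc, add_assoc]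
    congr 2
    rw [← Finset.sum_add_distrib]
    refine Finset.sum_congr rfl fun i _ => ?_
    rw [Pi.smul_apply, smul_eq_mul]
    unfold cbd
    rcases cbp_two (e i) with h | h
    · rw [if_neg (by rw [h]; decide), h, zero_mul, add_zero]
      rfl
    · rw [if_pos h, h]
      have hz : (0 : Fin 3 → Fin 2) i = 0 := rfl
      rw [hz]
      ring

omit [IsAlgClosure K Ω] in
/-- the value at the inertia generators -/
private theorem cbp_rt {D : RD0 K p ζ}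
    {L : LDs D Ω} {Dg : GP p m l w N P R} {b : Fin m → Kˣ} {E : Finset (Pl K)}
    {ε : Pl K → Gal(Ω/K) → R} {n' : Finset (Pl K)} {σ : Pl K → R} {ρ : Gal(Ω/K) →* R}
    (hρ : ρ ∈ XS L Dg b E ε n' σ) {v : Pl K} (hv : v ∉ D.S0) (hvn : v ∉ n') :
    ρ (L.t v) = if v ∈ E then ε v (L.t v) else 1 := by
  split_ifs with h
  · exact hρ.2.2.2.1 v h _ (H63.BU.uinr_t L v)
  · exact hρ.2.2.2.2 v hv h hvn _ (H63.BU.uinr_t L v)

private theorem cbp_out' {n : Finset (Pl K)} {q : Fin 3 → Fin 2 → Pl K} (e : Fin 3 → Fin 2) {v : Pl K}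
    (hn : v ∉ n) (h : ∀ i, q i (e i) ≠ v) : v ∉ vn n fun i => q i (e i) := by
  intro hv
  rcases Finset.mem_union.1 hv with h1 | h1
  · exact hn h1
  · obtain ⟨i, -, h2⟩ := Finset.mem_image.1 h1
    exact h i h2

private theorem cbp_in {n : Finset (Pl K)} {q : Fin 3 → Fin 2 → Pl K} (e : Fin 3 → Fin 2)
    (j : Fin 3) : q j (e j) ∈ vn n fun i => q i (e i) :=
  Finset.mem_union_right _ (Finset.mem_image_of_mem _ (Finset.mem_univ j))

omit [NumberField K] [IsAlgClosure K Ω] in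
private theorem cbp_wd0 {d : Fin 3 → Gal(Ω/K) → ZMod p} {τ : Fin 3 → R} {g : Gal(Ω/K)}
    (h : ∀ i, d i g = 0) : Wd3 d τ g = 1 := by
  unfold Wd3
  rw [h, h, h, ZMod.val_zero, pow_zero, pow_zero, pow_zero, one_mul, one_mul]

omit [NumberField K] [IsAlgClosure K Ω] in
private theorem cbp_wd1 {d : Fin 3 → Gal(Ω/K) → ZMod p} {τ : Fin 3 → R} {g : Gal(Ω/K)} (j : Fin 3)
    (h : ∀ i, i ≠ j → d i g = 0) : Wd3 d τ g = τ j ^ (d j g).val := by
  unfold Wd3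
  fin_cases j
  · rw [h 1 (by decide), h 2 (by decide), ZMod.val_zero, pow_zero, pow_zero, mul_one, mul_one]
    rfl
  · rw [h 0 (by decide), h 2 (by decide), ZMod.val_zero, pow_zero, pow_zero, mul_one, one_mul]
    rfl
  · rw [h 0 (by decide), h 1 (by decide), ZMod.val_zero, pow_zero, pow_zero, one_mul, one_mul]
    rfl

private theorem cbp_add [NeZero p] {u : R} (hu : u ^ p = 1) (a b : ZMod p) :
    u ^ (a + b).val = u ^ a.val * u ^ b.val := by
  rw [ZMod.val_add, ← pow_add]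
  exact (pow_eq_pow_mod (a.val + b.val) hu).symm

private theorem cbp_dt (hp : p.Prime) (hζ : IsPrimitiveRoot ζ p) {D : RD0 K p ζ} (L : LDs D Ω)
    {b : Fin m → Kˣ} {E n : Finset (Pl K)} {q : Fin 3 → Fin 2 → Pl K} (hq : CubeH D b E n q)
    (e : Fin 3 → Fin 2) {v : Pl K} (hv : v ∉ D.S0) (i : Fin 3) (h : ∀ a, q i a ≠ v) :
    cbd Ω D q e i (L.t v) = 0 := by
  unfold cbd
  split_ifs
  · rw [cbp_kkt hp hζ L _ v hv, cbp_kkt hp hζ L _ v hv,
      D.pi_ne _ _ (hq.gd i 1).1.1 hv (h 1).symm, D.pi_ne _ _ (hq.gd i 0).1.1 hv (h 0).symm,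
      sub_self]
  · rfl

private theorem cbp_inert [NeZero p] (hp : p.Prime) (hζ : IsPrimitiveRoot ζ p) {D : RD0 K p ζ}
    {L : LDs D Ω} (Dg : GP p m l w N P R) {b : Fin m → Kˣ} {E n : Finset (Pl K)}
    {ε : Pl K → Gal(Ω/K) → R} {q : Fin 3 → Fin 2 → Pl K}
    (hq : CubeH D b E n q) {σ : Pl K → R} {τ : Fin 3 → R} (hτ : ∀ i, τ i ^ p = 1)
    {ρ : (Fin 3 → Fin 2) → (Gal(Ω/K) →* R)}
    (hρ : ∀ e, ρ e ∈ XS L Dg b E ε (vn n fun i => q i (e i)) (vs σ (fun i => q i (e i)) τ))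
    (e : Fin 3 → Fin 2) (v : Pl K) (hv : v ∉ D.S0) :
    ρ e (L.t v) = ρ 0 (L.t v) * Wd3 (cbd Ω D q e) τ (L.t v) := by
  by_cases h : ∃ j a, q j a = v
  · obtain ⟨j, a, rfl⟩ := h
    have hp1 : Fact (1 < p) := ⟨hp.one_lt⟩
    have hval : (1 : ZMod p).val = 1 := ZMod.val_one p
    have hgd := hq.gd j a
    rw [cbp_wd1 j fun i hi => cbp_dt hp hζ L hq e hv i fun a' h' => hi (hq.inj _ _ _ _ h').1]
    have h1 : ∀ e' : Fin 3 → Fin 2, ρ e' (L.t (q j a)) = if e' j = a then τ j else 1 := by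
      intro e'
      split_ifs with h2
      · have h3 := ((hρ e').2.2.1 (q j (e' j)) (cbp_in e' j)).1
        rw [cbp_vsq hq e', h2] at h3
        exact h3
      · have h4 : ∀ i, q i (e' i) ≠ q j a := by
          intro i h5
          obtain ⟨h6, h7⟩ := hq.inj _ _ _ _ h5
          rw [h6] at h7
          exact h2 h7
        have h5 := cbp_rt (hρ e') hv (cbp_out' e' hgd.2.2 h4)
        rw [if_neg hgd.2.1] at h5
        exact h5
    rw [h1, h1]
    have h2 : kk p ζ (D.pi (q j 1)) (L.t (q j a)) - kk p ζ (D.pi (q j 0)) (L.t (q j a)) =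
        if a = 1 then 1 else -1 := by
      rw [cbp_kkt hp hζ L _ _ hv, cbp_kkt hp hζ L _ _ hv]
      split_ifs with h3
      · rw [h3, D.pi_self _ (hq.gd j 1).1.1,
          D.pi_ne _ _ (hq.gd j 0).1.1 (hq.gd j 1).1.1 fun h4 => by
            have := (hq.inj _ _ _ _ h4).2
            exact absurd this (by decide)]
        simp
      · have h4 : a = 0 := by
          rcases cbp_two a with h | h
          · exact h
          · exact absurd h h3
        rw [h4, D.pi_self _ (hq.gd j 0).1.1,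
          D.pi_ne _ _ (hq.gd j 1).1.1 (hq.gd j 0).1.1 fun h4 => by
            have := (hq.inj _ _ _ _ h4).2
            exact absurd this (by decide)]
        simp
    unfold cbd
    rw [h2]
    have hz : (0 : Fin 3 → Fin 2) j = 0 := rfl
    rw [hz]
    rcases cbp_two (e j) with h3 | h3
    · rw [h3, if_neg (show ¬ (0 : Fin 2) = 1 by decide), ZMod.val_zero, pow_zero, mul_one]
    · rw [h3, if_pos (rfl : (1 : Fin 2) = 1)]
      rcases cbp_two a with h4 | h4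
      · rw [h4, if_neg (show ¬ (1 : Fin 2) = 0 by decide), if_pos (rfl : (0 : Fin 2) = 0),
          if_neg (show ¬ (0 : Fin 2) = 1 by decide)]
        have h5 := cbp_add (hτ j) 1 (-1)
        rw [add_neg_cancel, ZMod.val_zero, pow_zero, hval, pow_one] at h5
        exact h5
      · rw [h4, if_pos (rfl : (1 : Fin 2) = 1), if_neg (show ¬ (0 : Fin 2) = 1 by decide),
          if_pos (rfl : (1 : Fin 2) = 1), hval, pow_one, one_mul]
  · have h0 : ∀ j a, q j a ≠ v := fun j a h1 => h ⟨j, a, h1⟩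
    rw [cbp_wd0 fun i => cbp_dt hp hζ L hq e hv i (h0 i), mul_one]
    by_cases hn : v ∈ n
    · rw [((hρ e).2.2.1 v (Finset.mem_union_left _ hn)).1,
        ((hρ 0).2.2.1 v (Finset.mem_union_left _ hn)).1, cbp_vsn hq e hn, cbp_vsn hq 0 hn]
    · rw [cbp_rt (hρ e) hv (cbp_out' e hn fun i => h0 i _),
        cbp_rt (hρ 0) hv (cbp_out' 0 hn fun i => h0 i _)]

/-- sums over the vertices of the cube -/
private theorem cbp_sum8 {F : Type} [CommRing F] (f : (Fin 3 → Fin 2) → F) :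
    ∑ e : Fin 3 → Fin 2, (-1) ^ (∑ i, (e i).val) * f e =
      f ![0, 0, 0] - f ![1, 0, 0] - f ![0, 1, 0] - f ![0, 0, 1] + f ![1, 1, 0] + f ![1, 0, 1] +
        f ![0, 1, 1] - f ![1, 1, 1] := by
  have h : (Finset.univ : Finset (Fin 3 → Fin 2)) = {![0, 0, 0], ![1, 0, 0], ![0, 1, 0],
      ![0, 0, 1], ![1, 1, 0], ![1, 0, 1], ![0, 1, 1], ![1, 1, 1]} := by decide
  rw [h, Finset.sum_insert (by decide), Finset.sum_insert (by decide),
    Finset.sum_insert (by decide), Finset.sum_insert (by decide), Finset.sum_insert (by decide),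
    Finset.sum_insert (by decide), Finset.sum_insert (by decide), Finset.sum_singleton]
  simp only [Fin.sum_univ_three, Matrix.cons_val_zero, Matrix.cons_val_one, Matrix.cons_val,
    Fin.val_zero, Fin.val_one]
  ring

private theorem cbp_alt8 {V F : Type} [AddCommGroup V] [CommRing F]
    (EEf : (Fin 3 → Fin 2) → F) (c₀ : F) (c : Fin 3 → Fin 2 → F) (N : V →+ F)
    (M : Fin 3 → Fin 2 → V →+ F) (y : (Fin 3 → Fin 2) → V) (hy0 : y ![0, 0, 0] = 0)
    (hE : ∀ e, EEf e = c₀ + N (y e) + ∑ j, (c j (e j) + M j (e j) (y e))) (y12 y13 y23 h' : V)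
    (h12 : y12 = y ![1, 1, 0] - y ![1, 0, 0] - y ![0, 1, 0])
    (h13 : y13 = y ![1, 0, 1] - y ![1, 0, 0] - y ![0, 0, 1])
    (h23 : y23 = y ![0, 1, 1] - y ![0, 1, 0] - y ![0, 0, 1])
    (hh : h' = y ![1, 1, 1] - y ![1, 1, 0] - y ![1, 0, 1] - y ![0, 1, 1] + y ![1, 0, 0] +
      y ![0, 1, 0] + y ![0, 0, 1])
    (hH : N h' + ∑ j, M j 1 h' = 0) :
    ∑ e : Fin 3 → Fin 2, (-1) ^ (∑ i, (e i).val) * EEf e =
      (M 2 0 y12 - M 2 1 y12) + (M 1 0 y13 - M 1 1 y13) + (M 0 0 y23 - M 0 1 y23) := by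
  rw [cbp_sum8]
  rw [hE, hE, hE, hE, hE, hE, hE, hE, hy0]
  subst h12 h13 h23 hh
  simp only [Fin.sum_univ_three, Matrix.cons_val_zero, Matrix.cons_val_one, Matrix.cons_val,
    map_add, map_sub, map_zero] at hH ⊢
  linear_combination -hH

private theorem cbp_y0 (D : RD0 K p ζ) (Dg : GP p m l w N P R) (q : Fin 3 → Fin 2 → Pl K)
    (τ : Fin 3 → R) (ρ : (Fin 3 → Fin 2) → (Gal(Ω/K) →* R)) :
    yd Dg (ρ 0) (ρ 0) (cbd Ω D q 0) τ = 0 := by
  funext g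
  refine yd_zero Dg g ?_
  rw [cbp_wd0 fun i => ?_, mul_one]
  unfold cbd
  exact if_neg (show ¬ (0 : Fin 2) = 1 by decide)

private theorem cbp_rho [NeZero p] (hp : p.Prime) (hζ : IsPrimitiveRoot ζ p) {D : RD0 K p ζ}
    (L : LDs D Ω) (Dg : GP p m l w N P R) (q : Fin 3 → Fin 2 → Pl K) (τ : Fin 3 → R) (i j : Fin 3)
    (z : Gal(Ω/K) → Fin l → ZMod p) (hl : ∀ k, Lev fun g => z g k)
    (ht : ∀ v, v ∉ D.S0 → z (L.t v) = 0)
    (ha : ∀ g h, z (g * h) = z g + z h +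
      ((kk p ζ (D.pi (q j 1)) g - kk p ζ (D.pi (q j 0)) g) *
        (kk p ζ (D.pi (q i 1)) h - kk p ζ (D.pi (q i 0)) h)) •
          Dg.kV (pu Dg (τ j)) (pu Dg (τ i))) (k : Fin l) :
    Rho L ((D.pi (q j 0) / D.pi (q j 1)) ^ (Dg.kV (pu Dg (τ j)) (pu Dg (τ i)) k).val)
        (D.pi (q i 0) / D.pi (q i 1)) fun g => z g k := by
  refine ⟨hl k, fun g h => ?_, fun v hv => ?_⟩
  · show z (g * h) k = z g k + z h k + _
    rw [ha, Pi.add_apply, Pi.add_apply, Pi.smul_apply, smul_eq_mul, cbp_pow hp hζ,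
      cbp_div hp hζ, cbp_div hp hζ, ZMod.natCast_zmod_val]
    ring
  · show z (L.t v) k = 0
    rw [ht v hv]
    rfl

omit [IsAlgClosure K Ω] in
private theorem cbp_dta (θ x y : Fin w → ZMod p) : dt θ (x + y) = dt θ x + dt θ y := by
  unfold dt
  rw [← Finset.sum_add_distrib]
  exact Finset.sum_congr rfl fun k _ => by rw [Pi.add_apply, mul_add]

/-- the linear functional of one prime -/
private def cbL (Dg : GP p m l w N P R) (g : Gal(Ω/K)) (θ : Fin w → ZMod p) (s : Fin m → ZMod p) :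
    (Gal(Ω/K) → Fin l → ZMod p) →+ ZMod p where
  toFun z := dt θ (Dg.β (z g) s)
  map_zero' := by
    rw [Pi.zero_apply, map_zero, LinearMap.zero_apply]
    unfold dt
    exact Finset.sum_eq_zero fun k _ => by rw [Pi.zero_apply, mul_zero]
  map_add' z z' := by rw [Pi.add_apply, map_add, LinearMap.add_apply, cbp_dta]

omit [IsAlgClosure K Ω] in
private theorem cbp_cq {D : RD0 K p ζ} {L : LDs D Ω} (Fr : FR L) (Dg : GP p m l w N P R)
    (ρ : Gal(Ω/K) →* R) (v : Pl K) (y : Fin l → ZMod p) (r s : R)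
    (h1 : ρ (Fr.F v) = vof Dg y * r) (h2 : ρ (L.t v) = s)
    (hc : ρ (Fr.F v) * s = s * ρ (Fr.F v)) (θ : Fin w → ZMod p) :
    dt θ (cq Dg Fr ρ v) = dt θ (Dg.cm r s) + dt θ (Dg.β y (pu Dg s)) := by
  have hrs : r * s = s * r := by
    rw [h1, mul_assoc] at hc
    have h3 : s * (vof Dg y * r) = vof Dg y * (s * r) := by
      rw [← mul_assoc, ← Dg.vcen _ (vof_pi Dg y) s, mul_assoc]
    rw [h3] at hc
    exact mul_left_cancel hc
  rw [← cbp_dta]
  congr 1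
  funext k
  unfold cq
  rw [h1, h2, cm_v Dg _ _ _ (vof_pi Dg y) hrs k, Pi.add_apply,
    show (fun j => Dg.cv j (vof Dg y)) = y from funext fun j => vof_cv Dg y j]

private theorem cbp_lev (hp : p.Prime) (hζ : IsPrimitiveRoot ζ p) (D : RD0 K p ζ)
    (q : Fin 3 → Fin 2 → Pl K) (e : Fin 3 → Fin 2) (i : Fin 3) : Lev (cbd Ω D q e i) := by
  unfold cbd
  by_cases h : e i = 1
  · simp only [if_pos h]
    exact gtriv_lev (gtriv_kk hp hζ _) (gtriv_kk hp hζ _) fun x y => x - y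
  · simp only [if_neg h]
    exact gtriv_const 0

/-- the phase of one vertex -/
private theorem cbp_ee [NeZero p] [Finite R] (hp : p.Prime) (hζ : IsPrimitiveRoot ζ p)
    {D : RD0 K p ζ} {L : LDs D Ω} (Fr : FR L) (Dg : GP p m l w N P R) {b : Fin m → Kˣ}
    {E : Finset (Pl K)} {ε : Pl K → Gal(Ω/K) → R} {n : Finset (Pl K)} {σ : Pl K → R}
    (ψ : Pl K → Fin w → ZMod p) {τ : Fin 3 → R} (hτ : ∀ i, τ i ^ p = 1)
    (φ : Fin 3 → Fin w → ZMod p) {q : Fin 3 → Fin 2 → Pl K} (hq : CubeH D b E n q)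
    {ρ : (Fin 3 → Fin 2) → (Gal(Ω/K) →* R)}
    (hρ : ∀ e, ρ e ∈ XS L Dg b E ε (vn n fun i => q i (e i)) (vs σ (fun i => q i (e i)) τ))
    (e : Fin 3 → Fin 2) :
    EE Dg Fr (vn n fun i => q i (e i)) (vs ψ (fun i => q i (e i)) φ) (ρ e) =
      (∑ v ∈ n, dt (ψ v) (Dg.cm (ρ 0 (Fr.F v)) (σ v))) +
      (∑ v ∈ n, cbL Dg (Fr.F v) (ψ v) (sg Dg σ v)) (yd Dg (ρ 0) (ρ e) (cbd Ω D q e) τ) +
      ∑ j, (dt (φ j) (Dg.cm (ρ 0 (Fr.F (q j (e j))) * τ j ^
          (if e j = 1 then kk p ζ (D.pi (q j 1)) (Fr.F (q j (e j))) -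
            kk p ζ (D.pi (q j 0)) (Fr.F (q j (e j))) else 0).val) (τ j)) +
        cbL Dg (Fr.F (q j (e j))) (φ j) (pu Dg (τ j))
          (yd Dg (ρ 0) (ρ e) (cbd Ω D q e) τ)) := by
  have hY := cbp_yh hp hζ Dg hq hτ hρ e
  unfold EE
  rw [cbp_vn (cbp_inj hq e) (fun i => (hq.gd i (e i)).2.2), AddMonoidHom.finsetSum_apply,
    ← Finset.sum_add_distrib]
  congr 1
  · refine Finset.sum_congr rfl fun v hv => ?_
    have hv0 : v ∉ D.S0 := (hq.bse.gn v hv).1.1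
    have hvn : v ∈ vn n fun i => q i (e i) := Finset.mem_union_left _ hv
    rw [cbp_vsn hq e hv]
    have h1 : ρ e (Fr.F v) = vof Dg (yd Dg (ρ 0) (ρ e) (cbd Ω D q e) τ (Fr.F v)) *
        ρ 0 (Fr.F v) := by
      have h2 := yd_eq Dg hY (Fr.F v)
      rw [cbp_wd0 fun i => ?_, mul_one] at h2
      · exact h2
      · unfold cbd
        split_ifs
        · rw [Fr.kf v hv0, Fr.kf v hv0, hq.hn v hv i, sub_self]
        · rfl
    have h3 : ρ e (L.t v) = σ v := by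
      rw [((hρ e).2.2.1 v hvn).1, cbp_vsn hq e hv]
    have h4 := xs_com Fr Dg b E ε _ _ (hρ e) v hvn hv0
    rw [cbp_vsn hq e hv] at h4
    exact cbp_cq Fr Dg (ρ e) v _ _ _ h1 h3 h4 (ψ v)
  · refine Finset.sum_congr rfl fun j _ => ?_
    have hv0 : q j (e j) ∉ D.S0 := (hq.gd j (e j)).1.1
    rw [cbp_vsq hq e]
    have h1 : ρ e (Fr.F (q j (e j))) =
        vof Dg (yd Dg (ρ 0) (ρ e) (cbd Ω D q e) τ (Fr.F (q j (e j)))) *
        (ρ 0 (Fr.F (q j (e j))) * τ j ^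
          (if e j = 1 then kk p ζ (D.pi (q j 1)) (Fr.F (q j (e j))) -
            kk p ζ (D.pi (q j 0)) (Fr.F (q j (e j))) else 0).val) := by
      have h2 := yd_eq Dg hY (Fr.F (q j (e j)))
      rw [cbp_wd1 j fun i hi => ?_, mul_assoc] at h2
      · exact h2
      · unfold cbd
        split_ifs
        · rw [Fr.kf _ hv0, Fr.kf _ hv0, hq.hs i j hi (e j), sub_self]
        · rfl
    have h3 : ρ e (L.t (q j (e j))) = τ j := by
      rw [((hρ e).2.2.1 _ (cbp_in e j)).1, cbp_vsq hq e]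
    have h4 := xs_com Fr Dg b E ε _ _ (hρ e) _ (cbp_in e j) hv0
    rw [cbp_vsq hq e] at h4
    exact cbp_cq Fr Dg (ρ e) _ _ _ _ h1 h3 h4 (φ j)

private theorem cbp_dts (Dg : GP p m l w N P R) (θ : Fin w → ZMod p) (s : Fin m → ZMod p)
    (a b : Fin l → ZMod p) :
    dt θ (Dg.β (a - b) s) = dt θ (Dg.β a s) - dt θ (Dg.β b s) := by
  have h := cbp_dta θ (Dg.β (a - b) s) (Dg.β b s)
  rw [← LinearMap.add_apply, ← map_add, sub_add_cancel] at h
  rw [h, add_sub_cancel_right]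

end aux

theorem cube_phase [NeZero p] [Finite R] (hp : p.Prime) (hζ : IsPrimitiveRoot ζ p)
    (D : RD0 K p ζ) {L : LDs D Ω} (Fr : FR L) (Dg : GP p m l w N P R) (b : Fin m → Kˣ)
    (E : Finset (Pl K)) (ε : Pl K → Gal(Ω/K) → R) (n : Finset (Pl K)) (σ : Pl K → R)
    (ψ : Pl K → Fin w → ZMod p) (τ : Fin 3 → R) (hτ : ∀ i, τ i ^ p = 1)
    (φ : Fin 3 → Fin w → ZMod p) (q : Fin 3 → Fin 2 → Pl K) (hq : CubeH D b E n q)
    (ρ : (Fin 3 → Fin 2) → (Gal(Ω/K) →* R))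
    (hρ : ∀ e, ρ e ∈ XS L Dg b E ε (vn n fun i => q i (e i)) (vs σ (fun i => q i (e i)) τ))
    (hH : HI Dg Fr (vn n fun i => q i 1) (vs σ (fun i => q i 1) τ) (vs ψ (fun i => q i 1) φ)) :
    ∃ y12 y13 y23 : Gal(Ω/K) → Fin l → ZMod p,
      (∀ k, Rho L ((D.pi (q 1 0) / D.pi (q 1 1)) ^ (Dg.kV (pu Dg (τ 1)) (pu Dg (τ 0)) k).val)
        (D.pi (q 0 0) / D.pi (q 0 1)) fun g => y12 g k) ∧
      (∀ k, Rho L ((D.pi (q 2 0) / D.pi (q 2 1)) ^ (Dg.kV (pu Dg (τ 2)) (pu Dg (τ 0)) k).val)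
        (D.pi (q 0 0) / D.pi (q 0 1)) fun g => y13 g k) ∧
      (∀ k, Rho L ((D.pi (q 2 0) / D.pi (q 2 1)) ^ (Dg.kV (pu Dg (τ 2)) (pu Dg (τ 1)) k).val)
        (D.pi (q 1 0) / D.pi (q 1 1)) fun g => y23 g k) ∧
      ∑ e : Fin 3 → Fin 2, (-1) ^ (∑ i, (e i).val) *
          EE Dg Fr (vn n fun i => q i (e i)) (vs ψ (fun i => q i (e i)) φ) (ρ e) =
        dt (φ 2) (Dg.β (y12 (Fr.F (q 2 0)) - y12 (Fr.F (q 2 1))) (pu Dg (τ 2))) +
        dt (φ 1) (Dg.β (y13 (Fr.F (q 1 0)) - y13 (Fr.F (q 1 1))) (pu Dg (τ 1))) +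
        dt (φ 0) (Dg.β (y23 (Fr.F (q 0 0)) - y23 (Fr.F (q 0 1))) (pu Dg (τ 0))) := by
  have hY := fun e => cbp_yh hp hζ Dg hq hτ hρ e
  obtain ⟨y, hy⟩ : ∃ y : (Fin 3 → Fin 2) → Gal(Ω/K) → Fin l → ZMod p,
      y = fun e => yd Dg (ρ 0) (ρ e) (cbd Ω D q e) τ := ⟨_, rfl⟩
  have hyl : ∀ e k, Lev fun g => y e g k := fun e k => by
    rw [hy]
    exact yd_lev Dg (hρ 0).1 (hρ e).1 (cbp_lev hp hζ D q e) k
  have hyt : ∀ e v, v ∉ D.S0 → y e (L.t v) = 0 := fun e v hv => by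
    rw [hy]
    exact yd_zero Dg _ (cbp_inert hp hζ Dg hq hτ hρ e v hv)
  have hya : ∀ e g h, y e (g * h) = y e g + y e h +
      ∑ i, cbd Ω D q e i g • Dg.kV (pu Dg (τ i)) (pu Dg (ρ 0 h)) +
      (cbd Ω D q e 1 g * cbd Ω D q e 0 h) • Dg.kV (pu Dg (τ 1)) (pu Dg (τ 0)) +
      (cbd Ω D q e 2 g * cbd Ω D q e 0 h) • Dg.kV (pu Dg (τ 2)) (pu Dg (τ 0)) +
      (cbd Ω D q e 2 g * cbd Ω D q e 1 h) • Dg.kV (pu Dg (τ 2)) (pu Dg (τ 1)) :=
    fun e g h => by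
      rw [hy]
      exact yd_add Dg (hY e) g h
  have hz : (![0, 0, 0] : Fin 3 → Fin 2) = 0 := by decide
  have hy0 : y ![0, 0, 0] = 0 := by
    rw [hz, hy]
    exact cbp_y0 D Dg q τ ρ
  have hEE := fun e => cbp_ee hp hζ Fr Dg ψ hτ φ hq hρ e
  have hsub : ∀ a b : Gal(Ω/K) → Fin l → ZMod p, (∀ k, Lev fun g => a g k) →
      (∀ k, Lev fun g => b g k) → ∀ k, Lev fun g => (a - b) g k := fun a b ha hb k =>
    gtriv_lev (ha k) (hb k) fun x y => x - y
  have hadd : ∀ a b : Gal(Ω/K) → Fin l → ZMod p, (∀ k, Lev fun g => a g k) →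
      (∀ k, Lev fun g => b g k) → ∀ k, Lev fun g => (a + b) g k := fun a b ha hb k =>
    gtriv_lev (ha k) (hb k) fun x y => x + y
  obtain ⟨y12, h12⟩ : ∃ y12, y12 = y ![1, 1, 0] - y ![1, 0, 0] - y ![0, 1, 0] := ⟨_, rfl⟩
  obtain ⟨y13, h13⟩ : ∃ y13, y13 = y ![1, 0, 1] - y ![1, 0, 0] - y ![0, 0, 1] := ⟨_, rfl⟩
  obtain ⟨y23, h23⟩ : ∃ y23, y23 = y ![0, 1, 1] - y ![0, 1, 0] - y ![0, 0, 1] := ⟨_, rfl⟩
  obtain ⟨h', hh'⟩ : ∃ h', h' = y ![1, 1, 1] - y ![1, 1, 0] - y ![1, 0, 1] - y ![0, 1, 1] +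
      y ![1, 0, 0] + y ![0, 1, 0] + y ![0, 0, 1] := ⟨_, rfl⟩
  -- the invariance
  obtain ⟨H, hH1, hHv⟩ := h1_of_coord hp hζ L Dg h' fun k => by
    refine rho_of_add hp hζ ?_ ?_ ?_
    · rw [hh']
      exact hadd _ _ (hadd _ _ (hadd _ _ (hsub _ _ (hsub _ _ (hsub _ _ (hyl _) (hyl _)) (hyl _))
        (hyl _)) (hyl _)) (hyl _)) (hyl _) k
    · intro g h
      have h1 : h' (g * h) = h' g + h' h := by
        rw [hh']
        simp only [Pi.add_apply, Pi.sub_apply]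
        rw [hya, hya, hya, hya, hya, hya, hya]
        simp only [Fin.sum_univ_three, cbd, Matrix.cons_val_zero, Matrix.cons_val_one,
          Matrix.cons_val, if_true, zero_ne_one, if_false, zero_smul, zero_mul, mul_zero]
        abel
      rw [h1]
      rfl
    · intro v hv
      rw [hh']
      simp only [Pi.add_apply, Pi.sub_apply]
      rw [hyt _ v hv, hyt _ v hv, hyt _ v hv, hyt _ v hv, hyt _ v hv, hyt _ v hv, hyt _ v hv]
      simp
  have hHI := hH H hH1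
  have e1 : ∀ i : Fin 3, q i 1 ∉ n := fun i => (hq.gd i 1).2.2
  rw [cbp_vn (cbp_inj hq fun _ => 1) e1] at hHI
  have hHI' : (∑ v ∈ n, cbL Dg (Fr.F v) (ψ v) (sg Dg σ v)) h' +
      ∑ j, cbL Dg (Fr.F (q j 1)) (φ j) (pu Dg (τ j)) h' = 0 := by
    rw [← hHI, AddMonoidHom.finsetSum_apply]
    congr 1
    · refine Finset.sum_congr rfl fun v hv => ?_
      have h1 := cbp_vsn hq (fun _ => 1) hv ψ φ
      have h2 := cbp_vsn hq (fun _ => 1) hv σ τ

      unfold sg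
      rw [h1, h2, hHv, show (fun j => Dg.cv j (vof Dg (h' (Fr.F v)))) = h' (Fr.F v) from
        funext fun j => vof_cv Dg _ j]
      rfl
    · refine Finset.sum_congr rfl fun j _ => ?_
      have h1 := cbp_vsq hq (fun _ => 1) ψ φ j
      have h2 := cbp_vsq hq (fun _ => 1) σ τ j

      unfold sg
      rw [h1, h2, hHv, show (fun j' => Dg.cv j' (vof Dg (h' (Fr.F (q j 1))))) =
        h' (Fr.F (q j 1)) from funext fun j => vof_cv Dg _ j]
      rfl
  refine ⟨y12, y13, y23, cbp_rho hp hζ L Dg q τ 0 1 y12 ?_ ?_ ?_,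
    cbp_rho hp hζ L Dg q τ 0 2 y13 ?_ ?_ ?_, cbp_rho hp hζ L Dg q τ 1 2 y23 ?_ ?_ ?_, ?_⟩
  · rw [h12]
    exact hsub _ _ (hsub _ _ (hyl _) (hyl _)) (hyl _)
  · intro v hv
    rw [h12]
    simp only [Pi.sub_apply]
    rw [hyt _ v hv, hyt _ v hv, hyt _ v hv, sub_zero, sub_zero]
  · intro g h
    rw [h12]
    simp only [Pi.sub_apply]
    rw [hya, hya, hya]
    simp only [Fin.sum_univ_three, cbd, Matrix.cons_val_zero, Matrix.cons_val_one,
      Matrix.cons_val, if_true, zero_ne_one, if_false, zero_smul, zero_mul, mul_zero]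
    abel
  · rw [h13]
    exact hsub _ _ (hsub _ _ (hyl _) (hyl _)) (hyl _)
  · intro v hv
    rw [h13]
    simp only [Pi.sub_apply]
    rw [hyt _ v hv, hyt _ v hv, hyt _ v hv, sub_zero, sub_zero]
  · intro g h
    rw [h13]
    simp only [Pi.sub_apply]
    rw [hya, hya, hya]
    simp only [Fin.sum_univ_three, cbd, Matrix.cons_val_zero, Matrix.cons_val_one,
      Matrix.cons_val, if_true, zero_ne_one, if_false, zero_smul, zero_mul, mul_zero]
    abel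
  · rw [h23]
    exact hsub _ _ (hsub _ _ (hyl _) (hyl _)) (hyl _)
  · intro v hv
    rw [h23]
    simp only [Pi.sub_apply]
    rw [hyt _ v hv, hyt _ v hv, hyt _ v hv, sub_zero, sub_zero]
  · intro g h
    rw [h23]
    simp only [Pi.sub_apply]
    rw [hya, hya, hya]
    simp only [Fin.sum_univ_three, cbd, Matrix.cons_val_zero, Matrix.cons_val_one,
      Matrix.cons_val, if_true, zero_ne_one, if_false, zero_smul, zero_mul, mul_zero]
    abel
  · rw [cbp_dts, cbp_dts, cbp_dts]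
    refine (cbp_alt8 (fun e => EE Dg Fr (vn n fun i => q i (e i)) (vs ψ (fun i => q i (e i)) φ)
      (ρ e)) (∑ v ∈ n, dt (ψ v) (Dg.cm (ρ 0 (Fr.F v)) (σ v))) (fun j a => dt (φ j) (Dg.cm (ρ 0 (Fr.F (q j a)) * τ j ^
          (if a = 1 then kk p ζ (D.pi (q j 1)) (Fr.F (q j a)) -
            kk p ζ (D.pi (q j 0)) (Fr.F (q j a)) else 0).val) (τ j)))
      (∑ v ∈ n, cbL Dg (Fr.F v) (ψ v) (sg Dg σ v))
      (fun j a => cbL Dg (Fr.F (q j a)) (φ j) (pu Dg (τ j))) y hy0 (fun e => ?_) y12 y13 y23 h'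
      h12 h13 h23 hh' hHI').trans rfl
    have h1 := hEE e
    rw [hy]
    exact h1

end H51.CUB
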