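import Pool.Agent.H51.CUB.TDef

/-!
# H51-CUB-SDEF: adding primes to a family

`addr g τ q`: the family `g` with the primes `q i` added to the sets `g (τ i)`.
-/

set_option autoImplicit false

open scoped NumberField
open IsDedekindDomain
open scoped Classical

noncomputable section

namespace H51.CUB

open H63.MA H38.BB H38.BG H57.PC

variable {K : Type} [Field K] [NumberField K] {J : Type}

/-- the family `g` with the primes `q i` added to the sets `g (τ i)` -/
def addr {r : ℕ} (g : J → Finset (Pl K)) (τ : Fin r → J) (q : Fin r → Pl K) (a : J) :
    Finset (Pl K) := g a ∪ (Finset.univ.filter fun i => τ i = a).image q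

end H51.CUB
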