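import Pool.Agent.H51.CUB.TDef

/-!
# H51-CUB-TDU: sums over typed families with an extra phase of level one (MP_b39724_nt), definitions

* `UU D u lam g = ∑ a, ∑ v ∈ g a, (u a v + ∑ a', lam a a' * ∑ v' ∈ g a', LL v (pi v'))`: a function of every prime and multiples of the pair symbols.
* `TSU`: the sum `TS` with the extra factor `ep p (UU D u lam g)`.
-/

set_option autoImplicit false

open scoped NumberField
open IsDedekindDomain
open scoped Classical

noncomputable section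

namespace H51.CUB

open H63.MA H38.BB H38.BG H57.PC

variable {K : Type} [Field K] [NumberField K] {p : ℕ} {ζ : K} {D : RD0 K p ζ} {Ω : Type}
  [Field Ω] [Algebra K Ω] {m l w N : ℕ} {P R : Type} [Group P] [Group R] {J : Type} [Fintype J]

/-- the extra phase of level one -/
def UU (D : RD0 K p ζ) (u : J → Pl K → ZMod p) (lam : J → J → ZMod p) (g : J → Finset (Pl K)) :
    ZMod p :=
  ∑ a, ∑ v ∈ g a, (u a v + ∑ a', lam a a' * ∑ v' ∈ g a', D.LL v (D.pi v'))

/-- the sum over the typed families with the extra phase -/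
def TSU [NeZero p] {L : LDs D Ω} (Dg : GP p m l w N P R) (Fr : FR L) (T : TY N w p J)
    (b : Fin m → Kˣ) (E : Finset (Pl K)) (ε : Pl K → Gal(Ω/K) → R) (u : J → Pl K → ZMod p)
    (lam : J → J → ZMod p) (ω : Finset J → ℂ) (Y : ℝ) : ℂ :=
  ∑ g ∈ Fintype.piFinset (fun _ : J => GF D (2 * Y)),
    if Wd D T E Y g ∧ SpR Dg.cr b (clf T g) then
      ω (spt g) * ((∏ a, T.wt a ^ (g a).card : ℝ) : ℂ) * ((wl ((∏ a, nr (g a)) / Y) : ℝ) : ℂ) *
        PF Dg Fr T b E ε g * ep p (UU D u lam g)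
    else 0

theorem uu_zero (D : RD0 K p ζ) (g : J → Finset (Pl K)) : UU D (fun _ _ => 0) (fun _ _ => 0) g = 0 := by
  unfold UU
  simp

theorem tsu_zero [NeZero p] {L : LDs D Ω} (Dg : GP p m l w N P R) (Fr : FR L) (T : TY N w p J)
    (b : Fin m → Kˣ) (E : Finset (Pl K)) (ε : Pl K → Gal(Ω/K) → R) (ω : Finset J → ℂ) (Y : ℝ) :
    TSU Dg Fr T b E ε (fun _ _ => 0) (fun _ _ => 0) ω Y = TS Dg Fr T b E ε ω Y := by
  unfold TSU TS
  refine Finset.sum_congr rfl fun g _ => ?_
  rw [uu_zero, ep_zero, mul_one]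

end H51.CUB
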