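import Pool.Agent.H51.CUB.VDef
import Pool.Agent.H51.CUB.SDef
import Pool.Agent.H51.CUB.TDU

/-!
# H51-CUB-PDEF: labels of typed families, definitions

* `clR Dg i`: the conjugacy class of `q (g i)` in `R`.
* `LB c n`: the functions `σ : Pl K → R` with `σ v ∈ c v` for `v ∈ n` and `σ v = 1` otherwise.
* `un g`: the union of a family. `psv T g v`, `clv Dg T g v`: the functional and the set of labels at `v ∈ un g`. `sv Dg T g v`: the image `s i ∈ U` of the labels at `v`.
-/

set_option autoImplicit false

open scoped NumberField
open IsDedekindDomain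
open scoped Classical

noncomputable section

namespace H51.CUB

open H63.MA H38.BB H38.BG H57.PC

variable {K : Type} [Field K] [NumberField K] {p m l w N : ℕ} {P R : Type} [Group P] [Group R]
  {J : Type}

/-- the class of `q (g i)` -/
def clR [Finite R] (Dg : GP p m l w N P R) (i : Fin N) : Finset R :=
  (Set.toFinite {x : R | IsConj x (Dg.q (Dg.g i))}).toFinset

theorem mem_clR [Finite R] (Dg : GP p m l w N P R) (i : Fin N) (x : R) :
    x ∈ clR Dg i ↔ IsConj x (Dg.q (Dg.g i)) := by
  unfold clR
  rw [Set.Finite.mem_toFinset]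
  rfl

/-- the label functions -/
def LB (c : Pl K → Finset R) (n : Finset (Pl K)) : Finset (Pl K → R) :=
  (n.pi c).image fun f v => if h : v ∈ n then f v h else 1

/-- the union of a family -/
def un [Fintype J] (g : J → Finset (Pl K)) : Finset (Pl K) := Finset.univ.biUnion g

/-- the functional at `v` -/
def psv (T : TY N w p J) (g : J → Finset (Pl K)) (v : Pl K) : Fin w → ZMod p :=
  if h : ∃ a, v ∈ g a then T.psi h.choose else 0

/-- the set of labels at `v` -/
def clv [Finite R] (Dg : GP p m l w N P R) (T : TY N w p J) (g : J → Finset (Pl K)) (v : Pl K) :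
    Finset R := if h : ∃ a, v ∈ g a then clR Dg (T.cls h.choose) else {1}

/-- the image in `U` of the labels at `v` -/
def sv (Dg : GP p m l w N P R) (T : TY N w p J) (g : J → Finset (Pl K)) (v : Pl K) :
    Fin m → ZMod p := if h : ∃ a, v ∈ g a then Dg.s (T.cls h.choose) else 0

end H51.CUB
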