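import Pool.Agent.H51.CUB.VCa
import Pool.Agent.H51.CUB.TDU
import Pool.Agent.H51.CUB.SDef
import Pool.Agent.H51.CUB.PDef
import Pool.Agent.H51.CUB.BXA

/-!
[H51 CUB TWC]  Twisting by a phase of level one; permutations (150-200 lines). PROOF.

* `c3_tw`: `G' a b c = G a b c * ep (f₁ a + f₂ b + f₃ c + g₁₂ a b + g₁₃ a c + g₂₃ b c)`. `‖ep‖ = 1`, so `d`, `un`, `n1`, `n2`, `n3` are clear. `cube`: the alternating product over the cube of the `ep` factor is `ep` of an alternating sum in which every function of at most two variables cancels; `q4` is multiplicative (`ep_add`, `conj (ep x) = ep (- x)`).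
* `c2_tw`: two variables: the one variable functions cancel, `g₁₂` takes the same value at the four vertices (`hg`).
* `vf_perm`: `VF` for `τ ∘ e`, `φ ∘ e`, `q ∘ e`: `vn n (q ∘ e) = vn n q`; for injective `q`: `vs σ (q ∘ e) (τ ∘ e) = vs σ q τ` (`vs_q`, `vs_out`); `ff_congr` or equality of functions. If `q` is not injective both are `0`.
* `uu_addr`: `U (addr g τ q) = U g + ∑ i, F i (q i) + ∑ i, ∑ j, (if i = j then 0 else lam (τ i) (τ j) * LL (q i) (pi (q j)))` with `F i x = u (τ i) x + ∑ a, lam (τ i) a * ∑ v ∈ g a, LL x (pi v) + ∑ a, lam a (τ i) * ∑ v ∈ g a, LL v (pi x)`; expand: sums over `addr g τ q a` split (`Finset.sum_union`, `Finset.sum_image`,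
`Finset.sum_fiberwise`); the terms `i = j` vanish (`ll_self`, `q i` outside `S0`).
-/

set_option autoImplicit false

open scoped NumberField ComplexConjugate
open IsDedekindDomain
open scoped Classical

noncomputable section

namespace H51.CUB

open H63.MA H38.BB H38.BG H57.PC H77.PC3 H57.TLS

variable {K : Type} [Field K] [NumberField K] {p : ℕ} {ζ : K} {Ω : Type} [Field Ω] [Algebra K Ω]
  {m l w N : ℕ} {P R : Type} [Group P] [Group R]

private theorem ep_ne (x : ZMod p) : ep p x ≠ 0 := by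
  intro h
  have := ep_norm p x
  rw [h, norm_zero] at this
  exact zero_ne_one this

private theorem tw_q4 (hp : p.Prime) {A B C : Type} (G : A → B → C → ℂ) (φ : A → B → C → ZMod p)
    (a a' : A) (b b' : B) (c : C) :
    q4 (fun a b c => G a b c * ep p (φ a b c)) a a' b b' c =
      q4 G a a' b b' c * ep p (φ a b c - φ a' b c - φ a b' c + φ a' b' c) := by
  unfold q4
  simp only [map_mul, bilA_ep_neg hp, sub_eq_add_neg, ep_add hp]
  ring

theorem c3_tw (hp : p.Prime) (D : RD0 K p ζ) {L : LDs D Ω} (Fr : FR L) (κ : ZMod p)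
    (Q₁ Q₂ Q₃ : Finset (Pl K)) (G : Pl K → Pl K → Pl K → ℂ) (h : C3 D Fr κ Q₁ Q₂ Q₃ G)
    (f₁ f₂ f₃ : Pl K → ZMod p) (g₁₂ g₁₃ g₂₃ : Pl K → Pl K → ZMod p) :
    C3 D Fr κ Q₁ Q₂ Q₃ fun a b c =>
      G a b c * ep p (f₁ a + f₂ b + f₃ c + g₁₂ a b + g₁₃ a c + g₂₃ b c) where
  d := fun a ha b hb c hc he => by
    show G a b c * _ = 0
    rw [h.d a ha b hb c hc he, zero_mul]
  un := fun a ha b hb c hc he => by
    show ‖G a b c * _‖ = 1
    rw [norm_mul, ep_norm, mul_one]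
    exact h.un a ha b hb c hc (left_ne_zero_of_mul he)
  n1 := fun a ha a' ha' b hb c hc h1 h2 h3 h4 he =>
    mul_ne_zero (h.n1 a ha a' ha' b hb c hc h1 h2 h3 h4 (left_ne_zero_of_mul he)) (ep_ne _)
  n2 := fun a ha b hb b' hb' c hc h1 h2 h3 h4 he =>
    mul_ne_zero (h.n2 a ha b hb b' hb' c hc h1 h2 h3 h4 (left_ne_zero_of_mul he)) (ep_ne _)
  n3 := fun a ha b hb c hc c' hc' h1 h2 h3 h4 he =>
    mul_ne_zero (h.n3 a ha b hb c hc c' hc' h1 h2 h3 h4 (left_ne_zero_of_mul he)) (ep_ne _)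
  cube := fun a ha a' ha' b hb b' hb' c hc c' hc' h1 h2 h3 h4 h5 h6 he Y hY => by
    have e1 := h.cube a ha a' ha' b hb b' hb' c hc c' hc' h1 h2 h3 h4 h5 h6
      (left_ne_zero_of_mul he) Y hY
    rw [tw_q4 hp G (fun a b c => f₁ a + f₂ b + f₃ c + g₁₂ a b + g₁₃ a c + g₂₃ b c),
      tw_q4 hp G (fun a b c => f₁ a + f₂ b + f₃ c + g₁₂ a b + g₁₃ a c + g₂₃ b c), map_mul,
      bilA_ep_neg hp, mul_mul_mul_comm, e1, ← ep_add hp]
    have e2 : ∀ x : ZMod p, x = 0 → ep p (κ * (Y (Fr.F c) - Y (Fr.F c'))) * ep p x =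
        ep p (κ * (Y (Fr.F c) - Y (Fr.F c'))) := by
      intro x hx
      rw [hx, ep_zero, mul_one]
    apply e2
    ring

theorem c2_tw (hp : p.Prime) (D : RD0 K p ζ) {L : LDs D Ω} (Fr : FR L) (κ : ZMod p) (A : Kˣ)
    (Q₁ Q₂ : Finset (Pl K)) (G : Pl K → Pl K → ℂ) (h : C2 D Fr κ A Q₁ Q₂ G)
    (f₁ f₂ : Pl K → ZMod p) (g₁₂ : Pl K → Pl K → ZMod p)
    (hg : ∀ a ∈ Q₁, ∀ a' ∈ Q₁, ∀ b ∈ Q₂, ∀ b' ∈ Q₂, a ≠ b → a' ≠ b' →
      D.LL b' (D.pi a') = D.LL b (D.pi a) → g₁₂ a' b' = g₁₂ a b) :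
    C2 D Fr κ A Q₁ Q₂ fun a b => G a b * ep p (f₁ a + f₂ b + g₁₂ a b) where
  d := fun a ha b hb he => by
    show G a b * _ = 0
    rw [h.d a ha b hb he, zero_mul]
  un := fun a ha b hb he => by
    show ‖G a b * _‖ = 1
    rw [norm_mul, ep_norm, mul_one]
    exact h.un a ha b hb (left_ne_zero_of_mul he)
  n1 := fun a ha a' ha' b hb h1 h2 he =>
    mul_ne_zero (h.n1 a ha a' ha' b hb h1 h2 (left_ne_zero_of_mul he)) (ep_ne _)
  n2 := fun a ha b hb b' hb' h1 h2 he =>
    mul_ne_zero (h.n2 a ha b hb b' hb' h1 h2 (left_ne_zero_of_mul he)) (ep_ne _)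
  square := fun a ha a' ha' b hb b' hb' h1 h2 h3 he Y hY => by
    have e1 := h.square a ha a' ha' b hb b' hb' h1 h2 h3 (left_ne_zero_of_mul he) Y hY
    have ma : a ∈ ({a, a'} : Finset (Pl K)) := Finset.mem_insert_self _ _
    have ma' : a' ∈ ({a, a'} : Finset (Pl K)) :=
      Finset.mem_insert_of_mem (Finset.mem_singleton_self _)
    have mb : b ∈ ({b, b'} : Finset (Pl K)) := Finset.mem_insert_self _ _
    have mb' : b' ∈ ({b, b'} : Finset (Pl K)) :=
      Finset.mem_insert_of_mem (Finset.mem_singleton_self _)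
    have k1 : g₁₂ a' b = g₁₂ a b := hg a ha a' ha' b hb b hb (h3 a ma b mb).1 (h3 a' ma' b mb).1
      (h3 a' ma' b mb).2
    have k2 : g₁₂ a b' = g₁₂ a b := hg a ha a ha b hb b' hb' (h3 a ma b mb).1 (h3 a ma b' mb').1
      (h3 a ma b' mb').2
    have k3 : g₁₂ a' b' = g₁₂ a b := hg a ha a' ha' b hb b' hb' (h3 a ma b mb).1
      (h3 a' ma' b' mb').1 (h3 a' ma' b' mb').2
    have e2 : ∀ x y z t : ZMod p, x - y - z + t = 0 →
        G a b * ep p x * conj (G a' b * ep p y) *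
          conj (G a b' * ep p z * conj (G a' b' * ep p t)) =
        G a b * conj (G a' b) * conj (G a b' * conj (G a' b')) := by
      intro x y z t hx
      have e3 : ep p x * ep p (-y) * (ep p (-z) * ep p t) = 1 := by
        rw [← ep_add hp, ← ep_add hp, ← ep_add hp]
        have e4 : x + -y + (-z + t) = 0 := by rw [← hx]; ring
        rw [e4, ep_zero]
      simp only [map_mul, bilA_ep_neg hp, neg_neg]
      calc _ = G a b * conj (G a' b) * (conj (G a b') * conj (conj (G a' b'))) *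
          (ep p x * ep p (-y) * (ep p (-z) * ep p t)) := by ring
        _ = _ := by rw [e3, mul_one]
    rw [e2 _ _ _ _ (by rw [k1, k2, k3]; ring)]
    exact e1

theorem vf_perm {D : RD0 K p ζ} {L : LDs D Ω} (Dg : GP p m l w N P R) (Fr : FR L) (b : Fin m → Kˣ)
    (E : Finset (Pl K)) (ε : Pl K → Gal(Ω/K) → R) (n : Finset (Pl K)) (σ : Pl K → R)
    (ψ : Pl K → Fin w → ZMod p) {r : ℕ} (τ : Fin r → R) (φ : Fin r → Fin w → ZMod p)
    (q : Fin r → Pl K) (e : Equiv.Perm (Fin r)) :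
    VF Dg Fr b E ε n σ ψ (τ ∘ e) (φ ∘ e) (q ∘ e) = VF Dg Fr b E ε n σ ψ τ φ q := by
  unfold VF
  by_cases h : Function.Injective q ∧ ∀ i, q i ∉ n
  · have h' : Function.Injective (q ∘ e) ∧ ∀ i, (q ∘ e) i ∉ n :=
      ⟨h.1.comp e.injective, fun i => h.2 (e i)⟩
    have hvn : vn n (q ∘ e) = vn n q := by
      unfold vn
      congr 1
      ext v
      simp only [Finset.mem_image, Finset.mem_univ, true_and, Function.comp_apply]
      constructor
      · rintro ⟨i, hi⟩
        exact ⟨e i, hi⟩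
      · rintro ⟨i, hi⟩
        exact ⟨e.symm i, by rw [Equiv.apply_symm_apply]; exact hi⟩
    have hvs : ∀ {X : Type} (s : Pl K → X) (t : Fin r → X) (v : Pl K),
        vs s (q ∘ e) (t ∘ e) v = vs s q t v := by
      intro X s t v
      by_cases hv : ∃ i, q i = v
      · obtain ⟨i, rfl⟩ := hv
        rw [vs_q s h.1 t i]
        have h1 := vs_q s h'.1 (t ∘ e) (e.symm i)
        simp only [Function.comp_apply, Equiv.apply_symm_apply] at h1
        exact h1
      · push Not at hv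
        rw [vs_out s t hv, vs_out s (q := q ∘ e) (t ∘ e) (fun i => hv (e i))]
    rw [if_pos h, if_pos h', hvn]
    exact ff_congr Dg Fr b E ε _ (fun v _ => hvs σ τ v) (fun v _ => hvs ψ φ v)
  · have h' : ¬ (Function.Injective (q ∘ e) ∧ ∀ i, (q ∘ e) i ∉ n) := by
      rintro ⟨h1, h2⟩
      apply h
      refine ⟨?_, fun i => ?_⟩
      · have h3 := h1.comp e.symm.injective
        have h4 : (q ∘ e) ∘ e.symm = q := by
          funext i
          simp
        rw [h4] at h3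
        exact h3
      · have h3 := h2 (e.symm i)
        simp only [Function.comp_apply, Equiv.apply_symm_apply] at h3
        exact h3
    rw [if_neg h, if_neg h']

private theorem sum_addr {J : Type} [Fintype J] {r : ℕ} {g : J → Finset (Pl K)}
    (τ : Fin r → J) {q : Fin r → Pl K} (hq : Function.Injective q) (ho : ∀ i a, q i ∉ g a)
    (f : J → Pl K → ZMod p) :
    ∑ a, ∑ v ∈ addr g τ q a, f a v = ∑ a, ∑ v ∈ g a, f a v + ∑ i, f (τ i) (q i) := by
  have h1 : ∀ a, ∑ v ∈ addr g τ q a, f a v =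
      ∑ v ∈ g a, f a v + ∑ i, if τ i = a then f a (q i) else 0 := by
    intro a
    unfold addr
    rw [Finset.sum_union, Finset.sum_image (fun x _ y _ hxy => hq hxy), Finset.sum_filter]
    rw [Finset.disjoint_left]
    intro v hv hv'
    obtain ⟨i, _, hi⟩ := Finset.mem_image.1 hv'
    exact ho i a (hi ▸ hv)
  rw [Finset.sum_congr rfl fun a _ => h1 a, Finset.sum_add_distrib]
  congr 1
  rw [Finset.sum_comm]
  refine Finset.sum_congr rfl fun i _ => ?_
  rw [Finset.sum_ite_eq, if_pos (Finset.mem_univ _)]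

theorem uu_addr {J : Type} [Fintype J] (hp : p.Prime) (hζ : IsPrimitiveRoot ζ p) (D : RD0 K p ζ)
    (u : J → Pl K → ZMod p) (lam : J → J → ZMod p) {r : ℕ} {g : J → Finset (Pl K)}
    (τ : Fin r → J) {q : Fin r → Pl K} (hq : Function.Injective q) (ho : ∀ i a, q i ∉ g a)
    (hS : ∀ i, q i ∉ D.S0) :
    UU D u lam (addr g τ q) = UU D u lam g +
      ∑ i, (u (τ i) (q i) + ∑ a, lam (τ i) a * ∑ v ∈ g a, D.LL (q i) (D.pi v) +
        ∑ a, lam a (τ i) * ∑ v ∈ g a, D.LL v (D.pi (q i))) +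
      ∑ i, ∑ j, (if i = j then 0 else lam (τ i) (τ j) * D.LL (q i) (D.pi (q j))) := by
  have h1 : ∀ a v, ∑ a', lam a a' * ∑ v' ∈ addr g τ q a', D.LL v (D.pi v') =
      ∑ a', lam a a' * ∑ v' ∈ g a', D.LL v (D.pi v') +
        ∑ j, lam a (τ j) * D.LL v (D.pi (q j)) := by
    intro a v
    simp only [Finset.mul_sum]
    exact sum_addr τ hq ho (fun a' v' => lam a a' * D.LL v (D.pi v'))
  have h2 : ∑ a, ∑ v ∈ g a, ∑ j, lam a (τ j) * D.LL v (D.pi (q j)) =
      ∑ i, ∑ a, lam a (τ i) * ∑ v ∈ g a, D.LL v (D.pi (q i)) := by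
    rw [Finset.sum_comm]
    refine Finset.sum_congr rfl fun a _ => ?_
    rw [Finset.sum_comm]
    refine Finset.sum_congr rfl fun j _ => ?_
    rw [Finset.mul_sum]
  have h3 : ∀ i, ∑ j, lam (τ i) (τ j) * D.LL (q i) (D.pi (q j)) =
      ∑ j, (if i = j then 0 else lam (τ i) (τ j) * D.LL (q i) (D.pi (q j))) := by
    intro i
    refine Finset.sum_congr rfl fun j _ => ?_
    by_cases hij : i = j
    · subst hij
      rw [if_pos rfl, ll_self hp hζ D (hS i), mul_zero]
    · rw [if_neg hij]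
  unfold UU
  rw [sum_addr τ hq ho
    (fun a v => u a v + ∑ a', lam a a' * ∑ v' ∈ addr g τ q a', D.LL v (D.pi v'))]
  simp only [h1]
  have h4 : ∑ a, ∑ v ∈ g a, (u a v + (∑ a', lam a a' * ∑ v' ∈ g a', D.LL v (D.pi v') +
      ∑ j, lam a (τ j) * D.LL v (D.pi (q j)))) =
      ∑ a, ∑ v ∈ g a, (u a v + ∑ a', lam a a' * ∑ v' ∈ g a', D.LL v (D.pi v')) +
      ∑ a, ∑ v ∈ g a, ∑ j, lam a (τ j) * D.LL v (D.pi (q j)) := by
    rw [← Finset.sum_add_distrib]
    refine Finset.sum_congr rfl fun a _ => ?_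
    rw [← Finset.sum_add_distrib]
    refine Finset.sum_congr rfl fun v _ => ?_
    rw [add_assoc]
  rw [h4, h2]
  simp only [← h3]
  simp only [Finset.sum_add_distrib]
  ring

end H51.CUB
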