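import Pool.Agent.H51.CUB.PFB
import Pool.Agent.H51.CUB.TWC

/-!
[H51 CUB CLA]  Cells; permutations of the added primes (120-170 lines). PROOF.

* `cells_sum`: `∑_{q ∈ ∏ Q i} F q = ∑_{c : Fin r → X} ∑_{q ∈ ∏ (Q i with cf = c i)} F q` (the second product is the set of the `q ∈ ∏ Q i` with `cf (q i) = c i` for all `i`: `Finset.sum_fiberwise` for the map `q ↦ fun i => cf (q i)`); triangle inequality, `Fintype.card (Fin r → X) = card X ^ r`.
* `cfn_card`: `Fintype.card_prod`, `Fintype.card_fun`, `Fintype.card_coe`, `ZMod.card`; `(un g ∪ E).card ≤ (un g).card + E.card`.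
* `cfn_cell`: `sg Dg σ v = sv Dg T g v` on `un g` (`sg_LB`), `ak_congr`; the components of `cfn`.
* `addr_perm`: `(q ∘ e) '' {i | τ (e i) = a} = q '' {i | τ i = a}`. `pi_perm`: reindex by `q ↦ q ∘ e` (`Fintype.piFinset`; `Finset.sum_bij` or `Finset.sum_nbij'`).
* `pf_cells`: the common first step for a product of cells: for `q ∈ ∏ Q i`: if `q` is injective then `QH` and `pf_addr`, `uu_addr`, `ep_add`; if not, `VF = 0` (definition). Sum over `q`, exchange the sums.
-/

set_option autoImplicit false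

open scoped NumberField
open IsDedekindDomain
open scoped Classical

noncomputable section

namespace H51.CUB

open H63.MA H38.BB H38.BG H57.PC H77.PC3

variable {K : Type} [Field K] [NumberField K] {p : ℕ} {ζ : K} {Ω : Type} [Field Ω] [Algebra K Ω]
  {m l w N : ℕ} {P R : Type} [Group P] [Group R] {J : Type} [Fintype J]

theorem cells_sum {V X : Type} [Fintype X] {r : ℕ} (Q : Fin r → Finset V) (cf : V → X)
    (F : (Fin r → V) → ℂ) (B : ℝ)
    (h : ∀ c : Fin r → X,
      ‖∑ q ∈ Fintype.piFinset (fun i => (Q i).filter fun x => cf x = c i), F q‖ ≤ B) :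
    ‖∑ q ∈ Fintype.piFinset Q, F q‖ ≤ (Fintype.card X : ℝ) ^ r * B := by
  have h1 : ∀ c : Fin r → X, Fintype.piFinset (fun i => (Q i).filter fun x => cf x = c i) =
      (Fintype.piFinset Q).filter (fun q => (fun i => cf (q i)) = c) := by
    intro c
    ext q
    simp only [Fintype.mem_piFinset, Finset.mem_filter, funext_iff, forall_and]
  have h2 : ∑ q ∈ Fintype.piFinset Q, F q =
      ∑ c : Fin r → X, ∑ q ∈ Fintype.piFinset (fun i => (Q i).filter fun x => cf x = c i),
        F q := by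
    rw [← Finset.sum_fiberwise (Fintype.piFinset Q) (fun q i => cf (q i)) F]
    exact Finset.sum_congr rfl fun c _ => by rw [h1 c]
  rw [h2]
  refine (norm_sum_le _ _).trans ?_
  refine (Finset.sum_le_sum fun c _ => h c).trans ?_
  rw [Finset.sum_const, Finset.card_univ, Fintype.card_pi_const, nsmul_eq_mul]
  push_cast
  exact le_rfl

/-- the cell of a prime -/
def cfn (D : RD0 K p ζ) (Dg : GP p m l w N P R) (T : TY N w p J) (b : Fin m → Kˣ)
    (E : Finset (Pl K)) (g : J → Finset (Pl K)) (x : Pl K) :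
    (Fin D.r → ZMod p) × (↥(un g ∪ E) → ZMod p) × (Fin m → ZMod p) :=
  (D.q x, fun u => D.LL u.1 (D.pi x), fun k => D.LL x (ak D b (un g) (sv Dg T g) k))

theorem cfn_card [NeZero p] (D : RD0 K p ζ) (E : Finset (Pl K)) (g : J → Finset (Pl K)) :
    (Fintype.card ((Fin D.r → ZMod p) × (↥(un g ∪ E) → ZMod p) × (Fin m → ZMod p)) : ℝ) ≤
      (p : ℝ) ^ (D.r + m + (un g).card + E.card) := by
  have hp : (1 : ℝ) ≤ p := by exact_mod_cast NeZero.one_le
  rw [Fintype.card_prod, Fintype.card_prod, Fintype.card_pi_const, Fintype.card_fun,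
    Fintype.card_pi_const, ZMod.card, Fintype.card_coe]
  push_cast
  rw [← pow_add, ← pow_add]
  refine pow_le_pow_right₀ hp ?_
  have h1 := Finset.card_union_le (un g) E
  omega

theorem cfn_cell [Finite R] (D : RD0 K p ζ) (Dg : GP p m l w N P R) (T : TY N w p J)
    (b : Fin m → Kˣ) (E : Finset (Pl K)) {g : J → Finset (Pl K)} (hg : Dj g) {σ : Pl K → R}
    (hσ : σ ∈ LB (clv Dg T g) (un g)) (Q : Finset (Pl K))
    (hQ : ∀ v ∈ Q, D.Gd v ∧ v ∉ E ∧ ∀ a, v ∉ g a)
    (c : (Fin D.r → ZMod p) × (↥(un g ∪ E) → ZMod p) × (Fin m → ZMod p)) :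
    Cell D Dg b E (un g) σ (Q.filter fun x => cfn D Dg T b E g x = c) := by
  have hcf : ∀ v ∈ Q.filter (fun x => cfn D Dg T b E g x = c),
      ∀ v' ∈ Q.filter (fun x => cfn D Dg T b E g x = c),
        cfn D Dg T b E g v = cfn D Dg T b E g v' := fun v hv v' hv' =>
    (Finset.mem_filter.1 hv).2.trans (Finset.mem_filter.1 hv').2.symm
  refine ⟨?_, ?_, ?_, ?_, ?_⟩
  · intro v hv
    obtain ⟨h1, h2, h3⟩ := hQ v (Finset.mem_filter.1 hv).1
    refine ⟨h1, h2, fun h4 => ?_⟩
    obtain ⟨a, -, ha⟩ := Finset.mem_biUnion.1 h4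
    exact h3 a ha
  · intro v hv v' hv'
    exact congrArg (fun z => z.1) (hcf v hv v' hv')
  · intro u hu v hv v' hv'
    exact congrFun (congrArg (fun z => z.2.1) (hcf v hv v' hv'))
      (⟨u, Finset.mem_union_left _ hu⟩ : ↥(un g ∪ E))
  · intro u hu v hv v' hv'
    exact congrFun (congrArg (fun z => z.2.1) (hcf v hv v' hv'))
      (⟨u, Finset.mem_union_right _ hu⟩ : ↥(un g ∪ E))
  · intro k v hv v' hv'
    rw [ak_congr D b (un g) (fun v hv => sg_LB Dg T hg hσ hv) k]
    exact congrFun (congrArg (fun z => z.2.2) (hcf v hv v' hv')) k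

omit [Fintype J] in
theorem addr_perm {r : ℕ} (g : J → Finset (Pl K)) (τ : Fin r → J) (q : Fin r → Pl K)
    (e : Equiv.Perm (Fin r)) : addr g (τ ∘ e) (q ∘ e) = addr g τ q := by
  funext a
  ext v
  rw [mem_addr, mem_addr]
  constructor
  · rintro (h | ⟨i, h1, h2⟩)
    · exact Or.inl h
    · exact Or.inr ⟨e i, h1, h2⟩
  · rintro (h | ⟨i, h1, h2⟩)
    · exact Or.inl h
    · refine Or.inr ⟨e.symm i, ?_, ?_⟩
      · rw [Function.comp_apply, Equiv.apply_symm_apply]
        exact h1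
      · rw [Function.comp_apply, Equiv.apply_symm_apply]
        exact h2

theorem pi_perm {V : Type} {r : ℕ} (Q : Fin r → Finset V) (e : Equiv.Perm (Fin r))
    (F : (Fin r → V) → ℂ) :
    ∑ q ∈ Fintype.piFinset (Q ∘ e), F q = ∑ q ∈ Fintype.piFinset Q, F (q ∘ e) := by
  refine Finset.sum_nbij' (fun q => q ∘ e.symm) (fun q => q ∘ e) ?_ ?_ ?_ ?_ ?_
  · intro q hq
    rw [Fintype.mem_piFinset] at hq ⊢
    intro i
    have h1 := hq (e.symm i)
    rw [Function.comp_apply, Equiv.apply_symm_apply] at h1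
    exact h1
  · intro q hq
    rw [Fintype.mem_piFinset] at hq ⊢
    exact fun i => hq (e i)
  · intro q _
    funext i
    simp only [Function.comp_apply, Equiv.symm_apply_apply]
  · intro q _
    funext i
    simp only [Function.comp_apply, Equiv.apply_symm_apply]
  · intro q _
    congr 1
    funext i
    simp only [Function.comp_apply, Equiv.symm_apply_apply]

/-- the phase of level one of one added prime -/
def ff1 (D : RD0 K p ζ) (u : J → Pl K → ZMod p) (lam : J → J → ZMod p) (g : J → Finset (Pl K))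
    (a : J) (x : Pl K) : ZMod p :=
  u a x + ∑ a', lam a a' * ∑ v ∈ g a', D.LL x (D.pi v) + ∑ a', lam a' a * ∑ v ∈ g a', D.LL v (D.pi x)

theorem pf_cells [NeZero p] [Finite R] [IsAlgClosure K Ω] (hp : p.Prime)
    (hζ : IsPrimitiveRoot ζ p) (D : RD K p ζ)
    {L : LDs D.toRD0 Ω} (Fr : FR L) (Dg : GP p m l w N P R) (T : TY N w p J) (b : Fin m → Kˣ)
    (E : Finset (Pl K)) (hE : ∀ v ∈ E, v ∉ D.S0) (ε : Pl K → Gal(Ω/K) → R)
    (u : J → Pl K → ZMod p) (lam : J → J → ZMod p) {r : ℕ}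
    {g : J → Finset (Pl K)} (hg : Dj g) (hG : ∀ a, ∀ v ∈ g a, D.Gd v ∧ v ∉ E) (τ : Fin r → J)
    (Q : Fin r → Finset (Pl K)) (hQ : ∀ i, ∀ v ∈ Q i, D.Gd v ∧ v ∉ E ∧ ∀ a, v ∉ g a) :
    ∑ q ∈ Fintype.piFinset Q, (if Function.Injective q then
      PF Dg Fr T b E ε (addr g τ q) * ep p (UU D.toRD0 u lam (addr g τ q)) else 0) =
    (Nat.card (H1 L Dg) : ℂ) * ep p (UU D.toRD0 u lam g) *
      ∑ σ ∈ LB (clv Dg T g) (un g), ∑ x ∈ Fintype.piFinset (fun i => clR Dg (T.cls (τ i))),
        ∑ q ∈ Fintype.piFinset Q,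
          VF Dg Fr b E ε (un g) σ (psv T g) x (fun i => T.psi (τ i)) q *
            ep p (∑ i, ff1 D.toRD0 u lam g (τ i) (q i) +
              ∑ i, ∑ j, (if i = j then 0 else lam (τ i) (τ j) * D.LL (q i) (D.pi (q j)))) := by
  have h1 : ∀ q ∈ Fintype.piFinset Q, (if Function.Injective q then
      PF Dg Fr T b E ε (addr g τ q) * ep p (UU D.toRD0 u lam (addr g τ q)) else 0) =
      (Nat.card (H1 L Dg) : ℂ) * ep p (UU D.toRD0 u lam g) *
        ∑ σ ∈ LB (clv Dg T g) (un g), ∑ x ∈ Fintype.piFinset (fun i => clR Dg (T.cls (τ i))),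
          VF Dg Fr b E ε (un g) σ (psv T g) x (fun i => T.psi (τ i)) q *
            ep p (∑ i, ff1 D.toRD0 u lam g (τ i) (q i) +
              ∑ i, ∑ j, (if i = j then 0 else
                lam (τ i) (τ j) * D.LL (q i) (D.pi (q j)))) := by
    intro q hq
    rw [Fintype.mem_piFinset] at hq
    by_cases hi : Function.Injective q
    · have hQH : QH D.toRD0 E g q :=
        ⟨hg, hG, hi, fun i => ⟨(hQ i (q i) (hq i)).1, (hQ i (q i) (hq i)).2.1⟩,
          fun i => (hQ i (q i) (hq i)).2.2⟩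
      rw [if_pos hi, pf_addr hp hζ D Fr Dg T b E hE ε τ hQH,
        uu_addr hp hζ D.toRD0 u lam τ hi hQH.out (fun i => (hQH.qd i).1.1), add_assoc, ep_add hp]
      simp only [← Finset.sum_mul]
      unfold ff1
      ring
    · rw [if_neg hi]
      have h2 : ∀ σ x, VF Dg Fr b E ε (un g) σ (psv T g) x (fun i => T.psi (τ i)) q = 0 := by
        intro σ x
        unfold VF
        rw [if_neg fun h => hi h.1]
      simp only [h2, zero_mul, Finset.sum_const_zero, mul_zero]
  rw [Finset.sum_congr rfl h1, ← Finset.mul_sum]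
  congr 1
  rw [Finset.sum_comm]
  refine Finset.sum_congr rfl fun σ _ => ?_
  rw [Finset.sum_comm]

end H51.CUB
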