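import Pool.Agent.H51.CUB.LBA
import Pool.Agent.H51.CUB.C2S

/-!
[H51 CUB LBM]  Vanishing label sums (150-200 lines). PROOF.

`ll_ps`: for `A` locally a `p`-th power at `S0`, supported on a set `n` of good primes (mod `p`), and a good prime `q ∉ n`: `exists_rec_one` (`lam v = 1` at primes of prime norm) and `IsRec.sum` (product formula, see the use in `H57/BRA/BR.lean`, end of `br2`): `∑ᶠ v, lam v * B v A (pi q) = 0`. `B v A (pi q) = 0` at `v ∈ S0` (`PS`; `lam = 0` above `p`);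
at `v ∉ S0` it is `LL v A * ord v (pi q) - ord v A * LL v (pi q)` (`b_LL`): `LL q A` for `v = q` (`ord q A = 0` mod `p`), `- ord v A * LL v (pi q)` for `v ∈ n`, `0` otherwise.
`lbs_m`: `t = vof (kV (s i) (s i'))`, `i' = 1 - i` the other index. By `cl_closed` (`IsConj x y` is assumed for all `x ∈ C` and conversely) `C` is closed under `x ↦ x * t` (`pu x = s i`). `Lam` for the label `x` at `i` with `VF ≠ 0`: (a) sum over `n`: `i = 0`: `t` has coordinates `kV s_0 s_1 = - kV s_1 s_0`, so by `hA2` it is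
`- ∑ v ∈ n, ord v A * LL v (pi (q 0)) = - LL (q 0) A`; `i = 1`: `kV s_1 s_0`: `+ LL (q 1) A`. (b) the other index: `φ i' · β (..) (s i') = 0` by `hφ`. (c) `φ i · β (kV s_i s_i') a` with `a = pu (ρ (F (q i)))` (`pu_Fq`) and `kV s_i a = 0` (`com_q`, a `ρ ∈ XS` exists by `ff_ne`): `jac` for `s_i, s_i', a`:
`β (kV s_i s_i') a = - β (kV s_i' a) s_i - β (kV a s_i) s_i' = - β (kV s_i' a) s_i`, and `φ i` kills it by `hφ`. So `Lam = ∓ LL (q i) A ≠ 0` (independent of `x`); `lbs`.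
`lbs_s`: the same `t`. `kv = kV s_1 s_0`. (a), (b) vanish by `hφ1`, `hφ2` (`t` has coordinates `± kv`). (c) `i = 0`: `Lam = - φ 0 · β (kV s_0 s_1) a = φ 0 · β (kV s_1 a) s_0` (`jac`, `kV s_0 a = 0`), `= tta (φ 0) s_1 s_0 · a`; and `tta (φ 1) s_0 s_1 · a = φ 1 · β (kV s_0 a) s_1 = 0`. So `Lam = - c · a` (`tta_apply`, `hc`),
`a = LL (q 0) (ak n) + LL (q 0) (pi (q 1)) • s_1 + LL (q 0) (pi (q 0)) • s_0`, `c · s_0 = c · s_1 = 0` (`hφ2`, `kV_self`, `kV_swap`): `Lam = - LL (q 0) (Ac c)` (`ac_LL`). `i = 1`: `Lam = - φ 1 · β (kV s_1 s_0) a = φ 1 · β (kV s_0 a) s_1 = c · a` (`kV s_1 a = 0`), `= LL (q 1) (Ac c)`.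
-/

set_option autoImplicit false

open scoped NumberField
open IsDedekindDomain
open scoped Classical

noncomputable section

namespace H51.CUB

open H63.MA H38.BB H38.BG H57.PC H77.PC3

variable {K : Type} [Field K] [NumberField K] {p : ℕ} {ζ : K} {Ω : Type} [Field Ω] [Algebra K Ω]
  {m l w N : ℕ} {P R : Type} [Group P] [Group R]

theorem ll_ps (hp : p.Prime) (hp2 : MOne p K) (hζ : IsPrimitiveRoot ζ p) (D : RD0 K p ζ)
    (n : Finset (Pl K)) (hn : ∀ v ∈ n, D.Gd v) (A : Kˣ) (hA : PS p ζ D.S0 A)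
    (hA1 : ∀ v, v ∉ D.S0 → v ∉ n → ((ord v A : ℤ) : ZMod p) = 0) (q : Pl K) (hq : D.Gd q)
    (hqn : q ∉ n) : D.LL q A = ∑ v ∈ n, ((ord v A : ℤ) : ZMod p) * D.LL v (D.pi q) := by
  obtain ⟨lam, hlam, hone⟩ := exists_rec_one K hp hp2 hζ
  have hsum := hlam.sum A hA.1 (D.pi q)
  have hlv : ∀ v, D.Gd v → lam v = 1 := fun v hv => hone v (fun h => hv.1 (D.above v h)) hv.2
  have hout : ∀ v, v ∉ insert q n → lam v * B p ζ v A (D.pi q) = 0 := by
    intro v hv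
    rw [Finset.mem_insert, not_or] at hv
    by_cases hva : Above p v
    · rw [hlam.above v hva, zero_mul]
    · by_cases hvS : v ∈ D.S0
      · rw [hA.2 v hvS hva (D.pi q), mul_zero]
      · rw [b_LL hp hζ D v hvS, D.pi_ne q v hq.1 hvS hv.1, hA1 v hvS hv.2, Int.cast_zero, mul_zero,
          zero_mul, sub_zero, mul_zero]
  rw [finsum_eq_sum_of_support_subset (s := insert q n) _ (by
    intro v hv
    by_contra hvT
    exact hv (hout v hvT)), Finset.sum_insert hqn] at hsum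
  have h1 : lam q * B p ζ q A (D.pi q) = D.LL q A := by
    rw [hlv q hq, one_mul, b_LL hp hζ D q hq.1, D.pi_self q hq.1, hA1 q hq.1 hqn, zero_mul,
      sub_zero, Int.cast_one, mul_one]
  have h2 : ∑ v ∈ n, lam v * B p ζ v A (D.pi q) =
      -∑ v ∈ n, ((ord v A : ℤ) : ZMod p) * D.LL v (D.pi q) := by
    rw [← Finset.sum_neg_distrib]
    refine Finset.sum_congr rfl fun v hv => ?_
    have hne : v ≠ q := fun h => hqn (h ▸ hv)
    rw [hlv v (hn v hv), one_mul, b_LL hp hζ D v (hn v hv).1, D.pi_ne q v hq.1 (hn v hv).1 hne,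
      Int.cast_zero, mul_zero, zero_sub]
  rw [h1, h2] at hsum
  exact eq_of_sub_eq_zero (by rw [sub_eq_add_neg]; exact hsum)

private theorem lbm_neg (θ x : Fin w → ZMod p) : dt θ (-x) = -dt θ x := by
  simp only [dt, Pi.neg_apply, mul_neg, Finset.sum_neg_distrib]

private theorem lbm_zero (θ : Fin w → ZMod p) : dt θ 0 = 0 := by
  simp only [dt, Pi.zero_apply, mul_zero, Finset.sum_const_zero]

private theorem lbm_conj (Dg : GP p m l w N P R) {x y : R} (h : IsConj x y) :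
    pu Dg x = pu Dg y := by
  obtain ⟨c, hc⟩ := isConj_iff.1 h
  rw [← hc, pu_mul, pu_mul, pu_inv]
  abel

private theorem lbm_core [NeZero p] [Finite R] [IsAlgClosure K Ω] (hp : p.Prime)
    (hζ : IsPrimitiveRoot ζ p) {D : RD0 K p ζ} {L : LDs D Ω} (Fr : FR L) (Dg : GP p m l w N P R)
    (b : Fin m → Kˣ) (E : Finset (Pl K)) (ε : Pl K → Gal(Ω/K) → R) (n : Finset (Pl K))
    (σ : Pl K → R) (ψ : Pl K → Fin w → ZMod p) (s : Fin 2 → Fin m → ZMod p)
    (τ : Fin 2 → R) (hτ : ∀ i, pu Dg (τ i) = s i) (φ : Fin 2 → Fin w → ZMod p)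
    (q : Fin 2 → Pl K) (hq : ∀ i, q i ∉ D.S0) (i i' : Fin 2) (hi : i' ≠ i)
    (h : VF Dg Fr b E ε n σ ψ τ φ q ≠ 0) :
    (∀ j, q j ∉ n) ∧ ∃ a : Fin m → ZMod p,
      a = (fun k => D.LL (q i) (ak D b n (sg Dg σ) k)) + ∑ j, D.LL (q i) (D.pi (q j)) • s j ∧
      Dg.kV (s i) a = 0 ∧
      Lam D Dg b n σ ψ τ φ q i (vof Dg (Dg.kV (s i) (s i'))) =
        ∑ v ∈ n, dt (ψ v) (Dg.β (Dg.kV (s i) (s i')) (sg Dg σ v)) * D.LL v (D.pi (q i)) +
        dt (φ i') (Dg.β (Dg.kV (s i) (s i')) (s i')) * D.LL (q i') (D.pi (q i)) +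
        dt (φ i) (Dg.β (Dg.kV (s i') a) (s i)) := by
  unfold VF at h
  by_cases hc : Function.Injective q ∧ ∀ i, q i ∉ n
  swap
  · rw [if_neg hc] at h
    exact absurd rfl h
  rw [if_pos hc] at h
  obtain ⟨-, ρ, hρ⟩ := ff_ne Fr Dg b E ε _ _ _ h
  have h1 := pu_Fq hp hζ Fr Dg b E ε n σ τ q hc.1 hc.2 hρ (q i) (hq i)
  have h2 := com_q Fr Dg b E ε n σ τ q hc.1 hρ i (hq i)
  simp only [hτ] at h1 h2
  refine ⟨hc.2, pu Dg (ρ (Fr.F (q i))), h1, h2, ?_⟩
  have hcv : (fun k => Dg.cv k (vof Dg (Dg.kV (s i) (s i')))) = Dg.kV (s i) (s i') :=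
    funext fun k => vof_cv Dg _ k
  unfold Lam
  simp only [hτ]
  rw [hcv, ← h1]
  have h3 : ∑ j, (if j = i then 0 else
      dt (φ j) (Dg.β (Dg.kV (s i) (s i')) (s j)) * D.LL (q j) (D.pi (q i))) =
      dt (φ i') (Dg.β (Dg.kV (s i) (s i')) (s i')) * D.LL (q i') (D.pi (q i)) := by
    rw [Finset.sum_eq_single i']
    · rw [if_neg hi]
    · intro j _ hj
      have : j = i := by omega
      rw [if_pos this]
    · intro h
      exact absurd (Finset.mem_univ _) h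
  have h4 : Dg.kV (pu Dg (ρ (Fr.F (q i)))) (s i) = 0 := by
    rw [kV_swap, h2, neg_zero]
  have h5 : Dg.β (Dg.kV (s i) (s i')) (pu Dg (ρ (Fr.F (q i)))) =
      -Dg.β (Dg.kV (s i') (pu Dg (ρ (Fr.F (q i))))) (s i) := by
    have h6 := jac Dg (s i) (s i') (pu Dg (ρ (Fr.F (q i))))
    rw [h4, map_zero, LinearMap.zero_apply, add_zero] at h6
    exact eq_neg_of_add_eq_zero_left h6
  rw [h3, h5, lbm_neg]
  ring

theorem lbs_m [NeZero p] [Finite R] [IsAlgClosure K Ω] (hp : p.Prime) (hp2 : MOne p K)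
    (hζ : IsPrimitiveRoot ζ p) {D : RD0 K p ζ} {L : LDs D Ω} (Fr : FR L) (Dg : GP p m l w N P R)
    (b : Fin m → Kˣ) (E : Finset (Pl K)) (ε : Pl K → Gal(Ω/K) → R) (n : Finset (Pl K))
    (σ : Pl K → R) (ψ : Pl K → Fin w → ZMod p) (hB : Bse D b E n) (s : Fin 2 → Fin m → ZMod p)
    (τ : Fin 2 → R) (hτ : ∀ i, pu Dg (τ i) = s i) (φ : Fin 2 → Fin w → ZMod p)
    (hφ : ∀ i (v : Fin l → ZMod p), dt (φ i) (Dg.β v (s i)) = 0) (A : Kˣ)
    (hA : PS p ζ D.S0 A) (hA1 : ∀ v, v ∉ D.S0 → v ∉ n → ((ord v A : ℤ) : ZMod p) = 0)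
    (hA2 : ∀ v ∈ n, ((ord v A : ℤ) : ZMod p) =
      dt (ψ v) (Dg.β (Dg.kV (s 1) (s 0)) (sg Dg σ v)))
    (q : Fin 2 → Pl K) (hq : ∀ i, D.Gd (q i) ∧ q i ∉ E) (i : Fin 2) (hi : D.LL (q i) A ≠ 0)
    (y : R) (hy : pu Dg y = s i) (C : Finset R) (hC : ∀ x, x ∈ C ↔ IsConj x y) :
    ∑ x ∈ C, VF Dg Fr b E ε n σ ψ (Function.update τ i x) φ q = 0 := by
  have hpx : ∀ x ∈ C, pu Dg x = s i := fun x hx => by rw [lbm_conj Dg ((hC x).1 hx), hy]
  have hup : ∀ x ∈ C, ∀ j, pu Dg (Function.update τ i x j) = s j := by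
    intro x hx j
    by_cases hj : j = i
    · rw [hj, Function.update_self, hpx x hx]
    · rw [Function.update_of_ne hj, hτ]
  have hq' : ∀ i, q i ∉ D.S0 ∧ q i ∉ E := fun i => ⟨(hq i).1.1, (hq i).2⟩
  obtain ⟨i', hi'⟩ : ∃ i' : Fin 2, i' ≠ i := ⟨1 - i, by omega⟩
  have hcl : ∀ x ∈ C, x * vof Dg (Dg.kV (s i) (s i')) ∈ C := by
    intro x hx
    rw [hC]
    have h1 := cl_closed Dg ((hC x).1 hx) (s i')
    rw [hpx x hx] at h1
    exact h1
  have hval : ∀ x ∈ C, VF Dg Fr b E ε n σ ψ (Function.update τ i x) φ q ≠ 0 →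
      Lam D Dg b n σ ψ (Function.update τ i x) φ q i (vof Dg (Dg.kV (s i) (s i'))) =
        if i = 0 then -D.LL (q i) A else D.LL (q i) A := by
    intro x hx hne
    obtain ⟨hn, a, -, -, hL⟩ := lbm_core hp hζ Fr Dg b E ε n σ ψ s (Function.update τ i x)
      (hup x hx) φ q (fun j => (hq j).1.1) i i' hi' hne
    rw [hL, hφ, hφ, zero_mul, add_zero, add_zero]
    have h1 := ll_ps hp hp2 hζ D n (fun v hv => (hB.gn v hv).1) A hA hA1 (q i) (hq i).1 (hn i)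
    by_cases h0 : i = 0
    · rw [if_pos h0, h1, ← Finset.sum_neg_distrib]
      refine Finset.sum_congr rfl fun v hv => ?_
      have h1' : i' = 1 := by omega
      rw [hA2 v hv, h0, h1', kV_swap, map_neg, LinearMap.neg_apply, lbm_neg, neg_mul]
    · have h00 : i = 1 := by omega
      have h1' : i' = 0 := by omega
      rw [if_neg h0, h1]
      refine Finset.sum_congr rfl fun v hv => ?_
      rw [hA2 v hv, h00, h1']
  refine lbs hp hζ Fr Dg b E ε n σ ψ hB τ φ q hq' i (vof Dg (Dg.kV (s i) (s i')))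
    (vof_pi Dg _) C hcl (if i = 0 then -D.LL (q i) A else D.LL (q i) A) ?_ hval
  split_ifs
  · exact neg_ne_zero.2 hi
  · exact hi

theorem lbs_s [NeZero p] [Finite R] [IsAlgClosure K Ω] (hp : p.Prime)
    (hζ : IsPrimitiveRoot ζ p) {D : RD0 K p ζ} {L : LDs D Ω} (Fr : FR L) (Dg : GP p m l w N P R)
    (b : Fin m → Kˣ) (E : Finset (Pl K)) (ε : Pl K → Gal(Ω/K) → R) (n : Finset (Pl K))
    (σ : Pl K → R) (ψ : Pl K → Fin w → ZMod p) (hB : Bse D b E n) (s : Fin 2 → Fin m → ZMod p)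
    (τ : Fin 2 → R) (hτ : ∀ i, pu Dg (τ i) = s i) (φ : Fin 2 → Fin w → ZMod p)
    (hφ1 : ∀ v ∈ n, dt (ψ v) (Dg.β (Dg.kV (s 1) (s 0)) (sg Dg σ v)) = 0)
    (hφ2 : ∀ i, dt (φ i) (Dg.β (Dg.kV (s 1) (s 0)) (s i)) = 0)
    (c : Fin m → ZMod p) (hc : c = tta Dg (φ 1) (s 0) (s 1) - tta Dg (φ 0) (s 1) (s 0))
    (q : Fin 2 → Pl K) (hq : ∀ i, D.Gd (q i) ∧ q i ∉ E) (i : Fin 2)
    (hi : D.LL (q i) (Ac D b n (sg Dg σ) c) ≠ 0)
    (y : R) (hy : pu Dg y = s i) (C : Finset R) (hC : ∀ x, x ∈ C ↔ IsConj x y) :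
    ∑ x ∈ C, VF Dg Fr b E ε n σ ψ (Function.update τ i x) φ q = 0 := by
  have hpx : ∀ x ∈ C, pu Dg x = s i := fun x hx => by rw [lbm_conj Dg ((hC x).1 hx), hy]
  have hup : ∀ x ∈ C, ∀ j, pu Dg (Function.update τ i x j) = s j := by
    intro x hx j
    by_cases hj : j = i
    · rw [hj, Function.update_self, hpx x hx]
    · rw [Function.update_of_ne hj, hτ]
  have hq' : ∀ i, q i ∉ D.S0 ∧ q i ∉ E := fun i => ⟨(hq i).1.1, (hq i).2⟩
  obtain ⟨i', hi'⟩ : ∃ i' : Fin 2, i' ≠ i := ⟨1 - i, by omega⟩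
  have hcl : ∀ x ∈ C, x * vof Dg (Dg.kV (s i) (s i')) ∈ C := by
    intro x hx
    rw [hC]
    have h1 := cl_closed Dg ((hC x).1 hx) (s i')
    rw [hpx x hx] at h1
    exact h1
  -- the vector `c`
  have hcu : ∀ u : Fin m → ZMod p, ∑ k, c k * u k =
      dt (φ 1) (Dg.β (Dg.kV (s 0) u) (s 1)) - dt (φ 0) (Dg.β (Dg.kV (s 1) u) (s 0)) := by
    intro u
    rw [← tta_apply, ← tta_apply, ← Finset.sum_sub_distrib]
    refine Finset.sum_congr rfl fun k _ => ?_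
    rw [hc, Pi.sub_apply, sub_mul]
  have hcs : ∀ j : Fin 2, ∑ k, c k * s j k = 0 := by
    intro j
    rw [hcu]
    rcases (show j = 0 ∨ j = 1 by omega) with h | h
    · rw [h, kV_self, map_zero, LinearMap.zero_apply, lbm_zero, hφ2, sub_zero]
    · rw [h, kV_self, map_zero, LinearMap.zero_apply, lbm_zero, kV_swap Dg (s 0) (s 1), map_neg,
        LinearMap.neg_apply, lbm_neg, hφ2, neg_zero, sub_zero]
  have hval : ∀ x ∈ C, VF Dg Fr b E ε n σ ψ (Function.update τ i x) φ q ≠ 0 →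
      Lam D Dg b n σ ψ (Function.update τ i x) φ q i (vof Dg (Dg.kV (s i) (s i'))) =
        if i = 0 then -D.LL (q i) (Ac D b n (sg Dg σ) c) else
          D.LL (q i) (Ac D b n (sg Dg σ) c) := by
    intro x hx hne
    obtain ⟨hn, a, ha, hka, hL⟩ := lbm_core hp hζ Fr Dg b E ε n σ ψ s (Function.update τ i x)
      (hup x hx) φ q (fun j => (hq j).1.1) i i' hi' hne
    have hca : ∑ k, c k * a k = D.LL (q i) (Ac D b n (sg Dg σ) c) := by
      rw [ac_LL hp hζ D b n (sg Dg σ) c (hq i).1.1, ha, Fin.sum_univ_two]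
      have h1 : ∀ k, c k * ((fun k => D.LL (q i) (ak D b n (sg Dg σ) k)) +
          (D.LL (q i) (D.pi (q 0)) • s 0 + D.LL (q i) (D.pi (q 1)) • s 1)) k =
          c k * D.LL (q i) (ak D b n (sg Dg σ) k) +
            (D.LL (q i) (D.pi (q 0)) * (c k * s 0 k) + D.LL (q i) (D.pi (q 1)) * (c k * s 1 k)) := by
        intro k
        simp only [Pi.add_apply, Pi.smul_apply, smul_eq_mul]
        ring
      rw [Finset.sum_congr rfl fun k _ => h1 k, Finset.sum_add_distrib, Finset.sum_add_distrib,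
        ← Finset.mul_sum, ← Finset.mul_sum, hcs, hcs, mul_zero, mul_zero, add_zero, add_zero]
    have hcu' := hcu a
    rw [hca] at hcu'
    rw [hL]
    by_cases h0 : i = 0
    · have h1' : i' = 1 := by omega
      subst h0
      subst h1'
      have e1 : ∀ v ∈ n, dt (ψ v) (Dg.β (Dg.kV (s 0) (s 1)) (sg Dg σ v)) *
          D.LL v (D.pi (q 0)) = 0 := by
        intro v hv
        rw [kV_swap Dg (s 0) (s 1), map_neg, LinearMap.neg_apply, lbm_neg, hφ1 v hv, neg_zero,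
          zero_mul]
      rw [Finset.sum_eq_zero e1, kV_swap Dg (s 0) (s 1), map_neg, LinearMap.neg_apply, lbm_neg, hφ2,
        neg_zero, zero_mul, zero_add, zero_add, if_pos rfl, hcu', hka, map_zero,
        LinearMap.zero_apply, lbm_zero, zero_sub, neg_neg]
    · have h00 : i = 1 := by omega
      have h1' : i' = 0 := by omega
      subst h00
      subst h1'
      have e1 : ∀ v ∈ n, dt (ψ v) (Dg.β (Dg.kV (s 1) (s 0)) (sg Dg σ v)) *
          D.LL v (D.pi (q 1)) = 0 := by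
        intro v hv
        rw [hφ1 v hv, zero_mul]
      rw [Finset.sum_eq_zero e1, hφ2, zero_mul, zero_add, zero_add, if_neg h0, hcu', hka, map_zero,
        LinearMap.zero_apply, lbm_zero, sub_zero]
  refine lbs hp hζ Fr Dg b E ε n σ ψ hB τ φ q hq' i (vof Dg (Dg.kV (s i) (s i')))
    (vof_pi Dg _) C hcl _ ?_ hval
  split_ifs
  · exact neg_ne_zero.2 hi
  · exact hi

end H51.CUB
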