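import Pool.Agent.H51.CUB.CLM

/-!
[H51 CUB CLS]  Two added primes, second pattern: sums over boxes (180-240 lines). PROOF.

As in `CLM.lean`, with `n = un g`, `s i = Dg.s (T.cls (τ i))`, `φ i = T.psi (τ i)`, `kv = kV (s 1) (s 0)`, `c = tta Dg (φ 1) (s 0) (s 1) - tta Dg (φ 0) (s 1) (s 0)` (`cta`), `A = Ac D b n (sv Dg T g) c = Ac D b n (sg Dg σ) c` for all `σ ∈ LB` (`ak_congr`, `sg_LB`). No CASE A. By assumption `A` is not a `p`-th power.
`LL x A = ∑ k, c k * LL x (ak ..)` (`ac_LL`) is constant on cells (third component of `cfn`). If `LL x A ≠ 0` on `Q' i` for some `i`: `lbs_s` (label sums vanish). If `LL x A = 0` on both cells: `box2` with `S = n.filter (∑ k, c k * sv Dg T g v k ≠ 0) ∪ E` (`ord v A = ∑ c k * sv .. v k` (mod `p`) for `v ∈ n`, `0` outside `n ∪ E ∪ S0`: `ac_ord`, `ak_ord`),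
the symbols at `u ∈ S` are constant on cells (second component of `cfn`); `C2` by `c2s` and `c2_tw`. `hφ1`, `hφ2` of `lbs_s`, `c2s`: from `hk` (`psv_eq`, `sv_eq`: `nv kv v = 0` on `un g`).
`bxs2s`: exchange of the indices: `kv` becomes `- kv`, `c` becomes `- c`, and `A` becomes `A⁻¹` times a `p`-th power (`(- c k).val + (c k).val` is `0` or `p`), `LL`, `ord` change sign.
-/

set_option autoImplicit false

open scoped NumberField
open IsDedekindDomain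
open scoped Classical

noncomputable section

namespace H51.CUB

open H63.MA H38.BB H38.BG H57.PC H77.PC3 H57.BRA

variable {K : Type} [Field K] [NumberField K] {p : ℕ} {ζ : K} {Ω : Type} [Field Ω] [Algebra K Ω]
  [IsAlgClosure K Ω] {m l w N : ℕ} {P R : Type} [Group P] [Group R]

/-- the difference of the two functionals on `U` -/
def cta {J : Type} (Dg : GP p m l w N P R) (T : TY N w p J) (τ : Fin 2 → J) : Fin m → ZMod p :=
  tta Dg (T.psi (τ 1)) (Dg.s (T.cls (τ 0))) (Dg.s (T.cls (τ 1))) -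
    tta Dg (T.psi (τ 0)) (Dg.s (T.cls (τ 1))) (Dg.s (T.cls (τ 0)))

private theorem cls_un {J : Type} [Fintype J] {g : J → Finset (Pl K)} {v : Pl K} :
    v ∈ un g ↔ ∃ a, v ∈ g a := by
  unfold un
  rw [Finset.mem_biUnion]
  exact ⟨fun ⟨a, _, h⟩ => ⟨a, h⟩, fun ⟨a, h⟩ => ⟨a, Finset.mem_univ _, h⟩⟩

private theorem cls_two {α : Type} (C : Fin 2 → Finset α) (f : (Fin 2 → α) → ℂ) :
    ∑ q ∈ Fintype.piFinset C, f q = ∑ a ∈ C 0, ∑ b ∈ C 1, f ![a, b] := by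
  rw [← Finset.sum_product' (C 0) (C 1) (fun a b => f ![a, b])]
  refine Finset.sum_nbij' (fun q => (q 0, q 1)) (fun z => ![z.1, z.2]) ?_ ?_ ?_ ?_ ?_
  · intro q hq
    rw [Fintype.mem_piFinset] at hq
    exact Finset.mem_product.2 ⟨hq 0, hq 1⟩
  · intro z hz
    rw [Finset.mem_product] at hz
    rw [Fintype.mem_piFinset]
    intro i
    fin_cases i
    · exact hz.1
    · exact hz.2
  · intro q _
    funext i
    fin_cases i <;> rfl
  · intro z _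
    rfl
  · intro q _
    congr 1
    funext i
    fin_cases i <;> rfl

/-- the conclusion of `box2` -/
private def ClsBox {D : RD K p ζ} {L : LDs D.toRD0 Ω} (Fr : FR L) (c C : ℝ) (n : ℕ) : Prop :=
  ∀ (T Z₁ Z₂ : ℝ), 2 ≤ T → T ≤ Z₁ → Z₁ ≤ Z₂ →
      ∀ (A : Kˣ) (S : Finset (Pl K)), ¬ IsPow p A → (∀ v ∈ S, v ∉ D.S0) →
      (∀ v, v ∉ D.S0 → v ∉ S → ((ord v A : ℤ) : ZMod p) = 0) → nr S ≤ Z₂ →
      ∀ Q₁ Q₂ : Finset (Pl K),
      (∀ v ∈ Q₁, D.Gd v ∧ v ∉ S ∧ D.LL v A = 0 ∧ Z₁ < nm v ∧ (nm v : ℝ) ≤ 2 * Z₁) →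
      (∀ v ∈ Q₂, D.Gd v ∧ v ∉ S ∧ D.LL v A = 0 ∧ Z₂ < nm v ∧ (nm v : ℝ) ≤ 2 * Z₂) →
      (∀ v ∈ Q₁, ∀ v' ∈ Q₁, D.q v = D.q v' ∧ ∀ u ∈ S, D.LL u (D.pi v) = D.LL u (D.pi v')) →
      (∀ v ∈ Q₂, ∀ v' ∈ Q₂, D.q v = D.q v' ∧ ∀ u ∈ S, D.LL u (D.pi v) = D.LL u (D.pi v')) →
      ∀ κ : ZMod p, κ ≠ 0 → ∀ G : Pl K → Pl K → ℂ, (∀ a b, ‖G a b‖ ≤ 1) →
        C2 D.toRD0 Fr κ A Q₁ Q₂ G →
        ‖∑ a ∈ Q₁, ∑ b ∈ Q₂, G a b‖ ≤ C * (Z₁ * Z₂) * T ^ (-c) * (1 + Real.log Z₂) ^ n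

private theorem cls_card {R' : Type} [Fintype R'] (C : Fin 2 → Finset R') :
    ((Fintype.piFinset C).card : ℝ) ≤ (Fintype.card R' : ℝ) ^ 2 := by
  rw [Fintype.card_piFinset, Fin.prod_univ_two, sq]
  push_cast
  exact mul_le_mul (by exact_mod_cast Finset.card_le_univ _)
    (by exact_mod_cast Finset.card_le_univ _) (Nat.cast_nonneg _) (Nat.cast_nonneg _)


/-- the label sum vanishes -/
private theorem cls_lab [NeZero p] [Finite R] (hp : p.Prime)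
    (hζ : IsPrimitiveRoot ζ p) {D : RD0 K p ζ} {L : LDs D Ω} (Fr : FR L) (Dg : GP p m l w N P R)
    (b : Fin m → Kˣ) (E : Finset (Pl K)) (ε : Pl K → Gal(Ω/K) → R) (n : Finset (Pl K))
    (σ : Pl K → R) (ψ : Pl K → Fin w → ZMod p) (hB : Bse D b E n) (cl : Fin 2 → Fin N)
    (φ : Fin 2 → Fin w → ZMod p)
    (hφ1 : ∀ v ∈ n, dt (ψ v) (Dg.β (Dg.kV (Dg.s (cl 1)) (Dg.s (cl 0))) (sg Dg σ v)) = 0)
    (hφ2 : ∀ i, dt (φ i) (Dg.β (Dg.kV (Dg.s (cl 1)) (Dg.s (cl 0))) (Dg.s (cl i))) = 0)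
    (c : Fin m → ZMod p) (hc : c = tta Dg (φ 1) (Dg.s (cl 0)) (Dg.s (cl 1)) -
      tta Dg (φ 0) (Dg.s (cl 1)) (Dg.s (cl 0)))
    (q : Fin 2 → Pl K) (hq : ∀ i, D.Gd (q i) ∧ q i ∉ E) (i : Fin 2)
    (hi : D.LL (q i) (Ac D b n (sg Dg σ) c) ≠ 0) :
    ∑ x ∈ Fintype.piFinset (fun i => clR Dg (cl i)), VF Dg Fr b E ε n σ ψ x φ q = 0 := by
  rw [cls_two]
  have hs : ∀ (i : Fin 2) (τ : Fin 2 → R), (∀ j, pu Dg (τ j) = Dg.s (cl j)) →
      D.LL (q i) (Ac D b n (sg Dg σ) c) ≠ 0 →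
      ∑ x ∈ clR Dg (cl i), VF Dg Fr b E ε n σ ψ (Function.update τ i x) φ q = 0 := by
    intro i τ hτ hi
    exact lbs_s hp hζ Fr Dg b E ε n σ ψ hB (fun j => Dg.s (cl j)) τ hτ φ hφ1 hφ2 c hc q hq
      i hi (Dg.q (Dg.g (cl i))) rfl (clR Dg (cl i)) (fun x => mem_clR Dg (cl i) x)
  rcases (show i = 0 ∨ i = 1 by omega) with h | h
  · subst h
    rw [Finset.sum_comm]
    refine Finset.sum_eq_zero fun y hy => ?_
    have h1 := hs 0 ![Dg.q (Dg.g (cl 0)), y] (by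
      intro j
      fin_cases j
      · rfl
      · exact clr_pu Dg hy) hi
    rw [← h1]
    refine Finset.sum_congr rfl fun x _ => ?_
    congr 1
    funext j
    fin_cases j <;> rfl
  · subst h
    refine Finset.sum_eq_zero fun x hx => ?_
    have h1 := hs 1 ![x, Dg.q (Dg.g (cl 1))] (by
      intro j
      fin_cases j
      · exact clr_pu Dg hx
      · rfl) hi
    rw [← h1]
    refine Finset.sum_congr rfl fun y _ => ?_
    congr 1
    funext j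
    fin_cases j <;> rfl

private theorem cls_sig [NeZero p] [Finite R] (hp : p.Prime) (hp2 : MOne p K)
    (hζ : IsPrimitiveRoot ζ p) (hz : Z2 p K) (D : RD K p ζ) (L : LDs D.toRD0 Ω) (Fr : FR L)
    (Dg : GP p m l w N P R) {J : Type} [Fintype J] {c C₁ : ℝ} {n₁ : ℕ} (hC₁ : 0 ≤ C₁)
    (hbox : ClsBox Fr c C₁ n₁) {E : Finset (Pl K)} {b : Fin m → Kˣ} (hb : BS2 D.toRD0 b E)
    (ε : Pl K → Gal(Ω/K) → R) (T : TY N w p J) (u : J → Pl K → ZMod p)
    (lam : J → J → ZMod p) (τ : Fin 2 → J)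
    (hk : ∀ a, dt (T.psi a) (Dg.β (Dg.kV (Dg.s (T.cls (τ 1))) (Dg.s (T.cls (τ 0))))
        (Dg.s (T.cls a))) = 0)
    {g : J → Finset (Pl K)} {Tt : ℝ} {Z : Fin 2 → ℝ} {Q : Fin 2 → Finset (Pl K)}
    (hB : BxH D.toRD0 E g Tt Z Q)
    (hnp : ¬ IsPow p (Ac D.toRD0 b (un g) (sv Dg T g) (cta Dg T τ)))
    (hnr : nr (((un g).filter fun v => ∑ k, cta Dg T τ k * sv Dg T g v k ≠ 0) ∪ E) ≤ Z 1)
    (h01 : Z 0 ≤ Z 1)
    (cc : Fin 2 → (Fin D.r → ZMod p) × (↥(un g ∪ E) → ZMod p) × (Fin m → ZMod p))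
    {σ : Pl K → R} (hσ : σ ∈ LB (clv Dg T g) (un g)) :
    ‖∑ x ∈ Fintype.piFinset (fun i => clR Dg (T.cls (τ i))),
      ∑ q ∈ Fintype.piFinset (fun i => (Q i).filter fun x => cfn D.toRD0 Dg T b E g x = cc i),
          VF Dg Fr b E ε (un g) σ (psv T g) x (fun i => T.psi (τ i)) q *
            ep p (∑ i, ff1 D.toRD0 u lam g (τ i) (q i) +
              ∑ i, ∑ j, (if i = j then 0 else lam (τ i) (τ j) * D.LL (q i) (D.pi (q j))))‖ ≤
      (Nat.card R : ℝ) ^ 2 * (C₁ * (Z 0 * Z 1) * Tt ^ (-c) * (1 + Real.log (Z 1)) ^ n₁) := by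
  have hgn : ∀ v ∈ un g, D.Gd v ∧ v ∉ E := by
    intro v hv
    obtain ⟨a, ha⟩ := cls_un.1 hv
    exact hB.gd a v ha
  have hBse : Bse D.toRD0 b E (un g) := ⟨hgn, hb⟩
  have hcell : ∀ i, Cell D.toRD0 Dg b E (un g) σ
      ((Q i).filter fun x => cfn D.toRD0 Dg T b E g x = cc i) := fun i =>
    cfn_cell D.toRD0 Dg T b E hB.dj hσ (Q i) (fun v hv => by
      obtain ⟨h1, -, -, h2, h3⟩ := hB.qd i v hv
      exact ⟨h1, h2, h3⟩) (cc i)
  have hTt : 0 < Tt := by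
    have := hB.t2
    linarith
  have hZ0 : 0 < Z 0 := lt_of_lt_of_le hTt (hB.tz 0)
  have hZ1 : 0 < Z 1 := lt_of_lt_of_le hTt (hB.tz 1)
  have hl1 : 0 ≤ Real.log (Z 1) := Real.log_nonneg (by
    have h1 := hB.t2
    have h2 := hB.tz 1
    linarith)
  have hrhs : 0 ≤ C₁ * (Z 0 * Z 1) * Tt ^ (-c) * (1 + Real.log (Z 1)) ^ n₁ := by positivity
  have hpus : ∀ x ∈ Fintype.piFinset (fun i => clR Dg (T.cls (τ i))), ∀ i,
      pu Dg (x i) = Dg.s (T.cls (τ i)) := by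
    intro x hx i
    exact clr_pu Dg (Fintype.mem_piFinset.1 hx i)
  have hAA : Ac D.toRD0 b (un g) (sv Dg T g) (cta Dg T τ) =
      Ac D.toRD0 b (un g) (sg Dg σ) (cta Dg T τ) := by
    unfold Ac
    refine Finset.prod_congr rfl fun k _ => ?_
    rw [ak_congr D.toRD0 b (un g) (fun v hv => sg_LB Dg T hB.dj hσ hv) k]
  rw [hAA] at hnp
  have hφ1 : ∀ v ∈ un g, dt (psv T g v)
      (Dg.β (Dg.kV (Dg.s (T.cls (τ 1))) (Dg.s (T.cls (τ 0)))) (sg Dg σ v)) = 0 := by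
    intro v hv
    obtain ⟨a, ha⟩ := cls_un.1 hv
    rw [sg_LB Dg T hB.dj hσ hv, sv_eq Dg T hB.dj ha, psv_eq T hB.dj ha]
    exact hk a
  have hord : ∀ v, v ∉ D.S0 → v ∉ E → ((ord v (Ac D.toRD0 b (un g) (sg Dg σ)
      (cta Dg T τ)) : ℤ) : ZMod p) =
      if v ∈ un g then ∑ k, cta Dg T τ k * sv Dg T g v k else 0 := by
    intro v hv hvE
    rw [ac_ord]
    by_cases hvn : v ∈ un g
    · rw [if_pos hvn]
      refine Finset.sum_congr rfl fun k _ => ?_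
      rw [ak_ord D.toRD0 hBse _ k v hv hvE, if_pos hvn, sg_LB Dg T hB.dj hσ hvn]
    · rw [if_neg hvn]
      refine Finset.sum_eq_zero fun k _ => ?_
      rw [ak_ord D.toRD0 hBse _ k v hv hvE, if_neg hvn, mul_zero]
  have hcf : ∀ i, ∀ x ∈ (Q i).filter (fun x => cfn D.toRD0 Dg T b E g x = cc i),
      ∀ x' ∈ (Q i).filter (fun x => cfn D.toRD0 Dg T b E g x = cc i),
      D.LL x (Ac D.toRD0 b (un g) (sg Dg σ) (cta Dg T τ)) =
        D.LL x' (Ac D.toRD0 b (un g) (sg Dg σ) (cta Dg T τ)) := by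
    intro i x hx x' hx'
    rw [ac_LL hp hζ D.toRD0 b (un g) _ _ ((hcell i).gd x hx).1.1,
      ac_LL hp hζ D.toRD0 b (un g) _ _ ((hcell i).gd x' hx').1.1]
    refine Finset.sum_congr rfl fun k _ => ?_
    rw [(hcell i).la k x hx x' hx']
  by_cases hz0 : ∃ i, ∃ x ∈ (Q i).filter (fun x => cfn D.toRD0 Dg T b E g x = cc i),
      D.LL x (Ac D.toRD0 b (un g) (sg Dg σ) (cta Dg T τ)) ≠ 0
  · obtain ⟨i, x₀, hx₀, hx₀'⟩ := hz0
    rw [Finset.sum_comm, Finset.sum_eq_zero, norm_zero]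
    · positivity
    · intro q hq
      rw [← Finset.sum_mul]
      rw [Fintype.mem_piFinset] at hq
      rw [cls_lab hp hζ Fr Dg b E ε (un g) σ (psv T g) hBse (fun i => T.cls (τ i))
        (fun i => T.psi (τ i)) hφ1 (fun i => hk (τ i)) (cta Dg T τ) rfl q
        (fun i => ⟨((hcell i).gd _ (hq i)).1, ((hcell i).gd _ (hq i)).2.1⟩) i
        (by rw [hcf i _ (hq i) x₀ hx₀]; exact hx₀'), zero_mul]
  push Not at hz0
  refine (norm_sum_le _ _).trans ?_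
  have hone : ∀ x ∈ Fintype.piFinset (fun i => clR Dg (T.cls (τ i))),
      ‖∑ q ∈ Fintype.piFinset (fun i => (Q i).filter fun x => cfn D.toRD0 Dg T b E g x = cc i),
          VF Dg Fr b E ε (un g) σ (psv T g) x (fun i => T.psi (τ i)) q *
            ep p (∑ i, ff1 D.toRD0 u lam g (τ i) (q i) +
              ∑ i, ∑ j, (if i = j then 0 else lam (τ i) (τ j) * D.LL (q i) (D.pi (q j))))‖ ≤
      C₁ * (Z 0 * Z 1) * Tt ^ (-c) * (1 + Real.log (Z 1)) ^ n₁ := by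
    intro x hx
    rw [cls_two]
    have hC2 := c2s hp hp2 hζ hz D Fr Dg b E ε (un g) σ (psv T g) hBse x
      (fun i => clr_pow Dg (Fintype.mem_piFinset.1 hx i)) (fun i => T.psi (τ i))
      (fun i => (Q i).filter fun x => cfn D.toRD0 Dg T b E g x = cc i) hcell
      (fun v hv => by rw [hpus x hx 1, hpus x hx 0]; exact hφ1 v hv)
      (fun i => by rw [hpus x hx 1, hpus x hx 0, hpus x hx i]; exact hk (τ i))
      (cta Dg T τ) (by rw [hpus x hx 1, hpus x hx 0]; rfl) (fun i v hv => hz0 i v hv)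
    have hG := c2_tw hp D.toRD0 Fr 1 _ _ _ _ hC2 (ff1 D.toRD0 u lam g (τ 0))
      (ff1 D.toRD0 u lam g (τ 1)) (fun a b' => lam (τ 0) (τ 1) * D.LL a (D.pi b') +
        lam (τ 1) (τ 0) * D.LL b' (D.pi a)) (by
      intro a ha a' ha' b₁ hb₁ b₁' hb₁' hab hab' heq
      have g1 := ((hcell 0).gd a ha).1
      have g2 := ((hcell 0).gd a' ha').1
      have g3 := ((hcell 1).gd b₁ hb₁).1
      have g4 := ((hcell 1).gd b₁' hb₁').1
      have r1 := D.rec2 a b₁ g1 g3 hab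
      have r2 := D.rec2 a' b₁' g2 g4 hab'
      have q1 := (hcell 0).cls a ha a' ha'
      have q2 := (hcell 1).cls b₁ hb₁ b₁' hb₁'
      rw [← q1, ← q2, ← r1] at r2
      have r3 : D.LL a' (D.pi b₁') = D.LL a (D.pi b₁) := by
        rw [heq] at r2
        exact sub_left_inj.1 r2
      show lam (τ 0) (τ 1) * D.LL a' (D.pi b₁') + lam (τ 1) (τ 0) * D.LL b₁' (D.pi a') = _
      rw [r3, heq])
    have hbd := hbox Tt (Z 0) (Z 1) hB.t2 (hB.tz 0) h01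
      (Ac D.toRD0 b (un g) (sg Dg σ) (cta Dg T τ))
      (((un g).filter fun v => ∑ k, cta Dg T τ k * sv Dg T g v k ≠ 0) ∪ E) hnp
      (fun v hv => by
        rcases Finset.mem_union.1 hv with h | h
        · exact (hgn v (Finset.mem_filter.1 h).1).1.1
        · exact hb.1 v h)
      (fun v hv hvS => by
        rw [Finset.mem_union, not_or] at hvS
        rw [hord v hv hvS.2]
        by_cases hvn : v ∈ un g
        · rw [if_pos hvn]
          by_contra hcon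
          exact hvS.1 (Finset.mem_filter.2 ⟨hvn, hcon⟩)
        · rw [if_neg hvn]) hnr
      ((Q 0).filter fun x => cfn D.toRD0 Dg T b E g x = cc 0)
      ((Q 1).filter fun x => cfn D.toRD0 Dg T b E g x = cc 1)
      (fun v hv => ⟨((hcell 0).gd v hv).1,
        fun h => (Finset.mem_union.1 h).elim
          (fun h => ((hcell 0).gd v hv).2.2 (Finset.mem_filter.1 h).1)
          (fun h => ((hcell 0).gd v hv).2.1 h), hz0 0 v hv,
        (hB.qd 0 v (Finset.mem_filter.1 hv).1).2.1, (hB.qd 0 v (Finset.mem_filter.1 hv).1).2.2.1⟩)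
      (fun v hv => ⟨((hcell 1).gd v hv).1,
        fun h => (Finset.mem_union.1 h).elim
          (fun h => ((hcell 1).gd v hv).2.2 (Finset.mem_filter.1 h).1)
          (fun h => ((hcell 1).gd v hv).2.1 h), hz0 1 v hv,
        (hB.qd 1 v (Finset.mem_filter.1 hv).1).2.1, (hB.qd 1 v (Finset.mem_filter.1 hv).1).2.2.1⟩)
      (fun v hv v' hv' => ⟨(hcell 0).cls v hv v' hv',
        fun u' hu' => (Finset.mem_union.1 hu').elim
          (fun h => (hcell 0).ln u' (Finset.mem_filter.1 h).1 v hv v' hv')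
          (fun h => (hcell 0).lE u' h v hv v' hv')⟩)
      (fun v hv v' hv' => ⟨(hcell 1).cls v hv v' hv',
        fun u' hu' => (Finset.mem_union.1 hu').elim
          (fun h => (hcell 1).ln u' (Finset.mem_filter.1 h).1 v hv v' hv')
          (fun h => (hcell 1).lE u' h v hv v' hv')⟩)
      1 (by
        have : Fact p.Prime := ⟨hp⟩
        exact one_ne_zero) _ (fun a b' => by
        rw [norm_mul, ep_norm, mul_one]
        rcases vf_norm Fr Dg b E ε (un g) σ (psv T g) x (fun i => T.psi (τ i)) ![a, b'] with h | h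
        · rw [h, norm_zero]
          exact zero_le_one
        · exact h.le) hG
    refine le_trans (le_of_eq ?_) hbd
    congr 1
    refine Finset.sum_congr rfl fun a _ => Finset.sum_congr rfl fun b' _ => ?_
    congr 2
    simp only [Fin.sum_univ_two, Matrix.cons_val_zero, Matrix.cons_val_one]
    rw [if_pos trivial, if_pos trivial, if_neg (by decide : ¬ (0 : Fin 2) = 1),
      if_neg (by decide : ¬ (1 : Fin 2) = 0)]
    ring
  refine (Finset.sum_le_sum hone).trans ?_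
  rw [Finset.sum_const, nsmul_eq_mul]
  have hR : Fintype R := Fintype.ofFinite R
  refine mul_le_mul_of_nonneg_right ?_ hrhs
  rw [Nat.card_eq_fintype_card]
  exact cls_card _

private theorem cls_real {P h R' C₁ X V V' : ℝ} (k a e : ℕ) (hP : 1 ≤ P) (hh : 0 ≤ h)
    (hR : 0 ≤ R') (hC₁ : 1 ≤ C₁) (hX0 : 0 ≤ X) (hX : X ≤ P ^ (k + a + e)) (hV : 0 ≤ V)
    (hVV : V ≤ V') :
    X ^ 2 * (h * (R' ^ a * (R' ^ 2 * (C₁ * V)))) ≤
      (P ^ (2 * k + 2) * (1 + h) * (1 + R') ^ 3 * C₁) ^ (1 + a + e) * V' := by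
  have hP0 : 0 ≤ P := by linarith
  have hC0 : 0 ≤ C₁ := by linarith
  obtain ⟨C, hC⟩ : ∃ C, C = P ^ (2 * k + 2) * (1 + h) * (1 + R') ^ 3 * C₁ := ⟨_, rfl⟩
  rw [← hC]
  have i1 : P ^ (2 * k) ≤ P ^ (2 * k + 2) := pow_le_pow_right₀ hP (by omega)
  have i2 : P ^ 2 ≤ P ^ (2 * k + 2) := pow_le_pow_right₀ hP (by omega)
  have i3 : R' ^ 2 ≤ (1 + R') ^ 3 := by nlinarith [pow_nonneg hR 3]
  have i4 : R' ≤ (1 + R') ^ 3 := by nlinarith [pow_nonneg hR 3, sq_nonneg R']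
  have i5 : (1 : ℝ) ≤ (1 + R') ^ 3 := one_le_pow₀ (by linarith)
  have i6 : (1 : ℝ) ≤ 1 + h := by linarith
  have h1 : P ^ (2 * k) * h * R' ^ 2 * C₁ ≤ C := by
    rw [hC]
    gcongr
    linarith
  have h2 : P ^ 2 * R' ≤ C := by
    calc P ^ 2 * R' = P ^ 2 * 1 * R' * 1 := by ring
      _ ≤ C := by
        rw [hC]
        gcongr
  have h3 : P ^ 2 ≤ C := by
    calc P ^ 2 = P ^ 2 * 1 * 1 * 1 := by ring
      _ ≤ C := by
        rw [hC]
        gcongr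
  have hC0' : 0 ≤ C := le_trans (by positivity) h3
  have hX2 : X ^ 2 ≤ P ^ (2 * k) * (P ^ 2) ^ a * (P ^ 2) ^ e := by
    calc X ^ 2 ≤ (P ^ (k + a + e)) ^ 2 := pow_le_pow_left₀ hX0 hX 2
      _ = P ^ (2 * k) * (P ^ 2) ^ a * (P ^ 2) ^ e := by
        rw [← pow_mul, ← pow_mul, ← pow_mul, ← pow_add, ← pow_add]
        congr 1
        ring
  calc X ^ 2 * (h * (R' ^ a * (R' ^ 2 * (C₁ * V))))
      ≤ (P ^ (2 * k) * (P ^ 2) ^ a * (P ^ 2) ^ e) * (h * (R' ^ a * (R' ^ 2 * (C₁ * V)))) :=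
        mul_le_mul_of_nonneg_right hX2 (by positivity)
    _ = (P ^ (2 * k) * h * R' ^ 2 * C₁) * (P ^ 2 * R') ^ a * (P ^ 2) ^ e * V := by
        rw [mul_pow]
        ring
    _ ≤ C * C ^ a * C ^ e * V' := by
        gcongr
    _ = C ^ (1 + a + e) * V' := by
        rw [pow_add, pow_add, pow_one]

private theorem cls_neg (θ x : Fin w → ZMod p) : dt θ (-x) = -dt θ x := by
  simp only [dt, Pi.neg_apply, mul_neg, Finset.sum_neg_distrib]

private theorem cls_pow [NeZero p] (D : RD0 K p ζ) (b : Fin m → Kˣ) (n : Finset (Pl K))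
    (s : Pl K → Fin m → ZMod p) (c : Fin m → ZMod p) (h : IsPow p (Ac D b n s (-c))) :
    IsPow p (Ac D b n s c) := by
  obtain ⟨y, hy⟩ := h
  have h1 : ∀ k, ∃ z : Kˣ, z ^ p = ak D b n s k ^ (c k).val * ak D b n s k ^ ((-c) k).val := by
    intro k
    have h2 : (p : ℕ) ∣ (c k).val + ((-c) k).val := by
      rw [← CharP.cast_eq_zero_iff (ZMod p) p, Nat.cast_add, ZMod.natCast_zmod_val,
        ZMod.natCast_zmod_val, Pi.neg_apply, add_neg_cancel]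
    obtain ⟨d, hd⟩ := h2
    refine ⟨ak D b n s k ^ d, ?_⟩
    rw [← pow_add, hd, ← pow_mul, mul_comm]
  choose z hz using h1
  refine ⟨(∏ k, z k) * y⁻¹, ?_⟩
  rw [mul_pow, inv_pow, hy, ← Finset.prod_pow, Finset.prod_congr rfl (fun k _ => hz k),
    Finset.prod_mul_distrib]
  unfold Ac
  exact mul_inv_cancel_right _ _

theorem bxs2so [NeZero p] [Finite R] (hp : p.Prime) (hp2 : MOne p K) (hζ : IsPrimitiveRoot ζ p)
    (hz : Z2 p K) (D : RD K p ζ) (L : LDs D.toRD0 Ω) (Fr : FR L) (Dg : GP p m l w N P R)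
    (J : Type) [Fintype J] :
    ∃ (c C : ℝ) (k : ℕ), 0 < c ∧ 1 ≤ C ∧ ∀ (E : Finset (Pl K)) (b : Fin m → Kˣ),
      BS2 D.toRD0 b E → ∀ (ε : Pl K → Gal(Ω/K) → R) (T : TY N w p J) (u : J → Pl K → ZMod p)
      (lam : J → J → ZMod p) (τ : Fin 2 → J),
      (∀ a, dt (T.psi a) (Dg.β (Dg.kV (Dg.s (T.cls (τ 1))) (Dg.s (T.cls (τ 0))))
        (Dg.s (T.cls a))) = 0) →
      ∀ (g : J → Finset (Pl K)) (Tt : ℝ) (Z : Fin 2 → ℝ) (Q : Fin 2 → Finset (Pl K)),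
      BxH D.toRD0 E g Tt Z Q →
      ¬ IsPow p (Ac D.toRD0 b (un g) (sv Dg T g) (cta Dg T τ)) →
      (∀ i, nr (((un g).filter fun v => ∑ k, cta Dg T τ k * sv Dg T g v k ≠ 0) ∪ E) ≤ Z i) →
      Z 0 ≤ Z 1 →
      ‖∑ q ∈ Fintype.piFinset Q, (if Function.Injective q then
        PF Dg Fr T b E ε (addr g τ q) * ep p (UU D.toRD0 u lam (addr g τ q)) else 0)‖ ≤
        C ^ (1 + (un g).card + E.card) * (∏ i, Z i) * Tt ^ (-c) * (1 + ∑ i, Real.log (Z i)) ^ k := by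
  obtain ⟨c, C₁, n₁, hc, hC₁, hbox⟩ := box2 hp hp2 hζ D L Fr
  have hp1 : (1 : ℝ) ≤ p := by exact_mod_cast hp.one_lt.le
  have hh0 : (0 : ℝ) ≤ (Nat.card (H1 L Dg) : ℝ) := Nat.cast_nonneg _
  have hR0 : (0 : ℝ) ≤ (Nat.card R : ℝ) := Nat.cast_nonneg _
  refine ⟨c, (p : ℝ) ^ (2 * (D.r + m) + 2) * (1 + (Nat.card (H1 L Dg) : ℝ)) *
    (1 + (Nat.card R : ℝ)) ^ 3 * C₁, n₁, hc, ?_, ?_⟩
  · refine one_le_mul_of_one_le_of_one_le (one_le_mul_of_one_le_of_one_le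
      (one_le_mul_of_one_le_of_one_le (one_le_pow₀ hp1) (by linarith))
      (one_le_pow₀ (by linarith))) hC₁
  intro E b hb ε T u lam τ hk g Tt Z Q hB hnp hnr h01
  have hTt : 0 < Tt := by
    have := hB.t2
    linarith
  have hZ0 : 0 < Z 0 := lt_of_lt_of_le hTt (hB.tz 0)
  have hZ1 : 0 < Z 1 := lt_of_lt_of_le hTt (hB.tz 1)
  have hl0 : 0 ≤ Real.log (Z 0) := Real.log_nonneg (by
    have h1 := hB.t2
    have h2 := hB.tz 0
    linarith)
  have hl1 : 0 ≤ Real.log (Z 1) := Real.log_nonneg (by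
    have h1 := hB.t2
    have h2 := hB.tz 1
    linarith)
  obtain ⟨V, hV⟩ : ∃ V, V = (Z 0 * Z 1) * Tt ^ (-c) * (1 + Real.log (Z 1)) ^ n₁ := ⟨_, rfl⟩
  have hV0 : 0 ≤ V := by
    rw [hV]
    positivity
  have hVV : V ≤ (∏ i, Z i) * Tt ^ (-c) * (1 + ∑ i, Real.log (Z i)) ^ n₁ := by
    rw [hV, Fin.prod_univ_two, Fin.sum_univ_two]
    refine mul_le_mul_of_nonneg_left (pow_le_pow_left₀ (by linarith) (by linarith) _)
      (by positivity)
  have hcs := cells_sum Q (cfn D.toRD0 Dg T b E g) (fun q => if Function.Injective q then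
      PF Dg Fr T b E ε (addr g τ q) * ep p (UU D.toRD0 u lam (addr g τ q)) else 0)
    ((Nat.card (H1 L Dg) : ℝ) * ((Nat.card R : ℝ) ^ (un g).card *
      ((Nat.card R : ℝ) ^ 2 * (C₁ * V)))) (fun cc => by
    have hpc := pf_cells hp hζ D Fr Dg T b E hb.1 ε u lam hB.dj hB.gd τ
      (fun i => (Q i).filter fun x => cfn D.toRD0 Dg T b E g x = cc i) (fun i v hv => by
        obtain ⟨h1, -, -, h2, h3⟩ := hB.qd i v (Finset.mem_filter.1 hv).1
        exact ⟨h1, h2, h3⟩)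
    refine le_trans (le_of_eq (congrArg norm (Eq.trans ?_ hpc))) ?_
    · congr!
    rw [norm_mul, norm_mul, ep_norm, mul_one, Complex.norm_natCast]
    refine mul_le_mul_of_nonneg_left ?_ hh0
    refine (norm_sum_le _ _).trans ?_
    refine (Finset.sum_le_sum fun σ hσ => cls_sig hp hp2 hζ hz D L Fr Dg (by linarith) hbox hb ε T
      u lam τ hk hB hnp (hnr 1) h01 cc hσ).trans ?_
    rw [Finset.sum_const, nsmul_eq_mul]
    have hcard : ((LB (clv Dg T g) (un g)).card : ℝ) ≤ (Nat.card R : ℝ) ^ (un g).card := by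
      have hR : Fintype R := Fintype.ofFinite R
      have h1 := card_LB (clv Dg T g) (un g) (Nat.card R) (fun v _ => by
        rw [Nat.card_eq_fintype_card]
        exact Finset.card_le_univ _)
      exact_mod_cast h1
    have heq : C₁ * (Z 0 * Z 1) * Tt ^ (-c) * (1 + Real.log (Z 1)) ^ n₁ = C₁ * V := by
      rw [hV]
      ring
    rw [heq]
    exact mul_le_mul_of_nonneg_right hcard (by positivity))
  refine hcs.trans ?_
  have hreal := cls_real (D.r + m) (un g).card E.card hp1 hh0 hR0 hC₁ (Nat.cast_nonneg _)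
    (cfn_card D.toRD0 E g) hV0 hVV
  refine hreal.trans (le_of_eq ?_)
  ring

theorem bxs2s [NeZero p] [Finite R] (hp : p.Prime) (hp2 : MOne p K) (hζ : IsPrimitiveRoot ζ p)
    (hz : Z2 p K) (D : RD K p ζ) (L : LDs D.toRD0 Ω) (Fr : FR L) (Dg : GP p m l w N P R)
    (J : Type) [Fintype J] :
    ∃ (c C : ℝ) (k : ℕ), 0 < c ∧ 1 ≤ C ∧ ∀ (E : Finset (Pl K)) (b : Fin m → Kˣ),
      BS2 D.toRD0 b E → ∀ (ε : Pl K → Gal(Ω/K) → R) (T : TY N w p J) (u : J → Pl K → ZMod p)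
      (lam : J → J → ZMod p) (τ : Fin 2 → J),
      (∀ a, dt (T.psi a) (Dg.β (Dg.kV (Dg.s (T.cls (τ 1))) (Dg.s (T.cls (τ 0))))
        (Dg.s (T.cls a))) = 0) →
      ∀ (g : J → Finset (Pl K)) (Tt : ℝ) (Z : Fin 2 → ℝ) (Q : Fin 2 → Finset (Pl K)),
      BxH D.toRD0 E g Tt Z Q →
      ¬ IsPow p (Ac D.toRD0 b (un g) (sv Dg T g) (cta Dg T τ)) →
      (∀ i, nr (((un g).filter fun v => ∑ k, cta Dg T τ k * sv Dg T g v k ≠ 0) ∪ E) ≤ Z i) →
      ‖∑ q ∈ Fintype.piFinset Q, (if Function.Injective q then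
        PF Dg Fr T b E ε (addr g τ q) * ep p (UU D.toRD0 u lam (addr g τ q)) else 0)‖ ≤
        C ^ (1 + (un g).card + E.card) * (∏ i, Z i) * Tt ^ (-c) * (1 + ∑ i, Real.log (Z i)) ^ k := by
  obtain ⟨c, C, k, hc, hC, h⟩ := bxs2so hp hp2 hζ hz D L Fr Dg J
  refine ⟨c, C, k, hc, hC, ?_⟩
  intro E b hb ε T u lam τ hk g Tt Z Q hB hnp hnr
  rcases le_or_gt (Z 0) (Z 1) with h01 | h01
  · exact h E b hb ε T u lam τ hk g Tt Z Q hB hnp hnr h01
  obtain ⟨e, he⟩ : ∃ e : Equiv.Perm (Fin 2), e = Equiv.swap 0 1 := ⟨_, rfl⟩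
  have e0 : e 0 = 1 := by rw [he, Equiv.swap_apply_left]
  have e1 : e 1 = 0 := by rw [he, Equiv.swap_apply_right]
  have hct : cta Dg T (τ ∘ e) = -cta Dg T τ := by
    unfold cta
    simp only [Function.comp_apply, e0, e1]
    rw [neg_sub]
  have hB' : BxH D.toRD0 E g Tt (Z ∘ e) (Q ∘ e) :=
    ⟨hB.dj, hB.gd, hB.t2, fun i => hB.tz (e i), fun i => hB.qd (e i)⟩
  have h1 := h E b hb ε T u lam (τ ∘ e) (fun a => by
      simp only [Function.comp_apply, e0, e1]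
      rw [kV_swap, map_neg, LinearMap.neg_apply, cls_neg, hk a, neg_zero]) g Tt (Z ∘ e) (Q ∘ e) hB' (by
    rw [hct]
    exact fun hpow => hnp (cls_pow D.toRD0 b (un g) (sv Dg T g) (cta Dg T τ) hpow)) (by
    intro i
    rw [hct]
    simp only [Pi.neg_apply, neg_mul, Finset.sum_neg_distrib, ne_eq, neg_eq_zero]
    exact hnr (e i)) (by
    simp only [Function.comp_apply, e0, e1]
    exact h01.le)
  rw [pi_perm Q e] at h1
  have h2 : ∏ i, (Z ∘ e) i = ∏ i, Z i := Equiv.prod_comp e Z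
  have h3 : ∑ i, Real.log ((Z ∘ e) i) = ∑ i, Real.log (Z i) :=
    Equiv.sum_comp e fun i => Real.log (Z i)
  rw [h2, h3] at h1
  refine le_trans (le_of_eq ?_) h1
  congr 1
  refine Finset.sum_congr rfl fun q _ => ?_
  rw [addr_perm]
  by_cases hq : Function.Injective q
  · rw [if_pos hq, if_pos (hq.comp e.injective)]
  · rw [if_neg hq, if_neg fun hc => hq ?_]
    intro x y hxy
    have h4 : (q ∘ e) (e.symm x) = (q ∘ e) (e.symm y) := by
      simp only [Function.comp_apply, Equiv.apply_symm_apply]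
      exact hxy
    exact e.symm.injective (hc h4)

end H51.CUB
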