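import Pool.Agent.H51.CUB.RLin
import Pool.Agent.H63.MA.GKus
import Pool.Agent.H63.MA.KumF

/-!
[H51 CUB DIA]  The field `M = K(c^{1/p})` inside `Ω` (80-120 lines). PROOF.

`KF p ζ c M`: `M` is generated by a root of `c`; its fixing subgroup is the kernel of `kk c`. `kf_ex`: `w ^ p = c` in `Ω` (`gkum_root`), `M = K⟮w⟯`; `σ ∈ M.fixingSubgroup` iff
`σ w = w` iff `kk c σ = 0` (`kk_root`, `ζ^j w = w` iff `j = 0`). Degree `p`: the minimal polynomial of `w` divides `X^p - c`, which is irreducible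
(`X_pow_sub_C_irreducible_of_prime`, as `c` is not a `p`-th power in `K`; see `H63/MA/KumA`, `H63/MA/GKum*` for existing constructions of `Kum`, grep `Kum p K`).
`kum`: `γ = w`, `σ` an automorphism with `σ w = ζ w` (extend: `kk c` is surjective because it is not zero, `kk_eq_zero_iff`; restrict an element `g` with `kk c g = 1` to the normal field
`M`). `kf_kum` (Kummer theory over `M`): for `Y` with `Rho L d c Y`, the restriction of `Y` to `U = M.fixingSubgroup` is additive (`kk c h = 0`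
there) and of finite level, so `kum_sub hp hζ U χ E` (`H63/MA/GKus`) gives `B ∈ Ω`, `B ≠ 0`, with `u B = ζ ^ (Y u) B` for `u ∈ U`; `B ^ p` is fixed by `U`, so it is in `M` (Galois
correspondence, `IntermediateField.fixedField_fixingSubgroup`), `γ = B ^ p`; then `kk p ζ γ τ = Y (τ|K)` for `τ ∈ Gal(Ω/M)` by `kk_of_root` over `M`
(`τ.restrictScalars K ∈ U`).
-/

set_option autoImplicit false

open scoped NumberField
open IsDedekindDomain
open scoped Classical

noncomputable section

namespace H51.CUB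

open H63.MA H38.BB H38.BG H57.PC

variable {K : Type} [Field K] [NumberField K] {p : ℕ} {ζ : K} {Ω : Type} [Field Ω] [Algebra K Ω]
  [IsAlgClosure K Ω]

private theorem dia_ac (M : IntermediateField K Ω) : IsAlgClosure M Ω :=
  ⟨IsAlgClosure.isAlgClosed K, Algebra.IsAlgebraic.tower_top (K := K) M⟩

/-- `M` is the field `K(c^{1/p})` -/
structure KF (p : ℕ) (ζ : K) (c : Kˣ) (M : IntermediateField K Ω) : Prop where
  deg : Module.finrank K M = p
  fix : ∀ σ : Gal(Ω/K), σ ∈ M.fixingSubgroup ↔ kk p ζ c σ = 0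

theorem kf_ex (Ω : Type) [Field Ω] [Algebra K Ω] [IsAlgClosure K Ω] (hp : p.Prime)
    (hζ : IsPrimitiveRoot ζ p) (c : Kˣ) (hc : ¬ IsPow p c) :
    ∃ (M : IntermediateField K Ω) (_ : FiniteDimensional K M) (_ : NumberField M), Normal K M ∧
      KF p ζ c M ∧ Nonempty (Kum p K ζ c M) := by
  classical
  have hne : NeZero p := ⟨hp.ne_zero⟩
  have hfp : Fact p.Prime := ⟨hp⟩
  have hgal : IsGalois K Ω := IsAlgClosure.isGalois K Ω
  obtain ⟨w, hw⟩ := gkum_root (K := K) (Ω := Ω) hp c
  have hw0 := gkum_ne hp c w hw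
  have hint : IsIntegral K w := (Algebra.IsAlgebraic.isAlgebraic (R := K) w).isIntegral
  have hirr : Irreducible (Polynomial.X ^ p - Polynomial.C (c : K)) := by
    refine X_pow_sub_C_irreducible_of_prime hp fun b hb => ?_
    have hb0 : b ≠ 0 := by
      rintro rfl
      rw [zero_pow hp.ne_zero] at hb
      exact c.ne_zero hb.symm
    exact hc ⟨Units.mk0 b hb0, Units.ext hb⟩
  obtain ⟨M, hMd⟩ : ∃ M : IntermediateField K Ω, M = IntermediateField.adjoin K {w} := ⟨_, rfl⟩
  have hwM : w ∈ M := by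
    rw [hMd]
    exact IntermediateField.mem_adjoin_simple_self K w
  have hfd : FiniteDimensional K M := by
    rw [hMd]
    exact IntermediateField.adjoin.finiteDimensional hint
  have hnf : NumberField M := NumberField.of_module_finite K M
  have hle : ∀ N : IntermediateField K Ω, M ≤ N ↔ w ∈ N := by
    intro N
    rw [hMd, IntermediateField.adjoin_simple_le_iff]
  have hnorm : Normal K M := by
    rw [IntermediateField.normal_iff_forall_map_le']
    intro σ
    rw [hMd, IntermediateField.adjoin_map, Set.image_singleton,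
      IntermediateField.adjoin_simple_le_iff, ← hMd]
    show σ w ∈ M
    rw [kk_root hp hζ c w hw σ]
    refine M.mul_mem ?_ hwM
    exact pow_mem (M.algebraMap_mem ζ) _
  have hdeg : Module.finrank K M = p := by
    rw [hMd, IntermediateField.adjoin.finrank hint,
      ← minpoly.eq_of_irreducible_of_monic hirr (by
        rw [map_sub, map_pow, Polynomial.aeval_X, Polynomial.aeval_C, hw, sub_self])
        (Polynomial.monic_X_pow_sub_C _ hp.ne_zero), Polynomial.natDegree_X_pow_sub_C]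
  have hfix0 : ∀ σ : Gal(Ω/K), kk p ζ c σ = 0 ↔ σ w = w := by
    intro σ
    constructor
    · intro h
      rw [kk_root hp hζ c w hw σ, h, ZMod.val_zero, pow_zero, one_mul]
    · intro h
      have h1 := kk_of_root hp hζ c w hw σ 0 (by rw [zpow_zero, one_mul]; exact h)
      rw [h1, Int.cast_zero]
  have hfix : ∀ σ : Gal(Ω/K), σ ∈ M.fixingSubgroup ↔ kk p ζ c σ = 0 := by
    intro σ
    rw [hfix0]
    constructor
    · intro h
      exact (IntermediateField.mem_fixingSubgroup_iff M σ).1 h w hwM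
    · intro h
      have h1 : M ≤ IntermediateField.fixedField (Subgroup.zpowers σ) := by
        rw [hle, IntermediateField.mem_fixedField_iff]
        intro τ hτ
        have h2 : Subgroup.zpowers σ ≤ MulAction.stabilizer Gal(Ω/K) w := by
          rw [Subgroup.zpowers_le, MulAction.mem_stabilizer_iff]
          exact h
        exact h2 hτ
      rw [IntermediateField.mem_fixingSubgroup_iff]
      intro x hx
      exact (IntermediateField.mem_fixedField_iff _ x).1 (h1 hx) σ (Subgroup.mem_zpowers σ)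
  refine ⟨M, hfd, hnf, hnorm, ⟨hdeg, hfix⟩, ?_⟩
  obtain ⟨g0, hg0⟩ : ∃ g0 : Gal(Ω/K), kk p ζ c g0 ≠ 0 := by
    by_contra hcon
    push Not at hcon
    exact hc ((kk_eq_zero_iff (Ω := Ω) hp hζ c).1 hcon)
  have hpow : ∀ n : ℕ, kk p ζ c (g0 ^ n) = n * kk p ζ c g0 := by
    intro n
    induction n with
    | zero => rw [pow_zero, kk_one, Nat.cast_zero, zero_mul]
    | succ n ih =>
      rw [pow_succ, kk_mul, ih]
      push_cast
      ring
  obtain ⟨g, hg⟩ : ∃ g : Gal(Ω/K), kk p ζ c g = 1 := by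
    refine ⟨g0 ^ ((kk p ζ c g0)⁻¹).val, ?_⟩
    rw [hpow, ZMod.natCast_zmod_val, inv_mul_cancel₀ hg0]
  have hgw : g w = algebraMap K Ω ζ * w := by
    have hF : Fact (1 < p) := ⟨hp.one_lt⟩
    rw [kk_root hp hζ c w hw g, hg, ZMod.val_one, pow_one]
  have hγ0 : (⟨w, hwM⟩ : M) ≠ 0 := fun h => hw0 (congrArg Subtype.val h)
  refine ⟨{ γ := Units.mk0 ⟨w, hwM⟩ hγ0
            σ := g.restrictNormal M
            hγ := Subtype.ext ?_
            hσ := Subtype.ext ?_
            deg := hdeg }⟩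
  · exact hw
  · have h1 := AlgEquiv.restrictNormal_commutes g M ⟨w, hwM⟩
    exact h1.trans hgw

/-- the root of unity in `M` -/
def zM (ζ : K) (M : IntermediateField K Ω) : M := algebraMap K M ζ

theorem zM_prim (hζ : IsPrimitiveRoot ζ p) (M : IntermediateField K Ω) :
    IsPrimitiveRoot (zM ζ M) p := hζ.map_of_injective (algebraMap K M).injective

theorem kf_mem {c : Kˣ} {M : IntermediateField K Ω} (hM : KF p ζ c M) (τ : Gal(Ω/M)) :
    kk p ζ c (τ.restrictScalars K) = 0 := by
  rw [← hM.fix, IntermediateField.mem_fixingSubgroup_iff]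
  intro x hx
  exact τ.commutes ⟨x, hx⟩

/-- every element of the kernel comes from `Gal(Ω/M)` -/
theorem kf_lift {c : Kˣ} {M : IntermediateField K Ω} (hM : KF p ζ c M) (σ : Gal(Ω/K))
    (hσ : kk p ζ c σ = 0) : ∃ τ : Gal(Ω/M), τ.restrictScalars K = σ := by
  have h1 := (hM.fix σ).2 hσ
  refine ⟨IntermediateField.fixingSubgroupEquiv M ⟨σ, h1⟩, ?_⟩
  ext x
  rfl

/-- Kummer characters of elements of `K` -/
theorem kf_inc (hp : p.Prime) (hζ : IsPrimitiveRoot ζ p) (M : IntermediateField K Ω)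
    [FiniteDimensional K M] [NumberField M] (x : Kˣ) (τ : Gal(Ω/M)) :
    kk p (zM ζ M) (inc K M x) τ = kk p ζ x (τ.restrictScalars K) := by
  have hac := dia_ac (K := K) M
  obtain ⟨w, hw⟩ := gkum_root (K := K) (Ω := Ω) hp x
  have h1 := kk_root hp hζ x w hw (τ.restrictScalars K)
  have h2 := kk_of_root hp (zM_prim hζ M) (inc K M x) w (by
    rw [hw]
    rfl) τ ((kk p ζ x (τ.restrictScalars K)).val : ℤ) (by
    rw [zpow_natCast]
    exact h1)
  rw [h2, gkum_val hp]

theorem kf_kum (hp : p.Prime) (hζ : IsPrimitiveRoot ζ p) {D : RD0 K p ζ} {L : LDs D Ω} {d c : Kˣ}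
    {M : IntermediateField K Ω} [FiniteDimensional K M] [NumberField M] (hM : KF p ζ c M)
    {Y : Gal(Ω/K) → ZMod p} (hY : Rho L d c Y) :
    ∃ γ : Mˣ, ∀ τ : Gal(Ω/M), kk p (zM ζ M) γ τ = Y (τ.restrictScalars K) := by
  have hac := dia_ac (K := K) M
  have hgal : IsGalois M Ω := IsAlgClosure.isGalois M Ω
  have hne : NeZero p := ⟨hp.ne_zero⟩
  have hY1 : Y 1 = 0 := rho_map_one hY
  obtain ⟨χ, hχ⟩ : ∃ χ : M.fixingSubgroup →* Multiplicative (ZMod p),
      ∀ u : M.fixingSubgroup, χ u = Multiplicative.ofAdd (Y u) :=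
    ⟨{ toFun := fun u => Multiplicative.ofAdd (Y u)
       map_one' := by
        rw [OneMemClass.coe_one, hY1]
        rfl
       map_mul' := fun u v => by
        rw [Subgroup.coe_mul, hY.add, (hM.fix v).1 v.2, mul_zero, add_zero]
        rfl }, fun u => rfl⟩
  obtain ⟨E, hE, hl⟩ := hY.lev
  have hEf := hE
  obtain ⟨B, hB0, hB⟩ := kum_sub hp hζ M.fixingSubgroup χ E (fun u hu => by
    have h2 := hl 1 u hu
    rw [one_mul, hY1] at h2
    rw [hχ, h2]
    rfl)
  have hBτ : ∀ τ : Gal(Ω/M), τ B =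
      algebraMap K Ω ζ ^ (Y (τ.restrictScalars K)).val * B := by
    intro τ
    have h1 : τ.restrictScalars K ∈ M.fixingSubgroup := (hM.fix _).2 (kf_mem hM τ)
    have h2 := hB ⟨_, h1⟩
    rw [hχ] at h2
    exact h2
  have hz1 : algebraMap K Ω ζ ^ p = 1 := by rw [← map_pow, hζ.pow_eq_one, map_one]
  have hfix : ∀ τ : Gal(Ω/M), τ (B ^ p) = B ^ p := by
    intro τ
    rw [map_pow, hBτ τ, mul_pow, ← pow_mul, mul_comm _ p, pow_mul, hz1, one_pow, one_mul]
  obtain ⟨a, ha⟩ := (InfiniteGalois.mem_range_algebraMap_iff_fixed (B ^ p)).2 hfix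
  have ha0 : a ≠ 0 := by
    rintro rfl
    rw [map_zero] at ha
    exact pow_ne_zero p hB0 ha.symm
  refine ⟨Units.mk0 a ha0, fun τ => ?_⟩
  have h2 := kk_of_root hp (zM_prim hζ M) (Units.mk0 a ha0) B ha.symm τ
    ((Y (τ.restrictScalars K)).val : ℤ) (by
    rw [zpow_natCast]
    exact hBτ τ)
  rw [h2, gkum_val hp]

end H51.CUB
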