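import Pool.Agent.H51.CUB.DIO

/-!
[H51 CUB DIF]  Frobenius elements over `M` (60-100 lines). PROOF.

`P v` for `v ∉ S0`: the prime of `M` below `(L.ld v hv).P` (a `HeightOneSpectrum`; for `v ∈ S0` any prime over `v`). Let `(ord v c : ZMod p) = 0`, `LL v c = 0`. `dio_split` with `g = 1` gives
`nm (P v) = nm v` and `ord (P v) (inc x) = ord v x`. `F = Fr.F v` has `kk c F = LL v c = 0` (`Fr.kf`), so it is the restriction of some `F' : Gal(Ω/M)` (`kf_lift`), and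
`F' x - x ^ nm (P v) ∈ P` for all `x ∈ 𝓞 Ω` (`Fr.fr`, the actions of `F` and `F'` on `𝓞 Ω` agree). Let `(ord (P v) γ : ZMod p) = 0`, say `ord (P v) γ = n`, and `γ' = γ * inc (pi v) ^ (-n)`: `ord (P v) γ' = 0`, so
`kk γ' F' = lg (P v) γ'` by `gfrob_unit` over `M`; `kk (inc (pi v)) F' = kk (pi v) F = LL v (pi v) = 0` (`kf_inc`, `Fr.kf`; `LL v (pi v) = lg v 1 = 0`), so `kk γ F' = kk γ' F'`. Finally
`B (P v) γ (inc (pi v)) = lg (P v) (γ ^ 1 * (inc (pi v) ^ n)⁻¹) = lg (P v) γ'` by definition of `B`.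
-/

set_option autoImplicit false

open scoped NumberField
open IsDedekindDomain
open scoped Classical

noncomputable section

namespace H51.CUB

open H63.MA H38.BB H38.BG H57.PC

variable {K : Type} [Field K] [NumberField K] {p : ℕ} {ζ : K} {Ω : Type} [Field Ω] [Algebra K Ω]
  [IsAlgClosure K Ω]

/-- the prime of `M` below a prime of `𝓞 Ω` -/
theorem dif_below (v : Pl K) (M : IntermediateField K Ω) [FiniteDimensional K M] [NumberField M]
    (P : Ideal (𝓞 Ω)) (hP : P.IsPrime) (hPv : P.under (𝓞 K) = v.asIdeal) :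
    ∃ w : Pl M, Over w v ∧ w.asIdeal = P.under (𝓞 M) := by
  have h1 : (P.under (𝓞 M)).comap (algebraMap (𝓞 K) (𝓞 M)) = v.asIdeal := by
    rw [← hPv]
    ext x
    show algebraMap (𝓞 M) (𝓞 Ω) (algebraMap (𝓞 K) (𝓞 M) x) ∈ P ↔ algebraMap (𝓞 K) (𝓞 Ω) x ∈ P
    have h2 : algebraMap (𝓞 M) (𝓞 Ω) (algebraMap (𝓞 K) (𝓞 M) x) = algebraMap (𝓞 K) (𝓞 Ω) x := by
      apply NumberField.RingOfIntegers.ext
      rfl
    rw [h2]
  refine ⟨⟨P.under (𝓞 M), hP.under _, ?_⟩, h1, rfl⟩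
  intro h0
  apply v.ne_bot
  rw [← h1, h0]
  exact Ideal.comap_bot_of_injective _ (FaithfulSMul.algebraMap_injective _ _)

/-- a choice of primes of `M` -/
theorem dif_choice {D : RD0 K p ζ} (L : LDs D Ω) (M : IntermediateField K Ω)
    [FiniteDimensional K M] [NumberField M] :
    ∃ P : Pl K → Pl M, ∀ v (hv : v ∉ D.S0), Over (P v) v ∧
      (P v).asIdeal = (L.ld v hv).P.under (𝓞 M) := by
  have h : ∀ v : Pl K, ∃ w : Pl M, ∀ hv : v ∉ D.S0, Over w v ∧
      w.asIdeal = (L.ld v hv).P.under (𝓞 M) := by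
    intro v
    by_cases hv : v ∈ D.S0
    · obtain ⟨w, -⟩ := exists_over (K := K) (L := M) v
      exact ⟨w, fun h => absurd hv h⟩
    · obtain ⟨w, hw, hw'⟩ := dif_below v M (L.ld v hv).P (L.ld v hv).prime (L.ld v hv).under
      exact ⟨w, fun _ => ⟨hw, hw'⟩⟩
  choose P hP using h
  exact ⟨P, hP⟩

theorem dif (hp : p.Prime) (hζ : IsPrimitiveRoot ζ p) {D : RD0 K p ζ} (L : LDs D Ω) (Fr : FR L)
    {c : Kˣ} {M : IntermediateField K Ω} [FiniteDimensional K M] [NumberField M] [Normal K M]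
    (hM : KF p ζ c M) (hK : Kum p K ζ c M) :
    ∃ P : Pl K → Pl M, (∀ v, v ∉ D.S0 → Over (P v) v) ∧
      ∀ v, v ∉ D.S0 → ((ord v c : ℤ) : ZMod p) = 0 → D.LL v c = 0 →
        nm (P v) = nm v ∧ (∀ x : Kˣ, ord (P v) (inc K M x) = ord v x) ∧
        ∃ F' : Gal(Ω/M), F'.restrictScalars K = Fr.F v ∧
          ∀ γ : Mˣ, ((ord (P v) γ : ℤ) : ZMod p) = 0 →
            kk p (zM ζ M) γ F' = B p (zM ζ M) (P v) γ (inc K M (D.pi v)) := by
  obtain ⟨P, hP⟩ := dif_choice L M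
  refine ⟨P, fun v hv => (hP v hv).1, fun v hv hc hL => ?_⟩
  obtain ⟨w, t', hw, hnm, hord, -, -, hg⟩ := dio_split hp hζ L hM hK v hv hc hL 1
  have hwP : w = P v := HeightOneSpectrum.ext ((hg rfl).trans (hP v hv).2.symm)
  subst hwP
  refine ⟨hnm, hord, ?_⟩
  obtain ⟨F', hF'⟩ := kf_lift hM (Fr.F v) (by rw [Fr.kf v hv c]; exact hL)
  refine ⟨F', hF', fun γ _ => ?_⟩
  have : IsAlgClosed Ω := IsAlgClosure.isAlgClosed K
  have : Algebra.IsAlgebraic K Ω := IsAlgClosure.isAlgebraic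
  have : Algebra.IsAlgebraic M Ω := Algebra.IsAlgebraic.tower_top (K := K) M
  have : IsAlgClosure M Ω := ⟨inferInstance, inferInstance⟩
  have hzM := zM_prim hζ M
  have hvp : ¬ Above p v := fun h => hv (D.above v h)
  have hwp : ¬ Above p (P v) := fun h => hvp ((above_over hw p).mp h)
  have hfr : ∀ x : 𝓞 Ω, F' • x - x ^ nm (P v) ∈ (L.ld v hv).P := by
    intro x
    have h1 : F' • x = Fr.F v • x := by
      apply NumberField.RingOfIntegers.ext
      show F' (x : Ω) = (Fr.F v) (x : Ω)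
      rw [← hF']
      rfl
    rw [h1, hnm]
    exact Fr.fr v hv x
  have hpi : ord (P v) (inc K M (D.pi v)) = 1 := by rw [hord, D.pi_self v hv]
  set n : ℤ := ord (P v) γ with hn
  have hγ' : ord (P v) (γ * inc K M (D.pi v) ^ (-n)) = 0 := by
    rw [ord_mul, ord_zpow, hpi, ← hn]
    ring
  have h2 := gfrob_unit hp hzM hwp (L.ld v hv).P (L.ld v hv).prime (hP v hv).2.symm F' hfr
    (γ * inc K M (D.pi v) ^ (-n)) hγ'
  have h3 : kk p (zM ζ M) (inc K M (D.pi v)) F' = 0 := by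
    rw [kf_inc hp hζ M (D.pi v) F', hF', Fr.kf v hv]
    unfold RD0.LL
    rw [D.pi_self v hv, zpow_neg, zpow_one, mul_inv_cancel]
    exact lg_one hp hζ hvp
  rw [kk_mul_arg hp hzM, kk_zpow_arg hp hzM, h3, mul_zero, add_zero] at h2
  rw [h2]
  unfold B
  rw [hpi, ← hn, zpow_one, zpow_neg]

end H51.CUB
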