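import Pool.Agent.H51.CUB.DIA
import Pool.Agent.H63.MA.GHeis

/-!
[H51 CUB DIO]  Orders of the Kummer generator at the primes of `M` (100-150 lines). PROOF.

Let `w` be a prime of `M` over `v ∉ S0` (`v`, `w` do not lie above `p`).
`dio_any`: choose a uniformiser `π` at `w` (`exists_unif w`) and `LD p ζ Ω w π` over `M` (`exists_LD Ω hp _ _ hπ`, `IsAlgClosure M Ω` is an instance or
`H63`/`H38` lemma): a prime `P'` of `𝓞 Ω` over `w`, and `t' ∈ P'.inertia Gal(Ω/M)` with `kk γ t' = ord w γ` for all `γ : Mˣ` (`ld_kk_t` over `M`). `P'` lies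
over `v`, so `P' = g • P_v` for some `g : Gal(Ω/K)`, `P_v = (L.ld v hv).P` (transitivity of `Gal(Ω/K)` on the primes of `𝓞 Ω` over `v`: see the proofs of `gloc_over`, `exists_inertia`,
`H38/ML/EmbOrb`, `H63/BU/UInr`, or Mathlib `Ideal.exists_smul_eq_of_isGaloisGroup` / `IsInvariant`), and `τ = g⁻¹ (t'|K) g` is in the inertia group of `P_v`, i.e. in `inr L v`. So
`t'|K = g τ g⁻¹`.
`dio_split`: now `(ord v c : ZMod p) = 0` and `LL v c = 0`, i.e. `Spl p ζ v c` (`b_LL`; `Spl` means `B v c x = 0` for all `x`), so `v` splits completely in `M`: use `above_split` and its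
companions for `Kum p K ζ c M` (`H63/MA/KumB`..`KumF`: `card_over`, `nm w = nm v`, `ord w (inc x) = ord v x`). For `g : Gal(Ω/K)` let `w` be the prime of `M` below `g • P_v`.
Then `inc (pi v)` is a uniformiser at `w`, `(g L.w) ^ p = inc (pi v)`, `τ = L.t v` has `kk c τ = ord v c = 0`, so `g τ g⁻¹ ∈ M.fixingSubgroup` (`kk` is conjugation invariant), it is the
restriction of `t' ∈ (g • P_v).inertia Gal(Ω/M)` and `t' (g w) = g τ w = ζ (g w)`: this is an `LD` over `M` at `w`, and `ld_kk_t` gives the claim. For `g = 1` the prime `w` is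
`Pm v`, the prime below `P_v`.
-/

set_option autoImplicit false

open scoped NumberField
open IsDedekindDomain
open scoped Classical

noncomputable section

namespace H51.CUB

open H63.MA H38.BB H38.BG H57.PC

variable {K : Type} [Field K] [NumberField K] {p : ℕ} {ζ : K} {Ω : Type} [Field Ω] [Algebra K Ω]
  [IsAlgClosure K Ω]

omit [NumberField K] in
private theorem dio_clo (M : IntermediateField K Ω) : IsAlgClosure M Ω := by
  have h1 : IsAlgClosed Ω := IsAlgClosure.isAlgClosed K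
  have h2 : Algebra.IsAlgebraic K Ω := IsAlgClosure.isAlgebraic
  exact ⟨h1, Algebra.IsAlgebraic.tower_top (K := K) M⟩

open scoped Pointwise in
/-- the Galois group is transitive on the primes over `v` -/
private theorem dio_trans (P P' : Ideal (𝓞 Ω)) (hP : P.IsPrime) (hP' : P'.IsPrime)
    (h : P.under (𝓞 K) = P'.under (𝓞 K)) : ∃ g : Gal(Ω/K), P' = g • P := by
  have : IsGalois K Ω := IsAlgClosure.isGalois K Ω
  let _ : TopologicalSpace (𝓞 Ω) := ⊥
  have : DiscreteTopology (𝓞 Ω) := ⟨rfl⟩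
  have : ContinuousSMul Gal(Ω/K) (𝓞 Ω) := by
    rw [continuousSMul_iff_stabilizer_isOpen]
    intro x
    have h1 := stabilizer_isOpen_of_isIntegral (K := K) (L := Ω) (x : Ω)
    have h2 : (MulAction.stabilizer Gal(Ω/K) x : Set Gal(Ω/K)) =
        (MulAction.stabilizer Gal(Ω/K) (x : Ω) : Set Gal(Ω/K)) := by
      ext g
      simp only [SetLike.mem_coe, MulAction.mem_stabilizer_iff]
      constructor
      · intro hg
        exact congrArg (fun z : 𝓞 Ω => (z : Ω)) hg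
      · intro hg
        exact NumberField.RingOfIntegers.ext hg
    rw [h2]
    exact h1
  have : Algebra.IsInvariant (𝓞 K) (𝓞 Ω) Gal(Ω/K) := ⟨fun b hb => by
    have h1 : (b : Ω) ∈ (⊥ : IntermediateField K Ω) := by
      rw [← InfiniteGalois.fixedField_bot (k := K) (K := Ω), IntermediateField.mem_fixedField_iff]
      intro g _
      exact congrArg (fun z : 𝓞 Ω => (z : Ω)) (hb g)
    obtain ⟨a, ha⟩ := IntermediateField.mem_bot.1 h1
    have h2 : IsIntegral ℤ a := by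
      have h3 : IsIntegral ℤ (algebraMap K Ω a) := by
        rw [ha]
        exact b.2
      exact (isIntegral_algebraMap_iff (algebraMap K Ω).injective).1 h3
    refine ⟨⟨a, h2⟩, NumberField.RingOfIntegers.ext ?_⟩
    exact ha⟩
  exact Algebra.IsInvariant.exists_smul_of_under_eq_of_profinite (A := 𝓞 K) (G := Gal(Ω/K))
    P P' h

omit [NumberField K] [IsAlgClosure K Ω] in
open scoped Pointwise in
private theorem dio_conj (P : Ideal (𝓞 Ω)) (g t : Gal(Ω/K))
    (ht : ∀ x : 𝓞 Ω, t • x - x ∈ g • P) (x : 𝓞 Ω) : (g⁻¹ * t * g) • x - x ∈ P := by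
  have h1 := ht (g • x)
  have h2 : t • (g • x) - g • x = g • ((g⁻¹ * t * g) • x - x) := by
    rw [smul_sub, ← mul_smul, ← mul_smul]
    congr 2
    group
  rw [h2] at h1
  exact Ideal.smul_mem_pointwise_smul_iff.1 h1

omit [NumberField K] [IsAlgClosure K Ω] in
open scoped Pointwise in
private theorem dio_conj' (P : Ideal (𝓞 Ω)) (g t : Gal(Ω/K))
    (ht : ∀ x : 𝓞 Ω, t • x - x ∈ P) (x : 𝓞 Ω) : (g * t * g⁻¹) • x - x ∈ g • P := by
  have h1 := ht (g⁻¹ • x)
  have h2 : (g * t * g⁻¹) • x - x = g • (t • (g⁻¹ • x) - g⁻¹ • x) := by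
    rw [smul_sub, ← mul_smul, ← mul_smul, smul_inv_smul]
  rw [h2]
  exact Ideal.smul_mem_pointwise_smul_iff.2 h1

omit [NumberField K] [IsAlgClosure K Ω] in
open scoped Pointwise in
private theorem dio_under (P : Ideal (𝓞 Ω)) (g : Gal(Ω/K)) :
    (g • P).under (𝓞 K) = P.under (𝓞 K) := by
  ext x
  simp only [Ideal.mem_comap]
  rw [Ideal.mem_pointwise_smul_iff_inv_smul_mem]
  have h : g⁻¹ • algebraMap (𝓞 K) (𝓞 Ω) x = algebraMap (𝓞 K) (𝓞 Ω) x := smul_algebraMap _ _
  rw [h]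

omit [NumberField K] [IsAlgClosure K Ω] in
private theorem dio_tower (M : IntermediateField K Ω) (x : 𝓞 K) :
    algebraMap (𝓞 M) (𝓞 Ω) (algebraMap (𝓞 K) (𝓞 M) x) = algebraMap (𝓞 K) (𝓞 Ω) x := by
  apply NumberField.RingOfIntegers.ext
  rfl

omit [NumberField K] [IsAlgClosure K Ω] in
private theorem dio_under2 (M : IntermediateField K Ω) (P : Ideal (𝓞 Ω)) :
    (P.under (𝓞 M)).comap (algebraMap (𝓞 K) (𝓞 M)) = P.under (𝓞 K) := by
  ext x
  simp only [Ideal.mem_comap]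
  rw [dio_tower]

omit [IsAlgClosure K Ω] in
private theorem dio_above {D : RD0 K p ζ} (M : IntermediateField K Ω) [FiniteDimensional K M]
    [NumberField M] {v : Pl K} (hv : v ∉ D.S0) {w : Pl M} (hw : Over w v) : ¬ Above p w := by
  intro h
  apply hv
  apply D.above
  unfold Above at h ⊢
  unfold Over at hw
  rw [← hw, Ideal.mem_comap, map_natCast]
  exact h

/-- every prime of `M` outside `S0` -/
theorem dio_any (hp : p.Prime) (hζ : IsPrimitiveRoot ζ p) {D : RD0 K p ζ} (L : LDs D Ω) {c : Kˣ}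
    {M : IntermediateField K Ω} [FiniteDimensional K M] [NumberField M] (hM : KF p ζ c M)
    (v : Pl K) (hv : v ∉ D.S0) (w : Pl M) (hw : Over w v) :
    ∃ (g : Gal(Ω/K)) (τ : Gal(Ω/K)) (t' : Gal(Ω/M)), τ ∈ inr L v ∧
      t'.restrictScalars K = g * τ * g⁻¹ ∧
      ∀ γ : Mˣ, kk p (zM ζ M) γ t' = ((ord w γ : ℤ) : ZMod p) := by
  have hclo : IsAlgClosure M Ω := dio_clo M
  have hwp : ¬ Above p w := dio_above M hv hw
  obtain ⟨π, hπ⟩ := exists_unif w
  obtain ⟨D'⟩ := exists_LD Ω hp (zM_prim hζ M) hwp hπ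
  have hPv : (L.ld v hv).P.under (𝓞 K) = v.asIdeal := (L.ld v hv).under
  have hP' : D'.P.under (𝓞 K) = v.asIdeal := by
    rw [← dio_under2 M, D'.under]
    exact hw
  obtain ⟨g, hg⟩ := dio_trans (L.ld v hv).P D'.P (L.ld v hv).prime D'.prime (hPv.trans hP'.symm)
  refine ⟨g, g⁻¹ * D'.t.restrictScalars K * g, D'.t, ?_, by group, fun γ => ?_⟩
  · have h1 : inr L v = (L.ld v hv).P.inertia Gal(Ω/K) := by
      unfold inr
      rw [dif_pos hv]
    rw [h1]
    intro x
    refine dio_conj (L.ld v hv).P g (D'.t.restrictScalars K) (fun y => ?_) x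
    rw [← hg]
    exact D'.ht y
  · exact ld_kk_t hp (zM_prim hζ M) hwp hπ D' γ

/-- the primes of `M` over a split prime -/
theorem dio_split (hp : p.Prime) (hζ : IsPrimitiveRoot ζ p) {D : RD0 K p ζ} (L : LDs D Ω) {c : Kˣ}
    {M : IntermediateField K Ω} [FiniteDimensional K M] [NumberField M] [Normal K M]
    (hM : KF p ζ c M) (hK : Kum p K ζ c M) (v : Pl K) (hv : v ∉ D.S0)
    (hc : ((ord v c : ℤ) : ZMod p) = 0) (hL : D.LL v c = 0) (g : Gal(Ω/K)) :
    ∃ (w : Pl M) (t' : Gal(Ω/M)), Over w v ∧ nm w = nm v ∧ (∀ x : Kˣ, ord w (inc K M x) = ord v x) ∧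
      t'.restrictScalars K = g * L.t v * g⁻¹ ∧
      (∀ γ : Mˣ, kk p (zM ζ M) γ t' = ((ord w γ : ℤ) : ZMod p)) ∧
      (g = 1 → w.asIdeal = ((L.ld v hv).P.under (𝓞 M))) := by
  have hclo : IsAlgClosure M Ω := dio_clo M
  have hvp : ¬ Above p v := fun h => hv (D.above v h)
  have hspl : Spl p ζ v c := by
    intro x
    rw [b_eq hp hζ hvp (D.pi_self v hv) c x]
    have h1 : lgv p ζ v (D.pi v) c = 0 := hL
    rw [h1, hc]
    ring
  have hcard := spl_split hp hζ hK hvp hspl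
  obtain ⟨Q, hQ⟩ : ∃ Q : Ideal (𝓞 Ω), Q = (L.ld v hv).P := ⟨_, rfl⟩
  have hQp : Q.IsPrime := by rw [hQ]; exact (L.ld v hv).prime
  have hQv : Q.under (𝓞 K) = v.asIdeal := by rw [hQ]; exact (L.ld v hv).under
  open scoped Pointwise in
  obtain ⟨P, hP⟩ : ∃ P : Ideal (𝓞 Ω), P = g • Q := ⟨_, rfl⟩
  have hPp : P.IsPrime := by rw [hP]; infer_instance
  have hPv : P.under (𝓞 K) = v.asIdeal := by rw [hP, dio_under, hQv]
  have hcomap : (P.under (𝓞 M)).comap (algebraMap (𝓞 K) (𝓞 M)) = v.asIdeal := by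
    rw [dio_under2, hPv]
  have hne : P.under (𝓞 M) ≠ ⊥ := by
    intro h
    apply v.ne_bot
    rw [← hcomap, h, ← RingHom.ker_eq_comap_bot, (RingHom.injective_iff_ker_eq_bot _).mp]
    exact NumberField.RingOfIntegers.algebraMap.injective K M
  obtain ⟨w, hw⟩ : ∃ w : Pl M, w.asIdeal = P.under (𝓞 M) := ⟨⟨P.under (𝓞 M), inferInstance, hne⟩, rfl⟩
  have hover : Over w v := by
    unfold Over
    rw [hw, hcomap]
  obtain ⟨hs1, hs2, -⟩ := split_case hp hζ hK hcard hover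
  have htv : L.t v = (L.ld v hv).t := gtw_t L v hv
  have hkc : kk p ζ c (L.t v) = 0 := by
    rw [htv, ld_kk_t hp hζ hvp (D.pi_self v hv) (L.ld v hv) c, hc]
  have hkg : kk p ζ c (g * L.t v * g⁻¹) = 0 := by
    rw [kk_mul, kk_mul, hkc]
    have h5 := kk_mul (p := p) (ζ := ζ) c g g⁻¹
    rw [mul_inv_cancel, kk_one] at h5
    rw [add_zero, ← h5]
  obtain ⟨t', ht'⟩ := kf_lift hM _ hkg
  have hwp : ¬ Above p w := dio_above M hv hover
  have hπ : ord w (inc K M (D.pi v)) = 1 := by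
    rw [hs1, D.pi_self v hv]
  have happ : ∀ y : Ω, t' y = g (L.t v (g⁻¹ y)) := by
    intro y
    have h1 := congrArg (fun s : Gal(Ω/K) => s y) ht'
    exact h1
  let D' : LD p (zM ζ M) Ω w (inc K M (D.pi v)) :=
    { P := P
      prime := hPp
      under := hw.symm
      w := g (L.ld v hv).w
      hw := by
        rw [← map_pow, (L.ld v hv).hw]
        exact g.commutes _
      t := t'
      ht := by
        intro x
        have h1 : ∀ y : 𝓞 Ω, (L.t v) • y - y ∈ Q := by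
          intro y
          rw [htv, hQ]
          exact (L.ld v hv).ht y
        have h2 := dio_conj' Q g (L.t v) h1 x
        rw [← hP, ← ht'] at h2
        exact h2
      act := by
        rw [happ]
        have h1 : g⁻¹ (g (L.ld v hv).w) = (L.ld v hv).w := by
          rw [← AlgEquiv.mul_apply, inv_mul_cancel, AlgEquiv.one_apply]
        rw [h1, htv, (L.ld v hv).act, map_mul]
        congr 1
        exact g.commutes _ }
  refine ⟨w, t', hover, hs2, hs1, ht', fun γ => ?_, fun h1 => ?_⟩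
  · exact ld_kk_t hp (zM_prim hζ M) hwp hπ D' γ
  · rw [hw, hP, h1, one_smul, hQ]

/-- the orders of the generator `γ` of `Y`: `0` outside `S0` and `d`; at `d` all residues occur -/
theorem dio_ord (hp : p.Prime) (hζ : IsPrimitiveRoot ζ p) {D : RD0 K p ζ} (L : LDs D Ω)
    {d c : Kˣ} {M : IntermediateField K Ω} [FiniteDimensional K M] [NumberField M] [Normal K M]
    (hM : KF p ζ c M) (hK : Kum p K ζ c M) {Y : Gal(Ω/K) → ZMod p} (hY : Rho L d c Y) (γ : Mˣ)
    (hγ : ∀ τ : Gal(Ω/M), kk p (zM ζ M) γ τ = Y (τ.restrictScalars K)) :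
    (∀ v, v ∉ D.S0 → ((ord v d : ℤ) : ZMod p) = 0 → ∀ w : Pl M, Over w v →
      ((ord w γ : ℤ) : ZMod p) = 0) ∧
    (∀ v, v ∉ D.S0 → ((ord v c : ℤ) : ZMod p) = 0 → D.LL v c = 0 → ((ord v d : ℤ) : ZMod p) ≠ 0 →
      ∀ r : ZMod p, ∃ w : Pl M, Over w v ∧ nm w = nm v ∧ (∀ x : Kˣ, ord w (inc K M x) = ord v x) ∧
        ((ord w γ : ℤ) : ZMod p) = r) := by
  have hinv : ∀ g : Gal(Ω/K), kk p ζ c g⁻¹ = -kk p ζ c g := by
    intro g
    have h5 := kk_mul (p := p) (ζ := ζ) c g g⁻¹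
    rw [mul_inv_cancel, kk_one] at h5
    exact (neg_eq_of_add_eq_zero_right h5.symm).symm
  refine ⟨fun v hv hd w hw => ?_, fun v hv hc hL hd r => ?_⟩
  · obtain ⟨g, τ, t', hτ, ht', hk⟩ := dio_any hp hζ L hM v hv w hw
    have h1 : kk p ζ c τ = 0 := by
      have h2 := kf_mem hM t'
      rw [ht', kk_mul, kk_mul, hinv] at h2
      linear_combination h2
    have h2 : kk p ζ d τ = 0 := by
      rw [kk_inr hp hζ L v hv d τ hτ, hd, zero_mul]
    rw [← hk γ, hγ t', ht', rho_conj hY, h1, h2, rho_inr hp hζ L hY v hv (Or.inl hd) τ hτ]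
    ring
  · have hpF : Fact p.Prime := ⟨hp⟩
    have hne : ∃ σ : Gal(Ω/K), kk p ζ c σ ≠ 0 := by
      by_contra hcon
      push Not at hcon
      exact kum_not_pow hp hζ hK ((kk_eq_zero_iff hp hζ c).1 hcon)
    obtain ⟨σ, hσ⟩ := hne
    have hpow : ∀ n : ℕ, kk p ζ c (σ ^ n) = (n : ZMod p) * kk p ζ c σ := by
      intro n
      induction n with
      | zero => rw [pow_zero, kk_one, Nat.cast_zero, zero_mul]
      | succ n ih =>
        rw [pow_succ, kk_mul, ih]
        push_cast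
        ring
    obtain ⟨a, ha⟩ : ∃ a : ZMod p, a = -(r * (((ord v d : ℤ) : ZMod p))⁻¹) * (kk p ζ c σ)⁻¹ :=
      ⟨_, rfl⟩
    obtain ⟨g, hg⟩ : ∃ g : Gal(Ω/K), kk p ζ c g = -(r * (((ord v d : ℤ) : ZMod p))⁻¹) := by
      refine ⟨σ ^ a.val, ?_⟩
      rw [hpow, ZMod.natCast_zmod_val, ha, mul_assoc, inv_mul_cancel₀ hσ, mul_one]
    obtain ⟨w, t', hw1, hw2, hw3, ht', hk, -⟩ := dio_split hp hζ L hM hK v hv hc hL g
    refine ⟨w, hw1, hw2, hw3, ?_⟩
    have hvp : ¬ Above p v := fun h => hv (D.above v h)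
    have htv : L.t v = (L.ld v hv).t := gtw_t L v hv
    have hkt : ∀ x : Kˣ, kk p ζ x (L.t v) = ((ord v x : ℤ) : ZMod p) := by
      intro x
      rw [htv, ld_kk_t hp hζ hvp (D.pi_self v hv) (L.ld v hv) x]
    rw [← hk γ, hγ t', ht', rho_conj hY, hY.tz v hv, hkt, hkt, hc, hg]
    field_simp
    ring

end H51.CUB
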