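import Pool.Agent.H63.MA.SymC
import Pool.Agent.H63.MA.RMkA

/-!
[H51 CUB DUA]  Local counting at a prime above `p` (150-200 lines). PROOF.

`v` above `p`, `e = ord v p ≥ 1`, `N = 2 e + 1`. Let `A = 𝓞 K ⧸ v ^ N` (finite ring, `#(v ^ i / v ^ (i+1)) = nm v`; Mathlib: `Ideal.cardQuot_pow_of_prime`, `Ideal.absNorm`), `G = Aˣ` a finite commutative group.
(1) `#{x ∈ A : x ^ p = 1} ≤ p * (nm v) ^ e`. Let `x ∈ 𝓞 K` with `x ^ p - 1 ∈ v ^ N`. `x ^ p - 1 = ∏_(j < p) (x - ζ ^ j)` (`ζ` is integral; `IsPrimitiveRoot` product formula `X_pow_sub_one_eq_prod` or `pow_sub_one_eq_prod`).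
The number `ε = v(ζ ^ j - ζ ^ i)` (`i ≠ j`) satisfies `(p - 1) ε = e` (`∏_(0<j<p) (1 - ζ ^ j) = p` up to sign; all `1 - ζ ^ j` are associated, Mathlib: `IsPrimitiveRoot.associated_sub_one..`, `H63/MA/SymC`). If all `v(x - ζ ^ j) ≤ ε` then
`N ≤ v(x ^ p - 1) ≤ p ε ≤ 2 (p - 1) ε = 2 e`, a contradiction. So some `v(x - ζ ^ j) > ε`, then `v(x - ζ ^ i) = ε` for `i ≠ j`, and `v(x - ζ ^ j) ≥ N - (p - 1) ε = e + 1`. So the image of `x` in `𝓞 K / v ^ (e + 1)` is one of the `p` elements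
`ζ ^ j`: at most `p * #(v ^ (e+1) / v ^ N) = p (nm v) ^ (N - e - 1) = p (nm v) ^ e` classes modulo `v ^ N`.
(2) In the finite abelian group `G`: `#(G / G^p) = #G[p] ≤ p (nm v) ^ e` (kernel and image of `x ↦ x ^ p`). So there is a finite set `R₀` of integers prime to `v`, `#R₀ ≤ p (nm v) ^ e`, such that every `a ∈ 𝓞 K` prime to `v` is
`≡ y ^ p r` modulo `v ^ N` with `r ∈ R₀`, `y ∈ 𝓞 K` prime to `v`.
(3) `R = {π ^ i * r : 0 ≤ i < p, r ∈ R₀}`, `π` with `ord v π = 1`. For `x ∈ Kˣ`: `x = π ^ (i + p m) z`, `ord v z = 0`, and `z` is `a / b` with `a, b ∈ 𝓞 K` prime to `v` (`H38.TD.exists_int_div`), `a b^(p-1) ≡ y ^ p r` mod `v ^ N`, so `z = (a b^(p-1)) / b^p` and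
`x / (π ^ i r) = (π ^ m y / b) ^ p * (1 + v^N ..)`: `LocP` holds because elements `≡ 1` modulo `v ^ N`, `N = 2 e + 1 > v(p²)`, satisfy the inequality.
-/

set_option autoImplicit false

open scoped NumberField
open IsDedekindDomain
open scoped Classical

noncomputable section

namespace H51.CUB

open H63.MA

variable {K : Type} [Field K] [NumberField K] {p : ℕ} {ζ : K}


private theorem dua_unit (v : Pl K) (u : (𝓞 K)ˣ) : v.intValuation (u : 𝓞 K) = 1 := by
  apply le_antisymm (v.intValuation_le_one _)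
  have h1 : v.intValuation (u : 𝓞 K) * v.intValuation ((u⁻¹ : (𝓞 K)ˣ) : 𝓞 K) = 1 := by
    rw [← map_mul, Units.mul_inv, map_one]
  calc (1 : WithZero (Multiplicative ℤ)) = v.intValuation (u : 𝓞 K) * v.intValuation ((u⁻¹ : (𝓞 K)ˣ) : 𝓞 K) := h1.symm
    _ ≤ v.intValuation (u : 𝓞 K) * 1 := mul_le_mul_right (v.intValuation_le_one _) _
    _ = _ := mul_one _

private theorem dua_assoc (v : Pl K) {a b : 𝓞 K} (h : Associated a b) :
    v.intValuation a = v.intValuation b := by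
  obtain ⟨u, rfl⟩ := h
  rw [map_mul, dua_unit, mul_one]

private theorem dua_diff (hp : p.Prime) {μ : 𝓞 K} (hμ : IsPrimitiveRoot μ p) (v : Pl K)
    {η₁ η₂ : 𝓞 K} (h₁ : η₁ ∈ Polynomial.nthRootsFinset p (1 : 𝓞 K))
    (h₂ : η₂ ∈ Polynomial.nthRootsFinset p (1 : 𝓞 K)) (hne : η₁ ≠ η₂) :
    v.intValuation (η₁ - η₂) = v.intValuation (μ - 1) :=
  (dua_assoc v (hμ.nthRootsFinset_pairwise_associated_sub_one_sub_of_prime hp h₁ h₂ hne)).symm

private theorem dua_pow (hp : p.Prime) {μ : 𝓞 K} (hμ : IsPrimitiveRoot μ p) (v : Pl K) :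
    v.intValuation (μ - 1) ^ (p - 1) = v.intValuation (p : 𝓞 K) := by
  obtain ⟨n, rfl⟩ : ∃ n, p = n + 1 := ⟨p - 1, (Nat.succ_pred_eq_of_pos hp.pos).symm⟩
  have h := hμ.prod_one_sub_pow_eq_order
  have h2 : ((n + 1 : ℕ) : 𝓞 K) = (n : 𝓞 K) + 1 := by push_cast; ring
  rw [h2, ← h, map_prod, Nat.add_sub_cancel]
  rw [Finset.prod_congr rfl (g := fun _ => v.intValuation (μ - 1))]
  · rw [Finset.prod_const, Finset.card_range]
  · intro k hk
    rw [Finset.mem_range] at hk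
    apply dua_diff hp hμ v
    · rw [Polynomial.mem_nthRootsFinset (Nat.succ_pos n)]
      exact one_pow _
    · rw [Polynomial.mem_nthRootsFinset (Nat.succ_pos n), ← pow_mul, mul_comm, pow_mul,
        hμ.pow_eq_one, one_pow]
    · intro h3
      exact hμ.pow_ne_one_of_pos_of_lt (Nat.succ_ne_zero k) (by omega) h3.symm

private theorem dua_near (hp : p.Prime) {μ : 𝓞 K} (hμ : IsPrimitiveRoot μ p) (v : Pl K) (e : ℕ)
    (he : v.intValuation (p : 𝓞 K) = WithZero.exp (-(e : ℤ))) (x : 𝓞 K)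
    (hx : x ^ p - 1 ∈ v.asIdeal ^ (2 * e + 1)) :
    ∃ η ∈ Polynomial.nthRootsFinset p (1 : 𝓞 K), x - η ∈ v.asIdeal ^ (e + 1) := by
  set E := v.intValuation (μ - 1) with hE
  have hE1 : E ≤ 1 := v.intValuation_le_one _
  have hEp : E ^ (p - 1) = WithZero.exp (-(e : ℤ)) := by rw [← he, ← dua_pow hp hμ v]
  have hprod : v.intValuation (x ^ p - 1) =
      ∏ η ∈ Polynomial.nthRootsFinset p (1 : 𝓞 K), v.intValuation (x - η) := by
    have h := hμ.pow_sub_pow_eq_prod_sub_mul x 1 hp.pos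
    rw [one_pow] at h
    rw [h, map_prod]
    simp only [mul_one]
  have hcard : (Polynomial.nthRootsFinset p (1 : 𝓞 K)).card = p := hμ.card_nthRootsFinset
  have hle : v.intValuation (x ^ p - 1) ≤ WithZero.exp (-((2 * e + 1 : ℕ) : ℤ)) :=
    (v.intValuation_le_pow_iff_mem _ _).2 hx
  by_cases hc : ∃ η ∈ Polynomial.nthRootsFinset p (1 : 𝓞 K), v.intValuation (x - η) < E
  · obtain ⟨η, hη, hlt⟩ := hc
    refine ⟨η, hη, ?_⟩
    rw [← v.intValuation_le_pow_iff_mem]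
    rw [← Finset.mul_prod_erase _ _ hη] at hprod
    have hrest : ∏ η' ∈ (Polynomial.nthRootsFinset p (1 : 𝓞 K)).erase η,
        v.intValuation (x - η') = WithZero.exp (-(e : ℤ)) := by
      rw [← hEp, Finset.prod_congr rfl (g := fun _ => E)]
      · rw [Finset.prod_const, Finset.card_erase_of_mem hη, hcard]
      · intro η' hη'
        rw [Finset.mem_erase] at hη'
        have h3 : v.intValuation (η - η') = E := dua_diff hp hμ v hη hη'.2 (Ne.symm hη'.1)
        have h4 : x - η' = (x - η) + (η - η') := by ring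
        rw [h4, Valuation.map_add_eq_of_lt_right _ (by rw [h3]; exact hlt), h3]
    rw [hrest] at hprod
    rw [hprod] at hle
    have h5 : WithZero.exp (-((2 * e + 1 : ℕ) : ℤ)) =
        WithZero.exp (-((e + 1 : ℕ) : ℤ)) * WithZero.exp (-(e : ℤ)) := by
      rw [← WithZero.exp_add]
      congr 1
      push_cast
      ring
    rw [h5] at hle
    exact le_of_mul_le_mul_right hle (WithZero.exp_pos)
  · exfalso
    push Not at hc
    have h1 : E ^ p ≤ v.intValuation (x ^ p - 1) := by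
      rw [hprod]
      calc E ^ p = ∏ _η ∈ Polynomial.nthRootsFinset p (1 : 𝓞 K), E := by
            rw [Finset.prod_const, hcard]
        _ ≤ _ := Finset.prod_le_prod' hc
    have h2 : E ^ (2 * (p - 1)) ≤ E ^ p :=
      pow_le_pow_right_of_le_one' hE1 (by have := hp.two_le; omega)
    have h3 : E ^ (2 * (p - 1)) = WithZero.exp (-((2 * e : ℕ) : ℤ)) := by
      rw [mul_comm, pow_mul, hEp, ← WithZero.exp_nsmul]
      congr 1
      push_cast
      ring
    have h4 := (h3 ▸ h2).trans (h1.trans hle)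
    rw [WithZero.exp_le_exp] at h4
    push_cast at h4
    omega


private theorem dua_val_p (v : Pl K) (e : ℕ)
    (he : v.valuation K (p : K) = WithZero.exp (-(e : ℤ))) :
    v.intValuation (p : 𝓞 K) = WithZero.exp (-(e : ℤ)) := by
  rw [← he, ← v.valuation_of_algebraMap (K := K)]
  change v.valuation K (algebraMap (𝓞 K) K (p : 𝓞 K)) = _
  rw [map_natCast]

/-- the kernel of the reduction modulo `v ^ (e + 1)` -/
private theorem dua_ker (v : Pl K) (e : ℕ) (h : v.asIdeal ^ (2 * e + 1) ≤ v.asIdeal ^ (e + 1)) :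
    Nat.card (RingHom.ker (Ideal.Quotient.factor h)) = nm v ^ e := by
  have h1 : ∀ n : ℕ, Nat.card (𝓞 K ⧸ v.asIdeal ^ n) = nm v ^ n := by
    intro n
    have h2 : Ideal.absNorm (v.asIdeal ^ n) = nm v ^ n := by
      rw [map_pow]
      rfl
    rw [← h2, Ideal.absNorm_apply, Submodule.cardQuot_apply]
  have h3 := AddSubgroup.card_eq_card_quotient_mul_card_addSubgroup
    (Ideal.Quotient.factor h).toAddMonoidHom.ker
  have h4 : Nat.card ((𝓞 K ⧸ v.asIdeal ^ (2 * e + 1)) ⧸ (Ideal.Quotient.factor h).toAddMonoidHom.ker) =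
      nm v ^ (e + 1) := by
    rw [← h1 (e + 1)]
    exact Nat.card_congr (QuotientAddGroup.quotientKerEquivOfSurjective
      (Ideal.Quotient.factor h).toAddMonoidHom (Ideal.Quotient.factor_surjective h)).toEquiv
  have h5 : Nat.card (RingHom.ker (Ideal.Quotient.factor h)) =
      Nat.card (Ideal.Quotient.factor h).toAddMonoidHom.ker := rfl
  rw [h4, h1, ← h5] at h3
  have h6 : nm v ^ (2 * e + 1) = nm v ^ (e + 1) * nm v ^ e := by
    rw [← pow_add]
    congr 1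
    omega
  rw [h6] at h3
  exact (Nat.eq_of_mul_eq_mul_left (pow_pos (by have := one_lt_nm v; omega) _) h3).symm

/-- the number of `p`-torsion elements modulo `v ^ (2 e + 1)` -/
theorem dua_tors (hp : p.Prime) (hζ : IsPrimitiveRoot ζ p) (v : Pl K) (hv : Above p v) (e : ℕ)
    (he : v.valuation K (p : K) = WithZero.exp (-(e : ℤ))) :
    Nat.card {x : 𝓞 K ⧸ v.asIdeal ^ (2 * e + 1) // x ^ p = 1} ≤ p * nm v ^ e := by
  have : NeZero p := ⟨hp.ne_zero⟩
  have hμ : IsPrimitiveRoot hζ.toInteger p := hζ.toInteger_isPrimitiveRoot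
  have h : v.asIdeal ^ (2 * e + 1) ≤ v.asIdeal ^ (e + 1) := Ideal.pow_le_pow_right (by omega)
  have key : ∀ x : {x : 𝓞 K ⧸ v.asIdeal ^ (2 * e + 1) // x ^ p = 1},
      ∃ η : Polynomial.nthRootsFinset p (1 : 𝓞 K),
        x.1 - Ideal.Quotient.mk _ (η : 𝓞 K) ∈ RingHom.ker (Ideal.Quotient.factor h) := by
    rintro ⟨x, hx⟩
    obtain ⟨a, rfl⟩ := Ideal.Quotient.mk_surjective x
    rw [← map_pow, ← sub_eq_zero, ← map_one (Ideal.Quotient.mk (v.asIdeal ^ (2 * e + 1))),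
      ← map_sub, Ideal.Quotient.eq_zero_iff_mem] at hx
    obtain ⟨η, hη, hη2⟩ := dua_near hp hμ v e (dua_val_p v e he) a hx
    refine ⟨⟨η, hη⟩, ?_⟩
    rw [RingHom.mem_ker, ← map_sub, Ideal.Quotient.factor_mk, Ideal.Quotient.eq_zero_iff_mem]
    exact hη2
  choose η hη using key
  have hfin : Finite (𝓞 K ⧸ v.asIdeal ^ (2 * e + 1)) := by
    apply Ideal.finiteQuotientOfFreeOfNeBot
    exact pow_ne_zero _ v.ne_bot
  have hinj : Function.Injective (fun x : {x : 𝓞 K ⧸ v.asIdeal ^ (2 * e + 1) // x ^ p = 1} =>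
      ((η x, (⟨x.1 - Ideal.Quotient.mk _ (η x : 𝓞 K), hη x⟩ :
        RingHom.ker (Ideal.Quotient.factor h))) :
        Polynomial.nthRootsFinset p (1 : 𝓞 K) × RingHom.ker (Ideal.Quotient.factor h))) := by
    intro x y hxy
    rw [Prod.mk.injEq, Subtype.mk.injEq] at hxy
    obtain ⟨h1, h2⟩ := hxy
    have h3 := congrArg Subtype.val h2
    simp only [h1] at h3
    exact Subtype.ext (sub_left_injective h3)
  have h2 := Nat.card_le_card_of_injective _ hinj
  rw [Nat.card_prod, dua_ker] at h2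
  have h3 : Nat.card (Polynomial.nthRootsFinset p (1 : 𝓞 K)) = p := by
    rw [Nat.card_eq_fintype_card, Fintype.card_coe, hμ.card_nthRootsFinset]
  rwa [h3] at h2


private theorem dua_quot (hp : p.Prime) (hζ : IsPrimitiveRoot ζ p) (v : Pl K) (hv : Above p v)
    (e : ℕ) (he : v.valuation K (p : K) = WithZero.exp (-(e : ℤ))) :
    Nat.card ((𝓞 K ⧸ v.asIdeal ^ (2 * e + 1))ˣ ⧸
      (powMonoidHom p : (𝓞 K ⧸ v.asIdeal ^ (2 * e + 1))ˣ →* _).range) ≤ p * nm v ^ e := by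
  have hfin : Finite (𝓞 K ⧸ v.asIdeal ^ (2 * e + 1)) := by
    apply Ideal.finiteQuotientOfFreeOfNeBot
    exact pow_ne_zero _ v.ne_bot
  set φ : (𝓞 K ⧸ v.asIdeal ^ (2 * e + 1))ˣ →* (𝓞 K ⧸ v.asIdeal ^ (2 * e + 1))ˣ :=
    powMonoidHom p with hφ
  have h1 := Subgroup.card_eq_card_quotient_mul_card_subgroup φ.range
  have h2 := Subgroup.card_eq_card_quotient_mul_card_subgroup φ.ker
  rw [Nat.card_congr (QuotientGroup.quotientKerEquivRange φ).toEquiv, h1, mul_comm] at h2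
  have h3 : Nat.card φ.ker ≤ p * nm v ^ e := by
    refine le_trans ?_ (dua_tors hp hζ v hv e he)
    apply Nat.card_le_card_of_injective (fun x : φ.ker =>
      (⟨((x : (𝓞 K ⧸ v.asIdeal ^ (2 * e + 1))ˣ) : 𝓞 K ⧸ v.asIdeal ^ (2 * e + 1)), by
        have h4 : (x : (𝓞 K ⧸ v.asIdeal ^ (2 * e + 1))ˣ) ^ p = 1 := MonoidHom.mem_ker.1 x.2
        rw [← Units.val_pow_eq_pow_val, h4, Units.val_one]⟩ :
        {x : 𝓞 K ⧸ v.asIdeal ^ (2 * e + 1) // x ^ p = 1}))
    intro x y hxy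
    exact Subtype.ext (Units.ext (congrArg Subtype.val hxy))
  have h5 : 0 < Nat.card φ.range := Nat.card_pos
  rw [Nat.eq_of_mul_eq_mul_left h5 h2]
  exact h3

private theorem dua_val (v : Pl K) {a : 𝓞 K} (ha : a ∉ v.asIdeal) :
    v.valuation K (algebraMap (𝓞 K) K a) = 1 := (v.valuation_eq_one_iff_notMem (K := K)).2 ha

private theorem dua_ne (v : Pl K) {a : 𝓞 K} (ha : a ∉ v.asIdeal) : algebraMap (𝓞 K) K a ≠ 0 := by
  intro h
  have h1 := dua_val v ha
  rw [h, map_zero] at h1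
  exact zero_ne_one h1

private theorem dua_lift (v : Pl K) {N : ℕ} (hN : N ≠ 0) (g : (𝓞 K ⧸ v.asIdeal ^ N)ˣ) :
    ∃ a : 𝓞 K, a ∉ v.asIdeal ∧ Ideal.Quotient.mk (v.asIdeal ^ N) a = g := by
  obtain ⟨a, ha⟩ := Ideal.Quotient.mk_surjective (g : 𝓞 K ⧸ v.asIdeal ^ N)
  have : v.asIdeal.IsMaximal := v.isMaximal
  refine ⟨a, ?_, ha⟩
  rw [← Ideal.Quotient.isUnit_mk_pow_iff_notMem v.asIdeal hN, ha]
  exact g.isUnit

theorem dua_loc (hp : p.Prime) (hζ : IsPrimitiveRoot ζ p) (v : Pl K) (hv : Above p v) (e : ℕ)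
    (he : v.valuation K (p : K) = WithZero.exp (-(e : ℤ))) :
    ∃ R : Finset Kˣ, R.card ≤ p ^ 2 * nm v ^ e ∧ ∀ x : Kˣ, ∃ y ∈ R, LocP p v (x * y⁻¹) := by
  have hN : 2 * e + 1 ≠ 0 := by omega
  have hmax : v.asIdeal.IsMaximal := v.isMaximal
  have hfin : Finite (𝓞 K ⧸ v.asIdeal ^ (2 * e + 1)) := by
    apply Ideal.finiteQuotientOfFreeOfNeBot
    exact pow_ne_zero _ v.ne_bot
  set Q := (𝓞 K ⧸ v.asIdeal ^ (2 * e + 1))ˣ ⧸
      (powMonoidHom p : (𝓞 K ⧸ v.asIdeal ^ (2 * e + 1))ˣ →* _).range with hQ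
  have hfQ : Fintype Q := Fintype.ofFinite Q
  have key : ∀ q : Q, ∃ a : 𝓞 K, a ∉ v.asIdeal ∧
      Ideal.Quotient.mk (v.asIdeal ^ (2 * e + 1)) a =
        ((q.out : (𝓞 K ⧸ v.asIdeal ^ (2 * e + 1))ˣ) : 𝓞 K ⧸ v.asIdeal ^ (2 * e + 1)) :=
    fun q => dua_lift v hN q.out
  choose a ha1 ha2 using key
  obtain ⟨π, hπ⟩ := exists_unif v
  refine ⟨(Finset.range p ×ˢ (Finset.univ : Finset Q)).image
    (fun iq => π ^ iq.1 * Units.mk0 (algebraMap (𝓞 K) K (a iq.2)) (dua_ne v (ha1 iq.2))), ?_, ?_⟩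
  · refine Finset.card_image_le.trans ?_
    rw [Finset.card_product, Finset.card_range, Finset.card_univ, ← Nat.card_eq_fintype_card]
    have h1 := dua_quot hp hζ v hv e he
    calc p * Nat.card Q ≤ p * (p * nm v ^ e) := Nat.mul_le_mul_left p h1
      _ = _ := by ring
  · intro x
    set n := ord v x with hn
    set m := n / (p : ℤ) with hm
    obtain ⟨i, hi⟩ : ∃ i : ℕ, n % (p : ℤ) = i :=
      ⟨(n % (p : ℤ)).toNat, (Int.toNat_of_nonneg (Int.emod_nonneg _
        (by exact_mod_cast hp.ne_zero))).symm⟩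
    have hip : i < p := by
      have h1 := Int.emod_lt_of_pos n (by exact_mod_cast hp.pos : (0 : ℤ) < p)
      rw [hi] at h1
      exact_mod_cast h1
    have hnm : n = (p : ℤ) * m + i := by
      rw [← hi, hm]
      exact (Int.mul_ediv_add_emod n p).symm
    obtain ⟨z, hz⟩ : ∃ z : Kˣ, x = π ^ n * z := ⟨(π ^ n)⁻¹ * x, (mul_inv_cancel_left _ _).symm⟩
    have hz0 : ord v z = 0 := by
      have h1 := congrArg (ord v) hz
      rw [ord_mul, ord_zpow, hπ, ← hn] at h1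
      linarith
    have hzv : v.valuation K (z : K) = 1 := (ord_eq_zero_iff v z).1 hz0
    obtain ⟨c, d, hcd⟩ := v.exists_primeCompl_mul_eq_of_integer (K := K) (z : K) hzv.le
    have hd : (d : 𝓞 K) ∉ v.asIdeal := d.2
    have hc : c ∉ v.asIdeal := by
      rw [← v.valuation_eq_one_iff_notMem (K := K), ← hcd, map_mul, hzv, one_mul]
      exact dua_val v hd
    have huc := Ideal.Quotient.isUnit_mk_pow_of_notMem (I := v.asIdeal) (n := 2 * e + 1) hc
    have hud := Ideal.Quotient.isUnit_mk_pow_of_notMem (I := v.asIdeal) (n := 2 * e + 1) hd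
    set g := huc.unit * hud.unit⁻¹ with hg
    set q : Q := (g : Q) with hq
    obtain ⟨⟨t, ht⟩, htq⟩ := QuotientGroup.mk_out_eq_mul
      (powMonoidHom p : (𝓞 K ⧸ v.asIdeal ^ (2 * e + 1))ˣ →* _).range g
    obtain ⟨s, hs⟩ := ht
    rw [powMonoidHom_apply] at hs
    obtain ⟨y, hy1, hy2⟩ := dua_lift v hN s⁻¹
    have hgq : g = q.out * (s⁻¹) ^ p := by
      rw [hq, htq]
      simp only [← hs, inv_pow, mul_inv_cancel_right]
    have hcong : c - d * a q * y ^ p ∈ v.asIdeal ^ (2 * e + 1) := by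
      rw [← Ideal.Quotient.eq_zero_iff_mem, map_sub, map_mul, map_mul, map_pow, ha2 q, hy2,
        sub_eq_zero]
      have h1 : huc.unit = hud.unit * (q.out * (s⁻¹) ^ p) := by
        rw [← hgq, hg]
        rw [mul_comm huc.unit, mul_inv_cancel_left]
      have h2 := congrArg Units.val h1
      rw [Units.val_mul, Units.val_mul, Units.val_pow_eq_pow_val, IsUnit.unit_spec,
        IsUnit.unit_spec, ← mul_assoc] at h2
      exact h2
    refine ⟨π ^ i * Units.mk0 (algebraMap (𝓞 K) K (a q)) (dua_ne v (ha1 q)), ?_, π ^ m * Units.mk0 (algebraMap (𝓞 K) K y)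
      (dua_ne v hy1), ?_⟩
    · rw [Finset.mem_image]
      exact ⟨(i, q), Finset.mem_product.2 ⟨Finset.mem_range.2 hip, Finset.mem_univ _⟩, rfl⟩
    · have hd0 := dua_ne v hd
      have ha0 := dua_ne v (ha1 q)
      have hy0 := dua_ne v hy1
      have e1 : x * (π ^ i * Units.mk0 (algebraMap (𝓞 K) K (a q)) (dua_ne v (ha1 q)))⁻¹ *
          ((π ^ m * Units.mk0 (algebraMap (𝓞 K) K y) (dua_ne v hy1)) ^ p)⁻¹ =
          z * (Units.mk0 (algebraMap (𝓞 K) K (a q)) (dua_ne v (ha1 q)))⁻¹ *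
            ((Units.mk0 (algebraMap (𝓞 K) K y) (dua_ne v hy1)) ^ p)⁻¹ := by
        have e2 : π ^ n = (π ^ m) ^ p * π ^ i := by
          rw [hnm, zpow_add, mul_comm (p : ℤ) m, zpow_mul, zpow_natCast, zpow_natCast]
        rw [hz, e2, mul_pow, mul_inv, mul_inv]
        have e3 : ∀ A B Z C Y : Kˣ, A * B * Z * (B⁻¹ * C) * (A⁻¹ * Y) = Z * C * Y := by
          intro A B Z C Y
          have : A * B * Z * (B⁻¹ * C) * (A⁻¹ * Y) = (A * A⁻¹) * (B * B⁻¹) * (Z * C * Y) := by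
            ac_rfl
          rw [this, mul_inv_cancel, mul_inv_cancel, one_mul, one_mul]
        exact e3 _ _ _ _ _
      rw [e1]
      have e4 : (((z * (Units.mk0 (algebraMap (𝓞 K) K (a q)) (dua_ne v (ha1 q)))⁻¹ *
            ((Units.mk0 (algebraMap (𝓞 K) K y) (dua_ne v hy1)) ^ p)⁻¹ : Kˣ) : K) - 1) *
            algebraMap (𝓞 K) K ((d : 𝓞 K) * a q * y ^ p) =
            algebraMap (𝓞 K) K (c - d * a q * y ^ p) := by
        rw [map_sub, map_mul, map_mul, map_pow, ← hcd, Units.val_mul, Units.val_mul,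
          Units.val_inv_eq_inv_val, Units.val_inv_eq_inv_val, Units.val_pow_eq_pow_val,
          Units.val_mk0, Units.val_mk0]
        field_simp
      have e5 := congrArg (v.valuation K) e4
      have e6 : v.valuation K (algebraMap (𝓞 K) K ((d : 𝓞 K) * a q * y ^ p)) = 1 := by
        rw [map_mul, map_mul, map_pow, map_mul, map_mul, map_pow, dua_val v hd, dua_val v (ha1 q), dua_val v hy1]
        simp
      rw [map_mul, e6, mul_one] at e5
      rw [e5]
      have e7 : v.valuation K (algebraMap (𝓞 K) K (c - d * a q * y ^ p)) ≤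
          WithZero.exp (-((2 * e + 1 : ℕ) : ℤ)) := by
        have h1 := (v.intValuation_le_pow_iff_mem _ _).2 hcong
        rw [← v.valuation_of_algebraMap (K := K)] at h1
        exact h1
      refine e7.trans_lt ?_
      rw [map_pow, he, ← WithZero.exp_nsmul, WithZero.exp_lt_exp]
      push_cast
      rw [nsmul_eq_mul]
      push_cast
      omega

end H51.CUB
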