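import Pool.Agent.H57.PC.Def
import Pool.Agent.H57.TLS.Bbx

/-!
# H51-CUB-DEF: cubes and squares of homomorphisms to groups of class 3 (MP_b39724_nt), definitions

* `Rho L d c Y`: `Y : Γ → ZMod p` has finite level, coboundary `kk d ∪ kk c` and vanishes at the inertia generators outside `S0`
  (`Rho L 1 1 Y`: an additive character unramified outside `S0`).
* `C3`, `C2`: the cube and the square property of a function of three / two primes (used with `H57/TLS`).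
* `ak`, `XS`, `H1`, `EE`, `HI`, `FF`: labelled configurations `(n, σ, ψ)`: `n` a finite set of primes, `σ v ∈ R` the value at the inertia generator of
  `v ∈ n`, `ψ v ∈ (ZMod p)^w` the functional applied to the local commutator. `XS`: the homomorphisms `ρ : Γ → R` with these inertia values,
  Kummer data `ak` and restriction `ε` to the inertia groups at `E`. `H1`: the homomorphisms `Γ → V = ker π` unramified outside `S0`.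
  `EE ψ n ρ = ∑ ψ v · cq ρ v`. `HI`: the phase is invariant under `H1`. `FF`: `0` or the common value of `ep (EE ρ)`; `∑_{ρ ∈ XS} ep (EE ρ) = #H1 * FF`.
-/

set_option autoImplicit false

open scoped NumberField ComplexConjugate
open IsDedekindDomain
open scoped Classical

noncomputable section

namespace H51.CUB

open H63.MA H38.BB H38.BG H57.PC H57.TLS

variable {K : Type} [Field K] [NumberField K] {p : ℕ} {ζ : K} {Ω : Type} [Field Ω] [Algebra K Ω]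

/-- functions of finite level with coboundary `kk d ∪ kk c`, zero at the inertia generators outside `S0` -/
structure Rho {D : RD0 K p ζ} (L : LDs D Ω) (d c : Kˣ) (Y : Gal(Ω/K) → ZMod p) : Prop where
  lev : Lev Y
  add : ∀ g h, Y (g * h) = Y g + Y h + kk p ζ d g * kk p ζ c h
  tz : ∀ v, v ∉ D.S0 → Y (L.t v) = 0

/-- the cube property: `G a b c` is `0` or of absolute value `1`; being nonzero depends only on the pair symbols (one variable changed at a time); the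
alternating product over a cube with constant symbols is given by the symbol `Y` of the first two pairs -/
structure C3 (D : RD0 K p ζ) {L : LDs D Ω} (Fr : FR L) (κ : ZMod p) (Q₁ Q₂ Q₃ : Finset (Pl K))
    (G : Pl K → Pl K → Pl K → ℂ) : Prop where
  d : ∀ a ∈ Q₁, ∀ b ∈ Q₂, ∀ c ∈ Q₃, (a = b ∨ a = c ∨ b = c) → G a b c = 0
  un : ∀ a ∈ Q₁, ∀ b ∈ Q₂, ∀ c ∈ Q₃, G a b c ≠ 0 → ‖G a b c‖ = 1
  n1 : ∀ a ∈ Q₁, ∀ a' ∈ Q₁, ∀ b ∈ Q₂, ∀ c ∈ Q₃, a' ≠ b → a' ≠ c →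
    D.LL b (D.pi a') = D.LL b (D.pi a) → D.LL c (D.pi a') = D.LL c (D.pi a) →
    G a b c ≠ 0 → G a' b c ≠ 0
  n2 : ∀ a ∈ Q₁, ∀ b ∈ Q₂, ∀ b' ∈ Q₂, ∀ c ∈ Q₃, b' ≠ a → b' ≠ c →
    D.LL b' (D.pi a) = D.LL b (D.pi a) → D.LL c (D.pi b') = D.LL c (D.pi b) →
    G a b c ≠ 0 → G a b' c ≠ 0
  n3 : ∀ a ∈ Q₁, ∀ b ∈ Q₂, ∀ c ∈ Q₃, ∀ c' ∈ Q₃, c' ≠ a → c' ≠ b →
    D.LL c' (D.pi a) = D.LL c (D.pi a) → D.LL c' (D.pi b) = D.LL c (D.pi b) →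
    G a b c ≠ 0 → G a b c' ≠ 0
  cube : ∀ a ∈ Q₁, ∀ a' ∈ Q₁, ∀ b ∈ Q₂, ∀ b' ∈ Q₂, ∀ c ∈ Q₃, ∀ c' ∈ Q₃,
    a ≠ a' → b ≠ b' → c ≠ c' →
    (∀ x ∈ ({a, a'} : Finset (Pl K)), ∀ y ∈ ({b, b'} : Finset (Pl K)),
      x ≠ y ∧ D.LL y (D.pi x) = D.LL b (D.pi a)) →
    (∀ x ∈ ({a, a'} : Finset (Pl K)), ∀ z ∈ ({c, c'} : Finset (Pl K)),
      x ≠ z ∧ D.LL z (D.pi x) = D.LL c (D.pi a)) →
    (∀ y ∈ ({b, b'} : Finset (Pl K)), ∀ z ∈ ({c, c'} : Finset (Pl K)),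
      y ≠ z ∧ D.LL z (D.pi y) = D.LL c (D.pi b)) →
    G a b c ≠ 0 → ∀ Y, Rho L (D.pi b / D.pi b') (D.pi a / D.pi a') Y →
    q4 G a a' b b' c * conj (q4 G a a' b b' c') = ep p (κ * (Y (Fr.F c) - Y (Fr.F c')))

/-- the square property, with an element `A` -/
structure C2 (D : RD0 K p ζ) {L : LDs D Ω} (Fr : FR L) (κ : ZMod p) (A : Kˣ) (Q₁ Q₂ : Finset (Pl K))
    (G : Pl K → Pl K → ℂ) : Prop where
  d : ∀ a ∈ Q₁, ∀ b ∈ Q₂, a = b → G a b = 0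
  un : ∀ a ∈ Q₁, ∀ b ∈ Q₂, G a b ≠ 0 → ‖G a b‖ = 1
  n1 : ∀ a ∈ Q₁, ∀ a' ∈ Q₁, ∀ b ∈ Q₂, a' ≠ b →
    D.LL b (D.pi a') = D.LL b (D.pi a) → G a b ≠ 0 → G a' b ≠ 0
  n2 : ∀ a ∈ Q₁, ∀ b ∈ Q₂, ∀ b' ∈ Q₂, b' ≠ a →
    D.LL b' (D.pi a) = D.LL b (D.pi a) → G a b ≠ 0 → G a b' ≠ 0
  square : ∀ a ∈ Q₁, ∀ a' ∈ Q₁, ∀ b ∈ Q₂, ∀ b' ∈ Q₂, a ≠ a' → b ≠ b' →
    (∀ x ∈ ({a, a'} : Finset (Pl K)), ∀ y ∈ ({b, b'} : Finset (Pl K)),
      x ≠ y ∧ D.LL y (D.pi x) = D.LL b (D.pi a)) →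
    G a b ≠ 0 → ∀ Y, Rho L (D.pi a / D.pi a') A Y →
    G a b * conj (G a' b) * conj (G a b' * conj (G a' b')) =
      ep p (κ * (Y (Fr.F b) - Y (Fr.F b')))

section conf

variable {m l w N : ℕ} {P R : Type} [Group P] [Group R]

/-- the image of the label in `U` -/
def sg (Dg : GP p m l w N P R) (σ : Pl K → R) (v : Pl K) : Fin m → ZMod p :=
  Multiplicative.toAdd (Dg.π (σ v))

/-- the Kummer generators attached to a labelled set of primes -/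
def ak (D : RD0 K p ζ) (b : Fin m → Kˣ) (n : Finset (Pl K)) (s : Pl K → Fin m → ZMod p) (k : Fin m) :
    Kˣ := b k * ∏ v ∈ n, D.pi v ^ (s v k).val

/-- the homomorphisms with given inertia values -/
def XS {D : RD0 K p ζ} (L : LDs D Ω) (Dg : GP p m l w N P R) (b : Fin m → Kˣ) (E : Finset (Pl K))
    (ε : Pl K → Gal(Ω/K) → R) (n : Finset (Pl K)) (σ : Pl K → R) : Set (Gal(Ω/K) →* R) :=
  {ρ | H38.ML.FT ρ ∧
    (∀ (g : Gal(Ω/K)) k, kk p ζ (ak D b n (sg Dg σ) k) g = Multiplicative.toAdd (Dg.π (ρ g)) k) ∧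
    (∀ v ∈ n, ρ (L.t v) = σ v ∧ ∀ τ ∈ inr L v, ρ τ ^ p = 1) ∧
    (∀ v ∈ E, ∀ τ ∈ inr L v, ρ τ = ε v τ) ∧
    ∀ v, v ∉ D.S0 → v ∉ E → v ∉ n → ∀ τ ∈ inr L v, ρ τ = 1}

/-- the homomorphisms to `V`, unramified outside `S0` -/
def H1 {D : RD0 K p ζ} (L : LDs D Ω) (Dg : GP p m l w N P R) : Set (Gal(Ω/K) →* R) :=
  {h | H38.ML.FT h ∧ (∀ g, Dg.π (h g) = 1) ∧ ∀ v, v ∉ D.S0 → ∀ τ ∈ inr L v, h τ = 1}

/-- the phase -/
def EE {D : RD0 K p ζ} {L : LDs D Ω} (Dg : GP p m l w N P R) (Fr : FR L) (n : Finset (Pl K))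
    (ψ : Pl K → Fin w → ZMod p) (ρ : Gal(Ω/K) →* R) : ZMod p :=
  ∑ v ∈ n, dt (ψ v) (cq Dg Fr ρ v)

/-- the phase is invariant under `H1` -/
def HI {D : RD0 K p ζ} {L : LDs D Ω} (Dg : GP p m l w N P R) (Fr : FR L) (n : Finset (Pl K))
    (σ : Pl K → R) (ψ : Pl K → Fin w → ZMod p) : Prop :=
  ∀ h ∈ H1 L Dg, ∑ v ∈ n, dt (ψ v) (Dg.β (fun j => Dg.cv j (h (Fr.F v))) (sg Dg σ v)) = 0

/-- `0`, or the common value of `ep (EE ρ)`, `ρ ∈ XS` -/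
def FF {D : RD0 K p ζ} {L : LDs D Ω} (Dg : GP p m l w N P R) (Fr : FR L) (b : Fin m → Kˣ)
    (E : Finset (Pl K)) (ε : Pl K → Gal(Ω/K) → R) (n : Finset (Pl K)) (σ : Pl K → R)
    (ψ : Pl K → Fin w → ZMod p) : ℂ :=
  if h : HI Dg Fr n σ ψ ∧ ∃ ρ, ρ ∈ XS L Dg b E ε n σ then ep p (EE Dg Fr n ψ h.2.choose) else 0

end conf

end H51.CUB
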