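import Pool.Agent.H51.CUB.FNA
import Pool.Agent.H51.CUB.CLM

/-!
[H51 CUB FN3]  `lllU`, `lls_mainU` (120-180 lines). PROOF.

`x = log (log Y)`; take `Y₀` large enough for the finitely many inequalities in `x` below.
* `th3_ne`: `Th3 a₁ a₂ a₃ ≠ 0` implies that `a₁, a₂, a₃` are distinct: if two are equal it is `0` (`kV_self`, `kV_swap`, `β`, `dt` linear).
* `lllU_p`: `c, C, k` from `bxs3`; `fna` with `r = 3`, `τ = ![a₁, a₂, a₃]`; `hbox` is `bxs3`.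
* `lls_mainU_p`: `c, C, k` from `bxs2m`; `fna` with `r = 2`, `τ = ![a₁, a₂]`; `a₁ ≠ a₂` since `kV s s = 0`. `T.lo (a_i) ≥ z ^ (x ^ 2) ≥ exp (x ^ 4) ^ (x ^ 2) = exp (x ^ 6) ≥ exp (x ^ 5)` for `x ≥ 1`. `hbox`: `bxs2m`: (i) the functionals of `a₁, a₂` kill `[V, s]`. (ii) `ω (spt g' ∪ image τ) ≠ 0` gives
`a₀ ∈ spt g' ∪ {a₁, a₂}`, and `a₀ ≠ a₁, a₂` (their functionals kill everything), so there is `v ∈ g' a₀`, `nv (kV s_a₂ s_a₁) v = dt (T.psi a₀) (β (kV s_a₂ s_a₁) s_a₀) = - (..) ≠ 0` (`psv_eq`, `sv_eq`, `kV_swap`). (iii) for `v ∈ g' a` with `nv .. v ≠ 0` the functional of `a` does not kill `[V, s_a]`, so `nm v ≤ T.hi a ≤ z`; so `nr (filter ..) ≤ z ^ #(un g') ≤ z ^ (A' x)`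
(`z ≥ 1`; `#(un g') ≤ ∑ #(g' a)`) and `z ^ (A' x) ≤ z ^ (x ^ 2) / 2 ≤ T.lo (τ i) / 2 ≤ Z i` if `x ≥ A' + 1` (`z ^ (x ^ 2 - A' x) ≥ z ^ x ≥ z ≥ 2`).
-/

set_option autoImplicit false

open scoped NumberField
open IsDedekindDomain
open scoped Classical

noncomputable section

namespace H51.CUB

open H63.MA H38.BB H38.BG H57.PC H77.PC3 H57.BRA

variable {K : Type} [Field K] [NumberField K] {p : ℕ} {ζ : K} {Ω : Type} [Field Ω] [Algebra K Ω]
  [IsAlgClosure K Ω] {m l w N : ℕ} {P R : Type} [Group P] [Group R]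

private theorem fn3_neg {n : ℕ} (θ x : Fin n → ZMod p) : dt θ (-x) = -dt θ x := by
  unfold dt
  rw [← Finset.sum_neg_distrib]
  exact Finset.sum_congr rfl fun k _ => by rw [Pi.neg_apply, mul_neg]

private theorem fn3_zero {n : ℕ} (θ : Fin n → ZMod p) : dt θ 0 = 0 := by
  unfold dt
  exact Finset.sum_eq_zero fun k _ => by rw [Pi.zero_apply, mul_zero]

private theorem fn3_self (Dg : GP p m l w N P R) (θ : Fin w → ZMod p) (x y : Fin m → ZMod p) :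
    dt θ (Dg.β (Dg.kV x x) y) = 0 := by
  rw [kV_self, map_zero, LinearMap.zero_apply, fn3_zero]

private theorem fn3_swap (Dg : GP p m l w N P R) (θ : Fin w → ZMod p) (x x' y : Fin m → ZMod p) :
    dt θ (Dg.β (Dg.kV x x') y) = -dt θ (Dg.β (Dg.kV x' x) y) := by
  rw [kV_swap, map_neg, LinearMap.neg_apply, fn3_neg]

theorem th3_ne [NeZero p] (Dg : GP p m l w N P R) {J : Type} (T : TY N w p J) {a₁ a₂ a₃ : J}
    (h : Th3 Dg T a₁ a₂ a₃ ≠ 0) : Function.Injective ![a₁, a₂, a₃] := by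
  have h12 : a₁ ≠ a₂ := by
    intro e
    apply h
    unfold Th3
    rw [e, fn3_self, add_zero, fn3_swap]
    exact neg_add_cancel _
  have h13 : a₁ ≠ a₃ := by
    intro e
    apply h
    unfold Th3
    rw [e, fn3_self, add_zero, fn3_swap]
    exact neg_add_cancel _
  have h23 : a₂ ≠ a₃ := by
    intro e
    apply h
    unfold Th3
    rw [e, fn3_self, zero_add, fn3_swap]
    exact neg_add_cancel _
  intro i j hij
  fin_cases i <;> fin_cases j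
  · rfl
  · exact absurd hij h12
  · exact absurd hij h13
  · exact absurd hij.symm h12
  · rfl
  · exact absurd hij h23
  · exact absurd hij.symm h13
  · exact absurd hij.symm h23
  · rfl

theorem lllU_p [NeZero p] [Finite P] [Finite R] (hp : p.Prime) (hp2 : MOne p K)
    (hζ : IsPrimitiveRoot ζ p) (hz : Z2 p K) (D : RD K p ζ) (L : LDs D.toRD0 Ω) (Fr : FR L)
    (Dg : GP p m l w N P R) (J : Type) [Fintype J] (M A : ℝ) :
    ∃ C Y₀ : ℝ, 0 < C ∧ 3 ≤ Y₀ ∧ ∀ Y : ℝ, Y₀ ≤ Y → ∀ (E : Finset (Pl K)) (b : Fin m → Kˣ),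
      BS2 D.toRD0 b E → nr E ≤ Real.exp (Real.log (Real.log Y) ^ 4) →
      ∀ (ε : Pl K → Gal(Ω/K) → R) (T : TY N w p J), (∀ a, 0 ≤ T.wt a ∧ T.wt a ≤ M) →
      ∀ (u : J → Pl K → ZMod p) (lam : J → J → ZMod p) (ω : Finset J → ℂ), (∀ S, ‖ω S‖ ≤ 1) → ∀ a₁ a₂ a₃ : J,
        Th3 Dg T a₁ a₂ a₃ ≠ 0 →
        (∀ a ∈ ({a₁, a₂, a₃} : Finset J), Real.exp (Real.log (Real.log Y) ^ 5) ≤ T.lo a) →
        (∀ S, ω S ≠ 0 → a₁ ∈ S ∧ a₂ ∈ S ∧ a₃ ∈ S) →
        ‖TSU Dg Fr T b E ε u lam ω Y‖ ≤ C * Y * Real.log Y ^ (-A) := by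
  obtain ⟨c, C, k, hc, hC, hb⟩ := bxs3 hp hp2 hζ hz D L Fr Dg J
  obtain ⟨C', A', Y₀, hC', hA', hY₀, hf⟩ := fna hp hζ D L Fr Dg J 3 M A c C k hc hC
  refine ⟨C', Y₀, hC', hY₀, ?_⟩
  intro Y hY E b hBS hE ε T hwt u lam ω hω a₁ a₂ a₃ hth hlo hS
  refine hf Y hY E b hBS hE ε T hwt u lam ω hω ![a₁, a₂, a₃] (th3_ne Dg T hth) ?_ ?_ ?_
  · intro S hS0 i
    obtain ⟨h1, h2, h3⟩ := hS S hS0
    fin_cases i
    · exact h1
    · exact h2
    · exact h3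
  · intro i
    fin_cases i
    · exact hlo a₁ (by simp)
    · exact hlo a₂ (by simp)
    · exact hlo a₃ (by simp)
  · intro g' _ _ _ _ Z Q hQ _ _
    exact hb E b hBS ε T u lam ![a₁, a₂, a₃] hth g' _ Z Q hQ

private theorem fn3_nr {z : ℝ} (_hz : 1 ≤ z) (n : Finset (Pl K)) (h : ∀ v ∈ n, (nm v : ℝ) ≤ z) :
    nr n ≤ z ^ n.card := by
  unfold nr
  calc ∏ v ∈ n, (nm v : ℝ) ≤ ∏ _v ∈ n, z :=
        Finset.prod_le_prod (fun v _ => Nat.cast_nonneg _) h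
    _ = z ^ n.card := by rw [Finset.prod_const]

theorem lls_mainU_p [NeZero p] [Finite P] [Finite R] (hp : p.Prime) (hp2 : MOne p K)
    (hζ : IsPrimitiveRoot ζ p) (hz : Z2 p K) (D : RD K p ζ) (L : LDs D.toRD0 Ω) (Fr : FR L)
    (Dg : GP p m l w N P R) (J : Type) [Fintype J] (M A : ℝ) :
    ∃ C Y₀ : ℝ, 0 < C ∧ 3 ≤ Y₀ ∧ ∀ Y : ℝ, Y₀ ≤ Y → ∀ (E : Finset (Pl K)) (b : Fin m → Kˣ),
      BS2 D.toRD0 b E → nr E ≤ Real.exp (Real.log (Real.log Y) ^ 4) →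
      ∀ (ε : Pl K → Gal(Ω/K) → R) (T : TY N w p J), (∀ a, 0 ≤ T.wt a ∧ T.wt a ≤ M) →
      ∀ (u : J → Pl K → ZMod p) (lam : J → J → ZMod p) (ω : Finset J → ℂ), (∀ S, ‖ω S‖ ≤ 1) → ∀ (z : ℝ), Real.exp (Real.log (Real.log Y) ^ 4) ≤ z →
      ∀ a₀ a₁ a₂ : J,
        (∀ a, T.hi a ≤ z ∨ ∀ (v : Fin l → ZMod p), dt (T.psi a) (Dg.β v (Dg.s (T.cls a))) = 0) →
        (∀ a ∈ ({a₁, a₂} : Finset J), ∀ (v : Fin l → ZMod p), dt (T.psi a) (Dg.β v (Dg.s (T.cls a))) = 0) →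
        (∀ a ∈ ({a₁, a₂} : Finset J), z ^ (Real.log (Real.log Y) ^ 2) ≤ T.lo a) →
        dt (T.psi a₀) (Dg.β (Dg.kV (Dg.s (T.cls a₁)) (Dg.s (T.cls a₂))) (Dg.s (T.cls a₀))) ≠ 0 →
        (∀ S, ω S ≠ 0 → a₀ ∈ S ∧ a₁ ∈ S ∧ a₂ ∈ S) →
        ‖TSU Dg Fr T b E ε u lam ω Y‖ ≤ C * Y * Real.log Y ^ (-A) := by
  obtain ⟨c, C, k, hc, hC, hb⟩ := bxs2m hp hp2 hζ hz D L Fr Dg J
  obtain ⟨C', A', Y₀, hC', hA', hY₀, hf⟩ := fna hp hζ D L Fr Dg J 2 M A c C k hc hC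
  refine ⟨C', max Y₀ (Real.exp (Real.exp (A' + 1))), hC', hY₀.trans (le_max_left _ _), ?_⟩
  intro Y hY E b hBS hE ε T hwt u lam ω hω z hz1 a₀ a₁ a₂ hlow hker hlo hne hS
  have hY1 : Y₀ ≤ Y := (le_max_left _ _).trans hY
  have hY2 : Real.exp (Real.exp (A' + 1)) ≤ Y := (le_max_right _ _).trans hY
  obtain ⟨x, hx⟩ : ∃ x : ℝ, x = Real.log (Real.log Y) := ⟨_, rfl⟩
  have hxA : A' + 1 ≤ x := by
    have h1 : Real.exp (A' + 1) ≤ Real.log Y := by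
      rw [Real.le_log_iff_exp_le ((Real.exp_pos _).trans_le hY2)]
      exact hY2
    rw [hx, Real.le_log_iff_exp_le ((Real.exp_pos _).trans_le h1)]
    exact h1
  have hx1 : 1 ≤ x := by linarith
  have hx0 : 0 ≤ x := by linarith
  rw [← hx] at hz1 hlo
  have hz2 : 2 ≤ z := by
    have h1 : (1 : ℝ) ≤ x ^ 4 := one_le_pow₀ hx1
    have h2 : Real.exp 1 ≤ Real.exp (x ^ 4) := Real.exp_le_exp.2 h1
    have h3 := Real.add_one_le_exp (1 : ℝ)
    linarith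
  have hz0 : 0 < z := by linarith
  have hz1' : 1 ≤ z := by linarith
  have ha12 : a₁ ≠ a₂ := by
    intro e
    apply hne
    rw [e, fn3_self]
  have hinj : Function.Injective ![a₁, a₂] := by
    intro i j hij
    fin_cases i <;> fin_cases j
    · rfl
    · exact absurd hij ha12
    · exact absurd hij.symm ha12
    · rfl
  have hlo' : ∀ i, z ^ (x ^ 2) ≤ T.lo (![a₁, a₂] i) := by
    intro i
    fin_cases i
    · exact hlo a₁ (by simp)
    · exact hlo a₂ (by simp)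
  have hkr : ∀ i (v : Fin l → ZMod p), dt (T.psi (![a₁, a₂] i))
      (Dg.β v (Dg.s (T.cls (![a₁, a₂] i)))) = 0 := by
    intro i
    fin_cases i
    · exact hker a₁ (by simp)
    · exact hker a₂ (by simp)
  have hz6 : Real.exp (x ^ 5) ≤ z ^ (x ^ 2) := by
    calc Real.exp (x ^ 5) ≤ Real.exp (x ^ 4 * x ^ 2) := by
          refine Real.exp_le_exp.2 ?_
          rw [← pow_add]
          exact pow_le_pow_right₀ hx1 (by norm_num)
      _ = Real.exp (x ^ 4) ^ (x ^ 2) := Real.exp_mul _ _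
      _ ≤ z ^ (x ^ 2) := Real.rpow_le_rpow (Real.exp_pos _).le hz1 (by positivity)
  refine hf Y hY1 E b hBS hE ε T hwt u lam ω hω ![a₁, a₂] hinj ?_ ?_ ?_
  · intro S hS0 i
    obtain ⟨-, h1, h2⟩ := hS S hS0
    fin_cases i
    · exact h1
    · exact h2
  · intro i
    rw [← hx]
    exact hz6.trans (hlo' i)
  · intro g' hw _ hcard hω0 Z Q hQ hTZ _
    rw [← hx] at hcard hQ ⊢
    have hnv : ∀ a, ∀ v ∈ g' a, nv Dg T g' (Dg.kV (Dg.s (T.cls (![a₁, a₂] 1)))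
        (Dg.s (T.cls (![a₁, a₂] 0)))) v =
        dt (T.psi a) (Dg.β (Dg.kV (Dg.s (T.cls a₂)) (Dg.s (T.cls a₁))) (Dg.s (T.cls a))) := by
      intro a v hv
      unfold nv
      rw [psv_eq T hQ.dj hv, sv_eq Dg T hQ.dj hv]
      rfl
    refine hb E b hBS ε T u lam ![a₁, a₂] hkr g' _ Z Q hQ ?_ ?_
    · obtain ⟨h0, -, -⟩ := hS _ hω0
      rcases Finset.mem_union.1 h0 with h0 | h0
      · have h1 : g' a₀ ≠ ∅ := (Finset.mem_filter.1 h0).2
        obtain ⟨v, hv⟩ := Finset.nonempty_iff_ne_empty.2 h1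
        refine ⟨v, Finset.mem_biUnion.2 ⟨a₀, Finset.mem_univ _, hv⟩, ?_⟩
        rw [hnv a₀ v hv, fn3_swap]
        exact neg_ne_zero.2 hne
      · obtain ⟨i, -, hi⟩ := Finset.mem_image.1 h0
        exfalso
        apply hne
        rw [← hi]
        exact hkr i _
    · intro i
      have h1 : ∀ v ∈ (un g').filter (fun v => nv Dg T g' (Dg.kV (Dg.s (T.cls (![a₁, a₂] 1)))
          (Dg.s (T.cls (![a₁, a₂] 0)))) v ≠ 0), (nm v : ℝ) ≤ z := by
        intro v hv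
        obtain ⟨hv1, hv2⟩ := Finset.mem_filter.1 hv
        obtain ⟨a, -, ha⟩ := Finset.mem_biUnion.1 hv1
        rw [hnv a v ha] at hv2
        rcases hlow a with h2 | h2
        · exact (hw a v ha).2.trans h2
        · exact absurd (h2 _) hv2
      have h2 : ((un g').filter (fun v => nv Dg T g' (Dg.kV (Dg.s (T.cls (![a₁, a₂] 1)))
          (Dg.s (T.cls (![a₁, a₂] 0)))) v ≠ 0)).card ≤ ∑ a, (g' a).card :=
        (Finset.card_filter_le _ _).trans Finset.card_biUnion_le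
      have h3 : z ^ (A' * x) * 2 ≤ z ^ (x ^ 2) := by
        have h4 : (1 : ℝ) ≤ x ^ 2 - A' * x := by
          have h5 : x ≤ x ^ 2 - A' * x := by
            have h6 := mul_le_mul_of_nonneg_right hxA hx0
            nlinarith
          linarith
        have h5 : z ^ (x ^ 2) = z ^ (A' * x) * z ^ (x ^ 2 - A' * x) := by
          rw [← Real.rpow_add hz0]
          congr 1
          ring
        rw [h5]
        refine mul_le_mul_of_nonneg_left ?_ (by positivity)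
        calc (2 : ℝ) ≤ z := hz2
          _ = z ^ (1 : ℝ) := (Real.rpow_one z).symm
          _ ≤ z ^ (x ^ 2 - A' * x) := Real.rpow_le_rpow_of_exponent_le hz1' h4
      have h4 : z ^ (∑ a, (g' a).card) ≤ z ^ (A' * x) := by
        rw [← Real.rpow_natCast]
        exact Real.rpow_le_rpow_of_exponent_le hz1' hcard
      have h5 := hlo' i
      have h6 := hTZ i
      have h7 := (fn3_nr hz1' _ h1).trans (pow_le_pow_right₀ hz1' h2)
      linarith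

end H51.CUB
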