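import Pool.Agent.H51.CUB.FNA
import Pool.Agent.H51.CUB.CLS

/-!
[H51 CUB FNS]  `lls_sub` (120-170 lines). PROOF.

`x = log (log Y)`; `tsu_zero`: `TS = TSU` with `u = 0`, `lam = 0`. `c, C, k` from `bxs2s`; `fna` with `r = 2`, `τ = ![a₁, a₂]` (`a₁ ≠ a₂` because `th1 a₁ a₂ ≠ th1 a₂ a₁`). `T.lo (a_i) ≥ exp (x ^ 6) ≥ exp (x ^ 5)` for `x ≥ 1`. `hbox` from `bxs2s`:
* `kV s_a₂ s_a₁ = - kV s_a₁ s_a₂` (`kV_swap`) for the first hypothesis.
* `cta Dg T τ k = th1 Dg T a₂ a₁ e_k - th1 Dg T a₁ a₂ e_k`, so `∑ k, cta k * u k = th1 a₂ a₁ u - th1 a₁ a₂ u` (`tta_apply`), so `cta ≠ 0`. It vanishes at `s_a₁` and `s_a₂`: `th1 a₂ a₁ (s_a₁) = 0` (`kV_self`), `th1 a₁ a₂ (s_a₁) = dt (psi a₁) (β (kV s_a₂ s_a₁) s_a₁) = 0` (hypothesis), and in the same way for `s_a₂`.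
* `Ac .. cta` is not a `p`-th power (`ac_np`): the spanning condition `SpR Dg.cr b (clf T (addr g' τ q))` (choose any `q ∈ ∏ Q i`; if `∏ Q i` is empty the sum is `0`) for `θ = cta`: either some `i` with `clf T (addr ..) i ≠ ∅` and `dt θ (Dg.s i) ≠ 0`: there is `v` in `clf .. i`; it is not one of the added primes (`θ` vanishes at their classes), so
`v ∈ g' a`, `T.cls a = i`, and `ord v (Ac ..) = ∑ k, θ k * s_v k ≠ 0` (mod `p`; `ac_ord`, `ak_ord`, `sv_eq`), so `Ac` is not a `p`-th power. Or `bp b θ` is not a `p`-th power and all `dt θ (sv v) = 0`, `v ∈ un g'`: `Ac = ∏ k, b k ^ (θ k).val * ∏ v ∈ un g', pi v ^ (∑ k, (θ k).val * (sv v k).val)` and the exponents are divisible by `p`: `Ac = bp b θ * (p-th power)`.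
* `nr (filter ∪ E) ≤ nr (filter) * nr E`; for `v ∈ g' a` in the filter `th1 a₂ a₁ (s_a) ≠ th1 a₁ a₂ (s_a)`, so `nm v ≤ T.hi a ≤ z`: `≤ z ^ (A' x) * exp (x ^ 4) ≤ z ^ (A' x + 1) ≤ z ^ (x ^ 2) / 2 ≤ T.lo (τ i) / 2 ≤ Z i` for large `x`.
-/

set_option autoImplicit false

open scoped NumberField
open IsDedekindDomain
open scoped Classical

noncomputable section

namespace H51.CUB

open H63.MA H38.BB H38.BG H57.PC H77.PC3 H57.BRA

variable {K : Type} [Field K] [NumberField K] {p : ℕ} {ζ : K} {Ω : Type} [Field Ω] [Algebra K Ω]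
  [IsAlgClosure K Ω] {m l w N : ℕ} {P R : Type} [Group P] [Group R]

theorem ac_np [NeZero p] [Finite R] (hp : p.Prime) (D : RD0 K p ζ) (Dg : GP p m l w N P R) {J : Type}
    [Fintype J] (T : TY N w p J) (b : Fin m → Kˣ) (E : Finset (Pl K)) {g : J → Finset (Pl K)}
    (hg : Dj g) (hB : Bse D b E (un g)) {r : ℕ} (τ : Fin r → J) (q : Fin r → Pl K)
    (hS : SpR Dg.cr b (clf T (addr g τ q))) (θ : Fin m → ZMod p) (h0 : θ ≠ 0)
    (hθ : ∀ i, dt θ (Dg.s (T.cls (τ i))) = 0) : ¬ IsPow p (Ac D b (un g) (sv Dg T g) θ) := by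
  rintro ⟨y, hy⟩
  have hord : ∀ v ∈ un g, dt θ (sv Dg T g v) = 0 := by
    intro v hv
    have h1 := ac_ord D b (un g) (sv Dg T g) θ v
    rw [← hy, ord_pow, Int.cast_mul, Int.cast_natCast, ZMod.natCast_self, zero_mul] at h1
    unfold dt
    rw [h1]
    refine Finset.sum_congr rfl fun k _ => ?_
    rw [ak_ord D hB (sv Dg T g) k v (hB.gn v hv).1.1 (hB.gn v hv).2, if_pos hv]
  have hcr : Dg.cr.x = Dg.s := rfl
  rcases hS θ h0 with ⟨i, hi, h1⟩ | h1
  · obtain ⟨v, hv⟩ := Finset.nonempty_iff_ne_empty.2 hi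
    unfold clf at hv
    obtain ⟨a, ha, hva⟩ := Finset.mem_biUnion.1 hv
    have hai : T.cls a = i := (Finset.mem_filter.1 ha).2
    rw [mem_addr] at hva
    rw [hcr, ← hai] at h1
    rcases hva with hva | ⟨j, hj, -⟩
    · have h2 := hord v (Finset.mem_biUnion.2 ⟨a, Finset.mem_univ _, hva⟩)
      rw [sv_eq Dg T hg hva] at h2
      exact h1 h2
    · rw [← hj] at h1
      exact h1 (hθ j)
  · refine h1 ?_
    have hdiv : ∀ v ∈ un g, ∃ e : ℕ, ∑ k, (sv Dg T g v k).val * (θ k).val = p * e := by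
      intro v hv
      have h2 : ((∑ k, (sv Dg T g v k).val * (θ k).val : ℕ) : ZMod p) = 0 := by
        push_cast
        rw [← hord v hv]
        unfold dt
        refine Finset.sum_congr rfl fun k _ => ?_
        rw [ZMod.natCast_zmod_val, ZMod.natCast_zmod_val, mul_comm]
      exact (ZMod.natCast_eq_zero_iff _ _).1 h2
    choose! e he using hdiv
    have h3 : Ac D b (un g) (sv Dg T g) θ = bp b θ * (∏ v ∈ un g, D.pi v ^ e v) ^ p := by
      unfold Ac ak bp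
      simp only [mul_pow]
      rw [Finset.prod_mul_distrib]
      congr 1
      simp only [← Finset.prod_pow]
      rw [Finset.prod_comm]
      refine Finset.prod_congr rfl fun v hv => ?_
      rw [← pow_mul, mul_comm (e v) p, ← he v hv, ← Finset.prod_pow_eq_pow_sum]
      exact Finset.prod_congr rfl fun k _ => (pow_mul _ _ _).symm
    refine ⟨y * (∏ v ∈ un g, D.pi v ^ e v)⁻¹, ?_⟩
    rw [mul_pow, hy, h3, inv_pow, mul_inv_cancel_right]

theorem lls_sub_p [NeZero p] [Finite P] [Finite R] (hp : p.Prime) (hp2 : MOne p K)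
    (hζ : IsPrimitiveRoot ζ p) (hz : Z2 p K) (D : RD K p ζ) (L : LDs D.toRD0 Ω) (Fr : FR L)
    (Dg : GP p m l w N P R) (J : Type) [Fintype J] (M A : ℝ) :
    ∃ C Y₀ : ℝ, 0 < C ∧ 3 ≤ Y₀ ∧ ∀ Y : ℝ, Y₀ ≤ Y → ∀ (E : Finset (Pl K)) (b : Fin m → Kˣ),
      BS2 D.toRD0 b E → nr E ≤ Real.exp (Real.log (Real.log Y) ^ 4) →
      ∀ (ε : Pl K → Gal(Ω/K) → R) (T : TY N w p J), (∀ a, 0 ≤ T.wt a ∧ T.wt a ≤ M) →
      ∀ (ω : Finset J → ℂ), (∀ S, ‖ω S‖ ≤ 1) → ∀ (z : ℝ), Real.exp (Real.log (Real.log Y) ^ 4) ≤ z →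
      ∀ a₁ a₂ : J,
        (∀ a, dt (T.psi a) (Dg.β (Dg.kV (Dg.s (T.cls a₁)) (Dg.s (T.cls a₂))) (Dg.s (T.cls a))) = 0) →
        (∀ a, T.hi a ≤ z ∨
          (th1 Dg T a₁ a₂ (Dg.s (T.cls a)) = 0 ∧ th1 Dg T a₂ a₁ (Dg.s (T.cls a)) = 0)) →
        (∀ a ∈ ({a₁, a₂} : Finset J), z ^ (Real.log (Real.log Y) ^ 2) ≤ T.lo a) →
        th1 Dg T a₁ a₂ ≠ th1 Dg T a₂ a₁ →
        (∀ S, ω S ≠ 0 → a₁ ∈ S ∧ a₂ ∈ S) →
        ‖TS Dg Fr T b E ε ω Y‖ ≤ C * Y * Real.log Y ^ (-A) := by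
  obtain ⟨c, C, k, hc, hC, H⟩ := bxs2s hp hp2 hζ hz D L Fr Dg J
  obtain ⟨C', A', Y₁, hC', hA', hY₁, F⟩ := fna hp hζ D L Fr Dg J 2 M A c C k hc hC
  refine ⟨C', max Y₁ (Real.exp (Real.exp (A' + 2))), hC', le_trans hY₁ (le_max_left _ _),
    fun Y hY E b hb hE ε T hT ω hω z hz' a₁ a₂ hk hhi hlo hne hS => ?_⟩
  have hYa : Y₁ ≤ Y := le_trans (le_max_left _ _) hY
  have hYb : Real.exp (Real.exp (A' + 2)) ≤ Y := le_trans (le_max_right _ _) hY
  have hY0 : 0 < Y := lt_of_lt_of_le (Real.exp_pos _) hYb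
  have hl1 : Real.exp (A' + 2) ≤ Real.log Y := (Real.le_log_iff_exp_le hY0).2 hYb
  have hl0 : 0 < Real.log Y := lt_of_lt_of_le (Real.exp_pos _) hl1
  have hx : A' + 2 ≤ Real.log (Real.log Y) := (Real.le_log_iff_exp_le hl0).2 hl1
  obtain ⟨x, hxd⟩ : ∃ x, x = Real.log (Real.log Y) := ⟨_, rfl⟩
  have F1 := F Y hYa E b hb
  rw [← hxd] at hx hE hz' hlo F1
  have hx1 : 1 ≤ x := by linarith
  have hx0 : 0 ≤ x := by linarith
  have hz1 : Real.exp 1 ≤ z :=
    le_trans (Real.exp_le_exp.2 (one_le_pow₀ hx1)) hz'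
  have hz2 : 2 ≤ z := by
    have := Real.add_one_le_exp (1 : ℝ)
    linarith
  have hz0 : 0 < z := by linarith
  have hzone : 1 ≤ z := by linarith
  have hne12 : a₁ ≠ a₂ := by
    rintro rfl
    exact hne rfl
  -- the functional
  have hct : ∀ u, ∑ k, cta Dg T ![a₁, a₂] k * u k = th1 Dg T a₂ a₁ u - th1 Dg T a₁ a₂ u := by
    intro u
    unfold cta
    simp only [Pi.sub_apply, sub_mul]
    rw [Finset.sum_sub_distrib, tta_apply, tta_apply]
    rfl
  have hself : ∀ a b : J, th1 Dg T a b (Dg.s (T.cls b)) = 0 := by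
    intro a b
    unfold th1
    rw [kV_self, map_zero, LinearMap.zero_apply]
    unfold dt
    exact Finset.sum_eq_zero fun k _ => by rw [Pi.zero_apply, mul_zero]
  have hneg : ∀ (φ : Fin w → ZMod p) (x : Fin w → ZMod p), dt φ (-x) = - dt φ x := by
    intro φ x
    unfold dt
    rw [← Finset.sum_neg_distrib]
    exact Finset.sum_congr rfl fun k _ => by rw [Pi.neg_apply, mul_neg]
  have hk' : ∀ a, dt (T.psi a) (Dg.β (Dg.kV (Dg.s (T.cls a₂)) (Dg.s (T.cls a₁)))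
      (Dg.s (T.cls a))) = 0 := by
    intro a
    rw [kV_swap, map_neg, LinearMap.neg_apply, hneg, hk a, neg_zero]
  have hc0 : cta Dg T ![a₁, a₂] ≠ 0 := by
    intro h
    refine hne (funext fun u => ?_)
    have h1 := hct u
    rw [h] at h1
    simp only [Pi.zero_apply, zero_mul, Finset.sum_const_zero] at h1
    exact (sub_eq_zero.1 h1.symm).symm
  have hcθ : ∀ i, dt (cta Dg T ![a₁, a₂]) (Dg.s (T.cls ((![a₁, a₂] : Fin 2 → J) i))) = 0 := by
    intro i
    have h1 : dt (cta Dg T ![a₁, a₂]) (Dg.s (T.cls a₁)) = 0 := by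
      unfold dt
      rw [hct, hself]
      unfold th1
      rw [hk', sub_zero]
    have h2 : dt (cta Dg T ![a₁, a₂]) (Dg.s (T.cls a₂)) = 0 := by
      unfold dt
      rw [hct, hself]
      unfold th1
      rw [hk, sub_zero]
    fin_cases i
    · exact h1
    · exact h2
  have hlo1 : z ^ (x ^ 2) ≤ T.lo a₁ := hlo a₁ (by simp)
  have hlo2 : z ^ (x ^ 2) ≤ T.lo a₂ := hlo a₂ (by simp)
  have hlo' : ∀ i, z ^ (x ^ 2) ≤ T.lo ((![a₁, a₂] : Fin 2 → J) i) := by
    intro i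
    fin_cases i
    · exact hlo1
    · exact hlo2
  have hz6 : Real.exp (x ^ 5) ≤ z ^ (x ^ 2) := by
    have h1 : Real.exp (x ^ 4) ^ (x ^ 2) ≤ z ^ (x ^ 2) :=
      Real.rpow_le_rpow (Real.exp_pos _).le hz' (by positivity)
    rw [← Real.exp_mul] at h1
    refine le_trans (Real.exp_le_exp.2 ?_) h1
    rw [← pow_add]
    exact pow_le_pow_right₀ hx1 (by norm_num)
  rw [← tsu_zero]
  refine F1 hE ε T hT _ _ ω hω ![a₁, a₂] ?_ ?_ ?_ ?_
  · intro i j hij
    fin_cases i <;> fin_cases j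
    · rfl
    · exact absurd hij hne12
    · exact absurd hij.symm hne12
    · rfl
  · intro S h i
    fin_cases i
    · exact (hS S h).1
    · exact (hS S h).2
  · intro i
    exact hz6.trans (hlo' i)
  · intro g' hwin _ hcard _ Z Q hBx hZ hSp
    have hZ0 : ∀ i, 2 ≤ Z i := fun i => hBx.t2.trans (hBx.tz i)
    by_cases hemp : ∃ q, q ∈ Fintype.piFinset Q
    swap
    · rw [Finset.eq_empty_iff_forall_notMem.2 fun q hq => hemp ⟨q, hq⟩, Finset.sum_empty,
        norm_zero]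
      have h1 : 0 ≤ ∏ i, Z i := Finset.prod_nonneg fun i _ => by linarith [hZ0 i]
      have h2 : 0 ≤ ∑ i, Real.log (Z i) :=
        Finset.sum_nonneg fun i _ => Real.log_nonneg (by linarith [hZ0 i])
      positivity
    obtain ⟨q, hq⟩ := hemp
    have hB : Bse D.toRD0 b E (un g') := ⟨fun v hv => by
      obtain ⟨a, -, ha⟩ := Finset.mem_biUnion.1 hv
      exact hBx.gd a v ha, hb⟩
    have hnp := ac_np hp D.toRD0 Dg T b E hBx.dj hB ![a₁, a₂] q (hSp q hq)
      (cta Dg T ![a₁, a₂]) hc0 hcθ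
    refine H E b hb ε T _ _ ![a₁, a₂] hk' g' _ Z Q hBx hnp fun i => ?_
    obtain ⟨G, hG⟩ : ∃ G, G = (un g').filter
      (fun v => ∑ k, cta Dg T ![a₁, a₂] k * sv Dg T g' v k ≠ 0) := ⟨_, rfl⟩
    rw [← hG]
    have hGu : G ⊆ un g' := by
      rw [hG]
      exact Finset.filter_subset _ _
    have hGE : Disjoint G E := by
      rw [Finset.disjoint_left]
      exact fun v hv => (hB.gn v (hGu hv)).2
    have hGz : ∀ v ∈ G, (nm v : ℝ) ≤ z := by
      intro v hv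
      rw [hG, Finset.mem_filter] at hv
      obtain ⟨a, -, ha⟩ := Finset.mem_biUnion.1 hv.1
      have h1 := hv.2
      rw [sv_eq Dg T hBx.dj ha, hct] at h1
      rcases hhi a with h2 | ⟨h2, h3⟩
      · exact ((hwin a v ha).2).trans h2
      · exact absurd (by rw [h2, h3, sub_zero]) h1
    have hGc : (G.card : ℝ) ≤ A' * x := by
      refine le_trans ?_ hcard
      have h1 : G.card ≤ ∑ a, (g' a).card :=
        (Finset.card_le_card hGu).trans Finset.card_biUnion_le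
      exact_mod_cast h1
    have h1 : nr G ≤ z ^ (A' * x) := by
      have h2 : nr G ≤ z ^ G.card := by
        unfold nr
        rw [← Finset.prod_const]
        exact Finset.prod_le_prod (fun v _ => Nat.cast_nonneg _) hGz
      rw [← Real.rpow_natCast] at h2
      exact h2.trans (Real.rpow_le_rpow_of_exponent_le hzone hGc)
    have h2 : nr (G ∪ E) ≤ z ^ (A' * x) * z := by
      rw [nr_union hGE]
      exact mul_le_mul h1 (hE.trans hz') (by linarith [one_le_nr E]) (by positivity)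
    have h3 : z ^ (A' * x) * z * 2 ≤ z ^ (x ^ 2) := by
      have h4 : z ^ (A' * x) * z * z ≤ z ^ (x ^ 2) := by
        have h5 : z ^ (A' * x) * z * z = z ^ (A' * x + 2) := by
          rw [Real.rpow_add hz0, Real.rpow_two]
          ring
        rw [h5]
        refine Real.rpow_le_rpow_of_exponent_le hzone ?_
        nlinarith
      have h6 : 0 ≤ z ^ (A' * x) * z := by positivity
      nlinarith
    have h4 := hZ i
    have h5 := hlo' i
    linarith

end H51.CUB
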