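import Pool.Agent.H51.CUB.ACC

/-!
[H51 CUB LBA]  Changing a label by an element of `V` (150-200 lines). PROOF.

`vf_lab`: if `q` is not injective or meets `n`, both sides are `0`. `pu (τ i * t) = pu (τ i)`, so `HI` is the same for both labels (`hi_congr` does not apply; `sg` of the two labellings are equal functions).
Let `ρ ∈ XS (vn n q) (vs σ q τ)`. `χ = kch ζ Ω Dg (fun k => D.pi (q i) ^ (Dg.cv k t).val)` (`H77/PC3/CTw`), `ρ' = tw Dg χ ρ _`: `ρ' g = χ g * ρ g`, `cv k (χ g) = cv k t * kk (pi (q i)) g` (`kch_cv`, `kk_zpow_arg`). `χ (L.t v) = vof (ord v ..) = t` if `v = q i` (`kch_t`, `D.pi_self`, `vof_of`), `χ = 1` on `inr L v` if `v ≠ q i`, `v ∉ S0` (`kch_inr`, `D.pi_ne`).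
So `ρ' ∈ XS (vn n q) (vs σ q (update τ i (τ i * t)))`: Kummer data unchanged, at `q i`: `t` is central (`vcen`), `(χ τ' * ρ τ') ^ p = 1` (`v_pow`, central). PHASE: `v ≠ q i`: `cm_v` (`ρ (F v)`, `ρ (L.t v)` commute by `xs_com`): the change is `β (cv (χ (F v))) (s v)`, `cv k (χ (F v)) = cv k t * LL v (pi (q i))` (`Fr.kf`).
`v = q i`: `LL v (pi v) = 0` (`ll_self`), so `χ (F v) = 1` and `cm_b` gives the change `- β (cv t) (pu (ρ (F v)))`, `pu (ρ (F (q i)))` by `pu_Fq`. The sum over `vn n q` splits into `n` and the `q j` (`q` injective, outside `n`; `vs_q`, `vs_out`). `ff_val` for `ρ` and `ρ'`; conversely a `ρ'` gives a `ρ` with `t⁻¹`, so `XS` is empty for both or none.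
`lbs`: `x ↦ x * t` is injective and maps `C` to `C`, so it is a bijection of `C` (`Finset.sum_bij`, `Finset.surj_on_of_inj_on_of_card_le` or `Finset.sum_nbij`): `S = ∑ VF (update τ i (x * t)) = ∑ VF (update τ i x) * ep (Lam ..) = S * ep Λ₀` (`Function.update_idem`, `Function.update_self`), and `ep Λ₀ ≠ 1` for `Λ₀ ≠ 0`
(there is a lemma `ep_ne_one` or similar in `H63/MA/RayC`).
`cl_closed`: `x = c y c⁻¹`. Choose `r` with `pu r = - u` (`Dg.πs`): `r x r⁻¹ = vof (kV (- u) (pu x)) * x` (`com_r`) and `kV (- u) (pu x) = kV (pu x) u` (`kV_swap`), `vof` central.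
-/

set_option autoImplicit false

open scoped NumberField
open IsDedekindDomain
open scoped Classical

noncomputable section

namespace H51.CUB

open H63.MA H38.BB H38.BG H57.PC H77.PC3

variable {K : Type} [Field K] [NumberField K] {p : ℕ} {ζ : K} {Ω : Type} [Field Ω] [Algebra K Ω]
  {m l w N : ℕ} {P R : Type} [Group P] [Group R]

/-- the change of the phase if the label at `q i` is multiplied by `t ∈ V` -/
def Lam (D : RD0 K p ζ) (Dg : GP p m l w N P R) (b : Fin m → Kˣ) (n : Finset (Pl K)) (σ : Pl K → R)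
    (ψ : Pl K → Fin w → ZMod p) {r : ℕ} (τ : Fin r → R) (φ : Fin r → Fin w → ZMod p)
    (q : Fin r → Pl K) (i : Fin r) (t : R) : ZMod p :=
  ∑ v ∈ n, dt (ψ v) (Dg.β (fun k => Dg.cv k t) (sg Dg σ v)) * D.LL v (D.pi (q i)) +
  ∑ j, (if j = i then 0 else
    dt (φ j) (Dg.β (fun k => Dg.cv k t) (pu Dg (τ j))) * D.LL (q j) (D.pi (q i))) -
  dt (φ i) (Dg.β (fun k => Dg.cv k t) ((fun k => D.LL (q i) (ak D b n (sg Dg σ) k)) +
    ∑ j, D.LL (q i) (D.pi (q j)) • pu Dg (τ j)))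

private theorem lba_dt (θ x y : Fin w → ZMod p) : dt θ (x + y) = dt θ x + dt θ y := by
  simp only [dt, Pi.add_apply, mul_add, Finset.sum_add_distrib]

private theorem lba_sub (θ x y : Fin w → ZMod p) : dt θ (x - y) = dt θ x - dt θ y := by
  simp only [dt, Pi.sub_apply, mul_sub, Finset.sum_sub_distrib]

private theorem lba_smul (θ x : Fin w → ZMod p) (c : ZMod p) : dt θ (c • x) = dt θ x * c := by
  simp only [dt, Pi.smul_apply, smul_eq_mul, Finset.sum_mul]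
  exact Finset.sum_congr rfl fun k _ => by ring

/-- the labels away from `q i` are not changed -/
private theorem lba_vs {r : ℕ} {X : Type} (σ : Pl K → X) (q : Fin r → Pl K) (τ : Fin r → X)
    (i : Fin r) (x : X) (v : Pl K) (hv : v ≠ q i) :
    vs σ q (Function.update τ i x) v = vs σ q τ v := by
  unfold vs
  split_ifs with h
  · have h1 : h.choose ≠ i := by
      intro h2
      apply hv
      rw [← h2]
      exact h.choose_spec.symm
    rw [Function.update_of_ne h1]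
  · rfl

/-- the images in `U` are not changed -/
private theorem lba_sg (Dg : GP p m l w N P R) {r : ℕ} (σ : Pl K → R) {q : Fin r → Pl K}
    (hq : Function.Injective q) (τ : Fin r → R) (i : Fin r) (t : R) (ht : Dg.π t = 1) :
    sg Dg (vs σ q (Function.update τ i (τ i * t))) = sg Dg (vs σ q τ) := by
  funext v
  unfold sg
  by_cases hv : v = q i
  · rw [hv, vs_q σ hq, vs_q σ hq, Function.update_self, map_mul, ht, mul_one]
  · rw [lba_vs σ q τ i _ v hv]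

/-- the twisting character -/
private def lch (ζ : K) (Ω : Type) [Field Ω] [Algebra K Ω] [IsAlgClosure K Ω] (D : RD0 K p ζ)
    (Dg : GP p m l w N P R) (v : Pl K) (t : R) : Gal(Ω/K) →* R :=
  kch ζ Ω Dg fun k => D.pi v ^ (Dg.cv k t).val

private theorem lch_t [IsAlgClosure K Ω] (hp : p.Prime) (hζ : IsPrimitiveRoot ζ p) {D : RD0 K p ζ}
    (L : LDs D Ω) (Dg : GP p m l w N P R) (v : Pl K) (hv : v ∉ D.S0) (t : R) (ht : Dg.π t = 1) :
    lch ζ Ω D Dg v t (L.t v) = t := by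
  have hp0 : NeZero p := ⟨hp.ne_zero⟩
  unfold lch
  rw [kch_t hp hζ L Dg _ v hv, ← vof_of Dg t ht]
  congr 1
  funext k
  rw [ord_pow, D.pi_self v hv, mul_one, vof_cv, Int.cast_natCast, ZMod.natCast_zmod_val]

private theorem lch_inr [IsAlgClosure K Ω] [Finite R] (hp : p.Prime) (hζ : IsPrimitiveRoot ζ p)
    {D : RD0 K p ζ} (L : LDs D Ω) (Dg : GP p m l w N P R) (v : Pl K) (hv : v ∉ D.S0) (t : R)
    (u : Pl K) (hu : u ≠ v) (τ : Gal(Ω/K)) (hτ : τ ∈ inr L u) : lch ζ Ω D Dg v t τ = 1 := by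
  by_cases hu0 : u ∈ D.S0
  · have h1 : inr L u = ⊥ := dif_neg (not_not.2 hu0)
    rw [h1, Subgroup.mem_bot] at hτ
    rw [hτ, map_one]
  · unfold lch
    refine kch_inr hp hζ L Dg _ u hu0 (fun k => ?_) τ hτ
    rw [ord_pow, D.pi_ne v u hv hu0 hu, mul_zero, Int.cast_zero]

private theorem lch_cv [IsAlgClosure K Ω] (hp : p.Prime) (hζ : IsPrimitiveRoot ζ p)
    {D : RD0 K p ζ} {L : LDs D Ω} (Fr : FR L) (Dg : GP p m l w N P R) (v : Pl K)
    (t : R) (u : Pl K) (hu : u ∉ D.S0) :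
    (fun k => Dg.cv k (lch ζ Ω D Dg v t (Fr.F u))) =
      D.LL u (D.pi v) • fun k => Dg.cv k t := by
  have hp0 : NeZero p := ⟨hp.ne_zero⟩
  funext k
  unfold lch
  rw [kch_cv, ← zpow_natCast, kk_zpow_arg hp hζ, Fr.kf u hu, Int.cast_natCast,
    ZMod.natCast_zmod_val, Pi.smul_apply, smul_eq_mul, mul_comm]

private theorem lba_xs [NeZero p] [Finite R] [IsAlgClosure K Ω] (hp : p.Prime)
    (hζ : IsPrimitiveRoot ζ p) {D : RD0 K p ζ} {L : LDs D Ω} (Dg : GP p m l w N P R)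
    (b : Fin m → Kˣ) (E : Finset (Pl K)) (ε : Pl K → Gal(Ω/K) → R) (n : Finset (Pl K))
    (σ : Pl K → R) {r : ℕ} (τ : Fin r → R) (q : Fin r → Pl K)
    (hq : ∀ i, q i ∉ D.S0 ∧ q i ∉ E) (hinj : Function.Injective q) (i : Fin r)
    (t : R) (ht : Dg.π t = 1) {ρ : Gal(Ω/K) →* R} (hρ : ρ ∈ XS L Dg b E ε (vn n q) (vs σ q τ)) :
    tw Dg (lch ζ Ω D Dg (q i) t) ρ (kch_pi Dg _) ∈
      XS L Dg b E ε (vn n q) (vs σ q (Function.update τ i (τ i * t))) := by
  obtain ⟨r0, r1, r2, r3, r4⟩ := hρ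
  have hπ : ∀ g, Dg.π (lch ζ Ω D Dg (q i) t g) = 1 := kch_pi Dg _
  refine ⟨tw_ft Dg _ ρ hπ (kch_ft hp hζ Dg _) r0, fun g k => ?_, fun v hv => ⟨?_, fun τ' hτ' => ?_⟩,
    fun v hv τ' hτ' => ?_, fun v hv hvE hvn τ' hτ' => ?_⟩
  · rw [lba_sg Dg σ hinj τ i t ht, tw_apply, map_mul, hπ, one_mul]
    exact r1 g k
  · rw [tw_apply]
    by_cases hvi : v = q i
    · rw [hvi, lch_t hp hζ L Dg (q i) (hq i).1 t ht, vs_q σ hinj, Function.update_self,
        Dg.vcen t ht]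
      have h1 := (r2 v hv).1
      rw [hvi, vs_q σ hinj] at h1
      rw [h1]
    · rw [lch_inr hp hζ L Dg (q i) (hq i).1 t v hvi _ (H63.BU.uinr_t L v), one_mul,
        lba_vs σ q τ i _ v hvi]
      exact (r2 v hv).1
  · rw [tw_apply, (show Commute (lch ζ Ω D Dg (q i) t τ') (ρ τ') from
      Dg.vcen _ (hπ τ') _).mul_pow, v_pow Dg _ (hπ τ'), one_mul]
    exact (r2 v hv).2 τ' hτ'
  · rw [tw_apply, lch_inr hp hζ L Dg (q i) (hq i).1 t v
      (fun h => (hq i).2 (h ▸ hv)) τ' hτ', one_mul]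
    exact r3 v hv τ' hτ'
  · have h1 : v ≠ q i := by
      rintro rfl
      apply hvn
      unfold vn
      rw [Finset.mem_union]
      exact Or.inr (Finset.mem_image_of_mem q (Finset.mem_univ i))
    rw [tw_apply, lch_inr hp hζ L Dg (q i) (hq i).1 t v h1 τ' hτ', one_mul]
    exact r4 v hv hvE hvn τ' hτ'

private theorem lba_sum {r : ℕ} (n : Finset (Pl K)) {q : Fin r → Pl K}
    (hinj : Function.Injective q) (hn : ∀ i, q i ∉ n) (f : Pl K → ZMod p) :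
    ∑ v ∈ vn n q, f v = ∑ v ∈ n, f v + ∑ j, f (q j) := by
  unfold vn
  rw [Finset.sum_union, Finset.sum_image fun a _ b _ h => hinj h]
  rw [Finset.disjoint_left]
  intro v hv hv2
  rw [Finset.mem_image] at hv2
  obtain ⟨j, _, rfl⟩ := hv2
  exact hn j hv

private theorem lba_ee [NeZero p] [Finite R] [IsAlgClosure K Ω] (hp : p.Prime)
    (hζ : IsPrimitiveRoot ζ p) {D : RD0 K p ζ} {L : LDs D Ω} (Fr : FR L) (Dg : GP p m l w N P R)
    (b : Fin m → Kˣ) (E : Finset (Pl K)) (ε : Pl K → Gal(Ω/K) → R) (n : Finset (Pl K))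
    (σ : Pl K → R) (ψ : Pl K → Fin w → ZMod p) (hB : Bse D b E n) {r : ℕ} (τ : Fin r → R)
    (φ : Fin r → Fin w → ZMod p) (q : Fin r → Pl K)
    (hq : ∀ i, q i ∉ D.S0 ∧ q i ∉ E) (hinj : Function.Injective q) (hn : ∀ i, q i ∉ n) (i : Fin r)
    (t : R) (ht : Dg.π t = 1) {ρ : Gal(Ω/K) →* R} (hρ : ρ ∈ XS L Dg b E ε (vn n q) (vs σ q τ)) :
    EE Dg Fr (vn n q) (vs ψ q φ) (tw Dg (lch ζ Ω D Dg (q i) t) ρ (kch_pi Dg _)) =
      EE Dg Fr (vn n q) (vs ψ q φ) ρ + Lam D Dg b n σ ψ τ φ q i t := by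
  have hπ : ∀ g, Dg.π (lch ζ Ω D Dg (q i) t g) = 1 := kch_pi Dg _
  have hout : ∀ v ∈ n, ∀ j, q j ≠ v := fun v hv j h => hn j (h ▸ hv)
  have hmem : ∀ j, q j ∈ vn n q := fun j => by
    unfold vn
    rw [Finset.mem_union]
    exact Or.inr (Finset.mem_image_of_mem q (Finset.mem_univ j))
  -- the change at `v ≠ q i`
  have hch : ∀ v ∈ vn n q, v ∉ D.S0 → v ≠ q i →
      cq Dg Fr (tw Dg (lch ζ Ω D Dg (q i) t) ρ (kch_pi Dg _)) v = cq Dg Fr ρ v +
        D.LL v (D.pi (q i)) • Dg.β (fun k => Dg.cv k t) (pu Dg (vs σ q τ v)) := by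
    intro v hv hv0 hvi
    funext k
    rw [Pi.add_apply]
    unfold cq
    have h1 : lch ζ Ω D Dg (q i) t (L.t v) = 1 :=
      lch_inr hp hζ L Dg (q i) (hq i).1 t v hvi _ (H63.BU.uinr_t L v)
    have h2 : ρ (L.t v) = vs σ q τ v := (hρ.2.2.1 v hv).1
    rw [tw_apply, tw_apply, h1, h2, one_mul,
      cm_v Dg _ (ρ (Fr.F v)) (vs σ q τ v) (hπ _) (xs_com Fr Dg b E ε _ _ hρ v hv hv0) k,
      lch_cv hp hζ Fr Dg (q i) t v hv0, map_smul, LinearMap.smul_apply]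
  -- the change at `q i`
  have hchi : cq Dg Fr (tw Dg (lch ζ Ω D Dg (q i) t) ρ (kch_pi Dg _)) (q i) = cq Dg Fr ρ (q i) -
        Dg.β (fun k => Dg.cv k t) (pu Dg (ρ (Fr.F (q i)))) := by
    funext k
    rw [Pi.sub_apply]
    unfold cq
    have h2 : ρ (L.t (q i)) = τ i := by
      rw [(hρ.2.2.1 (q i) (hmem i)).1, vs_q σ hinj]
    have h3 : lch ζ Ω D Dg (q i) t (Fr.F (q i)) = 1 := by
      refine Dg.vinj _ (hπ _) fun k => ?_
      have h4 := congrFun (lch_cv hp hζ Fr Dg (q i) t (q i) (hq i).1) k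
      rw [ll_self hp hζ D (hq i).1, zero_smul] at h4
      exact h4
    have hcom := xs_com Fr Dg b E ε _ _ hρ (q i) (hmem i) (hq i).1
    rw [vs_q σ hinj] at hcom
    rw [tw_apply, tw_apply, h3, lch_t hp hζ L Dg (q i) (hq i).1 t ht, h2, one_mul,
      Dg.vcen t ht, cm_b Dg t (ρ (Fr.F (q i))) (τ i) ht hcom k]
  unfold EE
  rw [lba_sum n hinj hn, lba_sum n hinj hn]
  have hA : ∑ v ∈ n, dt (vs ψ q φ v) (cq Dg Fr (tw Dg (lch ζ Ω D Dg (q i) t) ρ (kch_pi Dg _)) v) =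
      ∑ v ∈ n, dt (vs ψ q φ v) (cq Dg Fr ρ v) +
      ∑ v ∈ n, dt (ψ v) (Dg.β (fun k => Dg.cv k t) (sg Dg σ v)) * D.LL v (D.pi (q i)) := by
    rw [← Finset.sum_add_distrib]
    refine Finset.sum_congr rfl fun v hv => ?_
    have hv2 : v ∈ vn n q := by
      unfold vn
      rw [Finset.mem_union]
      exact Or.inl hv
    rw [hch v hv2 (hB.gn v hv).1.1 (fun h => hn i (h ▸ hv)), lba_dt, lba_smul,
      vs_out ψ φ (hout v hv), vs_out σ τ (hout v hv)]
    rfl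
  have hBB : ∑ j, dt (vs ψ q φ (q j))
        (cq Dg Fr (tw Dg (lch ζ Ω D Dg (q i) t) ρ (kch_pi Dg _)) (q j)) =
      ∑ j, dt (vs ψ q φ (q j)) (cq Dg Fr ρ (q j)) +
      (∑ j, (if j = i then 0 else
        dt (φ j) (Dg.β (fun k => Dg.cv k t) (pu Dg (τ j))) * D.LL (q j) (D.pi (q i))) -
      dt (φ i) (Dg.β (fun k => Dg.cv k t) (pu Dg (ρ (Fr.F (q i)))))) := by
    have h1 : dt (φ i) (Dg.β (fun k => Dg.cv k t) (pu Dg (ρ (Fr.F (q i))))) =
        ∑ j, (if j = i then dt (φ i) (Dg.β (fun k => Dg.cv k t) (pu Dg (ρ (Fr.F (q i))))) else 0) := by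
      rw [Finset.sum_ite_eq' Finset.univ, if_pos (Finset.mem_univ _)]
    rw [h1, ← Finset.sum_sub_distrib, ← Finset.sum_add_distrib]
    refine Finset.sum_congr rfl fun j _ => ?_
    by_cases hj : j = i
    · rw [if_pos hj, if_pos hj, hj, hchi, lba_sub, vs_q ψ hinj]
      ring
    · have hne : q j ≠ q i := fun h => hj (hinj h)
      rw [if_neg hj, if_neg hj, hch (q j) (hmem j) (hq j).1 hne, lba_dt, lba_smul, vs_q ψ hinj,
        vs_q σ hinj]
      ring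
  rw [hA, hBB, pu_Fq hp hζ Fr Dg b E ε n σ τ q hinj hn hρ (q i) (hq i).1]
  unfold Lam
  ring

theorem vf_lab [NeZero p] [Finite R] [IsAlgClosure K Ω] (hp : p.Prime) (hζ : IsPrimitiveRoot ζ p)
    {D : RD0 K p ζ} {L : LDs D Ω} (Fr : FR L) (Dg : GP p m l w N P R) (b : Fin m → Kˣ)
    (E : Finset (Pl K)) (ε : Pl K → Gal(Ω/K) → R) (n : Finset (Pl K)) (σ : Pl K → R)
    (ψ : Pl K → Fin w → ZMod p) (hB : Bse D b E n) {r : ℕ} (τ : Fin r → R)
    (φ : Fin r → Fin w → ZMod p) (q : Fin r → Pl K) (hq : ∀ i, q i ∉ D.S0 ∧ q i ∉ E) (i : Fin r)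
    (t : R) (ht : Dg.π t = 1) :
    VF Dg Fr b E ε n σ ψ (Function.update τ i (τ i * t)) φ q =
      VF Dg Fr b E ε n σ ψ τ φ q * ep p (Lam D Dg b n σ ψ τ φ q i t) := by
  unfold VF
  by_cases hc : Function.Injective q ∧ ∀ i, q i ∉ n
  swap
  · rw [if_neg hc, if_neg hc, zero_mul]
  rw [if_pos hc, if_pos hc]
  obtain ⟨hinj, hn⟩ := hc
  have hn0 : ∀ v ∈ vn n q, v ∉ D.S0 := by
    intro v hv
    unfold vn at hv
    rw [Finset.mem_union, Finset.mem_image] at hv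
    rcases hv with hv | ⟨j, _, rfl⟩
    · exact (hB.gn v hv).1.1
    · exact (hq j).1
  have hsg := lba_sg Dg σ hinj τ i t ht
  have hHI : HI Dg Fr (vn n q) (vs σ q (Function.update τ i (τ i * t))) (vs ψ q φ) ↔
      HI Dg Fr (vn n q) (vs σ q τ) (vs ψ q φ) := by
    unfold HI
    rw [hsg]
  by_cases hH : HI Dg Fr (vn n q) (vs σ q τ) (vs ψ q φ) ∧
      ∃ ρ, ρ ∈ XS L Dg b E ε (vn n q) (vs σ q τ)
  · obtain ⟨hH1, ρ, hρ⟩ := hH
    rw [ff_val hp hζ Fr Dg b E ε _ _ _ hn0 hH1 hρ,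
      ff_val hp hζ Fr Dg b E ε _ _ _ hn0 (hHI.2 hH1)
        (lba_xs hp hζ Dg b E ε n σ τ q hq hinj i t ht hρ),
      lba_ee hp hζ Fr Dg b E ε n σ ψ hB τ φ q hq hinj hn i t ht hρ, ep_add hp]
  · have hH' : ¬ (HI Dg Fr (vn n q) (vs σ q (Function.update τ i (τ i * t))) (vs ψ q φ) ∧
        ∃ ρ, ρ ∈ XS L Dg b E ε (vn n q) (vs σ q (Function.update τ i (τ i * t)))) := by
      rintro ⟨h1, ρ, hρ⟩
      apply hH
      refine ⟨hHI.1 h1, ?_⟩
      have ht' : Dg.π t⁻¹ = 1 := by rw [map_inv, ht, inv_one]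
      have h2 := lba_xs hp hζ Dg b E ε n σ (Function.update τ i (τ i * t)) q hq hinj i t⁻¹ ht' hρ
      rw [Function.update_self, mul_inv_cancel_right, Function.update_idem,
        Function.update_eq_self] at h2
      exact ⟨_, h2⟩
    unfold FF
    rw [dif_neg hH, dif_neg hH', zero_mul]

theorem lbs [NeZero p] [Finite R] [IsAlgClosure K Ω] (hp : p.Prime) (hζ : IsPrimitiveRoot ζ p)
    {D : RD0 K p ζ} {L : LDs D Ω} (Fr : FR L) (Dg : GP p m l w N P R) (b : Fin m → Kˣ)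
    (E : Finset (Pl K)) (ε : Pl K → Gal(Ω/K) → R) (n : Finset (Pl K)) (σ : Pl K → R)
    (ψ : Pl K → Fin w → ZMod p) (hB : Bse D b E n) {r : ℕ} (τ : Fin r → R)
    (φ : Fin r → Fin w → ZMod p) (q : Fin r → Pl K) (hq : ∀ i, q i ∉ D.S0 ∧ q i ∉ E) (i : Fin r)
    (t : R) (ht : Dg.π t = 1) (C : Finset R) (hC : ∀ x ∈ C, x * t ∈ C) (Λ₀ : ZMod p) (h0 : Λ₀ ≠ 0)
    (hL : ∀ x ∈ C, VF Dg Fr b E ε n σ ψ (Function.update τ i x) φ q ≠ 0 →
      Lam D Dg b n σ ψ (Function.update τ i x) φ q i t = Λ₀) :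
    ∑ x ∈ C, VF Dg Fr b E ε n σ ψ (Function.update τ i x) φ q = 0 := by
  obtain ⟨f, hf⟩ : ∃ f : R → ℂ, f = fun x => VF Dg Fr b E ε n σ ψ (Function.update τ i x) φ q :=
    ⟨_, rfl⟩
  have h1 : ∀ x ∈ C, f (x * t) = f x * ep p Λ₀ := by
    intro x hx
    have h2 := vf_lab hp hζ Fr Dg b E ε n σ ψ hB (Function.update τ i x) φ q hq i t ht
    rw [Function.update_self, Function.update_idem] at h2
    rw [hf]
    simp only
    rw [h2]
    by_cases h3 : VF Dg Fr b E ε n σ ψ (Function.update τ i x) φ q = 0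
    · rw [h3, zero_mul, zero_mul]
    · rw [hL x hx h3]
  have himg : C.image (fun x => x * t) = C := by
    apply Finset.eq_of_subset_of_card_le
    · intro y hy
      rw [Finset.mem_image] at hy
      obtain ⟨x, hx, rfl⟩ := hy
      exact hC x hx
    · rw [Finset.card_image_of_injective _ (mul_left_injective t)]
  have h2 : ∑ x ∈ C, f x = (∑ x ∈ C, f x) * ep p Λ₀ := by
    conv_lhs => rw [← himg]
    rw [Finset.sum_image fun a _ b _ h => mul_left_injective t h, Finset.sum_mul]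
    exact Finset.sum_congr rfl h1
  have h3 : ep p Λ₀ ≠ 1 := fun h => h0 ((ep_eq_one hp Λ₀).1 h)
  have h4 : (∑ x ∈ C, f x) * (ep p Λ₀ - 1) = 0 := by
    rw [mul_sub, mul_one, ← h2, sub_self]
  rcases mul_eq_zero.1 h4 with h5 | h5
  · rw [hf] at h5
    exact h5
  · exact absurd (sub_eq_zero.1 h5) h3

theorem cl_closed (Dg : GP p m l w N P R) {x y : R} (h : IsConj x y) (u : Fin m → ZMod p) :
    IsConj (x * vof Dg (Dg.kV (pu Dg x) u)) y := by
  obtain ⟨r, hr⟩ := Dg.πs (Multiplicative.ofAdd (-u))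
  have hpr : pu Dg r = -u := by
    unfold pu
    rw [hr, toAdd_ofAdd]
  have h1 := com_r Dg r x
  have h2 : Dg.kV (pu Dg r) (pu Dg x) = Dg.kV (pu Dg x) u := by
    rw [kV_swap, hpr, map_neg, neg_neg]
  rw [h2] at h1
  have h3 : x * vof Dg (Dg.kV (pu Dg x) u) = r * x * r⁻¹ := by
    rw [h1, ← Dg.vcen _ (vof_pi Dg _) x, mul_inv_cancel_right]
  rw [h3]
  exact (isConj_iff.2 ⟨r, rfl⟩ : IsConj x (r * x * r⁻¹)).symm.trans h

end H51.CUB
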