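import Pool.Agent.H51.CUB.TDU
import Pool.Agent.H51.CUB.FN3
import Pool.Agent.H51.CUB.FNS
import Pool.Agent.H57.BRA.Def

/-!
# H51-CUB-LNK: negligible linked sums (MP_b39724_nt)

* `lll`: three types with `Th3 ≠ 0`, all primes of these types larger than `exp ((log log Y)^5)`.
* `lls_main`: (pattern `I = all`) every type is small (`hi a ≤ z`) or its functional kills `[V, s_a]`; two types `a₁, a₂` of primes larger than `z ^ ((log log Y)^2)` whose functionals kill `[V, s]`, and a type `a₀` in the support with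
  `psi a₀ · [[s_1, s_2], s_0] ≠ 0`.
* `lls_sub`: (pattern `I ≠ all`) all functionals kill `[[s_1, s_2], s_a]`; every type is small (`hi a ≤ z`) or the functionals `th1 a₁ a₂`, `th1 a₂ a₁` vanish at `s_a`; `th1 a₁ a₂ ≠ th1 a₂ a₁`.
`lllU`, `lls_mainU`: the same for the sums `TSU` with an extra phase of level one (`u`, `lam` arbitrary; the constants do not depend on them).
In all: the weights are bounded by `M`, `ω` is bounded by `1` and zero unless the distinguished types are in the support, `nr E ≤ exp ((log log Y)^4)`.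
-/

set_option autoImplicit false

open scoped NumberField
open IsDedekindDomain
open scoped Classical

noncomputable section

namespace H51.CUB

open H63.MA H38.BB H38.BG H57.PC H57.BRA

variable {K : Type} [Field K] [NumberField K] {p : ℕ} {ζ : K} {Ω : Type} [Field Ω] [Algebra K Ω]
  [IsAlgClosure K Ω] {m l w N : ℕ} {P R : Type} [Group P] [Group R]

theorem lllU [NeZero p] [Finite P] [Finite R] (hp : p.Prime) (hp2 : MOne p K)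
    (hζ : IsPrimitiveRoot ζ p) (hz : Z2 p K) (D : RD K p ζ) (L : LDs D.toRD0 Ω) (Fr : FR L)
    (Dg : GP p m l w N P R) (J : Type) [Fintype J] (M A : ℝ) :
    ∃ C Y₀ : ℝ, 0 < C ∧ 3 ≤ Y₀ ∧ ∀ Y : ℝ, Y₀ ≤ Y → ∀ (E : Finset (Pl K)) (b : Fin m → Kˣ),
      BS2 D.toRD0 b E → nr E ≤ Real.exp (Real.log (Real.log Y) ^ 4) →
      ∀ (ε : Pl K → Gal(Ω/K) → R) (T : TY N w p J), (∀ a, 0 ≤ T.wt a ∧ T.wt a ≤ M) →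
      ∀ (u : J → Pl K → ZMod p) (lam : J → J → ZMod p) (ω : Finset J → ℂ), (∀ S, ‖ω S‖ ≤ 1) → ∀ a₁ a₂ a₃ : J,
        Th3 Dg T a₁ a₂ a₃ ≠ 0 →
        (∀ a ∈ ({a₁, a₂, a₃} : Finset J), Real.exp (Real.log (Real.log Y) ^ 5) ≤ T.lo a) →
        (∀ S, ω S ≠ 0 → a₁ ∈ S ∧ a₂ ∈ S ∧ a₃ ∈ S) →
        ‖TSU Dg Fr T b E ε u lam ω Y‖ ≤ C * Y * Real.log Y ^ (-A) :=
  lllU_p hp hp2 hζ hz D L Fr Dg J M A

theorem lll [NeZero p] [Finite P] [Finite R] (hp : p.Prime) (hp2 : MOne p K)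
    (hζ : IsPrimitiveRoot ζ p) (hz : Z2 p K) (D : RD K p ζ) (L : LDs D.toRD0 Ω) (Fr : FR L)
    (Dg : GP p m l w N P R) (J : Type) [Fintype J] (M A : ℝ) :
    ∃ C Y₀ : ℝ, 0 < C ∧ 3 ≤ Y₀ ∧ ∀ Y : ℝ, Y₀ ≤ Y → ∀ (E : Finset (Pl K)) (b : Fin m → Kˣ),
      BS2 D.toRD0 b E → nr E ≤ Real.exp (Real.log (Real.log Y) ^ 4) →
      ∀ (ε : Pl K → Gal(Ω/K) → R) (T : TY N w p J), (∀ a, 0 ≤ T.wt a ∧ T.wt a ≤ M) →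
      ∀ (ω : Finset J → ℂ), (∀ S, ‖ω S‖ ≤ 1) → ∀ a₁ a₂ a₃ : J,
        Th3 Dg T a₁ a₂ a₃ ≠ 0 →
        (∀ a ∈ ({a₁, a₂, a₃} : Finset J), Real.exp (Real.log (Real.log Y) ^ 5) ≤ T.lo a) →
        (∀ S, ω S ≠ 0 → a₁ ∈ S ∧ a₂ ∈ S ∧ a₃ ∈ S) →
        ‖TS Dg Fr T b E ε ω Y‖ ≤ C * Y * Real.log Y ^ (-A) := by
  obtain ⟨C, Y₀, hC, hY₀, h⟩ := lllU hp hp2 hζ hz D L Fr Dg J M A
  refine ⟨C, Y₀, hC, hY₀, fun Y hY E b hb hE ε T hT ω hω a₁ a₂ a₃ h1 h2 h3 => ?_⟩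
  rw [← tsu_zero]
  exact h Y hY E b hb hE ε T hT _ _ ω hω a₁ a₂ a₃ h1 h2 h3

theorem lls_mainU [NeZero p] [Finite P] [Finite R] (hp : p.Prime) (hp2 : MOne p K)
    (hζ : IsPrimitiveRoot ζ p) (hz : Z2 p K) (D : RD K p ζ) (L : LDs D.toRD0 Ω) (Fr : FR L)
    (Dg : GP p m l w N P R) (J : Type) [Fintype J] (M A : ℝ) :
    ∃ C Y₀ : ℝ, 0 < C ∧ 3 ≤ Y₀ ∧ ∀ Y : ℝ, Y₀ ≤ Y → ∀ (E : Finset (Pl K)) (b : Fin m → Kˣ),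
      BS2 D.toRD0 b E → nr E ≤ Real.exp (Real.log (Real.log Y) ^ 4) →
      ∀ (ε : Pl K → Gal(Ω/K) → R) (T : TY N w p J), (∀ a, 0 ≤ T.wt a ∧ T.wt a ≤ M) →
      ∀ (u : J → Pl K → ZMod p) (lam : J → J → ZMod p) (ω : Finset J → ℂ), (∀ S, ‖ω S‖ ≤ 1) → ∀ (z : ℝ), Real.exp (Real.log (Real.log Y) ^ 4) ≤ z →
      ∀ a₀ a₁ a₂ : J,
        (∀ a, T.hi a ≤ z ∨ ∀ (v : Fin l → ZMod p), dt (T.psi a) (Dg.β v (Dg.s (T.cls a))) = 0) →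
        (∀ a ∈ ({a₁, a₂} : Finset J), ∀ (v : Fin l → ZMod p), dt (T.psi a) (Dg.β v (Dg.s (T.cls a))) = 0) →
        (∀ a ∈ ({a₁, a₂} : Finset J), z ^ (Real.log (Real.log Y) ^ 2) ≤ T.lo a) →
        dt (T.psi a₀) (Dg.β (Dg.kV (Dg.s (T.cls a₁)) (Dg.s (T.cls a₂))) (Dg.s (T.cls a₀))) ≠ 0 →
        (∀ S, ω S ≠ 0 → a₀ ∈ S ∧ a₁ ∈ S ∧ a₂ ∈ S) →
        ‖TSU Dg Fr T b E ε u lam ω Y‖ ≤ C * Y * Real.log Y ^ (-A) :=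
  lls_mainU_p hp hp2 hζ hz D L Fr Dg J M A

theorem lls_main [NeZero p] [Finite P] [Finite R] (hp : p.Prime) (hp2 : MOne p K)
    (hζ : IsPrimitiveRoot ζ p) (hz : Z2 p K) (D : RD K p ζ) (L : LDs D.toRD0 Ω) (Fr : FR L)
    (Dg : GP p m l w N P R) (J : Type) [Fintype J] (M A : ℝ) :
    ∃ C Y₀ : ℝ, 0 < C ∧ 3 ≤ Y₀ ∧ ∀ Y : ℝ, Y₀ ≤ Y → ∀ (E : Finset (Pl K)) (b : Fin m → Kˣ),
      BS2 D.toRD0 b E → nr E ≤ Real.exp (Real.log (Real.log Y) ^ 4) →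
      ∀ (ε : Pl K → Gal(Ω/K) → R) (T : TY N w p J), (∀ a, 0 ≤ T.wt a ∧ T.wt a ≤ M) →
      ∀ (ω : Finset J → ℂ), (∀ S, ‖ω S‖ ≤ 1) → ∀ (z : ℝ), Real.exp (Real.log (Real.log Y) ^ 4) ≤ z →
      ∀ a₀ a₁ a₂ : J,
        (∀ a, T.hi a ≤ z ∨ ∀ (v : Fin l → ZMod p), dt (T.psi a) (Dg.β v (Dg.s (T.cls a))) = 0) →
        (∀ a ∈ ({a₁, a₂} : Finset J), ∀ (v : Fin l → ZMod p), dt (T.psi a) (Dg.β v (Dg.s (T.cls a))) = 0) →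
        (∀ a ∈ ({a₁, a₂} : Finset J), z ^ (Real.log (Real.log Y) ^ 2) ≤ T.lo a) →
        dt (T.psi a₀) (Dg.β (Dg.kV (Dg.s (T.cls a₁)) (Dg.s (T.cls a₂))) (Dg.s (T.cls a₀))) ≠ 0 →
        (∀ S, ω S ≠ 0 → a₀ ∈ S ∧ a₁ ∈ S ∧ a₂ ∈ S) →
        ‖TS Dg Fr T b E ε ω Y‖ ≤ C * Y * Real.log Y ^ (-A) := by
  obtain ⟨C, Y₀, hC, hY₀, h⟩ := lls_mainU hp hp2 hζ hz D L Fr Dg J M A
  refine ⟨C, Y₀, hC, hY₀, fun Y hY E b hb hE ε T hT ω hω z hz1 a₀ a₁ a₂ h1 h2 h3 h4 h5 => ?_⟩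
  rw [← tsu_zero]
  exact h Y hY E b hb hE ε T hT _ _ ω hω z hz1 a₀ a₁ a₂ h1 h2 h3 h4 h5

theorem lls_sub [NeZero p] [Finite P] [Finite R] (hp : p.Prime) (hp2 : MOne p K)
    (hζ : IsPrimitiveRoot ζ p) (hz : Z2 p K) (D : RD K p ζ) (L : LDs D.toRD0 Ω) (Fr : FR L)
    (Dg : GP p m l w N P R) (J : Type) [Fintype J] (M A : ℝ) :
    ∃ C Y₀ : ℝ, 0 < C ∧ 3 ≤ Y₀ ∧ ∀ Y : ℝ, Y₀ ≤ Y → ∀ (E : Finset (Pl K)) (b : Fin m → Kˣ),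
      BS2 D.toRD0 b E → nr E ≤ Real.exp (Real.log (Real.log Y) ^ 4) →
      ∀ (ε : Pl K → Gal(Ω/K) → R) (T : TY N w p J), (∀ a, 0 ≤ T.wt a ∧ T.wt a ≤ M) →
      ∀ (ω : Finset J → ℂ), (∀ S, ‖ω S‖ ≤ 1) → ∀ (z : ℝ), Real.exp (Real.log (Real.log Y) ^ 4) ≤ z →
      ∀ a₁ a₂ : J,
        (∀ a, dt (T.psi a) (Dg.β (Dg.kV (Dg.s (T.cls a₁)) (Dg.s (T.cls a₂))) (Dg.s (T.cls a))) = 0) →
        (∀ a, T.hi a ≤ z ∨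
          (th1 Dg T a₁ a₂ (Dg.s (T.cls a)) = 0 ∧ th1 Dg T a₂ a₁ (Dg.s (T.cls a)) = 0)) →
        (∀ a ∈ ({a₁, a₂} : Finset J), z ^ (Real.log (Real.log Y) ^ 2) ≤ T.lo a) →
        th1 Dg T a₁ a₂ ≠ th1 Dg T a₂ a₁ →
        (∀ S, ω S ≠ 0 → a₁ ∈ S ∧ a₂ ∈ S) →
        ‖TS Dg Fr T b E ε ω Y‖ ≤ C * Y * Real.log Y ^ (-A) :=
  lls_sub_p hp hp2 hζ hz D L Fr Dg J M A

end H51.CUB
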