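import Pool.Agent.H51.CUB.VDef

/-!
[H51 CUB VCA]  Congruence lemmas and the change of one added prime (120-160 lines). PROOF.

`xs_congr`, `hi_congr`, `ee_congr`, `ff_congr`: `XS`, `HI`, `EE`, `FF` depend only on the values of `σ`, `ψ` on `n` (`ak`: the product over `v ∈ n`; for `FF` use that `EE` of the chosen elements: `FF` is defined by `choose` of the same set when `XS` are equal as sets; rewrite the sets with `xs_congr`,
`Set.ext`, and `EE` by `ee_congr`).
`vs_q`: for injective `q`: `vs σ q τ (q i) = τ i` (`choose_spec` and injectivity); `vs_out`.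
`vf_step`: let `q` be injective with values outside `n`, `q'` another prime, `q₁ = Function.update q i q'` also injective with values outside `n`. Put `n' = n ∪ (Finset.univ.erase i).image q`, `σ' = vs σ q τ`, `ψ' = vs ψ q φ`. Then `vn n q = insert (q i) n'`, `vn n q₁ = insert q' n'`, and on these sets
`vs σ q τ = update σ' (q i) (τ i)`, `vs σ q₁ τ = update σ' q' (τ i)` (same for `ψ`). `ff_edge` with `Edge D Dg b E n' σ' (q i) q'`: `gn`: `Bse` for `v ∈ n`, `Cell.gd` for the `q j`. `cls`: cell. `ln`: for `v ∈ n` the cell, for `v = q j` the hypothesis `hs`. `lE`: cell. `la`: `ak D b n' (sg Dg σ') k =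
ak D b n (sg Dg σ) k * ∏_(j ≠ i) pi (q j) ^ (..)` (`q j` are distinct and outside `n`), `LL (q i) (pi (q j)) = LL q' (pi (q j))`: by `D.rec2` the difference `LL v (pi w) - LL w (pi v)` depends only on the classes, `LL (q j) (pi (q i)) = LL (q j) (pi q')` and the classes of `q i`, `q'` agree; `LL_mul`, `LL_zpow` (`RMkB`).
-/

set_option autoImplicit false

open scoped NumberField
open IsDedekindDomain
open scoped Classical

noncomputable section

namespace H51.CUB

open H63.MA H38.BB H38.BG H57.PC H77.PC3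

variable {K : Type} [Field K] [NumberField K] {p : ℕ} {ζ : K} {Ω : Type} [Field Ω] [Algebra K Ω]
  [IsAlgClosure K Ω] {m l w N : ℕ} {P R : Type} [Group P] [Group R]

theorem ak_congr (D : RD0 K p ζ) (b : Fin m → Kˣ) (n : Finset (Pl K)) {s s' : Pl K → Fin m → ZMod p}
    (h : ∀ v ∈ n, s v = s' v) (k : Fin m) : ak D b n s k = ak D b n s' k := by
  unfold ak
  congr 1
  exact Finset.prod_congr rfl fun v hv => by rw [h v hv]

omit [IsAlgClosure K Ω] in
theorem xs_congr {D : RD0 K p ζ} (L : LDs D Ω) (Dg : GP p m l w N P R) (b : Fin m → Kˣ)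
    (E : Finset (Pl K)) (ε : Pl K → Gal(Ω/K) → R) (n : Finset (Pl K)) {σ σ' : Pl K → R}
    (h : ∀ v ∈ n, σ v = σ' v) : XS L Dg b E ε n σ = XS L Dg b E ε n σ' := by
  have hsg : ∀ v ∈ n, sg Dg σ v = sg Dg σ' v := fun v hv => by
    unfold sg
    rw [h v hv]
  have hak : ∀ k, ak D b n (sg Dg σ) k = ak D b n (sg Dg σ') k := ak_congr D b n hsg
  ext ρ
  unfold XS
  simp only [Set.mem_setOf_eq, hak]
  constructor
  · rintro ⟨h1, h2, h3, h4, h5⟩
    exact ⟨h1, h2, fun v hv => ⟨by rw [← h v hv]; exact (h3 v hv).1, (h3 v hv).2⟩, h4, h5⟩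
  · rintro ⟨h1, h2, h3, h4, h5⟩
    exact ⟨h1, h2, fun v hv => ⟨by rw [h v hv]; exact (h3 v hv).1, (h3 v hv).2⟩, h4, h5⟩

omit [IsAlgClosure K Ω] in
theorem ee_congr {D : RD0 K p ζ} {L : LDs D Ω} (Dg : GP p m l w N P R) (Fr : FR L)
    (n : Finset (Pl K)) {ψ ψ' : Pl K → Fin w → ZMod p} (h : ∀ v ∈ n, ψ v = ψ' v)
    (ρ : Gal(Ω/K) →* R) : EE Dg Fr n ψ ρ = EE Dg Fr n ψ' ρ := by
  unfold EE
  exact Finset.sum_congr rfl fun v hv => by rw [h v hv]

omit [IsAlgClosure K Ω] in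
theorem hi_congr {D : RD0 K p ζ} {L : LDs D Ω} (Dg : GP p m l w N P R) (Fr : FR L)
    (n : Finset (Pl K)) {σ σ' : Pl K → R} {ψ ψ' : Pl K → Fin w → ZMod p}
    (hσ : ∀ v ∈ n, σ v = σ' v) (hψ : ∀ v ∈ n, ψ v = ψ' v) (h : HI Dg Fr n σ ψ) :
    HI Dg Fr n σ' ψ' := by
  intro g hg
  rw [← h g hg]
  refine Finset.sum_congr rfl fun v hv => ?_
  unfold sg
  rw [hσ v hv, hψ v hv]

private theorem vca_choose {α : Type} (S S' : Set α) (hS : S = S') (h : ∃ x, x ∈ S)
    (h' : ∃ x, x ∈ S') : h.choose = h'.choose := by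
  subst hS
  rfl

omit [IsAlgClosure K Ω] in
theorem ff_congr {D : RD0 K p ζ} {L : LDs D Ω} (Dg : GP p m l w N P R) (Fr : FR L)
    (b : Fin m → Kˣ) (E : Finset (Pl K)) (ε : Pl K → Gal(Ω/K) → R) (n : Finset (Pl K))
    {σ σ' : Pl K → R} {ψ ψ' : Pl K → Fin w → ZMod p}
    (hσ : ∀ v ∈ n, σ v = σ' v) (hψ : ∀ v ∈ n, ψ v = ψ' v) :
    FF Dg Fr b E ε n σ ψ = FF Dg Fr b E ε n σ' ψ' := by
  have hX := xs_congr L Dg b E ε n hσ
  unfold FF
  by_cases h : HI Dg Fr n σ ψ ∧ ∃ ρ, ρ ∈ XS L Dg b E ε n σ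
  · have h' : HI Dg Fr n σ' ψ' ∧ ∃ ρ, ρ ∈ XS L Dg b E ε n σ' :=
      ⟨hi_congr Dg Fr n hσ hψ h.1, by rw [← hX]; exact h.2⟩
    rw [dif_pos h, dif_pos h', vca_choose _ _ hX h.2 h'.2, ee_congr Dg Fr n hψ]
  · have h' : ¬ (HI Dg Fr n σ' ψ' ∧ ∃ ρ, ρ ∈ XS L Dg b E ε n σ') := by
      rintro ⟨h1, h2⟩
      exact h ⟨hi_congr Dg Fr n (fun v hv => (hσ v hv).symm) (fun v hv => (hψ v hv).symm) h1,
        by rw [hX]; exact h2⟩
    rw [dif_neg h, dif_neg h']

theorem vs_q {r : ℕ} {X : Type} (σ : Pl K → X) {q : Fin r → Pl K} (hq : Function.Injective q)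
    (τ : Fin r → X) (i : Fin r) : vs σ q τ (q i) = τ i := by
  have h : ∃ j, q j = q i := ⟨i, rfl⟩
  unfold vs
  rw [dif_pos h]
  congr 1
  exact hq h.choose_spec

theorem vs_out {r : ℕ} {X : Type} (σ : Pl K → X) {q : Fin r → Pl K} (τ : Fin r → X) {v : Pl K}
    (hv : ∀ i, q i ≠ v) : vs σ q τ v = σ v := by
  unfold vs
  rw [dif_neg]
  rintro ⟨i, hi⟩
  exact hv i hi

private theorem vca_ll_prod (hp : p.Prime) (hζ : IsPrimitiveRoot ζ p) (D : RD0 K p ζ) {v : Pl K}
    (hv : v ∉ D.S0) {ι : Type} (s : Finset ι) (x : ι → Kˣ) (e : ι → ℕ) :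
    D.LL v (∏ j ∈ s, x j ^ e j) = ∑ j ∈ s, (e j : ZMod p) * D.LL v (x j) := by
  induction s using Finset.induction_on with
  | empty => rw [Finset.prod_empty, Finset.sum_empty, LL_one hp hζ D hv]
  | insert a s ha ih =>
    rw [Finset.prod_insert ha, Finset.sum_insert ha, LL_mul hp hζ D hv, ll_pow hp hζ D hv, ih]

private theorem vca_vn {r : ℕ} (n : Finset (Pl K)) (q : Fin r → Pl K) (i : Fin r) (q' : Pl K) :
    vn n (Function.update q i q') = insert q' (n ∪ (Finset.univ.erase i).image q) := by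
  unfold vn
  ext v
  simp only [Finset.mem_union, Finset.mem_image, Finset.mem_univ, true_and, Finset.mem_insert,
    Finset.mem_erase, and_true]
  constructor
  · rintro (h | ⟨j, hj⟩)
    · exact Or.inr (Or.inl h)
    · by_cases hji : j = i
      · rw [hji, Function.update_self] at hj
        exact Or.inl hj.symm
      · rw [Function.update_of_ne hji] at hj
        exact Or.inr (Or.inr ⟨j, hji, hj⟩)
  · rintro (h | h | ⟨j, hji, hj⟩)
    · exact Or.inr ⟨i, by rw [Function.update_self, h]⟩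
    · exact Or.inl h
    · exact Or.inr ⟨j, by rw [Function.update_of_ne hji, hj]⟩

theorem vf_step [NeZero p] [Finite R] (hp : p.Prime) (hp2 : MOne p K) (hζ : IsPrimitiveRoot ζ p)
    (D : RD K p ζ) {L : LDs D.toRD0 Ω} (Fr : FR L) (Dg : GP p m l w N P R) (b : Fin m → Kˣ)
    (E : Finset (Pl K)) (ε : Pl K → Gal(Ω/K) → R) (n : Finset (Pl K)) (σ : Pl K → R)
    (ψ : Pl K → Fin w → ZMod p) (hB : Bse D.toRD0 b E n) {r : ℕ} (τ : Fin r → R)
    (hτ : ∀ i, τ i ^ p = 1) (φ : Fin r → Fin w → ZMod p) (Q : Fin r → Finset (Pl K))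
    (hQ : ∀ i, Cell D.toRD0 Dg b E n σ (Q i)) (q : Fin r → Pl K) (hq : ∀ i, q i ∈ Q i) (i : Fin r)
    (q' : Pl K) (hq' : q' ∈ Q i) (hne : ∀ j, j ≠ i → q' ≠ q j)
    (hs : ∀ j, j ≠ i → D.LL (q j) (D.pi q') = D.LL (q j) (D.pi (q i)))
    (h : VF Dg Fr b E ε n σ ψ τ φ q ≠ 0) :
    VF Dg Fr b E ε n σ ψ τ φ (Function.update q i q') ≠ 0 := by
  unfold VF at h
  by_cases hc : Function.Injective q ∧ ∀ i, q i ∉ n
  swap
  · rw [if_neg hc] at h
    exact absurd rfl h
  rw [if_pos hc] at h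
  obtain ⟨hinj, hqn⟩ := hc
  have hq'g := (hQ i).gd q' hq'
  have hinj' : Function.Injective (Function.update q i q') := by
    intro j j' hjj
    by_cases h1 : j = i
    · by_cases h2 : j' = i
      · rw [h1, h2]
      · rw [h1, Function.update_self, Function.update_of_ne h2] at hjj
        exact absurd hjj (hne j' h2)
    · by_cases h2 : j' = i
      · rw [h2, Function.update_self, Function.update_of_ne h1] at hjj
        exact absurd hjj.symm (hne j h1)
      · rw [Function.update_of_ne h1, Function.update_of_ne h2] at hjj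
        exact hinj hjj
  have hqn' : ∀ j, Function.update q i q' j ∉ n := by
    intro j
    by_cases h1 : j = i
    · rw [h1, Function.update_self]
      exact hq'g.2.2
    · rw [Function.update_of_ne h1]
      exact hqn j
  unfold VF
  rw [if_pos ⟨hinj', hqn'⟩, vca_vn]
  have hvn : vn n q = insert (q i) (n ∪ (Finset.univ.erase i).image q) := by
    have h1 := vca_vn n q i (q i)
    rwa [Function.update_eq_self] at h1
  rw [hvn] at h
  obtain ⟨n', hn'⟩ : ∃ n', n' = n ∪ (Finset.univ.erase i).image q := ⟨_, rfl⟩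
  have hmem : ∀ v, v ∈ n' ↔ v ∈ n ∨ ∃ j, j ≠ i ∧ q j = v := by
    intro v
    rw [hn']
    simp only [Finset.mem_union, Finset.mem_image, Finset.mem_univ, Finset.mem_erase, and_true]
  rw [← hn'] at h ⊢
  have hsq : ∀ {X : Type} (σ : Pl K → X) (τ : Fin r → X),
      Function.update (vs σ q τ) (q i) (τ i) = vs σ q τ := by
    intro X σ τ
    rw [← vs_q σ hinj τ i, Function.update_eq_self]
  rw [← hsq σ τ, ← hsq ψ φ] at h
  have hnew : ∀ {X : Type} (σ : Pl K → X) (τ : Fin r → X), ∀ v ∈ insert q' n',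
      Function.update (vs σ q τ) q' (τ i) v = vs σ (Function.update q i q') τ v := by
    intro X σ τ v hv
    by_cases h1 : v = q'
    · rw [h1, Function.update_self]
      have h2 := vs_q σ hinj' τ i
      rw [Function.update_self] at h2
      exact h2.symm
    · rw [Function.update_of_ne h1]
      have hv' : v ∈ n' := (Finset.mem_insert.1 hv).resolve_left h1
      rcases (hmem v).1 hv' with h2 | ⟨j, hj, h2⟩
      · rw [vs_out σ τ (fun j h3 => hqn j (by rw [h3]; exact h2)),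
          vs_out σ τ (fun j h3 => hqn' j (by rw [h3]; exact h2))]
      · rw [← h2, vs_q σ hinj τ j]
        have h3 := vs_q σ hinj' τ j
        rw [Function.update_of_ne hj] at h3
        exact h3.symm
  rw [← ff_congr Dg Fr b E ε (insert q' n') (hnew σ τ) (hnew ψ φ)]
  refine ff_edge hp hp2 hζ D Fr Dg b E ε n' (vs σ q τ) (vs ψ q φ) (q i) q' ?_ (τ i) (hτ i)
    (φ i) h
  have hqg := (hQ i).gd (q i) (hq i)
  refine ⟨?_, ⟨hqg.1, hqg.2.1, ?_⟩, ⟨hq'g.1, hq'g.2.1, ?_⟩, hB.bs,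
    (hQ i).cls _ (hq i) _ hq', ?_, fun v hv => (hQ i).lE v hv _ (hq i) _ hq', ?_⟩
  · intro v hv
    rcases (hmem v).1 hv with h2 | ⟨j, hj, h2⟩
    · exact hB.gn v h2
    · rw [← h2]
      exact ⟨((hQ j).gd _ (hq j)).1, ((hQ j).gd _ (hq j)).2.1⟩
  · intro hv
    rcases (hmem _).1 hv with h2 | ⟨j, hj, h2⟩
    · exact hqn i h2
    · exact hj (hinj h2)
  · intro hv
    rcases (hmem _).1 hv with h2 | ⟨j, hj, h2⟩
    · exact hq'g.2.2 h2
    · exact hne j hj h2.symm
  · intro v hv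
    rcases (hmem v).1 hv with h2 | ⟨j, hj, h2⟩
    · exact (hQ i).ln v h2 _ (hq i) _ hq'
    · rw [← h2]
      exact (hs j hj).symm
  · intro k
    have hdis : Disjoint n ((Finset.univ.erase i).image q) := by
      rw [Finset.disjoint_right]
      intro v hv
      obtain ⟨j, -, rfl⟩ := Finset.mem_image.1 hv
      exact hqn j
    have hak : ak D.toRD0 b n' (sg Dg (vs σ q τ)) k = ak D.toRD0 b n (sg Dg σ) k *
        ∏ j ∈ Finset.univ.erase i, D.pi (q j) ^ (sg Dg (vs σ q τ) (q j) k).val := by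
      unfold ak
      rw [hn', Finset.prod_union hdis, Finset.prod_image fun a _ b _ h => hinj h, ← mul_assoc]
      congr 2
      refine Finset.prod_congr rfl fun v hv => ?_
      unfold sg
      rw [vs_out σ τ (fun j h3 => hqn j (by rw [h3]; exact hv))]
    have hv1 : q i ∉ D.S0 := hqg.1.1
    have hv2 : q' ∉ D.S0 := hq'g.1.1
    rw [hak]
    change D.toRD0.LL (q i) _ = D.toRD0.LL q' _
    rw [LL_mul hp hζ D.toRD0 hv1, LL_mul hp hζ D.toRD0 hv2,
      vca_ll_prod hp hζ D.toRD0 hv1, vca_ll_prod hp hζ D.toRD0 hv2]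
    congr 1
    · exact (hQ i).la k _ (hq i) _ hq'
    · refine Finset.sum_congr rfl fun j hj => ?_
      have hji := Finset.ne_of_mem_erase hj
      congr 1
      have hgj := ((hQ j).gd _ (hq j)).1
      have r1 := D.rec2 (q i) (q j) hqg.1 hgj fun h3 => hji (hinj h3).symm
      have r2 := D.rec2 q' (q j) hq'g.1 hgj (hne j hji)
      have r3 := hs j hji
      have r4 : D.q (q i) = D.q q' := (hQ i).cls _ (hq i) _ hq'
      rw [← r4, ← r1] at r2
      linear_combination -r2 - r3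

end H51.CUB
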