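import Pool.Agent.H51.CUB.PDef
import Pool.Agent.H51.CUB.VCa

/-!
[H51 CUB PFA]  The sum over the homomorphisms as a sum over labels (180-240 lines). PROOF.

* `mem_LB`: `Finset.mem_image`, `Finset.mem_pi`. `card_LB`: `Finset.card_image_le`, `Finset.card_pi`, `Finset.prod_le_pow_card`.
* `psv_eq`, `clv_eq`, `sv_eq`: by `Dj g` the chosen `a` is `a` (`Finset.disjoint_left`). `clr_pu`: `pu_conj` (AL1); `clr_pow`: a conjugate of `q (g i)` has order dividing `p` (`Dg.pow`).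
* `sg_LB`: for `σ ∈ LB (clv Dg T g) (un g)` and `v ∈ un g`: `sg Dg σ v = sv Dg T g v`.
* `rh_xs`: `ρ ∈ RH L Dg b E ε (clf T g)` iff there is `σ ∈ LB (clv Dg T g) (un g)` with `ρ ∈ XS L Dg b E ε (un g) σ` (unique). (→) `σ v = ρ (L.t v)` on `un g`, `1` outside. `akR D Dg.cr b (clf T g) k = ak D b (un g) (sg Dg σ) k` because both are `b k * ∏ v ∈ un g, pi v ^ (sv .. v k).val` (`Finset.prod_biUnion`, `Dj`; the sets `clf T g i` are
disjoint unions of the `g a`, `cls a = i`; `GP.cr.x = Dg.s`). `v ∈ clf T g i ↔ ∃ a, cls a = i ∧ v ∈ g a`.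
* `rh_fin`: `RH` is the finite union of the finite sets `XS` (`xs_finite`), so `RHf` is its `toFinset`.
* `pf_eq`: the sum over `RHf` is the double sum over `σ ∈ LB` and `ρ ∈ XS σ` (`Finset.sum_biUnion` or `Finset.sum_sigma'`; the sets are disjoint because `σ v = ρ (L.t v)`); the phase `∑ a, ∑ v ∈ g a, dt (T.psi a) (cq Dg Fr ρ v) = EE Dg Fr (un g) (psv T g) ρ` (`Finset.sum_biUnion`, `psv_eq`); `ff_sum`.
-/

set_option autoImplicit false

open scoped NumberField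
open IsDedekindDomain
open scoped Classical

noncomputable section

namespace H51.CUB

open H63.MA H38.BB H38.BG H57.PC H77.PC3

variable {K : Type} [Field K] [NumberField K] {p : ℕ} {ζ : K} {Ω : Type} [Field Ω] [Algebra K Ω]
  {m l w N : ℕ} {P R : Type} [Group P] [Group R] {J : Type} [Fintype J]

theorem mem_LB (c : Pl K → Finset R) (n : Finset (Pl K)) (σ : Pl K → R) :
    σ ∈ LB c n ↔ (∀ v ∈ n, σ v ∈ c v) ∧ ∀ v, v ∉ n → σ v = 1 := by
  unfold LB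
  rw [Finset.mem_image]
  constructor
  · rintro ⟨f, hf, rfl⟩
    refine ⟨fun v hv => ?_, fun v hv => ?_⟩
    · show (if h : v ∈ n then f v h else 1) ∈ c v
      rw [dif_pos hv]
      exact Finset.mem_pi.1 hf v hv
    · exact dif_neg hv
  · rintro ⟨h1, h2⟩
    refine ⟨fun v _ => σ v, Finset.mem_pi.2 fun v hv => h1 v hv, ?_⟩
    funext v
    by_cases hv : v ∈ n
    · exact dif_pos hv
    · show (if h : v ∈ n then σ v else 1) = σ v
      rw [dif_neg hv, h2 v hv]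

theorem card_LB (c : Pl K → Finset R) (n : Finset (Pl K)) (M : ℕ) (hM : ∀ v ∈ n, (c v).card ≤ M) :
    (LB c n).card ≤ M ^ n.card := by
  unfold LB
  refine Finset.card_image_le.trans ?_
  rw [Finset.card_pi]
  exact Finset.prod_le_pow_card n (fun v => (c v).card) M hM

private theorem pfa_ch {g : J → Finset (Pl K)} (hg : Dj g) {a : J} {v : Pl K} (hv : v ∈ g a)
    (h : ∃ a, v ∈ g a) : h.choose = a := by
  by_contra hne
  exact Finset.disjoint_left.1 (hg _ _ hne) h.choose_spec hv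

theorem psv_eq (T : TY N w p J) {g : J → Finset (Pl K)} (hg : Dj g) {a : J} {v : Pl K}
    (hv : v ∈ g a) : psv T g v = T.psi a := by
  have h : ∃ a, v ∈ g a := ⟨a, hv⟩
  unfold psv
  rw [dif_pos h, pfa_ch hg hv h]

theorem clv_eq [Finite R] (Dg : GP p m l w N P R) (T : TY N w p J) {g : J → Finset (Pl K)}
    (hg : Dj g) {a : J} {v : Pl K} (hv : v ∈ g a) : clv Dg T g v = clR Dg (T.cls a) := by
  have h : ∃ a, v ∈ g a := ⟨a, hv⟩
  unfold clv
  rw [dif_pos h, pfa_ch hg hv h]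

theorem sv_eq (Dg : GP p m l w N P R) (T : TY N w p J) {g : J → Finset (Pl K)}
    (hg : Dj g) {a : J} {v : Pl K} (hv : v ∈ g a) : sv Dg T g v = Dg.s (T.cls a) := by
  have h : ∃ a, v ∈ g a := ⟨a, hv⟩
  unfold sv
  rw [dif_pos h, pfa_ch hg hv h]

theorem clr_pu [Finite R] (Dg : GP p m l w N P R) {i : Fin N} {x : R} (hx : x ∈ clR Dg i) :
    pu Dg x = Dg.s i := pu_conj Dg ((mem_clR Dg i x).1 hx)

theorem clr_pow [Finite R] (Dg : GP p m l w N P R) {i : Fin N} {x : R} (hx : x ∈ clR Dg i) :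
    x ^ p = 1 := by
  have h1 := ((mem_clR Dg i x).1 hx).pow p
  rw [← map_pow, Dg.pow, map_one] at h1
  exact isConj_one_left.1 h1

theorem sg_LB [Finite R] (Dg : GP p m l w N P R) (T : TY N w p J) {g : J → Finset (Pl K)}
    (hg : Dj g) {σ : Pl K → R} (hσ : σ ∈ LB (clv Dg T g) (un g)) {v : Pl K} (hv : v ∈ un g) :
    sg Dg σ v = sv Dg T g v := by
  have h1 := ((mem_LB _ _ _).1 hσ).1 v hv
  obtain ⟨a, -, ha⟩ := Finset.mem_biUnion.1 hv
  rw [clv_eq Dg T hg ha] at h1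
  rw [sv_eq Dg T hg ha]
  exact clr_pu Dg h1

private theorem pfa_un {g : J → Finset (Pl K)} {v : Pl K} : v ∈ un g ↔ ∃ a, v ∈ g a := by
  unfold un
  rw [Finset.mem_biUnion]
  exact ⟨fun ⟨a, _, h⟩ => ⟨a, h⟩, fun ⟨a, h⟩ => ⟨a, Finset.mem_univ _, h⟩⟩

private theorem pfa_clf (T : TY N w p J) {g : J → Finset (Pl K)} {i : Fin N} {v : Pl K} :
    v ∈ clf T g i ↔ ∃ a, T.cls a = i ∧ v ∈ g a := by
  unfold clf
  rw [Finset.mem_biUnion]
  constructor
  · rintro ⟨a, ha, h⟩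
    exact ⟨a, (Finset.mem_filter.1 ha).2, h⟩
  · rintro ⟨a, ha, h⟩
    exact ⟨a, Finset.mem_filter.2 ⟨Finset.mem_univ _, ha⟩, h⟩

private theorem pfa_ak [NeZero p] {D : RD0 K p ζ} (Dg : GP p m l w N P R) (T : TY N w p J)
    (b : Fin m → Kˣ) {g : J → Finset (Pl K)} (hg : Dj g) (k : Fin m) :
    akR D Dg.cr b (clf T g) k = ak D b (un g) (sv Dg T g) k := by
  unfold akR ak
  congr 1
  have h1 : ∏ v ∈ un g, D.pi v ^ (sv Dg T g v k).val =
      ∏ a, ∏ v ∈ g a, D.pi v ^ (Dg.s (T.cls a) k).val := by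
    unfold un
    rw [Finset.prod_biUnion (fun a _ a' _ h => hg a a' h)]
    exact Finset.prod_congr rfl fun a _ => Finset.prod_congr rfl fun v hv => by
      rw [sv_eq Dg T hg hv]
  rw [h1, ← Finset.prod_fiberwise Finset.univ T.cls]
  refine Finset.prod_congr rfl fun i _ => ?_
  unfold clf
  rw [Finset.prod_biUnion (fun a _ a' _ h => hg a a' h)]
  refine Finset.prod_congr rfl fun a ha => ?_
  rw [(Finset.mem_filter.1 ha).2]
  rfl

variable [IsAlgClosure K Ω]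

theorem rh_xs [NeZero p] [Finite R] {D : RD0 K p ζ} (L : LDs D Ω)
    (Dg : GP p m l w N P R) (T : TY N w p J) (b : Fin m → Kˣ) (E : Finset (Pl K))
    (ε : Pl K → Gal(Ω/K) → R) {g : J → Finset (Pl K)} (hg : Dj g) (ρ : Gal(Ω/K) →* R) :
    ρ ∈ RH L Dg b E ε (clf T g) ↔
      ∃ σ ∈ LB (clv Dg T g) (un g), ρ ∈ XS L Dg b E ε (un g) σ := by
  have hak : ∀ σ ∈ LB (clv Dg T g) (un g), ∀ k, akR D Dg.cr b (clf T g) k =
      ak D b (un g) (sg Dg σ) k := by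
    intro σ hσ k
    rw [pfa_ak Dg T b hg k]
    exact ak_congr D b (un g) (fun v hv => (sg_LB Dg T hg hσ hv).symm) k
  constructor
  · rintro ⟨r1, r2, r3, r4, r5⟩
    obtain ⟨σ, hσd⟩ : ∃ σ : Pl K → R, σ = fun v => if v ∈ un g then ρ (L.t v) else 1 := ⟨_, rfl⟩
    have hσ1 : ∀ v ∈ un g, σ v = ρ (L.t v) := fun v hv => by
      rw [hσd]
      exact if_pos hv
    have hσ0 : ∀ v, v ∉ un g → σ v = 1 := fun v hv => by
      rw [hσd]
      exact if_neg hv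
    have hσ : σ ∈ LB (clv Dg T g) (un g) := by
      rw [mem_LB]
      refine ⟨fun v hv => ?_, hσ0⟩
      obtain ⟨a, ha⟩ := pfa_un.1 hv
      rw [clv_eq Dg T hg ha, mem_clR, hσ1 v hv]
      exact (r3 _ v ((pfa_clf T).2 ⟨a, rfl, ha⟩)).1
    refine ⟨σ, hσ, r1, fun s k => ?_, fun v hv => ⟨(hσ1 v hv).symm, ?_⟩, r4, ?_⟩
    · rw [← hak σ hσ k]
      exact r2 s k
    · obtain ⟨a, ha⟩ := pfa_un.1 hv
      exact (r3 _ v ((pfa_clf T).2 ⟨a, rfl, ha⟩)).2
    · intro v hv hvE hvn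
      refine r5 v hv hvE fun i hi => hvn ?_
      obtain ⟨a, -, ha⟩ := (pfa_clf T).1 hi
      exact pfa_un.2 ⟨a, ha⟩
  · rintro ⟨σ, hσ, r1, r2, r3, r4, r5⟩
    refine ⟨r1, fun s k => ?_, fun i v hv => ?_, r4, ?_⟩
    · rw [hak σ hσ k]
      exact r2 s k
    · obtain ⟨a, hai, ha⟩ := (pfa_clf T).1 hv
      have hvu : v ∈ un g := pfa_un.2 ⟨a, ha⟩
      obtain ⟨h1, h2⟩ := r3 v hvu
      refine ⟨?_, h2⟩
      have h3 := ((mem_LB _ _ _).1 hσ).1 v hvu
      rw [clv_eq Dg T hg ha, mem_clR, hai] at h3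
      rw [h1]
      exact h3
    · intro v hv hvE hvn
      refine r5 v hv hvE fun hvu => ?_
      obtain ⟨a, ha⟩ := pfa_un.1 hvu
      exact hvn _ ((pfa_clf T).2 ⟨a, rfl, ha⟩)

theorem rh_fin [NeZero p] [Finite R] (hp : p.Prime) (hζ : IsPrimitiveRoot ζ p) (D : RD K p ζ)
    {L : LDs D.toRD0 Ω} (Fr : FR L) (Dg : GP p m l w N P R) (T : TY N w p J) (b : Fin m → Kˣ)
    (E : Finset (Pl K)) (ε : Pl K → Gal(Ω/K) → R) {g : J → Finset (Pl K)} (hg : Dj g)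
    (hG : ∀ a, ∀ v ∈ g a, v ∉ D.S0) : (RH L Dg b E ε (clf T g)).Finite := by
  have hn : ∀ v ∈ un g, v ∉ D.S0 := by
    intro v hv
    obtain ⟨a, ha⟩ := pfa_un.1 hv
    exact hG a v ha
  refine Set.Finite.subset (Set.Finite.biUnion (LB (clv Dg T g) (un g)).finite_toSet
    fun σ _ => xs_finite hp hζ D L Fr Dg b E ε (un g) σ hn) ?_
  intro ρ hρ
  obtain ⟨σ, hσ, h1⟩ := (rh_xs L Dg T b E ε hg ρ).1 hρ
  exact Set.mem_biUnion (Finset.mem_coe.2 hσ) h1

theorem pf_eq [NeZero p] [Finite R] (hp : p.Prime) (hζ : IsPrimitiveRoot ζ p) (D : RD K p ζ)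
    {L : LDs D.toRD0 Ω} (Fr : FR L) (Dg : GP p m l w N P R) (T : TY N w p J) (b : Fin m → Kˣ)
    (E : Finset (Pl K)) (hE : ∀ v ∈ E, v ∉ D.S0) (ε : Pl K → Gal(Ω/K) → R)
    {g : J → Finset (Pl K)} (hg : Dj g) (hG : ∀ a, ∀ v ∈ g a, v ∉ D.S0) :
    PF Dg Fr T b E ε g = (Nat.card (H1 L Dg) : ℂ) *
      ∑ σ ∈ LB (clv Dg T g) (un g), FF Dg Fr b E ε (un g) σ (psv T g) := by
  have hn : ∀ v ∈ un g, v ∉ D.S0 := by
    intro v hv
    obtain ⟨a, ha⟩ := pfa_un.1 hv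
    exact hG a v ha
  have hfin := rh_fin hp hζ D Fr Dg T b E ε hg hG
  have hRH : RHf L Dg b E ε (clf T g) = (LB (clv Dg T g) (un g)).biUnion
      fun σ => (xs_finite hp hζ D L Fr Dg b E ε (un g) σ hn).toFinset := by
    unfold RHf
    rw [dif_pos hfin]
    ext ρ
    rw [Set.Finite.mem_toFinset, Finset.mem_biUnion, rh_xs L Dg T b E ε hg ρ]
    constructor
    · rintro ⟨σ, hσ, h⟩
      exact ⟨σ, hσ, (Set.Finite.mem_toFinset _).2 h⟩
    · rintro ⟨σ, hσ, h⟩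
      exact ⟨σ, hσ, (Set.Finite.mem_toFinset _).1 h⟩
  have hdis : ((LB (clv Dg T g) (un g) : Finset (Pl K → R)) : Set (Pl K → R)).PairwiseDisjoint
      fun σ => (xs_finite hp hζ D L Fr Dg b E ε (un g) σ hn).toFinset := by
    intro σ hσ σ' hσ' hne
    rw [Function.onFun, Finset.disjoint_left]
    intro ρ h1 h2
    rw [Set.Finite.mem_toFinset] at h1 h2
    apply hne
    funext v
    by_cases hv : v ∈ un g
    · rw [← (h1.2.2.1 v hv).1, ← (h2.2.2.1 v hv).1]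
    · rw [((mem_LB _ _ _).1 (Finset.mem_coe.1 hσ)).2 v hv,
        ((mem_LB _ _ _).1 (Finset.mem_coe.1 hσ')).2 v hv]
  have hph : ∀ ρ : Gal(Ω/K) →* R, ∑ a, ∑ v ∈ g a, dt (T.psi a) (cq Dg Fr ρ v) =
      EE Dg Fr (un g) (psv T g) ρ := by
    intro ρ
    unfold EE un
    rw [Finset.sum_biUnion (fun a _ a' _ h => hg a a' h)]
    exact Finset.sum_congr rfl fun a _ => Finset.sum_congr rfl fun v hv => by
      rw [psv_eq T hg hv]
  unfold PF
  rw [hRH, Finset.sum_biUnion hdis, Finset.mul_sum]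
  refine Finset.sum_congr rfl fun σ _ => ?_
  rw [← ff_sum hp hζ D Fr Dg b E ε (un g) σ (psv T g) hE hn]
  exact Finset.sum_congr rfl fun ρ _ => by rw [hph]

end H51.CUB
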