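import Pool.Agent.H51.CUB.PFA

/-!
[H51 CUB PFB]  Typed families with added primes (180-240 lines). PROOF.

`QH D E g q`: the rest `g` and the added primes `q`: `g` disjoint, all primes good and outside `E`, `q` injective and outside `g`.
* `addr_dj`, `addr_mem`: `v ∈ addr g τ q a ↔ v ∈ g a ∨ ∃ i, τ i = a ∧ q i = v`. `un_addr`: `un (addr g τ q) = vn (un g) q`. `spt_addr`: `a ∈ spt (addr g τ q) ↔ a ∈ spt g ∨ ∃ i, τ i = a`.
* `card_addr`, `nr_addr`, `prod_addr`: sums / products over `addr` split into `g` and the `q i` (`Finset.prod_union`, `Finset.prod_image`, and `∏ a, ∏ i with τ i = a, F i = ∏ i, F i`: `Finset.prod_fiberwise`; `τ i = a` is used to rewrite `f a` as `f (τ i)`).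
* `pf_addr`: `pf_eq` for `addr g τ q`. The sum over `LB (clv (addr g τ q)) (vn (un g) q)` is the sum over `σ' ∈ LB (clv g) (un g)` and `x ∈ piFinset (clR (cls (τ i)))`, `σ = vs σ' q x` (bijection: `σ' =` `σ` on `un g`, `1` outside; `x i = σ (q i)`; `clv` of `addr g τ q` at `v ∈ un g` is `clv` of `g`, at `q i` it is `clR (cls (τ i))`, by `clv_eq`).
`psv T (addr g τ q) = vs (psv T g) q (fun i => T.psi (τ i))` on `vn (un g) q` (`psv_eq`, `vs_q`, `vs_out`; `ff_congr` to compare), and `VF` is `FF` since `q` is injective and outside `un g`.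
* `pf_le`: `pf_eq`, `ff_norm`: every `FF` has norm `≤ 1`, `card_LB` with `M = Nat.card R`; `(un g).card = ∑ a, (g a).card` (`Finset.card_biUnion`).
-/

set_option autoImplicit false

open scoped NumberField
open IsDedekindDomain
open scoped Classical

noncomputable section

namespace H51.CUB

open H63.MA H38.BB H38.BG H57.PC H77.PC3

variable {K : Type} [Field K] [NumberField K] {p : ℕ} {ζ : K} {Ω : Type} [Field Ω] [Algebra K Ω]
  {m l w N : ℕ} {P R : Type} [Group P] [Group R] {J : Type} [Fintype J]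

/-- a rest and added primes -/
structure QH (D : RD0 K p ζ) (E : Finset (Pl K)) {r : ℕ} (g : J → Finset (Pl K))
    (q : Fin r → Pl K) : Prop where
  dj : Dj g
  gd : ∀ a, ∀ v ∈ g a, D.Gd v ∧ v ∉ E
  inj : Function.Injective q
  qd : ∀ i, D.Gd (q i) ∧ q i ∉ E
  out : ∀ i a, q i ∉ g a

omit [Fintype J] in
theorem mem_addr {r : ℕ} (g : J → Finset (Pl K)) (τ : Fin r → J) (q : Fin r → Pl K) (a : J)
    (v : Pl K) : v ∈ addr g τ q a ↔ v ∈ g a ∨ ∃ i, τ i = a ∧ q i = v := by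
  unfold addr
  rw [Finset.mem_union, Finset.mem_image]
  simp only [Finset.mem_filter, Finset.mem_univ, true_and]

omit [Fintype J] in
theorem addr_dj {r : ℕ} {g : J → Finset (Pl K)} (τ : Fin r → J) {q : Fin r → Pl K} (hg : Dj g)
    (hq : Function.Injective q) (ho : ∀ i a, q i ∉ g a) : Dj (addr g τ q) := by
  intro a a' haa
  rw [Finset.disjoint_left]
  intro v h1 h2
  rw [mem_addr] at h1 h2
  rcases h1 with h1 | ⟨i, hi, h1⟩ <;> rcases h2 with h2 | ⟨j, hj, h2⟩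
  · exact Finset.disjoint_left.1 (hg a a' haa) h1 h2
  · rw [← h2] at h1
    exact ho j a h1
  · rw [← h1] at h2
    exact ho i a' h2
  · rw [← h2] at h1
    rw [hq h1] at hi
    exact haa (hi.symm.trans hj)

private theorem pfb_un {g : J → Finset (Pl K)} {v : Pl K} : v ∈ un g ↔ ∃ a, v ∈ g a := by
  unfold un
  rw [Finset.mem_biUnion]
  exact ⟨fun ⟨a, _, h⟩ => ⟨a, h⟩, fun ⟨a, h⟩ => ⟨a, Finset.mem_univ _, h⟩⟩

private theorem pfb_vn {r : ℕ} {n : Finset (Pl K)} {q : Fin r → Pl K} {v : Pl K} :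
    v ∈ vn n q ↔ v ∈ n ∨ ∃ i, q i = v := by
  unfold vn
  rw [Finset.mem_union, Finset.mem_image]
  simp only [Finset.mem_univ, true_and]

theorem un_addr {r : ℕ} (g : J → Finset (Pl K)) (τ : Fin r → J) (q : Fin r → Pl K) :
    un (addr g τ q) = vn (un g) q := by
  ext v
  rw [pfb_un, pfb_vn, pfb_un]
  constructor
  · rintro ⟨a, ha⟩
    rw [mem_addr] at ha
    rcases ha with ha | ⟨i, _, hi⟩
    · exact Or.inl ⟨a, ha⟩
    · exact Or.inr ⟨i, hi⟩
  · rintro (⟨a, ha⟩ | ⟨i, hi⟩)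
    · exact ⟨a, (mem_addr _ _ _ _ _).2 (Or.inl ha)⟩
    · exact ⟨τ i, (mem_addr _ _ _ _ _).2 (Or.inr ⟨i, rfl, hi⟩)⟩

theorem spt_addr {r : ℕ} (g : J → Finset (Pl K)) (τ : Fin r → J) (q : Fin r → Pl K) (a : J) :
    a ∈ spt (addr g τ q) ↔ a ∈ spt g ∨ ∃ i, τ i = a := by
  unfold spt
  simp only [Finset.mem_filter, Finset.mem_univ, true_and]
  rw [← Finset.nonempty_iff_ne_empty, ← Finset.nonempty_iff_ne_empty]
  constructor
  · rintro ⟨v, hv⟩
    rw [mem_addr] at hv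
    rcases hv with hv | ⟨i, hi, _⟩
    · exact Or.inl ⟨v, hv⟩
    · exact Or.inr ⟨i, hi⟩
  · rintro (⟨v, hv⟩ | ⟨i, hi⟩)
    · exact ⟨v, (mem_addr _ _ _ _ _).2 (Or.inl hv)⟩
    · exact ⟨q i, (mem_addr _ _ _ _ _).2 (Or.inr ⟨i, hi, rfl⟩)⟩

private theorem pfb_prod {M : Type} [CommMonoid M] {r : ℕ} {g : J → Finset (Pl K)}
    (τ : Fin r → J) {q : Fin r → Pl K}
    (hq : Function.Injective q) (ho : ∀ i a, q i ∉ g a) (F : J → Pl K → M) :
    ∏ a, ∏ v ∈ addr g τ q a, F a v = (∏ a, ∏ v ∈ g a, F a v) * ∏ i, F (τ i) (q i) := by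
  have h1 : ∀ a, ∏ v ∈ addr g τ q a, F a v = (∏ v ∈ g a, F a v) *
      ∏ i ∈ Finset.univ.filter (fun i => τ i = a), F (τ i) (q i) := by
    intro a
    unfold addr
    rw [Finset.prod_union, Finset.prod_image (fun x _ y _ h => hq h)]
    · congr 1
      refine Finset.prod_congr rfl fun i hi => ?_
      rw [(Finset.mem_filter.1 hi).2]
    · rw [Finset.disjoint_left]
      intro v hv hv'
      obtain ⟨i, -, rfl⟩ := Finset.mem_image.1 hv'
      exact ho i a hv
  rw [Finset.prod_congr rfl fun a _ => h1 a, Finset.prod_mul_distrib,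
    Finset.prod_fiberwise Finset.univ τ]

private theorem pfb_sum {M : Type} [AddCommMonoid M] {r : ℕ} {g : J → Finset (Pl K)}
    (τ : Fin r → J) {q : Fin r → Pl K}
    (hq : Function.Injective q) (ho : ∀ i a, q i ∉ g a) (F : J → Pl K → M) :
    ∑ a, ∑ v ∈ addr g τ q a, F a v = (∑ a, ∑ v ∈ g a, F a v) + ∑ i, F (τ i) (q i) := by
  have h1 : ∀ a, ∑ v ∈ addr g τ q a, F a v = (∑ v ∈ g a, F a v) +
      ∑ i ∈ Finset.univ.filter (fun i => τ i = a), F (τ i) (q i) := by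
    intro a
    unfold addr
    rw [Finset.sum_union, Finset.sum_image (fun x _ y _ h => hq h)]
    · congr 1
      refine Finset.sum_congr rfl fun i hi => ?_
      rw [(Finset.mem_filter.1 hi).2]
    · rw [Finset.disjoint_left]
      intro v hv hv'
      obtain ⟨i, -, rfl⟩ := Finset.mem_image.1 hv'
      exact ho i a hv
  rw [Finset.sum_congr rfl fun a _ => h1 a, Finset.sum_add_distrib,
    Finset.sum_fiberwise Finset.univ τ]

theorem card_addr {r : ℕ} {g : J → Finset (Pl K)} (τ : Fin r → J) {q : Fin r → Pl K}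
    (hq : Function.Injective q) (ho : ∀ i a, q i ∉ g a) :
    ∑ a, (addr g τ q a).card = ∑ a, (g a).card + r := by
  have h1 := pfb_sum τ hq ho (fun _ _ => (1 : ℕ))
  simp only [Finset.sum_const, smul_eq_mul, mul_one, Finset.card_univ, Fintype.card_fin] at h1
  exact h1

theorem nr_addr {r : ℕ} {g : J → Finset (Pl K)} (τ : Fin r → J) {q : Fin r → Pl K}
    (hq : Function.Injective q) (ho : ∀ i a, q i ∉ g a) :
    ∏ a, nr (addr g τ q a) = (∏ a, nr (g a)) * ∏ i, (nm (q i) : ℝ) :=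
  pfb_prod τ hq ho (fun _ v => (nm v : ℝ))

theorem prod_addr {r : ℕ} {g : J → Finset (Pl K)} (τ : Fin r → J) {q : Fin r → Pl K}
    (hq : Function.Injective q) (ho : ∀ i a, q i ∉ g a) (wt : J → ℝ) :
    ∏ a, wt a ^ (addr g τ q a).card = (∏ a, wt a ^ (g a).card) * ∏ i, wt (τ i) := by
  have h1 := pfb_prod τ hq ho (fun a _ => wt a)
  simp only [Finset.prod_const] at h1
  exact h1

variable [IsAlgClosure K Ω]

theorem pf_addr [NeZero p] [Finite R] (hp : p.Prime) (hζ : IsPrimitiveRoot ζ p) (D : RD K p ζ)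
    {L : LDs D.toRD0 Ω} (Fr : FR L) (Dg : GP p m l w N P R) (T : TY N w p J) (b : Fin m → Kˣ)
    (E : Finset (Pl K)) (hE : ∀ v ∈ E, v ∉ D.S0) (ε : Pl K → Gal(Ω/K) → R) {r : ℕ}
    {g : J → Finset (Pl K)} (τ : Fin r → J) {q : Fin r → Pl K} (h : QH D.toRD0 E g q) :
    PF Dg Fr T b E ε (addr g τ q) = (Nat.card (H1 L Dg) : ℂ) *
      ∑ σ ∈ LB (clv Dg T g) (un g),
        ∑ x ∈ Fintype.piFinset (fun i => clR Dg (T.cls (τ i))),
          VF Dg Fr b E ε (un g) σ (psv T g) x (fun i => T.psi (τ i)) q := by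
  have hdj : Dj (addr g τ q) := addr_dj τ h.dj h.inj h.out
  have hS : ∀ a, ∀ v ∈ addr g τ q a, v ∉ D.S0 := by
    intro a v hv
    rw [mem_addr] at hv
    rcases hv with hv | ⟨i, _, hi⟩
    · exact (h.gd a v hv).1.1
    · rw [← hi]
      exact (h.qd i).1.1
  have hqn : ∀ i, q i ∉ un g := by
    intro i hi
    obtain ⟨a, ha⟩ := pfb_un.1 hi
    exact h.out i a ha
  have hqne : ∀ v ∈ un g, ∀ i, q i ≠ v := by
    rintro v hv i rfl
    exact hqn i hv
  rw [pf_eq hp hζ D Fr Dg T b E hE ε hdj hS, un_addr]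
  congr 1
  have hcn : ∀ v ∈ un g, clv Dg T (addr g τ q) v = clv Dg T g v := by
    intro v hv
    obtain ⟨a, ha⟩ := pfb_un.1 hv
    rw [clv_eq Dg T h.dj ha, clv_eq Dg T hdj ((mem_addr _ _ _ _ _).2 (Or.inl ha))]
  have hcq : ∀ i, clv Dg T (addr g τ q) (q i) = clR Dg (T.cls (τ i)) := fun i =>
    clv_eq Dg T hdj ((mem_addr _ _ _ _ _).2 (Or.inr ⟨i, rfl, rfl⟩))
  have hpn : ∀ v ∈ un g, psv T (addr g τ q) v = psv T g v := by
    intro v hv
    obtain ⟨a, ha⟩ := pfb_un.1 hv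
    rw [psv_eq T h.dj ha, psv_eq T hdj ((mem_addr _ _ _ _ _).2 (Or.inl ha))]
  have hpq : ∀ i, psv T (addr g τ q) (q i) = T.psi (τ i) := fun i =>
    psv_eq T hdj ((mem_addr _ _ _ _ _).2 (Or.inr ⟨i, rfl, rfl⟩))
  have hvs : ∀ σ ∈ LB (clv Dg T (addr g τ q)) (vn (un g) q),
      vs (fun v => if v ∈ un g then σ v else 1) q (fun i => σ (q i)) = σ := by
    intro σ hσ
    funext v
    by_cases hv : ∃ i, q i = v
    · obtain ⟨i, rfl⟩ := hv
      rw [vs_q _ h.inj]
    · rw [vs_out _ _ fun i hi => hv ⟨i, hi⟩]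
      show (if v ∈ un g then σ v else 1) = σ v
      by_cases hvn : v ∈ un g
      · rw [if_pos hvn]
      · rw [if_neg hvn, ((mem_LB _ _ _).1 hσ).2 v]
        rw [pfb_vn]
        rintro (h1 | h1)
        · exact hvn h1
        · exact hv h1
  rw [← Finset.sum_product' (LB (clv Dg T g) (un g))
    (Fintype.piFinset fun i => clR Dg (T.cls (τ i)))
    (fun σ x => VF Dg Fr b E ε (un g) σ (psv T g) x (fun i => T.psi (τ i)) q)]
  refine Finset.sum_nbij' (fun σ => (fun v => if v ∈ un g then σ v else 1, fun i => σ (q i)))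
    (fun z => vs z.1 q z.2) ?_ ?_ ?_ ?_ ?_
  · intro σ hσ
    have h1 := (mem_LB _ _ _).1 hσ
    rw [Finset.mem_product, mem_LB, Fintype.mem_piFinset]
    refine ⟨⟨fun v hv => ?_, fun v hv => if_neg hv⟩, fun i => ?_⟩
    · show (if v ∈ un g then σ v else 1) ∈ clv Dg T g v
      rw [if_pos hv, ← hcn v hv]
      exact h1.1 v (pfb_vn.2 (Or.inl hv))
    · have h2 := h1.1 (q i) (pfb_vn.2 (Or.inr ⟨i, rfl⟩))
      rw [hcq] at h2
      exact h2
  · intro z hz
    rw [Finset.mem_product, mem_LB, Fintype.mem_piFinset] at hz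
    obtain ⟨⟨h1, h2⟩, h3⟩ := hz
    rw [mem_LB]
    refine ⟨fun v hv => ?_, fun v hv => ?_⟩
    · rcases pfb_vn.1 hv with h4 | ⟨i, rfl⟩
      · rw [vs_out z.1 z.2 (hqne v h4), hcn v h4]
        exact h1 v h4
      · rw [vs_q z.1 h.inj, hcq]
        exact h3 i
    · rw [pfb_vn, not_or] at hv
      rw [vs_out z.1 z.2 fun i hi => hv.2 ⟨i, hi⟩]
      exact h2 v hv.1
  · intro σ hσ
    exact hvs σ hσ
  · intro z hz
    rw [Finset.mem_product, mem_LB, Fintype.mem_piFinset] at hz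
    obtain ⟨⟨h1, h2⟩, h3⟩ := hz
    refine Prod.ext ?_ ?_
    · funext v
      show (if v ∈ un g then vs z.1 q z.2 v else 1) = z.1 v
      by_cases hvn : v ∈ un g
      · rw [if_pos hvn, vs_out z.1 z.2 (hqne v hvn)]
      · rw [if_neg hvn, h2 v hvn]
    · funext i
      exact vs_q z.1 h.inj z.2 i
  · intro σ hσ
    show FF Dg Fr b E ε (vn (un g) q) σ (psv T (addr g τ q)) =
      VF Dg Fr b E ε (un g) (fun v => if v ∈ un g then σ v else 1) (psv T g) (fun i => σ (q i))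
        (fun i => T.psi (τ i)) q
    unfold VF
    rw [if_pos ⟨h.inj, hqn⟩, hvs σ hσ]
    refine ff_congr Dg Fr b E ε (vn (un g) q) (fun _ _ => rfl) fun v hv => ?_
    rcases pfb_vn.1 hv with h4 | ⟨i, rfl⟩
    · rw [vs_out (psv T g) _ (hqne v h4), hpn v h4]
    · rw [vs_q (psv T g) h.inj, hpq]

theorem pf_le [NeZero p] [Finite R] (hp : p.Prime) (hζ : IsPrimitiveRoot ζ p) (D : RD K p ζ)
    {L : LDs D.toRD0 Ω} (Fr : FR L) (Dg : GP p m l w N P R) (T : TY N w p J) (b : Fin m → Kˣ)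
    (E : Finset (Pl K)) (hE : ∀ v ∈ E, v ∉ D.S0) (ε : Pl K → Gal(Ω/K) → R)
    {g : J → Finset (Pl K)} (hg : Dj g) (hG : ∀ a, ∀ v ∈ g a, v ∉ D.S0) :
    ‖PF Dg Fr T b E ε g‖ ≤ (Nat.card (H1 L Dg) : ℝ) * (Nat.card R : ℝ) ^ (∑ a, (g a).card) := by
  rw [pf_eq hp hζ D Fr Dg T b E hE ε hg hG, norm_mul, Complex.norm_natCast]
  refine mul_le_mul_of_nonneg_left ?_ (Nat.cast_nonneg _)
  refine (norm_sum_le _ _).trans ?_
  have h1 : ∀ σ ∈ LB (clv Dg T g) (un g), ‖FF Dg Fr b E ε (un g) σ (psv T g)‖ ≤ 1 := by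
    intro σ _
    rcases ff_norm Fr Dg b E ε (un g) σ (psv T g) with h | h
    · rw [h, norm_zero]
      exact zero_le_one
    · exact h.le
  refine (Finset.sum_le_sum h1).trans ?_
  rw [Finset.sum_const, nsmul_eq_mul, mul_one]
  have h2 : ∀ v ∈ un g, (clv Dg T g v).card ≤ Nat.card R := by
    intro v _
    have hR : Fintype R := Fintype.ofFinite R
    rw [Nat.card_eq_fintype_card]
    exact Finset.card_le_univ _
  have h3 := card_LB (clv Dg T g) (un g) (Nat.card R) h2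
  have h4 : (un g).card = ∑ a, (g a).card := by
    unfold un
    rw [Finset.card_biUnion (fun a _ a' _ h => hg a a' h)]
  rw [h4] at h3
  exact_mod_cast h3

end H51.CUB
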