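import Pool.Agent.H51.CUB.SDef
import Pool.Agent.H51.CUB.PDef
import Pool.Agent.H63.MA.ADivJ

/-!
[H51 CUB SMA]  Marking primes of a family (180-240 lines). PROOF.

`PX D X`: the good primes of norm at most `X` (`mem_PX`: `v ∈ n ∈ GF D X` has `nm v ≤ nr n ≤ X`; conversely `{v} ∈ GF D X`; `mem_AF`).
* `sma`: for `g` with `g (τ i) ≠ ∅` for all `i`: `F g = ∑ q ∈ Fintype.piFinset (fun i => g (τ i)), F g * ∏ i, (#(g (τ i)))⁻¹` (`Fintype.card_piFinset`, the cardinals are not `0`); the left side is a double sum over pairs `(g, q)`. The right side is a double sum over pairs `(g', q)`. Bijection: `(g, q) ↦ (g', q)` with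
`g' a = g a \ (image q of {i | τ i = a})`, inverse `(g', q) ↦ (addr g' τ q, q)`. If `q i ∈ g (τ i)` for all `i` and `Dj g`, `τ` injective: `q` is injective, `q i ∉ g' a`, `addr g' τ q = g`, `#(g (τ i)) = #(g' (τ i)) + 1`, `∏ nr (g a) = ∏ nr (g' a) * ∏ nm (q i)` (so `≤ X` is the same condition and `nr (g' a) ≤ X`, `nm (q i) ≤ X`).
Conversely from `Dj g'`, `q` injective, `q i ∉ g' a`: `Dj (addr g' τ q)`, `q i ∈ addr g' τ q (τ i)`, and removing the `q i` gives `g'`. (The facts on `addr` are also stated in `PFB.lean` for `Rho`-free data: `mem_addr`, `addr_dj`, `nr_addr`; you may import `PFB` or reprove them.) `Finset.sum_bij'` or `Finset.sum_nbij'` on `Finset.sigma` / products.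
* `err_sum`: `sma` (complex numbers; or the same proof over the reals, cast) with `F g = M ^ #g * ∏ i, #(g (τ i))`: the right side is the sum of `M ^ (#g' + r)`; the left side is at most `∑ g, (2 ^ r * M) ^ #g` (`#(g (τ i)) ≤ 2 ^ #g`, `#g = ∑ a, #(g a)`), bounded by `af_tup` (`H63/MA/ADivJ`) with `k = ⌈2 ^ r * M⌉₊` and `y = 2 ^ (r + 1) * Y`;
`1 + log y ≤ (r + 2) * (1 + log Y)` for `Y ≥ 1`.
-/

set_option autoImplicit false

open scoped NumberField
open IsDedekindDomain
open scoped Classical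

noncomputable section

namespace H51.CUB

open H63.MA H38.BB H38.BG H57.PC

variable {K : Type} [Field K] [NumberField K] {p : ℕ} {ζ : K}

/-- the good primes of norm at most `X` -/
def PX (D : RD0 K p ζ) (X : ℝ) : Finset (Pl K) := (GF D X).biUnion id

private theorem sma_le {n : Finset (Pl K)} {v : Pl K} (hv : v ∈ n) : (nm v : ℝ) ≤ nr n := by
  unfold nr
  rw [← Finset.mul_prod_erase n (fun v => (nm v : ℝ)) hv]
  have h1 : (1 : ℝ) ≤ ∏ w ∈ n.erase v, (nm w : ℝ) := one_le_nr (n.erase v)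
  have h2 : (0 : ℝ) ≤ (nm v : ℝ) := Nat.cast_nonneg _
  nlinarith

private theorem sma_mono {n n' : Finset (Pl K)} (h : n ⊆ n') : nr n ≤ nr n' := by
  unfold nr
  rw [← Finset.prod_sdiff h]
  have h1 : (1 : ℝ) ≤ ∏ w ∈ n' \ n, (nm w : ℝ) := one_le_nr (n' \ n)
  have h2 : (1 : ℝ) ≤ ∏ w ∈ n, (nm w : ℝ) := one_le_nr n
  nlinarith

private theorem sma_mem {J : Type} {r : ℕ} (g : J → Finset (Pl K)) (τ : Fin r → J)
    (q : Fin r → Pl K) (a : J) (v : Pl K) :
    v ∈ addr g τ q a ↔ v ∈ g a ∨ ∃ i, τ i = a ∧ q i = v := by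
  unfold addr
  rw [Finset.mem_union, Finset.mem_image]
  simp only [Finset.mem_filter, Finset.mem_univ, true_and]

private theorem sma_dj {J : Type} {r : ℕ} {g : J → Finset (Pl K)} (τ : Fin r → J)
    {q : Fin r → Pl K} (hg : Dj g)
    (hq : Function.Injective q) (ho : ∀ i a, q i ∉ g a) : Dj (addr g τ q) := by
  intro a a' haa
  rw [Finset.disjoint_left]
  intro v h1 h2
  rw [sma_mem] at h1 h2
  rcases h1 with h1 | ⟨i, hi, h1⟩ <;> rcases h2 with h2 | ⟨j, hj, h2⟩
  · exact Finset.disjoint_left.1 (hg a a' haa) h1 h2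
  · rw [← h2] at h1
    exact ho j a h1
  · rw [← h1] at h2
    exact ho i a' h2
  · rw [← h2] at h1
    rw [hq h1] at hi
    exact haa (hi.symm.trans hj)

private theorem sma_prod {J : Type} [Fintype J] {M : Type} [CommMonoid M] {r : ℕ}
    {g : J → Finset (Pl K)} (τ : Fin r → J) {q : Fin r → Pl K}
    (hq : Function.Injective q) (ho : ∀ i a, q i ∉ g a) (F : J → Pl K → M) :
    ∏ a, ∏ v ∈ addr g τ q a, F a v = (∏ a, ∏ v ∈ g a, F a v) * ∏ i, F (τ i) (q i) := by
  have h1 : ∀ a, ∏ v ∈ addr g τ q a, F a v = (∏ v ∈ g a, F a v) *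
      ∏ i ∈ Finset.univ.filter (fun i => τ i = a), F (τ i) (q i) := by
    intro a
    unfold addr
    rw [Finset.prod_union, Finset.prod_image (fun x _ y _ h => hq h)]
    · congr 1
      refine Finset.prod_congr rfl fun i hi => ?_
      rw [(Finset.mem_filter.1 hi).2]
    · rw [Finset.disjoint_left]
      intro v hv hv'
      obtain ⟨i, -, rfl⟩ := Finset.mem_image.1 hv'
      exact ho i a hv
  rw [Finset.prod_congr rfl fun a _ => h1 a, Finset.prod_mul_distrib,
    Finset.prod_fiberwise Finset.univ τ]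

private theorem sma_sum {J : Type} [Fintype J] {M : Type} [AddCommMonoid M] {r : ℕ}
    {g : J → Finset (Pl K)} (τ : Fin r → J) {q : Fin r → Pl K}
    (hq : Function.Injective q) (ho : ∀ i a, q i ∉ g a) (F : J → Pl K → M) :
    ∑ a, ∑ v ∈ addr g τ q a, F a v = (∑ a, ∑ v ∈ g a, F a v) + ∑ i, F (τ i) (q i) := by
  have h1 : ∀ a, ∑ v ∈ addr g τ q a, F a v = (∑ v ∈ g a, F a v) +
      ∑ i ∈ Finset.univ.filter (fun i => τ i = a), F (τ i) (q i) := by
    intro a
    unfold addr
    rw [Finset.sum_union, Finset.sum_image (fun x _ y _ h => hq h)]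
    · congr 1
      refine Finset.sum_congr rfl fun i hi => ?_
      rw [(Finset.mem_filter.1 hi).2]
    · rw [Finset.disjoint_left]
      intro v hv hv'
      obtain ⟨i, -, rfl⟩ := Finset.mem_image.1 hv'
      exact ho i a hv
  rw [Finset.sum_congr rfl fun a _ => h1 a, Finset.sum_add_distrib,
    Finset.sum_fiberwise Finset.univ τ]

private theorem sma_card {J : Type} [Fintype J] {r : ℕ} {g : J → Finset (Pl K)} (τ : Fin r → J)
    {q : Fin r → Pl K} (hq : Function.Injective q) (ho : ∀ i a, q i ∉ g a) :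
    ∑ a, (addr g τ q a).card = ∑ a, (g a).card + r := by
  have h1 := sma_sum τ hq ho (fun _ _ => (1 : ℕ))
  simp only [Finset.sum_const, smul_eq_mul, mul_one, Finset.card_univ, Fintype.card_fin] at h1
  exact h1

private theorem sma_nr {J : Type} [Fintype J] {r : ℕ} {g : J → Finset (Pl K)} (τ : Fin r → J)
    {q : Fin r → Pl K} (hq : Function.Injective q) (ho : ∀ i a, q i ∉ g a) :
    ∏ a, nr (addr g τ q a) = (∏ a, nr (g a)) * ∏ i, (nm (q i) : ℝ) :=
  sma_prod τ hq ho (fun _ v => (nm v : ℝ))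

private theorem sma_card1 {J : Type} {r : ℕ} {g : J → Finset (Pl K)} {τ : Fin r → J}
    (hτ : Function.Injective τ) {q : Fin r → Pl K} (ho : ∀ i a, q i ∉ g a) (i : Fin r) :
    (addr g τ q (τ i)).card = (g (τ i)).card + 1 := by
  have h1 : addr g τ q (τ i) = insert (q i) (g (τ i)) := by
    ext v
    rw [sma_mem, Finset.mem_insert]
    constructor
    · rintro (h | ⟨j, hj, h⟩)
      · exact Or.inr h
      · rw [hτ hj] at h
        exact Or.inl h.symm
    · rintro (h | h)
      · exact Or.inr ⟨i, rfl, h.symm⟩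
      · exact Or.inl h
  rw [h1, Finset.card_insert_of_notMem (ho i (τ i))]

private theorem sma_one {J : Type} [Fintype J] (g : J → Finset (Pl K)) (a : J) :
    nr (g a) ≤ ∏ a, nr (g a) := by
  rw [← Finset.mul_prod_erase Finset.univ (fun a => nr (g a)) (Finset.mem_univ a)]
  have h1 : (1 : ℝ) ≤ ∏ x ∈ Finset.univ.erase a, nr (g x) := by
    have := Finset.prod_le_prod (s := Finset.univ.erase a) (f := fun _ => (1 : ℝ))
      (g := fun x => nr (g x)) (fun _ _ => zero_le_one) (fun x _ => one_le_nr (g x))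
    rwa [Finset.prod_const_one] at this
  have h2 := one_le_nr (g a)
  nlinarith

theorem mem_PX (D : RD0 K p ζ) (X : ℝ) (v : Pl K) : v ∈ PX D X ↔ D.Gd v ∧ (nm v : ℝ) ≤ X := by
  unfold PX
  rw [Finset.mem_biUnion]
  constructor
  · rintro ⟨n, hn, hv⟩
    have hv' : v ∈ n := hv
    have hn' := Finset.mem_filter.1 hn
    refine ⟨hn'.2 v hv', le_trans ?_ (mem_AF.1 hn'.1)⟩
    exact sma_le hv'
  · rintro ⟨h1, h2⟩
    refine ⟨{v}, Finset.mem_filter.2 ⟨mem_AF.2 ?_, ?_⟩, Finset.mem_singleton_self v⟩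
    · unfold nr
      rw [Finset.prod_singleton]
      exact h2
    · intro w hw
      rw [Finset.mem_singleton.1 hw]
      exact h1

/-- the conditions for a rest and added primes -/
def RQ {J : Type} [Fintype J] {r : ℕ} (X : ℝ) (g : J → Finset (Pl K)) (q : Fin r → Pl K) : Prop :=
  Dj g ∧ Function.Injective q ∧ (∀ i a, q i ∉ g a) ∧ (∏ a, nr (g a)) * ∏ i, (nm (q i) : ℝ) ≤ X

private theorem sma_gen {𝕜 : Type} [Field 𝕜] [CharZero 𝕜] (D : RD0 K p ζ) {J : Type} [Fintype J]
    {r : ℕ} (X : ℝ) (τ : Fin r → J)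
    (hτ : Function.Injective τ) (F : (J → Finset (Pl K)) → 𝕜) :
    ∑ g ∈ Fintype.piFinset (fun _ : J => GF D X),
      (if Dj g ∧ ∏ a, nr (g a) ≤ X ∧ ∀ i, g (τ i) ≠ ∅ then F g else 0) =
    ∑ g ∈ Fintype.piFinset (fun _ : J => GF D X), ∑ q ∈ Fintype.piFinset (fun _ : Fin r => PX D X),
      (if RQ X g q then F (addr g τ q) * ∏ i, (((g (τ i)).card + 1 : ℕ) : 𝕜)⁻¹ else 0) := by
  have hL : ∀ g ∈ Fintype.piFinset (fun _ : J => GF D X),
      (if Dj g ∧ ∏ a, nr (g a) ≤ X ∧ ∀ i, g (τ i) ≠ ∅ then F g else 0) =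
      ∑ q ∈ Fintype.piFinset (fun _ : Fin r => PX D X),
        if (Dj g ∧ ∏ a, nr (g a) ≤ X ∧ ∀ i, q i ∈ g (τ i)) then
          F g * ∏ i, ((g (τ i)).card : 𝕜)⁻¹ else 0 := by
    intro g hg
    rw [Fintype.mem_piFinset] at hg
    by_cases hc : Dj g ∧ ∏ a, nr (g a) ≤ X ∧ ∀ i, g (τ i) ≠ ∅
    · rw [if_pos hc, ← Finset.sum_filter]
      have h1 : (Fintype.piFinset (fun _ : Fin r => PX D X)).filter
          (fun q => Dj g ∧ ∏ a, nr (g a) ≤ X ∧ ∀ i, q i ∈ g (τ i)) =
          Fintype.piFinset (fun i => g (τ i)) := by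
        ext q
        rw [Finset.mem_filter, Fintype.mem_piFinset, Fintype.mem_piFinset]
        constructor
        · rintro ⟨_, _, _, h⟩
          exact h
        · intro h
          refine ⟨fun i => ?_, hc.1, hc.2.1, h⟩
          unfold PX
          rw [Finset.mem_biUnion]
          exact ⟨g (τ i), hg (τ i), h i⟩
      rw [h1, Finset.sum_const, Fintype.card_piFinset, nsmul_eq_mul, Nat.cast_prod, mul_comm,
        mul_assoc, ← Finset.prod_mul_distrib]
      rw [Finset.prod_congr rfl (g := fun _ => (1 : 𝕜)), Finset.prod_const_one, mul_one]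
      intro i _
      apply inv_mul_cancel₀
      rw [Ne, Nat.cast_eq_zero, Finset.card_eq_zero]
      exact hc.2.2 i
    · rw [if_neg hc]
      symm
      apply Finset.sum_eq_zero
      intro q _
      rw [if_neg]
      rintro ⟨h1, h2, h3⟩
      exact hc ⟨h1, h2, fun i hi => by
        have := h3 i
        rw [hi] at this
        exact absurd this (Finset.notMem_empty _)⟩
  rw [Finset.sum_congr rfl hL]
  rw [← Finset.sum_product' (Fintype.piFinset (fun _ : J => GF D X))
    (Fintype.piFinset (fun _ : Fin r => PX D X))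
    (fun g q => if (Dj g ∧ ∏ a, nr (g a) ≤ X ∧ ∀ i, q i ∈ g (τ i)) then
          F g * ∏ i, ((g (τ i)).card : 𝕜)⁻¹ else 0)]
  rw [← Finset.sum_product' (Fintype.piFinset (fun _ : J => GF D X))
    (Fintype.piFinset (fun _ : Fin r => PX D X))
    (fun g q => if RQ X g q then F (addr g τ q) * ∏ i, (((g (τ i)).card + 1 : ℕ) : 𝕜)⁻¹ else 0)]
  rw [← Finset.sum_filter, ← Finset.sum_filter]
  symm
  refine Finset.sum_nbij' (fun z => (addr z.1 τ z.2, z.2))
    (fun z => (fun a => z.1 a \ (Finset.univ.filter fun i => τ i = a).image z.2, z.2))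
    ?_ ?_ ?_ ?_ ?_
  · rintro ⟨g, q⟩ hz
    rw [Finset.mem_filter, Finset.mem_product, Fintype.mem_piFinset, Fintype.mem_piFinset] at hz
    obtain ⟨⟨hg, hq⟩, hdj, hinj, hout, hX⟩ := hz
    rw [Finset.mem_filter, Finset.mem_product, Fintype.mem_piFinset, Fintype.mem_piFinset]
    have hX' : ∏ a, nr (addr g τ q a) ≤ X := by
      rw [sma_nr τ hinj hout]
      exact hX
    refine ⟨⟨fun a => ?_, hq⟩, sma_dj τ hdj hinj hout, hX', fun i =>
      (sma_mem _ _ _ _ _).2 (Or.inr ⟨i, rfl, rfl⟩)⟩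
    refine Finset.mem_filter.2 ⟨mem_AF.2 ((sma_one (addr g τ q) a).trans hX'), ?_⟩
    intro v hv
    rcases (sma_mem _ _ _ _ _).1 hv with hv | ⟨i, _, hi⟩
    · exact (Finset.mem_filter.1 (hg a)).2 v hv
    · rw [← hi]
      exact ((mem_PX D X _).1 (hq i)).1
  · rintro ⟨g, q⟩ hz
    rw [Finset.mem_filter, Finset.mem_product, Fintype.mem_piFinset, Fintype.mem_piFinset] at hz
    obtain ⟨⟨hg, hq⟩, hdj, hX, hmem⟩ := hz
    dsimp only at hg hq hdj hX hmem
    have hinj : Function.Injective q := by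
      intro i j hij
      by_contra hne
      have h1 := hdj (τ i) (τ j) (fun h => hne (hτ h))
      exact Finset.disjoint_left.1 h1 (hmem i) (by rw [hij]; exact hmem j)
    have hout : ∀ i a, q i ∉ g a \ (Finset.univ.filter fun i => τ i = a).image q := by
      intro i a h
      rw [Finset.mem_sdiff] at h
      by_cases ha : τ i = a
      · exact h.2 (Finset.mem_image.2 ⟨i, Finset.mem_filter.2 ⟨Finset.mem_univ _, ha⟩, rfl⟩)
      · exact Finset.disjoint_left.1 (hdj (τ i) a ha) (hmem i) h.1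
    have hadd : addr (fun a => g a \ (Finset.univ.filter fun i => τ i = a).image q) τ q = g := by
      funext a
      unfold addr
      apply Finset.sdiff_union_of_subset
      intro v hv
      obtain ⟨i, hi, rfl⟩ := Finset.mem_image.1 hv
      rw [← (Finset.mem_filter.1 hi).2]
      exact hmem i
    rw [Finset.mem_filter, Finset.mem_product, Fintype.mem_piFinset, Fintype.mem_piFinset]
    refine ⟨⟨fun a => ?_, hq⟩, ?_, hinj, hout, ?_⟩
    · have h1 := Finset.mem_filter.1 (hg a)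
      refine Finset.mem_filter.2 ⟨mem_AF.2 ((sma_mono Finset.sdiff_subset).trans
        (mem_AF.1 h1.1)), ?_⟩
      intro v hv
      exact h1.2 v (Finset.sdiff_subset hv)
    · intro a a' haa
      exact Finset.disjoint_of_subset_left Finset.sdiff_subset
        (Finset.disjoint_of_subset_right Finset.sdiff_subset (hdj a a' haa))
    · have h1 := sma_nr τ hinj hout
      rw [hadd] at h1
      show (∏ a, nr (g a \ (Finset.univ.filter fun i => τ i = a).image q)) *
        ∏ i, (nm (q i) : ℝ) ≤ X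
      rw [← h1]
      exact hX
  · rintro ⟨g, q⟩ hz
    rw [Finset.mem_filter, Finset.mem_product, Fintype.mem_piFinset, Fintype.mem_piFinset] at hz
    obtain ⟨⟨hg, hq⟩, hdj, hinj, hout, hX⟩ := hz
    dsimp only at hg hq hdj hinj hout hX
    refine Prod.ext ?_ rfl
    funext a
    dsimp only
    unfold addr
    rw [Finset.union_sdiff_right]
    apply Finset.sdiff_eq_self_of_disjoint
    rw [Finset.disjoint_left]
    intro v hv hv'
    obtain ⟨i, _, rfl⟩ := Finset.mem_image.1 hv'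
    exact hout i a hv
  · rintro ⟨g, q⟩ hz
    rw [Finset.mem_filter, Finset.mem_product, Fintype.mem_piFinset, Fintype.mem_piFinset] at hz
    obtain ⟨⟨hg, hq⟩, hdj, hX, hmem⟩ := hz
    dsimp only at hg hq hdj hX hmem
    refine Prod.ext ?_ rfl
    funext a
    dsimp only
    unfold addr
    apply Finset.sdiff_union_of_subset
    intro v hv
    obtain ⟨i, hi, rfl⟩ := Finset.mem_image.1 hv
    rw [← (Finset.mem_filter.1 hi).2]
    exact hmem i
  · rintro ⟨g, q⟩ hz
    rw [Finset.mem_filter, Finset.mem_product, Fintype.mem_piFinset, Fintype.mem_piFinset] at hz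
    obtain ⟨⟨hg, hq⟩, hdj, hinj, hout, hX⟩ := hz
    dsimp only at hg hq hdj hinj hout hX ⊢
    congr 1
    apply Finset.prod_congr rfl
    intro i _
    rw [sma_card1 hτ hout i]

theorem sma (D : RD0 K p ζ) {J : Type} [Fintype J] {r : ℕ} (X : ℝ) (τ : Fin r → J)
    (hτ : Function.Injective τ) (F : (J → Finset (Pl K)) → ℂ) :
    ∑ g ∈ Fintype.piFinset (fun _ : J => GF D X),
      (if Dj g ∧ ∏ a, nr (g a) ≤ X ∧ ∀ i, g (τ i) ≠ ∅ then F g else 0) =
    ∑ g ∈ Fintype.piFinset (fun _ : J => GF D X), ∑ q ∈ Fintype.piFinset (fun _ : Fin r => PX D X),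
      (if RQ X g q then F (addr g τ q) * ∏ i, (((g (τ i)).card + 1 : ℕ) : ℂ)⁻¹ else 0) := by
  exact sma_gen D X τ hτ F

theorem err_sum (D : RD0 K p ζ) (J : Type) [Fintype J] (r : ℕ) (M : ℝ) (hM : 1 ≤ M) :
    ∃ C B : ℝ, 0 < C ∧ 0 ≤ B ∧ ∀ Y : ℝ, 1 ≤ Y → ∀ τ : Fin r → J, Function.Injective τ →
      ∑ g ∈ Fintype.piFinset (fun _ : J => GF D (2 ^ (r + 1) * Y)),
        ∑ q ∈ Fintype.piFinset (fun _ : Fin r => PX D (2 ^ (r + 1) * Y)),
          (if RQ (2 ^ (r + 1) * Y) g q then M ^ ((∑ a, (g a).card) + r) else 0) ≤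
        C * Y * (1 + Real.log Y) ^ B := by
  obtain ⟨C, A, hC, hA, h⟩ := af_tup K J ⌈2 ^ r * M⌉₊
  refine ⟨C * 2 ^ (r + 1) * ((r : ℝ) + 2) ^ A, A, by positivity, hA, fun Y hY τ hτ => ?_⟩
  set X : ℝ := 2 ^ (r + 1) * Y with hXdef
  have h2r : (1 : ℝ) ≤ 2 ^ (r + 1) := one_le_pow₀ (by norm_num)
  have hX1 : 1 ≤ X := by nlinarith
  have hM0 : 0 ≤ M := by linarith
  have h1 := sma_gen (𝕜 := ℝ) D X τ hτ
    (fun g => M ^ (∑ a, (g a).card) * ∏ i, ((g (τ i)).card : ℝ))
  have h2 : ∑ g ∈ Fintype.piFinset (fun _ : J => GF D X),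
        ∑ q ∈ Fintype.piFinset (fun _ : Fin r => PX D X),
          (if RQ X g q then M ^ ((∑ a, (g a).card) + r) else 0) =
      ∑ g ∈ Fintype.piFinset (fun _ : J => GF D X),
        ∑ q ∈ Fintype.piFinset (fun _ : Fin r => PX D X),
      (if RQ X g q then (fun g : J → Finset (Pl K) =>
        M ^ (∑ a, (g a).card) * ∏ i, ((g (τ i)).card : ℝ)) (addr g τ q) *
        ∏ i, (((g (τ i)).card + 1 : ℕ) : ℝ)⁻¹ else 0) := by
    apply Finset.sum_congr rfl
    intro g _
    apply Finset.sum_congr rfl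
    intro q _
    by_cases hR : RQ X g q
    · rw [if_pos hR, if_pos hR]
      obtain ⟨hdj, hinj, hout, _⟩ := hR
      dsimp only
      rw [sma_card τ hinj hout, mul_assoc, ← Finset.prod_mul_distrib,
        Finset.prod_congr rfl (g := fun _ => (1 : ℝ)), Finset.prod_const_one, mul_one]
      intro i _
      rw [sma_card1 hτ hout i]
      exact mul_inv_cancel₀ (by positivity)
    · rw [if_neg hR, if_neg hR]
  rw [h2, ← h1]
  have h3 : ∑ g ∈ Fintype.piFinset (fun _ : J => GF D X),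
      (if Dj g ∧ ∏ a, nr (g a) ≤ X ∧ ∀ i, g (τ i) ≠ ∅ then
        M ^ (∑ a, (g a).card) * ∏ i, ((g (τ i)).card : ℝ) else 0) ≤
      ∑ g ∈ (Fintype.piFinset fun _ : J => AF K X).filter (fun g => ∏ a, nr (g a) ≤ X),
        ∏ a, ((⌈2 ^ r * M⌉₊ : ℕ) : ℝ) ^ (g a).card := by
    rw [← Finset.sum_filter]
    refine le_trans (Finset.sum_le_sum (g := fun g : J → Finset (Pl K) =>
      ∏ a, ((⌈2 ^ r * M⌉₊ : ℕ) : ℝ) ^ (g a).card) ?_) ?_
    · intro g _
      rw [Finset.prod_pow_eq_pow_sum]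
      have e1 : ∏ i, ((g (τ i)).card : ℝ) ≤ ∏ _i : Fin r, (2 : ℝ) ^ (∑ a, (g a).card) := by
        apply Finset.prod_le_prod (fun i _ => Nat.cast_nonneg _)
        intro i _
        have e2 : ((g (τ i)).card : ℝ) ≤ (2 : ℝ) ^ (g (τ i)).card := by
          exact_mod_cast (Nat.lt_two_pow_self (n := (g (τ i)).card)).le
        refine e2.trans (pow_le_pow_right₀ (by norm_num) ?_)
        exact Finset.single_le_sum (f := fun a => (g a).card) (fun _ _ => Nat.zero_le _)
          (Finset.mem_univ (τ i))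
      rw [Finset.prod_const, Finset.card_univ, Fintype.card_fin] at e1
      calc M ^ (∑ a, (g a).card) * ∏ i, ((g (τ i)).card : ℝ)
          ≤ M ^ (∑ a, (g a).card) * ((2 : ℝ) ^ (∑ a, (g a).card)) ^ r :=
            mul_le_mul_of_nonneg_left e1 (pow_nonneg hM0 _)
        _ = (2 ^ r * M) ^ (∑ a, (g a).card) := by
            rw [mul_pow, ← pow_mul, ← pow_mul, mul_comm r, mul_comm]
        _ ≤ _ := pow_le_pow_left₀ (by positivity) (Nat.le_ceil _) _
    · apply Finset.sum_le_sum_of_subset_of_nonneg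
      · intro g hg
        rw [Finset.mem_filter, Fintype.mem_piFinset] at hg
        rw [Finset.mem_filter, Fintype.mem_piFinset]
        exact ⟨fun a => (Finset.mem_filter.1 (hg.1 a)).1, hg.2.2.1⟩
      · intro g _ _
        positivity
  refine h3.trans ((h X hX1).trans ?_)
  have hlY : 0 ≤ Real.log Y := Real.log_nonneg hY
  have hlog : 1 + Real.log X ≤ ((r : ℝ) + 2) * (1 + Real.log Y) := by
    rw [hXdef, Real.log_mul (by positivity) (by positivity), Real.log_pow]
    have e1 : Real.log 2 ≤ 1 := by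
      have := Real.log_two_lt_d9
      linarith
    have e2 : (0 : ℝ) ≤ (r : ℝ) := Nat.cast_nonneg _
    push_cast
    nlinarith
  have hlX : 0 ≤ Real.log X := Real.log_nonneg hX1
  have hpw : (1 + Real.log X) ^ A ≤ ((r : ℝ) + 2) ^ A * (1 + Real.log Y) ^ A := by
    rw [← Real.mul_rpow (by positivity) (by linarith)]
    exact Real.rpow_le_rpow (by linarith) hlog hA
  calc C * X * (1 + Real.log X) ^ A
      ≤ C * X * (((r : ℝ) + 2) ^ A * (1 + Real.log Y) ^ A) :=
        mul_le_mul_of_nonneg_left hpw (by positivity)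
    _ = _ := by
        rw [hXdef]
        ring

end H51.CUB
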