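import Pool.Agent.H51.CUB.TDef

/-!
[H51 CUB SMB]  From boxes to a smooth cut-off, for a fixed rest (180-240 lines, elementary). PROOF.

* `wl_lip`, `wl_nonneg`, `wl_le_one`, `wl_zero`: cases.
* `smb`: for `v ∈ P` let `j v` be the least `j : ℕ` with `ν v ≤ (1 + δ) ^ (j + 1)` (exists, the powers tend to infinity): then `(1 + δ) ^ (j v) < ν v ≤ (1 + δ) ^ (j v + 1)` (minimality, or `j = 0` and `1 < ν v`). Group the `q` by the vector `b = (j (q i))_i` (`Finset.sum_fiberwise` over the image, or `Finset.sum_fiberwise_of_maps_to`).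
For a vector `b` put `Z i = (1 + δ) ^ (b i) ≥ 1`, `Q i = P.filter (j v = b i ∧ cond i v)`: the tuples with vector `b` and `cond` are `∏ Q i`, and `Z i < ν v ≤ (1 + δ) Z i ≤ 2 Z i` for `v ∈ Q i`. If `∏ Z i ≥ X₀`: `∏ ν (q i) ≥ ∏ Z i ≥ X₀`, so `wl (2 ∏ ν (q i) / X₀) = 0`: the part vanishes.
If `∏ Z i < X₀`: replace `wl (2 ∏ ν (q i) / X₀)` by `wl (2 ∏ Z i / X₀)`: the difference is at most `2 (∏ ν (q i) - ∏ Z i) / X₀ ≤ 2 ((1 + δ) ^ r - 1) ≤ 2 ^ (r + 1) * δ` (`(1 + δ) ^ r ≤ 1 + (2 ^ r - 1) δ` for `0 ≤ δ ≤ 1`, induction), and such `q` satisfy `∏ ν (q i) ≤ 2 ^ r X₀`: the total error is at most `2 ^ (r + 1) δ B₀ #{q ..}`.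
The main part of `b` is at most `|wl| ε₀ ∏ Z i ≤ ε₀ X₀` (`hbox`). The number of the vectors `b` with `∏ Z i < X₀`: every `Z i < X₀` (the others are `≥ 1`), so `b i * log (1 + δ) < log X₀` and `log (1 + δ) ≥ δ / 2`, `b i < 2 log X₀ / δ`: at most `(1 + 2 log X₀ / δ) ^ r` vectors.
-/

set_option autoImplicit false

open scoped Classical

noncomputable section

namespace H51.CUB

theorem wl_nonneg (x : ℝ) : 0 ≤ wl x := le_max_left _ _

theorem wl_le_one (x : ℝ) : wl x ≤ 1 := by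
  unfold wl
  exact max_le zero_le_one (min_le_left _ _)

theorem wl_zero {x : ℝ} (h : 2 ≤ x) : wl x = 0 := by
  unfold wl
  apply max_eq_left
  exact (min_le_right _ _).trans (by linarith)

theorem wl_lip (x y : ℝ) : |wl x - wl y| ≤ |x - y| := by
  unfold wl
  have h1 : |max 0 (min 1 (2 - x)) - max 0 (min 1 (2 - y))| ≤ |min 1 (2 - x) - min 1 (2 - y)| := by
    rw [max_comm 0, max_comm 0]
    exact abs_max_sub_max_le_abs _ _ _
  have h2 : |min 1 (2 - x) - min 1 (2 - y)| ≤ |(2 - x) - (2 - y)| := by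
    have h3 := abs_min_sub_min_le_max 1 (2 - x) 1 (2 - y)
    rw [sub_self, abs_zero, max_eq_right (abs_nonneg _)] at h3
    exact h3
  have h4 : |(2 - x) - (2 - y)| = |x - y| := by
    rw [← abs_neg]
    congr 1
    ring
  rw [h4] at h2
  exact h1.trans h2

private theorem smb_pow {δ : ℝ} (h0 : 0 ≤ δ) (h1 : δ ≤ 1) (r : ℕ) :
    (1 + δ) ^ r ≤ 1 + (2 ^ r - 1) * δ := by
  induction r with
  | zero => simp
  | succ r ih =>
    have h2 : (0 : ℝ) ≤ (2 ^ r - 1) * δ * (1 - δ) := by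
      have : (1 : ℝ) ≤ 2 ^ r := one_le_pow₀ (by norm_num)
      have h3 : (0 : ℝ) ≤ 2 ^ r - 1 := by linarith
      have h4 : (0 : ℝ) ≤ 1 - δ := by linarith
      positivity
    calc (1 + δ) ^ (r + 1) = (1 + δ) ^ r * (1 + δ) := pow_succ _ _
      _ ≤ (1 + (2 ^ r - 1) * δ) * (1 + δ) := mul_le_mul_of_nonneg_right ih (by linarith)
      _ ≤ 1 + (2 ^ (r + 1) - 1) * δ := by
        rw [pow_succ (2 : ℝ) r]
        nlinarith

private theorem smb_log {δ : ℝ} (h0 : 0 < δ) (h1 : δ ≤ 1) : δ / 2 ≤ Real.log (1 + δ) := by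
  have h2 := Real.one_sub_inv_le_log_of_pos (show (0 : ℝ) < 1 + δ by linarith)
  refine le_trans ?_ h2
  have h3 : 1 - (1 + δ)⁻¹ = δ / (1 + δ) := by
    have : (1 + δ) ≠ 0 := by linarith
    field_simp
    ring
  rw [h3]
  exact div_le_div_of_nonneg_left h0.le (by linarith) (by linarith)

theorem smb {V : Type} {r : ℕ} (ν : V → ℝ) (P : Finset V) (hν : ∀ v ∈ P, 1 < ν v) (X₀ δ : ℝ)
    (hX : 1 ≤ X₀) (hδ : 0 < δ) (hδ1 : δ ≤ 1) (cond : Fin r → V → Prop) (F : (Fin r → V) → ℂ)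
    (B₀ ε₀ : ℝ) (hF : ∀ q, ‖F q‖ ≤ B₀) (hε : 0 ≤ ε₀)
    (hbox : ∀ Z : Fin r → ℝ, (∀ i, 1 ≤ Z i) → ∏ i, Z i ≤ X₀ → ∀ Q : Fin r → Finset V,
      (∀ i, ∀ v ∈ Q i, v ∈ P ∧ cond i v ∧ Z i < ν v ∧ ν v ≤ 2 * Z i) →
      ‖∑ q ∈ Fintype.piFinset Q, if Function.Injective q then F q else 0‖ ≤ ε₀ * ∏ i, Z i) :
    ‖∑ q ∈ Fintype.piFinset (fun _ : Fin r => P),
      (if Function.Injective q ∧ ∀ i, cond i (q i) then
        ((wl (2 * (∏ i, ν (q i)) / X₀) : ℝ) : ℂ) * F q else 0)‖ ≤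
      ε₀ * X₀ * (1 + 2 * Real.log X₀ / δ) ^ r +
        2 ^ (r + 1) * δ * B₀ * (((Fintype.piFinset (fun _ : Fin r => P)).filter fun q =>
          Function.Injective q ∧ (∀ i, cond i (q i)) ∧ ∏ i, ν (q i) ≤ 2 ^ r * X₀).card : ℝ) := by
  have h1δ : (1 : ℝ) < 1 + δ := by linarith
  have h1δ' : (1 : ℝ) ≤ 1 + δ := h1δ.le
  have hX0 : 0 < X₀ := by linarith
  have hlogX : 0 ≤ Real.log X₀ := Real.log_nonneg hX
  -- the cells
  have hex : ∀ v : V, ∃ j : ℕ, ν v ≤ (1 + δ) ^ (j + 1) := by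
    intro v
    obtain ⟨j, hj⟩ := pow_unbounded_of_one_lt (ν v) h1δ
    exact ⟨j, hj.le.trans (pow_le_pow_right₀ h1δ' (Nat.le_succ j))⟩
  obtain ⟨c, hc1, hc2⟩ : ∃ c : V → ℕ, (∀ v, ν v ≤ (1 + δ) ^ (c v + 1)) ∧
      ∀ v ∈ P, (1 + δ) ^ c v < ν v := by
    refine ⟨fun v => Nat.find (hex v), fun v => Nat.find_spec (hex v), fun v hv => ?_⟩
    show (1 + δ) ^ Nat.find (hex v) < ν v
    by_cases h0 : Nat.find (hex v) = 0
    · rw [h0, pow_zero]
      exact hν v hv
    · obtain ⟨j, hj⟩ := Nat.exists_eq_succ_of_ne_zero h0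
      have h1 := Nat.find_min (hex v) (m := j) (by omega)
      rw [hj]
      exact not_le.1 h1
  obtain ⟨ZZ, hZZ⟩ : ∃ ZZ : (Fin r → ℕ) → ℝ, ZZ = fun b => ∏ i, (1 + δ) ^ b i := ⟨_, rfl⟩
  have hZsum : ∀ b, ZZ b = (1 + δ) ^ ∑ i, b i := by
    intro b
    rw [hZZ]
    exact Finset.prod_pow_eq_pow_sum _ _ _
  have hZ1 : ∀ b, 1 ≤ ZZ b := fun b => by
    rw [hZsum]
    exact one_le_pow₀ h1δ'
  obtain ⟨cb, hcb⟩ : ∃ cb : (Fin r → V) → Fin r → ℕ, cb = fun q i => c (q i) := ⟨_, rfl⟩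
  obtain ⟨T, hT⟩ : ∃ T : Finset (Fin r → V), T = (Fintype.piFinset (fun _ : Fin r => P)).filter
      (fun q => Function.Injective q ∧ ∀ i, cond i (q i)) := ⟨_, rfl⟩
  have hTP : ∀ q ∈ T, ∀ i, q i ∈ P := by
    intro q hq i
    rw [hT] at hq
    exact Fintype.mem_piFinset.1 (Finset.mem_filter.1 hq).1 i
  have hlow : ∀ q ∈ T, ZZ (cb q) ≤ ∏ i, ν (q i) := by
    intro q hq
    rw [hZZ, hcb]
    exact Finset.prod_le_prod (fun i _ => by positivity) fun i _ => (hc2 _ (hTP q hq i)).le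
  have hup : ∀ q ∈ T, ∏ i, ν (q i) ≤ ZZ (cb q) * (1 + δ) ^ r := by
    intro q hq
    have h1 : ZZ (cb q) * (1 + δ) ^ r = ∏ i, (1 + δ) ^ (c (q i) + 1) := by
      have h2 : ((1 + δ) ^ r : ℝ) = ∏ _i : Fin r, (1 + δ) := by
        rw [Finset.prod_const, Finset.card_univ, Fintype.card_fin]
      rw [hZZ, hcb, h2, ← Finset.prod_mul_distrib]
      exact Finset.prod_congr rfl fun i _ => (pow_succ _ _).symm
    rw [h1]
    refine Finset.prod_le_prod (fun i _ => ?_) fun i _ => hc1 _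
    have := hν _ (hTP q hq i)
    linarith
  obtain ⟨T1, hT1⟩ : ∃ T1 : Finset (Fin r → V), T1 = T.filter (fun q => ZZ (cb q) < X₀) := ⟨_, rfl⟩
  have hT1T : ∀ q ∈ T1, q ∈ T ∧ ZZ (cb q) < X₀ := by
    intro q hq
    rw [hT1] at hq
    exact Finset.mem_filter.1 hq
  -- the sum over `T1`
  have hS : ∑ q ∈ Fintype.piFinset (fun _ : Fin r => P),
      (if Function.Injective q ∧ ∀ i, cond i (q i) then
        ((wl (2 * (∏ i, ν (q i)) / X₀) : ℝ) : ℂ) * F q else 0) =
      ∑ q ∈ T1, ((wl (2 * (∏ i, ν (q i)) / X₀) : ℝ) : ℂ) * F q := by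
    rw [← Finset.sum_filter, ← hT, hT1, Finset.sum_filter]
    refine Finset.sum_congr rfl fun q hq => ?_
    split_ifs with h
    · rfl
    · rw [wl_zero, Complex.ofReal_zero, zero_mul]
      rw [le_div_iff₀ hX0]
      have := hlow q hq
      push Not at h
      linarith
  obtain ⟨M, hM⟩ : ∃ M : ℕ, M = ⌊2 * Real.log X₀ / δ⌋₊ + 1 := ⟨_, rfl⟩
  have hMle : (M : ℝ) ≤ 1 + 2 * Real.log X₀ / δ := by
    rw [hM]
    push_cast
    have := Nat.floor_le (show 0 ≤ 2 * Real.log X₀ / δ by positivity)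
    linarith
  obtain ⟨G, hG⟩ : ∃ G : Finset (Fin r → ℕ), G =
      (Fintype.piFinset (fun _ : Fin r => Finset.range M)).filter (fun b => ZZ b < X₀) := ⟨_, rfl⟩
  have hmaps : ∀ q ∈ T1, cb q ∈ G := by
    intro q hq
    have h1 := (hT1T q hq).2
    rw [hG, Finset.mem_filter, Fintype.mem_piFinset]
    refine ⟨fun i => ?_, h1⟩
    rw [Finset.mem_range, hM, Nat.lt_succ_iff]
    apply Nat.le_floor
    have h2 : (1 + δ) ^ cb q i ≤ ZZ (cb q) := by
      rw [hZsum]
      exact pow_le_pow_right₀ h1δ'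
        (Finset.single_le_sum (f := cb q) (fun _ _ => Nat.zero_le _) (Finset.mem_univ i))
    have h3 : (1 + δ) ^ cb q i < X₀ := h2.trans_lt h1
    have h4 := Real.log_lt_log (by positivity) h3
    rw [Real.log_pow] at h4
    have h5 := smb_log hδ hδ1
    rw [le_div_iff₀ hδ]
    have h6 : (cb q i : ℝ) * (δ / 2) ≤ (cb q i : ℝ) * Real.log (1 + δ) :=
      mul_le_mul_of_nonneg_left h5 (Nat.cast_nonneg _)
    linarith
  have hsplit : ∑ q ∈ T1, ((wl (2 * (∏ i, ν (q i)) / X₀) : ℝ) : ℂ) * F q =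
      ∑ q ∈ T1, ((wl (2 * ZZ (cb q) / X₀) : ℝ) : ℂ) * F q +
      ∑ q ∈ T1, ((wl (2 * (∏ i, ν (q i)) / X₀) - wl (2 * ZZ (cb q) / X₀) : ℝ) : ℂ) * F q := by
    rw [← Finset.sum_add_distrib]
    refine Finset.sum_congr rfl fun q _ => ?_
    push_cast
    ring
  rw [hS, hsplit]
  refine (norm_add_le _ _).trans (add_le_add ?_ ?_)
  · -- the main part
    rw [← Finset.sum_fiberwise_of_maps_to hmaps]
    have hone : ∀ b ∈ G, ‖∑ q ∈ T1 with cb q = b, ((wl (2 * ZZ (cb q) / X₀) : ℝ) : ℂ) * F q‖ ≤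
        ε₀ * X₀ := by
      intro b hb
      rw [hG, Finset.mem_filter] at hb
      have h1 : ∑ q ∈ T1 with cb q = b, ((wl (2 * ZZ (cb q) / X₀) : ℝ) : ℂ) * F q =
          ((wl (2 * ZZ b / X₀) : ℝ) : ℂ) * ∑ q ∈ T1 with cb q = b, F q := by
        rw [Finset.mul_sum]
        refine Finset.sum_congr rfl fun q hq => ?_
        rw [(Finset.mem_filter.1 hq).2]
      have h2 : ∑ q ∈ T1 with cb q = b, F q =
          ∑ q ∈ Fintype.piFinset (fun i => P.filter (fun v => c v = b i ∧ cond i v)),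
            if Function.Injective q then F q else 0 := by
        rw [← Finset.sum_filter]
        refine Finset.sum_congr ?_ fun _ _ => rfl
        ext q
        rw [hT1, hT]
        simp only [Finset.mem_filter, Fintype.mem_piFinset]
        constructor
        · rintro ⟨⟨⟨h3, h4, h5⟩, h6⟩, h7⟩
          refine ⟨fun i => ⟨h3 i, ?_, h5 i⟩, h4⟩
          rw [← h7, hcb]
        · rintro ⟨h3, h4⟩
          have h7 : cb q = b := by
            rw [hcb]
            funext i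
            exact (h3 i).2.1
          refine ⟨⟨⟨fun i => (h3 i).1, h4, fun i => (h3 i).2.2⟩, ?_⟩, h7⟩
          rw [h7]
          exact hb.2
      have h3 := hbox (fun i => (1 + δ) ^ b i) (fun i => one_le_pow₀ h1δ') (by
          have := hb.2
          rw [hZZ] at this
          exact this.le)
        (fun i => P.filter (fun v => c v = b i ∧ cond i v)) (fun i v hv => by
          obtain ⟨h4, h5, h6⟩ := Finset.mem_filter.1 hv
          refine ⟨h4, h6, ?_, ?_⟩
          · have := hc2 v h4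
            rw [h5] at this
            exact this
          · have := hc1 v
            rw [h5, pow_succ] at this
            have h7 : (0 : ℝ) < (1 + δ) ^ b i := by positivity
            have h8 : (1 + δ) ^ b i * (1 + δ) ≤ 2 * (1 + δ) ^ b i := by nlinarith
            exact this.trans h8)
      rw [h1, h2, norm_mul, Complex.norm_real, Real.norm_of_nonneg (wl_nonneg _)]
      have h4 : ε₀ * ∏ i, (1 + δ) ^ b i ≤ ε₀ * X₀ := by
        refine mul_le_mul_of_nonneg_left ?_ hε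
        have := hb.2
        rw [hZZ] at this
        exact this.le
      calc wl (2 * ZZ b / X₀) * ‖∑ q ∈ Fintype.piFinset
            (fun i => P.filter (fun v => c v = b i ∧ cond i v)),
            if Function.Injective q then F q else 0‖ ≤ 1 * (ε₀ * X₀) :=
            mul_le_mul (wl_le_one _) (h3.trans h4) (norm_nonneg _) zero_le_one
        _ = ε₀ * X₀ := one_mul _
    refine (norm_sum_le _ _).trans ?_
    refine (Finset.sum_le_card_nsmul _ _ _ hone).trans ?_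
    rw [nsmul_eq_mul, mul_comm]
    refine mul_le_mul_of_nonneg_left ?_ (by positivity)
    have h5 : G.card ≤ M ^ r := by
      rw [hG]
      refine (Finset.card_filter_le _ _).trans ?_
      rw [Fintype.card_piFinset, Finset.prod_const, Finset.card_range, Finset.card_univ,
        Fintype.card_fin]
    calc (G.card : ℝ) ≤ (M : ℝ) ^ r := by exact_mod_cast h5
      _ ≤ (1 + 2 * Real.log X₀ / δ) ^ r := pow_le_pow_left₀ (Nat.cast_nonneg _) hMle r
  · -- the error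
    have herr : ∀ q ∈ T1, ‖((wl (2 * (∏ i, ν (q i)) / X₀) - wl (2 * ZZ (cb q) / X₀) : ℝ) : ℂ) *
        F q‖ ≤ 2 ^ (r + 1) * δ * B₀ := by
      intro q hq
      obtain ⟨hqT, hqX⟩ := hT1T q hq
      rw [norm_mul, Complex.norm_real, Real.norm_eq_abs]
      have h1 := wl_lip (2 * (∏ i, ν (q i)) / X₀) (2 * ZZ (cb q) / X₀)
      have h2 : |2 * (∏ i, ν (q i)) / X₀ - 2 * ZZ (cb q) / X₀| ≤ 2 ^ (r + 1) * δ := by
        rw [← sub_div, ← mul_sub, abs_of_nonneg (by
          have := hlow q hqT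
          have h3 : 0 ≤ ∏ i, ν (q i) - ZZ (cb q) := by linarith
          positivity), div_le_iff₀ hX0]
        have h3 := hup q hqT
        have h4 := smb_pow hδ.le hδ1 r
        have h5 : 0 ≤ ZZ (cb q) := by
          have := hZ1 (cb q)
          linarith
        have h6 : ZZ (cb q) * (1 + δ) ^ r ≤ ZZ (cb q) * (1 + (2 ^ r - 1) * δ) :=
          mul_le_mul_of_nonneg_left h4 h5
        have h7 : (0 : ℝ) ≤ (2 ^ r - 1) * δ := by
          have : (1 : ℝ) ≤ 2 ^ r := one_le_pow₀ (by norm_num)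
          have h3 : (0 : ℝ) ≤ 2 ^ r - 1 := by linarith
          positivity
        have h8 : ZZ (cb q) * ((2 ^ r - 1) * δ) ≤ X₀ * ((2 ^ r - 1) * δ) :=
          mul_le_mul_of_nonneg_right hqX.le h7
        rw [pow_succ]
        nlinarith
      exact mul_le_mul (h1.trans h2) (hF q) (norm_nonneg _) (by positivity)
    refine (norm_sum_le _ _).trans ((Finset.sum_le_card_nsmul _ _ _ herr).trans ?_)
    rw [nsmul_eq_mul, mul_comm]
    have hsub : T1 ⊆ (Fintype.piFinset (fun _ : Fin r => P)).filter fun q =>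
          Function.Injective q ∧ (∀ i, cond i (q i)) ∧ ∏ i, ν (q i) ≤ 2 ^ r * X₀ := by
      intro q hq
      obtain ⟨hqT, hqX⟩ := hT1T q hq
      have h3 := hup q hqT
      rw [hT, Finset.mem_filter] at hqT
      rw [Finset.mem_filter]
      refine ⟨hqT.1, hqT.2.1, hqT.2.2, h3.trans ?_⟩
      have h4 : (1 + δ) ^ r ≤ 2 ^ r := pow_le_pow_left₀ (by linarith) (by linarith) r
      calc ZZ (cb q) * (1 + δ) ^ r ≤ X₀ * 2 ^ r :=
            mul_le_mul hqX.le h4 (by positivity) hX0.le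
        _ = 2 ^ r * X₀ := mul_comm _ _
    rcases T1.eq_empty_or_nonempty with h0 | ⟨q0, hq0⟩
    · rw [h0, Finset.card_empty, Nat.cast_zero, mul_zero]
      rcases (((Fintype.piFinset (fun _ : Fin r => P)).filter fun q =>
          Function.Injective q ∧ (∀ i, cond i (q i)) ∧
            ∏ i, ν (q i) ≤ 2 ^ r * X₀)).eq_empty_or_nonempty with h1 | ⟨q1, hq1⟩
      · rw [h1, Finset.card_empty, Nat.cast_zero, mul_zero]
      · have hB : 0 ≤ B₀ := (norm_nonneg _).trans (hF q1)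
        positivity
    · have hB : 0 ≤ B₀ := (norm_nonneg _).trans (hF q0)
      refine mul_le_mul_of_nonneg_left ?_ (by positivity)
      exact_mod_cast Finset.card_le_card hsub

end H51.CUB
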