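import Pool.Agent.H51.CUB.SDef
import Pool.Agent.H63.MA.ADivJ

/-!
[H51 CUB SMC]  Trivial bounds (60-100 lines). PROOF.

* `smc1`: `Finset.prod_univ_sum`, `GF D y ⊆ AF K y`, `af_pow` with `k = 1`: the sum is at most `(C (1 + log y) ^ A) ^ #J`.
* `smc2`: `1 ≤ Real.exp (#g - A' log log Y)` if `#g > A' log log Y`, so the sum is at most `(log Y) ^ (-A') * ∑ g, (M e) ^ #g` over all families with `∏ nr ≤ 2 Y`; `af_tup` with `k = ⌈M * e⌉₊`, `y = 2 Y` gives `C Y (1 + log (2 Y)) ^ B ≤ C' Y (log Y) ^ B`; take `A' = A + B` (`#g = ∑ a, (g a).card`). For `A'' ≥ A'` the set of the `g` is smaller.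
-/

set_option autoImplicit false

open scoped NumberField
open IsDedekindDomain
open scoped Classical

noncomputable section

namespace H51.CUB

open H63.MA H38.BB H38.BG H57.PC

variable {K : Type} [Field K] [NumberField K] {p : ℕ} {ζ : K}

theorem smc_sub (D : RD0 K p ζ) (y : ℝ) : GF D y ⊆ AF K y := Finset.filter_subset _ _

theorem smc1 (D : RD0 K p ζ) (J : Type) [Fintype J] :
    ∃ C B : ℝ, 0 < C ∧ 0 ≤ B ∧ ∀ y : ℝ, 1 ≤ y →
      ∑ g ∈ Fintype.piFinset (fun _ : J => GF D y), (∏ a, nr (g a))⁻¹ ≤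
        C * (1 + Real.log y) ^ B := by
  obtain ⟨C, A, hC, hA, h⟩ := af_pow K 1
  refine ⟨C ^ Fintype.card J, A * Fintype.card J, pow_pos hC _, by positivity, fun y hy => ?_⟩
  have hl : 0 ≤ Real.log y := Real.log_nonneg hy
  have h1 := (h y hy).2
  have h2 : ∑ n ∈ GF D y, (nr n)⁻¹ ≤ C * (1 + Real.log y) ^ A := by
    refine le_trans (Finset.sum_le_sum_of_subset_of_nonneg (smc_sub D y) fun n _ _ => ?_) ?_
    · have := one_le_nr n
      positivity
    · simpa using h1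
  have h3 : ∑ g ∈ Fintype.piFinset (fun _ : J => GF D y), (∏ a, nr (g a))⁻¹ =
      ∏ _a : J, ∑ n ∈ GF D y, (nr n)⁻¹ := by
    rw [Finset.prod_univ_sum]
    refine Finset.sum_congr rfl fun g _ => ?_
    rw [Finset.prod_inv_distrib]
  rw [h3, Finset.prod_const, Finset.card_univ, Real.rpow_mul (by linarith), Real.rpow_natCast,
    ← mul_pow]
  refine pow_le_pow_left₀ (Finset.sum_nonneg fun n _ => ?_) h2 _
  have := one_le_nr n
  positivity

theorem smc2 (D : RD0 K p ζ) (J : Type) [Fintype J] (M A : ℝ) (hM : 1 ≤ M) :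
    ∃ C A' : ℝ, 0 < C ∧ 0 < A' ∧ ∀ A'' : ℝ, A' ≤ A'' → ∀ Y : ℝ, 3 ≤ Y →
      ∑ g ∈ Fintype.piFinset (fun _ : J => GF D (2 * Y)),
        (if ∏ a, nr (g a) ≤ 2 * Y ∧ A'' * Real.log (Real.log Y) < ((∑ a, (g a).card : ℕ) : ℝ) then
          M ^ (∑ a, (g a).card) else 0) ≤ C * Y * Real.log Y ^ (-A) := by
  obtain ⟨C, B, hC, hB, h⟩ := af_tup K J ⌈M * Real.exp 1⌉₊
  refine ⟨C * 2 * (3 : ℝ) ^ B, |A| + B + 1, by positivity, by positivity, fun A'' hA'' Y hY => ?_⟩
  have hlY : 1 < Real.log Y := by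
    rw [Real.lt_log_iff_exp_lt (by linarith)]
    have := Real.exp_one_lt_d9
    linarith
  have hll : 0 < Real.log (Real.log Y) := Real.log_pos hlY
  have h1 := h (2 * Y) (by linarith)
  set k : ℕ := ⌈M * Real.exp 1⌉₊ with hk
  have hk1 : M * Real.exp 1 ≤ k := Nat.le_ceil _
  have hpt : ∀ g ∈ Fintype.piFinset (fun _ : J => GF D (2 * Y)),
      (if ∏ a, nr (g a) ≤ 2 * Y ∧ A'' * Real.log (Real.log Y) < ((∑ a, (g a).card : ℕ) : ℝ) then
          M ^ (∑ a, (g a).card) else 0) ≤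
      Real.log Y ^ (-(|A| + B + 1)) *
        (if ∏ a, nr (g a) ≤ 2 * Y then ∏ a, (k : ℝ) ^ (g a).card else 0) := by
    intro g _
    by_cases hc : ∏ a, nr (g a) ≤ 2 * Y ∧
        A'' * Real.log (Real.log Y) < ((∑ a, (g a).card : ℕ) : ℝ)
    · rw [if_pos hc, if_pos hc.1, Finset.prod_pow_eq_pow_sum]
      have h3 : (M * Real.exp 1) ^ (∑ a, (g a).card) ≤ (k : ℝ) ^ (∑ a, (g a).card) :=
        pow_le_pow_left₀ (by positivity) hk1 _
      rw [mul_pow, ← Real.exp_nat_mul, mul_one] at h3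
      have h4 : (|A| + B + 1) * Real.log (Real.log Y) ≤ ((∑ a, (g a).card : ℕ) : ℝ) :=
        (mul_le_mul_of_nonneg_right hA'' hll.le).trans hc.2.le
      have h5 : (1 : ℝ) ≤ Real.log Y ^ (-(|A| + B + 1)) *
          Real.exp ((∑ a, (g a).card : ℕ) : ℝ) := by
        rw [Real.rpow_def_of_pos (by linarith), ← Real.exp_add]
        refine Real.one_le_exp ?_
        nlinarith
      have h6 : 0 ≤ Real.log Y ^ (-(|A| + B + 1)) := Real.rpow_nonneg (by linarith) _
      calc M ^ (∑ a, (g a).card) = M ^ (∑ a, (g a).card) * 1 := (mul_one _).symm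
        _ ≤ M ^ (∑ a, (g a).card) * (Real.log Y ^ (-(|A| + B + 1)) *
          Real.exp ((∑ a, (g a).card : ℕ) : ℝ)) := mul_le_mul_of_nonneg_left h5 (by positivity)
        _ = Real.log Y ^ (-(|A| + B + 1)) * (M ^ (∑ a, (g a).card) *
          Real.exp ((∑ a, (g a).card : ℕ) : ℝ)) := by ring
        _ ≤ _ := mul_le_mul_of_nonneg_left h3 h6
    · rw [if_neg hc]
      have h6 : 0 ≤ Real.log Y ^ (-(|A| + B + 1)) := Real.rpow_nonneg (by linarith) _
      split_ifs <;> positivity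
  refine (Finset.sum_le_sum hpt).trans ?_
  rw [← Finset.mul_sum, ← Finset.sum_filter]
  have h2 : ∑ g ∈ (Fintype.piFinset fun _ : J => GF D (2 * Y)).filter
      (fun g => ∏ a, nr (g a) ≤ 2 * Y), ∏ a, (k : ℝ) ^ (g a).card ≤
        C * (2 * Y) * (1 + Real.log (2 * Y)) ^ B := by
    refine le_trans (Finset.sum_le_sum_of_subset_of_nonneg ?_ fun g _ _ => ?_) h1
    · refine Finset.filter_subset_filter _ ?_
      exact Fintype.piFinset_subset _ _ fun _ => smc_sub D _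
    · positivity
  have h7 : (1 + Real.log (2 * Y)) ^ B ≤ (3 : ℝ) ^ B * Real.log Y ^ B := by
    rw [← Real.mul_rpow (by norm_num) (by linarith)]
    refine Real.rpow_le_rpow ?_ ?_ hB
    · have : 0 ≤ Real.log (2 * Y) := Real.log_nonneg (by linarith)
      linarith
    · rw [Real.log_mul (by norm_num) (by linarith)]
      have := Real.log_two_lt_d9
      linarith
  have h8 : Real.log Y ^ (-(|A| + B + 1)) * Real.log Y ^ B ≤ Real.log Y ^ (-A) := by
    rw [← Real.rpow_add (by linarith)]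
    refine Real.rpow_le_rpow_of_exponent_le hlY.le ?_
    have := le_abs_self A
    linarith
  have h6 : 0 ≤ Real.log Y ^ (-(|A| + B + 1)) := Real.rpow_nonneg (by linarith) _
  calc Real.log Y ^ (-(|A| + B + 1)) * _ ≤ Real.log Y ^ (-(|A| + B + 1)) *
        (C * (2 * Y) * (1 + Real.log (2 * Y)) ^ B) := mul_le_mul_of_nonneg_left h2 h6
    _ ≤ Real.log Y ^ (-(|A| + B + 1)) * (C * (2 * Y) * ((3 : ℝ) ^ B * Real.log Y ^ B)) := by
        refine mul_le_mul_of_nonneg_left (mul_le_mul_of_nonneg_left h7 (by positivity)) h6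
    _ = C * 2 * (3 : ℝ) ^ B * Y * (Real.log Y ^ (-(|A| + B + 1)) * Real.log Y ^ B) := by ring
    _ ≤ _ := mul_le_mul_of_nonneg_left h8 (by positivity)

end H51.CUB
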