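import Pool.Agent.H51.CUB.SMA
import Pool.Agent.H51.CUB.SMB
import Pool.Agent.H51.CUB.SMC
import Pool.Agent.H51.CUB.PFB

/-!
[H51 CUB SMR]  From boxes to sums over families (150-200 lines). PROOF.

`H` is any function of families with `‖H g‖ ≤ M ^ #g`. If for every rest `g'` with at most `A' log log Y` primes and all boxes `Q i ⊆ (Z i, 2 Z i]` the sum of `H (g' + q)` over `q ∈ ∏ Q i` is at most
`ε₀ ∏ Z i`, then the sum of `wl * H` over all families with `g (τ i) ≠ ∅` is at most `C Y (ε₀ (log Y)^A' + (log Y)^(-A))`.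

PROOF. `C1, B1` from `err_sum D J r M`, `C2, B2` from `smc1 D J`, `C3, A3` from `smc2 D J M A`; `B = max A 0 + B1 + 1`, `A' = max A3 (r (B + 1) + B2) + 1`, `Y₀ = 9` (`log Y ≥ 2`), `δ = (log Y) ^ (-B)` (`0 < δ ≤ 1`). Split the sum into the `g` with `#g ≤ A' log log Y` and the others; the others contribute at most `C3 Y (log Y) ^ (-A)`
(`smc2`, `|wl| ≤ 1`). First part: `sma` with `X = 2 Y` and `F g = (wl * H g if g is disjoint from E, in the windows and #g ≤ A' log log Y, else 0)`. For fixed `g'` the inner sum is `0` unless `Dj g'`, `g'` is disjoint from `E`, in the windows, `∏ nr (g' a) ≤ 2 Y`, `#g' + r ≤ A' log log Y`. Put `X₀ = 2 Y / ∏ nr (g' a) ≥ 1`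
(if `∏ nr (g' a) > 2 Y` there are no terms). Conditions on `q`: injective, `q i ∉ g' a`, `q i ∉ E`, `lo (τ i) < nm (q i) ≤ hi (τ i)` and `∏ nr (g' a) * ∏ nm (q i) ≤ 2 Y`; the last may be dropped as otherwise `wl = 0` (`wl_zero`). `∏ nr (addr g' τ q a) / Y = 2 ∏ nm (q i) / X₀` (`nr_addr` in `PFB`). So `smb` applies with `P = PX D (2 Y)`, `ν v = nm v`,
`cond i v = (v ∉ E ∧ (∀ a, v ∉ g' a) ∧ lo (τ i) < nm v ∧ nm v ≤ hi (τ i))`, `F q = H (addr g' τ q)`, `B₀ = M ^ (#g' + r)` (`#(addr g' τ q) ≤ #g' + r`), `hbox` = the hypothesis. The factor `∏ (#g' (τ i) + 1)⁻¹` is at most `1`. Sum over `g'`: main terms `ε₀ 2 Y (1 + 2 log (2 Y) / δ) ^ r ∑ (∏ nr (g' a))⁻¹`,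
`1 + 2 log (2 Y) / δ ≤ 5 (log Y) ^ (B + 1)`, `smc1` with `y = 2 Y`: at most `C ε₀ Y (log Y) ^ (r (B + 1) + B2)`. Errors: `2 ^ (r + 1) δ ∑ M ^ (#g' + r)` over the pairs with `RQ (2 ^ (r + 1) Y) g' q` (`∏ nm (q i) ≤ 2 ^ r X₀`; enlarge the index sets, all terms `≥ 0`): `err_sum`: at most `C Y (log Y) ^ (B1 - B) ≤ C Y (log Y) ^ (-A)`.
-/

set_option autoImplicit false

open scoped NumberField
open IsDedekindDomain
open scoped Classical

noncomputable section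

namespace H51.CUB

open H63.MA H38.BB H38.BG H57.PC

variable {K : Type} [Field K] [NumberField K] {p : ℕ} {ζ : K}

private theorem sumr_card {J : Type} [Fintype J] {r : ℕ} (g : J → Finset (Pl K)) (τ : Fin r → J)
    (q : Fin r → Pl K) : ∑ a, (addr g τ q a).card ≤ ∑ a, (g a).card + r := by
  have h1 : ∀ a, (addr g τ q a).card ≤
      (g a).card + (Finset.univ.filter fun i => τ i = a).card := by
    intro a
    unfold addr
    exact (Finset.card_union_le _ _).trans (Nat.add_le_add_left Finset.card_image_le _)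
  refine (Finset.sum_le_sum fun a _ => h1 a).trans ?_
  rw [Finset.sum_add_distrib]
  refine Nat.add_le_add_left ?_ _
  have h2 : (Finset.univ : Finset (Fin r)).card =
      ∑ a : J, (Finset.univ.filter fun i => τ i = a).card :=
    Finset.card_eq_sum_card_fiberwise (fun _ _ => Finset.mem_coe.2 (Finset.mem_univ _))
  rw [← h2, Finset.card_univ, Fintype.card_fin]

private theorem sumr_mem {D : RD0 K p ζ} {y : ℝ} {n : Finset (Pl K)} :
    n ∈ GF D y ↔ nr n ≤ y ∧ ∀ v ∈ n, D.Gd v := by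
  unfold GF
  rw [Finset.mem_filter, mem_AF]

private theorem sumr_op {I : Type} [Fintype I] (f : I → ℝ) (h : ∀ i, 1 ≤ f i) : 1 ≤ ∏ i, f i := by
  calc (1 : ℝ) = ∏ _i : I, (1 : ℝ) := by rw [Finset.prod_const_one]
    _ ≤ ∏ i, f i := Finset.prod_le_prod (fun _ _ => zero_le_one) fun i _ => h i

private theorem sumr_pos {J : Type} [Fintype J] (g : J → Finset (Pl K)) : 1 ≤ ∏ a, nr (g a) :=
  sumr_op _ fun a => one_le_nr (g a)

private theorem sumr_nm (v : Pl K) : (1 : ℝ) < nm v := by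
  exact_mod_cast one_lt_nm v

/-- the summand for the families with few primes -/
private def sumrF {J : Type} [Fintype J] (Y B : ℝ) (E : Finset (Pl K)) (lo hi : J → ℝ)
    (H : (J → Finset (Pl K)) → ℂ) (g : J → Finset (Pl K)) : ℂ :=
  if (∀ a, Disjoint (g a) E) ∧ (∀ a, ∀ v ∈ g a, lo a < nm v ∧ (nm v : ℝ) ≤ hi a) ∧
      ((∑ a, (g a).card : ℕ) : ℝ) ≤ B then
    ((wl ((∏ a, nr (g a)) / Y) : ℝ) : ℂ) * H g else 0

private theorem sumr_in (D : RD0 K p ζ) {J : Type} [Fintype J] {r : ℕ} {M Y B δ ε₀ : ℝ}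
    (hM : 1 ≤ M) (hY : 1 ≤ Y) (hδ : 0 < δ) (hδ1 : δ ≤ 1) (E : Finset (Pl K)) (lo hi : J → ℝ)
    (τ : Fin r → J) (H : (J → Finset (Pl K)) → ℂ)
    (hH : ∀ g, ‖H g‖ ≤ M ^ (∑ a, (g a).card)) (hε : 0 ≤ ε₀)
    (hb : ∀ g' : J → Finset (Pl K), Dj g' → (∀ a, Disjoint (g' a) E) →
        (∀ a, ∀ v ∈ g' a, D.Gd v ∧ lo a < nm v ∧ (nm v : ℝ) ≤ hi a) → ∏ a, nr (g' a) ≤ 2 * Y →
        ((∑ a, (g' a).card : ℕ) : ℝ) ≤ B →
        ∀ (Z : Fin r → ℝ) (Q : Fin r → Finset (Pl K)), (∀ i, 1 ≤ Z i) →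
          ∏ i, Z i ≤ 2 * Y / ∏ a, nr (g' a) →
          (∀ i, ∀ v ∈ Q i, D.Gd v ∧ Z i < nm v ∧ (nm v : ℝ) ≤ 2 * Z i ∧ lo (τ i) < nm v ∧
            (nm v : ℝ) ≤ hi (τ i) ∧ v ∉ E ∧ ∀ a, v ∉ g' a) →
          ‖∑ q ∈ Fintype.piFinset Q, if Function.Injective q then H (addr g' τ q) else 0‖ ≤
            ε₀ * ∏ i, Z i)
    (g : J → Finset (Pl K)) (hg : g ∈ Fintype.piFinset (fun _ : J => GF D (2 * Y))) :
    ‖∑ q ∈ Fintype.piFinset (fun _ : Fin r => PX D (2 * Y)),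
      (if RQ (2 * Y) g q then sumrF Y B E lo hi H (addr g τ q) *
        ∏ i, (((g (τ i)).card + 1 : ℕ) : ℂ)⁻¹ else 0)‖ ≤
      ε₀ * (2 * Y) * (1 + 2 * Real.log (2 * Y) / δ) ^ r * (∏ a, nr (g a))⁻¹ +
        2 ^ (r + 1) * δ * ∑ q ∈ Fintype.piFinset (fun _ : Fin r => PX D (2 ^ (r + 1) * Y)),
          (if RQ (2 ^ (r + 1) * Y) g q then M ^ ((∑ a, (g a).card) + r) else 0) := by
  have hN1 : 1 ≤ ∏ a, nr (g a) := sumr_pos g
  have hN0 : 0 < ∏ a, nr (g a) := zero_lt_one.trans_le hN1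
  have hM0 : 0 < M := zero_lt_one.trans_le hM
  have hlogY : 0 ≤ Real.log (2 * Y) := Real.log_nonneg (by linarith)
  have hR0 : 0 ≤ ε₀ * (2 * Y) * (1 + 2 * Real.log (2 * Y) / δ) ^ r * (∏ a, nr (g a))⁻¹ +
        2 ^ (r + 1) * δ * ∑ q ∈ Fintype.piFinset (fun _ : Fin r => PX D (2 ^ (r + 1) * Y)),
          (if RQ (2 ^ (r + 1) * Y) g q then M ^ ((∑ a, (g a).card) + r) else 0) := by
    refine add_nonneg (by positivity) (mul_nonneg (by positivity)
      (Finset.sum_nonneg fun q _ => ?_))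
    split_ifs
    · positivity
    · exact le_rfl
  by_cases hgood : Dj g ∧ (∀ a, Disjoint (g a) E) ∧
      (∀ a, ∀ v ∈ g a, lo a < nm v ∧ (nm v : ℝ) ≤ hi a) ∧ ∏ a, nr (g a) ≤ 2 * Y ∧
      (((∑ a, (g a).card) + r : ℕ) : ℝ) ≤ B
  swap
  · rw [Finset.sum_eq_zero]
    · rw [norm_zero]
      exact hR0
    intro q _
    split_ifs with hRQ
    · obtain ⟨h1, h2, h3, h4⟩ := hRQ
      have h5 : 1 ≤ ∏ i, (nm (q i) : ℝ) := sumr_op _ fun i => (sumr_nm _).le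
      have h6 : ∏ a, nr (g a) ≤ 2 * Y :=
        (le_mul_of_one_le_right hN0.le h5).trans h4
      have h7 : sumrF Y B E lo hi H (addr g τ q) = 0 := by
        unfold sumrF
        rw [if_neg]
        rintro ⟨h8, h9, h10⟩
        refine hgood ⟨h1, fun a => ?_, fun a v hv => ?_, h6, ?_⟩
        · refine Finset.disjoint_of_subset_left ?_ (h8 a)
          intro v hv
          exact (mem_addr _ _ _ _ _).2 (Or.inl hv)
        · exact h9 a v ((mem_addr _ _ _ _ _).2 (Or.inl hv))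
        · rw [card_addr τ h2 h3] at h10
          exact h10
      rw [h7, zero_mul]
    · rfl
  obtain ⟨hdj, hE, hw, hN, hcard⟩ := hgood
  have hgd : ∀ a, ∀ v ∈ g a, D.Gd v := fun a =>
    (sumr_mem.1 (Fintype.mem_piFinset.1 hg a)).2
  have hcard' : ((∑ a, (g a).card : ℕ) : ℝ) ≤ B := by
    refine le_trans ?_ hcard
    exact_mod_cast Nat.le_add_right _ _
  obtain ⟨X₀, hX⟩ : ∃ X₀ : ℝ, X₀ = 2 * Y / ∏ a, nr (g a) := ⟨_, rfl⟩
  have hX1 : 1 ≤ X₀ := by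
    rw [hX, le_div_iff₀ hN0, one_mul]
    exact hN
  have hX0 : 0 < X₀ := zero_lt_one.trans_le hX1
  have hXY : X₀ ≤ 2 * Y := by
    rw [hX]
    exact div_le_self (by linarith) hN1
  obtain ⟨cond, hcond⟩ : ∃ cond : Fin r → Pl K → Prop, cond = fun i v =>
    v ∉ E ∧ (∀ a, v ∉ g a) ∧ lo (τ i) < nm v ∧ (nm v : ℝ) ≤ hi (τ i) := ⟨_, rfl⟩
  have key := smb (fun v : Pl K => (nm v : ℝ)) (PX D (2 * Y)) (fun v _ => sumr_nm v) X₀ δ hX1 hδ
    hδ1 cond (fun q => H (addr g τ q)) (M ^ ((∑ a, (g a).card) + r)) ε₀ (fun q =>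
      (hH _).trans (pow_le_pow_right₀ hM (sumr_card g τ q))) hε (by
      intro Z hZ hZX Q hQ
      refine hb g hdj hE (fun a v hv => ⟨hgd a v hv, hw a v hv⟩) hN hcard' Z Q hZ ?_ ?_
      · rw [← hX]
        exact hZX
      · intro i v hv
        obtain ⟨h1, h2, h3, h4⟩ := hQ i v hv
        rw [hcond] at h2
        obtain ⟨h5, h6, h7, h8⟩ := h2
        exact ⟨((mem_PX D _ v).1 h1).1, h3, h4, h7, h8, h5, h6⟩)
  have hterm : ∀ q ∈ Fintype.piFinset (fun _ : Fin r => PX D (2 * Y)),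
      (if RQ (2 * Y) g q then sumrF Y B E lo hi H (addr g τ q) *
        ∏ i, (((g (τ i)).card + 1 : ℕ) : ℂ)⁻¹ else 0) =
      (∏ i, (((g (τ i)).card + 1 : ℕ) : ℂ)⁻¹) *
        (if Function.Injective q ∧ ∀ i, cond i (q i) then
          ((wl (2 * (∏ i, (nm (q i) : ℝ)) / X₀) : ℝ) : ℂ) * H (addr g τ q) else 0) := by
    intro q _
    have hXeq : (∏ a, nr (g a)) * (∏ i, (nm (q i) : ℝ)) / Y =
        2 * (∏ i, (nm (q i) : ℝ)) / X₀ := by
      rw [hX]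
      have : Y ≠ 0 := by linarith
      field_simp
    by_cases hRQ : RQ (2 * Y) g q
    · rw [if_pos hRQ, mul_comm]
      congr 1
      obtain ⟨h1, h2, h3, h4⟩ := hRQ
      by_cases hc : ∀ i, cond i (q i)
      · rw [if_pos ⟨h2, hc⟩]
        unfold sumrF
        rw [if_pos, nr_addr τ h2 h3, hXeq]
        refine ⟨fun a => ?_, fun a v hv => ?_, ?_⟩
        · rw [Finset.disjoint_left]
          intro v hv hvE
          rcases (mem_addr _ _ _ _ _).1 hv with hv | ⟨i, -, rfl⟩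
          · exact Finset.disjoint_left.1 (hE a) hv hvE
          · have := hc i
            rw [hcond] at this
            exact this.1 hvE
        · rcases (mem_addr _ _ _ _ _).1 hv with hv | ⟨i, rfl, rfl⟩
          · exact hw a v hv
          · have := hc i
            rw [hcond] at this
            exact this.2.2
        · rw [card_addr τ h2 h3]
          exact hcard
      · rw [if_neg (fun h => hc h.2)]
        unfold sumrF
        rw [if_neg]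
        rintro ⟨h8, h9, -⟩
        refine hc fun i => ?_
        rw [hcond]
        have hqi : q i ∈ addr g τ q (τ i) := (mem_addr _ _ _ _ _).2 (Or.inr ⟨i, rfl, rfl⟩)
        exact ⟨Finset.disjoint_left.1 (h8 _) hqi, h3 i, h9 _ _ hqi⟩
    · rw [if_neg hRQ]
      by_cases hc : Function.Injective q ∧ ∀ i, cond i (q i)
      · rw [if_pos hc]
        have h3 : ∀ i a, q i ∉ g a := by
          intro i a
          have := hc.2 i
          rw [hcond] at this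
          exact this.2.1 a
        have h4 : 2 * Y < (∏ a, nr (g a)) * ∏ i, (nm (q i) : ℝ) := by
          by_contra h5
          exact hRQ ⟨hdj, hc.1, h3, not_lt.1 h5⟩
        have h6 : 2 ≤ 2 * (∏ i, (nm (q i) : ℝ)) / X₀ := by
          rw [← hXeq, le_div_iff₀ (by linarith)]
          exact h4.le
        rw [wl_zero h6, Complex.ofReal_zero, zero_mul, mul_zero]
      · rw [if_neg hc, mul_zero]
  rw [Finset.sum_congr rfl hterm, ← Finset.mul_sum, norm_mul]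
  have hw1 : ‖∏ i, (((g (τ i)).card + 1 : ℕ) : ℂ)⁻¹‖ ≤ 1 := by
    rw [norm_prod]
    refine Finset.prod_le_one (fun i _ => norm_nonneg _) fun i _ => ?_
    rw [norm_inv, Complex.norm_natCast]
    refine inv_le_one_of_one_le₀ ?_
    exact_mod_cast Nat.le_add_left 1 _
  refine (mul_le_of_le_one_left (norm_nonneg _) hw1).trans (key.trans ?_)
  refine add_le_add ?_ ?_
  · have h1 : X₀ = 2 * Y * (∏ a, nr (g a))⁻¹ := by
      rw [hX, div_eq_mul_inv]
    have h2 : (1 + 2 * Real.log X₀ / δ) ^ r ≤ (1 + 2 * Real.log (2 * Y) / δ) ^ r := by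
      have h3 : 0 ≤ Real.log X₀ := Real.log_nonneg hX1
      have h4 : Real.log X₀ ≤ Real.log (2 * Y) := Real.log_le_log hX0 hXY
      refine pow_le_pow_left₀ (by positivity) ?_ _
      gcongr
    calc ε₀ * X₀ * (1 + 2 * Real.log X₀ / δ) ^ r
        ≤ ε₀ * X₀ * (1 + 2 * Real.log (2 * Y) / δ) ^ r :=
          mul_le_mul_of_nonneg_left h2 (by positivity)
      _ = ε₀ * (2 * Y) * (1 + 2 * Real.log (2 * Y) / δ) ^ r * (∏ a, nr (g a))⁻¹ := by
          rw [h1]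
          ring
  · rw [mul_assoc (2 ^ (r + 1) * δ)]
    refine mul_le_mul_of_nonneg_left ?_ (by positivity)
    rw [mul_comm, ← nsmul_eq_mul, ← Finset.sum_const, Finset.sum_filter]
    have hsub : Fintype.piFinset (fun _ : Fin r => PX D (2 * Y)) ⊆
        Fintype.piFinset (fun _ : Fin r => PX D (2 ^ (r + 1) * Y)) := by
      refine Fintype.piFinset_subset _ _ fun _ v hv => ?_
      rw [mem_PX] at hv ⊢
      refine ⟨hv.1, hv.2.trans ?_⟩
      refine mul_le_mul_of_nonneg_right ?_ (by linarith)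
      calc (2 : ℝ) = 2 ^ 1 := (pow_one 2).symm
        _ ≤ 2 ^ (r + 1) := pow_le_pow_right₀ (by norm_num) (Nat.le_add_left 1 r)
    refine le_trans ?_ (Finset.sum_le_sum_of_subset_of_nonneg hsub fun q _ _ => ?_)
    · refine Finset.sum_le_sum fun q _ => ?_
      split_ifs with h1 h2
      · exact le_rfl
      · exfalso
        apply h2
        obtain ⟨h3, h4, h5⟩ := h1
        refine ⟨hdj, h3, fun i a => ?_, ?_⟩
        · have := h4 i
          rw [hcond] at this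
          exact this.2.1 a
        · calc (∏ a, nr (g a)) * ∏ i, (nm (q i) : ℝ) ≤ (∏ a, nr (g a)) * (2 ^ r * X₀) :=
                mul_le_mul_of_nonneg_left h5 hN0.le
            _ = 2 ^ (r + 1) * Y := by
                rw [hX, pow_succ]
                field_simp
      · positivity
      · exact le_rfl
    · split_ifs
      · positivity
      · exact le_rfl

theorem sumr (D : RD0 K p ζ) (J : Type) [Fintype J] (r : ℕ) (M A : ℝ) (hM : 1 ≤ M) :
    ∃ C A' Y₀ : ℝ, 0 < C ∧ 0 < A' ∧ 3 ≤ Y₀ ∧ ∀ Y : ℝ, Y₀ ≤ Y → ∀ (E : Finset (Pl K)) (lo hi : J → ℝ)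
      (τ : Fin r → J), Function.Injective τ → ∀ H : (J → Finset (Pl K)) → ℂ,
      (∀ g, ‖H g‖ ≤ M ^ (∑ a, (g a).card)) → ∀ ε₀ : ℝ, 0 ≤ ε₀ →
      (∀ g' : J → Finset (Pl K), Dj g' → (∀ a, Disjoint (g' a) E) →
        (∀ a, ∀ v ∈ g' a, D.Gd v ∧ lo a < nm v ∧ (nm v : ℝ) ≤ hi a) → ∏ a, nr (g' a) ≤ 2 * Y →
        ((∑ a, (g' a).card : ℕ) : ℝ) ≤ A' * Real.log (Real.log Y) →
        ∀ (Z : Fin r → ℝ) (Q : Fin r → Finset (Pl K)), (∀ i, 1 ≤ Z i) →
          ∏ i, Z i ≤ 2 * Y / ∏ a, nr (g' a) →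
          (∀ i, ∀ v ∈ Q i, D.Gd v ∧ Z i < nm v ∧ (nm v : ℝ) ≤ 2 * Z i ∧ lo (τ i) < nm v ∧
            (nm v : ℝ) ≤ hi (τ i) ∧ v ∉ E ∧ ∀ a, v ∉ g' a) →
          ‖∑ q ∈ Fintype.piFinset Q, if Function.Injective q then H (addr g' τ q) else 0‖ ≤
            ε₀ * ∏ i, Z i) →
      ‖∑ g ∈ Fintype.piFinset (fun _ : J => GF D (2 * Y)),
          if Dj g ∧ (∀ a, Disjoint (g a) E) ∧ ∏ a, nr (g a) ≤ 2 * Y ∧
              (∀ a, ∀ v ∈ g a, lo a < nm v ∧ (nm v : ℝ) ≤ hi a) ∧ ∀ i, g (τ i) ≠ ∅ then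
            ((wl ((∏ a, nr (g a)) / Y) : ℝ) : ℂ) * H g else 0‖ ≤
        C * Y * (ε₀ * Real.log Y ^ A' + Real.log Y ^ (-A)) := by
  obtain ⟨C1, B1, hC1, hB1, H1⟩ := err_sum D J r M hM
  obtain ⟨C2, B2, hC2, hB2, H2⟩ := smc1 D J
  obtain ⟨C3, A3, hC3, hA3, H3⟩ := smc2 D J M A hM
  obtain ⟨B, hB⟩ : ∃ B : ℝ, B = max A 0 + B1 + 1 := ⟨_, rfl⟩
  obtain ⟨A', hA'⟩ : ∃ A' : ℝ, A' = max A3 ((r : ℝ) * (B + 1) + B2) + 1 := ⟨_, rfl⟩
  have hAB : A ≤ B - B1 := by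
    rw [hB]
    have := le_max_left A 0
    linarith
  have hB0 : 0 < B := by
    rw [hB]
    have := le_max_right A 0
    linarith
  have hA3' : A3 ≤ A' := by
    rw [hA']
    have := le_max_left A3 ((r : ℝ) * (B + 1) + B2)
    linarith
  have hA2' : (r : ℝ) * (B + 1) + B2 ≤ A' := by
    rw [hA']
    have := le_max_right A3 ((r : ℝ) * (B + 1) + B2)
    linarith
  refine ⟨C3 + 2 * 5 ^ r * C2 * 3 ^ B2 + 2 ^ (r + 1) * 2 ^ B1 * C1, A', 9, by positivity,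
    by linarith, by norm_num, ?_⟩
  intro Y hY E lo hi τ hτ H hH ε₀ hε hb
  have hY0 : 0 < Y := by linarith
  have hL : 2 ≤ Real.log Y := by
    rw [Real.le_log_iff_exp_le hY0]
    have h1 := Real.exp_one_lt_d9
    have h2 : Real.exp 2 = Real.exp 1 * Real.exp 1 := by
      rw [← Real.exp_add]
      norm_num
    have h3 := Real.exp_pos 1
    rw [h2]
    nlinarith
  have hL0 : 0 < Real.log Y := by linarith
  have hL1 : 1 ≤ Real.log Y := by linarith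
  have hL2 : Real.log (2 * Y) ≤ 2 * Real.log Y := by
    rw [Real.log_mul (by norm_num) hY0.ne', two_mul]
    exact add_le_add_left (Real.log_le_log (by norm_num) (by linarith)) _
  have hLL : 0 ≤ Real.log (2 * Y) := Real.log_nonneg (by linarith)
  obtain ⟨δ, hδ⟩ : ∃ δ : ℝ, δ = Real.log Y ^ (-B) := ⟨_, rfl⟩
  have hδ0 : 0 < δ := by
    rw [hδ]
    positivity
  have hδ1 : δ ≤ 1 := by
    rw [hδ]
    exact Real.rpow_le_one_of_one_le_of_nonpos hL1 (by linarith)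
  obtain ⟨LL, hLLd⟩ : ∃ LL : ℝ, LL = A' * Real.log (Real.log Y) := ⟨_, rfl⟩
  rw [← hLLd] at hb
  -- the two parts
  have hsplit : ∑ g ∈ Fintype.piFinset (fun _ : J => GF D (2 * Y)),
      (if Dj g ∧ (∀ a, Disjoint (g a) E) ∧ ∏ a, nr (g a) ≤ 2 * Y ∧
          (∀ a, ∀ v ∈ g a, lo a < nm v ∧ (nm v : ℝ) ≤ hi a) ∧ ∀ i, g (τ i) ≠ ∅ then
        ((wl ((∏ a, nr (g a)) / Y) : ℝ) : ℂ) * H g else 0) =
      ∑ g ∈ Fintype.piFinset (fun _ : J => GF D (2 * Y)),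
        (if Dj g ∧ ∏ a, nr (g a) ≤ 2 * Y ∧ ∀ i, g (τ i) ≠ ∅ then
          sumrF Y LL E lo hi H g else 0) +
      ∑ g ∈ Fintype.piFinset (fun _ : J => GF D (2 * Y)),
        (if (Dj g ∧ (∀ a, Disjoint (g a) E) ∧ ∏ a, nr (g a) ≤ 2 * Y ∧
          (∀ a, ∀ v ∈ g a, lo a < nm v ∧ (nm v : ℝ) ≤ hi a) ∧ ∀ i, g (τ i) ≠ ∅) ∧
          LL < ((∑ a, (g a).card : ℕ) : ℝ) then
        ((wl ((∏ a, nr (g a)) / Y) : ℝ) : ℂ) * H g else 0) := by
    rw [← Finset.sum_add_distrib]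
    refine Finset.sum_congr rfl fun g _ => ?_
    unfold sumrF
    by_cases h1 : Dj g
    swap
    · rw [if_neg (fun h => h1 h.1), if_neg (fun h => h1 h.1), if_neg (fun h => h1 h.1.1), add_zero]
    by_cases h2 : ∏ a, nr (g a) ≤ 2 * Y
    swap
    · rw [if_neg (fun h => h2 h.2.2.1), if_neg (fun h => h2 h.2.1),
        if_neg (fun h => h2 h.1.2.2.1), add_zero]
    by_cases h3 : ∀ i, g (τ i) ≠ ∅
    swap
    · rw [if_neg (fun h => h3 h.2.2.2.2), if_neg (fun h => h3 h.2.2),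
        if_neg (fun h => h3 h.1.2.2.2.2), add_zero]
    by_cases h4 : ∀ a, Disjoint (g a) E
    swap
    · rw [if_neg (fun h => h4 h.2.1), if_pos ⟨h1, h2, h3⟩, if_neg (fun h => h4 h.1),
        if_neg (fun h => h4 h.1.2.1), add_zero]
    by_cases h5 : ∀ a, ∀ v ∈ g a, lo a < nm v ∧ (nm v : ℝ) ≤ hi a
    swap
    · rw [if_neg (fun h => h5 h.2.2.2.1), if_pos ⟨h1, h2, h3⟩, if_neg (fun h => h5 h.2.1),
        if_neg (fun h => h5 h.1.2.2.2.1), add_zero]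
    rw [if_pos ⟨h1, h4, h2, h5, h3⟩, if_pos ⟨h1, h2, h3⟩]
    by_cases h6 : ((∑ a, (g a).card : ℕ) : ℝ) ≤ LL
    · rw [if_pos ⟨h4, h5, h6⟩, if_neg (fun h => not_lt.2 h6 h.2), add_zero]
    · rw [if_neg (fun h => h6 h.2.2), if_pos ⟨⟨h1, h4, h2, h5, h3⟩, not_le.1 h6⟩, zero_add]
  rw [hsplit]
  refine (norm_add_le _ _).trans ?_
  -- second part
  have hP2 : ‖∑ g ∈ Fintype.piFinset (fun _ : J => GF D (2 * Y)),
        (if (Dj g ∧ (∀ a, Disjoint (g a) E) ∧ ∏ a, nr (g a) ≤ 2 * Y ∧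
          (∀ a, ∀ v ∈ g a, lo a < nm v ∧ (nm v : ℝ) ≤ hi a) ∧ ∀ i, g (τ i) ≠ ∅) ∧
          LL < ((∑ a, (g a).card : ℕ) : ℝ) then
        ((wl ((∏ a, nr (g a)) / Y) : ℝ) : ℂ) * H g else 0)‖ ≤ C3 * Y * Real.log Y ^ (-A) := by
    refine le_trans ?_ (H3 A' hA3' Y (by linarith))
    refine (norm_sum_le _ _).trans (Finset.sum_le_sum fun g _ => ?_)
    rw [← hLLd]
    split_ifs with h1 h2 h2
    · rw [norm_mul, Complex.norm_real, Real.norm_eq_abs, abs_of_nonneg (wl_nonneg _)]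
      exact (mul_le_of_le_one_left (norm_nonneg _) (wl_le_one _)).trans (hH g)
    · exact absurd ⟨h1.1.2.2.1, h1.2⟩ h2
    · rw [norm_zero]
      positivity
    · rw [norm_zero]
  -- first part
  have hP1 : ‖∑ g ∈ Fintype.piFinset (fun _ : J => GF D (2 * Y)),
        (if Dj g ∧ ∏ a, nr (g a) ≤ 2 * Y ∧ ∀ i, g (τ i) ≠ ∅ then
          sumrF Y LL E lo hi H g else 0)‖ ≤
      ε₀ * (2 * Y) * (1 + 2 * Real.log (2 * Y) / δ) ^ r * (C2 * (1 + Real.log (2 * Y)) ^ B2) +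
        2 ^ (r + 1) * δ * (C1 * Y * (1 + Real.log Y) ^ B1) := by
    rw [sma D (2 * Y) τ hτ]
    refine (norm_sum_le _ _).trans ((Finset.sum_le_sum fun g hg => sumr_in D hM (by linarith)
      hδ0 hδ1 E lo hi τ H hH hε hb g hg).trans ?_)
    rw [Finset.sum_add_distrib, ← Finset.mul_sum, ← Finset.mul_sum]
    refine add_le_add (mul_le_mul_of_nonneg_left (H2 (2 * Y) (by linarith)) (by positivity))
      (mul_le_mul_of_nonneg_left ?_ (by positivity))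
    refine le_trans ?_ (H1 Y (by linarith) τ hτ)
    have hsub : Fintype.piFinset (fun _ : J => GF D (2 * Y)) ⊆
        Fintype.piFinset (fun _ : J => GF D (2 ^ (r + 1) * Y)) := by
      refine Fintype.piFinset_subset _ _ fun _ n hn => ?_
      rw [sumr_mem] at hn ⊢
      refine ⟨hn.1.trans ?_, hn.2⟩
      refine mul_le_mul_of_nonneg_right ?_ (by linarith)
      calc (2 : ℝ) = 2 ^ 1 := (pow_one 2).symm
        _ ≤ 2 ^ (r + 1) := pow_le_pow_right₀ (by norm_num) (Nat.le_add_left 1 r)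
    refine Finset.sum_le_sum_of_subset_of_nonneg hsub fun g _ _ =>
      Finset.sum_nonneg fun q _ => ?_
    have hM0 : 0 < M := zero_lt_one.trans_le hM
    split_ifs
    · positivity
    · exact le_rfl
  refine (add_le_add hP1 hP2).trans ?_
  -- the constants
  have e1 : (1 + 2 * Real.log (2 * Y) / δ) ^ r ≤ 5 ^ r * Real.log Y ^ ((r : ℝ) * (B + 1)) := by
    have h1 : 1 / δ = Real.log Y ^ B := by
      rw [hδ, Real.rpow_neg hL0.le, one_div, inv_inv]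
    have h2 : Real.log Y ^ (B + 1) = Real.log Y ^ B * Real.log Y := by
      rw [Real.rpow_add hL0, Real.rpow_one]
    have h3 : 1 ≤ Real.log Y ^ (B + 1) := Real.one_le_rpow hL1 (by linarith)
    have h4 : 1 + 2 * Real.log (2 * Y) / δ ≤ 5 * Real.log Y ^ (B + 1) := by
      have h5 : 2 * Real.log (2 * Y) / δ = 2 * Real.log (2 * Y) * Real.log Y ^ B := by
        rw [← h1]
        ring
      have h6 : 2 * Real.log (2 * Y) * Real.log Y ^ B ≤
          2 * (2 * Real.log Y) * Real.log Y ^ B := by gcongr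
      rw [h5]
      rw [h2] at h3 ⊢
      linarith
    calc (1 + 2 * Real.log (2 * Y) / δ) ^ r ≤ (5 * Real.log Y ^ (B + 1)) ^ r :=
          pow_le_pow_left₀ (by positivity) h4 r
      _ = 5 ^ r * Real.log Y ^ ((r : ℝ) * (B + 1)) := by
          rw [mul_pow, mul_comm (r : ℝ), Real.rpow_mul hL0.le, Real.rpow_natCast]
  have e2 : (1 + Real.log (2 * Y)) ^ B2 ≤ 3 ^ B2 * Real.log Y ^ B2 := by
    rw [← Real.mul_rpow (by norm_num) hL0.le]
    refine Real.rpow_le_rpow (by positivity) ?_ hB2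
    linarith
  have e3 : (1 + Real.log Y) ^ B1 ≤ 2 ^ B1 * Real.log Y ^ B1 := by
    rw [← Real.mul_rpow (by norm_num) hL0.le]
    refine Real.rpow_le_rpow (by positivity) ?_ hB1
    linarith
  have e4 : Real.log Y ^ ((r : ℝ) * (B + 1)) * Real.log Y ^ B2 ≤ Real.log Y ^ A' := by
    rw [← Real.rpow_add hL0]
    exact Real.rpow_le_rpow_of_exponent_le hL1 hA2'
  have e5 : δ * Real.log Y ^ B1 ≤ Real.log Y ^ (-A) := by
    rw [hδ, ← Real.rpow_add hL0]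
    exact Real.rpow_le_rpow_of_exponent_le hL1 (by linarith)
  have f1 : ε₀ * (2 * Y) * (1 + 2 * Real.log (2 * Y) / δ) ^ r *
      (C2 * (1 + Real.log (2 * Y)) ^ B2) ≤
      2 * 5 ^ r * C2 * 3 ^ B2 * (Y * (ε₀ * Real.log Y ^ A')) := by
    calc ε₀ * (2 * Y) * (1 + 2 * Real.log (2 * Y) / δ) ^ r * (C2 * (1 + Real.log (2 * Y)) ^ B2)
        ≤ ε₀ * (2 * Y) * (5 ^ r * Real.log Y ^ ((r : ℝ) * (B + 1))) *
          (C2 * (3 ^ B2 * Real.log Y ^ B2)) := by gcongr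
      _ = 2 * 5 ^ r * C2 * 3 ^ B2 * (Y * (ε₀ * (Real.log Y ^ ((r : ℝ) * (B + 1)) *
          Real.log Y ^ B2))) := by ring
      _ ≤ 2 * 5 ^ r * C2 * 3 ^ B2 * (Y * (ε₀ * Real.log Y ^ A')) := by gcongr
  have f2 : 2 ^ (r + 1) * δ * (C1 * Y * (1 + Real.log Y) ^ B1) ≤
      2 ^ (r + 1) * 2 ^ B1 * C1 * (Y * Real.log Y ^ (-A)) := by
    calc 2 ^ (r + 1) * δ * (C1 * Y * (1 + Real.log Y) ^ B1)
        ≤ 2 ^ (r + 1) * δ * (C1 * Y * (2 ^ B1 * Real.log Y ^ B1)) := by gcongr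
      _ = 2 ^ (r + 1) * 2 ^ B1 * C1 * (Y * (δ * Real.log Y ^ B1)) := by ring
      _ ≤ 2 ^ (r + 1) * 2 ^ B1 * C1 * (Y * Real.log Y ^ (-A)) := by gcongr
  have g1 : 0 ≤ Y * (ε₀ * Real.log Y ^ A') := by positivity
  have g2 : 0 ≤ Y * Real.log Y ^ (-A) := by positivity
  have g3 : (0 : ℝ) ≤ 2 * 5 ^ r * C2 * 3 ^ B2 := by positivity
  have g4 : (0 : ℝ) ≤ 2 ^ (r + 1) * 2 ^ B1 * C1 := by positivity
  have g5 := mul_nonneg g3 g2
  have g6 := mul_nonneg g4 g1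
  have g7 := mul_nonneg hC3.le g1
  calc _ ≤ 2 * 5 ^ r * C2 * 3 ^ B2 * (Y * (ε₀ * Real.log Y ^ A')) +
        2 ^ (r + 1) * 2 ^ B1 * C1 * (Y * Real.log Y ^ (-A)) + C3 * (Y * Real.log Y ^ (-A)) := by
        rw [mul_assoc C3]
        exact add_le_add (add_le_add f1 f2) le_rfl
    _ ≤ (C3 + 2 * 5 ^ r * C2 * 3 ^ B2 + 2 ^ (r + 1) * 2 ^ B1 * C1) *
        (Y * (ε₀ * Real.log Y ^ A') + Y * Real.log Y ^ (-A)) := by
        linarith [add_mul C3 (2 * 5 ^ r * C2 * 3 ^ B2) (Y * (ε₀ * Real.log Y ^ A')),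
          mul_add (C3 + 2 * 5 ^ r * C2 * 3 ^ B2 + 2 ^ (r + 1) * 2 ^ B1 * C1)
            (Y * (ε₀ * Real.log Y ^ A')) (Y * Real.log Y ^ (-A)),
          add_mul (C3 + 2 * 5 ^ r * C2 * 3 ^ B2) (2 ^ (r + 1) * 2 ^ B1 * C1)
            (Y * (ε₀ * Real.log Y ^ A')),
          add_mul (C3 + 2 * 5 ^ r * C2 * 3 ^ B2) (2 ^ (r + 1) * 2 ^ B1 * C1)
            (Y * Real.log Y ^ (-A)),
          add_mul C3 (2 * 5 ^ r * C2 * 3 ^ B2) (Y * Real.log Y ^ (-A))]
    _ = _ := by ring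

end H51.CUB
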