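import Pool.Agent.H51.CUB.Def

/-!
# H51-CUB-TDEF: sums over typed families (MP_b39724_nt), definitions

* `TY N w p J`: types `a ∈ J` with class `cls a ∈ Fin N`, functional `psi a ∈ (ZMod p)^w`, window `(lo a, hi a]` for the norms and weight `wt a`.
* `clf T g i`: the union of the sets `g a` of class `i`. `spt g`: the types with `g a ≠ ∅`.
* `PF`: the sum over `ρ ∈ RHf (clf T g)` of `ep (∑ psi a · cq ρ v)`. `wl`: the weight function, `1` on `x ≤ 1`, `0` for `x ≥ 2`, Lipschitz.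
* `TS T ω Y`: the sum over the disjoint families `g` of good primes in the windows, off `E`, with the spanning condition, of `ω (spt g) ∏ wt^#g * wl (∏ nr / Y) * PF g`.
* `Th3`: the linking number of three types. `th1`: the functional `u ↦ psi a · [[s_a', u], s_a]`.
-/

set_option autoImplicit false

open scoped NumberField
open IsDedekindDomain
open scoped Classical

noncomputable section

namespace H51.CUB

open H63.MA H38.BB H38.BG H57.PC

/-- types of primes -/
structure TY (N w p : ℕ) (J : Type) where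
  cls : J → Fin N
  psi : J → Fin w → ZMod p
  lo : J → ℝ
  hi : J → ℝ
  wt : J → ℝ

/-- the weight function -/
def wl (x : ℝ) : ℝ := max 0 (min 1 (2 - x))

section th

variable {p m l w N : ℕ} {P R : Type} [Group P] [Group R] {J : Type}

/-- the linking number of three types -/
def Th3 [NeZero p] (Dg : GP p m l w N P R) (T : TY N w p J) (a b c : J) : ZMod p :=
  dt (T.psi a) (Dg.β (Dg.kV (Dg.s (T.cls b)) (Dg.s (T.cls c))) (Dg.s (T.cls a))) +
  dt (T.psi b) (Dg.β (Dg.kV (Dg.s (T.cls c)) (Dg.s (T.cls a))) (Dg.s (T.cls b))) +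
  dt (T.psi c) (Dg.β (Dg.kV (Dg.s (T.cls a)) (Dg.s (T.cls b))) (Dg.s (T.cls c)))

/-- `u ↦ psi a · [[s_b, u], s_a]` -/
def th1 [NeZero p] (Dg : GP p m l w N P R) (T : TY N w p J) (a b : J) (u : Fin m → ZMod p) : ZMod p :=
  dt (T.psi a) (Dg.β (Dg.kV (Dg.s (T.cls b)) u) (Dg.s (T.cls a)))

end th

section sums

variable {K : Type} [Field K] [NumberField K] {p : ℕ} {ζ : K} {D : RD0 K p ζ} {Ω : Type}
  [Field Ω] [Algebra K Ω] {m l w N : ℕ} {P R : Type} [Group P] [Group R] {J : Type} [Fintype J]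

/-- the classes of a typed family -/
def clf (T : TY N w p J) (g : J → Finset (Pl K)) (i : Fin N) : Finset (Pl K) :=
  (Finset.univ.filter fun a => T.cls a = i).biUnion g

/-- the support of a typed family -/
def spt (g : J → Finset (Pl K)) : Finset J := Finset.univ.filter fun a => g a ≠ ∅

/-- the sum over the homomorphisms of the phases of a typed family -/
def PF [NeZero p] {L : LDs D Ω} (Dg : GP p m l w N P R) (Fr : FR L) (T : TY N w p J)
    (b : Fin m → Kˣ) (E : Finset (Pl K)) (ε : Pl K → Gal(Ω/K) → R) (g : J → Finset (Pl K)) : ℂ :=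
  ∑ ρ ∈ RHf L Dg b E ε (clf T g), ep p (∑ a, ∑ v ∈ g a, dt (T.psi a) (cq Dg Fr ρ v))

/-- the conditions for a typed family -/
def Wd (D : RD0 K p ζ) (T : TY N w p J) (E : Finset (Pl K)) (Y : ℝ) (g : J → Finset (Pl K)) : Prop :=
  Dj g ∧ (∀ a, Disjoint (g a) E) ∧ ∏ a, nr (g a) ≤ 2 * Y ∧
    ∀ a, ∀ v ∈ g a, T.lo a < nm v ∧ (nm v : ℝ) ≤ T.hi a

/-- the sum over the typed families -/
def TS [NeZero p] {L : LDs D Ω} (Dg : GP p m l w N P R) (Fr : FR L) (T : TY N w p J)
    (b : Fin m → Kˣ) (E : Finset (Pl K)) (ε : Pl K → Gal(Ω/K) → R) (ω : Finset J → ℂ) (Y : ℝ) : ℂ :=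
  ∑ g ∈ Fintype.piFinset (fun _ : J => GF D (2 * Y)),
    if Wd D T E Y g ∧ SpR Dg.cr b (clf T g) then
      ω (spt g) * ((∏ a, T.wt a ^ (g a).card : ℝ) : ℂ) * ((wl ((∏ a, nr (g a)) / Y) : ℝ) : ℂ) *
        PF Dg Fr T b E ε g
    else 0

end sums

end H51.CUB
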