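import Pool.Agent.H51.CUB.AL4

/-!
# H51-CUB-VDEF: configurations with added primes, definitions

* `vn n q`: `n` and the primes `q i`. `vs σ q τ`: the function `σ` with the value `τ i` at `q i`.
* `Bse D b E n`: the primes of `n` are good and not in `E`, `b` is supported on `S0 ∪ E`.
* `Cell D Dg b E n σ Q`: the primes of `Q` are good, not in `E`, `n`, and have the same class, the same symbols at `n` and `E` and the same level 1 Frobenius values.
* `VF`: `FF` of the configuration with added primes, `0` if they are not distinct or not outside `n`.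
-/

set_option autoImplicit false

open scoped NumberField
open IsDedekindDomain
open scoped Classical

noncomputable section

namespace H51.CUB

open H63.MA H38.BB H38.BG H57.PC H77.PC3

variable {K : Type} [Field K] [NumberField K] {p : ℕ} {ζ : K} {Ω : Type} [Field Ω] [Algebra K Ω]
  {m l w N : ℕ} {P R : Type} [Group P] [Group R]

/-- `n` and the primes `q i` -/
def vn {r : ℕ} (n : Finset (Pl K)) (q : Fin r → Pl K) : Finset (Pl K) := n ∪ Finset.univ.image q

/-- the function with the values `τ i` at `q i` -/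
def vs {r : ℕ} {X : Type} (σ : Pl K → X) (q : Fin r → Pl K) (τ : Fin r → X) (v : Pl K) : X :=
  if h : ∃ i, q i = v then τ h.choose else σ v

/-- the basic hypotheses -/
structure Bse (D : RD0 K p ζ) (b : Fin m → Kˣ) (E n : Finset (Pl K)) : Prop where
  gn : ∀ v ∈ n, D.Gd v ∧ v ∉ E
  bs : BS2 D b E

/-- a cell of primes -/
structure Cell (D : RD0 K p ζ) (Dg : GP p m l w N P R) (b : Fin m → Kˣ) (E n : Finset (Pl K))
    (σ : Pl K → R) (Q : Finset (Pl K)) : Prop where
  gd : ∀ v ∈ Q, D.Gd v ∧ v ∉ E ∧ v ∉ n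
  cls : ∀ v ∈ Q, ∀ v' ∈ Q, D.q v = D.q v'
  ln : ∀ u ∈ n, ∀ v ∈ Q, ∀ v' ∈ Q, D.LL u (D.pi v) = D.LL u (D.pi v')
  lE : ∀ u ∈ E, ∀ v ∈ Q, ∀ v' ∈ Q, D.LL u (D.pi v) = D.LL u (D.pi v')
  la : ∀ k, ∀ v ∈ Q, ∀ v' ∈ Q, D.LL v (ak D b n (sg Dg σ) k) = D.LL v' (ak D b n (sg Dg σ) k)

/-- `FF` of a configuration with added primes -/
def VF {D : RD0 K p ζ} {L : LDs D Ω} (Dg : GP p m l w N P R) (Fr : FR L) (b : Fin m → Kˣ)
    (E : Finset (Pl K)) (ε : Pl K → Gal(Ω/K) → R) (n : Finset (Pl K)) (σ : Pl K → R)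
    (ψ : Pl K → Fin w → ZMod p) {r : ℕ} (τ : Fin r → R) (φ : Fin r → Fin w → ZMod p)
    (q : Fin r → Pl K) : ℂ :=
  if Function.Injective q ∧ ∀ i, q i ∉ n then FF Dg Fr b E ε (vn n q) (vs σ q τ) (vs ψ q φ) else 0

end H51.CUB
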